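import Mathlib
import Pool.Agent.Work.MP_5e5ff1_ag.Defs
import Pool.Agent.Work.MP_5e5ff1_ag.A.Defs
import Pool.Agent.Work.MP_5e5ff1_ag.TG.StmtsB

set_option autoImplicit false

/-!
# MP_5e5ff1_ag, block TH (hyperbolic triangle groups, base point at a cusp): definitions

Captain helper18, co-captain helper45.  The system `f' = (b/t + c/(t-1)) f` with
`b = diag (β i) / M`, `c = C / M`.
-/

open Matrix Filter Topology
open scoped Polynomial

namespace Pool.Agent.Work.MP_5e5ff1_ag.TH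

section alg

variable {ι : Type} [Fintype ι] [DecidableEq ι]

/-- the matrix `M b = diag β` -/
def db (R : Type*) [CommRing R] (β : ι → ℤ) : Matrix ι ι R :=
  Matrix.diagonal fun i => ((β i : ℤ) : R)

/-- numerators `(M t (t-1))^k ∇^k` of the iterates of the connection (recursion of the frozen
statement with `n = M`), over any commutative ring; `b`, `c` are `M` times the residues -/
noncomputable def Qm {R : Type*} [CommRing R] (M : ℕ) (b c : Matrix ι ι R) : ℕ → Matrix ι ι R[X]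
  | 0 => 1
  | k + 1 => (Polynomial.C (M : R) * ((Polynomial.X : R[X]) * (Polynomial.X - 1))) •
        (Qm M b c k).map (fun f => Polynomial.derivative f)
      - ((k : R[X]) * Polynomial.C (M : R) * (2 * (Polynomial.X : R[X]) - 1)) • Qm M b c k
      - (((Polynomial.X : R[X]) - 1) • b.map (fun x => Polynomial.C x)
          + (Polynomial.X : R[X]) • c.map (fun x => Polynomial.C x)) * Qm M b c k

/-- the reversed polynomials `y^k Q_k(1/y)` -/
noncomputable def Qr {R : Type*} [CommRing R] (M : ℕ) (b c : Matrix ι ι R) : ℕ → Matrix ι ι R[X]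
  | 0 => 1
  | k + 1 => -((Polynomial.C (M : R) * ((Polynomial.X : R[X]) * (1 - Polynomial.X))) •
        (Qr M b c k).map (fun f => Polynomial.derivative f))
      - ((k : R[X]) * Polynomial.C (M : R)) • Qr M b c k
      - ((1 - (Polynomial.X : R[X])) • b.map (fun x => Polynomial.C x)
          + c.map (fun x => Polynomial.C x)) * Qr M b c k

/-- the p-curvature of the system vanishes modulo `p` -/
def PZ (M : ℕ) (β : ι → ℤ) (C : Matrix ι ι ℤ) (p : ℕ) : Prop :=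
  Qm M (db (ZMod p) β) (C.map (Int.castRingHom (ZMod p))) p = 0

/-- the operator `M x ∇ = M x d/dx + ∑ A m x^m` on the coefficients of power series in `x` -/
noncomputable def DA {R : Type*} [CommRing R] (M : ℕ) (A : ℕ → Matrix ι ι R) :
    (ℕ → ι → R) →ₗ[R] (ℕ → ι → R) where
  toFun v := fun n i => (M : R) * (n : R) * v n i +
    ∑ k ∈ Finset.range (n + 1), (A (n - k) *ᵥ v k) i
  map_add' v w := by
    funext n i
    simp only [Pi.add_apply, Matrix.mulVec_add, Finset.sum_add_distrib]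
    ring
  map_smul' a v := by
    funext n i
    simp only [Pi.smul_apply, Matrix.mulVec_smul, smul_eq_mul, RingHom.id_apply,
      ← Finset.mul_sum]
    ring

/-- the coefficients at the point `t = 0`, `x = t` -/
def A0 {R : Type*} [CommRing R] (β : ι → ℤ) (C : Matrix ι ι R) (m : ℕ) : Matrix ι ι R :=
  if m = 0 then -db R β else C

/-- the coefficients at the point `t = 1`, `x = t - 1` -/
def A1 {R : Type*} [CommRing R] (β : ι → ℤ) (C : Matrix ι ι R) (m : ℕ) : Matrix ι ι R :=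
  if m = 0 then -C else ((-1 : R) ^ m) • db R β

/-- the coefficients at the point `t = ∞`, `x = 1/t` -/
def A2 {R : Type*} [CommRing R] (β : ι → ℤ) (C : Matrix ι ι R) (m : ℕ) : Matrix ι ι R :=
  if m = 0 then db R β + C else C

/-- the constant sequence (only the term of degree 0) -/
def cst {R : Type*} [Zero R] (v : ι → R) : ℕ → ι → R := fun n i => if n = 0 then v i else 0

/-- multiplication by `x^k` -/
def shf {R : Type*} [Zero R] (k : ℕ) (v : ℕ → ι → R) : ℕ → ι → R :=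
  fun n i => if k ≤ n then v (n - k) i else 0

/-- `U = ∑ U n t^n` with `U 0 = 1`, `Y = U t^b` solves the system; over any field -/
structure IsU {F : Type*} [Field F] (M : ℕ) (β : ι → ℤ) (C : Matrix ι ι F)
    (U : ℕ → Matrix ι ι F) : Prop where
  zero : U 0 = 1
  eqn : ∀ (n : ℕ) (i j : ι), ((M : F) * (n : F) + ((β j : F) - (β i : F))) * U n i j +
    ∑ k ∈ Finset.range n, (C * U k) i j = 0

/-- a local solution without logarithms: `DA G_j = γ_j G_j` for the columns of `G` -/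
structure IsG (M : ℕ) (A : ℕ → Matrix ι ι ℚ) (γ : ι → ℤ) (G : ℕ → Matrix ι ι ℚ) : Prop where
  det : (G 0).det ≠ 0
  eqn : ∀ (n : ℕ) (i j : ι), DA M A (fun n i => G n i j) n i = (γ j : ℚ) * G n i j

/-- rational version of an integral matrix -/
abbrev qm (C : Matrix ι ι ℤ) : Matrix ι ι ℚ := C.map (Int.castRingHom ℚ)

/-- reduction mod `p` of an integral matrix -/
abbrev pm (p : ℕ) (C : Matrix ι ι ℤ) : Matrix ι ι (ZMod p) := C.map (Int.castRingHom (ZMod p))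

/-- the operator satisfies `D^p = D` modulo arbitrarily large primes `p` -/
def Frob (M : ℕ) (A : ℕ → Matrix ι ι ℤ) : Prop := ∀ N : ℕ, ∃ p : ℕ, N < p ∧ p.Prime ∧
  ∀ v : ℕ → ι → ZMod p, ((DA M (fun m => pm p (A m))) ^ p) v = DA M (fun m => pm p (A m)) v

/-- `(M x ∇ - lam) w` -/
noncomputable def L1 {R : Type*} [CommRing R] (M : ℕ) (A : ℕ → Matrix ι ι R) (lam : ℤ)
    (w : ℕ → ι → R) : ℕ → ι → R := fun m i => DA M A w m i - (lam : R) * w m i

/-! ### denominators -/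

/-- number of distinct exponents at 0 -/
def nd (β : ι → ℤ) : ℕ := (Finset.univ.image β).card

/-- largest number of distinct exponents at 0 whose differences are `p`-integral -/
def spc (p M : ℕ) (β : ι → ℤ) : ℕ := Finset.univ.sup fun i =>
  ((Finset.univ.image β).filter fun c => (p : ℤ) ^ (M.factorization p) ∣ c - β i).card

/-- bound of the exponent for primes without hypothesis -/
def LS (p M B n : ℕ) : ℕ := ∑ l ∈ Finset.Icc 1 (Nat.log p (M * n + B)), (n / p ^ l + 1)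

/-- bound of the exponent for primes with vanishing p-curvature -/
def LG (p M B n : ℕ) : ℕ := ∑ l ∈ Finset.Icc 2 (Nat.log p (M * (n + p) + B)), ((n + p) / p ^ l + 1)

/-- the same for products of `J` coefficients of total degree `N` -/
def LSJ (p M B J N : ℕ) : ℕ := ∑ l ∈ Finset.Icc 1 (Nat.log p (M * N + B)), (N / p ^ l + J)

/-- the same for products of `J` coefficients of total degree `N` -/
def LGJ (p M B J N : ℕ) : ℕ :=
  ∑ l ∈ Finset.Icc 2 (Nat.log p (M * (N + p) + B)), ((N + J * p) / p ^ l + J)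

open Classical in
/-- the exponent of `p` in the common denominator -/
noncomputable def ex (M : ℕ) (β : ι → ℤ) (S : Set ℕ) (B J N p : ℕ) : ℕ :=
  if p ∣ M then M.factorization p * N + spc p M β * LSJ p M B J N
  else nd β * (if p ∈ S then LSJ p M B J N else LGJ p M B J N)

/-- the primes up to `x` -/
def opr (x : ℕ) : Finset ℕ := (Finset.Icc 2 x).filter Nat.Prime

/-- common denominator -/
noncomputable def dJ (M : ℕ) (β : ι → ℤ) (S : Set ℕ) (B J N : ℕ) : ℕ :=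
  ∏ p ∈ opr (M * N + B + M), p ^ ex M β S B J N p

open Classical in
/-- the arithmetic cost per degree is at most `L` -/
def Cost (M : ℕ) (β : ι → ℤ) (S : Set ℕ) (L : ℝ) : Prop := ∀ F : Finset ℕ,
  (∀ p ∈ F, p.Prime ∧ ¬ p ∣ M) →
  ∑ p ∈ M.primeFactors, ((M.factorization p : ℝ) + (spc p M β : ℝ) / ((p : ℝ) - 1)) * Real.log p +
    (nd β : ℝ) * ∑ p ∈ F, (1 / ((p : ℝ) * (p - 1)) + if p ∈ S then 1 / (p : ℝ) else 0) *
      Real.log p ≤ L

/-- hypotheses of the theorem for integral systems; `n1 = 0` (`n2 = 0`) means no condition at the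
point `1` (`∞`) -/
structure Sys (M n1 n2 : ℕ) (β : ι → ℤ) (C : Matrix ι ι ℤ) (S : Set ℕ) (L : ℝ) : Prop where
  hM : 0 < M
  hβ : ∀ i j, (M : ℤ) ∣ β i - β j → β i = β j
  h1 : n1 ≠ 0 → ∃ (m : ℕ) (γ : Fin m → ℤ), (∀ j, (M : ℤ) ∣ n1 * γ j) ∧
    Polynomial.aeval C (∏ j, (Polynomial.X - Polynomial.C (γ j))) = 0
  h2 : n2 ≠ 0 → ∃ (m : ℕ) (γ : Fin m → ℤ), (∀ j, (M : ℤ) ∣ n2 * γ j) ∧
    Polynomial.aeval (db ℤ β + C) (∏ j, (Polynomial.X - Polynomial.C (γ j))) = 0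
  cost : Cost M β S L
  pz : ∀ p : ℕ, p.Prime → ¬ p ∣ M → p ∉ S → PZ M β C p

end alg

/-! ### analysis -/

/-- the exponent: 1 if the point is a cusp -/
def e1 (n : ℕ) : ℕ := if n = 0 then 1 else n

/-- The map `φ = δ / A^(e1 n2)`, `δ z = z^m g z`, on the unit disc: ramified of order `n1` over 1
and `n2` over `∞` (omitting the value if `n = 0`), zero only at 0. -/
structure IsMap (n1 n2 : ℕ) (R : ℝ) (m : ℕ) (g A w : ℂ → ℂ) : Prop where
  dg : DifferentiableOn ℂ g (Metric.ball 0 1)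
  dA : DifferentiableOn ℂ A (Metric.ball 0 1)
  dw : DifferentiableOn ℂ w (Metric.ball 0 1)
  m0 : 0 < m
  g0 : ∀ z ∈ Metric.ball (0 : ℂ) 1, g z ≠ 0
  rel : ∀ z ∈ Metric.ball (0 : ℂ) 1, z ^ m * g z - A z ^ e1 n2 = w z ^ e1 n1
  nA : n2 = 0 → ∀ z ∈ Metric.ball (0 : ℂ) 1, A z ≠ 0
  nw : n1 = 0 → ∀ z ∈ Metric.ball (0 : ℂ) 1, w z ≠ 0
  A00 : A 0 ≠ 0
  rad : R ≤ ‖g 0‖ / ‖A 0‖ ^ e1 n2

section ana

variable {ι : Type} [Fintype ι] [DecidableEq ι]

/-- coefficient matrix of the pulled back system, after multiplication of the solutions with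
`δ^(-lam/M) (w A)^K`, `δ z = z^m g z` -/
noncomputable def AA (M n1 n2 : ℕ) (β : ι → ℤ) (C : Matrix ι ι ℤ) (K : ℕ) (lam : ℤ) (m : ℕ)
    (g A w : ℂ → ℂ) (z : ℂ) : Matrix ι ι ℂ :=
  (((m : ℂ) / z + deriv g z / g z) * (M : ℂ)⁻¹) •
      (Matrix.diagonal fun i => ((β i : ℂ) - (lam : ℂ))) +
    (deriv w z / w z) • (((e1 n1 : ℂ) * (M : ℂ)⁻¹) • C.map (Int.castRingHom ℂ) +
      (K : ℂ) • (1 : Matrix ι ι ℂ)) +
    (deriv A z / A z) • ((K : ℂ) • (1 : Matrix ι ι ℂ) -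
      ((e1 n2 : ℂ) * (M : ℂ)⁻¹) • (Matrix.diagonal (fun i => (β i : ℂ)) +
        C.map (Int.castRingHom ℂ)))

/-- a local fundamental solution near a point `z0 ≠ 0`, holomorphic also at the zeros of `A`, `w` -/
structure LocSol (M n1 n2 : ℕ) (β : ι → ℤ) (C : Matrix ι ι ℤ) (K : ℕ) (lam : ℤ) (m : ℕ)
    (g A w : ℂ → ℂ) (N : ℂ → Matrix ι ι ℂ) (z0 : ℂ) (ρ : ℝ) : Prop where
  pos : 0 < ρ
  sub : Metric.ball z0 ρ ⊆ Metric.ball 0 1
  zer : (0 : ℂ) ∉ Metric.ball z0 ρ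
  diff : ∀ i j, DifferentiableOn ℂ (fun z => N z i j) (Metric.ball z0 ρ)
  det : ∀ z ∈ Metric.ball z0 ρ, A z ≠ 0 → w z ≠ 0 → (N z).det ≠ 0
  ode : ∀ z ∈ Metric.ball z0 ρ, A z ≠ 0 → w z ≠ 0 → ∀ i j,
    HasDerivAt (fun y => N y i j) ((AA M n1 n2 β C K lam m g A w z * N z) i j) z

end ana

/-! ### interfaces -/

/-- the types of part Z with their radii -/
def TypN (n1 n2 : ℕ) (R : ℝ) : Prop :=
  (n1 = 3 ∧ n2 = 3 ∧ R = 48 * Real.sqrt 3) ∨ (n1 = 6 ∧ n2 = 6 ∧ R = 12 * Real.sqrt 3) ∨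
  (n1 = 2 ∧ n2 = 6 ∧ R = 108) ∨ (n1 = 6 ∧ n2 = 2 ∧ R = 108) ∨
  (n1 = 3 ∧ n2 = 0 ∧ R = 27) ∨ (n1 = 0 ∧ n2 = 3 ∧ R = 27)

/-- the types `(n1, n2)` with the radius `R` -/
def Typ (n1 n2 : ℕ) (R : ℝ) : Prop :=
  (n1 = 4 ∧ n2 = 4 ∧ R = 32) ∨ (n1 = 2 ∧ n2 = 4 ∧ R = 256) ∨ (n1 = 4 ∧ n2 = 2 ∧ R = 256) ∨
  (n1 = 2 ∧ n2 = 0 ∧ R = 64) ∨ (n1 = 0 ∧ n2 = 2 ∧ R = 64) ∨ (n1 = 2 ∧ n2 = 3 ∧ R = 1728) ∨
  (n1 = 3 ∧ n2 = 2 ∧ R = 1728) ∨ (n1 = 0 ∧ n2 = 0 ∧ R = 16) ∨ TypN n1 n2 R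

/-- existence of the maps (part C, helper45) -/
def StMapT : Prop := ∀ (n1 n2 : ℕ) (R : ℝ), Typ n1 n2 R → ∀ R' < R,
  ∃ (m : ℕ) (g A w : ℂ → ℂ), IsMap n1 n2 R' m g A w

/-- the algebraicity criterion (part B, helper45) -/
def StCrit2 : Prop := ∀ (s A : ℝ) (a : ℕ → ℚ) (m : ℕ) (g A' h F : ℂ → ℂ),
  TG.Den s a → 1 ≤ A → (∀ n, |(a n : ℝ)| ≤ A ^ (n + 1)) → 0 < m →
  DifferentiableOn ℂ g (Metric.ball 0 1) → DifferentiableOn ℂ A' (Metric.ball 0 1) →
  DifferentiableOn ℂ h (Metric.ball 0 1) → DifferentiableOn ℂ F (Metric.ball 0 1) →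
  A' 0 ≠ 0 → s < Real.log (‖g 0‖ / ‖A' 0‖) → (∃ z ∈ Metric.ball (0 : ℂ) 1, h z ≠ 0) →
  (∀ᶠ z in 𝓝 (0 : ℂ), F z = h z * ∑' n : ℕ, (a n : ℂ) * (z ^ m * g z / A' z) ^ n) →
  IsAlgebraic ℚ[X] (PowerSeries.mk a : PowerSeries ℚ)

end Pool.Agent.Work.MP_5e5ff1_ag.TH
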