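import Mathlib
import Pool.Agent.Work.MP_5e5ff1_ag.TH.Defs
import Pool.Agent.Work.MP_5e5ff1_ag.TG.StmtsA

set_option autoImplicit false

/-!
# MP_5e5ff1_ag, block TH, part A: p-adic estimates

Every docstring is the complete proof.  USES lists the statements which the item may take as
hypotheses `(h : StX)`.  Captain helper18, co-captain helper45.  Most items are generalisations
(`8 ↦ M`, `2β ↦ β`) of the proved items of the folder `TG`: copy the file `TG/I_<NAME>.lean` named in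
the docstring and adapt it (into your own file, with the namespace `TH`).
-/

open Matrix Filter Topology
open scoped Polynomial

namespace Pool.Agent.Work.MP_5e5ff1_ag.TH

/-- UEX, EASY (TG/I_UEX).  Existence and uniqueness of `U`.

For `n = 0` the equation says `(β j - β i) (U 0) i j = 0`, true for `U 0 = 1`.  For `n ≥ 1` the
factor `M n + β j - β i` is nonzero: otherwise `β i - β j = M n`, so `β i = β j` by the hypothesis
and `n = 0` (`M > 0`).  Strong recursion. -/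
def StUEX : Prop := ∀ (F : Type) [Field F] [CharZero F] (ι : Type) [Fintype ι] [DecidableEq ι]
  (M : ℕ) (β : ι → ℤ) (C : Matrix ι ι F), 0 < M → (∀ i j, (M : ℤ) ∣ β i - β j → β i = β j) →
  ∃ U : ℕ → Matrix ι ι F, IsU M β C U ∧ ∀ U', IsU M β C U' → U' = U

/-- UREC, EASY (TG/I_UREC).  The ultrametric recursion: strong induction on `n` for the column `j`.
`n = 0`: `|U 0 i j| ≤ 1 ≤ g 0`.  Step: `|M n + β_j - β_i| |U n i j| = |∑_{k<n} ∑_l C i l U k l j| ≤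
g (n-1) ≤ |M n + β_j - β_i| g n`, and the factor is nonzero since `g (n-1) ≥ 1`. -/
def StUREC : Prop := ∀ (p : ℕ) [Fact p.Prime] (ι : Type) [Fintype ι] [DecidableEq ι]
  (M : ℕ) (β : ι → ℤ) (C : Matrix ι ι ℤ) (U : ℕ → Matrix ι ι ℚ), IsU M β (qm C) U →
  ∀ (j : ι) (g : ℕ → ℚ), 1 ≤ g 0 → Monotone g →
  (∀ (n : ℕ) (i : ι), g n ≤ padicNorm p ((M : ℚ) * ((n : ℚ) + 1) + ((β j : ℚ) - (β i : ℚ))) *
    g (n + 1)) →
  ∀ (n : ℕ) (i : ι), padicNorm p (U n i j) ≤ g n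

/-- CN1, EASY (TG/I_CN1).  Counting in an arithmetic progression.

`v_p(x) = #{l ∈ [1, log_p H] : p^l ∣ x}` for `0 < |x| ≤ H`; `|M' k + δ| ≤ M' n + B ≤ M n + B`; for
every `l` at most `n / p^l + 1` of the `k ∈ [1, n]` satisfy `p^l ∣ M' k + δ` (`M'` invertible). -/
def StCN1 : Prop := ∀ (p M' M : ℕ), p.Prime → ¬ p ∣ M' → M' ≤ M → ∀ (B n : ℕ) (δ : ℤ), |δ| ≤ B →
  (∀ k : ℕ, 1 ≤ k → (M' : ℤ) * (k : ℤ) + δ ≠ 0) →
  ∑ k ∈ Finset.Icc 1 n, padicValInt p ((M' : ℤ) * (k : ℤ) + δ) ≤ LS p M B n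

/-- CN2, EASY (TG/I_CN2).  The same for complete blocks: for `l = 1` exactly `m` of the
`k ∈ [1, m p]` satisfy `p ∣ M k + δ`. -/
def StCN2 : Prop := ∀ (p M : ℕ), p.Prime → ¬ p ∣ M → ∀ (B m : ℕ) (δ : ℤ), |δ| ≤ B →
  (∀ k : ℕ, 1 ≤ k → (M : ℤ) * (k : ℤ) + δ ≠ 0) →
  ∑ k ∈ Finset.Icc 1 (m * p), padicValInt p ((M : ℤ) * (k : ℤ) + δ) ≤
    m + ∑ l ∈ Finset.Icc 2 (Nat.log p (M * (m * p) + B)), (m * p / p ^ l + 1)

/-- MOD, EASY-MEDIUM (compare TG/I_TWO, TG/I_BAD).  Primes dividing `M`.  USES UREC CN1.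

Let `k = v_p(M)` (`M.factorization p`), `M' = M / p^k`, not divisible by `p`.  Fix `j`;
`T` = the elements `c` of the image of `β` with `p^k ∣ c - β_j`; at most `spc p M β` elements.
For `c ∈ T`, `n ≥ 1`: `M n + β_j - c = p^k (M' n + δ_c)`, `δ_c = (β_j - c)/p^k`, not 0 by the
hypothesis on `β`, `|δ_c| ≤ B`.  UREC with `g n = p^(k n) ∏_{c∈T} ∏_{m=1}^n |M' m + δ_c|⁻¹`
(`g 0 = 1`, monotone).  Step: if `β_i ∈ T`, `|M(n+1) + β_j - β_i| = p^(-k) |M'(n+1) + δ|` and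
`g(n+1) ≥ g n p^k |M'(n+1) + δ|⁻¹`.  If `β_i ∉ T`, `v_p(β_j - β_i) < k`, so
`|M(n+1) + β_j - β_i| = |β_j - β_i| ≥ p^(-k)` and `g(n+1) ≥ g n p^k`.  By CN1
`g n ≤ p^(k n + #T LS p M B n)`. -/
def StMOD : Prop := ∀ (p : ℕ) [Fact p.Prime] (ι : Type) [Fintype ι] [DecidableEq ι]
  (M : ℕ) (β : ι → ℤ) (C : Matrix ι ι ℤ) (U : ℕ → Matrix ι ι ℚ), 0 < M → IsU M β (qm C) U →
  (∀ i j, (M : ℤ) ∣ β i - β j → β i = β j) → ∀ B : ℕ, (∀ i j, |β i - β j| ≤ B) →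
  ∀ (n : ℕ) (i j : ι), padicNorm p (U n i j) ≤
    (p : ℚ) ^ (M.factorization p * n + spc p M β * LS p M B n)

/-- BAD, EASY (TG/I_BAD).  Primes without hypothesis.  USES UREC CN1.

UREC with `g n = ∏_{c ∈ image β} ∏_{m ∈ Icc 1 n} |M m + β_j - c|⁻¹`. -/
def StBAD : Prop := ∀ (p : ℕ) [Fact p.Prime] (ι : Type) [Fintype ι] [DecidableEq ι]
  (M : ℕ) (β : ι → ℤ) (C : Matrix ι ι ℤ) (U : ℕ → Matrix ι ι ℚ), 0 < M → ¬ p ∣ M →
  IsU M β (qm C) U → (∀ i j, (M : ℤ) ∣ β i - β j → β i = β j) →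
  ∀ B : ℕ, (∀ i j, |β i - β j| ≤ B) →
  ∀ (n : ℕ) (i j : ι), padicNorm p (U n i j) ≤ (p : ℚ) ^ (nd β * LS p M B n)

/-- CAS, EASY (TG/I_CAS).  Base change for `DA` and polynomials in `DA`. -/
def StCAS : Prop := ∀ (R S : Type) [CommRing R] [CommRing S] (φ : R →+* S) (ι : Type) [Fintype ι]
  [DecidableEq ι] (M : ℕ) (A : ℕ → Matrix ι ι R) (f : R[X]) (v : ℕ → ι → R),
  Polynomial.aeval (DA M (fun m => (A m).map φ)) (f.map φ) (fun n i => φ (v n i)) =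
    fun n i => φ (Polynomial.aeval (DA M A) f v n i)

/-- ITR0, EASY-MEDIUM (TG/I_ITR).  Iterates at 0: for `P_k = ∏_{a<k} (DA - M a) (cst v)`,
`(X-1)^k P_k = Q_k v`.  Here `(X-1) mk(DA g) i = M X (X-1) g_i' - β_i (X-1) g_i - X ∑_j C i j g_j`
(`A0`; `DA M (A0 β C) g n i = (M n - β_i) g n i + ∑_{k<n} (C g_k) i`), and the induction is that of
TG/I_ITR with `8 ↦ M`, `2β ↦ β`. -/
def StITR0 : Prop := ∀ (R : Type) [CommRing R] (ι : Type) [Fintype ι] [DecidableEq ι]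
  (M : ℕ) (β : ι → ℤ) (C : Matrix ι ι R) (v : ι → R) (k : ℕ) (i : ι),
  (PowerSeries.X - 1 : PowerSeries R) ^ k * PowerSeries.mk (fun n =>
    Polynomial.aeval (DA M (A0 β C)) (∏ a ∈ Finset.range k,
      (Polynomial.X - Polynomial.C ((M : R) * (a : R)))) (cst v) n i) =
  ∑ j, ((Qm M (db R β) C k i j : R[X]) : PowerSeries R) * PowerSeries.C (v j)

/-- ITR1, EASY-MEDIUM (TG/I_ITR1).  Iterates at 1: `(1+X)^k P_k = Q_k(1+X) v`.  Here
`(1+X) mk(DA g) i = M X (1+X) g_i' - (1+X) ∑_j C i j g_j - β_i X g_i` (`A1`: the coefficient of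
`x^m`, `m ≥ 1`, is `(-1)^m β`). -/
def StITR1 : Prop := ∀ (R : Type) [CommRing R] (ι : Type) [Fintype ι] [DecidableEq ι]
  (M : ℕ) (β : ι → ℤ) (C : Matrix ι ι R) (v : ι → R) (k : ℕ) (i : ι),
  (PowerSeries.X + 1 : PowerSeries R) ^ k * PowerSeries.mk (fun n =>
    Polynomial.aeval (DA M (A1 β C)) (∏ a ∈ Finset.range k,
      (Polynomial.X - Polynomial.C ((M : R) * (a : R)))) (cst v) n i) =
  ∑ j, (((Qm M (db R β) C k i j).comp (Polynomial.X + 1) : R[X]) : PowerSeries R) *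
    PowerSeries.C (v j)

/-- ITR2, EASY-MEDIUM (twin of ITR0).  Iterates at infinity: for
`P_k = ∏_{a<k} (DA + M a) (cst v)`, `(1-X)^k P_k = (-1)^k Qr_k v`.

Induction on `k`.  For every sequence `g`: `(1-X) mk(DA g) i = M X (1-X) g_i' +
(1-X) β_i g_i + ∑_j C i j g_j` (`A2`: `(1-X)((B+C) g + C (X/(1-X)) g) = (1-X)(B+C)g + X C g`).  With
`R = (1-X)^k P`: `M X (1-X) R' = -k M X R + (1-X)^k M X (1-X) P'`.  Hence
`(1-X)^(k+1) (DA + M k) P = M X (1-X) R' + k M X R + ((1-X) B + C) R + M k (1-X) R =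
M X (1-X) R' + M k R + ((1-X) B + C) R`, and `R = (-1)^k Qr_k v` gives `(-1)^(k+1) Qr_{k+1} v`. -/
def StITR2 : Prop := ∀ (R : Type) [CommRing R] (ι : Type) [Fintype ι] [DecidableEq ι]
  (M : ℕ) (β : ι → ℤ) (C : Matrix ι ι R) (v : ι → R) (k : ℕ) (i : ι),
  (1 - PowerSeries.X : PowerSeries R) ^ k * PowerSeries.mk (fun n =>
    Polynomial.aeval (DA M (A2 β C)) (∏ a ∈ Finset.range k,
      (Polynomial.X + Polynomial.C ((M : R) * (a : R)))) (cst v) n i) =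
  (-1) ^ k * ∑ j, ((Qr M (db R β) C k i j : R[X]) : PowerSeries R) * PowerSeries.C (v j)

/-- REV, EASY-MEDIUM.  `Qr_k` is the reversal of `Q_k`.

Induction on `k`, comparing coefficients in the two recursions.  With `q n` the coefficient of `X^n`
in `Q_k` and `q' n = q (k - n)` that of `Qr_k` (both 0 for `n > k`): the coefficient of `X^n` in
`Q_{k+1}` is `M ((n-1) q_{n-1} - n q_n) - k M (2 q_{n-1} - q_n) - B (q_{n-1} - q_n) - C q_{n-1}`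
(`q_{-1} = 0`; the matrices act on the first index), and the coefficient of `X^n` in `Qr_{k+1}` is
`-M (n q'_n - (n-1) q'_{n-1}) - k M q'_n - B (q'_n - q'_{n-1}) - C q'_n`.  Put `n ↦ k + 1 - n` in
the first: `q_{k-n} = q'_n`, `q_{k+1-n} = q'_{n-1}`:
`M ((k-n) q'_n - (k+1-n) q'_{n-1}) - kM(2 q'_n - q'_{n-1}) - B(q'_n - q'_{n-1}) - C q'_n`, the same. -/
def StREV : Prop := ∀ (R : Type) [CommRing R] (ι : Type) [Fintype ι] [DecidableEq ι]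
  (M : ℕ) (b c : Matrix ι ι R) (k : ℕ) (i j : ι),
  (∀ n ≤ k, (Qr M b c k i j).coeff n = (Qm M b c k i j).coeff (k - n)) ∧
  ∀ n > k, (Qr M b c k i j).coeff n = 0 ∧ (Qm M b c k i j).coeff n = 0

/-- WIL, EASY (TG/I_WIL).  `∏_{k<p} (X + a + u k) = X^p - X` over `ZMod p`, `u ≠ 0`. -/
def StWIL : Prop := ∀ (p : ℕ) [Fact p.Prime] (a u : ZMod p), u ≠ 0 →
  ∏ k ∈ Finset.range p, ((Polynomial.X : (ZMod p)[X]) + Polynomial.C (a + u * (k : ZMod p))) =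
    Polynomial.X ^ p - Polynomial.X

/-- PCG, EASY-MEDIUM (second half of TG/I_PCU).  Shift argument.

`L := DA^p - DA` kills the constant sequences.  `DA (shf 1 v) = shf 1 ((DA + M) v)`, so
`L (shf 1 v) = shf 1 (((DA+M)^p - (DA+M)) v) = shf 1 (L v)` (characteristic `p`, commuting,
`M^p = M`).  So `L` kills all `shf k (cst v)`, and their finite sums; `DA` is lower triangular and
`v` agrees in degrees `≤ n` with `∑_{k≤n} shf k (cst (v k))`.  Hence `L v = 0`. -/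
def StPCG : Prop := ∀ (p : ℕ) [Fact p.Prime] (ι : Type) [Fintype ι] [DecidableEq ι]
  (M : ℕ) (A : ℕ → Matrix ι ι (ZMod p)),
  (∀ v : ι → ZMod p, ((DA M A) ^ p) (cst v) = DA M A (cst v)) →
  ∀ v : ℕ → ι → ZMod p, ((DA M A) ^ p) v = DA M A v

/-- PC012, EASY-MEDIUM (first half of TG/I_PCU, TG/I_PC1).  `D^p = D` modulo `p` at the three
points.  USES ITR0 ITR1 ITR2 REV WIL PCG.

At 0 and 1: ITR0, ITR1 with `k = p`: `unit * mk(P_p i) = 0`, so `P_p = 0`, and by WIL (`a = 0`,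
`u = -M ≠ 0`) `P_p = (DA^p - DA)(cst v)`; then PCG.  At infinity: `Qr_p = 0` by REV, ITR2, WIL
(`u = M`), PCG. -/
def StPC012 : Prop := ∀ (p : ℕ) [Fact p.Prime] (ι : Type) [Fintype ι] [DecidableEq ι]
  (M : ℕ) (β : ι → ℤ) (C : Matrix ι ι ℤ), ¬ p ∣ M → PZ M β C p →
  (∀ v : ℕ → ι → ZMod p, ((DA M (A0 β (pm p C))) ^ p) v = DA M (A0 β (pm p C)) v) ∧
  (∀ v : ℕ → ι → ZMod p, ((DA M (A1 β (pm p C))) ^ p) v = DA M (A1 β (pm p C)) v) ∧
  (∀ v : ℕ → ι → ZMod p, ((DA M (A2 β (pm p C))) ^ p) v = DA M (A2 β (pm p C)) v)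

/-- BLM, EASY (TG/I_BLK, TG/I_BLM).  Blocks of consecutive factors.  USES WIL PC012 CAS.

Block of `p` factors: reduce mod `p` (CAS for `ℤ → ZMod p`; `A0` maps to `A0`); the polynomial
becomes `X^p - X` (WIL, `u = -M`), the image is `(DA^p - DA) v = 0`, so all coordinates are
divisible by `p`.  Then induction on `m` (the factors `k = mp+1..mp+p`) and on `T`. -/
def StBLM : Prop := ∀ (p : ℕ) [Fact p.Prime] (ι : Type) [Fintype ι] [DecidableEq ι]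
  (M : ℕ) (β : ι → ℤ) (C : Matrix ι ι ℤ), ¬ p ∣ M → PZ M β C p →
  ∀ (m : ℕ) (T : Finset ℤ) (v : ℕ → ι → ℤ), ∃ v' : ℕ → ι → ℤ,
  Polynomial.aeval (DA M (A0 β C)) (∏ c ∈ T, ∏ k ∈ Finset.Icc 1 (m * p),
    ((Polynomial.X : ℤ[X]) + Polynomial.C (c - (M : ℤ) * (k : ℤ)))) v =
    ((p : ℤ) ^ (m * T.card)) • v'

/-- LAG, EASY-MEDIUM (TG/I_LAG).  Lagrange projection.  `DA u_i = -β_i u_i` for the columns of `U`
(`A0`), `DA (shf k u_i) = (M k - β_i) shf k u_i`; `cst e_j` is `u_j` plus combinations of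
`shf k u_i`, `1 ≤ k < m0`, in degrees `< m0`. -/
def StLAG : Prop := ∀ (F : Type) [Field F] [CharZero F] (ι : Type) [Fintype ι] [DecidableEq ι]
  (M : ℕ) (β : ι → ℤ) (C : Matrix ι ι F) (U : ℕ → Matrix ι ι F), IsU M β C U →
  ∀ (m0 : ℕ) (f : F[X]),
  (∀ (k : ℕ) (i : ι), 1 ≤ k → k < m0 → f.eval ((M : F) * (k : F) - (β i : F)) = 0) →
  ∀ (n : ℕ) (i j : ι), n < m0 →
  Polynomial.aeval (DA M (A0 β C)) f (cst (fun i => if i = j then 1 else 0)) n i =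
    f.eval (-(β j : F)) * U n i j

/-- GOD, EASY-MEDIUM (TG/I_GOD).  Primes with vanishing p-curvature.  USES BLM LAG CAS CN2.

As TG/I_GOD with `f = ∏_{c ∈ image β} ∏_{k ∈ Icc 1 (mp)} (X + c - M k)`, `m = n/p + 1`. -/
def StGOD : Prop := ∀ (p : ℕ) [Fact p.Prime] (ι : Type) [Fintype ι] [DecidableEq ι]
  (M : ℕ) (β : ι → ℤ) (C : Matrix ι ι ℤ) (U : ℕ → Matrix ι ι ℚ), 0 < M → ¬ p ∣ M →
  IsU M β (qm C) U → (∀ i j, (M : ℤ) ∣ β i - β j → β i = β j) → PZ M β C p →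
  ∀ B : ℕ, (∀ i j, |β i - β j| ≤ B) →
  ∀ (n : ℕ) (i j : ι), padicNorm p (U n i j) ≤ (p : ℚ) ^ (nd β * LG p M B n)

/-- LIS, EASY (TG/I_LIS).  The exponents for lists. -/
def StLIS : Prop := ∀ (p M B J N : ℕ), 1 < p → ∀ l : List ℕ, l.length ≤ J → l.sum ≤ N →
  (l.map (fun n => LS p M B n)).sum ≤ LSJ p M B J N ∧
  (l.map (fun n => LG p M B n)).sum ≤ LGJ p M B J N

/-- DEN, EASY-MEDIUM (TG/I_DEN).  The common denominator.  USES MOD BAD GOD TG.StPOW LIS TG.StITG.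

As TG/I_DEN: for every prime `p` the norm of the coefficient is at most `p^(ex ...)` (for `p ∣ M`:
MOD; `p ∈ S`: BAD; otherwise GOD; TG.StPOW with the lists of LIS); primes `p ≤ M N + B + M` occur
in `dJ`; for the others (`p ∤ M` since `p > M`) the exponent is 0: `Nat.log p (M N + B) = 0` and
`M (N + p) + B < p + M p ≤ p²`, so `Nat.log p (M(N+p)+B) < 2`. -/
def StDEN : Prop := ∀ (ι : Type) [Fintype ι] [DecidableEq ι] (M : ℕ)
  (β : ι → ℤ) (C : Matrix ι ι ℤ) (S : Set ℕ) (U : ℕ → Matrix ι ι ℚ), 0 < M →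
  IsU M β (qm C) U → (∀ i j, (M : ℤ) ∣ β i - β j → β i = β j) →
  (∀ p : ℕ, p.Prime → ¬ p ∣ M → p ∉ S → PZ M β C p) → ∀ B : ℕ, (∀ i j, |β i - β j| ≤ B) →
  ∀ (i j0 : ι) (J N : ℕ), ∀ j ≤ J, ∀ k ≤ N, ∃ z : ℤ,
    (dJ M β S B J N : ℚ) * PowerSeries.coeff k ((PowerSeries.mk fun n => U n i j0) ^ j) = z

/-! ### growth of the denominators -/

/-- bounded sums over the exceptional primes -/
def Sb (M : ℕ) (S : Set ℕ) : Prop := ∃ c : ℝ, ∀ F : Finset ℕ,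
  (∀ p ∈ F, p.Prime ∧ ¬ p ∣ M ∧ p ∈ S) → ∑ p ∈ F, Real.log p / p ≤ c

/-- CHB, EASY (TG/I_CHB).  Chebyshev: `∑_{p ≤ x} log p ≤ x log 4`. -/
def StCHB : Prop := ∀ x : ℕ, ∑ p ∈ opr x, Real.log p ≤ x * Real.log 4

open Classical in
/-- SMA, EASY-MEDIUM (TG/I_SMA).  The exceptional primes are few.  USES CHB.

As TG/I_SMA with `H = M N + B + M`: split at `δ N`; Cauchy criterion for the series with bounded
partial sums. -/
def StSMA : Prop := ∀ (M : ℕ) (S : Set ℕ) (B : ℕ), 0 < M → Sb M S → ∀ ε > 0, ∃ N0 : ℕ, ∀ N ≥ N0,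
  ∑ p ∈ (opr (M * N + B + M)).filter (fun p => ¬ p ∣ M ∧ p ∈ S), Real.log p ≤ ε * N

open Classical in
/-- GRS, EASY-MEDIUM (TG/I_GRS).  Growth for the exceptional primes.  USES SMA. -/
def StGRS : Prop := ∀ (M : ℕ) (S : Set ℕ) (B J : ℕ), 0 < M → Sb M S → ∀ ε > 0, ∃ N0 : ℕ,
  ∀ N ≥ N0, ∑ p ∈ (opr (M * N + B + M)).filter (fun p => ¬ p ∣ M ∧ p ∈ S),
    (LSJ p M B J N : ℝ) * Real.log p ≤
    N * ∑ p ∈ (opr (M * N + B + M)).filter (fun p => ¬ p ∣ M ∧ p ∈ S),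
      (1 / ((p : ℝ) * (p - 1)) + 1 / (p : ℝ)) * Real.log p + ε * N

open Classical in
/-- GRG, EASY-MEDIUM (TG/I_GRG).  Growth for the good primes.

`LGJ` is 0 unless `p² ≤ M(N+p)+B`, i.e. `p = O(√N)` (constant depending on `M`, `B`). -/
def StGRG : Prop := ∀ (M : ℕ) (S : Set ℕ) (B J : ℕ), 0 < M → ∀ ε > 0, ∃ N0 : ℕ, ∀ N ≥ N0,
  ∑ p ∈ (opr (M * N + B + M)).filter (fun p => ¬ p ∣ M ∧ p ∉ S),
    (LGJ p M B J N : ℝ) * Real.log p ≤
    N * ∑ p ∈ (opr (M * N + B + M)).filter (fun p => ¬ p ∣ M ∧ p ∉ S),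
      1 / ((p : ℝ) * (p - 1)) * Real.log p + ε * N

/-- GRM, EASY.  Growth for one prime: `LSJ p M B J N = ∑_{l=1}^L (N/p^l + J)` with
`∑_{l≥1} N/p^l = N/(p-1)` and `J L log p ≤ J log (M N + B) ≤ ε N` for `N` large. -/
def StGRM : Prop := ∀ (M p B J : ℕ), 0 < M → p.Prime → ∀ ε > 0, ∃ N0 : ℕ, ∀ N ≥ N0,
  (LSJ p M B J N : ℝ) * Real.log p ≤ N * (Real.log p / (p - 1)) + ε * N

/-- GRO, EASY-MEDIUM (TG/I_GRO).  Growth of the common denominator.  USES GRS GRG GRM.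

`nd β ≥ 1`, so `Sb M S` follows from `Cost` (the terms with `p ∉ S` are `≥ 0`, the first sum too).
`log dJ = ∑_{p ∈ opr H} ex log p`, `H = M N + B + M`; split: `p ∣ M` (these are exactly
`M.primeFactors`, all `≤ M ≤ H`): `ex log p ≤ N (v_p(M) + spc/(p-1)) log p + ε' N` (GRM);
`p ∤ M`, `p ∈ S` (GRS), `p ∉ S` (GRG).  The main terms add up to `N` times the left side of `Cost`
for `F` = the primes of `opr H` not dividing `M`. -/
def StGRO : Prop := ∀ (ι : Type) [Fintype ι] [DecidableEq ι] [Nonempty ι] (M : ℕ) (β : ι → ℤ)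
  (S : Set ℕ) (L : ℝ) (B J : ℕ), 0 < M → Cost M β S L → ∀ ε > 0, ∃ N0 : ℕ, ∀ N ≥ N0,
  Real.log (dJ M β S B J N) ≤ (L + ε) * N

end Pool.Agent.Work.MP_5e5ff1_ag.TH
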