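import Mathlib
import Pool.Agent.Work.MP_5e5ff1_ag.TH.StmtsA
import Pool.Agent.Work.MP_5e5ff1_ag.TG.StmtsD

set_option autoImplicit false

/-!
# MP_5e5ff1_ag, block TH, part D: local solutions, continuation

Every docstring is the complete proof.  USES lists the statements which the item may take as
hypotheses `(h : StX)`.  Captain helper18, co-captain helper45.  Most items are adaptations of the
proved items of `TG` named in the docstrings.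
-/

open Matrix Filter Topology
open scoped Polynomial

namespace Pool.Agent.Work.MP_5e5ff1_ag.TH

/-- INF, EASY (TG/I_INF).  There are arbitrarily large good primes.

`nd β ≥ 1`; otherwise `Cost` bounds all finite sums of `log p / p` over the primes `> max N M`
(the terms `1/(p(p-1)) log p` and the sum over `p ∣ M` are `≥ 0`), contradiction to the divergence
of `∑ 1/p`. -/
def StINF : Prop := ∀ (ι : Type) [Fintype ι] [DecidableEq ι] [Nonempty ι] (M : ℕ) (β : ι → ℤ)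
  (S : Set ℕ) (L : ℝ), 0 < M → Cost M β S L → ∀ N : ℕ, ∃ p : ℕ, N < p ∧ p.Prime ∧ ¬ p ∣ M ∧ p ∉ S

/-- FRB, EASY.  USES INF PC012.  For the primes of INF: `Sys.pz` and PC012; `A1`, `A2` commute with
the reduction mod `p` (`(A1 β C m).map = A1 β (C.map) m`). -/
def StFRB : Prop := ∀ (ι : Type) [Fintype ι] [DecidableEq ι] [Nonempty ι] (M n1 n2 : ℕ)
  (β : ι → ℤ) (C : Matrix ι ι ℤ) (S : Set ℕ) (L : ℝ), Sys M n1 n2 β C S L →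
  Frob M (A1 β C) ∧ Frob M (A2 β C)

/-- SEM, EASY-MEDIUM (TG/I_SEM).  Semisimplicity.

`DA` is lower triangular, so replace `w` by its truncation (0 in degrees `> n`); some multiple is
integral, so assume `w` is the cast of `w' : ℕ → ι → ℤ`; `u' = L1 lam w'` (over `ℤ`),
`L1 lam u' = 0` in degrees `≤ n`.  Modulo a prime `p` of `Frob`: `D w = lam w + u`, `D u = lam u` in
degrees `≤ n`, so `D^k w = lam^k w + k lam^(k-1) u`, `D^p w = lam w`, and `D^p w = D w = lam w + u`: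
`u = 0` mod `p` in degrees `≤ n`, for arbitrarily large `p`; so `u' = 0` in degrees `≤ n`. -/
def StSEM : Prop := ∀ (ι : Type) [Fintype ι] [DecidableEq ι] (M : ℕ) (A : ℕ → Matrix ι ι ℤ),
  Frob M A → ∀ (w : ℕ → ι → ℚ) (lam : ℤ) (n : ℕ),
  (∀ m ≤ n, ∀ i, L1 M (fun m => qm (A m)) lam (L1 M (fun m => qm (A m)) lam w) m i = 0) →
  ∀ m ≤ n, ∀ i, L1 M (fun m => qm (A m)) lam w m i = 0

/-- DIAL, EASY-MEDIUM (TG/I_DIAL).  Eigenbasis; the eigenvalues are among the given ones. -/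
def StDIAL : Prop := ∀ (ι : Type) [Fintype ι] [DecidableEq ι] (C : Matrix ι ι ℚ) (m : ℕ)
  (γ : Fin m → ℤ),
  Polynomial.aeval C (∏ j, (Polynomial.X - Polynomial.C ((γ j : ℤ) : ℚ))) = 0 →
  (∀ (c : ℤ) (v : ι → ℚ), (C - (c : ℚ) • (1 : Matrix ι ι ℚ)) *ᵥ
      ((C - (c : ℚ) • (1 : Matrix ι ι ℚ)) *ᵥ v) = 0 →
    (C - (c : ℚ) • (1 : Matrix ι ι ℚ)) *ᵥ v = 0) →
  ∃ (γ' : ι → ℤ) (V : Matrix ι ι ℚ), V.det ≠ 0 ∧ (∀ j, ∃ l, γ' j = γ l) ∧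
    C * V = V * Matrix.diagonal fun j => ((γ' j : ℤ) : ℚ)

/-- DIA, EASY (TG/I_DIA).  `A 0` is diagonalizable.  USES SEM DIAL.

`L1 lam (cst v) 0 = (A 0) v - lam v`, so SEM with `n = 0`, `w = cst v` is the second hypothesis of
DIAL for `C = qm (A 0)`; the first is the hypothesis mapped to `ℚ`. -/
def StDIA : Prop := ∀ (ι : Type) [Fintype ι] [DecidableEq ι] (M : ℕ) (A : ℕ → Matrix ι ι ℤ),
  Frob M A → ∀ (m : ℕ) (γ : Fin m → ℤ),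
  Polynomial.aeval (A 0) (∏ j, (Polynomial.X - Polynomial.C (γ j))) = 0 →
  ∃ (γ' : ι → ℤ) (V : Matrix ι ι ℚ), V.det ≠ 0 ∧ (∀ j, ∃ l, γ' j = γ l) ∧
    qm (A 0) * V = V * Matrix.diagonal fun j => ((γ' j : ℤ) : ℚ)

/-- EXT, EASY-MEDIUM (TG/I_EXT).  The extension step.  USES SEM.

`g0 = update g n 0`, `r = L1 lam g0 n`, `T = M n + A 0 - lam` (a matrix, diagonal in the basis `V`).
`L1 lam (update g n h) n = r + T h`.  `r = r' + r''`, `T r' = 0`, `r'' = T y`; `w = update g n (-y)`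
has `L1 w = r'` in degree `n`, 0 below, `L1 (L1 w) = 0` in degrees `≤ n`, so `r' = 0` by SEM;
`h = -y`. -/
def StEXT : Prop := ∀ (ι : Type) [Fintype ι] [DecidableEq ι] (M : ℕ) (A : ℕ → Matrix ι ι ℤ),
  Frob M A → ∀ (γ : ι → ℤ) (V : Matrix ι ι ℚ), V.det ≠ 0 →
  qm (A 0) * V = V * Matrix.diagonal (fun j => ((γ j : ℤ) : ℚ)) →
  ∀ (g : ℕ → ι → ℚ) (lam : ℤ) (n : ℕ), (∀ m < n, ∀ i, L1 M (fun m => qm (A m)) lam g m i = 0) →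
  ∃ h : ι → ℚ, ∀ m ≤ n, ∀ i, L1 M (fun m => qm (A m)) lam (Function.update g n h) m i = 0

/-- GEX, EASY (TG/I_GEX).  The formal solution without logarithms.  USES DIA EXT. -/
def StGEX : Prop := ∀ (ι : Type) [Fintype ι] [DecidableEq ι] (M : ℕ) (A : ℕ → Matrix ι ι ℤ),
  Frob M A → ∀ (m : ℕ) (γ : Fin m → ℤ),
  Polynomial.aeval (A 0) (∏ j, (Polynomial.X - Polynomial.C (γ j))) = 0 →
  ∃ (γ' : ι → ℤ) (G : ℕ → Matrix ι ι ℚ), (∀ j, ∃ l, γ' j = γ l) ∧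
    IsG M (fun m => qm (A m)) γ' G

/-- UCV, EASY (TG/I_UCV).  USES TG.StMAJ. -/
def StUCV : Prop := ∀ (ι : Type) [Fintype ι] [DecidableEq ι] (M : ℕ) (β : ι → ℤ)
  (C : Matrix ι ι ℤ) (U : ℕ → Matrix ι ι ℚ), 0 < M → IsU M β (qm C) U →
  ∃ A : ℝ, 1 ≤ A ∧ ∀ n i j, |(U n i j : ℝ)| ≤ A ^ (n + 1)

/-- GCV, EASY (TG/I_GCV).  USES TG.StMAJ.

`(M n - γ_j) G_n + A_0 G_n = -∑_{k<n} A_{n-k} G_k`; with `y n = ∑_i |G n i j|`, `c' = card ι * c`: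
`(M n - |γ_j| - c') y n ≤ c' ∑_{k<n} y k`. -/
def StGCV : Prop := ∀ (ι : Type) [Fintype ι] [DecidableEq ι] (M : ℕ) (A : ℕ → Matrix ι ι ℤ)
  (γ : ι → ℤ) (G : ℕ → Matrix ι ι ℚ), 0 < M → (∃ c : ℤ, ∀ m i j, |A m i j| ≤ c) →
  IsG M (fun m => qm (A m)) γ G → ∃ A' : ℝ, 1 ≤ A' ∧ ∀ n i j, |(G n i j : ℝ)| ≤ A' ^ (n + 1)

/-- UAN, EASY-MEDIUM (TG/I_UAN).  The analytic solution near `t = 0`; the coefficient of `t^n` in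
the expression is `E_n - E_{n-1}`, `E_n = (M n + β_j - β_i) U_n + ∑_{k<n} C U_k = 0`. -/
def StUAN : Prop := ∀ (ι : Type) [Fintype ι] [DecidableEq ι] (M : ℕ) (β : ι → ℤ)
  (C : Matrix ι ι ℤ) (U : ℕ → Matrix ι ι ℚ), IsU M β (qm C) U →
  (∃ A : ℝ, ∀ n i j, |(U n i j : ℝ)| ≤ A ^ (n + 1)) →
  ∃ (ρ : ℝ) (u : ℂ → Matrix ι ι ℂ), 0 < ρ ∧
    (∀ t ∈ Metric.ball (0 : ℂ) ρ, ∀ i j, HasSum (fun n : ℕ => (U n i j : ℂ) * t ^ n) (u t i j)) ∧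
    (∀ i j, DifferentiableOn ℂ (fun t => u t i j) (Metric.ball 0 ρ)) ∧
    (∀ t ∈ Metric.ball (0 : ℂ) ρ, (u t).det ≠ 0) ∧
    ∀ t ∈ Metric.ball (0 : ℂ) ρ, ∀ i j,
      (M : ℂ) * t * (1 - t) * deriv (fun s => u s i j) t +
        ((β j : ℂ) - (β i : ℂ)) * (1 - t) * u t i j + t * ∑ l, (C i l : ℂ) * u t l j = 0

/-- GAN, EASY-MEDIUM (TG/I_GAN).  The analytic solution at the other points.

`ρ < 1/A'`, `ρ < 1`; the product of the absolutely convergent series `∑ A_m x^m` and `∑ G_n x^n` has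
the coefficients `∑_{k≤n} A_{n-k} G_k`, and `M n G_n + ∑_{k≤n} A_{n-k} G_k = γ_j G_n` (`IsG.eqn`). -/
def StGAN : Prop := ∀ (ι : Type) [Fintype ι] [DecidableEq ι] (M : ℕ) (A : ℕ → Matrix ι ι ℤ)
  (γ : ι → ℤ) (G : ℕ → Matrix ι ι ℚ), (∃ c : ℤ, ∀ m i j, |A m i j| ≤ c) →
  IsG M (fun m => qm (A m)) γ G → (∃ A' : ℝ, ∀ n i j, |(G n i j : ℝ)| ≤ A' ^ (n + 1)) →
  ∃ (ρ : ℝ) (G' : ℂ → Matrix ι ι ℂ), 0 < ρ ∧ ρ < 1 ∧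
    (∀ i j, DifferentiableOn ℂ (fun x => G' x i j) (Metric.ball 0 ρ)) ∧
    (∀ x ∈ Metric.ball (0 : ℂ) ρ, (G' x).det ≠ 0) ∧
    ∀ x ∈ Metric.ball (0 : ℂ) ρ, ∀ i j,
      (M : ℂ) * x * deriv (fun s => G' s i j) x +
        ∑ l, (∑' m : ℕ, ((A m i l : ℤ) : ℂ) * x ^ m) * G' x l j = (γ j : ℂ) * G' x i j

/-- CLF, EASY.  Closed forms of the coefficient series (geometric series). -/
def StCLF : Prop := ∀ (ι : Type) [Fintype ι] [DecidableEq ι] (β : ι → ℤ) (C : Matrix ι ι ℤ)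
  (x : ℂ), ‖x‖ < 1 → ∀ i l,
  (∑' m : ℕ, ((A1 β C m i l : ℤ) : ℂ) * x ^ m = -(C i l : ℂ) - (if i = l then (β i : ℂ) else 0) *
    (x / (1 + x))) ∧
  (∑' m : ℕ, ((A2 β C m i l : ℤ) : ℂ) * x ^ m = (if i = l then (β i : ℂ) else 0) + (C i l : ℂ) +
    (C i l : ℂ) * (x / (1 - x)))

/-- ROOT, EASY (compare TG/I_SQR).  Roots of a function without zeros on a ball.

`f'/f` has a primitive `L` on the ball (`DifferentiableOn.isExactOn_ball`), `f = c exp L`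
(the derivative of `f exp(-L)` is 0), `r = c' exp (L/N)`, `c'^N = c`. -/
def StROOT : Prop := ∀ (f : ℂ → ℂ) (z0 : ℂ) (ρ : ℝ) (N : ℕ), 0 < ρ → 0 < N →
  DifferentiableOn ℂ f (Metric.ball z0 ρ) → (∀ z ∈ Metric.ball z0 ρ, f z ≠ 0) →
  ∃ r : ℂ → ℂ, DifferentiableOn ℂ r (Metric.ball z0 ρ) ∧
    ∀ z ∈ Metric.ball z0 ρ, r z ≠ 0 ∧ r z ^ N = f z ∧ (N : ℂ) * deriv r z * f z = deriv f z * r z

/-- WNZ, EASY.  `w 0 ≠ 0` (`0 - A 0 ^ e = w 0 ^ e'`, `m > 0`), and `A w` vanishes on no nonempty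
open subset of the disc (identity theorem). -/
def StWNZ : Prop := ∀ (n1 n2 : ℕ) (R : ℝ) (m : ℕ) (g A w : ℂ → ℂ), IsMap n1 n2 R m g A w →
  w 0 ≠ 0 ∧ ∀ Ω : Set ℂ, IsOpen Ω → Ω ⊆ Metric.ball 0 1 → Ω.Nonempty →
    ∃ z ∈ Ω, z ≠ 0 ∧ A z ≠ 0 ∧ w z ≠ 0

/-- DRL, EASY.  The logarithmic derivatives: with `x = w^e1/A^e2 = φ - 1`, `φ = δ/A^e2`, this is
`x' = φ'`, multiplied by `A^e2`.

Differentiate `rel`: `δ' - e2 A^(e2-1) A' = e1 w^(e1-1) w'`, `δ' = δ (m/z + g'/g)`; so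
`w^e1 e1 w'/w = δ (m/z + g'/g) - e2 A^e2 A'/A` and subtract `w^e1 e2 A'/A = (δ - A^e2) e2 A'/A`. -/
def StDRL : Prop := ∀ (n1 n2 : ℕ) (R : ℝ) (m : ℕ) (g A w : ℂ → ℂ), IsMap n1 n2 R m g A w →
  ∀ z ∈ Metric.ball (0 : ℂ) 1, z ≠ 0 → A z ≠ 0 → w z ≠ 0 →
  w z ^ e1 n1 * ((e1 n1 : ℂ) * (deriv w z / w z) - (e1 n2 : ℂ) * (deriv A z / A z)) =
    z ^ m * g z * ((m : ℂ) / z + deriv g z / g z - (e1 n2 : ℂ) * (deriv A z / A z))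

/-- LOC0, MEDIUM (compare TG/I_LOC0).  The solution vector near 0.  USES UAN ROOT DRL WNZ.

`e = e1 n2`, `φ z = z^m g z / A z ^ e`.  Choose `ρ` with `A`, `w` without zeros on `ball 0 ρ` and
`|φ| < ρ_u` there.  `χ`: ROOT with `N = M`, `f = A^(KM - eβ_j) w^(KM)`.  `W z i = χ z u(φ z) i j`.
For `z ≠ 0`: `u_ij(φ)' = (φ'/φ) φ u'(φ)` and (UAN) `M t u' = (β_i - β_j) u - (t/(1-t)) (C u)`, and
`φ'/φ · φ/(φ-1) = φ'/(φ-1) = x'/x` (`x = φ - 1 = w^e1/A^e`), so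
`u(φ)' = (φ'/φ) ((B - β_j)/M) u + (x'/x) (C/M) u`, `φ'/φ = m/z + g'/g - e A'/A`,
`x'/x = e1 w'/w - e A'/A` (DRL).  `χ'/χ = (K - eβ_j/M) A'/A + K w'/w`.  Sum: `AA` with
`lam = β_j`. -/
def StLOC0 : Prop := ∀ (ι : Type) [Fintype ι] [DecidableEq ι] (M n1 n2 : ℕ) (β : ι → ℤ)
  (C : Matrix ι ι ℤ) (U : ℕ → Matrix ι ι ℚ), 0 < M → IsU M β (qm C) U →
  (∃ A : ℝ, ∀ n i j, |(U n i j : ℝ)| ≤ A ^ (n + 1)) →
  ∀ (R : ℝ) (m : ℕ) (g A w : ℂ → ℂ), IsMap n1 n2 R m g A w →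
  ∀ (K : ℕ) (j : ι), (e1 n2 : ℤ) * β j ≤ (K : ℤ) * M →
  ∃ (ρ : ℝ) (W : ℂ → ι → ℂ) (χ : ℂ → ℂ), 0 < ρ ∧ ρ ≤ 1 ∧
    (∀ i, DifferentiableOn ℂ (fun z => W z i) (Metric.ball 0 ρ)) ∧
    ∀ z ∈ Metric.ball (0 : ℂ) ρ,
      χ z ^ M = A z ^ ((K : ℤ) * M - (e1 n2 : ℤ) * β j).toNat * w z ^ (K * M) ∧
      (∀ i, W z i = χ z * ∑' n : ℕ, (U n i j : ℂ) * (z ^ m * g z / A z ^ e1 n2) ^ n) ∧
      (z ≠ 0 → ∀ i, HasDerivAt (fun y => W y i)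
        ((AA M n1 n2 β C K (β j) m g A w z *ᵥ W z) i) z)

/-- LOC1, MEDIUM.  Local solutions at the zeros of `w`.  USES GAN CLF ROOT DRL WNZ.

Here `n1 ≠ 0` (`nw`), `e1 n1 = n1`, `z0 ≠ 0` (WNZ), `A z0 ≠ 0` (otherwise `z0^m g z0 = 0`).  On a
small ball without 0 and without zeros of `A`: `x = w^n1 / A^e`, `e = e1 n2`, `|x| < ρ_G`;
`1 + x = φ`.  For the column `l`: `χ_l` from ROOT with `N = M`,
`f = A^(K M + e γ_l) (z^m g)^(-lam)` (integral exponents), and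
`N z i l = G'(x z) i l * w z ^ (K - n1 γ_l / M) * χ_l z` (the exponent is a natural number).
`d/dz G'_l(x) = (x'/(M x)) (γ_l - A1(x)) G'_l`, `-A1(x) = C + B x/(1+x)` (CLF), and
`x'/(1+x) = φ'/φ`; the logarithmic derivative of `w^(K - n1γ_l/M) χ_l` is
`K (w'/w + A'/A) - (γ_l/M)(n1 w'/w - e A'/A) - (lam/M) δ'/δ`, `x'/x = n1 w'/w - e A'/A`.  Total:
`(x'/x) C/M + (φ'/φ) B/M - (lam/M) δ'/δ + K (w'/w + A'/A) = AA`.  At the other points of the ball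
`w ≠ 0` and the determinant is `det G'(x) ∏_l (...) ≠ 0`. -/
def StLOC1 : Prop := ∀ (ι : Type) [Fintype ι] [DecidableEq ι] (M n1 n2 : ℕ) (β : ι → ℤ)
  (C : Matrix ι ι ℤ) (γ : ι → ℤ) (G : ℕ → Matrix ι ι ℚ), 0 < M →
  IsG M (fun m => qm (A1 β C m)) γ G → (∃ A' : ℝ, ∀ n i j, |(G n i j : ℝ)| ≤ A' ^ (n + 1)) →
  (∀ l, (M : ℤ) ∣ n1 * γ l) → ∀ (R : ℝ) (m : ℕ) (g A w : ℂ → ℂ), IsMap n1 n2 R m g A w →
  ∀ (K : ℕ), (∀ l, n1 * γ l / M ≤ K) → ∀ lam : ℤ, ∀ z0 ∈ Metric.ball (0 : ℂ) 1, w z0 = 0 →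
  ∃ (ρ : ℝ) (N : ℂ → Matrix ι ι ℂ), LocSol M n1 n2 β C K lam m g A w N z0 ρ

/-- LOC2, MEDIUM (twin of LOC1).  Local solutions at the zeros of `A`.  USES GAN CLF ROOT DRL WNZ.

`n2 ≠ 0` (`nA`), `e = n2`, `z0 ≠ 0` (`A 0 ≠ 0`), `w z0 ≠ 0` (`w z0^e1 = z0^m g z0`).
`y = A^n2/(z^m g) = 1/φ`; for the column `l`: `χ_l` from ROOT with `f = (z^m g)^(γ_l - lam) w^(K M)`,
`N z i l = G'(y z) i l * A z ^ (K - n2 γ_l / M) * χ_l z`.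
`d/dz G'_l(y) = (y'/(M y)) (γ_l - A2(y)) G'_l`, `A2(y) = B + C + C y/(1-y)` (CLF),
`y'/y = -φ'/φ`, `(y'/y) y/(1-y) = -φ'/(φ(φ-1)) = -(x'/x - φ'/φ)`, `x = φ - 1`.  The logarithmic
derivative of `A^(K - n2γ_l/M) χ_l` is `K (A'/A + w'/w) - (γ_l/M) y'/y - (lam/M) δ'/δ`.  Total:
`(φ'/φ)(B+C)/M + (x'/x - φ'/φ) C/M - (lam/M) δ'/δ + K(...) = AA`. -/
def StLOC2 : Prop := ∀ (ι : Type) [Fintype ι] [DecidableEq ι] (M n1 n2 : ℕ) (β : ι → ℤ)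
  (C : Matrix ι ι ℤ) (γ : ι → ℤ) (G : ℕ → Matrix ι ι ℚ), 0 < M →
  IsG M (fun m => qm (A2 β C m)) γ G → (∃ A' : ℝ, ∀ n i j, |(G n i j : ℝ)| ≤ A' ^ (n + 1)) →
  (∀ l, (M : ℤ) ∣ n2 * γ l) → ∀ (R : ℝ) (m : ℕ) (g A w : ℂ → ℂ), IsMap n1 n2 R m g A w →
  ∀ (K : ℕ), (∀ l, n2 * γ l / M ≤ K) → ∀ lam : ℤ, ∀ z0 ∈ Metric.ball (0 : ℂ) 1, A z0 = 0 →
  ∃ (ρ : ℝ) (N : ℂ → Matrix ι ι ℂ), LocSol M n1 n2 β C K lam m g A w N z0 ρ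

/-- LOCR, EASY (TG/I_LOCR).  Regular points: `AA` is holomorphic near `z0`. -/
def StLOCR : Prop := ∀ (ι : Type) [Fintype ι] [DecidableEq ι] (M n1 n2 : ℕ) (β : ι → ℤ)
  (C : Matrix ι ι ℤ) (R : ℝ) (m : ℕ) (g A w : ℂ → ℂ), IsMap n1 n2 R m g A w →
  ∀ (K : ℕ) (lam : ℤ), ∀ z0 ∈ Metric.ball (0 : ℂ) 1, z0 ≠ 0 → A z0 ≠ 0 → w z0 ≠ 0 →
  ∃ (ρ : ℝ) (N : ℂ → Matrix ι ι ℂ), LocSol M n1 n2 β C K lam m g A w N z0 ρ

/-- LOCA, EASY-MEDIUM.  Local solutions everywhere except 0.  USES FRB GEX GCV LOC1 LOC2 LOCR.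

If `n1 ≠ 0`: `Sys.h1` gives `aeval C (∏ (X - γ_j)) = 0`, so `aeval (-C) (∏ (X - (-γ_j))) = 0`
(each factor changes its sign), `A1 β C 0 = -C`, GEX gives `γ'` (with values among the `-γ_j`, so
`M ∣ n1 γ'`) and `G`, GCV the growth (`A1` is bounded).  The same for `n2`, `A2 β C 0 = B + C`.
`K0` = maximum of the finitely many `|n1 γ'_l|`, `|n2 γ''_l|`.  If `n1 = 0` then `w` has no zeros,
if `n2 = 0` then `A` has no zeros. -/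
def StLOCA : Prop := ∀ (ι : Type) [Fintype ι] [DecidableEq ι] [Nonempty ι] (M n1 n2 : ℕ)
  (β : ι → ℤ) (C : Matrix ι ι ℤ) (S : Set ℕ) (L : ℝ), Sys M n1 n2 β C S L → ∃ K0 : ℕ,
  ∀ (R : ℝ) (m : ℕ) (g A w : ℂ → ℂ), IsMap n1 n2 R m g A w → ∀ K ≥ K0, ∀ lam : ℤ,
  ∀ z0 ∈ Metric.ball (0 : ℂ) 1, z0 ≠ 0 →
  ∃ (ρ : ℝ) (N : ℂ → Matrix ι ι ℂ), LocSol M n1 n2 β C K lam m g A w N z0 ρ

/-- ODX, EASY-MEDIUM (TG/I_ODX).  The differential equation propagates.  USES WNZ.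

`z g A w (V' - AA V)` is a vector of holomorphic functions on `ball 0 r` (multiply out: the poles of
`AA` are cleared), it vanishes on `ball 0 ρ` minus 0 (where `A w ≠ 0` too, or by continuity), hence
on `ball 0 r`; divide at points with `z, A, w ≠ 0` (`g ≠ 0`). -/
def StODX : Prop := ∀ (ι : Type) [Fintype ι] [DecidableEq ι] (M n1 n2 : ℕ) (β : ι → ℤ)
  (C : Matrix ι ι ℤ) (R : ℝ) (m : ℕ) (g A w : ℂ → ℂ), IsMap n1 n2 R m g A w →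
  ∀ (K : ℕ) (lam : ℤ) (W V : ℂ → ι → ℂ) (ρ r : ℝ), 0 < ρ → 0 < r → r ≤ 1 →
  (∀ z ∈ Metric.ball (0 : ℂ) ρ, z ≠ 0 → ∀ i, HasDerivAt (fun y => W y i)
    ((AA M n1 n2 β C K lam m g A w z *ᵥ W z) i) z) →
  (∀ i, DifferentiableOn ℂ (fun z => V z i) (Metric.ball 0 r)) → (∀ᶠ z in 𝓝 0, V z = W z) →
  ∀ z ∈ Metric.ball (0 : ℂ) r, z ≠ 0 → A z ≠ 0 → w z ≠ 0 → ∀ i,
    HasDerivAt (fun y => V y i) ((AA M n1 n2 β C K lam m g A w z *ᵥ V z) i) z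

/-- CMP, EASY-MEDIUM (TG/I_CMP).  Comparison with a local solution.  USES WNZ. -/
def StCMP : Prop := ∀ (ι : Type) [Fintype ι] [DecidableEq ι] (M n1 n2 : ℕ) (β : ι → ℤ)
  (C : Matrix ι ι ℤ) (R : ℝ) (m : ℕ) (g A w : ℂ → ℂ), IsMap n1 n2 R m g A w →
  ∀ (K : ℕ) (lam : ℤ) (N : ℂ → Matrix ι ι ℂ) (V : ℂ → ι → ℂ) (z0 : ℂ) (ρ r : ℝ),
  LocSol M n1 n2 β C K lam m g A w N z0 ρ → 0 < r → r ≤ 1 →
  (∀ i, DifferentiableOn ℂ (fun z => V z i) (Metric.ball 0 r)) →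
  (∀ z ∈ Metric.ball (0 : ℂ) r, z ≠ 0 → A z ≠ 0 → w z ≠ 0 → ∀ i,
    HasDerivAt (fun y => V y i) ((AA M n1 n2 β C K lam m g A w z *ᵥ V z) i) z) →
  (Metric.ball z0 ρ ∩ Metric.ball 0 r).Nonempty →
  ∃ v : ι → ℂ, ∀ z ∈ Metric.ball z0 ρ ∩ Metric.ball 0 r, V z = N z *ᵥ v

/-- CON, EASY-MEDIUM (TG/I_CON).  The `M`-th powers of the entries of `U(φ)`, multiplied by powers
of `A` and `w`, extend to the disc.  USES UCV LOC0 LOCA ODX CMP TG.StGLU WNZ.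

`K ≥ K0` (LOCA) and `K M ≥ e2 β_j`.  `W`, `χ`, `ρ` from LOC0, `E = ι → ℂ`, `f = W`, `r0 = ρ`.  For
`z0 = 0` take `δ = ρ`, `G = W` (identity theorem on the ball of radius `min ρ r`).  For `z0 ≠ 0`:
LOCA, ODX, CMP, `G z = N z *ᵥ v`.  GLU gives `F0` on the disc, `F0 = W` near 0.  `F z = (F0 z i)^M`,
`h z = A z ^ (KM - e2β_j) * w z ^ (K M)`, nonzero somewhere by WNZ. -/
def StCON : Prop := ∀ (ι : Type) [Fintype ι] [DecidableEq ι] [Nonempty ι] (M n1 n2 : ℕ)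
  (β : ι → ℤ) (C : Matrix ι ι ℤ) (S : Set ℕ) (L : ℝ) (U : ℕ → Matrix ι ι ℚ),
  Sys M n1 n2 β C S L → IsU M β (qm C) U →
  ∀ (R : ℝ) (m : ℕ) (g A w : ℂ → ℂ), IsMap n1 n2 R m g A w → ∀ i j, ∃ h F : ℂ → ℂ,
    DifferentiableOn ℂ h (Metric.ball 0 1) ∧ (∃ z ∈ Metric.ball (0 : ℂ) 1, h z ≠ 0) ∧
    DifferentiableOn ℂ F (Metric.ball 0 1) ∧
    ∀ᶠ z in 𝓝 0, F z = h z *
      (∑' n : ℕ, (U n i j : ℂ) * (z ^ m * g z / A z ^ e1 n2) ^ n) ^ M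

end Pool.Agent.Work.MP_5e5ff1_ag.TH
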