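import Mathlib
import Pool.Agent.Work.MP_5e5ff1_ag.TH.StmtsD
import Pool.Agent.Work.MP_5e5ff1_ag.TG.StmtsE

set_option autoImplicit false

/-!
# MP_5e5ff1_ag, block TH, part E: algebraic closure, restriction of scalars, the theorems

Every docstring is the complete proof.  USES lists the statements which the item may take as
hypotheses `(h : StX)`.  Captain helper18, co-captain helper45.
-/

open Matrix Filter Topology NumberField
open scoped Polynomial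

namespace Pool.Agent.Work.MP_5e5ff1_ag.TH

/-- UPS, EASY (TG/I_UPS).  The differential equation of `U` as an identity of power series. -/
def StUPS : Prop := ∀ (F : Type) [Field F] (ι : Type) [Fintype ι] [DecidableEq ι] (M : ℕ)
  (β : ι → ℤ) (C : Matrix ι ι F) (U : ℕ → Matrix ι ι F), IsU M β C U → ∀ i j,
  (PowerSeries.X - 1 : PowerSeries F) *
    (PowerSeries.C (M : F) * PowerSeries.X *
        PowerSeries.derivative F (PowerSeries.mk fun n => U n i j) +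
      PowerSeries.C ((β j : F) - (β i : F)) * PowerSeries.mk fun n => U n i j) =
  PowerSeries.X * ∑ l, PowerSeries.C (C i l) * PowerSeries.mk fun n => U n l j

/-- ALG, EASY-MEDIUM (TG/I_ALG).  Algebraic entries of `U` give a full set of algebraic solutions:
`F i j = y i j * s^(β j)` with `s^M = X`.  USES TG.StLFT UPS. -/
def StALG : Prop := ∀ (r M : ℕ) (β : Fin r → ℤ) (C B D : Matrix (Fin r) (Fin r) ℂ)
  (U : ℕ → Matrix (Fin r) (Fin r) ℂ), 0 < M → IsU M β C U →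
  (∀ i j, IsAlgebraic ℂ[X] (PowerSeries.mk fun n => U n i j)) →
  (∀ i j, B i j = if i = j then (β i : ℂ) / M else 0) → (∀ i j, D i j = C i j / M) →
  A.HasAlgebraicSolutions B D

/-- QIM, EASY (TG/I_QIM).  Base change for `Qm`. -/
def StQIM : Prop := ∀ (R S : Type) [CommRing R] [CommRing S] (φ : R →+* S) (ι : Type) [Fintype ι]
  [DecidableEq ι] (M : ℕ) (b c : Matrix ι ι R) (k : ℕ),
  Qm M (b.map φ) (c.map φ) k = (Qm M b c k).map (Polynomial.map φ)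

/-- RSC, EASY (TG/I_RSC).  Annihilating polynomials after restriction of scalars. -/
def StRSC : Prop := ∀ (K : Type) [Field K] [NumberField K] (r : ℕ)
  (c : Matrix (Fin r) (Fin r) (𝓞 K)) (γ : Fin r → ℤ),
  c.charpoly = ∏ j, (Polynomial.X - Polynomial.C ((γ j : ℤ) : 𝓞 K)) →
  Polynomial.aeval (TG.rs K c) (∏ j, (Polynomial.X - Polynomial.C (γ j)) : ℤ[X]) = 0

/-- RSD, EASY.  `leftMulMatrix` of an integer is a scalar matrix, and `rs` is additive. -/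
def StRSD : Prop := ∀ (K : Type) [Field K] [NumberField K] (r : ℕ) (β : Fin r → ℤ)
  (c : Matrix (Fin r) (Fin r) (𝓞 K)),
  TG.rs K (Matrix.diagonal (fun i => ((β i : ℤ) : 𝓞 K)) + c) =
    db ℤ (fun x : Fin r × Fin (Module.finrank ℤ (𝓞 K)) => β x.1) + TG.rs K c

/-- RSQ, EASY-MEDIUM (TG/I_RSQ).  The iterates after restriction of scalars. -/
def StRSQ : Prop := ∀ (K : Type) [Field K] [NumberField K] (r M : ℕ) (β : Fin r → ℤ)
  (c : Matrix (Fin r) (Fin r) (𝓞 K)) (k n : ℕ)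
  (i j : Fin r × Fin (Module.finrank ℤ (𝓞 K))),
  (Qm M (db ℤ (fun x : Fin r × Fin (Module.finrank ℤ (𝓞 K)) => β x.1)) (TG.rs K c) k i j).coeff n =
    Algebra.leftMulMatrix (Module.finBasis ℤ (𝓞 K))
      ((Qm M (db (𝓞 K) β) c k i.1 j.1).coeff n) i.2 j.2

/-- RSP, EASY (TG/I_RSP).  The p-curvature after restriction of scalars.
USES QIM RSQ TG.StPID. -/
def StRSP : Prop := ∀ (K : Type) [Field K] [NumberField K] (r M : ℕ) (β : Fin r → ℤ)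
  (c : Matrix (Fin r) (Fin r) (𝓞 K)) (p : ℕ), p.Prime →
  (Ideal.span {(p : 𝓞 K)}).IsRadical →
  (∀ P : Ideal (𝓞 K), P.IsMaximal → ringChar (𝓞 K ⧸ P) = p →
    PCurvZero M (Matrix.diagonal (fun i => ((β i : ℤ) : 𝓞 K))) c P) →
  PZ M (fun x : Fin r × Fin (Module.finrank ℤ (𝓞 K)) => β x.1) (TG.rs K c) p

/-- RSU, EASY-MEDIUM (TG/I_RSU).  The solutions after restriction of scalars. -/
def StRSU : Prop := ∀ (K : Type) [Field K] [NumberField K] (σ : K →+* ℂ) (r M : ℕ)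
  (β : Fin r → ℤ) (c : Matrix (Fin r) (Fin r) (𝓞 K)) (U : ℕ → Matrix (Fin r) (Fin r) ℂ)
  (V : ℕ → Matrix (Fin r × Fin (Module.finrank ℤ (𝓞 K)))
    (Fin r × Fin (Module.finrank ℤ (𝓞 K))) ℚ), 0 < M →
  (∀ i j, (M : ℤ) ∣ β i - β j → β i = β j) →
  IsU M β (Matrix.of fun i j => σ (c i j : K)) U →
  IsU M (fun x : Fin r × Fin (Module.finrank ℤ (𝓞 K)) => β x.1) (qm (TG.rs K c)) V →
  ∀ (n : ℕ) (i j : Fin r) (b : Fin (Module.finrank ℤ (𝓞 K))),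
    U n i j * σ ((Module.finBasis ℤ (𝓞 K) b : 𝓞 K) : K) =
      ∑ a, σ ((Module.finBasis ℤ (𝓞 K) a : 𝓞 K) : K) * ((V n (i, a) (j, b) : ℚ) : ℂ)

/-- RSL, EASY (TG/I_RSL).  Algebraicity descends.  USES TG.StQC RSU. -/
def StRSL : Prop := ∀ (K : Type) [Field K] [NumberField K] (σ : K →+* ℂ) (r M : ℕ)
  (β : Fin r → ℤ) (c : Matrix (Fin r) (Fin r) (𝓞 K)) (U : ℕ → Matrix (Fin r) (Fin r) ℂ)
  (V : ℕ → Matrix (Fin r × Fin (Module.finrank ℤ (𝓞 K)))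
    (Fin r × Fin (Module.finrank ℤ (𝓞 K))) ℚ), 0 < M →
  (∀ i j, (M : ℤ) ∣ β i - β j → β i = β j) →
  IsU M β (Matrix.of fun i j => σ (c i j : K)) U →
  IsU M (fun x : Fin r × Fin (Module.finrank ℤ (𝓞 K)) => β x.1) (qm (TG.rs K c)) V →
  (∀ x y, IsAlgebraic ℚ[X] (PowerSeries.mk fun n => V n x y)) →
  ∀ i j, IsAlgebraic ℂ[X] (PowerSeries.mk fun n => U n i j)

/-- COSR, EASY.  The cost after restriction of scalars: the image of `x ↦ β x.1` is the image of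
`β` (the rank of `𝓞 K` is positive), so `nd` and `spc` do not change. -/
def StCOSR : Prop := ∀ (K : Type) [Field K] [NumberField K] (r M : ℕ) (β : Fin r → ℤ)
  (S : Set ℕ) (L : ℝ), Cost M β S L →
  Cost M (fun x : Fin r × Fin (Module.finrank ℤ (𝓞 K)) => β x.1) S L

/-- MZ, EASY-MEDIUM (TG/I_MZ).  The theorem for integral systems.
USES StCrit2 StMapT DEN GRO UCV CON TG.StPwr TG.StCnv.

`exp L < R`: choose `R'` with `exp L < R' < R`, the map `m, g, A, w` from StMapT.  `f = mk (U · i j)`,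
`a n = coeff n (f^M)`, so `mk a = f^M`.  StCrit2 with `s = L`, `A' z = A z ^ e1 n2`
(`L < log R' ≤ log (‖g 0‖/‖A' 0‖)`), `h`, `F` from CON.  Near 0, `φ → 0`, so by TG.StCnv
`∑' a n φ^n = (∑' U n i j φ^n)^M`.  Denominators: for `J`, `N`: `d = dJ M β S B (M J) N > 0`,
`(mk a)^j = f^(M j)`, `M j ≤ M J` (DEN), size GRO with `M J` for `J`.  Growth: UCV and TG.StPwr:
`|a n| ≤ (2A)^(n+M) ≤ ((2A)^M)^(n+1)`.  Finally `f^M` algebraic implies `f` algebraic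
(`IsAlgebraic.of_pow`, `M > 0`). -/
def StMZ : Prop := ∀ (ι : Type) [Fintype ι] [DecidableEq ι] [Nonempty ι] (M n1 n2 : ℕ)
  (β : ι → ℤ) (C : Matrix ι ι ℤ) (S : Set ℕ) (R L : ℝ) (U : ℕ → Matrix ι ι ℚ),
  Typ n1 n2 R → L < Real.log R → Sys M n1 n2 β C S L → IsU M β (qm C) U →
  ∀ i j, IsAlgebraic ℚ[X] (PowerSeries.mk fun n => U n i j)

/-- FIN, EASY-MEDIUM (TG/I_FIN).  THE GENERAL THEOREM (frozen form with `n = M`).
USES UEX MZ RSC RSD RSP RSL ALG COSR.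

If `r = 0` the algebraicity of `V` is an empty statement; otherwise MZ for `ι = Fin r × Fin d`,
`β' x = β x.1`, `C = rs K c`: `Sys`: `hβ` clear, `h1` RSC for `c`, `h2` RSC for `b + c` and RSD,
`cost` COSR, `pz` RSP.  `V` from UEX over `ℚ`, `U` from UEX over `ℂ` for `σ(c)`; RSL; ALG. -/
def StFIN : Prop := ∀ (K : Type) [Field K] [NumberField K] (σ : K →+* ℂ) (r M n1 n2 : ℕ)
  (R L : ℝ) (β γ ζ : Fin r → ℤ) (b c : Matrix (Fin r) (Fin r) (𝓞 K)) (S : Set ℕ),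
  0 < M → Typ n1 n2 R → L < Real.log R →
  (∀ i j, (M : ℤ) ∣ β i - β j → β i = β j) →
  b = Matrix.diagonal (fun i => ((β i : ℤ) : 𝓞 K)) →
  (n1 ≠ 0 → c.charpoly = ∏ j, (Polynomial.X - Polynomial.C ((γ j : ℤ) : 𝓞 K)) ∧
    ∀ j, (M : ℤ) ∣ n1 * γ j) →
  (n2 ≠ 0 → (b + c).charpoly = ∏ j, (Polynomial.X - Polynomial.C ((ζ j : ℤ) : 𝓞 K)) ∧
    ∀ j, (M : ℤ) ∣ n2 * ζ j) →
  Cost M β S L →
  (∀ p : ℕ, p.Prime → ¬ p ∣ M → p ∉ S → (Ideal.span {(p : 𝓞 K)}).IsRadical) →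
  (∀ P : Ideal (𝓞 K), P.IsMaximal → ¬ ringChar (𝓞 K ⧸ P) ∣ M → ringChar (𝓞 K ⧸ P) ∉ S →
    PCurvZero M b c P) →
  ∀ B D : Matrix (Fin r) (Fin r) ℂ, (∀ i j, B i j = σ (b i j : K) / M) →
    (∀ i j, D i j = σ (c i j : K) / M) → A.HasAlgebraicSolutions B D

/-! ### explicit families -/

/-- finite sums of `log p / p` over primes of `S` are at most `σ` -/
def SmallS (S : Set ℕ) (σ : ℝ) : Prop := ∀ F : Finset ℕ, (∀ p ∈ F, p.Prime ∧ p ∈ S) →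
  ∑ p ∈ F, Real.log p / p ≤ σ

/-- DYA, EASY-MEDIUM.  The cost for `M = 2^k`.  USES TG.StKAP.

`(2^k).primeFactors ⊆ {2}`, `factorization = k`, `spc 2 (2^k) β ≤ 1` by the hypothesis on `β`
(distinct values of `β` are distinct modulo `2^k`), so the first sum is at most `(k+1) log 2`.
For `F`: the primes of `F` are odd, so `∑_F log p/(p(p-1)) ≤ 0.4145` (TG.StKAP for `x` large:
`F ⊆ TG.opr x`, nonnegative terms) and `∑_{F ∩ S} log p/p ≤ σ`; `nd β ≤ s`; `σ ≥ 0` (`F = ∅`). -/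
def StDYA : Prop := ∀ (ι : Type) [Fintype ι] [DecidableEq ι] (k s : ℕ) (β : ι → ℤ) (S : Set ℕ)
  (σ : ℝ), 1 ≤ k → (∀ i j, ((2 ^ k : ℕ) : ℤ) ∣ β i - β j → β i = β j) → nd β ≤ s → SmallS S σ →
  Cost (2 ^ k) β S ((k + 1) * Real.log 2 + s * (4145 / 10000 + σ))

/-- C12, EASY-MEDIUM.  The cost for `M = 12`.  USES TG.StKAP.

`primeFactors 12 = {2, 3}`, `factorization 12 2 = 2`, `factorization 12 3 = 1`; the first sum is at
most `(2 + 2) log 2 + (1 + 3/2) log 3`; the primes of `F` are `≥ 5` and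
`∑_F log p/(p(p-1)) ≤ 0.4145 - log 3/6` (TG.StKAP for `F ∪ {3}`). -/
def StC12 : Prop := ∀ (ι : Type) [Fintype ι] [DecidableEq ι] (β : ι → ℤ) (S : Set ℕ) (σ : ℝ),
  nd β ≤ 8 → spc 2 12 β ≤ 2 → spc 3 12 β ≤ 3 → SmallS S σ →
  Cost 12 β S (4 * Real.log 2 + 5 / 2 * Real.log 3 + 8 * (4145 / 10000 - Real.log 3 / 6 + σ))

/-- NUM5, EASY.  The numerical inequalities (all logarithms in terms of `log 2`, `log 3`):
`2 log 2 = 1.38629 > 3 * 0.459955 = 1.379865`; `3 log 2 = 2.079441 > 5 * 0.4155 = 2.0775`;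
`log 1728 = 6 log 2 + 3 log 3`, so the last one is
`8 * (0.4145 + 0.005) = 3.356 < 2 log 2 + (1/2 + 4/3) log 3 = 1.38629 + 2.01412`.
(`Real.log_two_gt_d9`; for `log 3 > 1.09861` use `3^12 > 2^19` or better powers, or `exp` bounds;
`log 3 ≥ 1.0745` is enough.) -/
def StNUM5 : Prop :=
  ((2 : ℝ) + 1) * Real.log 2 + 3 * (4145 / 10000 + 1 / 22) < Real.log 32 ∧
  ((3 : ℝ) + 1) * Real.log 2 + 6 * (4145 / 10000 + 1 / 22) < Real.log 256 ∧
  ((4 : ℝ) + 1) * Real.log 2 + 5 * (4145 / 10000 + 1 / 1000) < Real.log 256 ∧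
  ((3 : ℝ) + 1) * Real.log 2 + 3 * (4145 / 10000 + 1 / 22) < Real.log 64 ∧
  4 * Real.log 2 + 5 / 2 * Real.log 3 + 8 * (4145 / 10000 - Real.log 3 / 6 + 1 / 200) <
    Real.log 1728

/-- the conclusion: full set of algebraic solutions for the residues `b / M`, `c / M` -/
def Alg (K : Type) [Field K] [NumberField K] (σ : K →+* ℂ) (r M : ℕ)
    (b c : Matrix (Fin r) (Fin r) (𝓞 K)) : Prop :=
  ∀ B D : Matrix (Fin r) (Fin r) ℂ, (∀ i j, B i j = σ (b i j : K) / M) →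
    (∀ i j, D i j = σ (c i j : K) / M) → A.HasAlgebraicSolutions B D

/-- the hypothesis: vanishing p-curvature outside `M` and `S` (which contains the primes not
dividing `M` which ramify in `K`), the sums of `log p / p` over `S` at most `σ₀` -/
def Hyp (K : Type) [Field K] [NumberField K] (r M : ℕ)
    (b c : Matrix (Fin r) (Fin r) (𝓞 K)) (S : Set ℕ) (σ₀ : ℝ) : Prop :=
  SmallS S σ₀ ∧
  (∀ p : ℕ, p.Prime → ¬ p ∣ M → p ∉ S → (Ideal.span {(p : 𝓞 K)}).IsRadical) ∧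
  ∀ P : Ideal (𝓞 K), P.IsMaximal → ¬ ringChar (𝓞 K ⧸ P) ∣ M → ringChar (𝓞 K ⧸ P) ∉ S →
    PCurvZero M b c P

/-- FAM, EASY-MEDIUM.  THE FAMILIES: the triangle groups (4,4,4), (8,2,4), (16,2,4), (8,2,8) and
`PSL_2(Z)` with denominator 12.  USES FIN DYA C12 NUM5.

FIN with `(M, n1, n2, R)` = `(4,4,4,32)`, `(8,2,4,256)`, `(16,2,4,256)`, `(8,2,0,64)`,
`(12,2,3,1728)`; the divisibilities `M ∣ n1 γ_j`, `M ∣ n2 ζ_j` are those of the statement; `Cost` by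
DYA (`k = 2, 3, 4, 3`) and C12, `L < log R` by NUM5. -/
def StFAM : Prop := ∀ (K : Type) [Field K] [NumberField K] (σ : K →+* ℂ) (r : ℕ)
  (β γ ζ : Fin r → ℤ) (b c : Matrix (Fin r) (Fin r) (𝓞 K)) (S : Set ℕ),
  b = Matrix.diagonal (fun i => ((β i : ℤ) : 𝓞 K)) →
  c.charpoly = ∏ j, (Polynomial.X - Polynomial.C ((γ j : ℤ) : 𝓞 K)) →
  (b + c).charpoly = ∏ j, (Polynomial.X - Polynomial.C ((ζ j : ℤ) : 𝓞 K)) →
  ((∀ i j, (4 : ℤ) ∣ β i - β j → β i = β j) → nd β ≤ 3 → Hyp K r 4 b c S (1 / 22) →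
    Alg K σ r 4 b c) ∧
  ((∀ i j, (8 : ℤ) ∣ β i - β j → β i = β j) → nd β ≤ 6 → (∀ j, (4 : ℤ) ∣ γ j) →
    (∀ j, (2 : ℤ) ∣ ζ j) → Hyp K r 8 b c S (1 / 22) → Alg K σ r 8 b c) ∧
  ((∀ i j, (16 : ℤ) ∣ β i - β j → β i = β j) → nd β ≤ 5 → (∀ j, (8 : ℤ) ∣ γ j) →
    (∀ j, (4 : ℤ) ∣ ζ j) → Hyp K r 16 b c S (1 / 1000) → Alg K σ r 16 b c) ∧
  ((∀ i j, (8 : ℤ) ∣ β i - β j → β i = β j) → nd β ≤ 3 → (∀ j, (4 : ℤ) ∣ γ j) →
    Hyp K r 8 b c S (1 / 22) → Alg K σ r 8 b c) ∧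
  ((∀ i j, (12 : ℤ) ∣ β i - β j → β i = β j) → nd β ≤ 8 → spc 2 12 β ≤ 2 → spc 3 12 β ≤ 3 →
    (∀ j, (6 : ℤ) ∣ γ j) → (∀ j, (4 : ℤ) ∣ ζ j) → Hyp K r 12 b c S (1 / 200) →
    Alg K σ r 12 b c)

end Pool.Agent.Work.MP_5e5ff1_ag.TH
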