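import Mathlib
import Pool.Agent.Work.MP_5e5ff1_ag.TH.StmtsE

set_option autoImplicit false

/-!
# MP_5e5ff1_ag, block TH, part K: the eigenvalues are integers (Kronecker), final theorem

The theorem StFIN assumes that the eigenvalues of `c` and `b + c` are rational integers.  This
follows from the vanishing of the p-curvature: `C^p = C` modulo almost all primes `p`, so every
irreducible factor of the characteristic polynomial splits modulo almost all `p`, so it is linear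
(Kronecker), by counting ideals in the number field it defines.

Every docstring is the complete proof.  USES lists the statements which the item may take as
hypotheses `(h : StX)`.  Captain helper18.
-/

open Matrix Filter Topology NumberField
open scoped Polynomial nonZeroDivisors

namespace Pool.Agent.Work.MP_5e5ff1_ag.TH

/-- number of nonzero ideals of norm at most `x` -/
noncomputable def cnt (L : Type) [Field L] [NumberField L] (x : ℝ) : ℕ :=
  Nat.card {I : (Ideal (𝓞 L))⁰ // ((Ideal.absNorm (I : Ideal (𝓞 L)) : ℕ) : ℝ) ≤ x}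

/-- the sums of `log p / p` over finite sets of primes of `S` are bounded by `c` -/
def Bs (S : Set ℕ) (c : ℝ) : Prop := ∀ F : Finset ℕ, (∀ p ∈ F, p.Prime ∧ p ∈ S) →
  ∑ p ∈ F, Real.log p / p ≤ c

/-- KDC, EASY-MEDIUM.  Double counting of ideals.

`X` = the finite set of nonzero ideals of norm `≤ x`
(`Ideal.finite_setOf_absNorm_le` or a similar name in `Mathlib/RingTheory/Ideal/Norm/AbsNorm.lean`).
For `P ∈ T` the map `I ↦ P * I` is injective from the nonzero ideals of norm `≤ x / N P` to the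
elements of `X` divisible by `P` (`N` is multiplicative, `N P > 0`).  So the left side is at most
`∑_{I ∈ X} ∑_{P ∈ T, P ∣ I} log N P`.  The `P ∈ T` with `P ∣ I` are distinct maximal ideals, so
their product divides `I` (`Finset.prod_dvd_of_coprime`, or `Ideal.IsMaximal.coprime_of_ne`,
`isCoprime_iff_sup_eq`) and `∏ N P ≤ N I`, `∑ log N P ≤ log N I ≤ log x`. -/
def StKDC : Prop := ∀ (L : Type) [Field L] [NumberField L] (T : Finset (Ideal (𝓞 L))),
  (∀ P ∈ T, P.IsPrime ∧ P ≠ ⊥) → ∀ x : ℝ, 1 ≤ x →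
  ∑ P ∈ T, Real.log (Ideal.absNorm P) * (cnt L (x / Ideal.absNorm P) : ℝ) ≤
    (cnt L x : ℝ) * Real.log x

/-- KME, EASY-MEDIUM.  Mertens' lower bound.

`log n! = ∑_{p ≤ n} v_p(n!) log p` and `(p - 1) v_p(n!) ≤ n` (`sub_one_mul_padicValNat_factorial`),
`log n! ≥ n log n - n` (`n^n / n! ≤ exp n`).  So `log n - 1 ≤ ∑_{p≤n} log p / (p - 1)`, and
`log p/(p-1) = log p/p + log p/(p(p-1))`; the sum of the last terms is at most
`∑_{k ≥ 2} log k / (k (k-1)) < ∞` (`log k ≤ 2 √k`; or use TG.StKAP for the odd primes). -/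
def StKME : Prop := ∃ C : ℝ, ∀ n : ℕ, 1 ≤ n →
  Real.log n - C ≤ ∑ p ∈ opr n, Real.log p / p

/-- KTW, EASY-MEDIUM.  A number field cannot have two ideals of norm `p` for almost all `p`.
USES KDC KME.

`cnt L x / x` tends to a constant `κ > 0` (`NumberField.Ideal.tendsto_norm_le_div_atTop₀`,
`NumberField.dedekindZeta_residue_pos` and `_def`).  Let `Y ≥ 1` with
`(7/8) κ y ≤ cnt y ≤ (9/8) κ y` for `y ≥ Y`.  For `x` large let `T` be the set of the `P_p`, `Q_p`
for the primes `N0 < p ≤ x / Y`, `p ∉ S`; ideals of different norms are different.  KDC: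
`2 ∑_p log p cnt(x/p) ≤ cnt(x) log x`, and `x / p ≥ Y`, so
`(7/4) κ x ∑_p log p / p ≤ (9/8) κ x log x`.  By KME (`n = ⌊x/Y⌋ ≥ x/(2Y)`),
`∑_p log p/p ≥ log x - log (2 Y) - C - c - ∑_{p ≤ N0} log p / p`.  So
`(7/4) (log x - C') ≤ (9/8) log x`, false for `x` large. -/
def StKTW : Prop := ∀ (L : Type) [Field L] [NumberField L] (S : Set ℕ) (N0 : ℕ) (c : ℝ), Bs S c →
  (∀ p : ℕ, p.Prime → N0 < p → p ∉ S → ∃ P Q : Ideal (𝓞 L), P ≠ Q ∧ P.IsPrime ∧ Q.IsPrime ∧
    Ideal.absNorm P = p ∧ Ideal.absNorm Q = p) → False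

/-- KDK, EASY-MEDIUM.  Dedekind: a root of `f` modulo `p` gives an ideal of norm `p`.

`L = AdjoinRoot (f.map (Int.castRingHom ℚ))` (a field: `f` is irreducible over `ℚ` by Gauss,
`Polynomial.Monic.irreducible_iff_irreducible_map_fraction_map`), `θ` the root, an algebraic
integer.  `f` is separable over `ℚ`: `u f + v f' = D` with `u, v ∈ ℤ[X]`, `D ≠ 0` an integer (clear
denominators), so for `p ∤ D` the roots of `f` mod `p` are distinct; there are at least two, `a ≠ a'`.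
`𝓞 L` is finitely generated and every element is a quotient of an element of `ℤ[θ]` by an integer,
so there is an integer `N ≥ 1` with `N 𝓞 L ⊆ ℤ[θ]`.  For `p ∤ N` and a root `a`:
`φ_a : 𝓞 L → ZMod p`, `φ_a x = N⁻¹ ev_a (N x)`, `ev_a : ℤ[θ] → ZMod p`, `θ ↦ a`, is a surjective ring
homomorphism; the kernel is a prime ideal of norm `p` (the quotient is `ZMod p`), and the kernels of
`φ_a`, `φ_a'` are different because `p ∤ a - a'`.  (Or: `N0` above the exponent of `θ`,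
`NumberField.Ideal.primesOverSpanEquivMonicFactorsMod` in
`Mathlib/NumberTheory/NumberField/Ideal/KummerDedekind.lean`.) -/
def StKDK : Prop := ∀ f : ℤ[X], f.Monic → Irreducible f → 2 ≤ f.natDegree →
  ∃ (L : Type) (_ : Field L) (_ : NumberField L) (N0 : ℕ), ∀ p : ℕ, p.Prime → N0 < p →
  (∃ s : Multiset (ZMod p), f.map (Int.castRingHom (ZMod p)) =
    (s.map fun a => (Polynomial.X - Polynomial.C a : (ZMod p)[X])).prod) →
  ∃ P Q : Ideal (𝓞 L), P ≠ Q ∧ P.IsPrime ∧ Q.IsPrime ∧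
    Ideal.absNorm P = p ∧ Ideal.absNorm Q = p

/-- KRO, EASY.  Kronecker.  USES KTW KDK.

`natDegree ≠ 0` since `f` is monic and not a unit; if `natDegree ≥ 2`, KDK and KTW (with the maximum
of the two bounds) give a contradiction. -/
def StKRO : Prop := ∀ (f : ℤ[X]) (S : Set ℕ) (N0 : ℕ) (c : ℝ), f.Monic → Irreducible f → Bs S c →
  (∀ p : ℕ, p.Prime → N0 < p → p ∉ S → ∃ s : Multiset (ZMod p),
    f.map (Int.castRingHom (ZMod p)) =
      (s.map fun a => (Polynomial.X - Polynomial.C a : (ZMod p)[X])).prod) →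
  f.natDegree = 1

/-- KEI, EASY-MEDIUM.  The eigenvalues are integers.  USES KRO.

`C.charpoly ∈ ℤ[X]` is monic, so it is a product of monic irreducible polynomials `f_i` (unique
factorization in `ℤ[X]`, leading coefficients `±1`; or strong induction on the degree).  For a good
prime `p`: `(pm p C)^p = pm p C`, so every root `α` of `f_i` mod `p` in an algebraic closure of
`ZMod p` is an eigenvalue of `C` mod `p`, so `α^p = α` and `α ∈ ZMod p`; so `f_i` mod `p` is a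
product of linear factors.  (Or: `minpoly` of `pm p C` divides `X^p - X`, and every irreducible factor
of the charpoly divides `minpoly`.)  By KRO `f_i = X - γ_i`.  Cayley-Hamilton:
`aeval C ∏ (X - γ_i) = 0`.  `det (γ_i - C) = 0`, so there is an integral vector `v ≠ 0` with
`C v = γ_i v` (`Matrix.exists_mulVec_eq_zero_iff`). -/
def StKEI : Prop := ∀ (ι : Type) [Fintype ι] [DecidableEq ι] (C : Matrix ι ι ℤ) (S : Set ℕ)
  (N0 : ℕ) (c : ℝ), Bs S c →
  (∀ p : ℕ, p.Prime → N0 < p → p ∉ S → (pm p C) ^ p = pm p C) →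
  ∃ (m : ℕ) (γ : Fin m → ℤ),
    Polynomial.aeval C (∏ j, (Polynomial.X - Polynomial.C (γ j)) : ℤ[X]) = 0 ∧
    ∀ j, ∃ v : ι → ℤ, v ≠ 0 ∧ C *ᵥ v = γ j • v

/-- KPC, EASY.  The residues at 1 and infinity modulo `p`.  USES PC012.

`DA` is lower triangular: the coefficient of degree 0 of `(DA M A)^k (cst v)` is `(A 0)^k v`.  PC012
for `A1` (`A1 0 = -C`): `(-C)^p = -C` mod `p`, so `C^p = C` (`(-1)^p = -1` in characteristic `p`);
for `A2` (`A2 0 = B + C`). -/
def StKPC : Prop := ∀ (p : ℕ) [Fact p.Prime] (ι : Type) [Fintype ι] [DecidableEq ι]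
  (M : ℕ) (β : ι → ℤ) (C : Matrix ι ι ℤ), ¬ p ∣ M → PZ M β C p →
  (pm p C) ^ p = pm p C ∧ (db (ZMod p) β + pm p C) ^ p = db (ZMod p) β + pm p C

/-- KSP, EASY-MEDIUM.  The characteristic polynomial splits over `ℤ`.

`TG.rs K` is an injective ring homomorphism (`Algebra.leftMulMatrix_injective`; TG/I_RSC has the
ring homomorphism), so `∏_l (c - γ_l) = 0` over `𝓞 K`, and over an algebraic closure `E` of `K`.
Every root of the charpoly in `E` is an eigenvalue of `c`, hence a root of `∏ (X - γ_l)`, hence one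
of the integers `γ_l`.  The charpoly is monic of degree `r` and splits over `E`, so it is
`∏_{j : Fin r} (X - γ'_j)` over `E` with integers `γ'_j` (a multiset of `r` elements is the image of
some `Fin r → ℤ`), and `𝓞 K → E` is injective. -/
def StKSP : Prop := ∀ (K : Type) [Field K] [NumberField K] (r : ℕ)
  (c : Matrix (Fin r) (Fin r) (𝓞 K)) (m : ℕ) (γ : Fin m → ℤ),
  Polynomial.aeval (TG.rs K c) (∏ j, (Polynomial.X - Polynomial.C (γ j)) : ℤ[X]) = 0 →
  ∃ γ' : Fin r → ℤ, c.charpoly = ∏ j, (Polynomial.X - Polynomial.C ((γ' j : ℤ) : 𝓞 K))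

/-- FIN2, EASY-MEDIUM.  THE GENERAL THEOREM.  USES FIN KEI KPC KSP RSP RSD.

`r = 0`: FIN with the empty families (`charpoly = 1`).  `r > 0`: `nd β ≥ 1`, so `Cost` bounds the
sums of `log p / p` over the primes of `S` not dividing `M`: `Bs {p ∈ S | ¬ p ∣ M} c`.  For every
prime `p > M`, `p ∉ S`: RSP gives `PZ M β' (rs c) p` with `β' x = β x.1`, so KPC gives
`C^p = C`, `(db + C)^p = db + C` modulo `p` for `C = rs c`, `db + C = rs (b + c)` (RSD).  KEI with
`N0 = M` and KSP for `c` and for `b + c`: the charpolys are `∏ (X - γ_j)`, `∏ (X - ζ_j)`; the `γ_j`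
are roots, so `M ∣ n1 γ_j`, `M ∣ n2 ζ_j` by hypothesis.  Then FIN. -/
def StFIN2 : Prop := ∀ (K : Type) [Field K] [NumberField K] (σ : K →+* ℂ) (r M n1 n2 : ℕ)
  (R L : ℝ) (β : Fin r → ℤ) (b c : Matrix (Fin r) (Fin r) (𝓞 K)) (S : Set ℕ),
  0 < M → Typ n1 n2 R → L < Real.log R →
  (∀ i j, (M : ℤ) ∣ β i - β j → β i = β j) →
  b = Matrix.diagonal (fun i => ((β i : ℤ) : 𝓞 K)) →
  (∀ γ : ℤ, c.charpoly.IsRoot ((γ : ℤ) : 𝓞 K) → (M : ℤ) ∣ n1 * γ) →
  (∀ ζ : ℤ, (b + c).charpoly.IsRoot ((ζ : ℤ) : 𝓞 K) → (M : ℤ) ∣ n2 * ζ) →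
  Cost M β S L →
  (∀ p : ℕ, p.Prime → ¬ p ∣ M → p ∉ S → (Ideal.span {(p : 𝓞 K)}).IsRadical) →
  (∀ P : Ideal (𝓞 K), P.IsMaximal → ¬ ringChar (𝓞 K ⧸ P) ∣ M → ringChar (𝓞 K ⧸ P) ∉ S →
    PCurvZero M b c P) →
  ∀ B D : Matrix (Fin r) (Fin r) ℂ, (∀ i j, B i j = σ (b i j : K) / M) →
    (∀ i j, D i j = σ (c i j : K) / M) → A.HasAlgebraicSolutions B D

/-- C72, EASY-MEDIUM (compare I_C12).  The cost for `M = 12, 24, 36, 72`.  USES TG.StKAP.

`primeFactors = {2, 3}`; the first sum is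
`(v_2 + spc_2) log 2 + (v_3 + spc_3 / 2) log 3 ≤ 4 log 2 + 5/2 log 3`; the rest as for C12. -/
def StC72 : Prop := ∀ (ι : Type) [Fintype ι] [DecidableEq ι] (M : ℕ) (β : ι → ℤ) (S : Set ℕ)
  (σ : ℝ), (M = 12 ∨ M = 24 ∨ M = 36 ∨ M = 72) → nd β ≤ 8 →
  M.factorization 2 + spc 2 M β ≤ 4 → 2 * M.factorization 3 + spc 3 M β ≤ 5 → SmallS S σ →
  Cost M β S (4 * Real.log 2 + 5 / 2 * Real.log 3 + 8 * (4145 / 10000 - Real.log 3 / 6 + σ))

/-- the exponents (integral eigenvalues of `c` divided by `M`) lie in `(1/n) ℤ` -/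
def Ord (K : Type) [Field K] [NumberField K] (r M n : ℕ) (c : Matrix (Fin r) (Fin r) (𝓞 K)) :
    Prop := ∀ γ : ℤ, c.charpoly.IsRoot ((γ : ℤ) : 𝓞 K) → (M : ℤ) ∣ n * γ

/-- FAM2, EASY-MEDIUM (compare I_FAM).  THE FAMILIES.  USES FIN2 DYA C72 NUM5.

As FAM, with FIN2 instead of FIN; for `(4,4,4)` the two divisibilities are trivial. -/
def StFAM2 : Prop := ∀ (K : Type) [Field K] [NumberField K] (σ : K →+* ℂ) (r : ℕ)
  (β : Fin r → ℤ) (b c : Matrix (Fin r) (Fin r) (𝓞 K)) (S : Set ℕ),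
  b = Matrix.diagonal (fun i => ((β i : ℤ) : 𝓞 K)) →
  ((∀ i j, (4 : ℤ) ∣ β i - β j → β i = β j) → nd β ≤ 3 → Hyp K r 4 b c S (1 / 22) →
    Alg K σ r 4 b c) ∧
  ((∀ i j, (8 : ℤ) ∣ β i - β j → β i = β j) → nd β ≤ 6 → Ord K r 8 2 c → Ord K r 8 4 (b + c) →
    Hyp K r 8 b c S (1 / 22) → Alg K σ r 8 b c) ∧
  ((∀ i j, (16 : ℤ) ∣ β i - β j → β i = β j) → nd β ≤ 5 → Ord K r 16 2 c →
    Ord K r 16 4 (b + c) → Hyp K r 16 b c S (1 / 1000) → Alg K σ r 16 b c) ∧
  ((∀ i j, (8 : ℤ) ∣ β i - β j → β i = β j) → nd β ≤ 3 → Ord K r 8 2 c →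
    Hyp K r 8 b c S (1 / 22) → Alg K σ r 8 b c) ∧
  ∀ M : ℕ, (M = 12 ∨ M = 24 ∨ M = 36 ∨ M = 72) →
    (∀ i j, (M : ℤ) ∣ β i - β j → β i = β j) → nd β ≤ 8 →
    M.factorization 2 + spc 2 M β ≤ 4 → 2 * M.factorization 3 + spc 3 M β ≤ 5 →
    Ord K r M 2 c → Ord K r M 3 (b + c) → Hyp K r M b c S (1 / 200) → Alg K σ r M b c

end Pool.Agent.Work.MP_5e5ff1_ag.TH
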