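import Mathlib
import Pool.Agent.Work.MP_5e5ff1_ag.TH.StmtsK

set_option autoImplicit false

/-!
# MP_5e5ff1_ag, block TH, part G: growth conditions at finitely many primes, all denominators `M`

The theorem StFIN2 with a general cost at a finite set `T` of primes which contains the primes
dividing `M`: at `p ∈ T` the cost is any `κ p` such that the formal solution `U` at 0 has `p`-adic
radius of convergence at least `p^(-κ p)`.

Every docstring is the complete proof.  USES lists the statements which the item may take as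
hypotheses `(h : StX)`.  Captain helper18.
-/

open Matrix Filter Topology NumberField
open scoped Polynomial

namespace Pool.Agent.Work.MP_5e5ff1_ag.TH

section G

variable {ι : Type} [Fintype ι] [DecidableEq ι]

/-- growth of the `p`-adic norms with exponent `κ` per degree, over `ℚ` -/
def Gr (p : ℕ) (κ : ℝ) (V : ℕ → Matrix ι ι ℚ) : Prop := ∀ ε : ℝ, 0 < ε → ∃ a : ℕ,
  ∀ (n : ℕ) (i j : ι), padicNorm p (V n i j) ≤ (p : ℚ) ^ (a + ⌈(κ + ε) * n⌉₊)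

/-- the same over a number field, for all places above `p` -/
def GrK {K : Type} [Field K] {r : ℕ} (p : ℕ) (κ : ℝ) (U : ℕ → Matrix (Fin r) (Fin r) K) : Prop :=
  ∀ ε : ℝ, 0 < ε → ∃ a : ℕ, ∀ (n : ℕ) (i j : Fin r), ∃ m : ℕ, ¬ p ∣ m ∧
    IsIntegral ℤ ((m : K) * (p : K) ^ (a + ⌈(κ + ε) * n⌉₊) * U n i j)

open Classical in
/-- the cost with the exponents `κ p` for `p ∈ T`, `s` the number of distinct exponents at 0 -/
def CostT (T : Finset ℕ) (κ : ℕ → ℝ) (s : ℕ) (S : Set ℕ) (L : ℝ) : Prop := ∀ F : Finset ℕ,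
  (∀ p ∈ F, p.Prime ∧ p ∉ T) →
  ∑ p ∈ T, κ p * Real.log p +
    (s : ℝ) * ∑ p ∈ F, (1 / ((p : ℝ) * (p - 1)) + if p ∈ S then 1 / (p : ℝ) else 0) *
      Real.log p ≤ L

open Classical in
/-- the exponent of `p` in the common denominator -/
noncomputable def exT (M : ℕ) (β : ι → ℤ) (S : Set ℕ) (T : Finset ℕ) (κ : ℕ → ℝ) (a : ℕ → ℕ)
    (B J N p : ℕ) : ℕ :=
  if p ∈ T then J * (a p + 1) + ⌈κ p * N⌉₊
  else nd β * (if p ∈ S then LSJ p M B J N else LGJ p M B J N)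

/-- common denominator -/
noncomputable def dT (M : ℕ) (β : ι → ℤ) (S : Set ℕ) (T : Finset ℕ) (κ : ℕ → ℝ) (a : ℕ → ℕ)
    (B J N : ℕ) : ℕ :=
  ∏ p ∈ T ∪ opr (M * N + B + M), p ^ exT M β S T κ a B J N p

end G

/-- CKC, EASY.  From the cost with `T` to a finite cost without `T`.

For a finite set `F` of primes not dividing `M`, split `F = F₁ ∪ F₂`, `F₁ = F \ T`, `F₂ = F ∩ T`.
The terms are `f p = (1/(p(p-1)) + [p ∈ S ∪ T] 1/p) log p ≥ 0`; for `p ∉ T` it is the term of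
`CostT`.  So `nd β ∑_F f ≤ (L - ∑_T κ p log p) + nd β ∑_{p ∈ T.filter Nat.Prime} f p`, and `L'` = this
bound plus the first sum of `Cost`. -/
def StCKC : Prop := ∀ (ι : Type) [Fintype ι] [DecidableEq ι] (M : ℕ) (β : ι → ℤ) (S : Set ℕ)
  (T : Finset ℕ) (κ : ℕ → ℝ) (L : ℝ), CostT T κ (nd β) S L →
  ∃ L' : ℝ, Cost M β (S ∪ {p | p ∈ T}) L'

/-- DNT, EASY-MEDIUM (copy of I_DEN).  The common denominator.  USES BAD GOD TG.StPOW LIS TG.StITG.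

For every prime `p` the norm of the coefficient is at most `p^(exT ...)`.  If `p ∈ T`: TG.StPOW with
`E n = a p + ⌈κ p n⌉`: for a list `l` of length `≤ J` and sum `≤ N`,
`∑ (a p + ⌈κ p n⌉) ≤ J a p + ⌈κ p N⌉ + J` (`⌈x⌉ ≤ x + 1` for `x ≥ 0`, so the integer
`∑ ⌈κ p n⌉ - J` is at most `κ p ∑ n ≤ κ p N ≤ ⌈κ p N⌉`).  If `p ∉ T`, then `p ∤ M`; BAD for `p ∈ S`,
GOD otherwise, as in I_DEN.  The primes of `T` and those `≤ M N + B + M` occur in `dT`; for the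
others the exponent is 0. -/
def StDNT : Prop := ∀ (ι : Type) [Fintype ι] [DecidableEq ι] (M : ℕ)
  (β : ι → ℤ) (C : Matrix ι ι ℤ) (S : Set ℕ) (T : Finset ℕ) (κ : ℕ → ℝ) (a : ℕ → ℕ)
  (U : ℕ → Matrix ι ι ℚ), 0 < M →
  IsU M β (qm C) U → (∀ i j, (M : ℤ) ∣ β i - β j → β i = β j) →
  (∀ p : ℕ, p.Prime → p ∣ M → p ∈ T) →
  (∀ p : ℕ, p.Prime → ¬ p ∣ M → p ∉ S → PZ M β C p) →
  (∀ p ∈ T, 0 ≤ κ p ∧ ∀ (n : ℕ) (i j : ι),
    padicNorm p (U n i j) ≤ (p : ℚ) ^ (a p + ⌈κ p * n⌉₊)) →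
  ∀ B : ℕ, (∀ i j, |β i - β j| ≤ B) →
  ∀ (i j0 : ι) (J N : ℕ), ∀ j ≤ J, ∀ k ≤ N, ∃ z : ℤ,
    (dT M β S T κ a B J N : ℚ) * PowerSeries.coeff k ((PowerSeries.mk fun n => U n i j0) ^ j) = z

/-- GRT, EASY-MEDIUM (copy of I_GRO).  Growth of the common denominator.  USES GRS GRG CKC.

`log dT = ∑_{p ∈ T ∪ opr H} exT log p`, `H = M N + B + M`.  The part `p ∈ T`:
`(J (a p + 1) + ⌈κ p N⌉) log p ≤ κ p N log p + (J (a p + 1) + 1) log p`, and the constants are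
`≤ (ε/2) N` for `N` large.  The part `p ∈ opr H`, `p ∉ T` (so `p ∤ M`): for `p ∈ S` it is contained in
the sum of GRS for the set `S \ T`, for `p ∉ S` in the sum of GRG for the set `S ∪ T`, and these sums
run over the same primes (`p ∉ T` implies `p ∤ M`).  `Sb M (S \ T)` from CKC as in I_GRO
(`nd β ≥ 1`), or directly from `CostT`.  The main terms add up to `N` times the left side of `CostT`
for `F` = the primes of `opr H` not in `T`. -/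
def StGRT : Prop := ∀ (ι : Type) [Fintype ι] [DecidableEq ι] [Nonempty ι] (M : ℕ) (β : ι → ℤ)
  (S : Set ℕ) (T : Finset ℕ) (κ : ℕ → ℝ) (a : ℕ → ℕ) (L : ℝ) (B J : ℕ), 0 < M →
  (∀ p ∈ T, p.Prime ∧ 0 ≤ κ p) → (∀ p : ℕ, p.Prime → p ∣ M → p ∈ T) →
  CostT T κ (nd β) S L → ∀ ε > 0, ∃ N0 : ℕ, ∀ N ≥ N0,
  Real.log (dT M β S T κ a B J N) ≤ (L + ε) * N

/-- MDG, EASY.  The local estimate without hypotheses.  USES MOD GRM.

For `B` bounding all `|β i - β j|`, MOD: `|U n i j|_p ≤ p^(v n + s LS)`, `v = v_p(M)`,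
`s = spc p M β`, `LS = LS p M B n = LSJ p M B 1 n`.  GRM with `J = 1` and `ε' = ε log p / (s + 1)`:
`LS log p ≤ n log p/(p-1) + ε' n` for `n ≥ N0`, so `v n + s LS ≤ (v + s/(p-1) + ε) n ≤ ⌈..⌉`.
`a` = the maximum of the exponents for `n < N0`. -/
def StMDG : Prop := ∀ (p : ℕ) [Fact p.Prime] (ι : Type) [Fintype ι] [DecidableEq ι]
  (M : ℕ) (β : ι → ℤ) (C : Matrix ι ι ℤ) (U : ℕ → Matrix ι ι ℚ), 0 < M → IsU M β (qm C) U →
  (∀ i j, (M : ℤ) ∣ β i - β j → β i = β j) → ∀ κ : ℝ,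
  (M.factorization p : ℝ) + (spc p M β : ℝ) / ((p : ℝ) - 1) ≤ κ → Gr p κ U

/-- MZT, EASY-MEDIUM (copy of I_MZ).  The theorem for integral systems.
USES StCrit2 StMapT DNT GRT CKC UCV CON TG.StPwr TG.StCnv.

Choose `δ > 0` with `L₁ := L + δ ∑_{p ∈ T} log p < log R`; `κ' p = κ p + δ`, so
`CostT T κ' (nd β) S L₁`.  `Gr p (κ p) U` with `ε = δ` gives the numbers `a p`.  DNT and GRT for `κ'`,
`a`, `L₁` replace DEN and GRO of I_MZ.  For CON: CKC gives `L'` with `Cost M β (S ∪ T) L'`, so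
`Sys M n1 n2 β C (S ∪ T) L'` (`pz` for `p ∉ S ∪ T` from the hypothesis); `L'` plays no other role. -/
def StMZT : Prop := ∀ (ι : Type) [Fintype ι] [DecidableEq ι] [Nonempty ι] (M n1 n2 : ℕ)
  (β : ι → ℤ) (C : Matrix ι ι ℤ) (S : Set ℕ) (T : Finset ℕ) (κ : ℕ → ℝ) (R L : ℝ)
  (U : ℕ → Matrix ι ι ℚ),
  Typ n1 n2 R → L < Real.log R → 0 < M → (∀ i j, (M : ℤ) ∣ β i - β j → β i = β j) →
  (n1 ≠ 0 → ∃ (m : ℕ) (γ : Fin m → ℤ), (∀ j, (M : ℤ) ∣ n1 * γ j) ∧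
    Polynomial.aeval C (∏ j, (Polynomial.X - Polynomial.C (γ j))) = 0) →
  (n2 ≠ 0 → ∃ (m : ℕ) (γ : Fin m → ℤ), (∀ j, (M : ℤ) ∣ n2 * γ j) ∧
    Polynomial.aeval (db ℤ β + C) (∏ j, (Polynomial.X - Polynomial.C (γ j))) = 0) →
  (∀ p : ℕ, p.Prime → ¬ p ∣ M → p ∉ S → PZ M β C p) →
  (∀ p : ℕ, p.Prime → p ∣ M → p ∈ T) → CostT T κ (nd β) S L → IsU M β (qm C) U →
  (∀ p ∈ T, p.Prime ∧ 0 ≤ κ p ∧ Gr p (κ p) U) →
  ∀ i j, IsAlgebraic ℚ[X] (PowerSeries.mk fun n => U n i j)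

/-- RSG, EASY-MEDIUM.  Growth and restriction of scalars.  USES RSU UEX.

Let `σ : K →+* ℂ` be an embedding.  `fun n => (U n).map σ` satisfies `IsU` over `ℂ`, so by RSU and
the injectivity of `σ`, `U n i j * e_b = ∑_a (V n (i,a) (j,b)) • e_a` in `K`, `e` the integral basis
(`Module.finBasis ℤ (𝓞 K)`).  If `m p^e U n i j` is an algebraic integer (`¬ p ∣ m`), its product with
`e_b` is an element of `𝓞 K`, `= ∑_a z_a e_a` with integers `z_a`, and the `e_a` are linearly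
independent over `ℚ` in `K` (`NumberField.integralBasis`, or clear denominators), so
`m p^e V n (i,a) (j,b) = z_a` and `padicNorm p (V n (i,a) (j,b)) ≤ p^e` (`padicNorm p m = 1`). -/
def StRSG : Prop := ∀ (K : Type) [Field K] [NumberField K] (σ : K →+* ℂ) (r M : ℕ)
  (β : Fin r → ℤ) (c : Matrix (Fin r) (Fin r) (𝓞 K)) (U : ℕ → Matrix (Fin r) (Fin r) K)
  (V : ℕ → Matrix (Fin r × Fin (Module.finrank ℤ (𝓞 K)))
    (Fin r × Fin (Module.finrank ℤ (𝓞 K))) ℚ), 0 < M →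
  (∀ i j, (M : ℤ) ∣ β i - β j → β i = β j) →
  IsU M β (Matrix.of fun i j => (c i j : K)) U →
  IsU M (fun x : Fin r × Fin (Module.finrank ℤ (𝓞 K)) => β x.1) (qm (TG.rs K c)) V →
  ∀ (p : ℕ) (κ : ℝ), p.Prime → GrK p κ U → Gr p κ V

/-- FINT, EASY-MEDIUM (I_FIN and I_FIN2 in one).  THE GENERAL THEOREM.
USES UEX MZT RSC RSD RSP RSL ALG CKC KEI KPC KSP MDG RSG.

`r = 0`: the algebraicity of `V` is an empty statement (as in I_FIN); RSL and ALG.  `r > 0`: for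
`ι = Fin r × Fin d`, `β' x = β x.1`, `C = rs K c`: `nd β' = nd β`, `spc p M β' = spc p M β`
(as in I_COSR).  CKC gives `Cost M β (S ∪ T) L'`, so `Bs {p ∈ S ∪ T, ¬ p ∣ M} L'`
(`IFIN2.bs_of_cost` in I_FIN2: import that file).  KEI, KPC, KSP as in I_FIN2 (with `S ∪ T` instead
of `S`) give the charpolys `∏ (X - γ_j)`, `∏ (X - ζ_j)`; RSC, RSD give the hypotheses of MZT; `PZ` by
RSP.  For `p ∈ T`: `Gr p (κ p) V` by MDG (first alternative) or RSG (second alternative).  MZT, then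
RSL and ALG as in I_FIN. -/
def StFINT : Prop := ∀ (K : Type) [Field K] [NumberField K] (σ : K →+* ℂ) (r M n1 n2 : ℕ)
  (R L : ℝ) (β : Fin r → ℤ) (b c : Matrix (Fin r) (Fin r) (𝓞 K)) (S : Set ℕ) (T : Finset ℕ)
  (κ : ℕ → ℝ) (U : ℕ → Matrix (Fin r) (Fin r) K),
  0 < M → Typ n1 n2 R → L < Real.log R →
  (∀ i j, (M : ℤ) ∣ β i - β j → β i = β j) →
  b = Matrix.diagonal (fun i => ((β i : ℤ) : 𝓞 K)) →
  (∀ γ : ℤ, c.charpoly.IsRoot ((γ : ℤ) : 𝓞 K) → (M : ℤ) ∣ n1 * γ) →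
  (∀ ζ : ℤ, (b + c).charpoly.IsRoot ((ζ : ℤ) : 𝓞 K) → (M : ℤ) ∣ n2 * ζ) →
  IsU M β (Matrix.of fun i j => (c i j : K)) U →
  (∀ p : ℕ, p.Prime → p ∣ M → p ∈ T) →
  (∀ p ∈ T, p.Prime ∧ 0 ≤ κ p ∧
    ((M.factorization p : ℝ) + (spc p M β : ℝ) / ((p : ℝ) - 1) ≤ κ p ∨ GrK p (κ p) U)) →
  CostT T κ (nd β) S L →
  (∀ p : ℕ, p.Prime → ¬ p ∣ M → p ∉ S → (Ideal.span {(p : 𝓞 K)}).IsRadical) →
  (∀ P : Ideal (𝓞 K), P.IsMaximal → ¬ ringChar (𝓞 K ⧸ P) ∣ M → ringChar (𝓞 K ⧸ P) ∉ S →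
    PCurvZero M b c P) →
  ∀ B D : Matrix (Fin r) (Fin r) ℂ, (∀ i j, B i j = σ (b i j : K) / M) →
    (∀ i j, D i j = σ (c i j : K) / M) → A.HasAlgebraicSolutions B D

end Pool.Agent.Work.MP_5e5ff1_ag.TH
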