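import Mathlib
import Pool.Agent.Work.MP_5e5ff1_ag.TH.StmtsG

set_option autoImplicit false

/-!
# MP_5e5ff1_ag, block TH, part X: resonant exponents, arbitrary residues `b`, `c`

Parts X and Y remove the hypotheses on the residue `b` of the theorem of part G: `b` need not be
diagonal and its eigenvalues may differ by multiples of `M` (resonance), and the number of distinct
exponents is replaced by the number `nc M β` of distinct exponents modulo `ℤ`.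

The point: a solution `W = ∑ W n t^n`, `DA w_j = -β_j w_j` for the columns, is determined by its terms
of degree `≤ B`, and it is the Lagrange projection of its truncation, so that the bounds of part A
hold with the truncation instead of the constant term.

Every docstring is the complete proof.  USES lists the statements which the item may take as
hypotheses `(h : StX)`.  Captain helper18.
-/

open Matrix Filter Topology NumberField
open scoped Polynomial nonZeroDivisors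

namespace Pool.Agent.Work.MP_5e5ff1_ag.TH

section X

variable {ι : Type} [Fintype ι] [DecidableEq ι]

/-- number of classes modulo `M` of the numbers `β i` -/
def nc (M : ℕ) (β : ι → ℤ) : ℕ := (Finset.univ.image fun i => β i % (M : ℤ)).card

/-- the coefficients of the operator at the point 0 for a general residue `B / M` -/
def A0g {R : Type*} [CommRing R] (B C : Matrix ι ι R) (m : ℕ) : Matrix ι ι R :=
  if m = 0 then -B else C

/-- the p-curvature of the system with the residues `B / M`, `C / M` vanishes modulo `p` -/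
def PZg (M : ℕ) (B C : Matrix ι ι ℤ) (p : ℕ) : Prop := Qm M (pm p B) (pm p C) p = 0

/-- `W = ∑ W n t^n`, the columns of `W t^(diag β / M)` are solutions of the system with the residues
`B / M`, `C / M`: `DA M (A0g B C) w_j = -β_j w_j` for the column `w_j` -/
def IsW {F : Type} [Field F] (M : ℕ) (β : ι → ℤ) (B C : Matrix ι ι F)
    (W : ℕ → Matrix ι ι F) : Prop :=
  ∀ (n : ℕ) (i j : ι), ((M : F) * (n : F) + (β j : F)) * W n i j - (B * W n) i j +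
    ∑ k ∈ Finset.range n, (C * W k) i j = 0

/-- representatives of the classes modulo `M` of the `β i`: the smallest elements -/
structure IsRep (M : ℕ) (β : ι → ℤ) (R : Finset ℤ) : Prop where
  card : R.card = nc M β
  mem : ∀ c ∈ R, ∃ i, c = β i
  ex : ∀ i, ∃ c ∈ R, c ≤ β i ∧ (M : ℤ) ∣ β i - c
  le : ∀ c ∈ R, ∀ j, (M : ℤ) ∣ β j - c → c ≤ β j

/-- hypotheses of the theorem for integral systems, resonance allowed -/
structure SysR (M n1 n2 : ℕ) (β : ι → ℤ) (C : Matrix ι ι ℤ) (S : Set ℕ) : Prop where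
  hM : 0 < M
  h1 : n1 ≠ 0 → ∃ (m : ℕ) (γ : Fin m → ℤ), (∀ j, (M : ℤ) ∣ n1 * γ j) ∧
    Polynomial.aeval C (∏ j, (Polynomial.X - Polynomial.C (γ j))) = 0
  h2 : n2 ≠ 0 → ∃ (m : ℕ) (γ : Fin m → ℤ), (∀ j, (M : ℤ) ∣ n2 * γ j) ∧
    Polynomial.aeval (db ℤ β + C) (∏ j, (Polynomial.X - Polynomial.C (γ j))) = 0
  inf : ∀ N : ℕ, ∃ p : ℕ, N < p ∧ p.Prime ∧ ¬ p ∣ M ∧ p ∉ S
  pz : ∀ p : ℕ, p.Prime → ¬ p ∣ M → p ∉ S → PZ M β C p

end X

open Classical in
/-- the exponent of `p` in the common denominator, `s` the number of classes -/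
noncomputable def exS (M s : ℕ) (S : Set ℕ) (T : Finset ℕ) (κ : ℕ → ℝ) (a : ℕ → ℕ)
    (B J N p : ℕ) : ℕ :=
  if p ∈ T then J * (a p + 1) + ⌈κ p * N⌉₊
  else s * (if p ∈ S then LSJ p M B J N else LGJ p M B J N)

/-- common denominator -/
noncomputable def dS (M s : ℕ) (S : Set ℕ) (T : Finset ℕ) (κ : ℕ → ℝ) (a : ℕ → ℕ)
    (B J N : ℕ) : ℕ :=
  ∏ p ∈ T ∪ opr (M * N + B + M), p ^ exS M s S T κ a B J N p

/-! ### estimates -/

/-- REP, EASY.  `R` = the image of `i ↦ min {β j : M ∣ β j - β i}` (`Finset.exists_min_image`).  Two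
indices with `β i ≡ β j` modulo `M` have the same minimum, and `β i % M` determines the class, so
`R.card` is the number of classes. -/
def StREP : Prop := ∀ (ι : Type) [Fintype ι] [DecidableEq ι] (M : ℕ) (β : ι → ℤ), 0 < M →
  ∃ R : Finset ℤ, IsRep M β R

/-- ITRG, EASY-MEDIUM (copy of I_ITR0, `db R β ↦ B`).  Iterates at 0 for a general residue: for
`P_k = ∏_{a<k} (DA - M a) (cst v)`, `(X-1)^k P_k = Q_k v`.  Here `DA M (A0g B C) g n i =
M n g n i - (B g_n) i + ∑_{k<n} (C g_k) i`. -/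
def StITRG : Prop := ∀ (R : Type) [CommRing R] (ι : Type) [Fintype ι] [DecidableEq ι]
  (M : ℕ) (B C : Matrix ι ι R) (v : ι → R) (k : ℕ) (i : ι),
  (PowerSeries.X - 1 : PowerSeries R) ^ k * PowerSeries.mk (fun n =>
    Polynomial.aeval (DA M (A0g B C)) (∏ a ∈ Finset.range k,
      (Polynomial.X - Polynomial.C ((M : R) * (a : R)))) (cst v) n i) =
  ∑ j, ((Qm M B C k i j : R[X]) : PowerSeries R) * PowerSeries.C (v j)

/-- PC0G, EASY (first part of I_PC012).  `D^p = D` modulo `p` at the point 0.  USES ITRG WIL PCG. -/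
def StPC0G : Prop := ∀ (p : ℕ) [Fact p.Prime] (ι : Type) [Fintype ι] [DecidableEq ι]
  (M : ℕ) (B C : Matrix ι ι ℤ), ¬ p ∣ M → PZg M B C p →
  ∀ v : ℕ → ι → ZMod p, ((DA M (A0g (pm p B) (pm p C))) ^ p) v = DA M (A0g (pm p B) (pm p C)) v

/-- BLMG, EASY (copy of I_BLM).  Blocks of consecutive factors, for any coefficients `A` with
`D^p = D` modulo `p`.  USES WIL CAS. -/
def StBLMG : Prop := ∀ (p : ℕ) [Fact p.Prime] (ι : Type) [Fintype ι] [DecidableEq ι]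
  (M : ℕ) (A : ℕ → Matrix ι ι ℤ), ¬ p ∣ M →
  (∀ v : ℕ → ι → ZMod p, ((DA M (fun m => pm p (A m))) ^ p) v = DA M (fun m => pm p (A m)) v) →
  ∀ (m : ℕ) (T : Finset ℤ) (v : ℕ → ι → ℤ), ∃ v' : ℕ → ι → ℤ,
  Polynomial.aeval (DA M A) (∏ c ∈ T, ∏ k ∈ Finset.Icc 1 (m * p),
    ((Polynomial.X : ℤ[X]) + Polynomial.C (c - (M : ℤ) * (k : ℤ)))) v =
    ((p : ℤ) ^ (m * T.card)) • v'

/-- LAGR, EASY-MEDIUM (compare I_LAG).  Lagrange projection of the truncation.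

`D = DA M (A0g B C)`, `w_j` the columns of `W`: `D w_j = -β_j w_j` (this is `IsW`),
`D (shf k w_i) = (M k - β_i) shf k w_i`, `W 0` is invertible.  Claim: a sequence `v` which vanishes in
degrees `< k0`, `B0 < k0`, has `f(D) v = 0` in degrees `< m0`.  Induction on `m0 - k0`: if `k0 ≥ m0`,
`D` is lower triangular; otherwise `v k0 = W 0 *ᵥ a` and `v - ∑_i a_i shf k0 w_i` vanishes in degrees
`≤ k0`, and `f(D) shf k0 w_i = f(M k0 - β_i) shf k0 w_i = 0`.  Apply it to `w_j` minus its truncation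
(`k0 = B0 + 1`), and `f(D) w_j = f(-β_j) w_j`. -/
def StLAGR : Prop := ∀ (F : Type) [Field F] [CharZero F] (ι : Type) [Fintype ι] [DecidableEq ι]
  (M : ℕ) (β : ι → ℤ) (B C : Matrix ι ι F) (W : ℕ → Matrix ι ι F), IsW M β B C W →
  (W 0).det ≠ 0 → ∀ (B0 m0 : ℕ) (f : F[X]),
  (∀ (k : ℕ) (i : ι), B0 < k → k < m0 → f.eval ((M : F) * (k : F) - (β i : F)) = 0) →
  ∀ (n : ℕ) (i j : ι), n < m0 →
  Polynomial.aeval (DA M (A0g B C)) f (fun n i => if n ≤ B0 then W n i j else 0) n i =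
    f.eval (-(β j : F)) * W n i j

/-- BADN, EASY-MEDIUM.  Primes without hypothesis.  USES REP LAGR CAS CN1.

`R` from REP.  For `n` put `f = ∏_{c ∈ R} ∏_{k ∈ Icc 1 n} (X + c - M k) ∈ ℤ[X]`, `m0 = n + 1`.
For `B0 < k ≤ n` and `i`: `β_i = c + M e` with `c ∈ R`, `0 ≤ e ≤ B0`, so
`M k - β_i = M (k - e) - c`, `1 ≤ k - e ≤ n`, is a zero of `f`.  By LAGR (over `ℚ`)
`f(-β_j) W n i j` is the value of `f(D)` at the truncation, which is an integral vector, so it is an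
integer (CAS for `ℤ → ℚ`).  `f(-β_j) = ∏∏ (-(M k + β_j - c)) ≠ 0` (if `M ∣ β_j - c` then `c ≤ β_j`),
and by CN1 (`M' = M`, `δ = β_j - c`) its valuation is at most `R.card * LS p M B n`. -/
def StBADN : Prop := ∀ (p : ℕ) [Fact p.Prime] (ι : Type) [Fintype ι] [DecidableEq ι]
  (M : ℕ) (β : ι → ℤ) (B C : Matrix ι ι ℤ) (W : ℕ → Matrix ι ι ℚ), 0 < M → ¬ p ∣ M →
  IsW M β (qm B) (qm C) W → (W 0).det ≠ 0 → ∀ B0 : ℕ, (∀ i j, |β i - β j| ≤ B0) →
  (∀ k ≤ B0, ∀ i j, ∃ z : ℤ, W k i j = z) →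
  ∀ (n : ℕ) (i j : ι), padicNorm p (W n i j) ≤ (p : ℚ) ^ (nc M β * LS p M B0 n)

/-- GODN, EASY-MEDIUM (copy of I_GOD).  Primes with vanishing p-curvature.
USES REP LAGR CAS PC0G BLMG CN2.

`m = n/p + 1`, `f = ∏_{c ∈ R} ∏_{k ∈ Icc 1 (m p)} (X + c - M k)`, `m0 = n + 1`; it kills
`M k - β_i`, `B0 < k ≤ n`, as in BADN (`n ≤ m p`).  By BLMG (with `A = A0g B C`, `D^p = D` by PC0G)
`f(D)` of the integral truncation is divisible by `p^(m R.card)`, and by CN2 the valuation of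
`f(-β_j)` is at most `R.card * (m + ∑_{l ∈ Icc 2 ..} (m p / p^l + 1))`, `m p ≤ n + p`. -/
def StGODN : Prop := ∀ (p : ℕ) [Fact p.Prime] (ι : Type) [Fintype ι] [DecidableEq ι]
  (M : ℕ) (β : ι → ℤ) (B C : Matrix ι ι ℤ) (W : ℕ → Matrix ι ι ℚ), 0 < M → ¬ p ∣ M →
  PZg M B C p → IsW M β (qm B) (qm C) W → (W 0).det ≠ 0 →
  ∀ B0 : ℕ, (∀ i j, |β i - β j| ≤ B0) → (∀ k ≤ B0, ∀ i j, ∃ z : ℤ, W k i j = z) →
  ∀ (n : ℕ) (i j : ι), padicNorm p (W n i j) ≤ (p : ℚ) ^ (nc M β * LG p M B0 n)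

/-- MODN, EASY-MEDIUM (copy of I_MOD).  Every prime, diagonal residue `b`.  USES CN1.

`v = v_p(M)`, `M = p^v M'`, `T` = the elements `c` of the image of `β` with `p^v ∣ c - β_j`
(at most `spc p M β`), `δ_c = (β_j - c)/p^v`.  For `n ≤ B0` the norm is `≤ 1`.  For `n > B0` the factor
`M n + β_j - β_i` is positive.  With `g n = p^(v n) ∏_{c∈T} ∏_{m ∈ Ioc B0 n} |M' m + δ_c|⁻¹` (`= p^(vn)`
for `n ≤ B0`) the norm of `W n i j` is at most `g n`, by induction as in I_MOD.  `m = B0 + k`: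
`M' m + δ_c = M' k + (M' B0 + δ_c)`, `|M' B0 + δ_c| ≤ (M + 1) B0`, and CN1 for `k ∈ Icc 1 (n - B0)`
(the numbers are positive for `k ≥ 1`); `LS` is monotone in `n`. -/
def StMODN : Prop := ∀ (p : ℕ) [Fact p.Prime] (ι : Type) [Fintype ι] [DecidableEq ι]
  (M : ℕ) (β : ι → ℤ) (C : Matrix ι ι ℤ) (W : ℕ → Matrix ι ι ℚ), 0 < M →
  IsW M β (qm (db ℤ β)) (qm C) W → ∀ B0 : ℕ, (∀ i j, |β i - β j| ≤ B0) →
  (∀ k ≤ B0, ∀ i j, ∃ z : ℤ, W k i j = z) →
  ∀ (n : ℕ) (i j : ι), padicNorm p (W n i j) ≤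
    (p : ℚ) ^ (M.factorization p * n + spc p M β * LS p M ((M + 1) * B0) n)

/-- MDGR, EASY (copy of I_MDG).  The local estimate without hypotheses, resonance allowed.
USES MODN GRM.

`d` = a common denominator of the `U k i j`, `k ≤ B0`; `W n = (d : ℚ) • U n` satisfies `IsW` (`IsU` is
the same equation: `db β * U` has the entries `β_i U i j`), so `|U n i j| ≤ |d|⁻¹ p^(...)`; then as in
I_MDG with GRM for `B = (M + 1) B0`, `J = 1`. -/
def StMDGR : Prop := ∀ (p : ℕ) [Fact p.Prime] (ι : Type) [Fintype ι] [DecidableEq ι]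
  (M : ℕ) (β : ι → ℤ) (C : Matrix ι ι ℤ) (U : ℕ → Matrix ι ι ℚ), 0 < M → IsU M β (qm C) U →
  ∀ κ : ℝ, (M.factorization p : ℝ) + (spc p M β : ℝ) / ((p : ℝ) - 1) ≤ κ → Gr p κ U

/-- DNS, EASY-MEDIUM (copy of I_DNT).  The common denominator.
USES BADN GODN TG.StPOW LIS TG.StITG.

`(d^J * dS) f^j = d^(J-j) dS (d f)^j`.  At `p ∉ T` (so `p ∤ M`): `W n = (d : ℚ) • U n`, BADN or GODN
with `B = db ℤ β` (`pm p (db ℤ β) = db (ZMod p) β`, IFIN2.pm_db or IFRB.db_map), `det W 0 = d^r ≠ 0`;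
TG.StPOW for `d f` as in I_DNT.  At `p ∈ T`: TG.StPOW for `f` as in I_DNT, and `|d^J|_p ≤ 1`. -/
def StDNS : Prop := ∀ (ι : Type) [Fintype ι] [DecidableEq ι] (M : ℕ)
  (β : ι → ℤ) (C : Matrix ι ι ℤ) (S : Set ℕ) (T : Finset ℕ) (κ : ℕ → ℝ) (a : ℕ → ℕ)
  (U : ℕ → Matrix ι ι ℚ), 0 < M → IsU M β (qm C) U →
  (∀ p : ℕ, p.Prime → p ∣ M → p ∈ T) →
  (∀ p : ℕ, p.Prime → ¬ p ∣ M → p ∉ S → PZ M β C p) →
  (∀ p ∈ T, 0 ≤ κ p ∧ ∀ (n : ℕ) (i j : ι),
    padicNorm p (U n i j) ≤ (p : ℚ) ^ (a p + ⌈κ p * n⌉₊)) →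
  ∀ B0 : ℕ, (∀ i j, |β i - β j| ≤ B0) →
  ∀ d : ℕ, 0 < d → (∀ k ≤ B0, ∀ i j, ∃ z : ℤ, (d : ℚ) * U k i j = z) →
  ∀ (i j0 : ι) (J N : ℕ), ∀ j ≤ J, ∀ k ≤ N, ∃ z : ℤ,
    ((d ^ J * dS M (nc M β) S T κ a B0 J N : ℕ) : ℚ) *
      PowerSeries.coeff k ((PowerSeries.mk fun n => U n i j0) ^ j) = z

/-- GRTS, EASY (copy of I_GRT, `nd β ↦ s`).  Growth of the common denominator.  USES GRS GRG.

`Sb M (S \ T)` directly from `CostT` (`s ≥ 1`; the terms of the sums are nonnegative). -/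
def StGRTS : Prop := ∀ (M s : ℕ) (S : Set ℕ) (T : Finset ℕ) (κ : ℕ → ℝ) (a : ℕ → ℕ) (L : ℝ)
  (B J : ℕ), 0 < M → 1 ≤ s →
  (∀ p ∈ T, p.Prime ∧ 0 ≤ κ p) → (∀ p : ℕ, p.Prime → p ∣ M → p ∈ T) →
  CostT T κ s S L → ∀ ε > 0, ∃ N0 : ℕ, ∀ N ≥ N0,
  Real.log (dS M s S T κ a B J N) ≤ (L + ε) * N

/-- INFT, EASY (copy of I_INF).  Arbitrarily large good primes.

Otherwise all primes `p > max N (M + ∑ T)` are in `S`, and `CostT` (`s ≥ 1`) bounds all finite sums of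
`log p / p` over them, contradiction to the divergence of `∑ 1/p`. -/
def StINFT : Prop := ∀ (M s : ℕ) (S : Set ℕ) (T : Finset ℕ) (κ : ℕ → ℝ) (L : ℝ), 0 < M → 1 ≤ s →
  (∀ p ∈ T, p.Prime ∧ 0 ≤ κ p) → CostT T κ s S L →
  ∀ N : ℕ, ∃ p : ℕ, N < p ∧ p.Prime ∧ ¬ p ∣ M ∧ p ∉ S

/-! ### continuation -/

/-- FRBR, EASY (copy of I_FRB, all three points).  USES PC012.  (`SysR.inf` instead of INF.) -/
def StFRBR : Prop := ∀ (ι : Type) [Fintype ι] [DecidableEq ι] (M n1 n2 : ℕ)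
  (β : ι → ℤ) (C : Matrix ι ι ℤ) (S : Set ℕ), SysR M n1 n2 β C S →
  Frob M (A0 β C) ∧ Frob M (A1 β C) ∧ Frob M (A2 β C)

/-- LOCAR, EASY (copy of I_LOCA).  USES FRBR GEX GCV LOC1 LOC2 LOCR. -/
def StLOCAR : Prop := ∀ (ι : Type) [Fintype ι] [DecidableEq ι] [Nonempty ι] (M n1 n2 : ℕ)
  (β : ι → ℤ) (C : Matrix ι ι ℤ) (S : Set ℕ), SysR M n1 n2 β C S → ∃ K0 : ℕ,
  ∀ (R : ℝ) (m : ℕ) (g A w : ℂ → ℂ), IsMap n1 n2 R m g A w → ∀ K ≥ K0, ∀ lam : ℤ,
  ∀ z0 ∈ Metric.ball (0 : ℂ) 1, z0 ≠ 0 →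
  ∃ (ρ : ℝ) (N : ℂ → Matrix ι ι ℂ), LocSol M n1 n2 β C K lam m g A w N z0 ρ

/-- CONR, EASY (copy of I_CON).  USES UCV LOC0 LOCAR ODX CMP TG.StGLU WNZ. -/
def StCONR : Prop := ∀ (ι : Type) [Fintype ι] [DecidableEq ι] [Nonempty ι] (M n1 n2 : ℕ)
  (β : ι → ℤ) (C : Matrix ι ι ℤ) (S : Set ℕ) (U : ℕ → Matrix ι ι ℚ),
  SysR M n1 n2 β C S → IsU M β (qm C) U →
  ∀ (R : ℝ) (m : ℕ) (g A w : ℂ → ℂ), IsMap n1 n2 R m g A w → ∀ i j, ∃ h F : ℂ → ℂ,
    DifferentiableOn ℂ h (Metric.ball 0 1) ∧ (∃ z ∈ Metric.ball (0 : ℂ) 1, h z ≠ 0) ∧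
    DifferentiableOn ℂ F (Metric.ball 0 1) ∧
    ∀ᶠ z in 𝓝 0, F z = h z *
      (∑' n : ℕ, (U n i j : ℂ) * (z ^ m * g z / A z ^ e1 n2) ^ n) ^ M

/-- MZR, EASY-MEDIUM (copy of I_MZT).  The theorem for integral systems, resonance allowed.
USES StCrit2 StMapT DNS GRTS UCV CONR TG.StPwr TG.StCnv.

As I_MZT with `nc M β ≥ 1` for `nd β`, `CONR`, and the common denominator `d^J * dS ...` where `d` is
a common denominator of the `U k i j`, `k ≤ B0`: `log (d^J) = J log d ≤ (ε/2) N` for `N` large. -/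
def StMZR : Prop := ∀ (ι : Type) [Fintype ι] [DecidableEq ι] [Nonempty ι] (M n1 n2 : ℕ)
  (β : ι → ℤ) (C : Matrix ι ι ℤ) (S : Set ℕ) (T : Finset ℕ) (κ : ℕ → ℝ) (R L : ℝ)
  (U : ℕ → Matrix ι ι ℚ),
  Typ n1 n2 R → L < Real.log R → SysR M n1 n2 β C S →
  (∀ p : ℕ, p.Prime → p ∣ M → p ∈ T) → CostT T κ (nc M β) S L → IsU M β (qm C) U →
  (∀ p ∈ T, p.Prime ∧ 0 ≤ κ p ∧ Gr p (κ p) U) →
  ∀ i j, IsAlgebraic ℚ[X] (PowerSeries.mk fun n => U n i j)

/-! ### scalars -/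

/-- the integral basis as a basis of `K` over `ℚ` -/
noncomputable def qb (K : Type) [Field K] [NumberField K] :
    Module.Basis (Fin (Module.finrank ℤ (𝓞 K))) ℚ K :=
  (Module.finBasis ℤ (𝓞 K)).localizationLocalization ℚ ℤ⁰ K

/-- restriction of scalars of a matrix over `K` -/
noncomputable def rsK (K : Type) [Field K] [NumberField K] {r : ℕ}
    (A : Matrix (Fin r) (Fin r) K) :
    Matrix (Fin r × Fin (Module.finrank ℤ (𝓞 K))) (Fin r × Fin (Module.finrank ℤ (𝓞 K))) ℚ :=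
  fun x y => Algebra.leftMulMatrix (qb K) (A x.1 y.1) x.2 y.2

/-- RK, EASY-MEDIUM (compare I_RSC).  `rsK` is an injective homomorphism and extends `TG.rs`.

`leftMulMatrix` is an algebra homomorphism (block multiplication, `Fintype.sum_prod_type`), and
injective.  For `x : 𝓞 K`, `leftMulMatrix (qb K) x` is the cast of
`leftMulMatrix (Module.finBasis ℤ (𝓞 K)) x`: `(qb K) a = (finBasis a : K)`
(`Module.Basis.localizationLocalization_apply`), and `x * e_b = ∑ n_a e_a` holds in `𝓞 K`; the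
coordinates in `K` are unique (`leftMulMatrix_eq_repr_mul`,
`Module.Basis.localizationLocalization_repr_algebraMap`). -/
def StRK : Prop := ∀ (K : Type) [Field K] [NumberField K] (r : ℕ),
  rsK K (1 : Matrix (Fin r) (Fin r) K) = 1 ∧
  (∀ A B : Matrix (Fin r) (Fin r) K, rsK K (A * B) = rsK K A * rsK K B) ∧
  (∀ A B : Matrix (Fin r) (Fin r) K, rsK K (A + B) = rsK K A + rsK K B) ∧
  (∀ (q : ℚ) (A : Matrix (Fin r) (Fin r) K), rsK K (q • A) = q • rsK K A) ∧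
  (∀ A : Matrix (Fin r) (Fin r) K, rsK K A = 0 → A = 0) ∧
  (∀ c : Matrix (Fin r) (Fin r) (𝓞 K),
    rsK K (Matrix.of fun i j => (c i j : K)) = qm (TG.rs K c)) ∧
  (∀ β : Fin r → ℤ, rsK K (Matrix.diagonal fun i => ((β i : ℤ) : K)) =
    db ℚ (fun x : Fin r × Fin (Module.finrank ℤ (𝓞 K)) => β x.1))

/-- RKU, EASY.  Solutions.  USES RK.

`IsU` in matrix form: `(M n) • U n + U n * D - D * U n + ∑ c U k = 0`, `D = diag β`; apply `rsK`. -/
def StRKU : Prop := ∀ (K : Type) [Field K] [NumberField K] (r M : ℕ)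
  (β : Fin r → ℤ) (c : Matrix (Fin r) (Fin r) (𝓞 K)) (U : ℕ → Matrix (Fin r) (Fin r) K),
  IsU M β (Matrix.of fun i j => (c i j : K)) U →
  IsU M (fun x : Fin r × Fin (Module.finrank ℤ (𝓞 K)) => β x.1) (qm (TG.rs K c))
    (fun n => rsK K (U n))

/-- RKG, EASY-MEDIUM.  Growth.  USES RK.

If `x = m p^e U n i j` is an algebraic integer (`¬ p ∣ m`), `leftMulMatrix (qb K) x` has integral
entries (RK), so the entries of `rsK (U n)` have norm `≤ p^e`.  Conversely, if all entries of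
`rsK (U n)` have norm `≤ p^e`, there is one `m` prime to `p` such that all entries of
`m p^e rsK (U n)` are integers (product of the denominators); so `x = m p^e U n i j` maps the
`ℤ`-span of the basis, which is `𝓞 K`, into itself, and `x = x * 1 ∈ 𝓞 K`. -/
def StRKG : Prop := ∀ (K : Type) [Field K] [NumberField K] (r : ℕ)
  (U : ℕ → Matrix (Fin r) (Fin r) K) (p : ℕ) (κ : ℝ), p.Prime →
  (GrK p κ U ↔ Gr p κ (fun n => rsK K (U n)))

/-- RKL, EASY (compare I_RSL).  Algebraicity descends.  USES TG.StQC.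

`U n i j = ∑_a (rsK (U n) (i,a) (j,b)) e_a / e_b` for any fixed `b`, so `∑ σ(U n i j) t^n` is a linear
combination with complex coefficients of the algebraic series `∑ rsK (U n) (i,a) (j,b) t^n`.
(`Fin (finrank)` is not empty.) -/
def StRKL : Prop := ∀ (K : Type) [Field K] [NumberField K] (σ : K →+* ℂ) (r : ℕ)
  (U : ℕ → Matrix (Fin r) (Fin r) K),
  (∀ x y, IsAlgebraic ℚ[X] (PowerSeries.mk fun n => rsK K (U n) x y)) →
  ∀ i j, IsAlgebraic ℂ[X] (PowerSeries.mk fun n => σ (U n i j))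

/-- UEXR, MEDIUM.  Existence of a formal solution over `K` (no logarithms), resonance allowed.
USES EXT RK.

Build `U n` by strong recursion: `U 0 = 1`; with `s i j = (∑_{k<n} c * U k) i j` put
`U n i j = - s i j / (M n + β_j - β_i)` if the factor is not 0, and `U n i j = 0` otherwise.  To show:
if the factor is 0 then `s i j = 0`.  EXT for `A = A0 β' C`, `β' x = β x.1`, `C = TG.rs K c`, `V = 1`,
`γ = -β'` (`A 0 = - db β'`), the sequence `g k x = rsK (U k) x (j,b)` (`k < n`; `b` arbitrary) and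
`lam = -β_j`: by induction the equation `L1 = 0` holds in degrees `< n` (it is the equation of `U k`),
so there is `h` with `L1 (update g n h) n x = 0` for all `x`; for `x = (i,a)` with
`M n + β_j - β_i = 0` this says `∑_{k<n} (C g_k) (i,a) = 0`, i.e. the `(a,b)` entry of
`leftMulMatrix (s i j)` is 0.  All `a`, `b`: `s i j = 0`. -/
def StUEXR : Prop := ∀ (K : Type) [Field K] [NumberField K] (r M : ℕ) (β : Fin r → ℤ)
  (c : Matrix (Fin r) (Fin r) (𝓞 K)), 0 < M →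
  Frob M (A0 (fun x : Fin r × Fin (Module.finrank ℤ (𝓞 K)) => β x.1) (TG.rs K c)) →
  ∃ U : ℕ → Matrix (Fin r) (Fin r) K, IsU M β (Matrix.of fun i j => (c i j : K)) U

/-- FINR, EASY-MEDIUM (copy of I_FINT).  THE THEOREM for diagonal `b`, resonance allowed.
USES MZR INFT RSC RSD RSP RKU RKG RKL ALG KEI KPC KSP MDGR.

As I_FINT with `V n = rsK K (U n)` (RKU, RKG, RKL instead of UEX, RSG, RSL); `nc M β' = nc M β`,
`spc p M β' = spc p M β`; `CostT` bounds the sums of `log p / p` over the primes of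
`S' = {p ∈ S | p ∉ T}`, so KEI applies with `S'` and `N0` = the maximum of `M` and the elements of
`T`.  `SysR.inf` by INFT.  `U` over `ℂ` for ALG: `fun n => (U n).map σ`. -/
def StFINR : Prop := ∀ (K : Type) [Field K] [NumberField K] (σ : K →+* ℂ) (r M n1 n2 : ℕ)
  (R L : ℝ) (β : Fin r → ℤ) (b c : Matrix (Fin r) (Fin r) (𝓞 K)) (S : Set ℕ) (T : Finset ℕ)
  (κ : ℕ → ℝ) (U : ℕ → Matrix (Fin r) (Fin r) K),
  0 < M → Typ n1 n2 R → L < Real.log R →
  b = Matrix.diagonal (fun i => ((β i : ℤ) : 𝓞 K)) →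
  (∀ γ : ℤ, c.charpoly.IsRoot ((γ : ℤ) : 𝓞 K) → (M : ℤ) ∣ n1 * γ) →
  (∀ ζ : ℤ, (b + c).charpoly.IsRoot ((ζ : ℤ) : 𝓞 K) → (M : ℤ) ∣ n2 * ζ) →
  IsU M β (Matrix.of fun i j => (c i j : K)) U →
  (∀ p : ℕ, p.Prime → p ∣ M → p ∈ T) →
  (∀ p ∈ T, p.Prime ∧ 0 ≤ κ p ∧
    ((M.factorization p : ℝ) + (spc p M β : ℝ) / ((p : ℝ) - 1) ≤ κ p ∨ GrK p (κ p) U)) →
  CostT T κ (nc M β) S L →
  (∀ p : ℕ, p.Prime → ¬ p ∣ M → p ∉ S → (Ideal.span {(p : 𝓞 K)}).IsRadical) →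
  (∀ P : Ideal (𝓞 K), P.IsMaximal → ¬ ringChar (𝓞 K ⧸ P) ∣ M → ringChar (𝓞 K ⧸ P) ∉ S →
    PCurvZero M b c P) →
  ∀ B D : Matrix (Fin r) (Fin r) ℂ, (∀ i j, B i j = σ (b i j : K) / M) →
    (∀ i j, D i j = σ (c i j : K) / M) → A.HasAlgebraicSolutions B D

end Pool.Agent.Work.MP_5e5ff1_ag.TH
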