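import Mathlib
import Pool.Agent.Work.MP_5e5ff1_ag.TH.StmtsX

set_option autoImplicit false

/-!
# MP_5e5ff1_ag, block TH, part Y: arbitrary residues `b`, `c` over a number field

Reduction to part X: `b` is diagonalizable with integral eigenvalues (`b^p = b` modulo almost all
primes), `b g = g diag β` with `g`, `h` integral, `h g = g h = N`; the system
`(M N, h b g, h c g)` has a diagonal first residue, and the finitely many primes dividing `N` are
treated with growth conditions which are proved with the original matrices (BADN, GODN).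

Every docstring is the complete proof.  USES lists the statements which the item may take as
hypotheses `(h : StX)`.  Captain helper18.
-/

open Matrix Filter Topology NumberField
open scoped Polynomial nonZeroDivisors

namespace Pool.Agent.Work.MP_5e5ff1_ag.TH

/-- formal solution `U(t) t^(b/M)`, `U 0 = 1`, at the point 0, general `b` -/
def IsS {F : Type} [Field F] {r : ℕ} (M : ℕ) (b c : Matrix (Fin r) (Fin r) F)
    (U : ℕ → Matrix (Fin r) (Fin r) F) : Prop :=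
  U 0 = 1 ∧ ∀ (n : ℕ) (i j : Fin r), (M : F) * (n : F) * U n i j + (U n * b) i j - (b * U n) i j +
    ∑ k ∈ Finset.range n, (c * U k) i j = 0

section Y

variable {K : Type} [Field K] [NumberField K] {r : ℕ}

/-- the integral eigenvalues -/
def expSet (b : Matrix (Fin r) (Fin r) (𝓞 K)) : Set ℤ :=
  {β | b.charpoly.IsRoot ((β : ℤ) : 𝓞 K)}

/-- number of integral eigenvalues modulo `M` -/
noncomputable def ncb (M : ℕ) (b : Matrix (Fin r) (Fin r) (𝓞 K)) : ℕ :=
  Set.ncard ((fun β : ℤ => (β : ZMod M)) '' expSet b)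

/-- admissible sizes: (1) `p ∤ M`, `s/(p-1)`; (2) `b` diagonal, `v_p(M) + s_p/(p-1)`; (3) growth -/
def SizeG (M : ℕ) (b c : Matrix (Fin r) (Fin r) (𝓞 K)) (p : ℕ) (κ : ℝ) : Prop :=
  (¬ p ∣ M ∧ (ncb M b : ℝ) / ((p : ℝ) - 1) ≤ κ) ∨
  (b.IsDiag ∧ ∀ β ∈ expSet b, (M.factorization p : ℝ) +
    (Set.ncard {γ | γ ∈ expSet b ∧ (p : ℤ) ^ M.factorization p ∣ γ - β} : ℝ) / ((p : ℝ) - 1) ≤ κ) ∨
  ∃ U : ℕ → Matrix (Fin r) (Fin r) K,
    IsS M (Matrix.of fun i j => (b i j : K)) (Matrix.of fun i j => (c i j : K)) U ∧ GrK p κ U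

end Y

/-- RSQG, EASY (copy of I_RSQ).  The iterates after restriction of scalars, general `b`. -/
def StRSQG : Prop := ∀ (K : Type) [Field K] [NumberField K] (r M : ℕ)
  (b c : Matrix (Fin r) (Fin r) (𝓞 K)) (k n : ℕ)
  (i j : Fin r × Fin (Module.finrank ℤ (𝓞 K))),
  (Qm M (TG.rs K b) (TG.rs K c) k i j).coeff n =
    Algebra.leftMulMatrix (Module.finBasis ℤ (𝓞 K)) ((Qm M b c k i.1 j.1).coeff n) i.2 j.2

/-- RSPG, EASY (copy of I_RSP).  The p-curvature after restriction of scalars, general `b`.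
USES QIM RSQG TG.StPID. -/
def StRSPG : Prop := ∀ (K : Type) [Field K] [NumberField K] (r M : ℕ)
  (b c : Matrix (Fin r) (Fin r) (𝓞 K)) (p : ℕ), p.Prime →
  (Ideal.span {(p : 𝓞 K)}).IsRadical →
  (∀ P : Ideal (𝓞 K), P.IsMaximal → ringChar (𝓞 K ⧸ P) = p → PCurvZero M b c P) →
  PZg M (TG.rs K b) (TG.rs K c) p

/-- QAT, EASY (compare I_KPC).  The residue at 0 modulo `p`.  USES PC0G.

The coefficient of degree 0 of `(DA M A)^k (cst v)` is `(A 0)^k v`, `A 0 = -B`: `(-B)^p = -B`, so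
`B^p = B` (`(-1)^p = -1` in characteristic `p`). -/
def StQAT : Prop := ∀ (p : ℕ) [Fact p.Prime] (ι : Type) [Fintype ι] [DecidableEq ι]
  (M : ℕ) (B C : Matrix ι ι ℤ), ¬ p ∣ M → PZg M B C p → (pm p B) ^ p = pm p B

/-- DIAK, MEDIUM (compare I_DIAL, I_KSP).  `b` is diagonalizable with integral eigenvalues.
USES KEI RK.

`B = TG.rs K b`.  KEI: `∏_{j<m} (B - γ_j) = 0` with integers `γ_j`.  Let `D` be the set of the values
`γ_j`; claim: `X := ∏_{c ∈ D} (B - c) = 0`.  Otherwise take a prime `p > N0`, `p ∉ S` (there are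
arbitrarily large ones: `Bs S c0`, divergence of `∑ 1/p`), larger than all `|c - c'|` and not dividing
some nonzero entry of `X`.  Modulo `p`, `B` is killed by `X^p - X = ∏_{a : ZMod p} (X - a)` and by
`∏ (X - γ_j)`, hence by their gcd, which divides `∏_{c ∈ D} (X - c)`, contradiction.  By RK (injective
homomorphism) `∏_{c ∈ D} (b - c) = 0` over `K`.  So `K^r` is the direct sum of the eigenspaces
(as in I_DIAL: the polynomial is squarefree and split), choose a basis of eigenvectors, the columns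
of `g` over `K`, and multiply `g` by a common denominator. -/
def StDIAK : Prop := ∀ (K : Type) [Field K] [NumberField K] (r : ℕ)
  (b : Matrix (Fin r) (Fin r) (𝓞 K)) (S : Set ℕ) (N0 : ℕ) (c0 : ℝ), Bs S c0 →
  (∀ p : ℕ, p.Prime → N0 < p → p ∉ S → (pm p (TG.rs K b)) ^ p = pm p (TG.rs K b)) →
  ∃ (β : Fin r → ℤ) (g : Matrix (Fin r) (Fin r) (𝓞 K)), g.det ≠ 0 ∧
    b * g = g * Matrix.diagonal fun i => ((β i : ℤ) : 𝓞 K)

/-- ADJ, EASY.  `N = |Norm (det g)|` (a natural number, not 0) is divisible by `det g` in `𝓞 K`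
(`Ideal.absNorm_mem`, or `Algebra.norm` and the constant term of the characteristic polynomial), say
`N = det g * x`; `h = x • g.adjugate`. -/
def StADJ : Prop := ∀ (K : Type) [Field K] [NumberField K] (r : ℕ)
  (g : Matrix (Fin r) (Fin r) (𝓞 K)), g.det ≠ 0 → ∃ (N : ℕ) (h : Matrix (Fin r) (Fin r) (𝓞 K)),
  0 < N ∧ h * g = (N : 𝓞 K) • (1 : Matrix (Fin r) (Fin r) (𝓞 K)) ∧
    g * h = (N : 𝓞 K) • (1 : Matrix (Fin r) (Fin r) (𝓞 K))

/-- CJQ, EASY-MEDIUM.  The iterates of the conjugated system.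

Induction on `k`: `N • Q''_k = N^k • h Q_k g`, `Q''` for `(M N, h b g, h c g)`.  `k = 0`: `N = h g`.
Step: multiply the recursion for `Q''_{k+1}` by `N`: the terms with `M N` give
`N^(k+1) h (M X (X-1) Q_k' - k M (2X-1) Q_k) g` (`h`, `g` are constant matrices) and
`((X-1) h b g + X h c g) N^k h Q_k g = N^(k+1) h ((X-1) b + X c) Q_k g` because `g h = N`. -/
def StCJQ : Prop := ∀ (R : Type) [CommRing R] (ι : Type) [Fintype ι] [DecidableEq ι]
  (M N : ℕ) (b c g h : Matrix ι ι R), h * g = (N : R) • (1 : Matrix ι ι R) →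
  g * h = (N : R) • (1 : Matrix ι ι R) → ∀ k : ℕ,
  (Polynomial.C (N : R)) • Qm (M * N) (h * b * g) (h * c * g) k =
    (Polynomial.C ((N : R) ^ k)) •
      (h.map (fun x => Polynomial.C x) * Qm M b c k * g.map (fun x => Polynomial.C x))

/-- CJP, EASY.  The p-curvature of the conjugated system.  USES CJQ.

As IRSP.zero_mod in I_RSP: `PCurvZero M b c P` says `Qm M b̄ c̄ p = 0` over `𝓞 K / P`
(`p = ringChar`), so by CJQ over `𝓞 K / P`, `N • Qm (M N) .. p = 0` and `N` is invertible in the field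
`𝓞 K / P`.  For the converse direction (from `Qm .. = 0` to `PCurvZero`): the recursion determines the
`Q k`. -/
def StCJP : Prop := ∀ (K : Type) [Field K] [NumberField K] (r M N : ℕ)
  (b c g h : Matrix (Fin r) (Fin r) (𝓞 K)),
  h * g = (N : 𝓞 K) • (1 : Matrix (Fin r) (Fin r) (𝓞 K)) →
  g * h = (N : 𝓞 K) • (1 : Matrix (Fin r) (Fin r) (𝓞 K)) →
  ∀ P : Ideal (𝓞 K), P.IsMaximal → ¬ ringChar (𝓞 K ⧸ P) ∣ N → PCurvZero M b c P →
  PCurvZero (M * N) (h * b * g) (h * c * g) P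

/-- CHP, EASY-MEDIUM.  The integral eigenvalues of the conjugated matrix.

Over `K`: `h c g = N g⁻¹ c g`, so if `ζ` is a root of its charpoly, `ζ / N` is a root of the charpoly
of `c` (eigenvalues; or `charpoly` of a conjugate, and `Matrix.charpoly` of a multiple).  The charpoly
of `c` is monic over `𝓞 K`, so the rational number `ζ / N` is an algebraic integer, hence an
integer. -/
def StCHP : Prop := ∀ (K : Type) [Field K] [NumberField K] (r N : ℕ)
  (c g h : Matrix (Fin r) (Fin r) (𝓞 K)), 0 < N →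
  h * g = (N : 𝓞 K) • (1 : Matrix (Fin r) (Fin r) (𝓞 K)) →
  g * h = (N : 𝓞 K) • (1 : Matrix (Fin r) (Fin r) (𝓞 K)) →
  ∀ ζ : ℤ, (h * c * g).charpoly.IsRoot ((ζ : ℤ) : 𝓞 K) →
    ∃ γ : ℤ, ζ = N * γ ∧ c.charpoly.IsRoot ((γ : ℤ) : 𝓞 K)

/-- EXS, EASY.  The eigenvalues of `b`: if `b g = g diag β` and `det g ≠ 0` then
`b.charpoly = ∏ (X - β_j)` (over `K` conjugate matrices; `Matrix.charpoly` of a diagonal matrix), so
`expSet b` is the range of `β`; and `ncb M b = nc M β` (`β % M` and the class in `ZMod M`). -/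
def StEXS : Prop := ∀ (K : Type) [Field K] [NumberField K] (r M : ℕ) (β : Fin r → ℤ)
  (b g : Matrix (Fin r) (Fin r) (𝓞 K)), 0 < M → g.det ≠ 0 →
  b * g = g * Matrix.diagonal (fun i => ((β i : ℤ) : 𝓞 K)) →
  expSet b = Set.range β ∧ ncb M b = nc M β

/-- IND, EASY-MEDIUM.  The growth does not depend on the choice of the formal solution.

There are `H k`, `k ≤ B0` (`B0` a bound of the `|β i - β j|`), with `U' n = ∑_{k ≤ min n B0} U (n-k) H k`:
define `H k` recursively by `H k = U' k - ∑_{l<k} U (k-l) H l`, so `U' n = ∑_{k ≤ n} U (n-k) H k` for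
all `n`.  Claim `(M k + β_j - β_i) H k i j = 0`: strong induction; for `l < k` the claim shows that the
column `j` of `n ↦ U (n-l) H l` (0 for `n < l`) satisfies the equation of `IsU` with `β_j`
(`U (n-l) i i' H l i' j` occurs only for `M l = β_i' - β_j`, and
`M n + β_j - β_i = M (n-l) + β_i' - β_i`), so the difference `U' - ∑_{l<k}` satisfies it, vanishes in
degrees `< k`, and in degree `k` the equation is the claim.  So `H k = 0` for `k > B0`.  If `m_k` and
`m` (prime to `p`) and the exponents are those of `GrK` for `U` and `N H k` is integral for `k ≤ B0`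
(`N = p^v N'` a common denominator), then `N' m p^(v + e) U' n i j` is integral where
`m` is the product of the finitely many multipliers and `e = a + ⌈(κ+ε) n⌉` (the exponents are monotone
in `n` since `κ ≥ 0`). -/
def StIND : Prop := ∀ (K : Type) [Field K] [NumberField K] (r M : ℕ) (β : Fin r → ℤ)
  (C : Matrix (Fin r) (Fin r) K) (U U' : ℕ → Matrix (Fin r) (Fin r) K), 0 < M →
  IsU M β C U → IsU M β C U' → ∀ (p : ℕ) (κ : ℝ), p.Prime → 0 ≤ κ → GrK p κ U → GrK p κ U'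

/-- GRM2, EASY-MEDIUM (compare I_GRM, I_GRG).  Growth for one good prime.

`LGJ p M B J N = ∑_{l=2}^L ((N + J p)/p^l + J)` with `∑_{l≥2} N/p^l = N/(p(p-1))`, and the rest is
`O(log N)`. -/
def StGRM2 : Prop := ∀ (M p B J : ℕ), 0 < M → p.Prime → ∀ ε > 0, ∃ N0 : ℕ, ∀ N ≥ N0,
  (LGJ p M B J N : ℝ) * Real.log p ≤ N * (Real.log p / ((p : ℝ) * (p - 1))) + ε * N

/-- GRN, MEDIUM.  Growth at the primes not dividing `M`, original matrices.
USES BADN GODN RK RKG GRM GRM2.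

`IsU (M N) (N β) (h c g) U` divided by `N` is `(M n + β_j - β_i) U n + ∑ g⁻¹ c g U k = 0`
(`h / N = g⁻¹`).  `W n = rsK (g U n) = rsK g * rsK (U n)` satisfies `IsW M β' (rs b) (rs c)`,
`β' x = β x.1` (apply `g` and use `g diag β = b g`), `det W 0 = det rsK g ≠ 0` (`rsK h * rsK g = N`).
`d` = a common denominator of the entries of `W k`, `k ≤ B0`; BADN (GODN) for `d • W`; so the norms of
the entries of `rsK (U n) = N⁻¹ rsK h * W n` are at most `C p^(nc LS)` (`C p^(nc LG)`),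
`nc M β' = nc M β`, `LS p M B n = LSJ p M B 1 n`, `LG p M B n = LGJ p M B 1 n`.  GRM (GRM2) give
`Gr p κ`, and RKG. -/
def StGRN : Prop := ∀ (K : Type) [Field K] [NumberField K] (r M N : ℕ) (β : Fin r → ℤ)
  (b c g h : Matrix (Fin r) (Fin r) (𝓞 K)) (U : ℕ → Matrix (Fin r) (Fin r) K), 0 < M → 0 < N →
  h * g = (N : 𝓞 K) • (1 : Matrix (Fin r) (Fin r) (𝓞 K)) →
  g * h = (N : 𝓞 K) • (1 : Matrix (Fin r) (Fin r) (𝓞 K)) →
  b * g = g * Matrix.diagonal (fun i => ((β i : ℤ) : 𝓞 K)) →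
  IsU (M * N) (fun i => N * β i) (Matrix.of fun i j => ((h * c * g) i j : K)) U →
  ∀ (p : ℕ) (κ : ℝ), p.Prime → ¬ p ∣ M →
    ((nc M β : ℝ) / ((p : ℝ) - 1) ≤ κ → GrK p κ U) ∧
    (PZg M (TG.rs K b) (TG.rs K c) p → (nc M β : ℝ) / ((p : ℝ) * (p - 1)) ≤ κ → GrK p κ U)

/-- GRC, EASY-MEDIUM.  Growth of the general formal solution gives growth of the conjugated one.
USES IND.

`U' n = N⁻¹ h V n g` satisfies `IsU (M N) (N β) (h c g)`: multiply the equation of `V` from the left by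
`h` and from the right by `g` (`h b = diag β h`: from `b g = g diag β`, multiply by `h` on both sides
and divide by `N`).  `GrK p κ U'`: if `m p^e V n i' j'` are integral (finitely many `i'`, `j'`, take
the product of the multipliers `m`), `N = p^v N'`, then `N' m p^(v+e) U' n i j` is integral.
IND for `U'`, `U`. -/
def StGRC : Prop := ∀ (K : Type) [Field K] [NumberField K] (r M N : ℕ) (β : Fin r → ℤ)
  (b c g h : Matrix (Fin r) (Fin r) (𝓞 K)) (U V : ℕ → Matrix (Fin r) (Fin r) K), 0 < M → 0 < N →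
  h * g = (N : 𝓞 K) • (1 : Matrix (Fin r) (Fin r) (𝓞 K)) →
  g * h = (N : 𝓞 K) • (1 : Matrix (Fin r) (Fin r) (𝓞 K)) →
  b * g = g * Matrix.diagonal (fun i => ((β i : ℤ) : 𝓞 K)) →
  IsU (M * N) (fun i => N * β i) (Matrix.of fun i j => ((h * c * g) i j : K)) U →
  IsS M (Matrix.of fun i j => (b i j : K)) (Matrix.of fun i j => (c i j : K)) V →
  ∀ (p : ℕ) (κ : ℝ), p.Prime → 0 ≤ κ → GrK p κ V → GrK p κ U

/-- EXU, EASY.  Existence of the formal solution for diagonal `b`.  USES UEXR RSP PC012.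

Frob at 0: for `N` take a good prime `p > N` (hypothesis), RSP gives
`PZ M β' (TG.rs K c) p`, PC012 the first equation, and `pm p (A0 β' C m) = A0 β' (pm p C) m`
(IBLM.A0_map). -/
def StEXU : Prop := ∀ (K : Type) [Field K] [NumberField K] (r M : ℕ) (β : Fin r → ℤ)
  (c : Matrix (Fin r) (Fin r) (𝓞 K)) (S : Set ℕ), 0 < M →
  (∀ N : ℕ, ∃ p : ℕ, N < p ∧ p.Prime ∧ ¬ p ∣ M ∧ p ∉ S) →
  (∀ p : ℕ, p.Prime → ¬ p ∣ M → p ∉ S → (Ideal.span {(p : 𝓞 K)}).IsRadical) →
  (∀ P : Ideal (𝓞 K), P.IsMaximal → ¬ ringChar (𝓞 K ⧸ P) ∣ M → ringChar (𝓞 K ⧸ P) ∉ S →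
    PCurvZero M (Matrix.diagonal (fun i => ((β i : ℤ) : 𝓞 K))) c P) →
  ∃ U : ℕ → Matrix (Fin r) (Fin r) K, IsU M β (Matrix.of fun i j => (c i j : K)) U

/-- HAC, EASY.  Conjugation by a constant matrix: `F ↦ G F`. -/
def StHAC : Prop := ∀ (r : ℕ) (B D B' D' G : Matrix (Fin r) (Fin r) ℂ), G.det ≠ 0 →
  B * G = G * B' → D * G = G * D' → A.HasAlgebraicSolutions B' D' → A.HasAlgebraicSolutions B D

/-- the data of the theorem: all hypotheses except the sizes -/
structure DatG (K : Type) [Field K] [NumberField K] (r M n1 n2 : ℕ)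
    (b c : Matrix (Fin r) (Fin r) (𝓞 K)) (S : Set ℕ) (T : Finset ℕ) (κ : ℕ → ℝ) (R L : ℝ) :
    Prop where
  hM : 0 < M
  typ : Typ n1 n2 R
  lt : L < Real.log R
  h1 : ∀ γ : ℤ, c.charpoly.IsRoot ((γ : ℤ) : 𝓞 K) → (M : ℤ) ∣ n1 * γ
  h2 : ∀ ζ : ℤ, (b + c).charpoly.IsRoot ((ζ : ℤ) : 𝓞 K) → (M : ℤ) ∣ n2 * ζ
  hT : ∀ p : ℕ, p.Prime → p ∣ M → p ∈ T
  hκ : ∀ p ∈ T, p.Prime ∧ 0 ≤ κ p
  rad : ∀ p : ℕ, p.Prime → ¬ p ∣ M → p ∉ S → (Ideal.span {(p : 𝓞 K)}).IsRadical
  psi : ∀ P : Ideal (𝓞 K), P.IsMaximal → ¬ ringChar (𝓞 K ⧸ P) ∣ M → ringChar (𝓞 K ⧸ P) ∉ S →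
    PCurvZero M b c P

/-- FGD, EASY-MEDIUM.  THE THEOREM for diagonal `b`, all alternatives for the sizes.
USES FINR EXU INFT GRN GRC EXS.

`U` from EXU (INFT for the good primes; if `r = 0` take the constant sequence 1, the equations are
empty).  FINR with `GrK p (κ p) U` or the formula at `p ∈ T`: alternative (1) of SizeG: GRN with
`g = h = 1`, `N = 1` (`IsU (M * 1) (1 * β) (1 * c * 1)` is `IsU M β c`), `ncb M b = nc M β` by EXS
(`g = 1`); (2): `expSet b = range β` (EXS), so `spc p M β` (a supremum over `i` of the cardinality of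
the values congruent to `β i`) satisfies `v_p(M) + spc/(p-1) ≤ κ p` (`r > 0`); (3): GRC with
`g = h = 1`. -/
def StFGD : Prop := ∀ (K : Type) [Field K] [NumberField K] (σ : K →+* ℂ) (r M n1 n2 : ℕ)
  (β : Fin r → ℤ) (b c : Matrix (Fin r) (Fin r) (𝓞 K)) (S : Set ℕ) (T : Finset ℕ) (κ : ℕ → ℝ)
  (R L : ℝ), DatG K r M n1 n2 b c S T κ R L →
  b = Matrix.diagonal (fun i => ((β i : ℤ) : 𝓞 K)) →
  (∀ p ∈ T, SizeG M b c p (κ p)) → CostT T κ (nc M β) S L →
  ∀ B D : Matrix (Fin r) (Fin r) ℂ, (∀ i j, B i j = σ (b i j : K) / M) →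
    (∀ i j, D i j = σ (c i j : K) / M) → A.HasAlgebraicSolutions B D

/-- FGG, MEDIUM.  THE THEOREM for `b g = g diag β`, growth conditions.
USES FINR EXU INFT GRN GRC CJP CHP HAC RSPG.

`M'' = M N`, `β'' = N β`, `b'' = h b g = N diag β = diag β''`, `c'' = h c g`,
`T'' = T ∪ N.primeFactors`, `κ'' p = κ p` for `p ∈ T`, `κ'' p = s/(p-1)` for `p ∈ S`, `p ∉ T`, and
`κ'' p = s/(p(p-1))` otherwise, `s = nc M β = nc (M N) (N β)`.  `CostT T'' κ'' s S L`: for `F` apply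
`CostT T κ s S L` to `F ∪ (T'' \ T)`.  `psi''` by CJP (`¬ q ∣ M N`), `h1''`, `h2''` by CHP
(`h b g + h c g = h (b + c) g`).  `U` from EXU for `(M'', β'', c'')`.  Growth: `p ∈ T`: by hypothesis
(1) GRN or (3) GRC; `p ∈ T''`, `p ∉ T` (so `p ∤ M`): GRN, for `p ∉ S` with RSPG.  FINR gives algebraic
solutions for `σ(b'')/(M N)`, `σ(c'')/(M N)`, and HAC with `G = σ(g)`:
`σ(b)/M * σ(g) = σ(g) * σ(h b g)/(M N)` because `g h = N`.  (`r = 0` as in FGD.) -/
def StFGG : Prop := ∀ (K : Type) [Field K] [NumberField K] (σ : K →+* ℂ) (r M N n1 n2 : ℕ)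
  (β : Fin r → ℤ) (b c g h : Matrix (Fin r) (Fin r) (𝓞 K)) (S : Set ℕ) (T : Finset ℕ)
  (κ : ℕ → ℝ) (R L : ℝ), DatG K r M n1 n2 b c S T κ R L → 0 < N →
  h * g = (N : 𝓞 K) • (1 : Matrix (Fin r) (Fin r) (𝓞 K)) →
  g * h = (N : 𝓞 K) • (1 : Matrix (Fin r) (Fin r) (𝓞 K)) →
  b * g = g * Matrix.diagonal (fun i => ((β i : ℤ) : 𝓞 K)) →
  (∀ p ∈ T, (¬ p ∣ M ∧ (nc M β : ℝ) / ((p : ℝ) - 1) ≤ κ p) ∨
    ∃ V : ℕ → Matrix (Fin r) (Fin r) K,
      IsS M (Matrix.of fun i j => (b i j : K)) (Matrix.of fun i j => (c i j : K)) V ∧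
      GrK p (κ p) V) →
  CostT T κ (nc M β) S L →
  ∀ B D : Matrix (Fin r) (Fin r) ℂ, (∀ i j, B i j = σ (b i j : K) / M) →
    (∀ i j, D i j = σ (c i j : K) / M) → A.HasAlgebraicSolutions B D

/-- FING, EASY-MEDIUM.  THE GENERAL THEOREM: arbitrary `b`, `c` over the ring of integers.
USES FGD FGG DIAK ADJ EXS RSPG QAT.

(`max 1` is needed because a priori `b` could have no integral eigenvalue.)  `r = 0`: FGD with the
empty `β` (`nc M β = 0`, and `CostT` for `s = 1` implies `CostT` for `s = 0` because the sums over `F`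
are nonnegative; `b = diagonal ..` by Subsingleton).  `r > 0`: `CostT` with `s ≥ 1` gives
`Bs {p ∈ S | p ∉ T} L` (the terms are nonnegative).  With `N0` = the maximum of `M` and the elements
of `T`, for `p > N0` prime, `p ∉ S`: RSPG and QAT give `B^p = B` modulo `p`, `B = TG.rs K b`.  DIAK
gives `β`, `g`; EXS: `ncb M b = nc M β`, and `nc M β ≥ 1`, so `max 1 (ncb M b) = nc M β`.
If `b` is diagonal: every row `i` of `g` has an entry `g i j ≠ 0` (`det g ≠ 0`), and `b g = g diag β`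
gives `b i i * g i j = g i j * β j`, so `b i i` is an integer `β' i`: FGD with `β'`
(`nc M β' = ncb M b` by EXS with `g = 1`).  If `b` is not diagonal, alternative (2) of SizeG is
impossible: ADJ and FGG (`ncb M b = nc M β` in alternative (1)). -/
def StFING : Prop := ∀ (K : Type) [Field K] [NumberField K] (σ : K →+* ℂ) (r M n1 n2 : ℕ)
  (b c : Matrix (Fin r) (Fin r) (𝓞 K)) (S : Set ℕ) (T : Finset ℕ) (κ : ℕ → ℝ)
  (R L : ℝ), DatG K r M n1 n2 b c S T κ R L →
  (∀ p ∈ T, SizeG M b c p (κ p)) → CostT T κ (max 1 (ncb M b)) S L →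
  ∀ B D : Matrix (Fin r) (Fin r) ℂ, (∀ i j, B i j = σ (b i j : K) / M) →
    (∀ i j, D i j = σ (c i j : K) / M) → A.HasAlgebraicSolutions B D

/-! ### explicit costs -/

/-- TAB1, EASY (from DYA).  USES DYA.

DYA for `ι = Fin 1`, `β = 0`, `s = 1` gives for every finite set `F` of odd primes:
`(k + 1) log 2 + ∑_F ≤ (k+1) log 2 + 4145/10000 + σ` (`spc 2 (2^k) 0 = 1`, `nd 0 = 1`,
`(2^k).primeFactors = {2}`), i.e. `∑_F ≤ 4145/10000 + σ`.  Multiply by `s`. -/
def StTAB1 : Prop := ∀ (k s : ℕ) (S : Set ℕ) (σ : ℝ), 1 ≤ k → SmallS S σ →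
  CostT {2} (fun _ => (k : ℝ) + 1) s S ((k + 1) * Real.log 2 + s * (4145 / 10000 + σ))

/-- TAB2, EASY (from C72 or directly from TG.StKAP as there).  USES C72 or TG.StKAP.

For a finite set `F` of primes `≥ 5`: `∑_F (1/(p(p-1)) + [p ∈ S] 1/p) log p ≤
4145/10000 - log 3/6 + σ` (`σ ≥ 0` by `F = ∅`), and `s ≤ 8`. -/
def StTAB2 : Prop := ∀ (s : ℕ) (S : Set ℕ) (σ : ℝ) (κ : ℕ → ℝ), s ≤ 8 → SmallS S σ →
  κ 2 ≤ 4 → κ 3 ≤ 5 / 2 →
  CostT {2, 3} κ s S (4 * Real.log 2 + 5 / 2 * Real.log 3 + 8 * (4145 / 10000 - Real.log 3 / 6 + σ))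

end Pool.Agent.Work.MP_5e5ff1_ag.TH
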