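import Mathlib
import Pool.Agent.Work.MP_5e5ff1_ag.TH.StmtsY

set_option autoImplicit false

/-!
# MP_5e5ff1_ag, block TH, item ADJ: adjugate and norm
-/

open Matrix Filter Topology NumberField
open scoped Polynomial nonZeroDivisors

namespace Pool.Agent.Work.MP_5e5ff1_ag.TH

theorem pr_ADJ : StADJ := by
  intro K _ _ r g hg
  obtain ⟨x, hx⟩ := Ideal.mem_span_singleton.1 (Ideal.absNorm_mem (Ideal.span {g.det}))
  refine ⟨Ideal.absNorm (Ideal.span {g.det}), x • g.adjugate, ?_, ?_, ?_⟩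
  · refine Nat.pos_of_ne_zero fun h => hg ?_
    rwa [Ideal.absNorm_eq_zero_iff, Ideal.span_singleton_eq_bot] at h
  · rw [Matrix.smul_mul, Matrix.adjugate_mul, smul_smul, hx, mul_comm]
  · rw [Matrix.mul_smul, Matrix.mul_adjugate, smul_smul, hx, mul_comm]

end Pool.Agent.Work.MP_5e5ff1_ag.TH
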