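import Mathlib
import Pool.Agent.Work.MP_5e5ff1_ag.TH.StmtsA

set_option autoImplicit false

/-!
# MP_5e5ff1_ag, block TH, item BAD: primes without hypothesis
-/

open Matrix Filter Topology
open scoped Polynomial

namespace Pool.Agent.Work.MP_5e5ff1_ag.TH

namespace IBAD

/-- inverse of the norm of an integer -/
theorem inv_norm (p : ℕ) [Fact p.Prime] {z : ℤ} (hz : z ≠ 0) :
    (padicNorm p (z : ℚ))⁻¹ = (p : ℚ) ^ (padicValInt p z) := by
  have hz' : (z : ℚ) ≠ 0 := by exact_mod_cast hz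
  rw [padicNorm.eq_zpow_of_nonzero hz', padicValRat.of_int, _root_.zpow_neg, inv_inv, _root_.zpow_natCast]

theorem one_le_inv (p : ℕ) [Fact p.Prime] {z : ℤ} (hz : z ≠ 0) :
    (1 : ℚ) ≤ (padicNorm p (z : ℚ))⁻¹ := by
  rw [inv_norm p hz]
  have hp : (1 : ℚ) ≤ p := by exact_mod_cast (Fact.out : p.Prime).one_le
  exact one_le_pow₀ hp

/-- the bounding function -/
noncomputable def g (p M : ℕ) (T : Finset ℤ) (b : ℤ) (n : ℕ) : ℚ :=
  ∏ c ∈ T, ∏ k ∈ Finset.Icc 1 n, (padicNorm p (((M : ℤ) * (k : ℤ) + (b - c) : ℤ) : ℚ))⁻¹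

theorem g_succ (p M : ℕ) (T : Finset ℤ) (b : ℤ) (n : ℕ) :
    g p M T b (n + 1) = g p M T b n *
      ∏ c ∈ T, (padicNorm p (((M : ℤ) * ((n + 1 : ℕ) : ℤ) + (b - c) : ℤ) : ℚ))⁻¹ := by
  unfold g
  rw [← Finset.prod_mul_distrib]
  refine Finset.prod_congr rfl fun c _ => ?_
  rw [Finset.prod_Icc_succ_top (Nat.le_add_left 1 n)]

theorem one_le_prod (p M : ℕ) [Fact p.Prime] (T : Finset ℤ) (b : ℤ) (n : ℕ)
    (h : ∀ c ∈ T, (M : ℤ) * ((n + 1 : ℕ) : ℤ) + (b - c) ≠ 0) :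
    1 ≤ ∏ c ∈ T, (padicNorm p (((M : ℤ) * ((n + 1 : ℕ) : ℤ) + (b - c) : ℤ) : ℚ))⁻¹ := by
  classical
  induction T using Finset.induction_on with
  | empty => rw [Finset.prod_empty]
  | insert a s ha ih =>
    rw [Finset.prod_insert ha]
    exact one_le_mul_of_one_le_of_one_le (one_le_inv p (h a (Finset.mem_insert_self a s)))
      (ih fun c hc => h c (Finset.mem_insert_of_mem hc))

end IBAD

open IBAD in
/-- Primes without hypothesis. -/
theorem pr_BAD (h1 : StUREC) (h2 : StCN1) : StBAD := by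
  intro p hp ι _ _ M β C U hM hpM hU hβ B hB n i j
  classical
  have hpp : p.Prime := hp.out
  set T : Finset ℤ := Finset.univ.image β with hT
  have hne : ∀ k : ℕ, 1 ≤ k → ∀ c ∈ T, (M : ℤ) * (k : ℤ) + (β j - c) ≠ 0 := by
    intro k hk c hc h0
    obtain ⟨i', -, rfl⟩ := Finset.mem_image.1 hc
    have e1 : β i' = β j := hβ i' j ⟨k, by linarith⟩
    rw [e1, sub_self, add_zero] at h0
    have h5 : (0 : ℤ) < (M : ℤ) * k := by
      have : (0 : ℤ) < k := by exact_mod_cast hk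
      have : (0 : ℤ) < M := by exact_mod_cast hM
      positivity
    omega
  have hg0 : ∀ n, 0 < g p M T (β j) n := by
    intro n
    unfold g
    refine Finset.prod_pos fun c hc => Finset.prod_pos fun k hk => ?_
    have := one_le_inv p (hne k (Finset.mem_Icc.1 hk).1 c hc)
    linarith
  have hstep1 : ∀ n, g p M T (β j) n ≤ g p M T (β j) (n + 1) := by
    intro n
    rw [g_succ]
    exact le_mul_of_one_le_right (hg0 n).le
      (one_le_prod p M T (β j) n fun c hc => hne (n + 1) (Nat.le_add_left 1 n) c hc)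
  have hkey := h1 p ι M β C U hU j (g p M T (β j)) (by unfold g; simp)
    (monotone_nat_of_le_succ hstep1) (fun n i => by
      have hi : β i ∈ T := Finset.mem_image_of_mem β (Finset.mem_univ i)
      have e1 : ((M : ℚ) * ((n : ℚ) + 1) + ((β j : ℚ) - (β i : ℚ))) =
          (((M : ℤ) * ((n + 1 : ℕ) : ℤ) + (β j - β i) : ℤ) : ℚ) := by
        push_cast
        ring
      have hz := hne (n + 1) (Nat.le_add_left 1 n) (β i) hi
      have e3 : padicNorm p (((M : ℤ) * ((n + 1 : ℕ) : ℤ) + (β j - β i) : ℤ) : ℚ) ≠ 0 :=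
        padicNorm.nonzero (by exact_mod_cast hz)
      rw [e1, g_succ, ← Finset.mul_prod_erase T _ hi]
      have e4 : padicNorm p (((M : ℤ) * ((n + 1 : ℕ) : ℤ) + (β j - β i) : ℤ) : ℚ) *
          (g p M T (β j) n * ((padicNorm p (((M : ℤ) * ((n + 1 : ℕ) : ℤ) + (β j - β i) : ℤ) : ℚ))⁻¹ *
            ∏ c ∈ T.erase (β i),
              (padicNorm p (((M : ℤ) * ((n + 1 : ℕ) : ℤ) + (β j - c) : ℤ) : ℚ))⁻¹)) =
          g p M T (β j) n * ∏ c ∈ T.erase (β i),
              (padicNorm p (((M : ℤ) * ((n + 1 : ℕ) : ℤ) + (β j - c) : ℤ) : ℚ))⁻¹ := by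
        field_simp
      rw [e4]
      exact le_mul_of_one_le_right (hg0 n).le (one_le_prod p M (T.erase (β i)) (β j) n
        fun c hc => hne (n + 1) (Nat.le_add_left 1 n) c (Finset.mem_of_mem_erase hc))) n i
  refine hkey.trans ?_
  have hp1 : (1 : ℚ) ≤ p := by exact_mod_cast hpp.one_le
  have e5 : g p M T (β j) n =
      (p : ℚ) ^ (∑ c ∈ T, ∑ k ∈ Finset.Icc 1 n, padicValInt p ((M : ℤ) * (k : ℤ) + (β j - c))) := by
    unfold g
    rw [← Finset.prod_pow_eq_pow_sum]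
    refine Finset.prod_congr rfl fun c hc => ?_
    rw [← Finset.prod_pow_eq_pow_sum]
    exact Finset.prod_congr rfl fun k hk => inv_norm p (hne k (Finset.mem_Icc.1 hk).1 c hc)
  rw [e5]
  refine pow_le_pow_right₀ hp1 ?_
  calc ∑ c ∈ T, ∑ k ∈ Finset.Icc 1 n, padicValInt p ((M : ℤ) * (k : ℤ) + (β j - c))
      ≤ ∑ _c ∈ T, LS p M B n := Finset.sum_le_sum fun c hc => by
        obtain ⟨i', -, rfl⟩ := Finset.mem_image.1 hc
        exact h2 p M M hpp hpM le_rfl B n (β j - β i') (hB j i')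
          (fun k hk => hne k hk (β i') hc)
    _ = nd β * LS p M B n := by rw [Finset.sum_const, smul_eq_mul]; rfl

end Pool.Agent.Work.MP_5e5ff1_ag.TH
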