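import Mathlib
import Pool.Agent.Work.MP_5e5ff1_ag.TH.StmtsX

set_option autoImplicit false

/-!
# MP_5e5ff1_ag, block TH, item BADN: primes without hypothesis, resonance allowed
-/

open Matrix Filter Topology
open scoped Polynomial

namespace Pool.Agent.Work.MP_5e5ff1_ag.TH

namespace IBADN

theorem norm_prod (p : ℕ) [Fact p.Prime] {α : Type} (S : Finset α) (g : α → ℚ) :
    padicNorm p (∏ x ∈ S, g x) = ∏ x ∈ S, padicNorm p (g x) := by
  classical
  induction S using Finset.induction_on with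
  | empty => simp
  | insert a s ha ih => rw [Finset.prod_insert ha, Finset.prod_insert ha, padicNorm.mul, ih]

theorem norm_int (p : ℕ) [hp : Fact p.Prime] (x : ℤ) (hx : x ≠ 0) :
    padicNorm p (x : ℚ) * (p : ℚ) ^ padicValInt p x = 1 := by
  have hp0 : (p : ℚ) ≠ 0 := by exact_mod_cast hp.1.ne_zero
  have hx' : (x : ℚ) ≠ 0 := by exact_mod_cast hx
  rw [padicNorm.eq_zpow_of_nonzero hx', padicValRat.of_int, ← zpow_natCast, ← zpow_add₀ hp0]
  simp

theorem one_le_prod {α : Type} (S : Finset α) (g : α → ℚ) (h : ∀ x ∈ S, 1 ≤ g x) :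
    1 ≤ ∏ x ∈ S, g x :=
  Finset.prod_induction g (fun x => 1 ≤ x) (fun _ _ ha hb => one_le_mul_of_one_le_of_one_le ha hb)
    le_rfl h

theorem mapA0g {ι : Type} [Fintype ι] [DecidableEq ι] (B C : Matrix ι ι ℤ) :
    (fun m => (A0g B C m).map (Int.castRingHom ℚ)) = A0g (qm B) (qm C) := by
  funext m
  unfold A0g
  by_cases h : m = 0
  · rw [if_pos h, if_pos h]
    ext a b
    simp [qm, Matrix.map_apply]
  · rw [if_neg h, if_neg h]

end IBADN

theorem pr_BADN (hREP : StREP) (hLAGR : StLAGR) (hCAS : StCAS) (hCN1 : StCN1) : StBADN := by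
  classical
  intro p hp ι _ _ M β B C W hM hpM hW hdet B0 hB hint n i j
  have hpp : p.Prime := hp.1
  have hp1 : (1 : ℚ) ≤ p := by exact_mod_cast hpp.one_lt.le
  obtain ⟨R, hR⟩ := hREP ι M β hM
  set f : ℤ[X] := ∏ c ∈ R, ∏ k ∈ Finset.Icc 1 n,
    ((Polynomial.X : ℤ[X]) + Polynomial.C (c - (M : ℤ) * (k : ℤ))) with hf
  set φ : ℤ →+* ℚ := Int.castRingHom ℚ with hφ
  -- values of f
  have heval : ∀ x : ℚ, (f.map φ).eval x =
      ∏ c ∈ R, ∏ k ∈ Finset.Icc 1 n, (x + ((c : ℚ) - (M : ℚ) * (k : ℚ))) := by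
    intro x
    rw [hf, Polynomial.map_prod, Polynomial.eval_prod]
    refine Finset.prod_congr rfl fun c _ => ?_
    rw [Polynomial.map_prod, Polynomial.eval_prod]
    refine Finset.prod_congr rfl fun k _ => ?_
    rw [Polynomial.map_add, Polynomial.map_X, Polynomial.map_C, Polynomial.eval_add,
      Polynomial.eval_X, Polynomial.eval_C]
    simp [hφ]
  have hroot : ∀ (k : ℕ) (i : ι), B0 < k → k < n + 1 →
      (f.map φ).eval ((M : ℚ) * (k : ℚ) - (β i : ℚ)) = 0 := by
    intro k i hk1 hk2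
    obtain ⟨c, hc, hci, e, he⟩ := hR.ex i
    obtain ⟨i', hi'⟩ := hR.mem c hc
    have hbd := (abs_le.1 (hB i i')).2
    rw [← hi', he] at hbd
    have hMZ : (1 : ℤ) ≤ M := by exact_mod_cast hM
    have he0 : 0 ≤ e := by
      by_contra hcon
      push Not at hcon
      nlinarith
    have heB : e ≤ B0 := by nlinarith
    obtain ⟨e', rfl⟩ := Int.eq_ofNat_of_zero_le he0
    have heB' : e' ≤ B0 := by exact_mod_cast heB
    rw [heval]
    refine Finset.prod_eq_zero (i := c) hc ?_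
    refine Finset.prod_eq_zero (i := k - e') (Finset.mem_Icc.2 ⟨by omega, by omega⟩) ?_
    have h1 : ((k - e' : ℕ) : ℚ) = (k : ℚ) - (e' : ℚ) := by
      rw [Nat.cast_sub (by omega)]
    have h2 : (β i : ℚ) - (c : ℚ) = (M : ℚ) * (e' : ℚ) := by exact_mod_cast he
    rw [h1]
    linarith
  have hlag := hLAGR ℚ ι M β (qm B) (qm C) W hW hdet B0 (n + 1) (f.map φ) hroot n i j
    (Nat.lt_succ_self n)
  -- integrality of the truncation
  obtain ⟨z, hz⟩ : ∃ z : ℕ → ι → ℤ, ∀ k ≤ B0, ∀ i, W k i j = z k i := by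
    refine ⟨fun k i => if h : k ≤ B0 then (hint k h i j).choose else 0, fun k hk i => ?_⟩
    simp only [dif_pos hk]
    exact (hint k hk i j).choose_spec
  have hcas := hCAS ℤ ℚ φ ι M (A0g B C) f (fun k i => if k ≤ B0 then z k i else 0)
  have htr : (fun (k : ℕ) (i : ι) => φ (if k ≤ B0 then z k i else 0)) =
      fun k i => if k ≤ B0 then W k i j else 0 := by
    funext k a
    by_cases h : k ≤ B0
    · rw [if_pos h, if_pos h, hz k h a]
      simp [hφ]
    · rw [if_neg h, if_neg h, map_zero]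
  rw [htr, IBADN.mapA0g B C] at hcas
  rw [hcas] at hlag
  obtain ⟨v, hv⟩ : ∃ v : ℤ, v = Polynomial.aeval (DA M (A0g B C)) f
      (fun k i => if k ≤ B0 then z k i else 0) n i := ⟨_, rfl⟩
  have hlag' : (v : ℚ) = (f.map φ).eval (-(β j : ℚ)) * W n i j := by
    rw [← hlag, hv]
    simp [hφ]
  -- the norm of f(-beta)
  set A : ℚ := padicNorm p ((f.map φ).eval (-(β j : ℚ))) with hA
  have hAeq : A = ∏ c ∈ R, ∏ k ∈ Finset.Icc 1 n,
      padicNorm p ((((M : ℤ) * (k : ℤ) + (β j - c) : ℤ)) : ℚ) := by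
    rw [hA, heval, IBADN.norm_prod]
    refine Finset.prod_congr rfl fun c _ => ?_
    rw [IBADN.norm_prod]
    refine Finset.prod_congr rfl fun k _ => ?_
    have e : (-(β j : ℚ) + ((c : ℚ) - (M : ℚ) * (k : ℚ))) =
        -((((M : ℤ) * (k : ℤ) + (β j - c) : ℤ)) : ℚ) := by
      push_cast
      ring
    rw [e, padicNorm.neg]
  have hAge : 1 ≤ A * (p : ℚ) ^ (LS p M B0 n * R.card) := by
    have hfac : ∀ c ∈ R, 1 ≤ (∏ k ∈ Finset.Icc 1 n,
        padicNorm p ((((M : ℤ) * (k : ℤ) + (β j - c) : ℤ)) : ℚ)) * (p : ℚ) ^ (LS p M B0 n) := by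
      intro c hc
      obtain ⟨i', hi'⟩ := hR.mem c hc
      have hne : ∀ k : ℕ, 1 ≤ k → (M : ℤ) * (k : ℤ) + (β j - c) ≠ 0 := by
        intro k hk h0
        have hd : (M : ℤ) ∣ β j - c := ⟨-(k : ℤ), by linarith⟩
        have hle := hR.le c hc j hd
        have hMZ : (1 : ℤ) ≤ M := by exact_mod_cast hM
        have hkZ : (1 : ℤ) ≤ k := by exact_mod_cast hk
        nlinarith
      have hcn := hCN1 p M M hpp hpM le_rfl B0 n (β j - c) (by rw [hi']; exact hB j i') hne
      have hone : (∏ k ∈ Finset.Icc 1 n,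
          padicNorm p ((((M : ℤ) * (k : ℤ) + (β j - c) : ℤ)) : ℚ)) *
          (p : ℚ) ^ (∑ k ∈ Finset.Icc 1 n, padicValInt p ((M : ℤ) * (k : ℤ) + (β j - c))) =
          1 := by
        rw [← Finset.prod_pow_eq_pow_sum, ← Finset.prod_mul_distrib]
        refine Finset.prod_eq_one fun k hk => ?_
        exact IBADN.norm_int p _ (hne k (Finset.mem_Icc.1 hk).1)
      calc (1 : ℚ) = (∏ k ∈ Finset.Icc 1 n,
            padicNorm p ((((M : ℤ) * (k : ℤ) + (β j - c) : ℤ)) : ℚ)) *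
            (p : ℚ) ^ (∑ k ∈ Finset.Icc 1 n, padicValInt p ((M : ℤ) * (k : ℤ) + (β j - c))) :=
            hone.symm
        _ ≤ _ := by
            refine mul_le_mul_of_nonneg_left (pow_le_pow_right₀ hp1 hcn) ?_
            exact Finset.prod_nonneg fun k _ => padicNorm.nonneg _
    have h := IBADN.one_le_prod R _ hfac
    rw [Finset.prod_mul_distrib, Finset.prod_const, ← pow_mul, ← hAeq] at h
    exact h
  have hApos : 0 < A := by
    have h0 : 0 ≤ A := padicNorm.nonneg _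
    rcases h0.lt_or_eq with h | h
    · exact h
    · rw [← h, zero_mul] at hAge
      norm_num at hAge
  have hnorm : A * padicNorm p (W n i j) ≤ 1 := by
    rw [hA, ← padicNorm.mul, ← hlag']
    exact padicNorm.of_int _
  have hle : padicNorm p (W n i j) ≤ (p : ℚ) ^ (LS p M B0 n * R.card) :=
    le_of_mul_le_mul_left (hnorm.trans hAge) hApos
  rwa [hR.card, mul_comm] at hle

end Pool.Agent.Work.MP_5e5ff1_ag.TH
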