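import Mathlib
import Pool.Agent.Work.MP_5e5ff1_ag.TH.StmtsE

set_option autoImplicit false

/-!
# MP_5e5ff1_ag, block TH, item C12: the cost for `M = 12`
-/

open Matrix Filter Topology
open scoped Polynomial

namespace Pool.Agent.Work.MP_5e5ff1_ag.TH

namespace IC12

theorem pf12 : (12 : ℕ).primeFactors = {2, 3} := by
  rw [show (12 : ℕ) = 2 ^ 2 * 3 by norm_num, Nat.primeFactors_mul (by norm_num) (by norm_num),
    Nat.primeFactors_prime_pow two_ne_zero Nat.prime_two, Nat.prime_three.primeFactors]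
  rfl

theorem fac2 : (12 : ℕ).factorization 2 = 2 := by
  rw [show (12 : ℕ) = 2 ^ 2 * 3 by norm_num, Nat.factorization_mul (by norm_num) (by norm_num),
    Nat.factorization_pow, Nat.prime_two.factorization, Nat.prime_three.factorization]
  simp

theorem fac3 : (12 : ℕ).factorization 3 = 1 := by
  rw [show (12 : ℕ) = 2 ^ 2 * 3 by norm_num, Nat.factorization_mul (by norm_num) (by norm_num),
    Nat.factorization_pow, Nat.prime_two.factorization, Nat.prime_three.factorization]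
  simp

end IC12

open IC12 in
theorem pr_C12 (hKAP : TG.StKAP) : StC12 := by
  intro ι _ _ β S σ hnd h2 h3 hS F hF
  classical
  rw [pf12, Finset.sum_pair (by norm_num), fac2, fac3]
  have hl2 : 0 < Real.log 2 := Real.log_pos one_lt_two
  have hl3 : 0 < Real.log 3 := Real.log_pos (by norm_num)
  have h2' : (spc 2 12 β : ℝ) ≤ 2 := by exact_mod_cast h2
  have h3' : (spc 3 12 β : ℝ) ≤ 3 := by exact_mod_cast h3
  have hnd' : (nd β : ℝ) ≤ 8 := by exact_mod_cast hnd
  have hfirst : (((2 : ℕ) : ℝ) + (spc 2 12 β : ℝ) / (((2 : ℕ) : ℝ) - 1)) * Real.log ((2 : ℕ) : ℝ) +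
      (((1 : ℕ) : ℝ) + (spc 3 12 β : ℝ) / (((3 : ℕ) : ℝ) - 1)) * Real.log ((3 : ℕ) : ℝ) ≤
      4 * Real.log 2 + 5 / 2 * Real.log 3 := by
    push_cast
    have e1 : (2 + (spc 2 12 β : ℝ) / (2 - 1)) * Real.log 2 ≤ 4 * Real.log 2 := by
      refine mul_le_mul_of_nonneg_right ?_ hl2.le
      norm_num
      linarith
    have e2 : (1 + (spc 3 12 β : ℝ) / (3 - 1)) * Real.log 3 ≤ 5 / 2 * Real.log 3 := by
      refine mul_le_mul_of_nonneg_right ?_ hl3.le
      norm_num
      linarith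
    linarith
  have hp5 : ∀ p ∈ F, 3 ≤ p ∧ p ≠ 3 := by
    intro p hp
    obtain ⟨hpp, hpd⟩ := hF p hp
    have h4 := hpp.two_le
    have h5 : p ≠ 2 := by
      rintro rfl
      exact hpd (by norm_num)
    have h6 : p ≠ 3 := by
      rintro rfl
      exact hpd (by norm_num)
    exact ⟨by omega, h6⟩
  have hn0 : ∀ p : ℕ, 0 ≤ Real.log (p : ℝ) := fun p => Real.log_natCast_nonneg p
  have hpm : ∀ p : ℕ, 0 ≤ (p : ℝ) * ((p : ℝ) - 1) := by
    intro p
    rcases Nat.eq_zero_or_pos p with h | h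
    · simp [h]
    · have : (1 : ℝ) ≤ p := by exact_mod_cast h
      exact mul_nonneg (by linarith) (by linarith)
  have h3F : 3 ∉ F := fun h => (hp5 3 h).2 rfl
  have hA : ∑ p ∈ F, Real.log (p : ℝ) / ((p : ℝ) * ((p : ℝ) - 1)) ≤
      4145 / 10000 - Real.log 3 / 6 := by
    have h7 := hKAP (F.sup id + 3)
    have h8 : ∑ p ∈ insert 3 F, Real.log (p : ℝ) / ((p : ℝ) * ((p : ℝ) - 1)) ≤
        ∑ p ∈ TG.opr (F.sup id + 3), Real.log (p : ℝ) / ((p : ℝ) * ((p : ℝ) - 1)) := by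
      refine Finset.sum_le_sum_of_subset_of_nonneg ?_ fun p _ _ => div_nonneg (hn0 p) (hpm p)
      intro p hp
      rw [Finset.mem_insert] at hp
      rcases hp with rfl | hp
      · exact Finset.mem_filter.2 ⟨Finset.mem_Icc.2 ⟨le_rfl, by omega⟩, Nat.prime_three⟩
      · refine Finset.mem_filter.2 ⟨Finset.mem_Icc.2 ⟨(hp5 p hp).1, ?_⟩, (hF p hp).1⟩
        have h9 : p ≤ F.sup id := Finset.le_sup (f := id) hp
        omega
    rw [Finset.sum_insert h3F] at h8
    have h10 : Real.log ((3 : ℕ) : ℝ) / (((3 : ℕ) : ℝ) * (((3 : ℕ) : ℝ) - 1)) =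
        Real.log 3 / 6 := by
      push_cast
      norm_num
    rw [h10] at h8
    linarith
  have hB : ∑ p ∈ F, (if p ∈ S then 1 / (p : ℝ) else 0) * Real.log (p : ℝ) ≤ σ := by
    have h7 := hS (F.filter (· ∈ S)) fun p hp =>
      ⟨(hF p (Finset.mem_filter.1 hp).1).1, (Finset.mem_filter.1 hp).2⟩
    rw [Finset.sum_filter] at h7
    refine le_trans (le_of_eq ?_) h7
    refine Finset.sum_congr rfl fun p _ => ?_
    split_ifs
    · ring
    · ring
  have hT : ∑ p ∈ F, (1 / ((p : ℝ) * (p - 1)) + if p ∈ S then 1 / (p : ℝ) else 0) *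
      Real.log p ≤ 4145 / 10000 - Real.log 3 / 6 + σ := by
    have h7 : ∑ p ∈ F, (1 / ((p : ℝ) * (p - 1)) + if p ∈ S then 1 / (p : ℝ) else 0) *
        Real.log p = ∑ p ∈ F, Real.log (p : ℝ) / ((p : ℝ) * ((p : ℝ) - 1)) +
        ∑ p ∈ F, (if p ∈ S then 1 / (p : ℝ) else 0) * Real.log (p : ℝ) := by
      rw [← Finset.sum_add_distrib]
      exact Finset.sum_congr rfl fun p _ => by ring
    rw [h7]
    linarith
  have hT0 : 0 ≤ ∑ p ∈ F, (1 / ((p : ℝ) * (p - 1)) + if p ∈ S then 1 / (p : ℝ) else 0) *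
      Real.log p := by
    refine Finset.sum_nonneg fun p _ => mul_nonneg (add_nonneg ?_ ?_) (hn0 p)
    · exact one_div_nonneg.2 (hpm p)
    · split_ifs
      · positivity
      · exact le_rfl
  have hprod : (nd β : ℝ) * ∑ p ∈ F, (1 / ((p : ℝ) * (p - 1)) +
      if p ∈ S then 1 / (p : ℝ) else 0) * Real.log p ≤
      8 * (4145 / 10000 - Real.log 3 / 6 + σ) :=
    (mul_le_mul_of_nonneg_right hnd' hT0).trans (mul_le_mul_of_nonneg_left hT (by norm_num))
  have hsum := add_le_add hfirst hprod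
  refine le_trans (le_of_eq ?_) (hsum.trans (le_of_eq ?_))
  · congr 1
  · ring

end Pool.Agent.Work.MP_5e5ff1_ag.TH
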