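import Mathlib
import Pool.Agent.Work.MP_5e5ff1_ag.TH.StmtsY

set_option autoImplicit false

open Matrix NumberField

namespace Pool.Agent.Work.MP_5e5ff1_ag.TH

namespace ICHP

/-- the eigenvalue equation after conjugation -/
theorem det_conj {R : Type*} [CommRing R] [IsDomain R] {r : ℕ} (N z : R)
    (c g h : Matrix (Fin r) (Fin r) R) (hN : N ≠ 0)
    (gh : g * h = N • (1 : Matrix (Fin r) (Fin r) R))
    (hz : (Matrix.scalar (Fin r) z - h * c * g).det = 0) :
    (Matrix.scalar (Fin r) z - N • c).det = 0 := by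
  have e0 : ∀ A : Matrix (Fin r) (Fin r) R, Matrix.scalar (Fin r) z * A = z • A := by
    intro A
    rw [Matrix.scalar_apply, ← Matrix.smul_one_eq_diagonal, Matrix.smul_mul, Matrix.one_mul]
  have e1 : g * (Matrix.scalar (Fin r) z - h * c * g) * h =
      N • (Matrix.scalar (Fin r) z - N • c) := by
    have e2 : g * Matrix.scalar (Fin r) z * h = N • Matrix.scalar (Fin r) z := by
      rw [Matrix.mul_assoc, e0, Matrix.mul_smul, gh, Matrix.scalar_apply,
        ← Matrix.smul_one_eq_diagonal, smul_comm]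
    have e3 : g * (h * c * g) * h = N • (N • c) := by
      calc g * (h * c * g) * h = (g * h) * c * (g * h) := by
            simp only [Matrix.mul_assoc]
        _ = N • (N • c) := by
            rw [gh, Matrix.smul_mul, Matrix.one_mul, Matrix.mul_smul, Matrix.mul_one]
    rw [Matrix.mul_sub, Matrix.sub_mul, e2, e3, smul_sub]
  have e4 := congrArg Matrix.det e1
  rw [Matrix.det_mul, Matrix.det_mul, hz, mul_zero, zero_mul, Matrix.det_smul] at e4
  rcases mul_eq_zero.1 e4.symm with h1 | h1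
  · exact absurd h1 (pow_ne_zero _ hN)
  · exact h1

/-- dividing by `N` -/
theorem det_div {R : Type*} [CommRing R] [IsDomain R] {r : ℕ} (N z : R)
    (c : Matrix (Fin r) (Fin r) R) (hN : N ≠ 0)
    (hz : (Matrix.scalar (Fin r) (N * z) - N • c).det = 0) :
    c.charpoly.IsRoot z := by
  have e1 : Matrix.scalar (Fin r) (N * z) - N • c = N • (Matrix.scalar (Fin r) z - c) := by
    rw [smul_sub, Matrix.scalar_apply, Matrix.scalar_apply, ← Matrix.smul_one_eq_diagonal,
      ← Matrix.smul_one_eq_diagonal, mul_smul]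
  rw [e1, Matrix.det_smul] at hz
  rw [Polynomial.IsRoot, Matrix.eval_charpoly]
  rcases mul_eq_zero.1 hz with h1 | h1
  · exact absurd h1 (pow_ne_zero _ hN)
  · exact h1

end ICHP

theorem pr_CHP : StCHP := by
  intro K _ _ r N c g h hN hg gh ζ hζ
  have hN0 : (N : 𝓞 K) ≠ 0 := by exact_mod_cast hN.ne'
  have hNK : (N : K) ≠ 0 := by exact_mod_cast hN.ne'
  rw [Polynomial.IsRoot, Matrix.eval_charpoly] at hζ
  have h1 := ICHP.det_conj (N : 𝓞 K) ((ζ : ℤ) : 𝓞 K) c g h hN0 gh hζ
  -- over `K`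
  have h2 : (c.map (algebraMap (𝓞 K) K)).charpoly.IsRoot ((ζ : K) / (N : K)) := by
    apply ICHP.det_div (N : K) ((ζ : K) / (N : K)) _ hNK
    have h3 := congrArg (algebraMap (𝓞 K) K) h1
    rw [map_zero, RingHom.map_det] at h3
    rw [← h3]
    congr 1
    ext i j
    have e1 : (N : K) * ((ζ : K) / (N : K)) = (ζ : K) := by
      field_simp
    rw [e1]
    simp only [RingHom.mapMatrix_apply, Matrix.map_apply, Matrix.sub_apply, Matrix.smul_apply,
      Matrix.scalar_apply, smul_eq_mul, map_sub, map_mul, map_natCast]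
    by_cases hij : i = j
    · subst hij
      rw [Matrix.diagonal_apply_eq, Matrix.diagonal_apply_eq, map_intCast]
    · rw [Matrix.diagonal_apply_ne _ hij, Matrix.diagonal_apply_ne _ hij, map_zero]
  -- integrality
  have h4 : IsIntegral (𝓞 K) ((ζ : K) / (N : K)) := by
    refine ⟨c.charpoly, Matrix.charpoly_monic c, ?_⟩
    rw [Matrix.charpoly_map] at h2
    rw [Polynomial.IsRoot, Polynomial.eval_map] at h2
    exact h2
  have h5 : IsIntegral ℤ ((ζ : K) / (N : K)) := isIntegral_trans _ h4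
  have h6 : IsIntegral ℤ ((ζ : ℚ) / (N : ℚ)) := by
    have e2 : (ζ : K) / (N : K) = algebraMap ℚ K ((ζ : ℚ) / (N : ℚ)) := by
      simp
    rw [e2] at h5
    exact (isIntegral_algebraMap_iff (algebraMap ℚ K).injective).1 h5
  obtain ⟨γ, hγ⟩ := IsIntegrallyClosed.isIntegral_iff.1 h6
  have hNQ : (N : ℚ) ≠ 0 := by exact_mod_cast hN.ne'
  have h7 : (ζ : ℚ) = (N : ℚ) * (γ : ℚ) := by
    have : (γ : ℚ) = (ζ : ℚ) / (N : ℚ) := by
      simpa using hγ
    rw [this]
    field_simp
  have h8 : ζ = N * γ := by exact_mod_cast h7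
  refine ⟨γ, h8, ?_⟩
  apply ICHP.det_div (N : 𝓞 K) ((γ : ℤ) : 𝓞 K) c hN0
  have e3 : (N : 𝓞 K) * ((γ : ℤ) : 𝓞 K) = ((ζ : ℤ) : 𝓞 K) := by
    rw [h8]; push_cast; ring
  rw [e3]
  exact h1

end Pool.Agent.Work.MP_5e5ff1_ag.TH
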