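import Mathlib
import Pool.Agent.Work.MP_5e5ff1_ag.TH.StmtsY

set_option autoImplicit false

/-!
# MP_5e5ff1_ag, block TH, item CJP: the p-curvature of the conjugated system
-/

open Matrix Filter Topology NumberField
open scoped Polynomial

namespace Pool.Agent.Work.MP_5e5ff1_ag.TH

namespace ICJP

/-- the iterates modulo `P` satisfy the recursion of `PCurvZero`, and conversely -/
theorem iff_mod (K : Type) [Field K] [NumberField K] (r M : ℕ)
    (b c : Matrix (Fin r) (Fin r) (𝓞 K)) (P : Ideal (𝓞 K)) :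
    PCurvZero M b c P ↔
    Qm M (b.map (Ideal.Quotient.mk P)) (c.map (Ideal.Quotient.mk P))
      (ringChar (𝓞 K ⧸ P)) = 0 := by
  have h8 : (Ideal.Quotient.mk P) ((M : ℕ) : 𝓞 K) = ((M : ℕ) : 𝓞 K ⧸ P) := map_natCast _ _
  have hb : (b.map (Ideal.Quotient.mk P)).map
      (fun x => (Polynomial.C x : (𝓞 K ⧸ P)[X])) =
      b.map (fun x => Polynomial.C ((Ideal.Quotient.mk P) x)) := by
    ext1 i j
    rfl
  have hc : (c.map (Ideal.Quotient.mk P)).map
      (fun x => (Polynomial.C x : (𝓞 K ⧸ P)[X])) =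
      c.map (fun x => Polynomial.C ((Ideal.Quotient.mk P) x)) := by
    ext1 i j
    rfl
  constructor
  · intro h
    refine h (fun k => Qm M (b.map (Ideal.Quotient.mk P)) (c.map (Ideal.Quotient.mk P)) k) rfl ?_
    intro k
    rw [h8, ← hb, ← hc]
    rfl
  · intro h Q hQ0 hQ
    have key : ∀ k, Q k = Qm M (b.map (Ideal.Quotient.mk P)) (c.map (Ideal.Quotient.mk P)) k := by
      intro k
      induction k with
      | zero => rw [hQ0]; rfl
      | succ k ih =>
        rw [hQ k, ih, h8, ← hb, ← hc]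
        rfl
    rw [key, h]

end ICJP

/-- CJP. The p-curvature of the conjugated system. -/
theorem pr_CJP (hCJQ : StCJQ) : StCJP := by
  intro K _ _ r M N b c g h hhg hgh P hPm hN hP
  rw [ICJP.iff_mod] at hP ⊢
  have hmn : ∀ A B : Matrix (Fin r) (Fin r) (𝓞 K), (A * B).map (Ideal.Quotient.mk P) =
      A.map (Ideal.Quotient.mk P) * B.map (Ideal.Quotient.mk P) :=
    fun A B => Matrix.map_mul
  have hsm : ((N : 𝓞 K) • (1 : Matrix (Fin r) (Fin r) (𝓞 K))).map (Ideal.Quotient.mk P) =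
      ((N : ℕ) : 𝓞 K ⧸ P) • (1 : Matrix (Fin r) (Fin r) (𝓞 K ⧸ P)) := by
    ext i j
    rw [Matrix.map_apply, Matrix.smul_apply, Matrix.smul_apply, smul_eq_mul, smul_eq_mul,
      map_mul, map_natCast]
    by_cases hij : i = j
    · subst hij
      rw [Matrix.one_apply_eq, Matrix.one_apply_eq, map_one]
    · rw [Matrix.one_apply_ne hij, Matrix.one_apply_ne hij, map_zero]
  have h1 : h.map (Ideal.Quotient.mk P) * g.map (Ideal.Quotient.mk P) =
      ((N : ℕ) : 𝓞 K ⧸ P) • (1 : Matrix (Fin r) (Fin r) (𝓞 K ⧸ P)) := by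
    rw [← hmn, hhg, hsm]
  have h2 : g.map (Ideal.Quotient.mk P) * h.map (Ideal.Quotient.mk P) =
      ((N : ℕ) : 𝓞 K ⧸ P) • (1 : Matrix (Fin r) (Fin r) (𝓞 K ⧸ P)) := by
    rw [← hmn, hgh, hsm]
  have h3 := hCJQ (𝓞 K ⧸ P) (Fin r) M N (b.map (Ideal.Quotient.mk P))
    (c.map (Ideal.Quotient.mk P)) (g.map (Ideal.Quotient.mk P)) (h.map (Ideal.Quotient.mk P))
    h1 h2 (ringChar (𝓞 K ⧸ P))
  rw [hP, Matrix.mul_zero, Matrix.zero_mul, smul_zero] at h3
  rw [hmn, hmn, hmn, hmn]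
  have hN0 : ((N : ℕ) : 𝓞 K ⧸ P) ≠ 0 := fun h0 => hN (ringChar.dvd h0)
  have hdom : IsDomain (𝓞 K ⧸ P) := (Ideal.Quotient.isDomain_iff_prime P).mpr hPm.isPrime
  ext1 i j
  have h4 := congrFun (congrFun h3 i) j
  rw [Matrix.smul_apply, smul_eq_mul, Matrix.zero_apply] at h4
  rcases mul_eq_zero.mp h4 with h5 | h5
  · exact absurd (Polynomial.C_eq_zero.mp h5) hN0
  · rw [h5, Matrix.zero_apply]

end Pool.Agent.Work.MP_5e5ff1_ag.TH
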