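import Mathlib
import Pool.Agent.Work.MP_5e5ff1_ag.TH.StmtsY

set_option autoImplicit false
set_option linter.unusedSectionVars false

/-!
# MP_5e5ff1_ag, block TH, item CJQ (helper42): the iterates of the conjugated system
-/

open Matrix Filter Topology
open scoped Polynomial

namespace Pool.Agent.Work.MP_5e5ff1_ag.TH

namespace ICJQ

section

variable {R : Type} [CommRing R] {ι : Type} [Fintype ι] [DecidableEq ι]

theorem mc_mul (a b : Matrix ι ι R) : (a * b).map (fun x => Polynomial.C x) =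
    a.map (fun x => Polynomial.C x) * b.map (fun x => Polynomial.C x) :=
  Matrix.map_mul (f := (Polynomial.C : R →+* R[X]))

theorem mc_smul_one (a : R) : (a • (1 : Matrix ι ι R)).map (fun x => Polynomial.C x) =
    Polynomial.C a • (1 : Matrix ι ι R[X]) := by
  ext i j : 1
  rw [Matrix.map_apply, Matrix.smul_apply, Matrix.smul_apply, smul_eq_mul, smul_eq_mul, map_mul,
    Matrix.one_apply, Matrix.one_apply]
  split_ifs <;> simp

theorem D_smul (a : R) (A : Matrix ι ι R[X]) :
    (Polynomial.C a • A).map (fun f => Polynomial.derivative f) =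
      Polynomial.C a • A.map (fun f => Polynomial.derivative f) := by
  ext i j : 1
  rw [Matrix.map_apply, Matrix.smul_apply, Matrix.smul_apply, smul_eq_mul, smul_eq_mul,
    Matrix.map_apply, Polynomial.derivative_C_mul]

theorem D_mul (h : Matrix ι ι R) (A : Matrix ι ι R[X]) :
    (h.map (fun x => Polynomial.C x) * A).map (fun f => Polynomial.derivative f) =
      h.map (fun x => Polynomial.C x) * A.map (fun f => Polynomial.derivative f) := by
  ext i j : 1
  rw [Matrix.map_apply, Matrix.mul_apply, Matrix.mul_apply, Polynomial.derivative_sum]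
  refine Finset.sum_congr rfl fun l _ => ?_
  rw [Matrix.map_apply, Matrix.map_apply, Polynomial.derivative_C_mul]

theorem D_mul' (g : Matrix ι ι R) (A : Matrix ι ι R[X]) :
    (A * g.map (fun x => Polynomial.C x)).map (fun f => Polynomial.derivative f) =
      A.map (fun f => Polynomial.derivative f) * g.map (fun x => Polynomial.C x) := by
  ext i j : 1
  rw [Matrix.map_apply, Matrix.mul_apply, Matrix.mul_apply, Polynomial.derivative_sum]
  refine Finset.sum_congr rfl fun l _ => ?_
  rw [Matrix.map_apply, Matrix.map_apply, mul_comm, Polynomial.derivative_C_mul, mul_comm]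

end

end ICJQ

open ICJQ in
theorem pr_CJQ : StCJQ := by
  intro R _ ι _ _ M N b c g h hhg hgh k
  obtain ⟨h', hh'⟩ : ∃ h' : Matrix ι ι R[X], h' = h.map (fun x => Polynomial.C x) := ⟨_, rfl⟩
  obtain ⟨g', hg'⟩ : ∃ g' : Matrix ι ι R[X], g' = g.map (fun x => Polynomial.C x) := ⟨_, rfl⟩
  obtain ⟨b', hb'⟩ : ∃ b' : Matrix ι ι R[X], b' = b.map (fun x => Polynomial.C x) := ⟨_, rfl⟩
  obtain ⟨c', hc'⟩ : ∃ c' : Matrix ι ι R[X], c' = c.map (fun x => Polynomial.C x) := ⟨_, rfl⟩
  have e1 : h' * g' = Polynomial.C (N : R) • (1 : Matrix ι ι R[X]) := by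
    rw [hh', hg', ← mc_mul, hhg, mc_smul_one]
  have e2 : g' * h' = Polynomial.C (N : R) • (1 : Matrix ι ι R[X]) := by
    rw [hh', hg', ← mc_mul, hgh, mc_smul_one]
  have e3 : ∀ a Q : Matrix ι ι R[X], (h' * a * g') * (h' * Q * g') =
      Polynomial.C (N : R) • (h' * (a * Q) * g') := by
    intro a Q
    calc (h' * a * g') * (h' * Q * g') = h' * a * (g' * h') * Q * g' := by
          simp only [Matrix.mul_assoc]
      _ = _ := by
          rw [e2]
          simp only [Matrix.mul_smul, Matrix.smul_mul, Matrix.mul_one, Matrix.mul_assoc]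
  rw [← hh', ← hg']
  induction k with
  | zero =>
    rw [pow_zero, map_one, one_smul]
    change Polynomial.C (N : R) • (1 : Matrix ι ι R[X]) = h' * 1 * g'
    rw [Matrix.mul_one, e1]
  | succ k ih =>
    obtain ⟨Q, hQ⟩ : ∃ Q : Matrix ι ι R[X], Q = Qm M b c k := ⟨_, rfl⟩
    obtain ⟨P, hP⟩ : ∃ P : Matrix ι ι R[X], P = Qm (M * N) (h * b * g) (h * c * g) k := ⟨_, rfl⟩
    rw [← hQ, ← hP] at ih
    have e4 : Polynomial.C (N : R) • P.map (fun f => Polynomial.derivative f) =
        Polynomial.C ((N : R) ^ k) • (h' * Q.map (fun f => Polynomial.derivative f) * g') := by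
      rw [← D_smul, ih, D_smul, hg', D_mul', hh', D_mul]
    unfold Qm
    rw [← hQ, ← hP, mc_mul, mc_mul, mc_mul, mc_mul, ← hh', ← hg', ← hb', ← hc']
    obtain ⟨DQ, hDQ⟩ : ∃ DQ : Matrix ι ι R[X], DQ = Q.map (fun f => Polynomial.derivative f) :=
      ⟨_, rfl⟩
    obtain ⟨DP, hDP⟩ : ∃ DP : Matrix ι ι R[X], DP = P.map (fun f => Polynomial.derivative f) :=
      ⟨_, rfl⟩
    rw [← hDQ, ← hDP] at e4
    rw [← hDQ, ← hDP]
    obtain ⟨s, hs⟩ : ∃ s : R[X], s = Polynomial.C (N : R) := ⟨_, rfl⟩
    obtain ⟨t, ht⟩ : ∃ t : R[X], t = Polynomial.C ((N : R) ^ k) := ⟨_, rfl⟩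
    obtain ⟨m, hm⟩ : ∃ m : R[X], m = Polynomial.C (M : R) := ⟨_, rfl⟩
    have e5 : Polynomial.C ((M * N : ℕ) : R) = m * s := by
      rw [hm, hs, Nat.cast_mul, map_mul]
    have e6 : Polynomial.C ((N : R) ^ (k + 1)) = t * s := by
      rw [ht, hs, pow_succ, map_mul]
    rw [e5, e6]
    rw [← hs, ← ht] at ih e4
    rw [← hs] at e3
    rw [← hs, ← hm]
    have e7 : s • (((Polynomial.X - 1 : R[X]) • (h' * b' * g') +
        (Polynomial.X : R[X]) • (h' * c' * g')) * P) =
        (t * s) • ((Polynomial.X - 1 : R[X]) • (h' * (b' * Q) * g') +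
          (Polynomial.X : R[X]) • (h' * (c' * Q) * g')) := by
      rw [← Matrix.mul_smul, ih, Matrix.mul_smul, Matrix.add_mul, Matrix.smul_mul, Matrix.smul_mul,
        e3, e3]
      module
    have e8 : h' * ((m * (Polynomial.X * (Polynomial.X - 1))) • DQ -
        ((k : R[X]) * m * (2 * Polynomial.X - 1)) • Q -
        ((Polynomial.X - 1 : R[X]) • b' + (Polynomial.X : R[X]) • c') * Q) * g' =
        (m * (Polynomial.X * (Polynomial.X - 1))) • (h' * DQ * g') -
        ((k : R[X]) * m * (2 * Polynomial.X - 1)) • (h' * Q * g') -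
        ((Polynomial.X - 1 : R[X]) • (h' * (b' * Q) * g') +
          (Polynomial.X : R[X]) • (h' * (c' * Q) * g')) := by
      simp only [Matrix.mul_sub, Matrix.sub_mul, Matrix.add_mul, Matrix.mul_add, Matrix.smul_mul,
        Matrix.mul_smul]
    rw [e8, smul_sub, e7, smul_sub]
    have e9 : s • (m * s * (Polynomial.X * (Polynomial.X - 1))) • DP =
        (m * s * (Polynomial.X * (Polynomial.X - 1))) • (s • DP) := smul_comm _ _ _
    have e10 : s • ((k : R[X]) * (m * s) * (2 * Polynomial.X - 1)) • P =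
        ((k : R[X]) * (m * s) * (2 * Polynomial.X - 1)) • (s • P) := smul_comm _ _ _
    rw [e9, e10, ih, e4]
    module

end Pool.Agent.Work.MP_5e5ff1_ag.TH
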