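import Mathlib
import Pool.Agent.Work.MP_5e5ff1_ag.TH.StmtsD

set_option autoImplicit false

/-!
# MP_5e5ff1_ag, block TH, item CLF: closed forms of the coefficient series
-/

open Matrix Filter Topology
open scoped Polynomial

namespace Pool.Agent.Work.MP_5e5ff1_ag.TH

theorem pr_CLF : StCLF := by
  intro ι _ _ β C x hx i l
  have hx' : ‖-x‖ < 1 := by rwa [norm_neg]
  have h1 : (1 : ℂ) + x ≠ 0 := by
    intro h
    have : x = -1 := by linear_combination h
    rw [this, norm_neg, norm_one] at hx
    exact lt_irrefl _ hx
  have h2 : (1 : ℂ) - x ≠ 0 := by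
    intro h
    have : x = 1 := by linear_combination -h
    rw [this, norm_one] at hx
    exact lt_irrefl _ hx
  constructor
  · set d : ℂ := if i = l then (β i : ℂ) else 0 with hd
    have hs := ((hasSum_geometric_of_norm_lt_one hx').mul_left d).add
      (hasSum_ite_eq (0 : ℕ) (-(C i l : ℂ) - d))
    have e : (fun m : ℕ => ((A1 β C m i l : ℤ) : ℂ) * x ^ m) =
        fun m : ℕ => d * (-x) ^ m + if m = 0 then -(C i l : ℂ) - d else 0 := by
      funext m
      rcases Nat.eq_zero_or_pos m with h | h
      · subst h
        simp [A1]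
      · have hm : m ≠ 0 := by omega
        by_cases hil : i = l
        · subst hil
          simp only [A1, hm, if_false, hd, if_true, db, Matrix.smul_apply, Matrix.diagonal_apply_eq,
            smul_eq_mul, Int.cast_mul, Int.cast_pow, Int.cast_neg, Int.cast_one, add_zero,
            Int.cast_id]
          rw [neg_pow x m]
          ring
        · simp [A1, hm, hd, hil, db]
    rw [e, hs.tsum_eq]
    have h3 : (1 : ℂ) - -x ≠ 0 := by rwa [sub_neg_eq_add]
    rw [sub_neg_eq_add]
    field_simp
    ring
  · set d : ℂ := if i = l then (β i : ℂ) else 0 with hd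
    have hs := ((hasSum_geometric_of_norm_lt_one hx).mul_left (C i l : ℂ)).add
      (hasSum_ite_eq (0 : ℕ) d)
    have e : (fun m : ℕ => ((A2 β C m i l : ℤ) : ℂ) * x ^ m) =
        fun m : ℕ => (C i l : ℂ) * x ^ m + if m = 0 then d else 0 := by
      funext m
      rcases Nat.eq_zero_or_pos m with h | h
      · subst h
        by_cases hil : i = l
        · subst hil
          simp [A2, db, hd]
          ring
        · simp [A2, db, hd, hil]
      · have hm : m ≠ 0 := by omega
        simp [A2, hm]
    rw [e, hs.tsum_eq]
    field_simp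
    ring

end Pool.Agent.Work.MP_5e5ff1_ag.TH
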