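import Mathlib
import Pool.Agent.Work.MP_5e5ff1_ag.TH.StmtsA

set_option autoImplicit false

/-!
# MP_5e5ff1_ag, block TH, item CN2: counting primes in an arithmetic progression, complete blocks
-/

open Finset

namespace Pool.Agent.Work.MP_5e5ff1_ag.TH

namespace ICN2

/-- the valuation counts the powers dividing `x` -/
theorem val_eq {p : ℕ} (hp : p.Prime) {x : ℤ} (hx : x ≠ 0) {H : ℕ} (hH : |x| ≤ H) :
    padicValInt p x = ∑ l ∈ Icc 1 (Nat.log p H), if ((p : ℤ) ^ l ∣ x) then 1 else 0 := by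
  haveI : Fact p.Prime := ⟨hp⟩
  have hx' : x.natAbs ≠ 0 := Int.natAbs_ne_zero.2 hx
  have hle : x.natAbs ≤ H := by
    have : ((x.natAbs : ℕ) : ℤ) ≤ H := by rwa [Int.natCast_natAbs]
    exact_mod_cast this
  have hlog : Nat.log p x.natAbs < Nat.log p H + 1 := Nat.lt_succ_of_le (Nat.log_mono_right hle)
  have h1 := Nat.emultiplicity_eq_card_pow_dvd hp.ne_one (Nat.pos_of_ne_zero hx') hlog
  rw [← padicValNat_eq_emultiplicity hx'] at h1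
  have h2 : padicValNat p x.natAbs = #{i ∈ Ico 1 (Nat.log p H + 1) | p ^ i ∣ x.natAbs} := by
    exact_mod_cast h1
  show padicValNat p x.natAbs = _
  rw [h2, card_filter]
  refine sum_congr (by ext l; simp [Nat.lt_succ_iff]) fun l _ => ?_
  have h3 : (p ^ l ∣ x.natAbs) ↔ ((p : ℤ) ^ l ∣ x) := by
    rw [← Int.natCast_dvd, Nat.cast_pow]
  by_cases h : (p : ℤ) ^ l ∣ x
  · rw [if_pos h, if_pos (h3.2 h)]
  · rw [if_neg h, if_neg (fun h' => h (h3.1 h'))]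

/-- the number of members of the progression divisible by `d` -/
theorem count_eq {d M : ℕ} (hd : 0 < d) (hc : IsCoprime (d : ℤ) (M : ℤ)) (δ : ℤ) :
    ∃ v : ℕ, ∀ n : ℕ,
    (∑ k ∈ Icc 1 n, if ((d : ℤ) ∣ (M : ℤ) * (k : ℤ) + δ) then 1 else 0) =
      n / d + if v % d < n % d then 1 else 0 := by
  obtain ⟨a, b, hab⟩ := hc
  have hd' : (0 : ℤ) < d := by exact_mod_cast hd
  obtain ⟨v, hv⟩ : ∃ v : ℕ, (v : ℤ) = ((-δ - (M : ℤ)) * b) % d :=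
    ⟨(((-δ - (M : ℤ)) * b) % d).toNat, Int.toNat_of_nonneg (Int.emod_nonneg _ hd'.ne')⟩
  have hv4 : (d : ℤ) ∣ (M : ℤ) * ((v : ℤ) + 1) + δ := by
    have h1 : (d : ℤ) ∣ ((-δ - (M : ℤ)) * b) - v := by
      rw [hv]
      exact Int.dvd_self_sub_emod
    obtain ⟨c, hc⟩ := h1
    refine ⟨-(M : ℤ) * c - (-δ - (M : ℤ)) * a, ?_⟩
    linear_combination (-(M : ℤ)) * hc + (-δ - (M : ℤ)) * hab
  refine ⟨v, fun n => ?_⟩
  have h2 : ∀ k : ℕ, ((d : ℤ) ∣ (M : ℤ) * ((k + 1 : ℕ) : ℤ) + δ) ↔ k ≡ v [MOD d] := by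
    intro k
    rw [Nat.modEq_iff_dvd]
    have h3 : (M : ℤ) * ((k + 1 : ℕ) : ℤ) + δ =
        ((M : ℤ) * ((v : ℤ) + 1) + δ) - (M : ℤ) * ((v : ℤ) - k) := by
      push_cast
      ring
    rw [h3, dvd_sub_right hv4]
    constructor
    · intro h
      exact IsCoprime.dvd_of_dvd_mul_left ⟨a, b, hab⟩ h
    · intro h
      exact Dvd.dvd.mul_left h (M : ℤ)
  have h4 : (∑ k ∈ Icc 1 n, if ((d : ℤ) ∣ (M : ℤ) * (k : ℤ) + δ) then 1 else 0) =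
      ∑ k ∈ range n, if ((d : ℤ) ∣ (M : ℤ) * ((k + 1 : ℕ) : ℤ) + δ) then 1 else 0 := by
    rw [range_eq_Ico,
      sum_Ico_add' (fun k : ℕ => if ((d : ℤ) ∣ (M : ℤ) * (k : ℤ) + δ) then 1 else 0) 0 n 1]
    exact sum_congr (by ext k; simp [Nat.lt_succ_iff]) fun _ _ => rfl
  rw [h4, ← card_filter]
  have h5 := Nat.count_modEq_card n hd v
  rw [Nat.count_eq_card_filter_range] at h5
  rw [← h5]
  exact congrArg card (filter_congr fun k _ => h2 k)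

theorem count_le {d M : ℕ} (hd : 0 < d) (hc : IsCoprime (d : ℤ) (M : ℤ)) (δ : ℤ) (n : ℕ) :
    (∑ k ∈ Icc 1 n, if ((d : ℤ) ∣ (M : ℤ) * (k : ℤ) + δ) then 1 else 0) ≤ n / d + 1 := by
  obtain ⟨v, hv⟩ := count_eq hd hc δ
  rw [hv]
  split_ifs <;> omega

theorem count_block {d M : ℕ} (hd : 0 < d) (hc : IsCoprime (d : ℤ) (M : ℤ)) (δ : ℤ) (m : ℕ) :
    (∑ k ∈ Icc 1 (m * d), if ((d : ℤ) ∣ (M : ℤ) * (k : ℤ) + δ) then 1 else 0) = m := by
  obtain ⟨v, hv⟩ := count_eq hd hc δ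
  rw [hv, Nat.mul_mod_left, if_neg (Nat.not_lt_zero _), Nat.mul_div_cancel m hd, add_zero]

theorem cop {p M : ℕ} (hp : p.Prime) (h2 : ¬ p ∣ M) (l : ℕ) :
    IsCoprime (((p ^ l : ℕ) : ℤ)) (M : ℤ) := by
  have h1 : Nat.Coprime p M := (Nat.Prime.coprime_iff_not_dvd hp).2 h2
  exact Nat.isCoprime_iff_coprime.2 (Nat.Coprime.pow_left l h1)

/-- exchange of the sums -/
theorem exchange {p : ℕ} (M : ℕ) (hp : p.Prime) (n H : ℕ) (δ : ℤ)
    (h0 : ∀ k ∈ Icc 1 n, (M : ℤ) * (k : ℤ) + δ ≠ 0)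
    (hH : ∀ k ∈ Icc 1 n, |(M : ℤ) * (k : ℤ) + δ| ≤ H) :
    ∑ k ∈ Icc 1 n, padicValInt p ((M : ℤ) * (k : ℤ) + δ) = ∑ l ∈ Icc 1 (Nat.log p H),
      ∑ k ∈ Icc 1 n, if (((p ^ l : ℕ) : ℤ) ∣ (M : ℤ) * (k : ℤ) + δ) then 1 else 0 := by
  rw [sum_comm]
  refine sum_congr rfl fun k hk => ?_
  rw [val_eq hp (h0 k hk) (hH k hk)]
  simp only [Nat.cast_pow]

end ICN2

open ICN2

/-- Item CN2. -/
theorem pr_CN2 : StCN2 := by
  intro p M hp h2 B m δ hδ hne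
  have hH : ∀ k ∈ Icc 1 (m * p), |(M : ℤ) * (k : ℤ) + δ| ≤ ((M * (m * p) + B : ℕ) : ℤ) := by
    intro k hk
    rw [mem_Icc] at hk
    have h1 : (M : ℤ) * (k : ℤ) ≤ (M : ℤ) * ((m * p : ℕ) : ℤ) :=
      mul_le_mul_of_nonneg_left (by exact_mod_cast hk.2) (Int.natCast_nonneg M)
    have h3 : (0 : ℤ) ≤ (M : ℤ) * (k : ℤ) := mul_nonneg (Int.natCast_nonneg M)
      (Int.natCast_nonneg k)
    refine (abs_add_le _ _).trans ?_
    rw [abs_of_nonneg h3]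
    push_cast at h1 ⊢
    linarith
  rw [exchange M hp (m * p) _ δ (fun k hk => hne k (mem_Icc.1 hk).1) hH]
  set L := Nat.log p (M * (m * p) + B) with hL
  set f : ℕ → ℕ := fun l => ∑ k ∈ Icc 1 (m * p),
    if (((p ^ l : ℕ) : ℤ) ∣ (M : ℤ) * (k : ℤ) + δ) then 1 else 0 with hf
  have h3 : ∑ l ∈ Icc 1 L, f l ≤ f 1 + ∑ l ∈ Icc 2 L, f l := by
    have h4 : (1 : ℕ) ∉ Icc 2 L := by simp
    rw [← sum_insert h4]
    refine sum_le_sum_of_subset fun l hl => ?_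
    rw [mem_Icc] at hl
    rw [mem_insert, mem_Icc]
    omega
  have h5 : f 1 = m := by
    have h6 := count_block hp.pos (by simpa using cop hp h2 1) δ m
    simpa [hf] using h6
  refine h3.trans ?_
  rw [h5]
  refine Nat.add_le_add_left (sum_le_sum fun l _ => ?_) m
  exact count_le (pow_pos hp.pos l) (cop hp h2 l) δ (m * p)

end Pool.Agent.Work.MP_5e5ff1_ag.TH
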