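import Mathlib
import Pool.Agent.Work.MP_5e5ff1_ag.TH.StmtsE

set_option autoImplicit false

/-!
# MP_5e5ff1_ag, block TH, item COSR: the cost after restriction of scalars
-/

open Matrix Filter Topology NumberField
open scoped Polynomial

namespace Pool.Agent.Work.MP_5e5ff1_ag.TH

namespace ICOSR

variable {ι κ : Type} [Fintype ι] [DecidableEq ι] [Fintype κ] [DecidableEq κ]

theorem image_fst [Nonempty κ] (β : ι → ℤ) :
    (Finset.univ.image fun x : ι × κ => β x.1) = Finset.univ.image β := by
  ext c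
  simp only [Finset.mem_image, Finset.mem_univ, true_and, Prod.exists]
  constructor
  · rintro ⟨i, _, h⟩
    exact ⟨i, h⟩
  · rintro ⟨i, h⟩
    exact ⟨i, Classical.arbitrary κ, h⟩

theorem nd_fst [Nonempty κ] (β : ι → ℤ) : nd (fun x : ι × κ => β x.1) = nd β := by
  unfold nd
  rw [image_fst]

theorem spc_fst [Nonempty κ] (β : ι → ℤ) (p M : ℕ) :
    spc p M (fun x : ι × κ => β x.1) = spc p M β := by
  unfold spc
  rw [image_fst]
  refine le_antisymm (Finset.sup_le fun x _ => ?_) (Finset.sup_le fun i _ => ?_)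
  · exact Finset.le_sup (f := fun i => ((Finset.univ.image β).filter fun c =>
      (p : ℤ) ^ (M.factorization p) ∣ c - β i).card) (Finset.mem_univ x.1)
  · exact Finset.le_sup (f := fun x : ι × κ => ((Finset.univ.image β).filter fun c =>
      (p : ℤ) ^ (M.factorization p) ∣ c - β x.1).card) (Finset.mem_univ (i, Classical.arbitrary κ))

end ICOSR

open ICOSR in
theorem pr_COSR : StCOSR := by
  intro K _ _ r M β S L h
  have hd : 0 < Module.finrank ℤ (𝓞 K) := Module.finrank_pos
  haveI : Nonempty (Fin (Module.finrank ℤ (𝓞 K))) := ⟨⟨0, hd⟩⟩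
  intro F hF
  have h1 := h F hF
  rw [nd_fst]
  simp only [spc_fst]
  exact h1

end Pool.Agent.Work.MP_5e5ff1_ag.TH
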