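import Mathlib
import Pool.Agent.Work.MP_5e5ff1_ag.TH.Defs
import Pool.Agent.Work.MP_5e5ff1_ag.TG.StmtsB
import Pool.Agent.Work.MP_5e5ff1_ag.TG.StmtsC

set_option autoImplicit false

/-!
# MP_5e5ff1_ag, block TH, part B: the criterion `StCrit2` and the maps `StMapT`

Every docstring is the complete proof.  USES lists the statements which the item may take as
hypotheses `(h : StX)`.  Captain helper18, co-captain helper45.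
Notation of the docstrings: `D1` is the open unit disc `Metric.ball (0 : ℂ) 1`.
-/

open Filter Topology
open scoped Polynomial

namespace Pool.Agent.Work.MP_5e5ff1_ag.TH

/-! ### the criterion -/

/-- KEY2, MEDIUM (adapt TG/I_KEY.lean).  The upper bound.
USES TG.StCfa TG.StCva TG.StFac TG.StOrd TG.StMax.

`δ z = z ^ m * g z`.  `C0 ≥ 1` bounds `‖δ‖, ‖A'‖, ‖h‖, ‖F‖` on the compact disc of radius `ρ`.  Let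
`ν, h1` be given by TG.StOrd for `h`: `h z = z^ν h1 z` near 0, `h1 0 ≠ 0`.
`C = C0 * max 1 (1/(‖h1 0‖ ρ^ν)) * max 1 (1/‖A' 0‖)`.  Let `b n = coeff n (aux a J X q)` and
`G z = ∑_{j<J} ∑_{i<X} q j i (δ z)^i (A' z)^(X-i) (F z)^j (h z)^(J-j)`, differentiable on D1.  For
`z` near 0, `A' z ≠ 0`, and with `t = δ z / A' z` (which tends to 0 because `m > 0`),
`F z = h z ∑ a n t^n`, so by TG.StCva `G z = (A' z)^X (h z)^J ∑ b n t^n`.  By TG.StCfa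
`‖b n‖ ≤ (J X Q (2A)^J) (2A)^n`, so by TG.StFac (`m = T'`) `∑ b n t^n = t^T' P t` near 0,
`P 0 = b T'`.  So near 0 `G z = z^(J ν + m T') · [(A' z)^X (h1 z)^J (g z / A' z)^T' P(δ z / A' z)]`,
the bracket is analytic at 0.  For `‖z‖ ≤ ρ`: `‖G z‖ ≤ J X Q C0^(X+J)` (`Q ≥ 0`).  TG.StMax:
`‖A' 0‖^X ‖h1 0‖^J (‖g 0‖/‖A' 0‖)^T' |b T'| ρ^(Jν + m T') ≤ J X Q C0^(X+J)`, so
`|b T'| (‖g 0‖/‖A' 0‖ ρ^m)^T' ≤ J X Q C0^(X+J) (1/(‖h1 0‖ρ^ν))^J (1/‖A' 0‖)^X ≤ J X Q C^(X+J)`. -/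
def StKEY2 : Prop := ∀ (a : ℕ → ℚ) (A : ℝ) (m : ℕ) (g A' h F : ℂ → ℂ), 1 ≤ A →
  (∀ n, |(a n : ℝ)| ≤ A ^ (n + 1)) → 0 < m →
  DifferentiableOn ℂ g (Metric.ball 0 1) → DifferentiableOn ℂ A' (Metric.ball 0 1) →
  DifferentiableOn ℂ h (Metric.ball 0 1) → (∃ z ∈ Metric.ball (0 : ℂ) 1, h z ≠ 0) →
  DifferentiableOn ℂ F (Metric.ball 0 1) → A' 0 ≠ 0 →
  (∀ᶠ z in 𝓝 (0 : ℂ), F z = h z * ∑' n : ℕ, (a n : ℂ) * (z ^ m * g z / A' z) ^ n) →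
  ∀ ρ : ℝ, 0 < ρ → ρ < 1 → ∃ C : ℝ, 1 ≤ C ∧
    ∀ (J X : ℕ) (q : ℕ → ℕ → ℤ) (Q : ℝ) (T' : ℕ), (∀ j i, |(q j i : ℝ)| ≤ Q) →
    (∀ n < T', PowerSeries.coeff n (TG.aux a J X q) = 0) →
    |((PowerSeries.coeff T' (TG.aux a J X q) : ℚ) : ℝ)| * (‖g 0‖ / ‖A' 0‖ * ρ ^ m) ^ T' ≤
      J * X * Q * C ^ (X + J)

/-- END2, EASY (real numbers).  The choice of the parameters.  USES TG.StEnd.

TG.StEnd for `g1 = exp (log g / 4) > 1` (`log g > s ≥ 0`) gives `η`, `ρ1`; put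
`ρ = ρ1 ^ (4 / m : ℝ)`, so `0 < ρ < 1` and `ρ ^ m = ρ1 ^ 4`.  Since `g1 ^ 4 = g`,
`(g ρ^m)^T' = (g1 ρ1)^(4 T')`. -/
def StEND2 : Prop := ∀ (m : ℕ) (s g A : ℝ), 0 < m → 0 ≤ s → 0 < g → s < Real.log g → 1 ≤ A →
  ∃ η ρ : ℝ, 0 < η ∧ 0 < ρ ∧ ρ < 1 ∧ ∀ C : ℝ, 1 ≤ C → ∃ L J : ℕ, 2 ≤ L ∧ 1 ≤ J ∧
    ∃ T1 : ℕ, ∀ T ≥ T1, ∀ T' ≥ T,
    (J : ℝ) * ((L * T / J + 1 : ℕ) : ℝ) *
      ((J : ℝ) * (L * T + 1) * Real.exp ((s + η) * T) * (2 * A) ^ (T + J)) ^ (1 / ((L : ℝ) - 1)) *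
      C ^ ((L * T / J + 1) + J) < Real.exp (-((s + η) * T')) * (g * ρ ^ m) ^ T'

/-- CRT2, EASY-MEDIUM (adapt TG/I_CRT.lean).  The criterion: the theorem is
`pr_CRT2 ... : StCrit2`.  USES TG.StAri KEY2 END2.

`s ≥ 0`: otherwise `Den` with `J = 0`, `ε = -s/2` and `N ≥ max N0 1` gives `0 ≤ log d < 0`.  So
`0 < log (‖g 0‖/‖A' 0‖)`, and with `G = ‖g 0‖/‖A' 0‖` also `G > 0`.  Suppose `f` is not algebraic.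
END2 gives `η, ρ`; KEY2 gives `C` for `ρ`; END2 gives `L, J, T1`; TG.StAri (`ε = η`) gives `T0`.
Take `T = max T0 T1` and `q, T'` from TG.StAri; with `Q = (...)^(1/(L-1))`, KEY2 contradicts END2:
`exp(-(s+η)T') (Gρ^m)^T' ≤ |b T'| (Gρ^m)^T' ≤ J X Q C^(X+J) < exp(-(s+η)T') (Gρ^m)^T'`. -/
def StCRT2 : Prop := StCrit2

/-! ### the maps -/

/-- `G z = z * g z` on the unit disc omits `1, -1` and vanishes only at 0; `‖G' 0‖ = D` -/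
def QG (D : ℝ) : Prop := ∃ g : ℂ → ℂ, DifferentiableOn ℂ g (Metric.ball 0 1) ∧
  (∀ z ∈ Metric.ball (0 : ℂ) 1, g z ≠ 0 ∧ z * g z ≠ 1 ∧ z * g z ≠ -1) ∧ ‖g 0‖ = D

/-- GBA, EASY.  `g = 1`: `‖z‖ < 1`. -/
def StGBA : Prop := QG 1

/-- GST, EASY-MEDIUM.  The Landen step.  USES TG.StSqr.

`g` from `QG D`, `g1` a holomorphic square root of `g` on D1 (TG.StSqr, `c` any square root of
`g 0`), `k z = 2 g1 (z²) / (1 + z² g(z²))`; `z² ∈ D1` and `z² g(z²) ≠ -1`, so `k` is holomorphic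
without zeros.  With `u = z g1(z²)`, `u² = z² g(z²) ≠ 1`: `z k z = 2u/(1+u²)`,
`1 - z k z = (1-u)²/(1+u²) ≠ 0`, `1 + z k z = (1+u)²/(1+u²) ≠ 0` (`u ≠ ±1` since `u² ≠ 1`).
`‖k 0‖ = 2 ‖g1 0‖ = 2 √D`. -/
def StGST : Prop := ∀ D : ℝ, QG D → QG (2 * Real.sqrt D)

/-- GLI, EASY.  USES GBA GST.

Induction: `QG (4 ^ (1 - 2 ^ (-k)))` (real power): `2 √(4^x) = 4^((1+x)/2)`.  The limit is 4. -/
def StGLI : Prop := ∀ D : ℝ, D < 4 → ∃ D' : ℝ, D ≤ D' ∧ 0 < D' ∧ QG D'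

/-- SYM, EASY.  The exchange of the points 1 and ∞.

`z ^ m * g z - w z ^ e1 n1 = A z ^ e1 n2` from `rel`.  At `z = 0`: `-(A 0)^(e1 n2) = (w 0)^(e1 n1)`
(`m > 0`), so `w 0 ≠ 0` (`e1 n > 0`) and `‖w 0‖^(e1 n1) = ‖A 0‖^(e1 n2)`. -/
def StSYM : Prop := ∀ (n1 n2 : ℕ) (R : ℝ) (m : ℕ) (g A w : ℂ → ℂ), IsMap n1 n2 R m g A w →
  IsMap n2 n1 R m g w A

/-- M44, EASY-MEDIUM.  USES TG.StSqr.

`G z = z g z` from `QG D`; `G² - 1` has no zeros on D1, let `κ` be a square root (TG.StSqr):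
`κ² = G² - 1`, `κ` without zeros, `κ(0)² = -1`.  `IsMap` with `m = 2`, `8 κ g²`, `A = κ + 1`,
`w = ζ (κ - 1)`, `ζ^4 = -1` (for instance `ζ = exp(π i/4)`, or IsAlgClosed.exists_pow_nat_eq):
`8 κ G² - (κ+1)⁴ = 8 κ (κ² + 1) - (κ+1)⁴ = -(κ-1)⁴`.  `κ 0 = ±i`, so
`‖A 0‖² = ‖1 ± i‖² = 2`, `‖A 0‖⁴ = 4`, and `‖8 κ(0) g(0)²‖ = 8 D²`, quotient `2 D²`. -/
def StM44 : Prop := ∀ D : ℝ, QG D → ∃ (m : ℕ) (g A w : ℂ → ℂ), IsMap 4 4 (2 * D ^ 2) m g A w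

/-- M24, EASY.

`x = G²`, `G z = z g z`: `m = 4`, `16 g⁴ (1 - x)`, `A = x - 2`, `w = i (x² + 4x - 4)`:
`16 x² (1 - x) - (x - 2)⁴ = -(x² + 4x - 4)²` (ring).  At 0: `16 D⁴ / 2⁴ = D⁴`. -/
def StM24 : Prop := ∀ D : ℝ, QG D → ∃ (m : ℕ) (g A w : ℂ → ℂ), IsMap 2 4 (D ^ 4) m g A w

/-- M20, EASY.

`x = G²`: `m = 4`, `g⁴`, `A = 4 (x - 1)` (no zeros), `w = x - 2`: `x² - 4 (x - 1) = (x - 2)²`
(`e1 0 = 1`, `e1 2 = 2`).  At 0: `D⁴ / 4`. -/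
def StM20 : Prop := ∀ D : ℝ, QG D → ∃ (m : ℕ) (g A w : ℂ → ℂ), IsMap 2 0 (D ^ 4 / 4) m g A w

/-- M23, EASY.

`x = G²`: `m = 4`, `27/4 g⁴ (1 - x)²`, `A = 1 - x + x²`, `w = (i/2) (1 + x) (1 - 2x) (2 - x)`:
`27/4 x² (1-x)² - (1 - x + x²)³ = -(1+x)² (1-2x)² (2-x)² / 4` (ring).  At 0: `27/4 D⁴`. -/
def StM23 : Prop := ∀ D : ℝ, QG D → ∃ (m : ℕ) (g A w : ℂ → ℂ), IsMap 2 3 (27 / 4 * D ^ 4) m g A w

/-- M00, EASY.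

`x = G²`: `m = 2`, `g²`, `A = x - 1` (no zeros), `w = 1`: `x - (x - 1) = 1`.  At 0: `D²`. -/
def StM00 : Prop := ∀ D : ℝ, QG D → ∃ (m : ℕ) (g A w : ℂ → ℂ), IsMap 0 0 (D ^ 2) m g A w

/-- MPT, EASY-MEDIUM.  The maps: the theorem is `pr_MPT ... : StMapT`.
USES GLI SYM M44 M24 M20 M23 M00.

The radii `2 D²`, `D⁴`, `D⁴/4`, `27/4 D⁴`, `D²` are continuous increasing functions of `D > 0` with
the values `32, 256, 64, 1728, 16` at `D = 4`.  Given `R' < R` choose `D < 4`, `D > 0`, with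
`R' < ` the value at `D` (continuity), then `D'` from GLI and monotony; `IsMap` is monotone in the
radius (`rad`).  The types `(4,2)`, `(0,2)`, `(3,2)` by SYM. -/
def StMPT : Prop := StMapT

end Pool.Agent.Work.MP_5e5ff1_ag.TH
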