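import Mathlib
import Pool.Agent.Work.MP_5e5ff1_ag.TH.StmtsB

set_option autoImplicit false

/-!
# MP_5e5ff1_ag, block TH, item CRT2: the algebraicity criterion
-/

open Filter Topology
open scoped Polynomial

namespace Pool.Agent.Work.MP_5e5ff1_ag.TH

/-- CRT2: the criterion. -/
theorem pr_CRT2 (hAri : TG.StAri) (hKey : StKEY2) (hEnd : StEND2) : StCrit2 := by
  intro s A a m g A' h F hDen hA1 hA hm hg hA' hh hF hA0 hs hh0 hFe
  by_contra halg
  have hs0 : 0 ≤ s := by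
    by_contra hneg
    rw [not_le] at hneg
    obtain ⟨N0, hN0⟩ := hDen 0 (-s / 2) (by linarith)
    obtain ⟨d, hd, hl, -⟩ := hN0 (max N0 1) (le_max_left _ _)
    have h1 : 0 ≤ Real.log d := Real.log_natCast_nonneg d
    have h3 : (0 : ℝ) < ((max N0 1 : ℕ) : ℝ) := by
      exact_mod_cast lt_of_lt_of_le one_pos (le_max_right N0 1)
    have h2 : (s + -s / 2) * ((max N0 1 : ℕ) : ℝ) < 0 :=
      mul_neg_of_neg_of_pos (by linarith) h3
    linarith
  have hG : 0 < ‖g 0‖ / ‖A' 0‖ := by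
    by_contra hle
    have h0 : ‖g 0‖ / ‖A' 0‖ = 0 :=
      le_antisymm (not_lt.1 hle) (div_nonneg (norm_nonneg _) (norm_nonneg _))
    rw [h0, Real.log_zero] at hs
    linarith
  obtain ⟨η, ρ, hη, hρ, hρ1, hE⟩ := hEnd m s (‖g 0‖ / ‖A' 0‖) A hm hs0 hG hs hA1
  obtain ⟨C, hC, hK⟩ := hKey a A m g A' h F hA1 hA hm hg hA' hh hh0 hF hA0 hFe ρ hρ hρ1
  obtain ⟨L, J, hL, hJ, T1, hE'⟩ := hE C hC
  obtain ⟨T0, hT0⟩ := hAri s a A hDen hA1 hA halg L J η hL hJ hη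
  obtain ⟨q, T', hTT, hz, hlow, hq⟩ := hT0 (max T0 T1) (le_max_left _ _)
  have e1 := hE' (max T0 T1) (le_max_right _ _) T' hTT
  have e2 := hK J (L * max T0 T1 / J + 1) q _ T' hq hz
  have e3 := mul_le_mul_of_nonneg_right hlow
    (show 0 ≤ (‖g 0‖ / ‖A' 0‖ * ρ ^ m) ^ T' by positivity)
  exact absurd (e3.trans e2) (not_le.2 e1)

end Pool.Agent.Work.MP_5e5ff1_ag.TH
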