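import Mathlib
import Pool.Agent.Work.MP_5e5ff1_ag.TH.StmtsD

set_option autoImplicit false

/-!
# MP_5e5ff1_ag, block TH, item DIA: the residue at the special point is diagonalizable
-/

open Matrix Filter Topology
open scoped Polynomial

namespace Pool.Agent.Work.MP_5e5ff1_ag.TH

namespace IDIA

theorem L1_zero {ι : Type} [Fintype ι] [DecidableEq ι] (M : ℕ) (A : ℕ → Matrix ι ι ℚ) (c : ℤ)
    (w : ℕ → ι → ℚ) (i : ι) :
    L1 M A c w 0 i = ((A 0 - (c : ℚ) • (1 : Matrix ι ι ℚ)) *ᵥ w 0) i := by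
  simp only [L1, DA, LinearMap.coe_mk, AddHom.coe_mk, Matrix.sub_mulVec, Matrix.smul_mulVec,
    Matrix.one_mulVec, Pi.sub_apply, Pi.smul_apply, smul_eq_mul]
  simp

end IDIA

open IDIA

theorem pr_DIA (hSEM : StSEM) (hDIAL : StDIAL) : StDIA := by
  intro ι _ _ M A hA m γ hγ
  refine hDIAL ι (qm (A 0)) m γ ?_ ?_
  · have h0 : (∏ j, (Polynomial.X - Polynomial.C ((γ j : ℤ) : ℚ)) : ℚ[X]) =
        (∏ j, (Polynomial.X - Polynomial.C (γ j)) : ℤ[X]).map (Int.castRingHom ℚ) := by
      rw [Polynomial.map_prod]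
      refine Finset.prod_congr rfl fun j _ => ?_
      rw [Polynomial.map_sub, Polynomial.map_X, Polynomial.map_C]
      simp
    have h1 := congrArg (fun M : Matrix ι ι ℤ => (Int.castRingHom ℚ).mapMatrix M) hγ
    simp only [map_zero] at h1
    rw [Polynomial.aeval_def, Polynomial.hom_eval₂] at h1
    rw [h0, Polynomial.aeval_def, Polynomial.eval₂_map, ← h1]
    congr 1
    exact RingHom.ext_int _ _
  · intro c v hv
    have h4 : (cst v 0 : ι → ℚ) = v := by funext k; simp [cst]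
    have h2 : L1 M (fun m => qm (A m)) c (cst v) 0 =
        (qm (A 0) - (c : ℚ) • (1 : Matrix ι ι ℚ)) *ᵥ v := by
      funext k
      rw [L1_zero, h4]
    have h1 := hSEM ι M A hA (cst v) c 0 (by
      intro m hm i
      obtain rfl : m = 0 := Nat.le_zero.1 hm
      rw [L1_zero, h2, hv]
      rfl) 0 le_rfl
    funext i
    have h3 := h1 i
    rw [h2] at h3
    exact h3

end Pool.Agent.Work.MP_5e5ff1_ag.TH
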