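import Mathlib
import Pool.Agent.Work.MP_5e5ff1_ag.TH.StmtsY

set_option autoImplicit false

/-!
# MP_5e5ff1_ag, block TH, item DIAK (helper5): `b` is diagonalizable with integral eigenvalues
-/

open Matrix Filter Topology NumberField
open scoped Polynomial nonZeroDivisors

namespace Pool.Agent.Work.MP_5e5ff1_ag.TH

namespace IDIAK

/-! ### large good primes -/

theorem primes (S : Set ℕ) (N0 : ℕ) (c0 : ℝ) (hS : Bs S c0) :
    ∀ N : ℕ, ∃ p : ℕ, N < p ∧ p.Prime ∧ N0 < p ∧ p ∉ S := by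
  classical
  intro N
  by_contra hcon
  push Not at hcon
  have hmem : ∀ p : ℕ, N < p → p.Prime → N0 < p → p ∈ S := fun p h1 h2 h3 => hcon p h1 h2 h3
  apply not_summable_one_div_on_primes
  obtain ⟨K, hK⟩ : ∃ K : ℕ, K = N + N0 + 3 := ⟨_, rfl⟩
  have hKN : N ≤ K := by omega
  have hKM : N0 ≤ K := by omega
  have hK3 : 3 ≤ K := by omega
  set f : ℕ → ℝ := Set.indicator {p : ℕ | p.Prime} (fun n : ℕ => (1 : ℝ) / n) with hf
  have hf0 : ∀ n, 0 ≤ f n := by
    intro n
    rw [hf]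
    exact Set.indicator_nonneg (fun _ _ => by positivity) n
  refine summable_of_sum_le (c := ∑ n ∈ Finset.range (K + 1), f n + c0) hf0 ?_
  intro u
  have h1 : ∑ n ∈ u, f n = ∑ n ∈ u.filter (fun n => n ≤ K), f n +
      ∑ n ∈ u.filter (fun n => ¬ n ≤ K), f n := (Finset.sum_filter_add_sum_filter_not u _ f).symm
  have h2 : ∑ n ∈ u.filter (fun n => n ≤ K), f n ≤ ∑ n ∈ Finset.range (K + 1), f n := by
    refine Finset.sum_le_sum_of_subset_of_nonneg (fun n hn => ?_) fun n _ _ => hf0 n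
    rw [Finset.mem_filter] at hn
    exact Finset.mem_range.2 (Nat.lt_succ_of_le hn.2)
  set F := (u.filter (fun n => ¬ n ≤ K)).filter (fun n => n.Prime) with hF
  have hFm : ∀ p ∈ F, p.Prime ∧ K < p := by
    intro p hp
    rw [hF, Finset.mem_filter, Finset.mem_filter] at hp
    exact ⟨hp.2, not_le.1 hp.1.2⟩
  have h3 : ∑ n ∈ u.filter (fun n => ¬ n ≤ K), f n ≤ ∑ p ∈ F, Real.log p / p := by
    have h5 : ∑ n ∈ u.filter (fun n => ¬ n ≤ K), f n = ∑ n ∈ F, f n := by
      rw [hF, Finset.sum_filter (fun n : ℕ => n.Prime)]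
      refine Finset.sum_congr rfl fun n hn => ?_
      by_cases hp : n.Prime
      · rw [if_pos hp]
      · rw [if_neg hp, hf, Set.indicator_of_notMem (by exact hp)]
    rw [h5]
    refine Finset.sum_le_sum fun n hn => ?_
    obtain ⟨hp, hKn⟩ := hFm n hn
    rw [hf, Set.indicator_of_mem (by exact hp)]
    have hn3 : (3 : ℝ) ≤ n := by
      have : 3 ≤ n := by omega
      exact_mod_cast this
    have hlog : 1 ≤ Real.log n := by
      rw [Real.le_log_iff_exp_le (by linarith)]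
      have := Real.exp_one_lt_d9
      linarith
    exact div_le_div_of_nonneg_right hlog (by linarith)
  have h4 := hS F (fun p hp => ⟨(hFm p hp).1,
    hmem p (by have := (hFm p hp).2; omega) (hFm p hp).1 (by have := (hFm p hp).2; omega)⟩)
  linarith

/-! ### semisimplicity -/

theorem pow_kill {R : Type} [Ring R] (a w : R) (n : ℕ) (hn : 2 ≤ n) (h : a * (a * w) = 0) :
    a ^ n * w = 0 := by
  obtain ⟨q, rfl⟩ : ∃ q, n = q + 1 + 1 := ⟨n - 2, by omega⟩
  rw [pow_succ, mul_assoc, pow_succ, mul_assoc, h, mul_zero]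

theorem ss_int {ι : Type} [Fintype ι] [DecidableEq ι] (B W : Matrix ι ι ℤ)
    (hp : ∀ N : ℕ, ∃ p : ℕ, N < p ∧ p.Prime ∧ (pm p B) ^ p = pm p B) (c : ℤ)
    (h : (B - c • (1 : Matrix ι ι ℤ)) * ((B - c • (1 : Matrix ι ι ℤ)) * W) = 0) :
    (B - c • (1 : Matrix ι ι ℤ)) * W = 0 := by
  ext i j
  set E := (B - c • (1 : Matrix ι ι ℤ)) * W with hE
  by_contra hne
  obtain ⟨p, hNp, hpp, hB⟩ := hp (E i j).natAbs
  have : Fact p.Prime := ⟨hpp⟩
  have : Nonempty ι := ⟨i⟩
  let φ := (Int.castRingHom (ZMod p)).mapMatrix (m := ι)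
  have hφ : ∀ A : Matrix ι ι ℤ, φ A = pm p A := fun A => rfl
  have hφD : φ (B - c • (1 : Matrix ι ι ℤ)) = φ B - (c : ZMod p) • (1 : Matrix ι ι (ZMod p)) := by
    rw [map_sub, map_zsmul, map_one]
    congr 1
    rw [zsmul_eq_mul, Algebra.smul_def]
    simp
  have hD : (φ (B - c • (1 : Matrix ι ι ℤ))) ^ p = φ (B - c • (1 : Matrix ι ι ℤ)) := by
    rw [hφD, sub_pow_char_of_commute, hφ, hB, smul_pow, one_pow, ZMod.pow_card]
    exact (Commute.one_right _).smul_right _
  have h2 : φ (B - c • (1 : Matrix ι ι ℤ)) * φ E = 0 := by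
    rw [← map_mul, h, map_zero]
  have h3 : φ E = φ (B - c • (1 : Matrix ι ι ℤ)) ^ p * φ W := by
    rw [hD, hE, map_mul]
  have h4 : φ E = 0 := by
    rw [h3]
    refine pow_kill _ _ p hpp.two_le ?_
    rw [← map_mul, ← hE, h2]
  have h6 : ((E i j : ℤ) : ZMod p) = 0 := congrFun (congrFun h4 i) j
  rw [ZMod.intCast_zmod_eq_zero_iff_dvd] at h6
  have h7 : p ∣ (E i j).natAbs := Int.natCast_dvd.1 h6
  have h8 : (E i j).natAbs ≠ 0 := by
    rw [Ne, Int.natAbs_eq_zero]
    exact hne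
  exact absurd (Nat.le_of_dvd (Nat.pos_of_ne_zero h8) h7) (by omega)

/-- restriction of scalars as a ring homomorphism -/
noncomputable def rsH (K : Type) [Field K] [NumberField K] (r : ℕ) :
    Matrix (Fin r) (Fin r) (𝓞 K) →+*
      Matrix (Fin r × Fin (Module.finrank ℤ (𝓞 K))) (Fin r × Fin (Module.finrank ℤ (𝓞 K))) ℤ where
  toFun := TG.rs K
  map_one' := by
    ext i j
    obtain ⟨i1, i2⟩ := i
    obtain ⟨j1, j2⟩ := j
    by_cases h : i1 = j1
    · subst h
      simp [TG.rs, Matrix.one_apply, Prod.ext_iff]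
    · simp [TG.rs, Prod.ext_iff, h]
  map_mul' a b := by
    ext i j
    simp only [TG.rs, Matrix.mul_apply, Fintype.sum_prod_type, map_sum, Matrix.sum_apply, map_mul]
  map_zero' := by
    ext i j
    simp [TG.rs]
  map_add' a b := by
    ext i j
    simp [TG.rs, Matrix.add_apply]

theorem rsH_inj (K : Type) [Field K] [NumberField K] (r : ℕ) :
    Function.Injective (rsH K r) := by
  intro a b h
  refine Matrix.ext fun i j => ?_
  refine Algebra.leftMulMatrix_injective (Module.finBasis ℤ (𝓞 K)) ?_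
  refine Matrix.ext fun k l => ?_
  exact congrFun (congrFun h (i, k)) (j, l)

theorem ss_OK (K : Type) [Field K] [NumberField K] (r : ℕ) (b : Matrix (Fin r) (Fin r) (𝓞 K))
    (hp : ∀ N : ℕ, ∃ p : ℕ, N < p ∧ p.Prime ∧ (pm p (TG.rs K b)) ^ p = pm p (TG.rs K b))
    (c : ℤ) (v : Fin r → 𝓞 K)
    (h : (b - c • (1 : Matrix (Fin r) (Fin r) (𝓞 K))) *ᵥ
      ((b - c • (1 : Matrix (Fin r) (Fin r) (𝓞 K))) *ᵥ v) = 0) :
    (b - c • (1 : Matrix (Fin r) (Fin r) (𝓞 K))) *ᵥ v = 0 := by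
  let V : Matrix (Fin r) (Fin r) (𝓞 K) := Matrix.of fun i _ => v i
  set D := b - c • (1 : Matrix (Fin r) (Fin r) (𝓞 K)) with hD
  have h1 : ∀ i j, (D * (D * V)) i j = (D *ᵥ (D *ᵥ v)) i := fun i j => rfl
  have h2 : D * (D * V) = 0 := by
    ext i j
    rw [h1, h]
    rfl
  have hφ : ∀ A, rsH K r A = TG.rs K A := fun A => rfl
  have hφD : rsH K r D = TG.rs K b - c • (1 : Matrix _ _ ℤ) := by
    rw [hD, map_sub, map_zsmul, map_one, hφ]
  have h3 : (TG.rs K b - c • (1 : Matrix _ _ ℤ)) * ((TG.rs K b - c • (1 : Matrix _ _ ℤ)) *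
      rsH K r V) = 0 := by
    rw [← hφD, ← map_mul, ← map_mul, h2, map_zero]
  have h4 := ss_int (TG.rs K b) (rsH K r V) hp c h3
  rw [← hφD, ← map_mul] at h4
  have h5 : D * V = 0 := rsH_inj K r (by rw [h4, map_zero])
  funext i
  have h6 := congrFun (congrFun h5 i) i
  exact h6

theorem ss_K (K : Type) [Field K] [NumberField K] (r : ℕ) (b : Matrix (Fin r) (Fin r) (𝓞 K))
    (hp : ∀ N : ℕ, ∃ p : ℕ, N < p ∧ p.Prime ∧ (pm p (TG.rs K b)) ^ p = pm p (TG.rs K b))
    (c : ℤ) (v : Fin r → K)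
    (h : (b.map (algebraMap (𝓞 K) K) - (c : K) • (1 : Matrix (Fin r) (Fin r) K)) *ᵥ
      ((b.map (algebraMap (𝓞 K) K) - (c : K) • (1 : Matrix (Fin r) (Fin r) K)) *ᵥ v) = 0) :
    (b.map (algebraMap (𝓞 K) K) - (c : K) • (1 : Matrix (Fin r) (Fin r) K)) *ᵥ v = 0 := by
  obtain ⟨d, hd⟩ := IsLocalization.exist_integer_multiples_of_finite (𝓞 K)⁰ v
  choose v' hv' using hd
  have hinj : Function.Injective (algebraMap (𝓞 K) K) := FaithfulSMul.algebraMap_injective (𝓞 K) K
  have hd0 : algebraMap (𝓞 K) K (d : 𝓞 K) ≠ 0 := by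
    rw [Ne, map_eq_zero_iff _ hinj]
    exact nonZeroDivisors.ne_zero d.2
  set D := b - c • (1 : Matrix (Fin r) (Fin r) (𝓞 K)) with hD
  have hDK : D.map (algebraMap (𝓞 K) K) =
      b.map (algebraMap (𝓞 K) K) - (c : K) • (1 : Matrix (Fin r) (Fin r) K) := by
    have e1 : D.map (algebraMap (𝓞 K) K) = (algebraMap (𝓞 K) K).mapMatrix D := rfl
    have e2 : b.map (algebraMap (𝓞 K) K) = (algebraMap (𝓞 K) K).mapMatrix b := rfl
    rw [e1, e2, hD, map_sub, map_zsmul, map_one]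
    congr 1
    rw [zsmul_eq_mul, Algebra.smul_def]
    simp
  have hvK : (algebraMap (𝓞 K) K) ∘ v' = algebraMap (𝓞 K) K (d : 𝓞 K) • v := by
    funext i
    have := hv' i
    rw [Function.comp_apply, this, Algebra.smul_def]
    rfl
  rw [← hDK] at h ⊢
  have key : ∀ w : Fin r → 𝓞 K, (algebraMap (𝓞 K) K) ∘ (D *ᵥ w) =
      D.map (algebraMap (𝓞 K) K) *ᵥ ((algebraMap (𝓞 K) K) ∘ w) := by
    intro w
    funext i
    exact RingHom.map_mulVec (algebraMap (𝓞 K) K) D w i
  have h1 : D *ᵥ (D *ᵥ v') = 0 := by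
    have e1 : (algebraMap (𝓞 K) K) ∘ (D *ᵥ (D *ᵥ v')) = 0 := by
      rw [key, key, hvK, mulVec_smul, mulVec_smul, h, smul_zero]
    funext i
    have e2 := congrFun e1 i
    exact (map_eq_zero_iff _ hinj).1 e2
  have h2 := ss_OK K r b hp c v' h1
  have h3 : algebraMap (𝓞 K) K (d : 𝓞 K) • (D.map (algebraMap (𝓞 K) K) *ᵥ v) = 0 := by
    rw [← mulVec_smul, ← hvK, ← key, h2]
    funext i
    exact map_zero _
  exact (smul_eq_zero.1 h3).resolve_left hd0

/-! ### diagonalization over a field -/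

section dia

variable {E : Type} [Field E] [CharZero E] {ι : Type} [Fintype ι] [DecidableEq ι]

/-- The eigenvectors with eigenvalues in `Γ`. -/
def EV (C : Matrix ι ι E) (Γ : Set ℤ) : Set (ι → E) := {v | ∃ k ∈ Γ, C *ᵥ v = (k : E) • v}

/-- The factor of the eigenvalue `k`. -/
def fac (C : Matrix ι ι E) (k : ℤ) : Matrix ι ι E := C - (k : E) • (1 : Matrix ι ι E)

omit [CharZero E] in
theorem fac_mulVec (C : Matrix ι ι E) (k : ℤ) (v : ι → E) :
    fac C k *ᵥ v = C *ᵥ v - (k : E) • v := by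
  unfold fac
  rw [sub_mulVec, smul_mulVec, one_mulVec]

theorem step (C : Matrix ι ι E) (Γ : Set ℤ) (k : ℤ) {u : ι → E}
    (hu : u ∈ Submodule.span E (EV C Γ)) :
    ∃ s ∈ Submodule.span E (EV C Γ), fac C k *ᵥ (fac C k *ᵥ s - u) = 0 := by
  induction hu using Submodule.span_induction with
  | mem x hx =>
    obtain ⟨j, hjΓ, hj⟩ := hx
    by_cases hjk : j = k
    · refine ⟨0, Submodule.zero_mem _, ?_⟩
      rw [mulVec_zero, zero_sub, mulVec_neg, fac_mulVec, hj, hjk, sub_self, neg_zero]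
    · have hne : ((j : E) - (k : E)) ≠ 0 := by
        intro h
        apply hjk
        have : (j : E) = k := sub_eq_zero.1 h
        exact_mod_cast this
      refine ⟨((j : E) - (k : E))⁻¹ • x,
        Submodule.smul_mem _ _ (Submodule.subset_span ⟨j, hjΓ, hj⟩), ?_⟩
      have : fac C k *ᵥ (((j : E) - (k : E))⁻¹ • x) = x := by
        rw [mulVec_smul, fac_mulVec, hj, ← sub_smul, smul_smul, inv_mul_cancel₀ hne, one_smul]
      rw [this, sub_self, mulVec_zero]
  | zero =>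
    refine ⟨0, Submodule.zero_mem _, ?_⟩
    simp
  | add x y _ _ hx hy =>
    obtain ⟨s, hs, h1⟩ := hx
    obtain ⟨t, ht, h2⟩ := hy
    refine ⟨s + t, Submodule.add_mem _ hs ht, ?_⟩
    have e : fac C k *ᵥ (s + t) - (x + y) = (fac C k *ᵥ s - x) + (fac C k *ᵥ t - y) := by
      rw [mulVec_add]
      abel
    rw [e, mulVec_add, h1, h2, add_zero]
  | smul a x _ hx =>
    obtain ⟨s, hs, h1⟩ := hx
    refine ⟨a • s, Submodule.smul_mem _ _ hs, ?_⟩
    rw [mulVec_smul, ← smul_sub, mulVec_smul, h1, smul_zero]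

theorem mem_span (C : Matrix ι ι E) (Γ : Set ℤ)
    (hss : ∀ (c : ℤ) (v : ι → E), (C - (c : E) • (1 : Matrix ι ι E)) *ᵥ
      ((C - (c : E) • (1 : Matrix ι ι E)) *ᵥ v) = 0 → (C - (c : E) • (1 : Matrix ι ι E)) *ᵥ v = 0)
    (l : List ℤ) : (∀ k ∈ l, k ∈ Γ) → ∀ v : ι → E,
    (Polynomial.aeval C (l.map fun k : ℤ =>
      (Polynomial.X - Polynomial.C (k : E) : Polynomial E)).prod) *ᵥ v = 0 →
    v ∈ Submodule.span E (EV C Γ) := by
  induction l with
  | nil =>
    intro _ v hv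
    simp only [List.map_nil, List.prod_nil, map_one, one_mulVec] at hv
    rw [hv]
    exact Submodule.zero_mem _
  | cons k l ih =>
    intro hl v hv
    have hf : Polynomial.aeval C (Polynomial.X - Polynomial.C (k : E) : Polynomial E) =
        fac C k := by
      rw [map_sub, Polynomial.aeval_X, Polynomial.aeval_C]
      unfold fac
      rw [Algebra.algebraMap_eq_smul_one]
    rw [List.map_cons, List.prod_cons, mul_comm, map_mul, hf, ← mulVec_mulVec] at hv
    have h1 := ih (fun j hj => hl j (List.mem_cons_of_mem _ hj)) _ hv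
    obtain ⟨s, hs, h2⟩ := step C Γ k h1
    have h3 : fac C k *ᵥ (fac C k *ᵥ (s - v)) = 0 := by
      rw [mulVec_sub]
      exact h2
    have h4 : fac C k *ᵥ (s - v) = 0 := hss k _ h3
    have h5 : s - v ∈ Submodule.span E (EV C Γ) := by
      refine Submodule.subset_span ⟨k, hl k List.mem_cons_self, ?_⟩
      rw [fac_mulVec] at h4
      exact sub_eq_zero.1 h4
    have h6 : v = s - (s - v) := by abel
    rw [h6]
    exact Submodule.sub_mem _ hs h5

theorem dial (C : Matrix ι ι E) (m : ℕ) (γ : Fin m → ℤ)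
    (hC : Polynomial.aeval C (∏ j, (Polynomial.X - Polynomial.C ((γ j : ℤ) : E)) : E[X]) = 0)
    (hss : ∀ (c : ℤ) (v : ι → E), (C - (c : E) • (1 : Matrix ι ι E)) *ᵥ
      ((C - (c : E) • (1 : Matrix ι ι E)) *ᵥ v) = 0 →
      (C - (c : E) • (1 : Matrix ι ι E)) *ᵥ v = 0) :
    ∃ (γ' : ι → ℤ) (g : Matrix ι ι E), g.det ≠ 0 ∧
      C * g = g * Matrix.diagonal fun i => ((γ' i : ℤ) : E) := by
  have htop : Submodule.span E (EV C (Set.range γ)) = ⊤ := by
    rw [eq_top_iff]
    intro v _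
    refine mem_span C (Set.range γ) hss (List.ofFn γ) (fun k hk => ?_) v ?_
    · rw [List.mem_ofFn] at hk
      exact hk
    · have e : ((List.ofFn γ).map fun k : ℤ =>
          (Polynomial.X - Polynomial.C (k : E) : Polynomial E)).prod =
          ∏ j, (Polynomial.X - Polynomial.C ((γ j : ℤ) : E)) := by
        rw [List.map_ofFn, List.prod_ofFn]
        rfl
      rw [e, hC, zero_mulVec]
  obtain ⟨b, hbE, hbs, hbi⟩ := exists_linearIndependent E (EV C (Set.range γ))
  have hbt : ⊤ ≤ Submodule.span E (Set.range (Subtype.val : b → ι → E)) := by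
    rw [Subtype.range_coe, hbs, htop]
  let B : Module.Basis b E (ι → E) := Module.Basis.mk hbi hbt
  let e : ι ≃ b := (Pi.basisFun E ι).indexEquiv B
  choose γ' hγΓ hγ' using fun j : ι => hbE (e j).2
  refine ⟨γ', Matrix.of fun i j => (e j : ι → E) i, ?_, ?_⟩
  · have hcol : LinearIndependent E (Matrix.of fun i j => (e j : ι → E) i).col :=
      hbi.comp e e.injective
    rw [Matrix.linearIndependent_cols_iff_isUnit, Matrix.isUnit_iff_isUnit_det] at hcol
    exact hcol.ne_zero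
  · ext i j
    rw [Matrix.mul_diagonal]
    have h := congrFun (hγ' j) i
    rw [Pi.smul_apply, smul_eq_mul, mul_comm] at h
    exact h

end dia

end IDIAK

open IDIAK in
theorem pr_DIAK (h1 : StKEI) : StDIAK := by
  intro K _ _ r b S N0 c0 hS hb
  obtain ⟨m, γ, hγ, -⟩ := h1 _ (TG.rs K b) S N0 c0 hS hb
  have hp : ∀ N : ℕ, ∃ p : ℕ, N < p ∧ p.Prime ∧ (pm p (TG.rs K b)) ^ p = pm p (TG.rs K b) := by
    intro N
    obtain ⟨p, h2, h3, h4, h5⟩ := primes S N0 c0 hS N
    exact ⟨p, h2, h3, hb p h3 h4 h5⟩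
  -- the polynomial kills `b`
  have h3 := Polynomial.aeval_algHom_apply (rsH K r).toIntAlgHom b
    (∏ j, (Polynomial.X - Polynomial.C (γ j)) : ℤ[X])
  have h4 : Polynomial.aeval b (∏ j, (Polynomial.X - Polynomial.C (γ j)) : ℤ[X]) = 0 := by
    refine rsH_inj K r ?_
    rw [map_zero]
    exact h3.symm.trans hγ
  have hinj : Function.Injective (algebraMap (𝓞 K) K) := FaithfulSMul.algebraMap_injective (𝓞 K) K
  let C : Matrix (Fin r) (Fin r) K := b.map (algebraMap (𝓞 K) K)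
  have h5 : Polynomial.aeval C (∏ j, (Polynomial.X - Polynomial.C ((γ j : ℤ) : K)) : K[X]) = 0 := by
    have h6 := Polynomial.aeval_algHom_apply
      ((algebraMap (𝓞 K) K).mapMatrix (m := Fin r)).toIntAlgHom b
      (∏ j, (Polynomial.X - Polynomial.C (γ j)) : ℤ[X])
    rw [h4, map_zero] at h6
    have h7 : (∏ j, (Polynomial.X - Polynomial.C ((γ j : ℤ) : K)) : K[X]) =
        Polynomial.map (algebraMap ℤ K) (∏ j, (Polynomial.X - Polynomial.C (γ j)) : ℤ[X]) := by
      rw [Polynomial.map_prod]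
      refine Finset.prod_congr rfl fun j _ => ?_
      rw [Polynomial.map_sub, Polynomial.map_X, Polynomial.map_C]
      rfl
    rw [h7, Polynomial.aeval_map_algebraMap]
    exact h6
  obtain ⟨γ', g, hg, hCg⟩ := dial C m γ h5 (fun c v => ss_K K r b hp c v)
  obtain ⟨d, hd⟩ := IsLocalization.exist_integer_multiples_of_finite (𝓞 K)⁰
    (fun x : Fin r × Fin r => g x.1 x.2)
  choose g' hg' using hd
  have hd0 : algebraMap (𝓞 K) K (d : 𝓞 K) ≠ 0 := by
    rw [Ne, map_eq_zero_iff _ hinj]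
    exact nonZeroDivisors.ne_zero d.2
  let G : Matrix (Fin r) (Fin r) (𝓞 K) := Matrix.of fun i j => g' (i, j)
  have hG : G.map (algebraMap (𝓞 K) K) = algebraMap (𝓞 K) K (d : 𝓞 K) • g := by
    ext i j
    have h6 := hg' (i, j)
    rw [Algebra.smul_def] at h6
    exact h6
  refine ⟨γ', G, ?_, ?_⟩
  · intro h0
    have h6 : (G.map (algebraMap (𝓞 K) K)).det = 0 := by
      have h7 := RingHom.map_det (algebraMap (𝓞 K) K) G
      rw [h0, map_zero] at h7
      exact h7.symm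
    rw [hG, Matrix.det_smul, mul_eq_zero] at h6
    rcases h6 with h6 | h6
    · exact pow_ne_zero _ hd0 h6
    · exact hg h6
  · have hmi : Function.Injective (fun A : Matrix (Fin r) (Fin r) (𝓞 K) =>
        A.map (algebraMap (𝓞 K) K)) := Matrix.map_injective hinj
    apply hmi
    show (b * G).map (algebraMap (𝓞 K) K) = (G * _).map (algebraMap (𝓞 K) K)
    rw [Matrix.map_mul, Matrix.map_mul, hG, Matrix.mul_smul, Matrix.smul_mul]
    congr 1
    have h8 : (Matrix.diagonal fun i => ((γ' i : ℤ) : 𝓞 K)).map (algebraMap (𝓞 K) K) =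
        Matrix.diagonal fun i => ((γ' i : ℤ) : K) := by
      rw [Matrix.diagonal_map (map_zero _)]
      rfl
    rw [h8]
    exact hCg

end Pool.Agent.Work.MP_5e5ff1_ag.TH
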