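import Mathlib
import Pool.Agent.Work.MP_5e5ff1_ag.TH.StmtsD

set_option autoImplicit false

/-!
# Block TH, item DIAL: semisimple rational matrices with given integral eigenvalues
-/

open Matrix

namespace Pool.Agent.Work.MP_5e5ff1_ag.TH

namespace IDIAL

variable {ι : Type} [Fintype ι] [DecidableEq ι]

/-- The eigenvectors with eigenvalues in `Γ`. -/
def EV (C : Matrix ι ι ℚ) (Γ : Set ℤ) : Set (ι → ℚ) := {v | ∃ k ∈ Γ, C *ᵥ v = (k : ℚ) • v}

/-- The factor of the eigenvalue `k`. -/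
def fac (C : Matrix ι ι ℚ) (k : ℤ) : Matrix ι ι ℚ := C - (k : ℚ) • (1 : Matrix ι ι ℚ)

theorem fac_mulVec (C : Matrix ι ι ℚ) (k : ℤ) (v : ι → ℚ) :
    fac C k *ᵥ v = C *ᵥ v - (k : ℚ) • v := by
  unfold fac
  rw [sub_mulVec, smul_mulVec, one_mulVec]

theorem step (C : Matrix ι ι ℚ) (Γ : Set ℤ) (k : ℤ) {u : ι → ℚ}
    (hu : u ∈ Submodule.span ℚ (EV C Γ)) :
    ∃ s ∈ Submodule.span ℚ (EV C Γ), fac C k *ᵥ (fac C k *ᵥ s - u) = 0 := by
  induction hu using Submodule.span_induction with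
  | mem x hx =>
    obtain ⟨j, hjΓ, hj⟩ := hx
    by_cases hjk : j = k
    · refine ⟨0, Submodule.zero_mem _, ?_⟩
      rw [mulVec_zero, zero_sub, mulVec_neg, fac_mulVec, hj, hjk, sub_self, neg_zero]
    · have hne : ((j : ℚ) - (k : ℚ)) ≠ 0 := by
        intro h
        apply hjk
        have : (j : ℚ) = k := by linarith
        exact_mod_cast this
      refine ⟨((j : ℚ) - (k : ℚ))⁻¹ • x,
        Submodule.smul_mem _ _ (Submodule.subset_span ⟨j, hjΓ, hj⟩), ?_⟩
      have : fac C k *ᵥ (((j : ℚ) - (k : ℚ))⁻¹ • x) = x := by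
        rw [mulVec_smul, fac_mulVec, hj, ← sub_smul, smul_smul, inv_mul_cancel₀ hne, one_smul]
      rw [this, sub_self, mulVec_zero]
  | zero =>
    refine ⟨0, Submodule.zero_mem _, ?_⟩
    simp
  | add x y _ _ hx hy =>
    obtain ⟨s, hs, h1⟩ := hx
    obtain ⟨t, ht, h2⟩ := hy
    refine ⟨s + t, Submodule.add_mem _ hs ht, ?_⟩
    have e : fac C k *ᵥ (s + t) - (x + y) = (fac C k *ᵥ s - x) + (fac C k *ᵥ t - y) := by
      rw [mulVec_add]
      abel
    rw [e, mulVec_add, h1, h2, add_zero]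
  | smul a x _ hx =>
    obtain ⟨s, hs, h1⟩ := hx
    refine ⟨a • s, Submodule.smul_mem _ _ hs, ?_⟩
    rw [mulVec_smul, ← smul_sub, mulVec_smul, h1, smul_zero]

theorem mem_span (C : Matrix ι ι ℚ) (Γ : Set ℤ)
    (hss : ∀ (c : ℤ) (v : ι → ℚ), (C - (c : ℚ) • (1 : Matrix ι ι ℚ)) *ᵥ
      ((C - (c : ℚ) • (1 : Matrix ι ι ℚ)) *ᵥ v) = 0 → (C - (c : ℚ) • (1 : Matrix ι ι ℚ)) *ᵥ v = 0)
    (l : List ℤ) : (∀ k ∈ l, k ∈ Γ) → ∀ v : ι → ℚ,
    (Polynomial.aeval C (l.map fun k : ℤ =>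
      (Polynomial.X - Polynomial.C (k : ℚ) : Polynomial ℚ)).prod) *ᵥ v = 0 →
    v ∈ Submodule.span ℚ (EV C Γ) := by
  induction l with
  | nil =>
    intro _ v hv
    simp only [List.map_nil, List.prod_nil, map_one, one_mulVec] at hv
    rw [hv]
    exact Submodule.zero_mem _
  | cons k l ih =>
    intro hl v hv
    have hf : Polynomial.aeval C (Polynomial.X - Polynomial.C (k : ℚ) : Polynomial ℚ) =
        fac C k := by
      rw [map_sub, Polynomial.aeval_X, Polynomial.aeval_C]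
      unfold fac
      rw [Algebra.algebraMap_eq_smul_one]
    rw [List.map_cons, List.prod_cons, mul_comm, map_mul, hf, ← mulVec_mulVec] at hv
    have h1 := ih (fun j hj => hl j (List.mem_cons_of_mem _ hj)) _ hv
    obtain ⟨s, hs, h2⟩ := step C Γ k h1
    have h3 : fac C k *ᵥ (fac C k *ᵥ (s - v)) = 0 := by
      rw [mulVec_sub]
      exact h2
    have h4 : fac C k *ᵥ (s - v) = 0 := hss k _ h3
    have h5 : s - v ∈ Submodule.span ℚ (EV C Γ) := by
      refine Submodule.subset_span ⟨k, hl k List.mem_cons_self, ?_⟩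
      rw [fac_mulVec] at h4
      exact sub_eq_zero.1 h4
    have h6 : v = s - (s - v) := by abel
    rw [h6]
    exact Submodule.sub_mem _ hs h5

end IDIAL

open IDIAL in
theorem pr_DIAL : StDIAL := by
  intro ι _ _ C m γ hC hss
  have htop : Submodule.span ℚ (EV C (Set.range γ)) = ⊤ := by
    rw [eq_top_iff]
    intro v _
    refine mem_span C (Set.range γ) hss (List.ofFn γ) (fun k hk => ?_) v ?_
    · rw [List.mem_ofFn] at hk
      exact hk
    · have e : ((List.ofFn γ).map fun k : ℤ =>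
          (Polynomial.X - Polynomial.C (k : ℚ) : Polynomial ℚ)).prod =
          ∏ j, (Polynomial.X - Polynomial.C ((γ j : ℤ) : ℚ)) := by
        rw [List.map_ofFn, List.prod_ofFn]
        rfl
      rw [e, hC, zero_mulVec]
  obtain ⟨b, hbE, hbs, hbi⟩ := exists_linearIndependent ℚ (EV C (Set.range γ))
  have hbt : ⊤ ≤ Submodule.span ℚ (Set.range (Subtype.val : b → ι → ℚ)) := by
    rw [Subtype.range_coe, hbs, htop]
  let B : Module.Basis b ℚ (ι → ℚ) := Module.Basis.mk hbi hbt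
  let e : ι ≃ b := (Pi.basisFun ℚ ι).indexEquiv B
  choose γ' hγΓ hγ' using fun j : ι => hbE (e j).2
  refine ⟨γ', Matrix.of fun i j => (e j : ι → ℚ) i, ?_, ?_, ?_⟩
  · have hcol : LinearIndependent ℚ (Matrix.of fun i j => (e j : ι → ℚ) i).col :=
      hbi.comp e e.injective
    rw [Matrix.linearIndependent_cols_iff_isUnit, Matrix.isUnit_iff_isUnit_det] at hcol
    exact hcol.ne_zero
  · intro j
    obtain ⟨l, hl⟩ := hγΓ j
    exact ⟨l, hl.symm⟩
  · ext i j
    rw [Matrix.mul_diagonal]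
    have h := congrFun (hγ' j) i
    rw [Pi.smul_apply, smul_eq_mul, mul_comm] at h
    exact h

end Pool.Agent.Work.MP_5e5ff1_ag.TH
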