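import Mathlib
import Pool.Agent.Work.MP_5e5ff1_ag.TH.StmtsA

set_option autoImplicit false

/-!
# MP_5e5ff1_ag, block TH, item DEN: the common denominator
-/

open Matrix Filter Topology
open scoped Polynomial

namespace Pool.Agent.Work.MP_5e5ff1_ag.TH

namespace IDEN

/-- a denominator divisible by `p^T` kills a norm `≤ p^T` -/
theorem norm_mul_le_one {p : ℕ} [Fact p.Prime] {d T : ℕ} {x : ℚ} (hd : p ^ T ∣ d)
    (hx : padicNorm p x ≤ (p : ℚ) ^ T) : padicNorm p ((d : ℚ) * x) ≤ 1 := by
  have hp0 : (0 : ℚ) < p := by exact_mod_cast (Fact.out : p.Prime).pos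
  have h1 : padicNorm p (d : ℚ) ≤ (p : ℚ) ^ (-(T : ℤ)) := by
    have h2 : ((p ^ T : ℕ) : ℤ) ∣ (d : ℤ) := by exact_mod_cast hd
    have h3 := (padicNorm.dvd_iff_norm_le (p := p) (n := T) (z := (d : ℤ))).1 h2
    exact_mod_cast h3
  rw [padicNorm.mul]
  calc padicNorm p (d : ℚ) * padicNorm p x ≤ (p : ℚ) ^ (-(T : ℤ)) * (p : ℚ) ^ T :=
        mul_le_mul h1 hx (padicNorm.nonneg _) (zpow_nonneg hp0.le _)
    _ = 1 := by
        rw [_root_.zpow_neg, zpow_natCast]
        exact inv_mul_cancel₀ (pow_ne_zero _ hp0.ne')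

theorem LSJ_zero {p M B J N : ℕ} (h : M * N + B < p) : LSJ p M B J N = 0 := by
  unfold LSJ
  rw [Nat.log_of_lt h]
  rfl

theorem LGJ_zero {p M B J N : ℕ} (h : M * N + B + M < p) : LGJ p M B J N = 0 := by
  unfold LGJ
  have h1 : M * (N + p) + B < p ^ 2 := by
    have h3 : M + 1 ≤ p := by omega
    have h4 : (M + 1) * p ≤ p * p := Nat.mul_le_mul_right p h3
    nlinarith
  have h2 : Nat.log p (M * (N + p) + B) < 2 := by
    rcases Nat.eq_zero_or_pos (M * (N + p) + B) with h5 | h5
    · rw [h5, Nat.log_zero_right]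
      norm_num
    · exact Nat.log_lt_of_lt_pow h5.ne' h1
  rw [Finset.Icc_eq_empty (by omega)]
  rfl

theorem dvd_dJ {ι : Type} [Fintype ι] [DecidableEq ι] (M : ℕ) (hM : 0 < M) (β : ι → ℤ)
    (S : Set ℕ) (B J N p : ℕ) (hp : p.Prime) : p ^ ex M β S B J N p ∣ dJ M β S B J N := by
  by_cases h : p ≤ M * N + B + M
  · unfold dJ
    have hmem : p ∈ opr (M * N + B + M) :=
      Finset.mem_filter.2 ⟨Finset.mem_Icc.2 ⟨hp.two_le, h⟩, hp⟩
    exact Finset.dvd_prod_of_mem (fun p => p ^ ex M β S B J N p) hmem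
  · have h0 : ex M β S B J N p = 0 := by
      unfold ex
      have hnd : ¬ p ∣ M := fun hd => by
        have := Nat.le_of_dvd hM hd
        omega
      rw [if_neg hnd, LSJ_zero (by omega), LGJ_zero (by omega)]
      simp
    rw [h0, pow_zero]
    exact one_dvd _

end IDEN

open IDEN in
theorem pr_DEN (hMOD : StMOD) (hBAD : StBAD) (hGOD : StGOD) (hPOW : TG.StPOW) (hLIS : StLIS)
    (hITG : TG.StITG) : StDEN := by
  intro ι _ _ M β C S U hM hU hβ hpz B hB i j0 J N j hj k hk
  apply hITG
  intro p hp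
  have hp1 : 1 < p := hp.out.one_lt
  refine norm_mul_le_one (T := ex M β S B J N p) (dvd_dJ M hM β S B J N p hp.out) ?_
  by_cases hpM : p ∣ M
  · have he : ex M β S B J N p = M.factorization p * N + spc p M β * LSJ p M B J N := by
      unfold ex
      rw [if_pos hpM]
    rw [he]
    refine hPOW p (fun n => U n i j0)
      (fun n => M.factorization p * n + spc p M β * LS p M B n) J N _ ?_ ?_ j hj k hk
    · intro n
      exact hMOD p ι M β C U hM hU hβ B hB n i j0
    · intro l h1 h2
      have h3 : (l.map (fun n => M.factorization p * n + spc p M β * LS p M B n)).sum =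
          M.factorization p * l.sum + spc p M β * (l.map (fun n => LS p M B n)).sum := by
        rw [List.sum_map_add, List.sum_map_mul_left, List.sum_map_mul_left, List.map_id']
      rw [h3]
      exact Nat.add_le_add (Nat.mul_le_mul_left _ h2)
        (Nat.mul_le_mul_left _ (hLIS p M B J N hp1 l h1 h2).1)
  · by_cases hS : p ∈ S
    · have he : ex M β S B J N p = nd β * LSJ p M B J N := by
        unfold ex
        rw [if_neg hpM, if_pos hS]
      rw [he]
      refine hPOW p (fun n => U n i j0) (fun n => nd β * LS p M B n) J N _ ?_ ?_ j hj k hk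
      · intro n
        exact hBAD p ι M β C U hM hpM hU hβ B hB n i j0
      · intro l h1 h2
        rw [List.sum_map_mul_left]
        exact Nat.mul_le_mul_left _ (hLIS p M B J N hp1 l h1 h2).1
    · have he : ex M β S B J N p = nd β * LGJ p M B J N := by
        unfold ex
        rw [if_neg hpM, if_neg hS]
      rw [he]
      refine hPOW p (fun n => U n i j0) (fun n => nd β * LG p M B n) J N _ ?_ ?_ j hj k hk
      · intro n
        exact hGOD p ι M β C U hM hpM hU hβ (hpz p hp.out hpM hS) B hB n i j0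
      · intro l h1 h2
        rw [List.sum_map_mul_left]
        exact Nat.mul_le_mul_left _ (hLIS p M B J N hp1 l h1 h2).2

end Pool.Agent.Work.MP_5e5ff1_ag.TH
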