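import Mathlib
import Pool.Agent.Work.MP_5e5ff1_ag.TH.StmtsG
import Pool.Agent.Work.MP_5e5ff1_ag.TH.I_DEN

set_option autoImplicit false

/-!
# MP_5e5ff1_ag, block TH, item DNT: the common denominator with the exponents of `T`
-/

open Matrix Filter Topology
open scoped Polynomial

namespace Pool.Agent.Work.MP_5e5ff1_ag.TH

namespace IDNT

theorem list_real (a : ℕ) (κ : ℝ) (hκ : 0 ≤ κ) (l : List ℕ) :
    (((l.map (fun n : ℕ => a + ⌈κ * (n : ℝ)⌉₊)).sum : ℕ) : ℝ) ≤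
      (l.length : ℝ) * ((a : ℝ) + 1) + κ * ((l.sum : ℕ) : ℝ) := by
  induction l with
  | nil => simp
  | cons n l ih =>
    have h1 : ((⌈κ * (n : ℝ)⌉₊ : ℕ) : ℝ) < κ * (n : ℝ) + 1 :=
      Nat.ceil_lt_add_one (mul_nonneg hκ (Nat.cast_nonneg n))
    rw [List.map_cons, List.sum_cons, List.length_cons, List.sum_cons]
    generalize (l.map (fun n : ℕ => a + ⌈κ * (n : ℝ)⌉₊)).sum = s at ih ⊢
    generalize l.sum = t at ih ⊢
    push_cast
    nlinarith [ih, h1]

theorem list_nat (a : ℕ) (κ : ℝ) (hκ : 0 ≤ κ) (J N : ℕ) (l : List ℕ) (h1 : l.length ≤ J)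
    (h2 : l.sum ≤ N) :
    (l.map (fun n : ℕ => a + ⌈κ * (n : ℝ)⌉₊)).sum ≤ J * (a + 1) + ⌈κ * (N : ℝ)⌉₊ := by
  have h3 := list_real a κ hκ l
  have h4 : (l.length : ℝ) * ((a : ℝ) + 1) ≤ (J : ℝ) * ((a : ℝ) + 1) :=
    mul_le_mul_of_nonneg_right (by exact_mod_cast h1) (by positivity)
  have h5 : κ * ((l.sum : ℕ) : ℝ) ≤ κ * (N : ℝ) :=
    mul_le_mul_of_nonneg_left (by exact_mod_cast h2) hκ
  have h6 : κ * (N : ℝ) ≤ ((⌈κ * (N : ℝ)⌉₊ : ℕ) : ℝ) := Nat.le_ceil _
  generalize (l.map (fun n : ℕ => a + ⌈κ * (n : ℝ)⌉₊)).sum = s at h3 ⊢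
  have h7 : (s : ℝ) ≤ ((J * (a + 1) + ⌈κ * (N : ℝ)⌉₊ : ℕ) : ℝ) := by
    rw [Nat.cast_add, Nat.cast_mul, Nat.cast_add, Nat.cast_one]
    linarith
  exact Nat.cast_le.1 h7

open IDEN in
theorem dvd_dT {ι : Type} [Fintype ι] [DecidableEq ι] (M : ℕ) (β : ι → ℤ)
    (S : Set ℕ) (T : Finset ℕ) (κ : ℕ → ℝ) (a : ℕ → ℕ) (B J N p : ℕ) (hp : p.Prime) :
    p ^ exT M β S T κ a B J N p ∣ dT M β S T κ a B J N := by
  by_cases hT : p ∈ T
  · unfold dT
    exact Finset.dvd_prod_of_mem (fun p => p ^ exT M β S T κ a B J N p)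
      (Finset.mem_union_left _ hT)
  by_cases h : p ≤ M * N + B + M
  · unfold dT
    have hmem : p ∈ opr (M * N + B + M) :=
      Finset.mem_filter.2 ⟨Finset.mem_Icc.2 ⟨hp.two_le, h⟩, hp⟩
    exact Finset.dvd_prod_of_mem (fun p => p ^ exT M β S T κ a B J N p)
      (Finset.mem_union_right _ hmem)
  · have h0 : exT M β S T κ a B J N p = 0 := by
      unfold exT
      rw [if_neg hT, LSJ_zero (by omega), LGJ_zero (by omega)]
      simp
    rw [h0, pow_zero]
    exact one_dvd _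

end IDNT

open IDEN IDNT in
theorem pr_DNT (hBAD : StBAD) (hGOD : StGOD) (hPOW : TG.StPOW) (hLIS : StLIS)
    (hITG : TG.StITG) : StDNT := by
  intro ι _ _ M β C S T κ a U hM hU hβ hMT hpz hT B hB i j0 J N j hj k hk
  apply hITG
  intro p hp
  have hp1 : 1 < p := hp.out.one_lt
  refine norm_mul_le_one (T := exT M β S T κ a B J N p)
    (dvd_dT M β S T κ a B J N p hp.out) ?_
  by_cases hpT : p ∈ T
  · have he : exT M β S T κ a B J N p = J * (a p + 1) + ⌈κ p * (N : ℝ)⌉₊ := by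
      unfold exT
      rw [if_pos hpT]
    rw [he]
    refine hPOW p (fun n => U n i j0) (fun n : ℕ => a p + ⌈κ p * (n : ℝ)⌉₊) J N _ ?_ ?_ j hj k hk
    · intro n
      exact (hT p hpT).2 n i j0
    · intro l h1 h2
      exact list_nat (a p) (κ p) (hT p hpT).1 J N l h1 h2
  · have hpM : ¬ p ∣ M := fun h => hpT (hMT p hp.out h)
    by_cases hS : p ∈ S
    · have he : exT M β S T κ a B J N p = nd β * LSJ p M B J N := by
        unfold exT
        rw [if_neg hpT, if_pos hS]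
      rw [he]
      refine hPOW p (fun n => U n i j0) (fun n => nd β * LS p M B n) J N _ ?_ ?_ j hj k hk
      · intro n
        exact hBAD p ι M β C U hM hpM hU hβ B hB n i j0
      · intro l h1 h2
        rw [List.sum_map_mul_left]
        exact Nat.mul_le_mul_left _ (hLIS p M B J N hp1 l h1 h2).1
    · have he : exT M β S T κ a B J N p = nd β * LGJ p M B J N := by
        unfold exT
        rw [if_neg hpT, if_neg hS]
      rw [he]
      refine hPOW p (fun n => U n i j0) (fun n => nd β * LG p M B n) J N _ ?_ ?_ j hj k hk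
      · intro n
        exact hGOD p ι M β C U hM hpM hU hβ (hpz p hp.out hpM hS) B hB n i j0
      · intro l h1 h2
        rw [List.sum_map_mul_left]
        exact Nat.mul_le_mul_left _ (hLIS p M B J N hp1 l h1 h2).2

end Pool.Agent.Work.MP_5e5ff1_ag.TH
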