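import Mathlib
import Pool.Agent.Work.MP_5e5ff1_ag.TH.StmtsX

set_option autoImplicit false

/-!
# MP_5e5ff1_ag, block TH, item MDGR: the local estimate without hypotheses, resonance allowed
-/

open Matrix Filter Topology NumberField
open scoped Polynomial

namespace Pool.Agent.Work.MP_5e5ff1_ag.TH

namespace IMDGR

theorem LS_eq (p M B n : ℕ) : LS p M B n = LSJ p M B 1 n := rfl

/-- the bound for large `n` -/
theorem large (hGRM : StGRM) (M p B v s : ℕ) (hM : 0 < M) (hp : p.Prime) (κ : ℝ)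
    (hκ : (v : ℝ) + (s : ℝ) / ((p : ℝ) - 1) ≤ κ) (ε : ℝ) (hε : 0 < ε) :
    ∃ N0 : ℕ, ∀ n ≥ N0, v * n + s * LS p M B n ≤ ⌈(κ + ε) * n⌉₊ := by
  have hp1 : (1 : ℝ) < p := by exact_mod_cast hp.one_lt
  have hlog : 0 < Real.log p := Real.log_pos hp1
  have hs : (0 : ℝ) < (s : ℝ) + 1 := by positivity
  obtain ⟨N0, hN0⟩ := hGRM M p B 1 hM hp (ε * Real.log p / (s + 1)) (by positivity)
  refine ⟨N0, fun n hn => ?_⟩
  have h1 := hN0 n hn
  rw [← LS_eq] at h1
  have h2 : (LS p M B n : ℝ) ≤ n * (1 / ((p : ℝ) - 1)) + ε / (s + 1) * n := by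
    have h3 : (LS p M B n : ℝ) * Real.log p ≤
        (n * (1 / ((p : ℝ) - 1)) + ε / (s + 1) * n) * Real.log p := by
      refine h1.trans (le_of_eq ?_)
      ring
    exact le_of_mul_le_mul_right h3 hlog
  have h4 : (s : ℝ) * (ε / (s + 1)) ≤ ε := by
    rw [mul_div_assoc', div_le_iff₀ hs]
    nlinarith
  have hn0 : (0 : ℝ) ≤ n := Nat.cast_nonneg n
  have h5 : ((v * n + s * LS p M B n : ℕ) : ℝ) ≤ (κ + ε) * n := by
    push_cast
    have h6 : (s : ℝ) * LS p M B n ≤ s * (n * (1 / ((p : ℝ) - 1)) + ε / (s + 1) * n) :=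
      mul_le_mul_of_nonneg_left h2 (Nat.cast_nonneg s)
    have h7 : (s : ℝ) * (ε / (s + 1)) * n ≤ ε * n := mul_le_mul_of_nonneg_right h4 hn0
    have h8 : ((v : ℝ) + (s : ℝ) / ((p : ℝ) - 1)) * n ≤ κ * n :=
      mul_le_mul_of_nonneg_right hκ hn0
    have h9 : (s : ℝ) * (n * (1 / ((p : ℝ) - 1)) + ε / (s + 1) * n) =
        (s : ℝ) / ((p : ℝ) - 1) * n + (s : ℝ) * (ε / (s + 1)) * n := by ring
    rw [h9] at h6
    nlinarith
  have h10 : ((v * n + s * LS p M B n : ℕ) : ℝ) ≤ (⌈(κ + ε) * n⌉₊ : ℝ) := h5.trans (Nat.le_ceil _)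
  exact_mod_cast h10

variable {ι : Type} [Fintype ι] [DecidableEq ι]

omit [DecidableEq ι] in
/-- a common denominator of the first terms -/
theorem den (U : ℕ → Matrix ι ι ℚ) (B0 : ℕ) :
    ∃ d : ℕ, 0 < d ∧ ∀ k ≤ B0, ∀ i j, ∃ z : ℤ, (d : ℚ) * U k i j = z := by
  refine ⟨∏ k ∈ Finset.range (B0 + 1), ∏ i, ∏ j, (U k i j).den,
    Finset.prod_pos fun k _ => Finset.prod_pos fun i _ => Finset.prod_pos fun j _ =>
      (U k i j).den_pos, fun k hk i j => ?_⟩
  have h1 : (U k i j).den ∣ ∏ k ∈ Finset.range (B0 + 1), ∏ i, ∏ j, (U k i j).den := by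
    refine dvd_trans ?_ (Finset.dvd_prod_of_mem (fun k => ∏ i, ∏ j, (U k i j).den)
      (Finset.mem_range.2 (Nat.lt_succ_of_le hk)))
    refine dvd_trans ?_ (Finset.dvd_prod_of_mem (fun i => ∏ j, (U k i j).den)
      (Finset.mem_univ i))
    exact Finset.dvd_prod_of_mem (fun j => (U k i j).den) (Finset.mem_univ j)
  obtain ⟨c, hc⟩ := h1
  refine ⟨c * (U k i j).num, ?_⟩
  rw [hc]
  push_cast
  have h2 : (U k i j) * ((U k i j).den : ℚ) = (U k i j).num := Rat.mul_den_eq_num _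
  rw [← h2]
  ring

/-- the multiples of a solution `U` satisfy the equation of `W` -/
theorem isW (M : ℕ) (β : ι → ℤ) (C : Matrix ι ι ℤ) (U : ℕ → Matrix ι ι ℚ)
    (hU : IsU M β (qm C) U) (d : ℚ) : IsW M β (qm (db ℤ β)) (qm C) (fun n => d • U n) := by
  intro n i j
  have h1 := hU.eqn n i j
  have h2 : (qm (db ℤ β) * (d • U n)) i j = (β i : ℚ) * (d * U n i j) := by
    have h3 : qm (db ℤ β) = Matrix.diagonal (fun i => ((β i : ℤ) : ℚ)) := by
      ext a b
      by_cases hab : a = b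
      · subst hab; simp [db]
      · simp [db, hab]
    rw [h3, Matrix.diagonal_mul]
    simp
  have h4 : ∑ k ∈ Finset.range n, (qm C * (d • U k)) i j =
      d * ∑ k ∈ Finset.range n, (qm C * U k) i j := by
    rw [Finset.mul_sum]
    refine Finset.sum_congr rfl fun k _ => ?_
    rw [Matrix.mul_smul, Matrix.smul_apply, smul_eq_mul]
  show ((M : ℚ) * (n : ℚ) + (β j : ℚ)) * (d • U n) i j - (qm (db ℤ β) * (d • U n)) i j +
    ∑ k ∈ Finset.range n, (qm C * (d • U k)) i j = 0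
  rw [h2, h4, Matrix.smul_apply, smul_eq_mul]
  linear_combination d * h1

/-- norm of a positive integer -/
theorem norm_nat (p : ℕ) [Fact p.Prime] (d : ℕ) (hd : 0 < d) :
    (p : ℚ) ^ (padicValNat p d) * padicNorm p (d : ℚ) = 1 := by
  have hd0 : (d : ℚ) ≠ 0 := by exact_mod_cast hd.ne'
  have hp0 : (p : ℚ) ≠ 0 := by exact_mod_cast (Fact.out : p.Prime).ne_zero
  rw [padicNorm.eq_zpow_of_nonzero hd0, padicValRat.of_nat, _root_.zpow_neg, _root_.zpow_natCast]
  exact mul_inv_cancel₀ (pow_ne_zero _ hp0)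

end IMDGR

open IMDGR

theorem pr_MDGR (hMODN : StMODN) (hGRM : StGRM) : StMDGR := by
  intro p hpf ι _ _ M β C U hM hU κ hκ ε hε
  set B0 : ℕ := ∑ i, ∑ j, (β i - β j).natAbs with hB0
  have hBb : ∀ i j, |β i - β j| ≤ B0 := by
    intro i j
    have h1 : (β i - β j).natAbs ≤ B0 := by
      refine le_trans ?_ (Finset.single_le_sum
        (f := fun i => ∑ j, (β i - β j).natAbs) (fun _ _ => Nat.zero_le _) (Finset.mem_univ i))
      exact Finset.single_le_sum (f := fun j => (β i - β j).natAbs)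
        (fun _ _ => Nat.zero_le _) (Finset.mem_univ j)
    rw [Int.abs_eq_natAbs]
    exact_mod_cast h1
  obtain ⟨d, hd, hden⟩ := den U B0
  set B : ℕ := (M + 1) * B0 with hB
  have hW := hMODN p ι M β C (fun n => (d : ℚ) • U n) hM (isW M β C U hU d) B0 hBb
    (fun k hk i j => by
      obtain ⟨z, hz⟩ := hden k hk i j
      exact ⟨z, by rw [Matrix.smul_apply, smul_eq_mul, hz]⟩)
  obtain ⟨N0, hN0⟩ := large hGRM M p B (M.factorization p) (spc p M β) hM hpf.out κ hκ ε hε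
  have hp1 : (1 : ℚ) ≤ p := by exact_mod_cast hpf.out.one_lt.le
  have hp0 : (0 : ℚ) < p := lt_of_lt_of_le zero_lt_one hp1
  refine ⟨padicValNat p d +
    ∑ n ∈ Finset.range N0, (M.factorization p * n + spc p M β * LS p M B n),
    fun n i j => ?_⟩
  have h0 := hW n i j
  rw [Matrix.smul_apply, smul_eq_mul, padicNorm.mul] at h0
  have h1 : padicNorm p (U n i j) ≤ (p : ℚ) ^ (padicValNat p d) *
      (p : ℚ) ^ (M.factorization p * n + spc p M β * LS p M B n) := by
    calc padicNorm p (U n i j)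
        = (p : ℚ) ^ (padicValNat p d) * (padicNorm p (d : ℚ) * padicNorm p (U n i j)) := by
          rw [← mul_assoc, norm_nat p d hd, one_mul]
      _ ≤ _ := mul_le_mul_of_nonneg_left h0 (pow_nonneg hp0.le _)
  refine h1.trans ?_
  rw [← pow_add]
  refine pow_le_pow_right₀ hp1 ?_
  by_cases hn : n < N0
  · have h2 : M.factorization p * n + spc p M β * LS p M B n ≤
        ∑ n ∈ Finset.range N0, (M.factorization p * n + spc p M β * LS p M B n) :=
      Finset.single_le_sum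
        (f := fun n => M.factorization p * n + spc p M β * LS p M B n)
        (fun _ _ => Nat.zero_le _) (Finset.mem_range.2 hn)
    omega
  · have h2 := hN0 n (by omega)
    omega

end Pool.Agent.Work.MP_5e5ff1_ag.TH
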