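import Mathlib
import Pool.Agent.Work.MP_5e5ff1_ag.TH.StmtsX
import Pool.Agent.Work.MP_5e5ff1_ag.TH.I_DNT
import Pool.Agent.Work.MP_5e5ff1_ag.TH.I_MDGR

set_option autoImplicit false

/-!
# MP_5e5ff1_ag, block TH, item DNS: the common denominator, resonance allowed
-/

open Matrix Filter Topology
open scoped Polynomial

namespace Pool.Agent.Work.MP_5e5ff1_ag.TH

namespace IDNS

open IDEN in
theorem dvd_dS (M s : ℕ) (S : Set ℕ) (T : Finset ℕ) (κ : ℕ → ℝ) (a : ℕ → ℕ) (B J N p : ℕ)
    (hp : p.Prime) : p ^ exS M s S T κ a B J N p ∣ dS M s S T κ a B J N := by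
  by_cases hT : p ∈ T
  · unfold dS
    exact Finset.dvd_prod_of_mem (fun p => p ^ exS M s S T κ a B J N p)
      (Finset.mem_union_left _ hT)
  by_cases h : p ≤ M * N + B + M
  · unfold dS
    have hmem : p ∈ opr (M * N + B + M) :=
      Finset.mem_filter.2 ⟨Finset.mem_Icc.2 ⟨hp.two_le, h⟩, hp⟩
    exact Finset.dvd_prod_of_mem (fun p => p ^ exS M s S T κ a B J N p)
      (Finset.mem_union_right _ hmem)
  · have h0 : exS M s S T κ a B J N p = 0 := by
      unfold exS
      rw [if_neg hT, LSJ_zero (by omega), LGJ_zero (by omega)]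
      simp
    rw [h0, pow_zero]
    exact one_dvd _

/-- scaling a power series -/
theorem coeff_scale (d : ℚ) (a : ℕ → ℚ) (j k : ℕ) :
    PowerSeries.coeff k ((PowerSeries.mk fun n => d * a n) ^ j) =
      d ^ j * PowerSeries.coeff k ((PowerSeries.mk a) ^ j) := by
  have h1 : (PowerSeries.mk fun n => d * a n) = PowerSeries.C d * PowerSeries.mk a := by
    ext n
    simp
  rw [h1, mul_pow, ← map_pow, PowerSeries.coeff_C_mul]

theorem norm_pow_le (p : ℕ) [Fact p.Prime] (d m : ℕ) : padicNorm p ((d : ℚ) ^ m) ≤ 1 := by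
  have h := padicNorm.of_nat (p := p) (d ^ m)
  exact_mod_cast h

theorem pm_db' (p : ℕ) {ι : Type} [Fintype ι] [DecidableEq ι] (β : ι → ℤ) :
    pm p (db ℤ β) = db (ZMod p) β := by
  ext i j
  by_cases h : i = j
  · subst h
    simp [db, Matrix.map_apply]
  · simp [db, Matrix.map_apply, Matrix.diagonal_apply_ne _ h]

end IDNS

open IDEN IDNT IDNS in
theorem pr_DNS (hBAD : StBADN) (hGOD : StGODN) (hPOW : TG.StPOW) (hLIS : StLIS)
    (hITG : TG.StITG) : StDNS := by
  intro ι _ _ M β C S T κ a U hM hU hMT hpz hT B0 hB d hd hden i j0 J N j hj k hk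
  apply hITG
  intro p hp
  have hp1 : 1 < p := hp.out.one_lt
  have hcast : ((d ^ J * dS M (nc M β) S T κ a B0 J N : ℕ) : ℚ) *
      PowerSeries.coeff k ((PowerSeries.mk fun n => U n i j0) ^ j) =
      (d : ℚ) ^ (J - j) * (((dS M (nc M β) S T κ a B0 J N : ℕ) : ℚ) *
        PowerSeries.coeff k ((PowerSeries.mk fun n => (d : ℚ) * U n i j0) ^ j)) := by
    rw [coeff_scale (d : ℚ) (fun n => U n i j0) j k]
    have h1 : (d : ℚ) ^ J = (d : ℚ) ^ (J - j) * (d : ℚ) ^ j := by
      rw [← pow_add, Nat.sub_add_cancel hj]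
    push_cast
    rw [h1]
    ring
  by_cases hpT : p ∈ T
  · have h0 : ((d ^ J * dS M (nc M β) S T κ a B0 J N : ℕ) : ℚ) *
        PowerSeries.coeff k ((PowerSeries.mk fun n => U n i j0) ^ j) =
        (d : ℚ) ^ J * (((dS M (nc M β) S T κ a B0 J N : ℕ) : ℚ) *
          PowerSeries.coeff k ((PowerSeries.mk fun n => U n i j0) ^ j)) := by
      push_cast
      ring
    rw [h0, padicNorm.mul]
    refine mul_le_one₀ (norm_pow_le p d J) (padicNorm.nonneg _) ?_
    refine norm_mul_le_one (T := exS M (nc M β) S T κ a B0 J N p)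
      (dvd_dS M (nc M β) S T κ a B0 J N p hp.out) ?_
    have he : exS M (nc M β) S T κ a B0 J N p = J * (a p + 1) + ⌈κ p * (N : ℝ)⌉₊ := by
      unfold exS
      rw [if_pos hpT]
    rw [he]
    refine hPOW p (fun n => U n i j0) (fun n : ℕ => a p + ⌈κ p * (n : ℝ)⌉₊) J N _ ?_ ?_ j hj k hk
    · intro n
      exact (hT p hpT).2 n i j0
    · intro l h1 h2
      exact list_nat (a p) (κ p) (hT p hpT).1 J N l h1 h2
  · have hpM : ¬ p ∣ M := fun h => hpT (hMT p hp.out h)
    rw [hcast, padicNorm.mul]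
    refine mul_le_one₀ (norm_pow_le p d _) (padicNorm.nonneg _) ?_
    refine norm_mul_le_one (T := exS M (nc M β) S T κ a B0 J N p)
      (dvd_dS M (nc M β) S T κ a B0 J N p hp.out) ?_
    have hW : IsW M β (qm (db ℤ β)) (qm C) (fun n => (d : ℚ) • U n) :=
      IMDGR.isW M β C U hU (d : ℚ)
    have hdet : ((fun n => (d : ℚ) • U n) 0).det ≠ 0 := by
      show ((d : ℚ) • U 0).det ≠ 0
      rw [hU.zero, Matrix.det_smul, Matrix.det_one, mul_one]
      exact pow_ne_zero _ (by exact_mod_cast hd.ne')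
    have hint : ∀ k ≤ B0, ∀ i j, ∃ z : ℤ, (fun n => (d : ℚ) • U n) k i j = z := by
      intro k hk i j
      obtain ⟨z, hz⟩ := hden k hk i j
      exact ⟨z, by show ((d : ℚ) • U k) i j = z; rw [Matrix.smul_apply, smul_eq_mul, hz]⟩
    by_cases hS : p ∈ S
    · have he : exS M (nc M β) S T κ a B0 J N p = nc M β * LSJ p M B0 J N := by
        unfold exS
        rw [if_neg hpT, if_pos hS]
      rw [he]
      refine hPOW p (fun n => (d : ℚ) * U n i j0) (fun n => nc M β * LS p M B0 n) J N _ ?_ ?_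
        j hj k hk
      · intro n
        exact hBAD p ι M β (db ℤ β) C (fun n => (d : ℚ) • U n) hM hpM hW hdet B0 hB hint n i j0
      · intro l h1 h2
        rw [List.sum_map_mul_left]
        exact Nat.mul_le_mul_left _ (hLIS p M B0 J N hp1 l h1 h2).1
    · have he : exS M (nc M β) S T κ a B0 J N p = nc M β * LGJ p M B0 J N := by
        unfold exS
        rw [if_neg hpT, if_neg hS]
      rw [he]
      refine hPOW p (fun n => (d : ℚ) * U n i j0) (fun n => nc M β * LG p M B0 n) J N _ ?_ ?_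
        j hj k hk
      · intro n
        have hpzg : PZg M (db ℤ β) C p := by
          show Qm M (pm p (db ℤ β)) (pm p C) p = 0
          rw [pm_db']
          exact hpz p hp.out hpM hS
        exact hGOD p ι M β (db ℤ β) C (fun n => (d : ℚ) • U n) hM hpM hpzg hW hdet B0 hB hint
          n i j0
      · intro l h1 h2
        rw [List.sum_map_mul_left]
        exact Nat.mul_le_mul_left _ (hLIS p M B0 J N hp1 l h1 h2).2

end Pool.Agent.Work.MP_5e5ff1_ag.TH
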