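import Mathlib
import Pool.Agent.Work.MP_5e5ff1_ag.TH.StmtsE

set_option autoImplicit false

/-!
# MP_5e5ff1_ag, block TH, item DYA: the cost for powers of two.  Author helper78.
-/

open Matrix Filter Topology NumberField
open scoped Polynomial

namespace Pool.Agent.Work.MP_5e5ff1_ag.TH

namespace IDYA

theorem spc_le {ι : Type} [Fintype ι] [DecidableEq ι] (k : ℕ) (β : ι → ℤ)
    (hβ : ∀ i j, ((2 ^ k : ℕ) : ℤ) ∣ β i - β j → β i = β j) : spc 2 (2 ^ k) β ≤ 1 := by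
  unfold spc
  refine Finset.sup_le fun i _ => ?_
  have hf : (2 ^ k).factorization 2 = k := by
    rw [Nat.Prime.factorization_pow Nat.prime_two, Finsupp.single_eq_same]
  rw [hf]
  refine Finset.card_le_one.2 fun a ha b hb => ?_
  rw [Finset.mem_filter, Finset.mem_image] at ha hb
  obtain ⟨⟨x, -, hx⟩, h1⟩ := ha
  obtain ⟨⟨y, -, hy⟩, h2⟩ := hb
  rw [← hx] at h1 ⊢
  rw [← hy] at h2 ⊢
  have e : ((2 ^ k : ℕ) : ℤ) = ((2 : ℕ) : ℤ) ^ k := by push_cast; rfl
  rw [← e] at h1 h2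
  rw [hβ x i h1, hβ y i h2]

theorem term_nonneg (p : ℕ) (hp : p.Prime) : 0 ≤ Real.log p / ((p : ℝ) * (p - 1)) := by
  have h1 : (1 : ℝ) ≤ p := by exact_mod_cast hp.one_le
  have h2 : 0 ≤ Real.log p := Real.log_nonneg h1
  have h3 : (0 : ℝ) ≤ (p : ℝ) * (p - 1) := mul_nonneg (by linarith) (by linarith)
  exact div_nonneg h2 h3

end IDYA

open IDYA Classical in
theorem pr_DYA (hK : TG.StKAP) : StDYA := by
  intro ι _ _ k s β S σ hk hβ hnd hS F hF
  have hpf : (2 ^ k).primeFactors = {2} := Nat.primeFactors_prime_pow (by omega) Nat.prime_two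
  have hf : (2 ^ k).factorization 2 = k := by
    rw [Nat.Prime.factorization_pow Nat.prime_two, Finsupp.single_eq_same]
  have hlog2 : 0 ≤ Real.log 2 := Real.log_nonneg (by norm_num)
  rw [hpf, Finset.sum_singleton, hf]
  have h1 : ((k : ℝ) + (spc 2 (2 ^ k) β : ℝ) / (((2 : ℕ) : ℝ) - 1)) * Real.log ((2 : ℕ) : ℝ) ≤
      ((k : ℝ) + 1) * Real.log 2 := by
    have h2 : (spc 2 (2 ^ k) β : ℝ) ≤ 1 := by exact_mod_cast spc_le k β hβ
    have h3 : (((2 : ℕ) : ℝ) - 1) = 1 := by norm_num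
    rw [h3, div_one]
    have h4 : Real.log ((2 : ℕ) : ℝ) = Real.log 2 := by norm_num
    rw [h4]
    exact mul_le_mul_of_nonneg_right (by linarith) hlog2
  -- the sum over `F`
  have hsplit : ∑ p ∈ F, (1 / ((p : ℝ) * (p - 1)) + if p ∈ S then 1 / (p : ℝ) else 0) *
      Real.log p = ∑ p ∈ F, Real.log p / ((p : ℝ) * (p - 1)) +
        ∑ p ∈ F with p ∈ S, Real.log p / (p : ℝ) := by
    rw [Finset.sum_filter, ← Finset.sum_add_distrib]
    refine Finset.sum_congr rfl fun p _ => ?_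
    split_ifs
    · ring
    · ring
  have hA : ∑ p ∈ F, Real.log p / ((p : ℝ) * (p - 1)) ≤ 4145 / 10000 := by
    refine le_trans (Finset.sum_le_sum_of_subset_of_nonneg ?_ ?_) (hK (F.sup id))
    · intro p hp
      obtain ⟨hpp, hpn⟩ := hF p hp
      unfold TG.opr
      rw [Finset.mem_filter, Finset.mem_Icc]
      refine ⟨⟨?_, Finset.le_sup (f := id) hp⟩, hpp⟩
      have h2 := hpp.two_le
      have h3 : p ≠ 2 := by
        rintro rfl
        exact hpn (dvd_pow_self 2 (by omega))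
      omega
    · intro p hp _
      unfold TG.opr at hp
      rw [Finset.mem_filter] at hp
      exact term_nonneg p hp.2
  have hB : ∑ p ∈ F with p ∈ S, Real.log p / (p : ℝ) ≤ σ := by
    refine hS _ fun p hp => ?_
    rw [Finset.mem_filter] at hp
    exact ⟨(hF p hp.1).1, hp.2⟩
  have hA0 : 0 ≤ ∑ p ∈ F, Real.log p / ((p : ℝ) * (p - 1)) :=
    Finset.sum_nonneg fun p hp => term_nonneg p (hF p hp).1
  have hB0 : 0 ≤ ∑ p ∈ F with p ∈ S, Real.log p / (p : ℝ) :=
    Finset.sum_nonneg fun p hp => by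
      rw [Finset.mem_filter] at hp
      have h1 : (1 : ℝ) ≤ p := by exact_mod_cast (hF p hp.1).1.one_le
      exact div_nonneg (Real.log_nonneg h1) (by linarith)
  have hnd' : (nd β : ℝ) ≤ s := by exact_mod_cast hnd
  have hnd0 : (0 : ℝ) ≤ nd β := Nat.cast_nonneg _
  have h5 : (nd β : ℝ) * (∑ p ∈ F, Real.log p / ((p : ℝ) * (p - 1)) +
      ∑ p ∈ F with p ∈ S, Real.log p / (p : ℝ)) ≤ s * (4145 / 10000 + σ) :=
    mul_le_mul hnd' (by linarith) (by linarith) (hnd0.trans hnd')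
  rw [← hsplit] at h5
  exact add_le_add h1 h5

end Pool.Agent.Work.MP_5e5ff1_ag.TH
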