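import Mathlib
import Pool.Agent.Work.MP_5e5ff1_ag.TH.StmtsB

set_option autoImplicit false

/-!
# MP_5e5ff1_ag, block TH, item END2
-/

open Filter Topology
open scoped Polynomial

namespace Pool.Agent.Work.MP_5e5ff1_ag.TH

theorem pr_END2 (hE : TG.StEnd) : StEND2 := by
  intro m s g A hm hs hg hsg hA
  have hlg : 0 < Real.log g := lt_of_le_of_lt hs hsg
  have hlog : Real.log (Real.exp (Real.log g / 4)) = Real.log g / 4 := Real.log_exp _
  obtain ⟨η, ρ1, hη, hρ1, hρ1', H⟩ := hE s (Real.exp (Real.log g / 4)) A hs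
    (Real.one_lt_exp_iff.2 (by positivity)) (by rw [hlog]; linarith) hA
  have hm' : (0 : ℝ) < (m : ℝ) := by exact_mod_cast hm
  have hρm : (ρ1 ^ (4 / (m : ℝ))) ^ m = ρ1 ^ 4 := by
    rw [← Real.rpow_natCast, ← Real.rpow_mul hρ1.le, div_mul_cancel₀ _ hm'.ne']
    norm_cast
  have hg4 : Real.exp (Real.log g / 4) ^ 4 = g := by
    rw [← Real.exp_nat_mul]
    push_cast
    rw [show (4 : ℝ) * (Real.log g / 4) = Real.log g by ring, Real.exp_log hg]
  refine ⟨η, ρ1 ^ (4 / (m : ℝ)), hη, Real.rpow_pos_of_pos hρ1 _,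
    Real.rpow_lt_one hρ1.le hρ1' (by positivity), ?_⟩
  intro C hC
  obtain ⟨L, J, hL, hJ, T1, H1⟩ := H C hC
  refine ⟨L, J, hL, hJ, T1, ?_⟩
  intro T hT T' hT'
  have h := H1 T hT T' hT'
  have e : (g * (ρ1 ^ (4 / (m : ℝ))) ^ m) ^ T' =
      (Real.exp (Real.log g / 4) * ρ1) ^ (4 * T') := by
    rw [hρm, pow_mul, mul_pow (Real.exp (Real.log g / 4)) ρ1, hg4]
  rw [e]
  exact h

end Pool.Agent.Work.MP_5e5ff1_ag.TH
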