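import Mathlib
import Pool.Agent.Work.MP_5e5ff1_ag.TH.StmtsD

/-!
# MP_5e5ff1_ag, block TH, item EXT: the extension step (helper35, after TG/I_EXT of helper79)
-/

set_option autoImplicit false

open Matrix Filter Topology
open scoped Polynomial

namespace Pool.Agent.Work.MP_5e5ff1_ag.TH

namespace IEXT

variable {ι : Type} [Fintype ι] [DecidableEq ι]

theorem L1_def {R : Type} [CommRing R] (M : ℕ) (A : ℕ → Matrix ι ι R) (lam : ℤ) (w : ℕ → ι → R)
    (m : ℕ) (i : ι) : L1 M A lam w m i = (M : R) * (m : R) * w m i +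
      ∑ k ∈ Finset.range (m + 1), (A (m - k) *ᵥ w k) i - (lam : R) * w m i := rfl

theorem L1_congr {R : Type} [CommRing R] (M : ℕ) (A : ℕ → Matrix ι ι R) (lam : ℤ)
    (w w' : ℕ → ι → R) (m : ℕ) (i : ι) (h : ∀ k ≤ m, w k = w' k) :
    L1 M A lam w m i = L1 M A lam w' m i := by
  rw [L1_def, L1_def, h m le_rfl]
  congr 2
  exact Finset.sum_congr rfl fun k hk => by rw [h k (Nat.lt_succ_iff.1 (Finset.mem_range.1 hk))]

theorem L1_upd {R : Type} [CommRing R] (M : ℕ) (A : ℕ → Matrix ι ι R) (lam : ℤ) (g : ℕ → ι → R)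
    (n : ℕ) (h : ι → R) (i : ι) : L1 M A lam (Function.update g n h) n i =
      L1 M A lam (Function.update g n 0) n i +
        ((M : R) * (n : R) * h i + (A 0 *ᵥ h) i - (lam : R) * h i) := by
  rw [L1_def, L1_def, Finset.sum_range_succ, Finset.sum_range_succ]
  have h1 : ∀ h' : ι → R, ∑ k ∈ Finset.range n, (A (n - k) *ᵥ Function.update g n h' k) i =
      ∑ k ∈ Finset.range n, (A (n - k) *ᵥ g k) i := by
    intro h'
    refine Finset.sum_congr rfl fun k hk => ?_
    rw [Function.update_of_ne (Finset.mem_range.1 hk).ne]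
  rw [h1 h, h1 0, Function.update_self, Function.update_self, Nat.sub_self, Matrix.mulVec_zero,
    Pi.zero_apply]
  ring

theorem L1_low {R : Type} [CommRing R] (M : ℕ) (A : ℕ → Matrix ι ι R) (lam : ℤ) (w : ℕ → ι → R)
    (n : ℕ) (i : ι) (h : ∀ k < n, w k = 0) : L1 M A lam w n i =
      (M : R) * (n : R) * w n i + (A 0 *ᵥ w n) i - (lam : R) * w n i := by
  rw [L1_def, Finset.sum_range_succ, Finset.sum_eq_zero, zero_add, Nat.sub_self]
  intro k hk
  rw [h k (Finset.mem_range.1 hk), Matrix.mulVec_zero, Pi.zero_apply]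

/-- Splitting in the eigenbasis. -/
theorem split (C V : Matrix ι ι ℚ) (d : ι → ℚ) (hV : V.det ≠ 0)
    (hCV : C * V = V * Matrix.diagonal d) (a : ℚ) (r : ι → ℚ) :
    ∃ r' y : ι → ℚ, (∀ i, a * r' i + (C *ᵥ r') i = 0) ∧
      ∀ i, r i - (a * y i + (C *ᵥ y) i) = r' i := by
  have hu : IsUnit V.det := isUnit_iff_ne_zero.2 hV
  have key : ∀ s : ι → ℚ, ∀ i, a * (V *ᵥ s) i + (C *ᵥ (V *ᵥ s)) i =
      (V *ᵥ fun j => (a + d j) * s j) i := by
    intro s i
    have h1 : (fun j => (a + d j) * s j) = a • s + (Matrix.diagonal d) *ᵥ s := by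
      funext j
      rw [Pi.add_apply, Pi.smul_apply, Matrix.mulVec_diagonal, smul_eq_mul]
      ring
    rw [h1, Matrix.mulVec_add, Matrix.mulVec_smul, Matrix.mulVec_mulVec, Matrix.mulVec_mulVec,
      hCV]
    rfl
  have hr : V *ᵥ (V⁻¹ *ᵥ r) = r := by
    rw [Matrix.mulVec_mulVec, Matrix.mul_nonsing_inv V hu, Matrix.one_mulVec]
  refine ⟨V *ᵥ fun j => if a + d j = 0 then (V⁻¹ *ᵥ r) j else 0,
    V *ᵥ fun j => if a + d j = 0 then 0 else (V⁻¹ *ᵥ r) j / (a + d j),
    fun i => ?_, fun i => ?_⟩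
  · rw [key]
    have h1 : (fun j => (a + d j) * (if a + d j = 0 then (V⁻¹ *ᵥ r) j else 0)) = 0 := by
      funext j
      by_cases h : a + d j = 0
      · rw [h, zero_mul, Pi.zero_apply]
      · rw [if_neg h, mul_zero, Pi.zero_apply]
    rw [h1, Matrix.mulVec_zero, Pi.zero_apply]
  · rw [key]
    have h1 : r i = (V *ᵥ (V⁻¹ *ᵥ r)) i := by rw [hr]
    rw [h1, ← Pi.sub_apply, ← Matrix.mulVec_sub]
    congr 2
    funext j
    rw [Pi.sub_apply]
    by_cases h : a + d j = 0
    · rw [if_pos h, if_pos h, mul_zero, sub_zero]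
    · rw [if_neg h, if_neg h, mul_div_cancel₀ _ h, sub_self]

end IEXT

open IEXT in
/-- Item EXT. -/
theorem pr_EXT (h1 : StSEM) : StEXT := by
  intro ι _ _ M A hF γ V hV hCV g lam n hg
  obtain ⟨r', y, hr', hy⟩ := split (qm (A 0)) V (fun j => ((γ j : ℤ) : ℚ)) hV hCV
    ((M : ℚ) * (n : ℚ) - (lam : ℚ))
    (fun i => L1 M (fun m => qm (A m)) lam (Function.update g n 0) n i)
  refine ⟨-y, h1 ι M A hF _ lam n ?_⟩
  have hlow : ∀ m < n, L1 M (fun m => qm (A m)) lam (Function.update g n (-y)) m = 0 := by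
    intro m hm
    funext i
    rw [L1_congr M (fun m => qm (A m)) lam (Function.update g n (-y)) g m i
      (fun k hk => Function.update_of_ne (by omega) _ _), hg m hm i, Pi.zero_apply]
  have hn : L1 M (fun m => qm (A m)) lam (Function.update g n (-y)) n = r' := by
    funext i
    rw [L1_upd, ← hy i, Matrix.mulVec_neg, Pi.neg_apply, Pi.neg_apply]
    ring
  intro m hm i
  rw [L1_low _ _ _ _ m i fun k hk => hlow k (by omega)]
  rcases hm.lt_or_eq with h | rfl
  · rw [hlow m h, Matrix.mulVec_zero, Pi.zero_apply]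
    ring
  · rw [hn]
    have := hr' i
    linear_combination this

end Pool.Agent.Work.MP_5e5ff1_ag.TH
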