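import Mathlib
import Pool.Agent.Work.MP_5e5ff1_ag.TH.StmtsY

set_option autoImplicit false

/-!
# MP_5e5ff1_ag, block TH, item EXU: existence of the formal solution for a diagonal residue
-/

open Matrix Filter Topology NumberField
open scoped Polynomial

namespace Pool.Agent.Work.MP_5e5ff1_ag.TH

namespace IEXU

/-- the coefficients at 0 reduce modulo `p` to the coefficients at 0 -/
theorem A0_map {ι : Type} [Fintype ι] [DecidableEq ι] (p : ℕ) (β : ι → ℤ) (C : Matrix ι ι ℤ)
    (m : ℕ) : (A0 β C m).map (Int.castRingHom (ZMod p)) = A0 β (pm p C) m := by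
  unfold A0
  split_ifs
  · ext i j
    by_cases hij : i = j
    · subst hij
      simp [db]
    · simp [db, Matrix.diagonal_apply_ne _ hij]
  · rfl

end IEXU

theorem pr_EXU (hU : StUEXR) (hR : StRSP) (hP : StPC012) : StEXU := by
  intro K _ _ r M β c S hM hbig hrad hpc
  refine hU K r M β c hM fun N => ?_
  obtain ⟨p, hNp, hp, hpM, hpS⟩ := hbig N
  have hfact : Fact p.Prime := ⟨hp⟩
  refine ⟨p, hNp, hp, ?_⟩
  have hPZ := hR K r M β c p hp (hrad p hp hpM hpS) (fun P hPm hchar =>
    hpc P hPm (by rw [hchar]; exact hpM) (by rw [hchar]; exact hpS))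
  have h1 := (hP p (Fin r × Fin (Module.finrank ℤ (𝓞 K))) M (fun x => β x.1) (TG.rs K c)
    hpM hPZ).1
  have hA : (fun m => pm p (A0 (fun x : Fin r × Fin (Module.finrank ℤ (𝓞 K)) => β x.1)
      (TG.rs K c) m)) = A0 (fun x => β x.1) (pm p (TG.rs K c)) :=
    funext fun m => IEXU.A0_map p _ _ m
  rw [hA]
  exact h1

end Pool.Agent.Work.MP_5e5ff1_ag.TH
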