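import Mathlib
import Pool.Agent.Work.MP_5e5ff1_ag.TH.StmtsE

set_option autoImplicit false

/-!
# MP_5e5ff1_ag, block TH, item FAM: the families
-/

open Matrix Filter Topology NumberField
open scoped Polynomial

namespace Pool.Agent.Work.MP_5e5ff1_ag.TH

namespace IFAM

theorem gen (hFIN : StFIN) (K : Type) [Field K] [NumberField K] (σ : K →+* ℂ)
    (r M n1 n2 : ℕ) (R L σ₀ : ℝ) (β γ ζ : Fin r → ℤ) (b c : Matrix (Fin r) (Fin r) (𝓞 K))
    (S : Set ℕ) (hM : 0 < M) (hT : Typ n1 n2 R) (hL : L < Real.log R)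
    (hβ : ∀ i j, (M : ℤ) ∣ β i - β j → β i = β j)
    (hb : b = Matrix.diagonal (fun i => ((β i : ℤ) : 𝓞 K)))
    (h1 : c.charpoly = ∏ j, (Polynomial.X - Polynomial.C ((γ j : ℤ) : 𝓞 K)))
    (h1' : n1 ≠ 0 → ∀ j, (M : ℤ) ∣ n1 * γ j)
    (h2 : (b + c).charpoly = ∏ j, (Polynomial.X - Polynomial.C ((ζ j : ℤ) : 𝓞 K)))
    (h2' : n2 ≠ 0 → ∀ j, (M : ℤ) ∣ n2 * ζ j) (hc : Cost M β S L)
    (hh : Hyp K r M b c S σ₀) : Alg K σ r M b c := by
  intro B D hB hD
  exact hFIN K σ r M n1 n2 R L β γ ζ b c S hM hT hL hβ hb (fun h => ⟨h1, h1' h⟩)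
    (fun h => ⟨h2, h2' h⟩) hc hh.2.1 hh.2.2 B D hB hD

theorem dvd_mul' {a b d x : ℤ} (h : d ∣ x) (hab : a = b * d) : a ∣ b * x := by
  rw [hab]
  exact mul_dvd_mul_left b h

end IFAM

theorem pr_FAM (hFIN : StFIN) (hDYA : StDYA) (hC12 : StC12) (hNUM : StNUM5) : StFAM := by
  intro K _ _ σ r β γ ζ b c S hb h1 h2
  obtain ⟨n1, n2, n3, n4, n5⟩ := hNUM
  refine ⟨?_, ?_, ?_, ?_, ?_⟩
  · intro hβ hnd hh
    have hc := hDYA (Fin r) 2 3 β S (1 / 22) (by norm_num) (fun i j h => hβ i j (by simpa using h))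
      hnd hh.1
    have e : (2 : ℕ) ^ 2 = 4 := by norm_num
    rw [e] at hc
    refine IFAM.gen hFIN K σ r 4 4 4 32 _ (1 / 22) β γ ζ b c S (by norm_num)
      (Or.inl ⟨rfl, rfl, rfl⟩) ?_ (fun i j h => hβ i j (by exact_mod_cast h)) hb h1 ?_ h2 ?_ hc hh
    · push_cast
      exact n1
    · intro _ j
      exact dvd_mul_right _ _
    · intro _ j
      exact dvd_mul_right _ _
  · intro hβ hnd hg hz hh
    have hc := hDYA (Fin r) 3 6 β S (1 / 22) (by norm_num) (fun i j h => hβ i j (by simpa using h))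
      hnd hh.1
    have e : (2 : ℕ) ^ 3 = 8 := by norm_num
    rw [e] at hc
    refine IFAM.gen hFIN K σ r 8 2 4 256 _ (1 / 22) β γ ζ b c S (by norm_num)
      (Or.inr (Or.inl ⟨rfl, rfl, rfl⟩)) ?_ (fun i j h => hβ i j (by exact_mod_cast h)) hb h1 ?_ h2
      ?_ hc hh
    · push_cast
      exact n2
    · intro _ j
      exact IFAM.dvd_mul' (hg j) (by norm_num)
    · intro _ j
      exact IFAM.dvd_mul' (hz j) (by norm_num)
  · intro hβ hnd hg hz hh
    have hc := hDYA (Fin r) 4 5 β S (1 / 1000) (by norm_num)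
      (fun i j h => hβ i j (by simpa using h)) hnd hh.1
    have e : (2 : ℕ) ^ 4 = 16 := by norm_num
    rw [e] at hc
    refine IFAM.gen hFIN K σ r 16 2 4 256 _ (1 / 1000) β γ ζ b c S (by norm_num)
      (Or.inr (Or.inl ⟨rfl, rfl, rfl⟩)) ?_ (fun i j h => hβ i j (by exact_mod_cast h)) hb h1 ?_ h2
      ?_ hc hh
    · push_cast
      exact n3
    · intro _ j
      exact IFAM.dvd_mul' (hg j) (by norm_num)
    · intro _ j
      exact IFAM.dvd_mul' (hz j) (by norm_num)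
  · intro hβ hnd hg hh
    have hc := hDYA (Fin r) 3 3 β S (1 / 22) (by norm_num) (fun i j h => hβ i j (by simpa using h))
      hnd hh.1
    have e : (2 : ℕ) ^ 3 = 8 := by norm_num
    rw [e] at hc
    refine IFAM.gen hFIN K σ r 8 2 0 64 _ (1 / 22) β γ ζ b c S (by norm_num)
      (Or.inr (Or.inr (Or.inr (Or.inl ⟨rfl, rfl, rfl⟩)))) ?_
      (fun i j h => hβ i j (by exact_mod_cast h)) hb h1 ?_ h2 (fun h => absurd rfl h) hc hh
    · push_cast
      exact n4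
    · intro _ j
      exact IFAM.dvd_mul' (hg j) (by norm_num)
  · intro hβ hnd hs2 hs3 hg hz hh
    have hc := hC12 (Fin r) β S (1 / 200) hnd hs2 hs3 hh.1
    refine IFAM.gen hFIN K σ r 12 2 3 1728 _ (1 / 200) β γ ζ b c S (by norm_num)
      (Or.inr (Or.inr (Or.inr (Or.inr (Or.inr (Or.inl ⟨rfl, rfl, rfl⟩)))))) n5
      (fun i j h => hβ i j (by exact_mod_cast h)) hb h1 ?_ h2 ?_ hc hh
    · intro _ j
      exact IFAM.dvd_mul' (hg j) (by norm_num)
    · intro _ j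
      exact IFAM.dvd_mul' (hz j) (by norm_num)

end Pool.Agent.Work.MP_5e5ff1_ag.TH
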