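import Mathlib
import Pool.Agent.Work.MP_5e5ff1_ag.TH.StmtsK

set_option autoImplicit false

/-!
# MP_5e5ff1_ag, block TH, item FAM2: the families
-/

open Matrix Filter Topology NumberField
open scoped Polynomial

namespace Pool.Agent.Work.MP_5e5ff1_ag.TH

namespace IFAM2

theorem gen (hFIN : StFIN2) (K : Type) [Field K] [NumberField K] (σ : K →+* ℂ)
    (r M n1 n2 : ℕ) (R L σ₀ : ℝ) (β : Fin r → ℤ) (b c : Matrix (Fin r) (Fin r) (𝓞 K))
    (S : Set ℕ) (hM : 0 < M) (hT : Typ n1 n2 R) (hL : L < Real.log R)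
    (hβ : ∀ i j, (M : ℤ) ∣ β i - β j → β i = β j)
    (hb : b = Matrix.diagonal (fun i => ((β i : ℤ) : 𝓞 K)))
    (h1 : Ord K r M n1 c) (h2 : Ord K r M n2 (b + c)) (hc : Cost M β S L)
    (hh : Hyp K r M b c S σ₀) : Alg K σ r M b c := by
  intro B D hB hD
  exact hFIN K σ r M n1 n2 R L β b c S hM hT hL hβ hb h1 h2 hc hh.2.1 hh.2.2 B D hB hD

theorem ord_self (K : Type) [Field K] [NumberField K] (r M : ℕ)
    (c : Matrix (Fin r) (Fin r) (𝓞 K)) : Ord K r M M c := fun _ _ => dvd_mul_right _ _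

theorem ord_zero (K : Type) [Field K] [NumberField K] (r M : ℕ)
    (c : Matrix (Fin r) (Fin r) (𝓞 K)) : Ord K r M 0 c := fun γ _ => by
  rw [Nat.cast_zero, zero_mul]
  exact dvd_zero _

end IFAM2

theorem pr_FAM2 (hFIN : StFIN2) (hDYA : StDYA) (hC72 : StC72) (hNUM : StNUM5) : StFAM2 := by
  intro K _ _ σ r β b c S hb
  obtain ⟨n1, n2, n3, n4, n5⟩ := hNUM
  refine ⟨?_, ?_, ?_, ?_, ?_⟩
  · intro hβ hnd hh
    have hc := hDYA (Fin r) 2 3 β S (1 / 22) (by norm_num) (fun i j h => hβ i j (by simpa using h))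
      hnd hh.1
    have e : (2 : ℕ) ^ 2 = 4 := by norm_num
    rw [e] at hc
    refine IFAM2.gen hFIN K σ r 4 4 4 32 _ (1 / 22) β b c S (by norm_num)
      (Or.inl ⟨rfl, rfl, rfl⟩) ?_ (fun i j h => hβ i j (by exact_mod_cast h)) hb
      (IFAM2.ord_self K r 4 c) (IFAM2.ord_self K r 4 (b + c)) hc hh
    push_cast
    exact n1
  · intro hβ hnd hg hz hh
    have hc := hDYA (Fin r) 3 6 β S (1 / 22) (by norm_num) (fun i j h => hβ i j (by simpa using h))
      hnd hh.1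
    have e : (2 : ℕ) ^ 3 = 8 := by norm_num
    rw [e] at hc
    refine IFAM2.gen hFIN K σ r 8 2 4 256 _ (1 / 22) β b c S (by norm_num)
      (Or.inr (Or.inl ⟨rfl, rfl, rfl⟩)) ?_ (fun i j h => hβ i j (by exact_mod_cast h)) hb hg hz
      hc hh
    push_cast
    exact n2
  · intro hβ hnd hg hz hh
    have hc := hDYA (Fin r) 4 5 β S (1 / 1000) (by norm_num)
      (fun i j h => hβ i j (by simpa using h)) hnd hh.1
    have e : (2 : ℕ) ^ 4 = 16 := by norm_num
    rw [e] at hc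
    refine IFAM2.gen hFIN K σ r 16 2 4 256 _ (1 / 1000) β b c S (by norm_num)
      (Or.inr (Or.inl ⟨rfl, rfl, rfl⟩)) ?_ (fun i j h => hβ i j (by exact_mod_cast h)) hb hg hz
      hc hh
    push_cast
    exact n3
  · intro hβ hnd hg hh
    have hc := hDYA (Fin r) 3 3 β S (1 / 22) (by norm_num) (fun i j h => hβ i j (by simpa using h))
      hnd hh.1
    have e : (2 : ℕ) ^ 3 = 8 := by norm_num
    rw [e] at hc
    refine IFAM2.gen hFIN K σ r 8 2 0 64 _ (1 / 22) β b c S (by norm_num)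
      (Or.inr (Or.inr (Or.inr (Or.inl ⟨rfl, rfl, rfl⟩)))) ?_
      (fun i j h => hβ i j (by exact_mod_cast h)) hb hg (IFAM2.ord_zero K r 8 (b + c)) hc hh
    push_cast
    exact n4
  · intro M hM hβ hnd hs2 hs3 hg hz hh
    have hc := hC72 (Fin r) M β S (1 / 200) hM hnd hs2 hs3 hh.1
    exact IFAM2.gen hFIN K σ r M 2 3 1728 _ (1 / 200) β b c S (by omega)
      (Or.inr (Or.inr (Or.inr (Or.inr (Or.inr (Or.inl ⟨rfl, rfl, rfl⟩)))))) n5
      hβ hb hg hz hc hh

end Pool.Agent.Work.MP_5e5ff1_ag.TH
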