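import Mathlib
import Pool.Agent.Work.MP_5e5ff1_ag.TH.StmtsE

set_option autoImplicit false

/-!
# MP_5e5ff1_ag, block TH, item FIN: the general theorem from its parts
-/

open Matrix Filter Topology NumberField
open scoped Polynomial

namespace Pool.Agent.Work.MP_5e5ff1_ag.TH

theorem pr_FIN (hUEX : StUEX) (hMZ : StMZ) (hRSC : StRSC) (hRSD : StRSD) (hRSP : StRSP)
    (hRSL : StRSL) (hALG : StALG) (hCOSR : StCOSR) : StFIN := by
  intro K _ _ σ r M n1 n2 R L β γ ζ b c S hM hTyp hL hβ hb h1 h2 hcost hrad hP B D hB hD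
  have hβ' : ∀ i j : Fin r × Fin (Module.finrank ℤ (𝓞 K)),
      (M : ℤ) ∣ (fun x : Fin r × Fin (Module.finrank ℤ (𝓞 K)) => β x.1) i -
        (fun x : Fin r × Fin (Module.finrank ℤ (𝓞 K)) => β x.1) j →
      (fun x : Fin r × Fin (Module.finrank ℤ (𝓞 K)) => β x.1) i =
        (fun x : Fin r × Fin (Module.finrank ℤ (𝓞 K)) => β x.1) j :=
    fun i j h => hβ i.1 j.1 h
  have hSys : Sys M n1 n2 (fun x : Fin r × Fin (Module.finrank ℤ (𝓞 K)) => β x.1)
      (TG.rs K c) S L := by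
    refine ⟨hM, hβ', fun hn => ⟨r, γ, (h1 hn).2, hRSC K r c γ (h1 hn).1⟩,
      fun hn => ⟨r, ζ, (h2 hn).2, ?_⟩, hCOSR K r M β S L hcost, fun p hp hpM hpS => ?_⟩
    · rw [← hRSD K r β c, ← hb]
      exact hRSC K r (b + c) ζ (h2 hn).1
    · refine hRSP K r M β c p hp (hrad p hp hpM hpS) fun P hPm hchar => ?_
      rw [← hb]
      exact hP P hPm (by rw [hchar]; exact hpM) (by rw [hchar]; exact hpS)
  obtain ⟨V, hV, -⟩ := hUEX ℚ (Fin r × Fin (Module.finrank ℤ (𝓞 K))) M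
    (fun x : Fin r × Fin (Module.finrank ℤ (𝓞 K)) => β x.1) (qm (TG.rs K c)) hM hβ'
  obtain ⟨U, hU, -⟩ := hUEX ℂ (Fin r) M β (Matrix.of fun i j => σ (c i j : K)) hM hβ
  have hVa : ∀ x y, IsAlgebraic ℚ[X] (PowerSeries.mk fun n => V n x y) := by
    rcases isEmpty_or_nonempty (Fin r × Fin (Module.finrank ℤ (𝓞 K))) with he | he
    · exact fun x => isEmptyElim x
    · exact hMZ _ M n1 n2 _ _ S R L V hTyp hL hSys hV
  have hUa := hRSL K σ r M β c U V hM hβ hU hV hVa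
  refine hALG r M β (Matrix.of fun i j => σ (c i j : K)) B D U hM hU hUa (fun i j => ?_)
    (fun i j => ?_)
  · rw [hB i j, hb]
    by_cases hij : i = j
    · subst hij
      rw [Matrix.diagonal_apply_eq, if_pos rfl]
      have h3 : σ ((((β i : ℤ) : 𝓞 K)) : K) = ((β i : ℤ) : ℂ) := by
        have h4 : ((((β i : ℤ) : 𝓞 K)) : K) = ((β i : ℤ) : K) :=
          map_intCast (algebraMap (𝓞 K) K) _
        rw [h4, map_intCast]
      rw [h3]
    · rw [Matrix.diagonal_apply_ne _ hij, if_neg hij]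
      simp
  · rw [hD i j]
    rfl

end Pool.Agent.Work.MP_5e5ff1_ag.TH
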