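import Mathlib
import Pool.Agent.Work.MP_5e5ff1_ag.TH.StmtsK

set_option autoImplicit false

/-!
# MP_5e5ff1_ag, block TH, item FIN2: the general theorem without hypotheses on the eigenvalues
-/

open Matrix Filter Topology NumberField
open scoped Polynomial nonZeroDivisors

namespace Pool.Agent.Work.MP_5e5ff1_ag.TH

namespace IFIN2

/-- the cost bounds the exceptional primes -/
theorem bs_of_cost {ι : Type} [Fintype ι] [DecidableEq ι] (M : ℕ) (β : ι → ℤ) (S : Set ℕ) (L : ℝ)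
    (hnd : 1 ≤ nd β) (h : Cost M β S L) : Bs {p | p ∈ S ∧ ¬ p ∣ M} L := by
  classical
  intro F hF
  have h1 := h F (fun p hp => ⟨(hF p hp).1, (hF p hp).2.2⟩)
  have h2 : 0 ≤ ∑ p ∈ M.primeFactors,
      ((M.factorization p : ℝ) + (spc p M β : ℝ) / ((p : ℝ) - 1)) * Real.log p := by
    refine Finset.sum_nonneg fun p hp => ?_
    have hp2 : (2 : ℝ) ≤ p := by exact_mod_cast (Nat.prime_of_mem_primeFactors hp).two_le
    have h3 : 0 ≤ (spc p M β : ℝ) / ((p : ℝ) - 1) := div_nonneg (Nat.cast_nonneg _) (by linarith)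
    have h4 : 0 ≤ Real.log (p : ℝ) := Real.log_nonneg (by linarith)
    exact mul_nonneg (add_nonneg (Nat.cast_nonneg _) h3) h4
  have h3 : ∑ p ∈ F, Real.log p / p ≤
      ∑ p ∈ F, (1 / ((p : ℝ) * (p - 1)) + if p ∈ S then 1 / (p : ℝ) else 0) * Real.log p := by
    refine Finset.sum_le_sum fun p hp => ?_
    have hp2 : (2 : ℝ) ≤ p := by exact_mod_cast (hF p hp).1.two_le
    have h4 : 0 ≤ Real.log (p : ℝ) := Real.log_nonneg (by linarith)
    rw [if_pos (hF p hp).2.1]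
    have h5 : 0 ≤ 1 / ((p : ℝ) * (p - 1)) := by
      apply div_nonneg one_pos.le
      apply mul_nonneg <;> linarith
    calc Real.log p / p = 1 / (p : ℝ) * Real.log p := by ring
      _ ≤ (1 / ((p : ℝ) * (p - 1)) + 1 / (p : ℝ)) * Real.log p :=
          mul_le_mul_of_nonneg_right (by linarith) h4
  have h4 : 0 ≤ ∑ p ∈ F, Real.log p / p := by
    refine Finset.sum_nonneg fun p hp => ?_
    have hp2 : (2 : ℝ) ≤ p := by exact_mod_cast (hF p hp).1.two_le
    exact div_nonneg (Real.log_nonneg (by linarith)) (by linarith)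
  have h5 : (1 : ℝ) ≤ nd β := by exact_mod_cast hnd
  nlinarith

theorem root_of_prod {R : Type*} [CommRing R] {r : ℕ} (f : R[X]) (γ : Fin r → ℤ)
    (h : f = ∏ j, (Polynomial.X - Polynomial.C ((γ j : ℤ) : R))) (j : Fin r) :
    f.IsRoot ((γ j : ℤ) : R) := by
  rw [h, Polynomial.IsRoot, Polynomial.eval_prod]
  refine Finset.prod_eq_zero (Finset.mem_univ j) ?_
  simp

theorem pm_db (p : ℕ) {ι : Type} [Fintype ι] [DecidableEq ι] (β : ι → ℤ) (C : Matrix ι ι ℤ) :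
    pm p (db ℤ β + C) = db (ZMod p) β + pm p C := by
  ext i j
  by_cases h : i = j
  · subst h
    simp [db, Matrix.map_apply, Matrix.add_apply]
  · simp [db, Matrix.map_apply, Matrix.add_apply, Matrix.diagonal_apply_ne _ h]

end IFIN2

open IFIN2 in
theorem pr_FIN2 (hFIN : StFIN) (hKEI : StKEI) (hKPC : StKPC) (hKSP : StKSP) (hRSP : StRSP)
    (hRSD : StRSD) : StFIN2 := by
  intro K _ _ σ r M n1 n2 R L β b c S hM hTyp hL hβ hb hc1 hc2 hcost hrad hP B D hB hD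
  rcases Nat.eq_zero_or_pos r with hr | hr
  · subst hr
    have hz : ∀ (a : Matrix (Fin 0) (Fin 0) (𝓞 K)) (γ : Fin 0 → ℤ),
        a.charpoly = ∏ j, (Polynomial.X - Polynomial.C ((γ j : ℤ) : 𝓞 K)) := by
      intro a γ
      rw [Fin.prod_univ_zero, Matrix.charpoly, Matrix.det_isEmpty]
    exact hFIN K σ 0 M n1 n2 R L β β β b c S hM hTyp hL hβ hb
      (fun _ => ⟨hz c β, fun j => j.elim0⟩) (fun _ => ⟨hz (b + c) β, fun j => j.elim0⟩)
      hcost hrad hP B D hB hD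
  have hnd : 1 ≤ nd β := by
    unfold nd
    exact Finset.card_pos.2 ⟨β ⟨0, hr⟩, Finset.mem_image_of_mem _ (Finset.mem_univ _)⟩
  have hBs := bs_of_cost M β S L hnd hcost
  -- the residues modulo p
  have hres : ∀ p : ℕ, p.Prime → M < p → p ∉ {p | p ∈ S ∧ ¬ p ∣ M} →
      (pm p (TG.rs K c)) ^ p = pm p (TG.rs K c) ∧
      (pm p (TG.rs K (b + c))) ^ p = pm p (TG.rs K (b + c)) := by
    intro p hp hMp hpS
    haveI : Fact p.Prime := ⟨hp⟩
    have hpM : ¬ p ∣ M := fun h => absurd (Nat.le_of_dvd hM h) (by omega)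
    have hpS' : p ∉ S := fun h => hpS ⟨h, hpM⟩
    have hPZ := hRSP K r M β c p hp (hrad p hp hpM hpS') fun P hPm hchar => by
      rw [← hb]
      exact hP P hPm (by rw [hchar]; exact hpM) (by rw [hchar]; exact hpS')
    obtain ⟨h1, h2⟩ := hKPC p _ M _ _ hpM hPZ
    refine ⟨h1, ?_⟩
    have e : TG.rs K (b + c) =
        db ℤ (fun x : Fin r × Fin (Module.finrank ℤ (𝓞 K)) => β x.1) + TG.rs K c := by
      rw [hb]
      exact hRSD K r β c
    rw [e, pm_db]
    exact h2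
  obtain ⟨m1, γ1, hγ1, -⟩ := hKEI _ (TG.rs K c) _ M L hBs
    (fun p hp hMp hpS => (hres p hp hMp hpS).1)
  obtain ⟨m2, γ2, hγ2, -⟩ := hKEI _ (TG.rs K (b + c)) _ M L hBs
    (fun p hp hMp hpS => (hres p hp hMp hpS).2)
  obtain ⟨γ, hγ⟩ := hKSP K r c m1 γ1 hγ1
  obtain ⟨ζ, hζ⟩ := hKSP K r (b + c) m2 γ2 hγ2
  exact hFIN K σ r M n1 n2 R L β γ ζ b c S hM hTyp hL hβ hb
    (fun _ => ⟨hγ, fun j => hc1 (γ j) (root_of_prod _ γ hγ j)⟩)
    (fun _ => ⟨hζ, fun j => hc2 (ζ j) (root_of_prod _ ζ hζ j)⟩)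
    hcost hrad hP B D hB hD

end Pool.Agent.Work.MP_5e5ff1_ag.TH
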