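import Mathlib
import Pool.Agent.Work.MP_5e5ff1_ag.TH.StmtsX
import Pool.Agent.Work.MP_5e5ff1_ag.TH.I_FIN2
import Pool.Agent.Work.MP_5e5ff1_ag.TH.I_COSR

set_option autoImplicit false

/-!
# MP_5e5ff1_ag, block TH, item FINR: the theorem for diagonal `b`, resonance allowed
-/

open Matrix Filter Topology NumberField
open scoped Polynomial nonZeroDivisors

namespace Pool.Agent.Work.MP_5e5ff1_ag.TH

namespace IFINR

/-- the cost bounds the exceptional primes outside `T` -/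
theorem bs_of_costT (S : Set ℕ) (T : Finset ℕ) (κ : ℕ → ℝ) (s : ℕ) (L : ℝ) (hs : 1 ≤ s)
    (hT : ∀ p ∈ T, p.Prime ∧ 0 ≤ κ p) (h : CostT T κ s S L) :
    Bs {p | p ∈ S ∧ p ∉ T} L := by
  classical
  intro F hF
  have h1 := h F (fun p hp => ⟨(hF p hp).1, (hF p hp).2.2⟩)
  have h2 : 0 ≤ ∑ p ∈ T, κ p * Real.log p := by
    refine Finset.sum_nonneg fun p hp => ?_
    have hp2 : (2 : ℝ) ≤ p := by exact_mod_cast (hT p hp).1.two_le
    exact mul_nonneg (hT p hp).2 (Real.log_nonneg (by linarith))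
  have h3 : ∑ p ∈ F, Real.log p / p ≤
      ∑ p ∈ F, (1 / ((p : ℝ) * (p - 1)) + if p ∈ S then 1 / (p : ℝ) else 0) * Real.log p := by
    refine Finset.sum_le_sum fun p hp => ?_
    have hp2 : (2 : ℝ) ≤ p := by exact_mod_cast (hF p hp).1.two_le
    have h4 : 0 ≤ Real.log (p : ℝ) := Real.log_nonneg (by linarith)
    rw [if_pos (hF p hp).2.1]
    have h5 : 0 ≤ 1 / ((p : ℝ) * (p - 1)) := by
      apply div_nonneg one_pos.le
      apply mul_nonneg <;> linarith
    calc Real.log p / p = 1 / (p : ℝ) * Real.log p := by ring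
      _ ≤ (1 / ((p : ℝ) * (p - 1)) + 1 / (p : ℝ)) * Real.log p :=
          mul_le_mul_of_nonneg_right (by linarith) h4
  have h4 : 0 ≤ ∑ p ∈ F, Real.log p / p := by
    refine Finset.sum_nonneg fun p hp => ?_
    have hp2 : (2 : ℝ) ≤ p := by exact_mod_cast (hF p hp).1.two_le
    exact div_nonneg (Real.log_nonneg (by linarith)) (by linarith)
  have h5 : (1 : ℝ) ≤ s := by exact_mod_cast hs
  nlinarith

theorem nc_fst {ι κ : Type} [Fintype ι] [DecidableEq ι] [Fintype κ] [DecidableEq κ] [Nonempty κ]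
    (M : ℕ) (β : ι → ℤ) : nc M (fun x : ι × κ => β x.1) = nc M β := by
  unfold nc
  congr 1
  exact ICOSR.image_fst (κ := κ) fun i => β i % (M : ℤ)

/-- the solutions under an embedding -/
theorem isU_map {K : Type} [Field K] [NumberField K] (σ : K →+* ℂ) (r M : ℕ) (β : Fin r → ℤ)
    (c : Matrix (Fin r) (Fin r) (𝓞 K)) (U : ℕ → Matrix (Fin r) (Fin r) K)
    (h : IsU M β (Matrix.of fun i j => (c i j : K)) U) :
    IsU M β (Matrix.of fun i j => σ (c i j : K)) (fun n => (U n).map σ) := by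
  constructor
  · rw [h.zero, Matrix.map_one _ (map_zero σ) (map_one σ)]
  · intro n i j
    have h1 := congrArg σ (h.eqn n i j)
    simp only [map_add, map_mul, map_sub, map_sum, map_natCast, map_intCast, map_zero,
      Matrix.mul_apply, Matrix.of_apply] at h1
    simp only [Matrix.mul_apply, Matrix.of_apply, Matrix.map_apply]
    exact h1

end IFINR

open IFIN2 ICOSR IFINR in
theorem pr_FINR (hMZR : StMZR) (hINFT : StINFT) (hRSC : StRSC) (hRSD : StRSD) (hRSP : StRSP)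
    (hRKU : StRKU) (hRKG : StRKG) (hRKL : StRKL) (hALG : StALG) (hKEI : StKEI) (hKPC : StKPC)
    (hKSP : StKSP) (hMDGR : StMDGR) : StFINR := by
  intro K _ _ σ r M n1 n2 R L β b c S T κ U hM hTyp hL hb hc1 hc2 hU hTM hTκ hcost hrad hP
    B D hB hD
  have hV := hRKU K r M β c U hU
  have hVa : ∀ x y, IsAlgebraic ℚ[X] (PowerSeries.mk fun n => rsK K (U n) x y) := by
    rcases isEmpty_or_nonempty (Fin r × Fin (Module.finrank ℤ (𝓞 K))) with he | he
    · exact fun x => isEmptyElim x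
    have hd : 0 < Module.finrank ℤ (𝓞 K) := Module.finrank_pos
    have : Nonempty (Fin (Module.finrank ℤ (𝓞 K))) := ⟨⟨0, hd⟩⟩
    have hr : 0 < r := he.some.1.pos
    have hnc : 1 ≤ nc M β := by
      unfold nc
      exact Finset.card_pos.2 ⟨β ⟨0, hr⟩ % (M : ℤ),
        Finset.mem_image_of_mem (fun i => β i % (M : ℤ)) (Finset.mem_univ _)⟩
    have hTκ' : ∀ p ∈ T, p.Prime ∧ 0 ≤ κ p := fun p hp => ⟨(hTκ p hp).1, (hTκ p hp).2.1⟩
    have hBs := bs_of_costT S T κ (nc M β) L hnc hTκ' hcost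
    -- the p-curvature after restriction of scalars
    have hPZ : ∀ p : ℕ, p.Prime → ¬ p ∣ M → p ∉ S →
        PZ M (fun x : Fin r × Fin (Module.finrank ℤ (𝓞 K)) => β x.1) (TG.rs K c) p := by
      intro p hp hpM hpS
      refine hRSP K r M β c p hp (hrad p hp hpM hpS) fun P hPm hchar => ?_
      rw [← hb]
      exact hP P hPm (by rw [hchar]; exact hpM) (by rw [hchar]; exact hpS)
    -- the residues modulo p
    have hres : ∀ p : ℕ, p.Prime → M + ∑ q ∈ T, q < p → p ∉ {p | p ∈ S ∧ p ∉ T} →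
        (pm p (TG.rs K c)) ^ p = pm p (TG.rs K c) ∧
        (pm p (TG.rs K (b + c))) ^ p = pm p (TG.rs K (b + c)) := by
      intro p hp hMp hpS
      have : Fact p.Prime := ⟨hp⟩
      have hpM : ¬ p ∣ M := fun h => absurd (Nat.le_of_dvd hM h) (by omega)
      have hpT : p ∉ T := fun h => by
        have h1 : p ≤ ∑ q ∈ T, q :=
          Finset.single_le_sum (f := fun q : ℕ => q) (fun q _ => Nat.zero_le q) h
        omega
      have hpS' : p ∉ S := fun h => hpS ⟨h, hpT⟩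
      obtain ⟨h1, h2⟩ := hKPC p _ M _ _ hpM (hPZ p hp hpM hpS')
      refine ⟨h1, ?_⟩
      have e : TG.rs K (b + c) =
          db ℤ (fun x : Fin r × Fin (Module.finrank ℤ (𝓞 K)) => β x.1) + TG.rs K c := by
        rw [hb]
        exact hRSD K r β c
      rw [e, pm_db]
      exact h2
    obtain ⟨m1, γ1, hγ1, -⟩ := hKEI _ (TG.rs K c) _ (M + ∑ q ∈ T, q) L hBs
      (fun p hp hMp hpS => (hres p hp hMp hpS).1)
    obtain ⟨m2, γ2, hγ2, -⟩ := hKEI _ (TG.rs K (b + c)) _ (M + ∑ q ∈ T, q) L hBs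
      (fun p hp hMp hpS => (hres p hp hMp hpS).2)
    obtain ⟨γ, hγ⟩ := hKSP K r c m1 γ1 hγ1
    obtain ⟨ζ, hζ⟩ := hKSP K r (b + c) m2 γ2 hγ2
    have hsys : SysR M n1 n2 (fun x : Fin r × Fin (Module.finrank ℤ (𝓞 K)) => β x.1)
        (TG.rs K c) S :=
      { hM := hM
        h1 := fun _ => ⟨r, γ, fun j => hc1 (γ j) (root_of_prod _ γ hγ j), hRSC K r c γ hγ⟩
        h2 := fun _ => ⟨r, ζ, fun j => hc2 (ζ j) (root_of_prod _ ζ hζ j), by
          rw [← hRSD K r β c, ← hb]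
          exact hRSC K r (b + c) ζ hζ⟩
        inf := hINFT M (nc M β) S T κ L hM hnc hTκ' hcost
        pz := hPZ }
    refine hMZR _ M n1 n2 _ (TG.rs K c) S T κ R L (fun n => rsK K (U n)) hTyp hL hsys hTM ?_ hV
      fun p hp => ?_
    · rw [nc_fst]
      exact hcost
    · obtain ⟨hpp, hκ0, hor⟩ := hTκ p hp
      refine ⟨hpp, hκ0, ?_⟩
      have : Fact p.Prime := ⟨hpp⟩
      rcases hor with h1 | h1
      · refine hMDGR p _ M _ (TG.rs K c) _ hM hV (κ p) ?_
        rw [spc_fst]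
        exact h1
      · exact (hRKG K r U p (κ p) hpp).1 h1
  have hUa := hRKL K σ r U hVa
  refine hALG r M β (Matrix.of fun i j => σ (c i j : K)) B D (fun n => (U n).map σ) hM
    (isU_map σ r M β c U hU) hUa (fun i j => ?_) (fun i j => ?_)
  · rw [hB i j, hb]
    by_cases hij : i = j
    · subst hij
      rw [Matrix.diagonal_apply_eq, if_pos rfl]
      have h3 : σ ((((β i : ℤ) : 𝓞 K)) : K) = ((β i : ℤ) : ℂ) := by
        have h4 : ((((β i : ℤ) : 𝓞 K)) : K) = ((β i : ℤ) : K) :=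
          map_intCast (algebraMap (𝓞 K) K) _
        rw [h4, map_intCast]
      rw [h3]
    · rw [Matrix.diagonal_apply_ne _ hij, if_neg hij]
      simp
  · rw [hD i j]
    rfl

end Pool.Agent.Work.MP_5e5ff1_ag.TH
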