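import Mathlib
import Pool.Agent.Work.MP_5e5ff1_ag.TH.StmtsG
import Pool.Agent.Work.MP_5e5ff1_ag.TH.I_FIN2
import Pool.Agent.Work.MP_5e5ff1_ag.TH.I_COSR

set_option autoImplicit false

/-!
# MP_5e5ff1_ag, block TH, item FINT: the general theorem with growth conditions (helper63)
-/

open Matrix Filter Topology NumberField
open scoped Polynomial nonZeroDivisors

namespace Pool.Agent.Work.MP_5e5ff1_ag.TH

open IFIN2 ICOSR in
theorem pr_FINT (hUEX : StUEX) (hMZT : StMZT) (hRSC : StRSC) (hRSD : StRSD) (hRSP : StRSP)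
    (hRSL : StRSL) (hALG : StALG) (hCKC : StCKC) (hKEI : StKEI) (hKPC : StKPC) (hKSP : StKSP)
    (hMDG : StMDG) (hRSG : StRSG) : StFINT := by
  intro K _ _ σ r M n1 n2 R L β b c S T κ U hM hTyp hL hβ hb hc1 hc2 hU hTM hTκ hcost hrad hP
    B D hB hD
  have hβ' : ∀ i j : Fin r × Fin (Module.finrank ℤ (𝓞 K)),
      (M : ℤ) ∣ (fun x : Fin r × Fin (Module.finrank ℤ (𝓞 K)) => β x.1) i -
        (fun x : Fin r × Fin (Module.finrank ℤ (𝓞 K)) => β x.1) j →
      (fun x : Fin r × Fin (Module.finrank ℤ (𝓞 K)) => β x.1) i =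
        (fun x : Fin r × Fin (Module.finrank ℤ (𝓞 K)) => β x.1) j :=
    fun i j h => hβ i.1 j.1 h
  obtain ⟨V, hV, -⟩ := hUEX ℚ (Fin r × Fin (Module.finrank ℤ (𝓞 K))) M
    (fun x : Fin r × Fin (Module.finrank ℤ (𝓞 K)) => β x.1) (qm (TG.rs K c)) hM hβ'
  obtain ⟨Uc, hUc, -⟩ := hUEX ℂ (Fin r) M β (Matrix.of fun i j => σ (c i j : K)) hM hβ
  have hVa : ∀ x y, IsAlgebraic ℚ[X] (PowerSeries.mk fun n => V n x y) := by
    rcases isEmpty_or_nonempty (Fin r × Fin (Module.finrank ℤ (𝓞 K))) with he | he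
    · exact fun x => isEmptyElim x
    have hd : 0 < Module.finrank ℤ (𝓞 K) := Module.finrank_pos
    have : Nonempty (Fin (Module.finrank ℤ (𝓞 K))) := ⟨⟨0, hd⟩⟩
    have hr : 0 < r := he.some.1.pos
    have hnd : 1 ≤ nd β := by
      unfold nd
      exact Finset.card_pos.2 ⟨β ⟨0, hr⟩, Finset.mem_image_of_mem _ (Finset.mem_univ _)⟩
    obtain ⟨L', hL'⟩ := hCKC (Fin r) M β S T κ L hcost
    have hBs := bs_of_cost M β (S ∪ {p | p ∈ T}) L' hnd hL'
    -- the p-curvature after restriction of scalars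
    have hPZ : ∀ p : ℕ, p.Prime → ¬ p ∣ M → p ∉ S →
        PZ M (fun x : Fin r × Fin (Module.finrank ℤ (𝓞 K)) => β x.1) (TG.rs K c) p := by
      intro p hp hpM hpS
      refine hRSP K r M β c p hp (hrad p hp hpM hpS) fun P hPm hchar => ?_
      rw [← hb]
      exact hP P hPm (by rw [hchar]; exact hpM) (by rw [hchar]; exact hpS)
    -- the residues modulo p
    have hres : ∀ p : ℕ, p.Prime → M < p → p ∉ {p | p ∈ S ∪ {p | p ∈ T} ∧ ¬ p ∣ M} →
        (pm p (TG.rs K c)) ^ p = pm p (TG.rs K c) ∧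
        (pm p (TG.rs K (b + c))) ^ p = pm p (TG.rs K (b + c)) := by
      intro p hp hMp hpS
      have : Fact p.Prime := ⟨hp⟩
      have hpM : ¬ p ∣ M := fun h => absurd (Nat.le_of_dvd hM h) (by omega)
      have hpS' : p ∉ S := fun h => hpS ⟨Or.inl h, hpM⟩
      obtain ⟨h1, h2⟩ := hKPC p _ M _ _ hpM (hPZ p hp hpM hpS')
      refine ⟨h1, ?_⟩
      have e : TG.rs K (b + c) =
          db ℤ (fun x : Fin r × Fin (Module.finrank ℤ (𝓞 K)) => β x.1) + TG.rs K c := by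
        rw [hb]
        exact hRSD K r β c
      rw [e, pm_db]
      exact h2
    obtain ⟨m1, γ1, hγ1, -⟩ := hKEI _ (TG.rs K c) _ M L' hBs
      (fun p hp hMp hpS => (hres p hp hMp hpS).1)
    obtain ⟨m2, γ2, hγ2, -⟩ := hKEI _ (TG.rs K (b + c)) _ M L' hBs
      (fun p hp hMp hpS => (hres p hp hMp hpS).2)
    obtain ⟨γ, hγ⟩ := hKSP K r c m1 γ1 hγ1
    obtain ⟨ζ, hζ⟩ := hKSP K r (b + c) m2 γ2 hγ2
    refine hMZT _ M n1 n2 _ (TG.rs K c) S T κ R L V hTyp hL hM hβ'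
      (fun _ => ⟨r, γ, fun j => hc1 (γ j) (root_of_prod _ γ hγ j), hRSC K r c γ hγ⟩)
      (fun _ => ⟨r, ζ, fun j => hc2 (ζ j) (root_of_prod _ ζ hζ j), ?_⟩)
      hPZ hTM ?_ hV fun p hp => ?_
    · rw [← hRSD K r β c, ← hb]
      exact hRSC K r (b + c) ζ hζ
    · rw [nd_fst]
      exact hcost
    · obtain ⟨hpp, hκ0, hor⟩ := hTκ p hp
      refine ⟨hpp, hκ0, ?_⟩
      have : Fact p.Prime := ⟨hpp⟩
      rcases hor with h1 | h1
      · refine hMDG p _ M _ (TG.rs K c) V hM hV hβ' (κ p) ?_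
        rw [spc_fst]
        exact h1
      · exact hRSG K σ r M β c U V hM hβ hU hV p (κ p) hpp h1
  have hUa := hRSL K σ r M β c Uc V hM hβ hUc hV hVa
  refine hALG r M β (Matrix.of fun i j => σ (c i j : K)) B D Uc hM hUc hUa (fun i j => ?_)
    (fun i j => ?_)
  · rw [hB i j, hb]
    by_cases hij : i = j
    · subst hij
      rw [Matrix.diagonal_apply_eq, if_pos rfl]
      have h3 : σ ((((β i : ℤ) : 𝓞 K)) : K) = ((β i : ℤ) : ℂ) := by
        have h4 : ((((β i : ℤ) : 𝓞 K)) : K) = ((β i : ℤ) : K) :=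
          map_intCast (algebraMap (𝓞 K) K) _
        rw [h4, map_intCast]
      rw [h3]
    · rw [Matrix.diagonal_apply_ne _ hij, if_neg hij]
      simp
  · rw [hD i j]
    rfl

end Pool.Agent.Work.MP_5e5ff1_ag.TH
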