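import Mathlib
import Pool.Agent.Work.MP_5e5ff1_ag.TH.StmtsD

set_option autoImplicit false

/-!
# MP_5e5ff1_ag, block TH, item FRB: `D^p = D` modulo arbitrarily large primes at 1 and infinity
-/

open Matrix Filter Topology
open scoped Polynomial

namespace Pool.Agent.Work.MP_5e5ff1_ag.TH

namespace IFRB

variable {ι : Type} [Fintype ι] [DecidableEq ι]

omit [Fintype ι] in
theorem db_map (p : ℕ) (β : ι → ℤ) (i j : ι) :
    ((db ℤ β i j : ℤ) : ZMod p) = db (ZMod p) β i j := by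
  unfold db
  rw [Matrix.diagonal_apply, Matrix.diagonal_apply]
  split_ifs
  · simp
  · simp

omit [Fintype ι] in
theorem A1_map (p : ℕ) (β : ι → ℤ) (C : Matrix ι ι ℤ) :
    (fun m => pm p (A1 β C m)) = A1 β (pm p C) := by
  funext m
  ext i j
  change (Int.castRingHom (ZMod p)) (A1 β C m i j) = A1 β (pm p C) m i j
  unfold A1
  split_ifs
  · change (Int.castRingHom (ZMod p)) (-(C i j)) = -((Int.castRingHom (ZMod p)) (C i j))
    exact map_neg _ _
  · change (Int.castRingHom (ZMod p)) ((-1) ^ m * db ℤ β i j) = (-1) ^ m * db (ZMod p) β i j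
    rw [map_mul, map_pow, map_neg, map_one]
    congr 1
    exact db_map p β i j

omit [Fintype ι] in
theorem A2_map (p : ℕ) (β : ι → ℤ) (C : Matrix ι ι ℤ) :
    (fun m => pm p (A2 β C m)) = A2 β (pm p C) := by
  funext m
  ext i j
  change (Int.castRingHom (ZMod p)) (A2 β C m i j) = A2 β (pm p C) m i j
  unfold A2
  split_ifs
  · change (Int.castRingHom (ZMod p)) (db ℤ β i j + C i j) =
      db (ZMod p) β i j + (Int.castRingHom (ZMod p)) (C i j)
    rw [map_add]
    congr 1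
    exact db_map p β i j
  · rfl

end IFRB

open IFRB in
theorem pr_FRB (hINF : StINF) (hPC : StPC012) : StFRB := by
  intro ι _ _ _ M n1 n2 β C S L h
  have h1 : ∀ N : ℕ, ∃ p : ℕ, N < p ∧ p.Prime ∧
      (∀ v : ℕ → ι → ZMod p, ((DA M (A1 β (pm p C))) ^ p) v = DA M (A1 β (pm p C)) v) ∧
      ∀ v : ℕ → ι → ZMod p, ((DA M (A2 β (pm p C))) ^ p) v = DA M (A2 β (pm p C)) v := by
    intro N
    obtain ⟨p, hN, hp, hM, hS⟩ := hINF ι M β S L h.hM h.cost N
    have : Fact p.Prime := ⟨hp⟩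
    obtain ⟨-, h2, h3⟩ := hPC p ι M β C hM (h.pz p hp hM hS)
    exact ⟨p, hN, hp, h2, h3⟩
  constructor
  · intro N
    obtain ⟨p, hN, hp, h2, -⟩ := h1 N
    refine ⟨p, hN, hp, ?_⟩
    rw [A1_map]
    exact h2
  · intro N
    obtain ⟨p, hN, hp, -, h3⟩ := h1 N
    refine ⟨p, hN, hp, ?_⟩
    rw [A2_map]
    exact h3

end Pool.Agent.Work.MP_5e5ff1_ag.TH
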