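import Mathlib
import Pool.Agent.Work.MP_5e5ff1_ag.TH.StmtsD

set_option autoImplicit false

/-!
# MP_5e5ff1_ag, block TH, item GAN: the analytic solution at the other points
-/

open Matrix Filter Topology
open scoped Polynomial

namespace Pool.Agent.Work.MP_5e5ff1_ag.TH

namespace IGAN

/-- power series with exponentially bounded coefficients -/
theorem ps (a : ℕ → ℂ) (A : ℝ) (hA : 1 ≤ A) (ha : ∀ n, ‖a n‖ ≤ A ^ (n + 1)) :
    DifferentiableOn ℂ (fun x => ∑' n : ℕ, a n * x ^ n) (Metric.ball 0 (1 / (2 * A))) ∧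
    ∀ x ∈ Metric.ball (0 : ℂ) (1 / (2 * A)),
      HasSum (fun n : ℕ => a n * x ^ n) (∑' n : ℕ, a n * x ^ n) ∧
      HasSum (fun n : ℕ => (n : ℂ) * a n * x ^ n)
        (x * deriv (fun y => ∑' n : ℕ, a n * y ^ n) x) := by
  have hA0 : 0 < A := by linarith
  have hu : Summable (fun n : ℕ => A * (1 / 2 : ℝ) ^ n) :=
    (summable_geometric_of_lt_one (by norm_num) (by norm_num)).mul_left A
  have hb : ∀ (n : ℕ) (w : ℂ), w ∈ Metric.ball (0 : ℂ) (1 / (2 * A)) →
      ‖a n * w ^ n‖ ≤ A * (1 / 2 : ℝ) ^ n := by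
    intro n w hw
    rw [mem_ball_zero_iff] at hw
    rw [norm_mul, norm_pow]
    calc ‖a n‖ * ‖w‖ ^ n ≤ A ^ (n + 1) * (1 / (2 * A)) ^ n :=
          mul_le_mul (ha n) (pow_le_pow_left₀ (norm_nonneg _) hw.le n) (by positivity)
            (by positivity)
      _ = A * (1 / 2 : ℝ) ^ n := by
          have e : (1 / (2 * A)) = (1 / 2) * A⁻¹ := by
            field_simp
          rw [e, mul_pow, pow_succ]
          have h1 : A ^ n * (A⁻¹) ^ n = 1 := by
            rw [← mul_pow, mul_inv_cancel₀ hA0.ne', one_pow]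
          calc A ^ n * A * ((1 / 2) ^ n * A⁻¹ ^ n) = A * (1 / 2) ^ n * (A ^ n * A⁻¹ ^ n) := by ring
            _ = A * (1 / 2) ^ n := by rw [h1, mul_one]
  have hd : ∀ n : ℕ, DifferentiableOn ℂ (fun w : ℂ => a n * w ^ n)
      (Metric.ball 0 (1 / (2 * A))) := fun n => by fun_prop
  refine ⟨Complex.differentiableOn_tsum_of_summable_norm hu hd Metric.isOpen_ball hb, ?_⟩
  intro x hx
  refine ⟨(Summable.of_norm_bounded hu (fun n => hb n x hx)).hasSum, ?_⟩
  have h := Complex.hasSum_deriv_of_summable_norm hu hd Metric.isOpen_ball hb hx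
  have h2 := h.mul_left x
  have e : (fun n : ℕ => (n : ℂ) * a n * x ^ n) =
      fun n : ℕ => x * deriv (fun w : ℂ => a n * w ^ n) x := by
    funext n
    have hder : deriv (fun w : ℂ => a n * w ^ n) x = a n * ((n : ℂ) * x ^ (n - 1)) :=
      ((hasDerivAt_pow n x).const_mul (a n)).deriv
    rw [hder]
    rcases n with _ | n
    · simp
    · rw [Nat.add_sub_cancel, pow_succ]
      ring
  rw [e]
  exact h2

/-- summability of the coefficient series -/
theorem sA (a : ℕ → ℤ) (c : ℤ) (ha : ∀ n, |a n| ≤ c) (x : ℂ) (hx : ‖x‖ < 1) :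
    Summable (fun n : ℕ => ‖((a n : ℤ) : ℂ) * x ^ n‖) := by
  refine Summable.of_nonneg_of_le (fun n => norm_nonneg _) (fun n => ?_)
    ((summable_geometric_of_lt_one (norm_nonneg x) hx).mul_left (c : ℝ))
  rw [norm_mul, norm_pow]
  refine mul_le_mul_of_nonneg_right ?_ (by positivity)
  rw [Complex.norm_intCast, ← Int.cast_abs]
  exact_mod_cast ha n

end IGAN

theorem pr_GAN : StGAN := by
  intro ι _ _ M A γ G hc hG hA
  obtain ⟨c, hc⟩ := hc
  obtain ⟨A0, hA0⟩ := hA
  set B : ℝ := max |A0| 1 with hBdef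
  have hB1 : 1 ≤ B := le_max_right _ _
  have hAG : ∀ n i j, ‖(G n i j : ℂ)‖ ≤ B ^ (n + 1) := by
    intro n i j
    have h1 : ‖(G n i j : ℂ)‖ = |(G n i j : ℝ)| := by
      rw [← Complex.ofReal_ratCast, Complex.norm_real, Real.norm_eq_abs]
    rw [h1]
    calc |(G n i j : ℝ)| ≤ A0 ^ (n + 1) := hA0 n i j
      _ ≤ |A0 ^ (n + 1)| := le_abs_self _
      _ = |A0| ^ (n + 1) := abs_pow _ _
      _ ≤ B ^ (n + 1) := pow_le_pow_left₀ (abs_nonneg _) (le_max_left _ _) _
  set r : ℝ := 1 / (2 * B) with hr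
  have hr0 : 0 < r := by positivity
  have hr1 : r < 1 := by
    rw [hr, div_lt_one (by positivity)]
    linarith
  set g : ℂ → Matrix ι ι ℂ := fun x => Matrix.of fun i j => ∑' n : ℕ, (G n i j : ℂ) * x ^ n
    with hg
  have hps := fun i j => IGAN.ps (fun n => (G n i j : ℂ)) B hB1 (fun n => hAG n i j)
  have hdiff : ∀ i j, DifferentiableOn ℂ (fun x => g x i j) (Metric.ball 0 r) :=
    fun i j => (hps i j).1
  have hS : ∀ x ∈ Metric.ball (0 : ℂ) r, ∀ i j,
      HasSum (fun n : ℕ => (G n i j : ℂ) * x ^ n) (g x i j) :=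
    fun x hx i j => ((hps i j).2 x hx).1
  have hT : ∀ x ∈ Metric.ball (0 : ℂ) r, ∀ i j,
      HasSum (fun n : ℕ => (n : ℂ) * (G n i j : ℂ) * x ^ n)
        (x * deriv (fun y => g y i j) x) :=
    fun x hx i j => ((hps i j).2 x hx).2
  -- the determinant
  have hg0 : g 0 = (G 0).map (algebraMap ℚ ℂ) := by
    ext i j
    have h := hS 0 (Metric.mem_ball_self hr0) i j
    have h2 : HasSum (fun n : ℕ => (G n i j : ℂ) * (0 : ℂ) ^ n) ((G 0 i j : ℂ) * 0 ^ 0) :=
      hasSum_single 0 fun n hn => by rw [zero_pow hn, mul_zero]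
    rw [h.unique h2]
    simp
  have hdet0 : (g 0).det ≠ 0 := by
    rw [hg0, ← RingHom.mapMatrix_apply, ← RingHom.map_det]
    exact (map_ne_zero _).2 hG.det
  have hcont : ContinuousAt (fun x => (g x).det) 0 := by
    have h1 : ContinuousAt g 0 := by
      refine continuousAt_pi.2 fun i => continuousAt_pi.2 fun j => ?_
      exact ((hdiff i j).differentiableAt (Metric.ball_mem_nhds 0 hr0)).continuousAt
    exact (Continuous.matrix_det continuous_id).continuousAt.comp h1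
  obtain ⟨δ, hδ0, hδ⟩ := Metric.eventually_nhds_iff_ball.1 (hcont.eventually_ne hdet0)
  refine ⟨min r δ, g, lt_min hr0 hδ0, (min_le_left _ _).trans_lt hr1, ?_, ?_, ?_⟩
  · exact fun i j => (hdiff i j).mono (Metric.ball_subset_ball (min_le_left _ _))
  · exact fun x hx => hδ x (Metric.ball_subset_ball (min_le_right _ _) hx)
  intro x hx i j
  have hx' : x ∈ Metric.ball (0 : ℂ) r := Metric.ball_subset_ball (min_le_left _ _) hx
  have hx1 : ‖x‖ < 1 := by
    have := mem_ball_zero_iff.1 hx'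
    linarith
  have hGn : ∀ l, Summable (fun n : ℕ => ‖(G n l j : ℂ) * x ^ n‖) :=
    fun l => (hS x hx' l j).summable.norm
  have hprod : ∀ l, HasSum (fun n : ℕ => ∑ k ∈ Finset.range (n + 1),
      ((G k l j : ℂ) * x ^ k) * (((A (n - k) i l : ℤ) : ℂ) * x ^ (n - k)))
      ((∑' m : ℕ, ((A m i l : ℤ) : ℂ) * x ^ m) * g x l j) := by
    intro l
    have hA' := IGAN.sA (fun m => A m i l) c (fun m => hc m i l) x hx1
    have h1 := (summable_norm_sum_mul_range_of_summable_norm (hGn l) hA').of_norm.hasSum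
    rw [← tsum_mul_tsum_eq_tsum_sum_range_of_summable_norm (hGn l) hA',
      (hS x hx' l j).tsum_eq, mul_comm (g x l j)] at h1
    exact h1
  have h1 : HasSum (fun n : ℕ => (M : ℂ) * ((n : ℂ) * (G n i j : ℂ) * x ^ n) +
      ∑ l, ∑ k ∈ Finset.range (n + 1),
        ((G k l j : ℂ) * x ^ k) * (((A (n - k) i l : ℤ) : ℂ) * x ^ (n - k)))
      ((M : ℂ) * (x * deriv (fun s => g s i j) x) +
        ∑ l, (∑' m : ℕ, ((A m i l : ℤ) : ℂ) * x ^ m) * g x l j) :=
    ((hT x hx' i j).mul_left (M : ℂ)).add (hasSum_sum fun l _ => hprod l)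
  have h2 : HasSum (fun n : ℕ => (γ j : ℂ) * ((G n i j : ℂ) * x ^ n)) ((γ j : ℂ) * g x i j) :=
    (hS x hx' i j).mul_left _
  have e : (fun n : ℕ => (M : ℂ) * ((n : ℂ) * (G n i j : ℂ) * x ^ n) +
      ∑ l, ∑ k ∈ Finset.range (n + 1),
        ((G k l j : ℂ) * x ^ k) * (((A (n - k) i l : ℤ) : ℂ) * x ^ (n - k))) =
      fun n : ℕ => (γ j : ℂ) * ((G n i j : ℂ) * x ^ n) := by
    funext n
    have h := hG.eqn n i j
    have h3 : (M : ℚ) * (n : ℚ) * G n i j + ∑ k ∈ Finset.range (n + 1),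
        ∑ l, (A (n - k) i l : ℚ) * G k l j = (γ j : ℚ) * G n i j := h
    have h4 : (M : ℂ) * (n : ℂ) * (G n i j : ℂ) + ∑ k ∈ Finset.range (n + 1),
        ∑ l, (A (n - k) i l : ℂ) * (G k l j : ℂ) = (γ j : ℂ) * (G n i j : ℂ) := by
      have h5 := congrArg (fun q : ℚ => (q : ℂ)) h3
      push_cast at h5
      exact h5
    rw [← mul_assoc (γ j : ℂ), ← h4, add_mul, Finset.sum_mul, Finset.sum_comm]
    congr 1
    · ring
    · refine Finset.sum_congr rfl fun k hk => ?_
      rw [Finset.sum_mul]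
      refine Finset.sum_congr rfl fun l _ => ?_
      have hk' : k ≤ n := Nat.lt_succ_iff.1 (Finset.mem_range.1 hk)
      have e2 : x ^ n = x ^ k * x ^ (n - k) := by rw [← pow_add, Nat.add_sub_cancel' hk']
      rw [e2]
      ring
  rw [e] at h1
  have h6 := h1.unique h2
  linear_combination h6

end Pool.Agent.Work.MP_5e5ff1_ag.TH
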