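import Mathlib
import Pool.Agent.Work.MP_5e5ff1_ag.TH.StmtsB
import Pool.Agent.Work.MP_5e5ff1_ag.TH.StmtsD
import Pool.Agent.Work.MP_5e5ff1_ag.TG.StmtsC

set_option autoImplicit false

/-!
# MP_5e5ff1_ag, block TH, part Z: the remaining arithmetic triangle groups with a cusp

The nine arithmetic triangle groups with a cusp (Takeuchi) are `(n₁,n₂,∞)` with `(n₁,n₂)` =
`(2,3), (2,4), (2,6), (2,∞), (3,3), (3,∞), (4,4), (6,6), (∞,∞)`.  Part B has the maps for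
`(2,3), (2,4), (2,∞), (4,4), (∞,∞)`; here `(3,3)` from the function `QG` of part B, and
`(3,∞), (2,6), (6,6)` from the cubic analogue (cubic iteration instead of the Landen steps).

Every docstring is the complete proof.  USES lists the statements which the item may take as
hypotheses `(h : StX)`.  Captain helper18.
-/

open Filter Topology
open scoped Polynomial

namespace Pool.Agent.Work.MP_5e5ff1_ag.TH

/-- `G z = z n(z) / d(z)` on the unit disc omits the cube roots of unity and vanishes only at 0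
(poles are allowed); `‖G' 0‖ = D` -/
def QG3 (D : ℝ) : Prop := ∃ n d : ℂ → ℂ, DifferentiableOn ℂ n (Metric.ball 0 1) ∧
  DifferentiableOn ℂ d (Metric.ball 0 1) ∧
  (∀ z ∈ Metric.ball (0 : ℂ) 1, n z ≠ 0 ∧ d z ^ 3 - (z * n z) ^ 3 ≠ 0) ∧ ‖n 0‖ = D * ‖d 0‖

/-- GB3, EASY.  `n = d = 1`: `1 - z³ ≠ 0` for `‖z‖ < 1`. -/
def StGB3 : Prop := QG3 1

/-- GS3, EASY-MEDIUM.  The cubic step.  USES ROOT.

`n1 = n(z³)`, `d1 = d(z³)`, `y = z³ n1`; on the disc `z³` is in the disc, so `n1 ≠ 0` and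
`d1³ - y³ = (d1 - y)(d1² + d1 y + y²) ≠ 0`.  So `f = 9 n1 (d1² + d1 y + y²)` has no zeros; ROOT (ball
of centre 0 and radius 1, `N = 3`) gives `N'` with `N'³ = f`.  Put `D' = d1 + 2 y`.  Then
`D'³ - (z N')³ = (d1 + 2y)³ - 9 y (d1² + d1 y + y²) = (d1 - y)³ ≠ 0` (ring).  At 0: `y = 0`,
`‖N' 0‖³ = 9 ‖n 0‖ ‖d 0‖²`, `D' 0 = d 0`, `‖n 0‖ = D ‖d 0‖`, so `‖N' 0‖ = (9 D)^(1/3) ‖d 0‖`
(`D > 0`, or `D ≥ 0` since `d 0 ≠ 0`). -/
def StGS3 : Prop := ∀ D : ℝ, 0 < D → QG3 D → QG3 ((9 * D) ^ (1 / 3 : ℝ))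

/-- GL3, EASY (compare I_GLI).  USES GB3 GS3.

Induction: `QG3 (3 ^ (1 - (1/3)^k))` (real powers): `(9 * 3^x)^(1/3) = 3^((2+x)/3)`.  The limit is
3. -/
def StGL3 : Prop := ∀ D : ℝ, D < 3 → ∃ D' : ℝ, D ≤ D' ∧ 0 < D' ∧ QG3 D'

/-- M03, EASY (compare I_M20).  `m = 3`, `n³`, `A = d`, `w = z³ n³ - d³` (no zeros; `e1 0 = 1`,
`e1 3 = 3`); `A 0 = d 0 ≠ 0` (the condition at `z = 0`).  At 0: `‖n 0‖³/‖d 0‖³ = D³`. -/
def StM03 : Prop := ∀ D : ℝ, QG3 D → ∃ (m : ℕ) (g A w : ℂ → ℂ), IsMap 0 3 (D ^ 3) m g A w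

/-- M26, EASY (compare I_M24).  `m = 3`, `4 n³ (d³ - z³ n³)`, `A = d`, `w = i (2 z³ n³ - d³)`:
`4 z³ n³ (d³ - z³ n³) - d⁶ = - (2 z³ n³ - d³)²` (ring).  At 0: `4 ‖n 0‖³ ‖d 0‖³ / ‖d 0‖⁶ = 4 D³`. -/
def StM26 : Prop := ∀ D : ℝ, QG3 D → ∃ (m : ℕ) (g A w : ℂ → ℂ), IsMap 2 6 (4 * D ^ 3) m g A w

/-- M33, EASY-MEDIUM (compare I_M44).  `x = G²`, `G z = z g z` from `QG D`, `ω` with `ω² + ω + 1 = 0`
(`ω = (-1 + √3 i)/2`), `ω̄ = -1 - ω`: `m = 2`, `3 (ω - ω̄) (x - 1) g²`, `A = x + ω`, `w = -(x + ω̄)`: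
`(x + ω)³ - (x + ω̄)³ = 3 (ω - ω̄) x (x - 1)` (`ω³ = ω̄³ = 1`, `ω² - ω̄² = -(ω - ω̄)`), so
`3 (ω - ω̄) x (x-1) - A³ = w³`.  `x ≠ 1` and `g ≠ 0`.  At 0: `‖ω - ω̄‖ = √3`, `‖A 0‖ = ‖ω‖ = 1`. -/
def StM33 : Prop := ∀ D : ℝ, QG D → ∃ (m : ℕ) (g A w : ℂ → ℂ),
  IsMap 3 3 (3 * Real.sqrt 3 * D ^ 2) m g A w

/-- RTP, EASY-MEDIUM.  Roots of a factor of an `N`-th power.  USES ROOT TG.StGLU.

Local roots: at `z0` with `P z0 ≠ 0` ROOT on a small ball; at `z0` with `P z0 = 0`, `Q z0 ≠ 0`, let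
`q^N = Q` on a small ball without zeros of `Q` (ROOT), then `(d / q)^N = P` there.  GLU with `E = ℂ`,
`f` = a local root near 0.  For `z0` let `r` be a local root on `ball z0 δ`.  If `g` is holomorphic on
`ball 0 r'` and equal to `f` near 0, then `g^N = P` on `ball 0 r'` (identity theorem).  On the
intersection `I` (convex, open, nonempty) `∏_{ζ^N = 1} (g - ζ r) = g^N - r^N = 0`, so one of the factors
vanishes identically on `I` (the product of finitely many analytic functions on a preconnected open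
set vanishes only if one of them does, `AnalyticOnNhd.eq_zero_or_eq_zero_of_mul_eq_zero` or similar):
`g = ζ r`, `G = ζ r`.  The result `F` of GLU has `F^N = P` near 0, so on the disc. -/
def StRTP : Prop := ∀ (P Q d : ℂ → ℂ) (N : ℕ), 0 < N →
  DifferentiableOn ℂ P (Metric.ball 0 1) → DifferentiableOn ℂ Q (Metric.ball 0 1) →
  DifferentiableOn ℂ d (Metric.ball 0 1) →
  (∀ z ∈ Metric.ball (0 : ℂ) 1, P z * Q z = d z ^ N) →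
  (∀ z ∈ Metric.ball (0 : ℂ) 1, P z = 0 → Q z ≠ 0) → P 0 ≠ 0 →
  ∃ w : ℂ → ℂ, DifferentiableOn ℂ w (Metric.ball 0 1) ∧
    ∀ z ∈ Metric.ball (0 : ℂ) 1, w z ^ N = P z

/-- M66, EASY-MEDIUM.  USES RTP TG.StSqr.

`n`, `d` from `QG3 D`, evaluated at `z²`: `n2 = n(z²)`, `d2 = d(z²)`, `y = z² n2`, so `n2 ≠ 0` and
`d2³ - y³ ≠ 0`.  `ρ` = a square root of `n2³ (d2³ - y³)` (TG.StSqr).  `u = z³ ρ`: `u² = y³ (d2³ - y³)`.
`P = 2 u + i (2 y³ - d2³)`, `Q = 2 u - i (2 y³ - d2³)`: `P Q = 4 u² + (2 y³ - d2³)² = d2⁶` (ring),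
`P + Q = 4 u`.  No common zeros: `P = Q = 0` gives `u = 0`, so `z = 0` (`ρ ≠ 0`), and at `z = 0`,
`P 0 = - i (d 0)³ ≠ 0`; the same for `Q 0`.  RTP (twice, `N = 6`, `d = d2`): `w⁶ = P`, `A⁶ = Q`.
`IsMap 6 6` with `m = 3`, `4 ρ`: `z³ 4 ρ - A⁶ = 4 u - Q = P = w⁶`.  At 0: `‖4 ρ 0‖ / ‖Q 0‖`,
`‖ρ 0‖² = ‖n 0‖³ ‖d 0‖³ = D³ ‖d 0‖⁶`, `‖Q 0‖ = ‖d 0‖³`: the radius is `4 √(D³)`. -/
def StM66 : Prop := ∀ D : ℝ, QG3 D → ∃ (m : ℕ) (g A w : ℂ → ℂ),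
  IsMap 6 6 (4 * Real.sqrt (D ^ 3)) m g A w

/-- MPN, EASY-MEDIUM (compare I_MPT).  The maps.  USES GLI GL3 SYM M33 M66 M26 M03.

The radii `3 √3 D²` at `D = 4`, and `4 √(D³)`, `4 D³`, `D³` at `D = 3`, are the values of continuous
increasing functions of `D > 0` (`4 √27 = 12 √3`).  As in I_MPT. -/
def StMPN : Prop := ∀ (n1 n2 : ℕ) (R : ℝ), TypN n1 n2 R → ∀ R' < R,
  ∃ (m : ℕ) (g A w : ℂ → ℂ), IsMap n1 n2 R' m g A w

end Pool.Agent.Work.MP_5e5ff1_ag.TH
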