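import Mathlib
import Pool.Agent.Work.MP_5e5ff1_ag.TH.StmtsZ

set_option autoImplicit false

/-!
# TH, item GB3 (helper5): the identity map omits the cube roots of unity
-/

namespace Pool.Agent.Work.MP_5e5ff1_ag.TH

theorem pr_GB3 : StGB3 := by
  refine ⟨fun _ => 1, fun _ => 1, differentiableOn_const _, differentiableOn_const _,
    fun z hz => ?_, by rw [one_mul]⟩
  have hz' : ‖z‖ < 1 := by simpa using hz
  refine ⟨one_ne_zero, ?_⟩
  show (1 : ℂ) ^ 3 - (z * 1) ^ 3 ≠ 0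
  rw [mul_one, one_pow, sub_ne_zero]
  intro h
  have h1 : ‖z‖ ^ 3 = 1 := by rw [← norm_pow, ← h, norm_one]
  have h2 : ‖z‖ ^ 3 < 1 := pow_lt_one₀ (norm_nonneg z) hz' (by norm_num)
  linarith

end Pool.Agent.Work.MP_5e5ff1_ag.TH
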