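import Mathlib
import Pool.Agent.Work.MP_5e5ff1_ag.TH.StmtsB

set_option autoImplicit false

/-!
# TH, item GBA: the identity map
-/

namespace Pool.Agent.Work.MP_5e5ff1_ag.TH

theorem pr_GBA : StGBA := by
  refine ⟨fun _ => 1, differentiableOn_const _, fun z hz => ?_, norm_one⟩
  have hz' : ‖z‖ < 1 := by simpa using hz
  refine ⟨one_ne_zero, ?_, ?_⟩
  · rw [mul_one]
    rintro rfl
    rw [norm_one] at hz'
    exact lt_irrefl _ hz'
  · rw [mul_one]
    rintro rfl
    rw [norm_neg, norm_one] at hz'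
    exact lt_irrefl _ hz'

end Pool.Agent.Work.MP_5e5ff1_ag.TH
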