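import Mathlib
import Pool.Agent.Work.MP_5e5ff1_ag.TH.StmtsD

/-!
# Item GCV (block TH): the formal solutions have a positive radius of convergence
-/

set_option autoImplicit false

namespace Pool.Agent.Work.MP_5e5ff1_ag.TH

namespace IGCV

open Finset

variable {ι : Type} [Fintype ι] [DecidableEq ι] {M : ℕ} {A : ℕ → Matrix ι ι ℤ}
  {γ : ι → ℤ} {G : ℕ → Matrix ι ι ℚ}

lemma eqn_real (h : IsG M (fun m => qm (A m)) γ G) (n : ℕ) (i j : ι) :
    (M : ℝ) * (n : ℝ) * (G n i j : ℝ) = (γ j : ℝ) * (G n i j : ℝ) -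
      ∑ k ∈ range (n + 1), ∑ l, (A (n - k) i l : ℝ) * (G k l j : ℝ) := by
  have e := h.eqn n i j
  unfold DA at e
  simp only [LinearMap.coe_mk, AddHom.coe_mk, Matrix.mulVec, dotProduct, qm,
    Matrix.map_apply, eq_intCast] at e
  have e2 := congrArg (fun q : ℚ => (q : ℝ)) e
  push_cast at e2
  linarith

lemma term (h : IsG M (fun m => qm (A m)) γ G) {c : ℝ} (hc : ∀ m i j, |(A m i j : ℝ)| ≤ c)
    (n : ℕ) (i j : ι) :
    (M : ℝ) * (n : ℝ) * |(G n i j : ℝ)| ≤ |(γ j : ℝ)| * |(G n i j : ℝ)| +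
      ∑ k ∈ range (n + 1), ∑ l, c * |(G k l j : ℝ)| := by
  have e := eqn_real h n i j
  have h0 : (M : ℝ) * (n : ℝ) * |(G n i j : ℝ)| = |(M : ℝ) * (n : ℝ) * (G n i j : ℝ)| := by
    rw [abs_mul, abs_of_nonneg (by positivity : (0 : ℝ) ≤ (M : ℝ) * n)]
  rw [h0, e]
  have h2 : |∑ k ∈ range (n + 1), ∑ l, (A (n - k) i l : ℝ) * (G k l j : ℝ)| ≤
      ∑ k ∈ range (n + 1), ∑ l, c * |(G k l j : ℝ)| := by
    refine (abs_sum_le_sum_abs _ _).trans ?_
    refine sum_le_sum fun k _ => ?_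
    refine (abs_sum_le_sum_abs _ _).trans ?_
    refine sum_le_sum fun l _ => ?_
    rw [abs_mul]
    exact mul_le_mul_of_nonneg_right (hc _ _ _) (abs_nonneg _)
  rw [← abs_mul]
  exact (abs_sub _ _).trans (add_le_add le_rfl h2)

lemma key (h : IsG M (fun m => qm (A m)) γ G) {c : ℝ} (hc : ∀ m i j, |(A m i j : ℝ)| ≤ c)
    (n : ℕ) :
    ((M : ℝ) * (n : ℝ) - (∑ j, |(γ j : ℝ)|) - Fintype.card ι * c) *
      (∑ i, ∑ j, |(G n i j : ℝ)|) ≤
      (Fintype.card ι * c) * ∑ k ∈ range n, ∑ i, ∑ j, |(G k i j : ℝ)| := by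
  have h1 : ∑ i : ι, ∑ j : ι, (M : ℝ) * (n : ℝ) * |(G n i j : ℝ)| ≤
      (∑ i : ι, ∑ j : ι, |(γ j : ℝ)| * |(G n i j : ℝ)|) +
      ∑ _i : ι, ∑ j : ι, ∑ k ∈ range (n + 1), ∑ l : ι, c * |(G k l j : ℝ)| := by
    simp only [← sum_add_distrib]
    exact sum_le_sum fun i _ => sum_le_sum fun j _ => term h hc n i j
  have h4 : ∑ i, ∑ j, |(γ j : ℝ)| * |(G n i j : ℝ)| ≤
      (∑ j, |(γ j : ℝ)|) * ∑ i, ∑ j, |(G n i j : ℝ)| := by
    rw [mul_sum]
    refine sum_le_sum fun i _ => ?_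
    rw [mul_sum]
    refine sum_le_sum fun j _ => ?_
    refine mul_le_mul_of_nonneg_right ?_ (abs_nonneg _)
    exact single_le_sum (f := fun j => |(γ j : ℝ)|) (fun _ _ => abs_nonneg _) (mem_univ j)
  have h2 : ∑ _i : ι, ∑ j : ι, ∑ k ∈ range (n + 1), ∑ l : ι, c * |(G k l j : ℝ)| =
      (Fintype.card ι * c) * ∑ k ∈ range (n + 1), ∑ i, ∑ j, |(G k i j : ℝ)| := by
    have e1 : ∑ j, ∑ k ∈ range (n + 1), ∑ l, c * |(G k l j : ℝ)| =
        c * ∑ k ∈ range (n + 1), ∑ i, ∑ j, |(G k i j : ℝ)| := by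
      rw [sum_comm, mul_sum]
      refine sum_congr rfl fun k _ => ?_
      rw [sum_comm, mul_sum]
      refine sum_congr rfl fun l _ => ?_
      rw [mul_sum]
    rw [e1, sum_const, card_univ, nsmul_eq_mul]
    ring
  have h5 : ∑ i, ∑ j, (M : ℝ) * (n : ℝ) * |(G n i j : ℝ)| =
      (M : ℝ) * (n : ℝ) * ∑ i, ∑ j, |(G n i j : ℝ)| := by
    simp only [← mul_sum]
  rw [h5, h2, sum_range_succ] at h1
  nlinarith [h1, h4]

end IGCV

open Finset in
/-- Item GCV. -/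
theorem pr_GCV (h1 : TG.StMAJ) : StGCV := by
  intro ι _ _ M A γ G hM hc hG
  obtain ⟨c0, hc0⟩ := hc
  set c : ℝ := max (c0 : ℝ) 0 with hcd
  have hc0' : 0 ≤ c := le_max_right _ _
  have hc : ∀ m i j, |(A m i j : ℝ)| ≤ c := by
    intro m i j
    refine le_trans ?_ (le_max_left _ _)
    have := hc0 m i j
    exact_mod_cast this
  set x : ℕ → ℝ := fun n => ∑ i, ∑ j, |(G n i j : ℝ)| with hx
  have hx0 : ∀ n, 0 ≤ x n := fun n => sum_nonneg fun _ _ => sum_nonneg fun _ _ => abs_nonneg _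
  obtain ⟨n0, hn0⟩ := exists_nat_ge ((∑ j, |(γ j : ℝ)|) + Fintype.card ι * c + 1)
  obtain ⟨A', hA, hb⟩ := h1 x (Fintype.card ι * c) n0 (by positivity) hx0 (by
      intro n hn
      have h2 := IGCV.key hG hc n
      have h3 : (n0 : ℝ) ≤ n := by exact_mod_cast hn
      have h4 : (0 : ℝ) ≤ n := n.cast_nonneg
      have hM1 : (1 : ℝ) ≤ M := by exact_mod_cast hM
      have h6 : (n : ℝ) ≤ (M : ℝ) * n := by nlinarith
      have h5 : 1 ≤ (M : ℝ) * (n : ℝ) - (∑ j, |(γ j : ℝ)|) - Fintype.card ι * c := by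
        linarith
      calc x n = 1 * x n := (one_mul _).symm
        _ ≤ _ := mul_le_mul_of_nonneg_right h5 (hx0 n)
        _ ≤ _ := h2)
  refine ⟨A', hA, fun n i j => ?_⟩
  refine le_trans ?_ (hb n)
  have h6 := single_le_sum (f := fun i => ∑ j, |(G n i j : ℝ)|)
    (fun _ _ => sum_nonneg fun _ _ => abs_nonneg _) (mem_univ i)
  have h7 := single_le_sum (f := fun j => |(G n i j : ℝ)|) (fun _ _ => abs_nonneg _) (mem_univ j)
  exact h7.trans h6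

end Pool.Agent.Work.MP_5e5ff1_ag.TH
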