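import Mathlib
import Pool.Agent.Work.MP_5e5ff1_ag.TH.StmtsZ

/-!
# MP_5e5ff1_ag, block TH, item GL3: the limit of the cubic steps (helper57)
-/

set_option autoImplicit false

open Filter Topology
open scoped Polynomial

namespace Pool.Agent.Work.MP_5e5ff1_ag.TH

namespace IGL3

theorem step (hA : StGB3) (hS : StGS3) (k : ℕ) : QG3 ((3 : ℝ) ^ (1 - (1 / 3 : ℝ) ^ k)) := by
  induction k with
  | zero =>
    rw [pow_zero, sub_self, Real.rpow_zero]
    exact hA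
  | succ k ih =>
    have h := hS _ (Real.rpow_pos_of_pos (by norm_num) _) ih
    have e : (9 * (3 : ℝ) ^ (1 - (1 / 3 : ℝ) ^ k)) ^ (1 / 3 : ℝ) =
        (3 : ℝ) ^ (1 - (1 / 3 : ℝ) ^ (k + 1)) := by
      have h2 : (9 : ℝ) = (3 : ℝ) ^ (2 : ℝ) := by
        rw [Real.rpow_two]
        norm_num
      rw [h2, ← Real.rpow_add (by norm_num : (0 : ℝ) < 3),
        ← Real.rpow_mul (by norm_num : (0 : ℝ) ≤ 3)]
      congr 1
      rw [pow_succ]
      ring
    rw [e] at h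
    exact h

end IGL3

/-- Item GL3. -/
theorem pr_GL3 (hA : StGB3) (hS : StGS3) : StGL3 := by
  intro D hD
  have h1 : Tendsto (fun k : ℕ => (1 / 3 : ℝ) ^ k) atTop (𝓝 0) :=
    tendsto_pow_atTop_nhds_zero_of_lt_one (by norm_num) (by norm_num)
  have h2 : Tendsto (fun k : ℕ => 1 - (1 / 3 : ℝ) ^ k) atTop (𝓝 (1 - 0)) :=
    tendsto_const_nhds.sub h1
  have h3 : Tendsto (fun k : ℕ => (3 : ℝ) ^ (1 - (1 / 3 : ℝ) ^ k)) atTop
      (𝓝 ((3 : ℝ) ^ ((1 : ℝ) - 0))) :=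
    ((Real.continuous_const_rpow (by norm_num : (3 : ℝ) ≠ 0)).tendsto _).comp h2
  rw [sub_zero, Real.rpow_one] at h3
  obtain ⟨k, hk⟩ := (h3.eventually (lt_mem_nhds hD)).exists
  exact ⟨_, hk.le, Real.rpow_pos_of_pos (by norm_num) _, IGL3.step hA hS k⟩

end Pool.Agent.Work.MP_5e5ff1_ag.TH
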