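import Mathlib
import Pool.Agent.Work.MP_5e5ff1_ag.TH.StmtsB

/-!
# MP_5e5ff1_ag, block TH, item GLI: the limit of the Landen steps (helper35)
-/

set_option autoImplicit false

open Filter Topology
open scoped Polynomial

namespace Pool.Agent.Work.MP_5e5ff1_ag.TH

namespace IGLI

theorem step (hA : StGBA) (hS : StGST) (k : ℕ) : QG ((4 : ℝ) ^ (1 - (1 / 2 : ℝ) ^ k)) := by
  induction k with
  | zero =>
    rw [pow_zero, sub_self, Real.rpow_zero]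
    exact hA
  | succ k ih =>
    have h := hS _ ih
    have e : 2 * Real.sqrt ((4 : ℝ) ^ (1 - (1 / 2 : ℝ) ^ k)) =
        (4 : ℝ) ^ (1 - (1 / 2 : ℝ) ^ (k + 1)) := by
      have h2 : (2 : ℝ) = (4 : ℝ) ^ (1 / 2 : ℝ) := by
        rw [← Real.sqrt_eq_rpow, show (4 : ℝ) = 2 ^ 2 by norm_num,
          Real.sqrt_sq (by norm_num : (0 : ℝ) ≤ 2)]
      rw [Real.sqrt_eq_rpow, ← Real.rpow_mul (by norm_num : (0 : ℝ) ≤ 4)]
      nth_rewrite 1 [h2]
      rw [← Real.rpow_add (by norm_num : (0 : ℝ) < 4)]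
      congr 1
      rw [pow_succ]
      ring
    rw [e] at h
    exact h

end IGLI

/-- Item GLI. -/
theorem pr_GLI (hA : StGBA) (hS : StGST) : StGLI := by
  intro D hD
  have h1 : Tendsto (fun k : ℕ => (1 / 2 : ℝ) ^ k) atTop (𝓝 0) :=
    tendsto_pow_atTop_nhds_zero_of_lt_one (by norm_num) (by norm_num)
  have h2 : Tendsto (fun k : ℕ => 1 - (1 / 2 : ℝ) ^ k) atTop (𝓝 (1 - 0)) :=
    tendsto_const_nhds.sub h1
  have h3 : Tendsto (fun k : ℕ => (4 : ℝ) ^ (1 - (1 / 2 : ℝ) ^ k)) atTop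
      (𝓝 ((4 : ℝ) ^ ((1 : ℝ) - 0))) :=
    ((Real.continuous_const_rpow (by norm_num : (4 : ℝ) ≠ 0)).tendsto _).comp h2
  rw [sub_zero, Real.rpow_one] at h3
  obtain ⟨k, hk⟩ := (h3.eventually (lt_mem_nhds hD)).exists
  exact ⟨_, hk.le, Real.rpow_pos_of_pos (by norm_num) _, IGLI.step hA hS k⟩

end Pool.Agent.Work.MP_5e5ff1_ag.TH
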