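import Mathlib
import Pool.Agent.Work.MP_5e5ff1_ag.TH.StmtsA

set_option autoImplicit false

/-!
# MP_5e5ff1_ag, block TH, item GOD: primes with vanishing p-curvature
-/

open Matrix Filter Topology
open scoped Polynomial

namespace Pool.Agent.Work.MP_5e5ff1_ag.TH

namespace IGOD

theorem norm_prod (p : ℕ) [Fact p.Prime] {α : Type} (S : Finset α) (g : α → ℚ) :
    padicNorm p (∏ x ∈ S, g x) = ∏ x ∈ S, padicNorm p (g x) := by
  classical
  induction S using Finset.induction_on with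
  | empty => simp
  | insert a s ha ih => rw [Finset.prod_insert ha, Finset.prod_insert ha, padicNorm.mul, ih]

theorem norm_int (p : ℕ) [hp : Fact p.Prime] (x : ℤ) (hx : x ≠ 0) :
    padicNorm p (x : ℚ) * (p : ℚ) ^ padicValInt p x = 1 := by
  have hp0 : (p : ℚ) ≠ 0 := by exact_mod_cast hp.1.ne_zero
  have hx' : (x : ℚ) ≠ 0 := by exact_mod_cast hx
  rw [padicNorm.eq_zpow_of_nonzero hx', padicValRat.of_int, ← zpow_natCast, ← zpow_add₀ hp0]
  simp

theorem one_le_prod {α : Type} (S : Finset α) (g : α → ℚ) (h : ∀ x ∈ S, 1 ≤ g x) :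
    1 ≤ ∏ x ∈ S, g x :=
  Finset.prod_induction g (fun x => 1 ≤ x) (fun _ _ ha hb => one_le_mul_of_one_le_of_one_le ha hb)
    le_rfl h

theorem mapA0 {ι : Type} [Fintype ι] [DecidableEq ι] (β : ι → ℤ) (C : Matrix ι ι ℤ) :
    (fun m => (A0 β C m).map (Int.castRingHom ℚ)) = A0 β (C.map (Int.castRingHom ℚ)) := by
  funext m
  unfold A0
  by_cases h : m = 0
  · rw [if_pos h, if_pos h]
    ext a b
    simp only [Matrix.map_apply, Matrix.neg_apply, db]
    by_cases hab : a = b
    · subst hab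
      simp
    · rw [Matrix.diagonal_apply_ne _ hab, Matrix.diagonal_apply_ne _ hab]
      simp
  · rw [if_neg h, if_neg h]

end IGOD

theorem pr_GOD (hBLM : StBLM) (hLAG : StLAG) (hCAS : StCAS) (hCN2 : StCN2) : StGOD := by
  classical
  intro p hp ι _ _ M β C U hM hpM hU hβ hPZ B hB n i j
  have hpp : p.Prime := hp.1
  have hp1 : (1 : ℚ) ≤ p := by exact_mod_cast hpp.one_lt.le
  have hp0 : (0 : ℚ) < p := by exact_mod_cast hpp.pos
  set m : ℕ := n / p + 1 with hm
  set T : Finset ℤ := Finset.univ.image β with hT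
  set f : ℤ[X] := ∏ c ∈ T, ∏ k ∈ Finset.Icc 1 (m * p),
    ((Polynomial.X : ℤ[X]) + Polynomial.C (c - (M : ℤ) * (k : ℤ))) with hf
  set φ : ℤ →+* ℚ := Int.castRingHom ℚ with hφ
  have hmp : m * p ≤ n + p := by
    have h := Nat.div_mul_le_self n p
    rw [hm, Nat.add_mul, Nat.one_mul]
    omega
  have hnM : n < m * p + 1 := by
    have h := Nat.lt_div_mul_add (a := n) hpp.pos
    rw [hm, Nat.add_mul, Nat.one_mul]
    omega
  -- values of f
  have heval : ∀ x : ℚ, (f.map φ).eval x =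
      ∏ c ∈ T, ∏ k ∈ Finset.Icc 1 (m * p), (x + ((c : ℚ) - (M : ℚ) * (k : ℚ))) := by
    intro x
    rw [hf, Polynomial.map_prod, Polynomial.eval_prod]
    refine Finset.prod_congr rfl fun c _ => ?_
    rw [Polynomial.map_prod, Polynomial.eval_prod]
    refine Finset.prod_congr rfl fun k _ => ?_
    rw [Polynomial.map_add, Polynomial.map_X, Polynomial.map_C, Polynomial.eval_add,
      Polynomial.eval_X, Polynomial.eval_C]
    simp [hφ]
  have hroot : ∀ (k : ℕ) (i : ι), 1 ≤ k → k < m * p + 1 →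
      (f.map φ).eval ((M : ℚ) * (k : ℚ) - (β i : ℚ)) = 0 := by
    intro k i hk1 hk2
    rw [heval]
    refine Finset.prod_eq_zero (i := β i) (Finset.mem_image_of_mem β (Finset.mem_univ i)) ?_
    refine Finset.prod_eq_zero (i := k) (Finset.mem_Icc.2 ⟨hk1, by omega⟩) ?_
    ring
  have hlag := hLAG ℚ ι M β (C.map φ) U hU (m * p + 1) (f.map φ) hroot n i j hnM
  -- integrality
  obtain ⟨v', hv'⟩ := hBLM p ι M β C hpM hPZ m T (cst (fun l => if l = j then (1 : ℤ) else 0))
  have hcas := hCAS ℤ ℚ φ ι M (A0 β C) f (cst (fun l => if l = j then (1 : ℤ) else 0))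
  have hcst : (fun (n : ℕ) (i : ι) => φ (cst (fun l => if l = j then (1 : ℤ) else 0) n i)) =
      cst (fun l => if l = j then (1 : ℚ) else 0) := by
    funext a b
    unfold cst
    split_ifs <;> simp [hφ]
  rw [hcst, IGOD.mapA0 β C] at hcas
  rw [hcas] at hlag
  have hval : φ (Polynomial.aeval (DA M (A0 β C)) f (cst (fun l => if l = j then (1 : ℤ) else 0)) n i) =
      (p : ℚ) ^ (m * T.card) * (v' n i : ℚ) := by
    rw [hf, hv']
    simp [hφ]
  have hlag' : (p : ℚ) ^ (m * T.card) * (v' n i : ℚ) =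
      (f.map φ).eval (-(β j : ℚ)) * U n i j := by
    rw [← hval]
    exact hlag
  -- the norm of f(-beta)
  set A : ℚ := padicNorm p ((f.map φ).eval (-(β j : ℚ))) with hA
  have hAeq : A = ∏ c ∈ T, ∏ k ∈ Finset.Icc 1 (m * p),
      padicNorm p ((((M : ℤ) * (k : ℤ) + (β j - c) : ℤ)) : ℚ) := by
    rw [hA, heval, IGOD.norm_prod]
    refine Finset.prod_congr rfl fun c _ => ?_
    rw [IGOD.norm_prod]
    refine Finset.prod_congr rfl fun k _ => ?_
    have e : (-(β j : ℚ) + ((c : ℚ) - (M : ℚ) * (k : ℚ))) =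
        -((((M : ℤ) * (k : ℤ) + (β j - c) : ℤ)) : ℚ) := by
      push_cast
      ring
    rw [e, padicNorm.neg]
  have hLG : ∑ l ∈ Finset.Icc 2 (Nat.log p (M * (m * p) + B)), (m * p / p ^ l + 1) ≤
      LG p M B n := by
    unfold LG
    have hlog : Nat.log p (M * (m * p) + B) ≤ Nat.log p (M * (n + p) + B) :=
      Nat.log_mono_right (Nat.add_le_add_right (Nat.mul_le_mul_left M hmp) B)
    calc ∑ l ∈ Finset.Icc 2 (Nat.log p (M * (m * p) + B)), (m * p / p ^ l + 1)
        ≤ ∑ l ∈ Finset.Icc 2 (Nat.log p (M * (m * p) + B)), ((n + p) / p ^ l + 1) :=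
          Finset.sum_le_sum fun l _ => Nat.add_le_add_right (Nat.div_le_div_right hmp) 1
      _ ≤ ∑ l ∈ Finset.Icc 2 (Nat.log p (M * (n + p) + B)), ((n + p) / p ^ l + 1) :=
          Finset.sum_le_sum_of_subset (Finset.Icc_subset_Icc_right hlog)
  have hAge : 1 ≤ A * (p : ℚ) ^ ((m + LG p M B n) * T.card) := by
    have hfac : ∀ c ∈ T, 1 ≤ (∏ k ∈ Finset.Icc 1 (m * p),
        padicNorm p ((((M : ℤ) * (k : ℤ) + (β j - c) : ℤ)) : ℚ)) * (p : ℚ) ^ (m + LG p M B n) := by
      intro c hc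
      obtain ⟨i', _, rfl⟩ := Finset.mem_image.1 hc
      have hne : ∀ k : ℕ, 1 ≤ k → (M : ℤ) * (k : ℤ) + (β j - β i') ≠ 0 := by
        intro k hk h0
        have hd : (M : ℤ) ∣ β i' - β j := ⟨k, by linarith⟩
        have := hβ i' j hd
        rw [this, sub_self, add_zero] at h0
        rcases mul_eq_zero.1 h0 with h1 | h1
        · exact hM.ne' (by exact_mod_cast h1)
        · have : k = 0 := by exact_mod_cast h1
          omega
      have hcn := hCN2 p M hpp hpM B m (β j - β i') (hB j i') hne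
      have hsum : ∑ k ∈ Finset.Icc 1 (m * p), padicValInt p ((M : ℤ) * (k : ℤ) + (β j - β i')) ≤
          m + LG p M B n := hcn.trans (by omega)
      have hone : (∏ k ∈ Finset.Icc 1 (m * p),
          padicNorm p ((((M : ℤ) * (k : ℤ) + (β j - β i') : ℤ)) : ℚ)) *
          (p : ℚ) ^ (∑ k ∈ Finset.Icc 1 (m * p), padicValInt p ((M : ℤ) * (k : ℤ) + (β j - β i'))) =
          1 := by
        rw [← Finset.prod_pow_eq_pow_sum, ← Finset.prod_mul_distrib]
        refine Finset.prod_eq_one fun k hk => ?_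
        exact IGOD.norm_int p _ (hne k (Finset.mem_Icc.1 hk).1)
      calc (1 : ℚ) = (∏ k ∈ Finset.Icc 1 (m * p),
            padicNorm p ((((M : ℤ) * (k : ℤ) + (β j - β i') : ℤ)) : ℚ)) *
            (p : ℚ) ^ (∑ k ∈ Finset.Icc 1 (m * p), padicValInt p ((M : ℤ) * (k : ℤ) + (β j - β i'))) :=
            hone.symm
        _ ≤ _ := by
            refine mul_le_mul_of_nonneg_left (pow_le_pow_right₀ hp1 hsum) ?_
            exact Finset.prod_nonneg fun k _ => padicNorm.nonneg _
    have h := IGOD.one_le_prod T _ hfac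
    rw [Finset.prod_mul_distrib, Finset.prod_const, ← pow_mul, ← hAeq] at h
    exact h
  have hApos : 0 < A := by
    have h0 : 0 ≤ A := padicNorm.nonneg _
    rcases h0.lt_or_eq with h | h
    · exact h
    · rw [← h, zero_mul] at hAge
      norm_num at hAge
  -- the norm of the other side
  have hnorm : A * padicNorm p (U n i j) * (p : ℚ) ^ (m * T.card) ≤ 1 := by
    have e := congrArg (padicNorm p) hlag'
    rw [padicNorm.mul, padicNorm.mul] at e
    rw [← hA] at e
    rw [← e]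
    have hpn : padicNorm p ((p : ℚ) ^ (m * T.card)) * (p : ℚ) ^ (m * T.card) = 1 := by
      have hpz : ((p : ℤ) ^ (m * T.card)) ≠ 0 := pow_ne_zero _ (by exact_mod_cast hpp.ne_zero)
      have h := IGOD.norm_int p ((p : ℤ) ^ (m * T.card)) hpz
      have hv : padicValInt p ((p : ℤ) ^ (m * T.card)) = m * T.card := by
        rw [← Int.natCast_pow, padicValInt.of_nat, padicValNat.prime_pow]
      rw [hv] at h
      push_cast at h
      exact h
    have hz : padicNorm p (v' n i : ℚ) ≤ 1 := padicNorm.of_int _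
    calc padicNorm p ((p : ℚ) ^ (m * T.card)) * padicNorm p (v' n i : ℚ) *
          (p : ℚ) ^ (m * T.card)
        = (padicNorm p ((p : ℚ) ^ (m * T.card)) * (p : ℚ) ^ (m * T.card)) *
          padicNorm p (v' n i : ℚ) := by ring
      _ = padicNorm p (v' n i : ℚ) := by rw [hpn, one_mul]
      _ ≤ 1 := hz
  have hUle : padicNorm p (U n i j) * (p : ℚ) ^ (m * T.card) ≤
      (p : ℚ) ^ ((m + LG p M B n) * T.card) := by
    have h1 : A * (padicNorm p (U n i j) * (p : ℚ) ^ (m * T.card)) ≤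
        A * (p : ℚ) ^ ((m + LG p M B n) * T.card) := by
      calc A * (padicNorm p (U n i j) * (p : ℚ) ^ (m * T.card))
          = A * padicNorm p (U n i j) * (p : ℚ) ^ (m * T.card) := by ring
        _ ≤ 1 := hnorm
        _ ≤ _ := hAge
    exact le_of_mul_le_mul_left h1 hApos
  have hUle2 : padicNorm p (U n i j) ≤ (p : ℚ) ^ (LG p M B n * T.card) := by
    have hpos : (0 : ℚ) < (p : ℚ) ^ (m * T.card) := pow_pos hp0 _
    refine le_of_mul_le_mul_right ?_ hpos
    calc padicNorm p (U n i j) * (p : ℚ) ^ (m * T.card)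
        ≤ (p : ℚ) ^ ((m + LG p M B n) * T.card) := hUle
      _ = (p : ℚ) ^ (LG p M B n * T.card) * (p : ℚ) ^ (m * T.card) := by
          rw [← pow_add]
          congr 1
          ring
  refine hUle2.trans (le_of_eq ?_)
  rw [mul_comm]
  rfl

end Pool.Agent.Work.MP_5e5ff1_ag.TH
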