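import Mathlib
import Pool.Agent.Work.MP_5e5ff1_ag.TH.StmtsX

set_option autoImplicit false

/-!
# MP_5e5ff1_ag, block TH, item GODN: primes with vanishing p-curvature, resonance allowed
-/

open Matrix Filter Topology
open scoped Polynomial

namespace Pool.Agent.Work.MP_5e5ff1_ag.TH

namespace IGODN

theorem norm_prod (p : ℕ) [Fact p.Prime] {α : Type} (S : Finset α) (g : α → ℚ) :
    padicNorm p (∏ x ∈ S, g x) = ∏ x ∈ S, padicNorm p (g x) := by
  classical
  induction S using Finset.induction_on with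
  | empty => simp
  | insert a s ha ih => rw [Finset.prod_insert ha, Finset.prod_insert ha, padicNorm.mul, ih]

theorem norm_int (p : ℕ) [hp : Fact p.Prime] (x : ℤ) (hx : x ≠ 0) :
    padicNorm p (x : ℚ) * (p : ℚ) ^ padicValInt p x = 1 := by
  have hp0 : (p : ℚ) ≠ 0 := by exact_mod_cast hp.1.ne_zero
  have hx' : (x : ℚ) ≠ 0 := by exact_mod_cast hx
  rw [padicNorm.eq_zpow_of_nonzero hx', padicValRat.of_int, ← zpow_natCast, ← zpow_add₀ hp0]
  simp

theorem one_le_prod {α : Type} (S : Finset α) (g : α → ℚ) (h : ∀ x ∈ S, 1 ≤ g x) :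
    1 ≤ ∏ x ∈ S, g x :=
  Finset.prod_induction g (fun x => 1 ≤ x) (fun _ _ ha hb => one_le_mul_of_one_le_of_one_le ha hb)
    le_rfl h

theorem mapA0g {ι : Type} [Fintype ι] [DecidableEq ι] {S : Type} [CommRing S] (φ : ℤ →+* S)
    (B C : Matrix ι ι ℤ) :
    (fun m => (A0g B C m).map φ) = A0g (B.map φ) (C.map φ) := by
  funext m
  unfold A0g
  by_cases h : m = 0
  · rw [if_pos h, if_pos h]
    ext a b
    simp only [Matrix.map_apply, Matrix.neg_apply, map_neg]
  · rw [if_neg h, if_neg h]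

end IGODN

theorem pr_GODN (hREP : StREP) (hLAGR : StLAGR) (hCAS : StCAS) (hPC0G : StPC0G)
    (hBLMG : StBLMG) (hCN2 : StCN2) : StGODN := by
  classical
  intro p hp ι _ _ M β Bm C U hM hpM hPZ hU hdet B hB hInt n i j
  have hpp : p.Prime := hp.1
  have hp1 : (1 : ℚ) ≤ p := by exact_mod_cast hpp.one_lt.le
  have hp0 : (0 : ℚ) < p := by exact_mod_cast hpp.pos
  set m : ℕ := n / p + 1 with hm
  obtain ⟨T, hT⟩ := hREP ι M β hM
  set f : ℤ[X] := ∏ c ∈ T, ∏ k ∈ Finset.Icc 1 (m * p),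
    ((Polynomial.X : ℤ[X]) + Polynomial.C (c - (M : ℤ) * (k : ℤ))) with hf
  set φ : ℤ →+* ℚ := Int.castRingHom ℚ with hφ
  have hmp : m * p ≤ n + p := by
    have h := Nat.div_mul_le_self n p
    rw [hm, Nat.add_mul, Nat.one_mul]
    omega
  have hnM : n < m * p + 1 := by
    have h := Nat.lt_div_mul_add (a := n) hpp.pos
    rw [hm, Nat.add_mul, Nat.one_mul]
    omega
  -- values of f
  have heval : ∀ x : ℚ, (f.map φ).eval x =
      ∏ c ∈ T, ∏ k ∈ Finset.Icc 1 (m * p), (x + ((c : ℚ) - (M : ℚ) * (k : ℚ))) := by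
    intro x
    rw [hf, Polynomial.map_prod, Polynomial.eval_prod]
    refine Finset.prod_congr rfl fun c _ => ?_
    rw [Polynomial.map_prod, Polynomial.eval_prod]
    refine Finset.prod_congr rfl fun k _ => ?_
    rw [Polynomial.map_add, Polynomial.map_X, Polynomial.map_C, Polynomial.eval_add,
      Polynomial.eval_X, Polynomial.eval_C]
    simp [hφ]
  have hTB : ∀ c ∈ T, ∀ i, |β i - c| ≤ B := by
    intro c hc i
    obtain ⟨i', rfl⟩ := hT.mem c hc
    exact hB i i'
  have hroot : ∀ (k : ℕ) (i : ι), B < k → k < m * p + 1 →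
      (f.map φ).eval ((M : ℚ) * (k : ℚ) - (β i : ℚ)) = 0 := by
    intro k i hk1 hk2
    obtain ⟨c, hc, hci, e, he⟩ := hT.ex i
    have hM1 : (1 : ℤ) ≤ M := by exact_mod_cast hM
    have he0 : 0 ≤ e := by
      by_contra hneg
      push Not at hneg
      have h1 : (M : ℤ) * e < 0 := mul_neg_of_pos_of_neg (by linarith) hneg
      linarith
    have heB : e ≤ B := by
      have h1 := (abs_le.1 (hTB c hc i)).2
      have h2 : e ≤ (M : ℤ) * e := le_mul_of_one_le_left he0 hM1
      linarith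
    obtain ⟨e', rfl⟩ := Int.eq_ofNat_of_zero_le he0
    have heB' : e' ≤ B := by exact_mod_cast heB
    rw [heval]
    refine Finset.prod_eq_zero (i := c) hc ?_
    refine Finset.prod_eq_zero (i := k - e') (Finset.mem_Icc.2 ⟨by omega, by omega⟩) ?_
    have h3 : (β i : ℚ) - (c : ℚ) = (M : ℚ) * (e' : ℚ) := by exact_mod_cast he
    rw [Nat.cast_sub (by omega : e' ≤ k)]
    linear_combination -h3
  have hlag := hLAGR ℚ ι M β (Bm.map φ) (C.map φ) U hU hdet B (m * p + 1) (f.map φ) hroot n i j hnM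
  have hex : ∀ (n : ℕ) (i : ι), ∃ z : ℤ, φ z = if n ≤ B then U n i j else 0 := by
    intro n i
    by_cases h : n ≤ B
    · obtain ⟨z, hz⟩ := hInt n h i j
      exact ⟨z, by rw [if_pos h, hz]; rfl⟩
    · exact ⟨0, by rw [if_neg h, map_zero]⟩
  choose v hv0 using hex
  have hv : (fun (n : ℕ) (i : ι) => φ (v n i)) = fun n i => if n ≤ B then U n i j else 0 := by
    funext n i
    exact hv0 n i
  -- integrality
  have hfrob := hPC0G p ι M Bm C hpM hPZ
  have hpmA : A0g (pm p Bm) (pm p C) = fun m => pm p (A0g Bm C m) :=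
    (IGODN.mapA0g (Int.castRingHom (ZMod p)) Bm C).symm
  rw [hpmA] at hfrob
  obtain ⟨v', hv'⟩ := hBLMG p ι M (A0g Bm C) hpM hfrob m T v
  have hcas := hCAS ℤ ℚ φ ι M (A0g Bm C) f v
  rw [hv, IGODN.mapA0g φ Bm C] at hcas
  rw [hcas] at hlag
  have hval : φ (Polynomial.aeval (DA M (A0g Bm C)) f v n i) =
      (p : ℚ) ^ (m * T.card) * (v' n i : ℚ) := by
    rw [hf, hv']
    simp [hφ]
  have hlag' : (p : ℚ) ^ (m * T.card) * (v' n i : ℚ) =
      (f.map φ).eval (-(β j : ℚ)) * U n i j := by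
    rw [← hval]
    exact hlag
  -- the norm of f(-beta)
  set A : ℚ := padicNorm p ((f.map φ).eval (-(β j : ℚ))) with hA
  have hAeq : A = ∏ c ∈ T, ∏ k ∈ Finset.Icc 1 (m * p),
      padicNorm p ((((M : ℤ) * (k : ℤ) + (β j - c) : ℤ)) : ℚ) := by
    rw [hA, heval, IGODN.norm_prod]
    refine Finset.prod_congr rfl fun c _ => ?_
    rw [IGODN.norm_prod]
    refine Finset.prod_congr rfl fun k _ => ?_
    have e : (-(β j : ℚ) + ((c : ℚ) - (M : ℚ) * (k : ℚ))) =
        -((((M : ℤ) * (k : ℤ) + (β j - c) : ℤ)) : ℚ) := by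
      push_cast
      ring
    rw [e, padicNorm.neg]
  have hLG : ∑ l ∈ Finset.Icc 2 (Nat.log p (M * (m * p) + B)), (m * p / p ^ l + 1) ≤
      LG p M B n := by
    unfold LG
    have hlog : Nat.log p (M * (m * p) + B) ≤ Nat.log p (M * (n + p) + B) :=
      Nat.log_mono_right (Nat.add_le_add_right (Nat.mul_le_mul_left M hmp) B)
    calc ∑ l ∈ Finset.Icc 2 (Nat.log p (M * (m * p) + B)), (m * p / p ^ l + 1)
        ≤ ∑ l ∈ Finset.Icc 2 (Nat.log p (M * (m * p) + B)), ((n + p) / p ^ l + 1) :=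
          Finset.sum_le_sum fun l _ => Nat.add_le_add_right (Nat.div_le_div_right hmp) 1
      _ ≤ ∑ l ∈ Finset.Icc 2 (Nat.log p (M * (n + p) + B)), ((n + p) / p ^ l + 1) :=
          Finset.sum_le_sum_of_subset (Finset.Icc_subset_Icc_right hlog)
  have hAge : 1 ≤ A * (p : ℚ) ^ ((m + LG p M B n) * T.card) := by
    have hfac : ∀ c ∈ T, 1 ≤ (∏ k ∈ Finset.Icc 1 (m * p),
        padicNorm p ((((M : ℤ) * (k : ℤ) + (β j - c) : ℤ)) : ℚ)) * (p : ℚ) ^ (m + LG p M B n) := by
      intro c hc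
      have hne : ∀ k : ℕ, 1 ≤ k → (M : ℤ) * (k : ℤ) + (β j - c) ≠ 0 := by
        intro k hk h0
        have hd : (M : ℤ) ∣ β j - c := ⟨-k, by linarith⟩
        have h1 := hT.le c hc j hd
        have h2 : (0 : ℤ) < (M : ℤ) * (k : ℤ) :=
          mul_pos (by exact_mod_cast hM) (by exact_mod_cast hk)
        linarith
      have hcn := hCN2 p M hpp hpM B m (β j - c) (hTB c hc j) hne
      have hsum : ∑ k ∈ Finset.Icc 1 (m * p), padicValInt p ((M : ℤ) * (k : ℤ) + (β j - c)) ≤
          m + LG p M B n := hcn.trans (by omega)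
      have hone : (∏ k ∈ Finset.Icc 1 (m * p),
          padicNorm p ((((M : ℤ) * (k : ℤ) + (β j - c) : ℤ)) : ℚ)) *
          (p : ℚ) ^ (∑ k ∈ Finset.Icc 1 (m * p), padicValInt p ((M : ℤ) * (k : ℤ) + (β j - c))) =
          1 := by
        rw [← Finset.prod_pow_eq_pow_sum, ← Finset.prod_mul_distrib]
        refine Finset.prod_eq_one fun k hk => ?_
        exact IGODN.norm_int p _ (hne k (Finset.mem_Icc.1 hk).1)
      calc (1 : ℚ) = (∏ k ∈ Finset.Icc 1 (m * p),
            padicNorm p ((((M : ℤ) * (k : ℤ) + (β j - c) : ℤ)) : ℚ)) *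
            (p : ℚ) ^ (∑ k ∈ Finset.Icc 1 (m * p), padicValInt p ((M : ℤ) * (k : ℤ) + (β j - c))) :=
            hone.symm
        _ ≤ _ := by
            refine mul_le_mul_of_nonneg_left (pow_le_pow_right₀ hp1 hsum) ?_
            exact Finset.prod_nonneg fun k _ => padicNorm.nonneg _
    have h := IGODN.one_le_prod T _ hfac
    rw [Finset.prod_mul_distrib, Finset.prod_const, ← pow_mul, ← hAeq] at h
    exact h
  have hApos : 0 < A := by
    have h0 : 0 ≤ A := padicNorm.nonneg _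
    rcases h0.lt_or_eq with h | h
    · exact h
    · rw [← h, zero_mul] at hAge
      norm_num at hAge
  -- the norm of the other side
  have hnorm : A * padicNorm p (U n i j) * (p : ℚ) ^ (m * T.card) ≤ 1 := by
    have e := congrArg (padicNorm p) hlag'
    rw [padicNorm.mul, padicNorm.mul] at e
    rw [← hA] at e
    rw [← e]
    have hpn : padicNorm p ((p : ℚ) ^ (m * T.card)) * (p : ℚ) ^ (m * T.card) = 1 := by
      have hpz : ((p : ℤ) ^ (m * T.card)) ≠ 0 := pow_ne_zero _ (by exact_mod_cast hpp.ne_zero)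
      have h := IGODN.norm_int p ((p : ℤ) ^ (m * T.card)) hpz
      have hv : padicValInt p ((p : ℤ) ^ (m * T.card)) = m * T.card := by
        rw [← Int.natCast_pow, padicValInt.of_nat, padicValNat.prime_pow]
      rw [hv] at h
      push_cast at h
      exact h
    have hz : padicNorm p (v' n i : ℚ) ≤ 1 := padicNorm.of_int _
    calc padicNorm p ((p : ℚ) ^ (m * T.card)) * padicNorm p (v' n i : ℚ) *
          (p : ℚ) ^ (m * T.card)
        = (padicNorm p ((p : ℚ) ^ (m * T.card)) * (p : ℚ) ^ (m * T.card)) *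
          padicNorm p (v' n i : ℚ) := by ring
      _ = padicNorm p (v' n i : ℚ) := by rw [hpn, one_mul]
      _ ≤ 1 := hz
  have hUle : padicNorm p (U n i j) * (p : ℚ) ^ (m * T.card) ≤
      (p : ℚ) ^ ((m + LG p M B n) * T.card) := by
    have h1 : A * (padicNorm p (U n i j) * (p : ℚ) ^ (m * T.card)) ≤
        A * (p : ℚ) ^ ((m + LG p M B n) * T.card) := by
      calc A * (padicNorm p (U n i j) * (p : ℚ) ^ (m * T.card))
          = A * padicNorm p (U n i j) * (p : ℚ) ^ (m * T.card) := by ring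
        _ ≤ 1 := hnorm
        _ ≤ _ := hAge
    exact le_of_mul_le_mul_left h1 hApos
  have hUle2 : padicNorm p (U n i j) ≤ (p : ℚ) ^ (LG p M B n * T.card) := by
    have hpos : (0 : ℚ) < (p : ℚ) ^ (m * T.card) := pow_pos hp0 _
    refine le_of_mul_le_mul_right ?_ hpos
    calc padicNorm p (U n i j) * (p : ℚ) ^ (m * T.card)
        ≤ (p : ℚ) ^ ((m + LG p M B n) * T.card) := hUle
      _ = (p : ℚ) ^ (LG p M B n * T.card) * (p : ℚ) ^ (m * T.card) := by
          rw [← pow_add]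
          congr 1
          ring
  refine hUle2.trans (le_of_eq ?_)
  rw [mul_comm, hT.card]

end Pool.Agent.Work.MP_5e5ff1_ag.TH
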