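import Mathlib
import Pool.Agent.Work.MP_5e5ff1_ag.TH.StmtsY

/-!
# MP_5e5ff1_ag, block TH, item GRC: growth of the conjugated formal solution
-/

set_option autoImplicit false

open Matrix Filter Topology NumberField
open scoped Polynomial nonZeroDivisors

namespace Pool.Agent.Work.MP_5e5ff1_ag.TH

namespace IGRC

/-- the conjugated sequence is a formal solution of the conjugated system -/
theorem isU {F : Type} [Field F] {r : ℕ} (M N : ℕ) (β : Fin r → ℤ)
    (b c g h : Matrix (Fin r) (Fin r) F) (V : ℕ → Matrix (Fin r) (Fin r) F) (hN : (N : F) ≠ 0)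
    (hhg : h * g = (N : F) • (1 : Matrix (Fin r) (Fin r) F))
    (hgh : g * h = (N : F) • (1 : Matrix (Fin r) (Fin r) F))
    (hbg : b * g = g * Matrix.diagonal (fun i => ((β i : ℤ) : F))) (hV : IsS M b c V) :
    IsU (M * N) (fun i => N * β i) (h * c * g) (fun n => (N : F)⁻¹ • (h * V n * g)) := by
  obtain ⟨hV0, hVn⟩ := hV
  set D : Matrix (Fin r) (Fin r) F := Matrix.diagonal (fun i => ((β i : ℤ) : F)) with hD
  have hb : h * b = D * h := by
    have e1 : h * b * (g * h) = D * h * (g * h) := by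
      calc h * b * (g * h) = h * (b * g) * h := by simp only [Matrix.mul_assoc]
        _ = h * (g * D) * h := by rw [hbg]
        _ = (h * g) * (D * h) := by simp only [Matrix.mul_assoc]
        _ = (N : F) • (D * h) := by rw [hhg, Matrix.smul_mul, Matrix.one_mul]
        _ = D * h * (g * h) := by rw [hgh, Matrix.mul_smul, Matrix.mul_one]
    rw [hgh, Matrix.mul_smul, Matrix.mul_one, Matrix.mul_smul, Matrix.mul_one] at e1
    exact smul_right_injective _ hN e1
  constructor
  · show (N : F)⁻¹ • (h * V 0 * g) = 1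
    rw [hV0, Matrix.mul_one, hhg, smul_smul, inv_mul_cancel₀ hN, one_smul]
  · intro n i j
    have e0 : ((M : F) * (n : F)) • V n + V n * b - b * V n +
        ∑ k ∈ Finset.range n, c * V k = 0 := by
      ext i j
      rw [Matrix.add_apply, Matrix.sub_apply, Matrix.add_apply, Matrix.smul_apply,
        Matrix.sum_apply, smul_eq_mul]
      exact hVn n i j
    have e1 := congrArg (fun X => h * X * g) e0
    simp only [Matrix.mul_add, Matrix.add_mul, Matrix.mul_sub, Matrix.sub_mul, Matrix.mul_zero,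
      Matrix.zero_mul, Matrix.mul_smul, Matrix.smul_mul, Matrix.mul_sum, Matrix.sum_mul] at e1
    have e2 : h * (V n * b) * g = h * V n * g * D := by
      simp only [Matrix.mul_assoc]
      rw [hbg]
    have e3 : h * (b * V n) * g = D * (h * V n * g) := by
      rw [← Matrix.mul_assoc h b, hb]
      simp only [Matrix.mul_assoc]
    have e4 : ∀ k, h * (c * V k) * g = h * c * g * ((N : F)⁻¹ • (h * V k * g)) := by
      intro k
      have : h * c * g * ((N : F)⁻¹ • (h * V k * g)) =
          (N : F)⁻¹ • (h * c * (g * h) * (V k * g)) := by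
        rw [Matrix.mul_smul]
        simp only [Matrix.mul_assoc]
      rw [this, hgh, Matrix.mul_smul, Matrix.mul_one, Matrix.smul_mul, smul_smul,
        inv_mul_cancel₀ hN, one_smul]
      simp only [Matrix.mul_assoc]
    rw [e2, e3] at e1
    simp only [e4] at e1
    have e5 := congrFun (congrFun e1 i) j
    rw [Matrix.add_apply, Matrix.sub_apply, Matrix.add_apply, Matrix.smul_apply,
      Matrix.sum_apply, smul_eq_mul, hD, Matrix.mul_diagonal, Matrix.diagonal_mul,
      Matrix.zero_apply] at e5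
    rw [← e5]
    congr 1
    rw [Matrix.smul_apply, smul_eq_mul]
    push_cast
    field_simp
    ring

/-- growth of the conjugated sequence -/
theorem grow {K : Type} [Field K] [NumberField K] {r : ℕ} (N : ℕ)
    (g h : Matrix (Fin r) (Fin r) (𝓞 K)) (V : ℕ → Matrix (Fin r) (Fin r) K) (hN : 0 < N)
    (p : ℕ) (κ : ℝ) (hp : p.Prime) (hV : GrK p κ V) :
    GrK p κ (fun n => (N : K)⁻¹ • (h.map (algebraMap (𝓞 K) K) * V n *
      g.map (algebraMap (𝓞 K) K))) := by
  intro ε hε
  obtain ⟨a, ha⟩ := hV ε hε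
  obtain ⟨v, N', hN', hNv⟩ := Nat.exists_eq_pow_mul_and_not_dvd hN.ne' p hp.ne_one
  have hNK : (N : K) ≠ 0 := Nat.cast_ne_zero.2 hN.ne'
  refine ⟨a + v, fun n i j => ?_⟩
  choose m hm1 hm2 using ha n
  refine ⟨(∏ x : Fin r × Fin r, m x.1 x.2) * N', ?_, ?_⟩
  · intro hd
    rcases (hp.dvd_mul).1 hd with hd | hd
    · obtain ⟨x, -, hx⟩ := (Prime.dvd_finsetProd_iff hp.prime _).1 hd
      exact hm1 x.1 x.2 hx
    · exact hN' hd
  · have e1 : (((∏ x : Fin r × Fin r, m x.1 x.2) * N' : ℕ) : K) *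
        (p : K) ^ (a + v + ⌈(κ + ε) * n⌉₊) *
        ((N : K)⁻¹ • (h.map (algebraMap (𝓞 K) K) * V n * g.map (algebraMap (𝓞 K) K))) i j =
        ∑ j' : Fin r, ∑ i' : Fin r, (algebraMap (𝓞 K) K (h i i')) *
          (((∏ x ∈ Finset.univ.erase (i', j'), m x.1 x.2 : ℕ) : K) *
            ((m i' j' : K) * (p : K) ^ (a + ⌈(κ + ε) * n⌉₊) * V n i' j')) *
          (algebraMap (𝓞 K) K (g j' j)) := by
      have e2 : (N : K) = (p : K) ^ v * (N' : K) := by
        rw [hNv]
        push_cast
        ring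
      have e3 : (((∏ x : Fin r × Fin r, m x.1 x.2) * N' : ℕ) : K) *
          (p : K) ^ (a + v + ⌈(κ + ε) * n⌉₊) * (N : K)⁻¹ =
          ((∏ x : Fin r × Fin r, m x.1 x.2 : ℕ) : K) * (p : K) ^ (a + ⌈(κ + ε) * n⌉₊) := by
        rw [mul_inv_eq_iff_eq_mul₀ hNK, e2, Nat.cast_mul, add_right_comm, pow_add]
        ring
      rw [Matrix.smul_apply, smul_eq_mul, ← mul_assoc, e3, Matrix.mul_apply, Finset.mul_sum]
      refine Finset.sum_congr rfl fun j' _ => ?_
      rw [Matrix.mul_apply, Finset.sum_mul, Finset.mul_sum]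
      refine Finset.sum_congr rfl fun i' _ => ?_
      have e4 : ((∏ x : Fin r × Fin r, m x.1 x.2 : ℕ) : K) =
          (m i' j' : K) * ((∏ x ∈ Finset.univ.erase (i', j'), m x.1 x.2 : ℕ) : K) := by
        rw [← Finset.mul_prod_erase Finset.univ (fun x : Fin r × Fin r => m x.1 x.2)
          (Finset.mem_univ (i', j')), Nat.cast_mul]
      rw [e4, Matrix.map_apply, Matrix.map_apply]
      ring
    have hnat : ∀ k : ℕ, IsIntegral ℤ (k : K) := by
      intro k
      have hh : IsIntegral ℤ (algebraMap ℤ K (k : ℤ)) := isIntegral_algebraMap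
      simpa using hh
    rw [e1]
    refine IsIntegral.sum _ fun j' _ => IsIntegral.sum _ fun i' _ => ?_
    exact ((RingOfIntegers.isIntegral_coe (h i i')).mul ((hnat _).mul (hm2 i' j'))).mul
      (RingOfIntegers.isIntegral_coe (g j' j))

end IGRC

/-- Item GRC. -/
theorem pr_GRC (hIND : StIND) : StGRC := by
  intro K _ _ r M N β b c g h U V hM hN hhg hgh hbg hU hV p κ hp hκ hG
  have hNK : (N : K) ≠ 0 := Nat.cast_ne_zero.2 hN.ne'
  let φ : 𝓞 K →+* K := algebraMap (𝓞 K) K
  have c1 : ∀ A B : Matrix (Fin r) (Fin r) (𝓞 K),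
      A * B = (N : 𝓞 K) • (1 : Matrix (Fin r) (Fin r) (𝓞 K)) →
      A.map φ * B.map φ = (N : K) • (1 : Matrix (Fin r) (Fin r) K) := by
    intro A B hAB
    rw [← Matrix.map_mul, hAB]
    ext i j
    rw [Matrix.map_apply, Matrix.smul_apply, Matrix.smul_apply, smul_eq_mul, smul_eq_mul, map_mul,
      map_natCast]
    congr 1
    by_cases hij : i = j
    · subst hij
      rw [Matrix.one_apply_eq, Matrix.one_apply_eq, map_one]
    · rw [Matrix.one_apply_ne hij, Matrix.one_apply_ne hij, map_zero]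
  have c2 : b.map φ * g.map φ = g.map φ * Matrix.diagonal (fun i => ((β i : ℤ) : K)) := by
    rw [← Matrix.map_mul, hbg, Matrix.map_mul]
    congr 1
    ext i j
    by_cases hij : i = j
    · subst hij
      rw [Matrix.map_apply, Matrix.diagonal_apply_eq, Matrix.diagonal_apply_eq, map_intCast]
    · rw [Matrix.map_apply, Matrix.diagonal_apply_ne _ hij, Matrix.diagonal_apply_ne _ hij,
        map_zero]
  have c3 : (Matrix.of fun i j => ((h * c * g) i j : K)) = h.map φ * c.map φ * g.map φ := by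
    rw [← Matrix.map_mul, ← Matrix.map_mul]
    rfl
  have h1 := IGRC.isU M N β (b.map φ) (c.map φ) (g.map φ) (h.map φ) V hNK (c1 h g hhg)
    (c1 g h hgh) c2 hV
  have h2 := IGRC.grow N g h V hN p κ hp hG
  rw [c3] at hU
  exact hIND K r (M * N) (fun i => N * β i) (h.map φ * c.map φ * g.map φ) _ U
    (Nat.mul_pos hM hN) h1 hU p κ hp hκ h2

end Pool.Agent.Work.MP_5e5ff1_ag.TH
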