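import Mathlib
import Pool.Agent.Work.MP_5e5ff1_ag.TH.StmtsA

set_option autoImplicit false

/-!
# MP_5e5ff1_ag, block TH, item GRG: growth for the good primes
-/

open Matrix Filter Topology
open scoped Polynomial

namespace Pool.Agent.Work.MP_5e5ff1_ag.TH

namespace IGRG

lemma geo (p : ℕ) (hp : 2 ≤ p) (L : ℕ) (hL : 1 ≤ L) :
    ∑ l ∈ Finset.Icc 2 L, (1 : ℝ) / (p : ℝ) ^ l =
      1 / ((p : ℝ) * (p - 1)) - 1 / ((p : ℝ) ^ L * (p - 1)) := by
  have hp' : (2 : ℝ) ≤ p := by exact_mod_cast hp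
  have h0 : (p : ℝ) ≠ 0 := by positivity
  have h1 : (p : ℝ) - 1 ≠ 0 := by linarith
  induction L, hL using Nat.le_induction with
  | base => simp
  | succ n hn ih =>
    rw [Finset.sum_Icc_succ_top (by omega), ih]
    field_simp
    ring

lemma geo_le (p : ℕ) (hp : 2 ≤ p) (L : ℕ) (hL : 1 ≤ L) :
    ∑ l ∈ Finset.Icc 2 L, (1 : ℝ) / (p : ℝ) ^ l ≤ 1 / ((p : ℝ) * (p - 1)) := by
  have hp' : (2 : ℝ) ≤ p := by exact_mod_cast hp
  have h1 : (0 : ℝ) < (p : ℝ) - 1 := by linarith
  rw [geo p hp L hL]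
  have : (0 : ℝ) ≤ 1 / ((p : ℝ) ^ L * (p - 1)) := by positivity
  linarith

/-- the bound for `p` -/
noncomputable def P (M B N : ℕ) : ℕ := Nat.sqrt (M * N + B) + M

lemma small_p (p M B N : ℕ) (h : p ^ 2 ≤ M * (N + p) + B) : p ≤ P M B N := by
  unfold P
  by_contra hc
  push Not at hc
  obtain ⟨q, rfl⟩ : ∃ q, p = q + M := ⟨p - M, by omega⟩
  have h1 : Nat.sqrt (M * N + B) < q := by omega
  rw [Nat.sqrt_lt'] at h1
  nlinarith

lemma LGJ_le (p M B J N : ℕ) (hM : 0 < M) (hp : 2 ≤ p)
    (h : 2 ≤ Nat.log p (M * (N + p) + B)) :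
    (LGJ p M B J N : ℝ) * Real.log p ≤ N * (Real.log p / (p * (p - 1))) +
      J * (1 + Real.log ((M * (N + p) + B : ℕ) : ℝ)) := by
  have hp' : (2 : ℝ) ≤ p := by exact_mod_cast hp
  have h0 : (0 : ℝ) < p := by linarith
  have h1 : (0 : ℝ) < (p : ℝ) - 1 := by linarith
  have hlog : 0 ≤ Real.log p := Real.log_nonneg (by linarith)
  have hpos : 0 < M * (N + p) := Nat.mul_pos hM (by omega)
  set L := Nat.log p (M * (N + p) + B) with hL
  have hsum : (LGJ p M B J N : ℝ) ≤ (N + J * p) * (1 / ((p : ℝ) * (p - 1))) + J * L := by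
    unfold LGJ
    rw [← hL, Nat.cast_sum]
    calc ∑ l ∈ Finset.Icc 2 L, (((N + J * p) / p ^ l + J : ℕ) : ℝ)
        ≤ ∑ l ∈ Finset.Icc 2 L, (((N : ℝ) + J * p) * (1 / (p : ℝ) ^ l) + J) := by
          apply Finset.sum_le_sum
          intro l _
          rw [Nat.cast_add]
          have h2 : (((N + J * p) / p ^ l : ℕ) : ℝ) ≤ ((N + J * p : ℕ) : ℝ) / ((p ^ l : ℕ) : ℝ) :=
            Nat.cast_div_le
          have h3 : ((N + J * p : ℕ) : ℝ) / ((p ^ l : ℕ) : ℝ) =
              ((N : ℝ) + J * p) * (1 / (p : ℝ) ^ l) := by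
            push_cast
            ring
          rw [h3] at h2
          linarith
      _ = ((N : ℝ) + J * p) * ∑ l ∈ Finset.Icc 2 L, (1 / (p : ℝ) ^ l) +
            (Finset.Icc 2 L).card * J := by
          rw [Finset.sum_add_distrib, ← Finset.mul_sum, Finset.sum_const, nsmul_eq_mul]
      _ ≤ (N + J * p) * (1 / ((p : ℝ) * (p - 1))) + J * L := by
          have h4 : ((N : ℝ) + J * p) * ∑ l ∈ Finset.Icc 2 L, (1 / (p : ℝ) ^ l) ≤
              ((N : ℝ) + J * p) * (1 / ((p : ℝ) * (p - 1))) :=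
            mul_le_mul_of_nonneg_left (geo_le p hp L (by omega)) (by positivity)
          have h5 : ((Finset.Icc 2 L).card : ℝ) * J ≤ J * L := by
            rw [Nat.card_Icc, mul_comm]
            apply mul_le_mul_of_nonneg_left _ (by positivity)
            exact_mod_cast (by omega : L + 1 - 2 ≤ L)
          linarith
  have hLlog : (L : ℝ) * Real.log p ≤ Real.log ((M * (N + p) + B : ℕ) : ℝ) := by
    have h6 : p ^ L ≤ M * (N + p) + B := Nat.pow_log_le_self p (by omega)
    have h7 : ((p : ℝ) ^ L) ≤ ((M * (N + p) + B : ℕ) : ℝ) := by exact_mod_cast h6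
    rw [← Real.log_pow]
    exact Real.log_le_log (by positivity) h7
  have hlp : Real.log p ≤ p - 1 := Real.log_le_sub_one_of_pos h0
  have hq : Real.log p / (p - 1) ≤ 1 := by
    rw [div_le_one h1]
    exact hlp
  calc (LGJ p M B J N : ℝ) * Real.log p
      ≤ ((N + J * p) * (1 / ((p : ℝ) * (p - 1))) + J * L) * Real.log p :=
        mul_le_mul_of_nonneg_right hsum hlog
    _ = N * (Real.log p / (p * (p - 1))) + J * (Real.log p / (p - 1) + L * Real.log p) := by
        field_simp
        ring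
    _ ≤ N * (Real.log p / (p * (p - 1))) +
      J * (1 + Real.log ((M * (N + p) + B : ℕ) : ℝ)) := by
        have : (J : ℝ) * (Real.log p / (p - 1) + L * Real.log p) ≤
            J * (1 + Real.log ((M * (N + p) + B : ℕ) : ℝ)) :=
          mul_le_mul_of_nonneg_left (by linarith) (by positivity)
        linarith

lemma term_le (p M B J N : ℕ) (hM : 0 < M) (hp : 2 ≤ p) :
    (LGJ p M B J N : ℝ) * Real.log p ≤ N * (1 / (p * (p - 1)) * Real.log p) +
      (if p ≤ P M B N then (J : ℝ) * (1 + Real.log ((M * (N + P M B N) + B : ℕ) : ℝ))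
        else 0) := by
  have hp' : (2 : ℝ) ≤ p := by exact_mod_cast hp
  have h1 : (0 : ℝ) < (p : ℝ) - 1 := by linarith
  have hlog : 0 ≤ Real.log p := Real.log_nonneg (by linarith)
  have hnn : 0 ≤ (N : ℝ) * (1 / (p * (p - 1)) * Real.log p) := by positivity
  by_cases h : 2 ≤ Nat.log p (M * (N + p) + B)
  · have hpos : 0 < M * (N + p) := Nat.mul_pos hM (by omega)
    have hpp : p ≤ P M B N := by
      apply small_p
      calc p ^ 2 ≤ p ^ Nat.log p (M * (N + p) + B) := Nat.pow_le_pow_right (by omega) h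
        _ ≤ M * (N + p) + B := Nat.pow_log_le_self p (by omega)
    rw [if_pos hpp]
    refine (LGJ_le p M B J N hM hp h).trans ?_
    have hle : M * (N + p) + B ≤ M * (N + P M B N) + B :=
      Nat.add_le_add_right (Nat.mul_le_mul_left M (by omega)) B
    have h2 : Real.log ((M * (N + p) + B : ℕ) : ℝ) ≤
        Real.log ((M * (N + P M B N) + B : ℕ) : ℝ) := by
      apply Real.log_le_log
      · exact_mod_cast (by omega : 0 < M * (N + p) + B)
      · exact_mod_cast hle
    have h3 : (J : ℝ) * (1 + Real.log ((M * (N + p) + B : ℕ) : ℝ)) ≤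
        (J : ℝ) * (1 + Real.log ((M * (N + P M B N) + B : ℕ) : ℝ)) :=
      mul_le_mul_of_nonneg_left (by linarith) (by positivity)
    have h5 : (N : ℝ) * (Real.log p / (p * (p - 1))) =
        N * (1 / (p * (p - 1)) * Real.log p) := by ring
    linarith
  · have h0 : LGJ p M B J N = 0 := by
      unfold LGJ
      rw [Finset.Icc_eq_empty (by omega), Finset.sum_empty]
    rw [h0]
    have h4 : 0 ≤ (if p ≤ P M B N then
        (J : ℝ) * (1 + Real.log ((M * (N + P M B N) + B : ℕ) : ℝ)) else 0) := by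
      split_ifs
      · apply mul_nonneg (by positivity)
        have : 0 ≤ Real.log ((M * (N + P M B N) + B : ℕ) : ℝ) := Real.log_natCast_nonneg _
        linarith
      · exact le_refl _
    simp only [Nat.cast_zero, zero_mul]
    linarith

/-- the final asymptotic estimate -/
lemma asy (M B J : ℕ) (hM : 0 < M) (ε : ℝ) (hε : 0 < ε) : ∃ N0 : ℕ, ∀ N ≥ N0,
    ((P M B N : ℝ) + 1) * ((J : ℝ) * (1 + Real.log ((M * (N + P M B N) + B : ℕ) : ℝ))) ≤
      ε * N := by
  have h1 : (fun x : ℝ => x ^ (1 / 2 : ℝ) * Real.log x) =o[atTop]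
      fun x : ℝ => x ^ (1 / 2 : ℝ) * x ^ (1 / 2 : ℝ) :=
    (Asymptotics.isBigO_refl _ _).mul_isLittleO (isLittleO_log_rpow_atTop (by norm_num))
  have hMr : (1 : ℝ) ≤ M := by exact_mod_cast hM
  have hc : 0 < ε / (10 * (M + 1) * (J + 1)) := by positivity
  have h2 := h1.def hc
  obtain ⟨X, hX⟩ := (h2.and (eventually_ge_atTop (16 : ℝ))).exists_forall_of_atTop
  refine ⟨B + Nat.ceil (max X 16) + (M + 1) ^ 2, fun N hN => ?_⟩
  have hN1 : B ≤ N := by omega
  have hNX : max X 16 ≤ (N : ℝ) := (Nat.le_ceil _).trans (by exact_mod_cast (by omega :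
    Nat.ceil (max X 16) ≤ N))
  have hNM : ((M : ℝ) + 1) ^ 2 ≤ (N : ℝ) := by
    exact_mod_cast (by omega : (M + 1) ^ 2 ≤ N)
  set x : ℝ := ((M * N + B : ℕ) : ℝ) with hx
  have hxe : x = M * N + B := by rw [hx]; push_cast; ring
  have hN0 : (0 : ℝ) ≤ N := by positivity
  have hxN : (N : ℝ) ≤ x := by
    rw [hxe]
    have : (0 : ℝ) ≤ B := by positivity
    nlinarith
  have hx5 : x ≤ (M + 1) * N := by
    rw [hxe]
    have : (B : ℝ) ≤ N := by exact_mod_cast hN1
    nlinarith
  have hxX : X ≤ x := (le_max_left X 16).trans (hNX.trans hxN)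
  obtain ⟨h3, h4⟩ := hX x hxX
  have hx0 : 0 < x := by linarith
  have hlogx : 1 ≤ Real.log x := by
    rw [Real.le_log_iff_exp_le hx0]
    have := Real.exp_one_lt_d9
    linarith
  rw [Real.norm_of_nonneg (by positivity), Real.norm_of_nonneg (by positivity),
    ← Real.rpow_add hx0] at h3
  norm_num at h3
  rw [← Real.sqrt_eq_rpow] at h3
  -- bounds for P
  have hsq : 4 ≤ Real.sqrt x := by
    rw [Real.le_sqrt' (by norm_num)]
    linarith
  have hsM : (M : ℝ) + 1 ≤ Real.sqrt x := by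
    rw [Real.le_sqrt' (by positivity)]
    linarith
  have hs2 : Real.sqrt x * Real.sqrt x = x := Real.mul_self_sqrt hx0.le
  have hP : (P M B N : ℝ) + 1 ≤ 2 * Real.sqrt x := by
    unfold P
    push_cast
    have : ((Nat.sqrt (M * N + B) : ℕ) : ℝ) ≤ Real.sqrt x := by
      rw [hx]; exact Real.nat_sqrt_le_real_sqrt
    linarith
  have hP0 : (0 : ℝ) ≤ (P M B N : ℝ) := by positivity
  have hpos : 0 < M * (N + P M B N) := Nat.mul_pos hM (by
    have : 0 < (M + 1) ^ 2 := by positivity
    omega)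
  have hlog2 : Real.log ((M * (N + P M B N) + B : ℕ) : ℝ) ≤ 2 * Real.log x := by
    have h5 : ((M * (N + P M B N) + B : ℕ) : ℝ) ≤ x * x := by
      have h6 : ((M * (N + P M B N) + B : ℕ) : ℝ) = x + M * (P M B N : ℝ) := by
        rw [hxe]
        push_cast
        ring
      have h7 : (M : ℝ) * (P M B N : ℝ) ≤ Real.sqrt x * (2 * Real.sqrt x) :=
        mul_le_mul (by linarith) (by linarith) hP0 (by positivity)
      rw [h6]
      nlinarith
    have h7 : (0 : ℝ) < ((M * (N + P M B N) + B : ℕ) : ℝ) := by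
      exact_mod_cast (by omega : 0 < M * (N + P M B N) + B)
    calc Real.log ((M * (N + P M B N) + B : ℕ) : ℝ) ≤ Real.log (x * x) :=
          Real.log_le_log h7 h5
      _ = 2 * Real.log x := by rw [Real.log_mul hx0.ne' hx0.ne']; ring
  have hJ : (0 : ℝ) ≤ J := by positivity
  have hP1 : (0 : ℝ) ≤ (P M B N : ℝ) + 1 := by positivity
  calc ((P M B N : ℝ) + 1) * ((J : ℝ) * (1 + Real.log ((M * (N + P M B N) + B : ℕ) : ℝ)))
      ≤ (2 * Real.sqrt x) * ((J : ℝ) * (3 * Real.log x)) := by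
        apply mul_le_mul hP _ _ (by positivity)
        · apply mul_le_mul_of_nonneg_left _ hJ
          linarith
        · apply mul_nonneg hJ
          have : 0 ≤ Real.log ((M * (N + P M B N) + B : ℕ) : ℝ) := Real.log_natCast_nonneg _
          linarith
    _ = 6 * J * (Real.sqrt x * Real.log x) := by ring
    _ ≤ 6 * J * (ε / (10 * (M + 1) * (J + 1)) * x) := by
        apply mul_le_mul_of_nonneg_left _ (by positivity)
        exact h3
    _ ≤ 6 * J * (ε / (10 * (M + 1) * (J + 1)) * ((M + 1) * N)) := by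
        apply mul_le_mul_of_nonneg_left _ (by positivity)
        exact mul_le_mul_of_nonneg_left hx5 hc.le
    _ = (J / (J + 1)) * (6 / 10) * (ε * N) := by
        field_simp
    _ ≤ 1 * (6 / 10) * (ε * N) := by
        have h8 : (J : ℝ) / (J + 1) ≤ 1 := by
          rw [div_le_one (by positivity)]
          linarith
        have h9 : 0 ≤ ε * N := by positivity
        apply mul_le_mul_of_nonneg_right _ h9
        linarith
    _ ≤ ε * N := by
        have h9 : 0 ≤ ε * N := by positivity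
        linarith

end IGRG

open IGRG in
theorem pr_GRG : StGRG := by
  intro M S B J hM ε hε
  obtain ⟨N0, hN0⟩ := asy M B J hM ε hε
  refine ⟨N0, fun N hN => ?_⟩
  classical
  set c : ℝ := (J : ℝ) * (1 + Real.log ((M * (N + P M B N) + B : ℕ) : ℝ)) with hc
  have hc0 : 0 ≤ c := by
    rw [hc]
    apply mul_nonneg (by positivity)
    have : 0 ≤ Real.log ((M * (N + P M B N) + B : ℕ) : ℝ) := Real.log_natCast_nonneg _
    linarith
  have hsum : ∑ p ∈ (opr (M * N + B + M)).filter (fun p => ¬ p ∣ M ∧ p ∉ S),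
      (LGJ p M B J N : ℝ) * Real.log p ≤
      ∑ p ∈ (opr (M * N + B + M)).filter (fun p => ¬ p ∣ M ∧ p ∉ S),
        ((N : ℝ) * (1 / ((p : ℝ) * (p - 1)) * Real.log p) + (if p ≤ P M B N then c else 0)) := by
    apply Finset.sum_le_sum
    intro p hp
    rw [Finset.mem_filter, opr, Finset.mem_filter, Finset.mem_Icc] at hp
    exact term_le p M B J N hM (by omega)
  refine hsum.trans ?_
  rw [Finset.sum_add_distrib, ← Finset.mul_sum]
  have h2 : ∑ p ∈ (opr (M * N + B + M)).filter (fun p => ¬ p ∣ M ∧ p ∉ S),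
      (if p ≤ P M B N then c else 0) ≤ ((P M B N : ℝ) + 1) * c := by
    rw [← Finset.sum_filter, Finset.sum_const, nsmul_eq_mul]
    apply mul_le_mul_of_nonneg_right _ hc0
    have h3 : (Finset.filter (fun p => p ≤ P M B N)
        ((opr (M * N + B + M)).filter (fun p => ¬ p ∣ M ∧ p ∉ S))).card ≤
          (Finset.range (P M B N + 1)).card := by
      apply Finset.card_le_card
      intro p hp
      rw [Finset.mem_filter] at hp
      rw [Finset.mem_range]
      omega
    rw [Finset.card_range] at h3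
    exact_mod_cast h3
  have h4 := hN0 N hN
  linarith

end Pool.Agent.Work.MP_5e5ff1_ag.TH
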