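import Mathlib
import Pool.Agent.Work.MP_5e5ff1_ag.TH.StmtsA

set_option autoImplicit false

/-!
# MP_5e5ff1_ag, block TH, item GRM: growth of the exponent for one prime
-/

open Matrix Filter Topology
open scoped Polynomial

namespace Pool.Agent.Work.MP_5e5ff1_ag.TH

namespace IGRM

theorem geo (p : ℝ) (hp : 1 < p) (L : ℕ) :
    ∑ l ∈ Finset.Icc 1 L, (1 : ℝ) / p ^ l ≤ 1 / (p - 1) := by
  have h0 : 0 < p - 1 := by linarith
  have hp0 : 0 < p := by linarith
  have h : ∀ L : ℕ, ∑ l ∈ Finset.Icc 1 L, (1 : ℝ) / p ^ l = 1 / (p - 1) * (1 - 1 / p ^ L) := by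
    intro L
    induction L with
    | zero => simp
    | succ L ih =>
      rw [Finset.sum_Icc_succ_top (by omega), ih]
      field_simp
      ring
  rw [h]
  have h1 : (0 : ℝ) ≤ 1 / p ^ L := by positivity
  have h2 : (0 : ℝ) ≤ 1 / (p - 1) := by positivity
  nlinarith

/-- bound of the exponent -/
theorem one (p M B J N : ℕ) (hp : 2 ≤ p) (hne : M * N + B ≠ 0) :
    (LSJ p M B J N : ℝ) * Real.log p ≤ N * (Real.log p / (p - 1)) +
      (J : ℝ) * Real.log ((M * N + B : ℕ) : ℝ) := by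
  have hp1 : (1 : ℝ) < p := by exact_mod_cast (by omega : 1 < p)
  have hlog : 0 ≤ Real.log p := Real.log_nonneg hp1.le
  set L := Nat.log p (M * N + B) with hL
  have h1 : (LSJ p M B J N : ℝ) ≤ N * (1 / ((p : ℝ) - 1)) + J * L := by
    have h2 : (LSJ p M B J N : ℝ) = ∑ l ∈ Finset.Icc 1 L, (((N / p ^ l : ℕ) : ℝ) + J) := by
      rw [LSJ]; push_cast; rfl
    rw [h2, Finset.sum_add_distrib]
    have h3 : ∑ l ∈ Finset.Icc 1 L, ((N / p ^ l : ℕ) : ℝ) ≤ N * (1 / ((p : ℝ) - 1)) := by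
      calc ∑ l ∈ Finset.Icc 1 L, ((N / p ^ l : ℕ) : ℝ)
          ≤ ∑ l ∈ Finset.Icc 1 L, (N : ℝ) * (1 / (p : ℝ) ^ l) := by
            apply Finset.sum_le_sum
            intro l _
            have := @Nat.cast_div_le ℝ _ _ _ N (p ^ l)
            push_cast at this
            rw [mul_one_div]
            exact this
        _ = N * ∑ l ∈ Finset.Icc 1 L, (1 / (p : ℝ) ^ l) := by rw [Finset.mul_sum]
        _ ≤ _ := mul_le_mul_of_nonneg_left (geo p hp1 L) (by positivity)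
    have h4 : ∑ _l ∈ Finset.Icc 1 L, (J : ℝ) = J * L := by
      rw [Finset.sum_const, Nat.card_Icc, nsmul_eq_mul]
      simp [mul_comm]
    linarith
  have h5 : (LSJ p M B J N : ℝ) * Real.log p ≤
      (N * (1 / ((p : ℝ) - 1)) + J * L) * Real.log p :=
    mul_le_mul_of_nonneg_right h1 hlog
  have h6 : N * (1 / ((p : ℝ) - 1)) * Real.log p = N * (Real.log p / (p - 1)) := by
    ring
  have h10 : p ^ L ≤ M * N + B := Nat.pow_log_le_self p hne
  have h11 : (L : ℝ) * Real.log p ≤ Real.log ((M * N + B : ℕ) : ℝ) := by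
    rw [← Real.log_pow]
    apply Real.log_le_log (by positivity)
    exact_mod_cast h10
  have h13 : (J : ℝ) * (L * Real.log p) ≤ J * Real.log ((M * N + B : ℕ) : ℝ) :=
    mul_le_mul_of_nonneg_left h11 (by positivity)
  nlinarith [h5, h6, h13]

/-- the error term -/
theorem err (M B J : ℕ) (hM : 0 < M) (ε : ℝ) (hε : 0 < ε) : ∃ N0 : ℕ, ∀ N ≥ N0,
    M * N + B ≠ 0 ∧ (J : ℝ) * Real.log ((M * N + B : ℕ) : ℝ) ≤ ε * N := by
  have hMB : (0 : ℝ) < (M : ℝ) + B := by positivity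
  set c : ℝ := ε / ((J + 1) * (M + B)) with hc
  have hc0 : 0 < c := by positivity
  have h1 := (Real.isLittleO_log_id_atTop).def hc0
  rw [Filter.eventually_atTop] at h1
  obtain ⟨x0, hx0⟩ := h1
  refine ⟨max (Nat.ceil x0) 1, fun N hN => ?_⟩
  have hN1 : Nat.ceil x0 ≤ N := le_trans (le_max_left _ _) hN
  have hN2 : 1 ≤ N := le_trans (le_max_right _ _) hN
  have hN3 : x0 ≤ N := le_trans (Nat.le_ceil x0) (by exact_mod_cast hN1)
  have hpos : N ≤ M * N + B := by nlinarith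
  refine ⟨by omega, ?_⟩
  set x : ℝ := ((M * N + B : ℕ) : ℝ) with hx
  have hxN : (N : ℝ) ≤ x := by
    rw [hx]; exact_mod_cast hpos
  have hx5 : x ≤ (M + B) * N := by
    rw [hx]
    have : M * N + B ≤ (M + B) * N := by nlinarith
    exact_mod_cast this
  have hN4 : (1 : ℝ) ≤ N := by exact_mod_cast hN2
  have hx1 : 1 ≤ x := le_trans hN4 hxN
  have h2 := hx0 x (le_trans hN3 hxN)
  have hlx : 0 ≤ Real.log x := Real.log_nonneg hx1
  rw [Real.norm_of_nonneg hlx, id, Real.norm_of_nonneg (by linarith)] at h2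
  have h6 : Real.log x ≤ c * ((M + B) * N) := le_trans h2 (mul_le_mul_of_nonneg_left hx5 hc0.le)
  have h8 : (J + 1) * (c * ((M + B) * N)) = ε * N := by
    rw [hc]; field_simp
  have h9 : (0 : ℝ) ≤ c * ((M + B) * N) := by positivity
  calc (J : ℝ) * Real.log x ≤ J * (c * ((M + B) * N)) :=
        mul_le_mul_of_nonneg_left h6 (by positivity)
    _ ≤ (J + 1) * (c * ((M + B) * N)) := by nlinarith
    _ = _ := h8

end IGRM

open IGRM

theorem pr_GRM : StGRM := by
  intro M p B J hM hp ε hε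
  obtain ⟨N0, hN0⟩ := err M B J hM ε hε
  refine ⟨N0, fun N hN => ?_⟩
  obtain ⟨h1, h2⟩ := hN0 N hN
  have h3 := one p M B J N hp.two_le h1
  linarith

end Pool.Agent.Work.MP_5e5ff1_ag.TH
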