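import Mathlib
import Pool.Agent.Work.MP_5e5ff1_ag.TH.StmtsY
import Pool.Agent.Work.MP_5e5ff1_ag.TH.I_GRM
import Pool.Agent.Work.MP_5e5ff1_ag.TH.I_GRG

set_option autoImplicit false

/-!
# MP_5e5ff1_ag, block TH, item GRM2: growth of the exponent for one good prime
-/

open Matrix Filter Topology
open scoped Polynomial

namespace Pool.Agent.Work.MP_5e5ff1_ag.TH

theorem pr_GRM2 : StGRM2 := by
  intro M p B J hM hp ε hε
  obtain ⟨N0, hN0⟩ := IGRM.err M (M * p + B) J hM (ε / 2) (by positivity)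
  obtain ⟨N1, hN1⟩ := exists_nat_ge ((J : ℝ) / (ε / 2))
  refine ⟨max N0 N1, fun N hN => ?_⟩
  obtain ⟨-, h2⟩ := hN0 N (le_trans (le_max_left _ _) hN)
  have h3 : (J : ℝ) ≤ ε / 2 * N := by
    have h4 : (J : ℝ) / (ε / 2) ≤ N := le_trans hN1 (by exact_mod_cast (le_trans (le_max_right _ _) hN))
    rw [div_le_iff₀ (by positivity)] at h4
    linarith
  by_cases h : 2 ≤ Nat.log p (M * (N + p) + B)
  · have h5 := IGRG.LGJ_le p M B J N hM hp.two_le h
    have h6 : M * (N + p) + B = M * N + (M * p + B) := by ring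
    rw [h6] at h5
    have h7 : (J : ℝ) * (1 + Real.log ((M * N + (M * p + B) : ℕ) : ℝ)) =
        J + J * Real.log ((M * N + (M * p + B) : ℕ) : ℝ) := by ring
    rw [h7] at h5
    linarith
  · have h0 : LGJ p M B J N = 0 := by
      unfold LGJ
      rw [Finset.Icc_eq_empty (by omega), Finset.sum_empty]
    rw [h0]
    have hp2 : (2 : ℝ) ≤ p := by exact_mod_cast hp.two_le
    have hp1 : (0 : ℝ) < (p : ℝ) - 1 := by linarith
    have hlog : 0 ≤ Real.log p := Real.log_nonneg (by linarith)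
    have h8 : 0 ≤ (N : ℝ) * (Real.log p / ((p : ℝ) * (p - 1))) := by positivity
    have h9 : 0 ≤ ε * N := by positivity
    simp only [Nat.cast_zero, zero_mul]
    linarith

end Pool.Agent.Work.MP_5e5ff1_ag.TH
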