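import Mathlib
import Pool.Agent.Work.MP_5e5ff1_ag.TH.StmtsA

set_option autoImplicit false

/-!
# MP_5e5ff1_ag, block TH, item GRO: growth of the common denominator
-/

open Matrix Filter Topology
open scoped Polynomial

namespace Pool.Agent.Work.MP_5e5ff1_ag.TH

namespace IGRO

open Classical in
theorem log_dJ {ι : Type} [Fintype ι] [DecidableEq ι] (M : ℕ) (β : ι → ℤ) (S : Set ℕ)
    (B J N : ℕ) (hM : 0 < M) :
    Real.log (dJ M β S B J N) =
      ∑ p ∈ M.primeFactors,
        ((M.factorization p : ℝ) * N + (spc p M β : ℝ) * (LSJ p M B J N : ℝ)) * Real.log p +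
      (nd β : ℝ) * (∑ p ∈ (opr (M * N + B + M)).filter (fun p => ¬ p ∣ M ∧ p ∈ S),
          (LSJ p M B J N : ℝ) * Real.log p +
        ∑ p ∈ (opr (M * N + B + M)).filter (fun p => ¬ p ∣ M ∧ p ∉ S),
          (LGJ p M B J N : ℝ) * Real.log p) := by
  have hpf : M.primeFactors = (opr (M * N + B + M)).filter (fun p => p ∣ M) := by
    ext p
    rw [Nat.mem_primeFactors, Finset.mem_filter, opr, Finset.mem_filter, Finset.mem_Icc]
    constructor
    · rintro ⟨h1, h2, h3⟩
      have := Nat.le_of_dvd hM h2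
      exact ⟨⟨⟨h1.two_le, by omega⟩, h1⟩, h2⟩
    · rintro ⟨⟨-, h1⟩, h2⟩
      exact ⟨h1, h2, hM.ne'⟩
  have h0 : ∀ p ∈ opr (M * N + B + M), ((p : ℝ) ^ ex M β S B J N p) ≠ 0 := by
    intro p hp
    rw [opr, Finset.mem_filter] at hp
    exact pow_ne_zero _ (by exact_mod_cast hp.2.ne_zero)
  have h1 : Real.log (dJ M β S B J N) =
      ∑ p ∈ opr (M * N + B + M), (ex M β S B J N p : ℝ) * Real.log p := by
    unfold dJ
    rw [Nat.cast_prod]
    simp only [Nat.cast_pow]
    rw [Real.log_prod h0]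
    simp only [Real.log_pow]
  rw [h1, hpf, ← Finset.sum_filter_add_sum_filter_not (opr (M * N + B + M)) (fun p => p ∣ M),
    mul_add, Finset.mul_sum, Finset.mul_sum]
  congr 1
  · apply Finset.sum_congr rfl
    intro p hp
    rw [Finset.mem_filter] at hp
    rw [ex, if_pos hp.2]
    push_cast
    ring
  · rw [← Finset.sum_filter_add_sum_filter_not
      ((opr (M * N + B + M)).filter (fun p => ¬ p ∣ M)) (fun p => p ∈ S), Finset.filter_filter,
      Finset.filter_filter]
    congr 1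
    · apply Finset.sum_congr rfl
      intro p hp
      rw [Finset.mem_filter] at hp
      rw [ex, if_neg hp.2.1, if_pos hp.2.2]
      push_cast
      ring
    · apply Finset.sum_congr rfl
      intro p hp
      rw [Finset.mem_filter] at hp
      rw [ex, if_neg hp.2.1, if_neg hp.2.2]
      push_cast
      ring

open Classical in
theorem sum_split (M : ℕ) (S : Set ℕ) (H : ℕ) :
    ∑ p ∈ (opr H).filter (fun p => ¬ p ∣ M),
      (1 / ((p : ℝ) * (p - 1)) + if p ∈ S then 1 / (p : ℝ) else 0) * Real.log p =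
    ∑ p ∈ (opr H).filter (fun p => ¬ p ∣ M ∧ p ∈ S),
      (1 / ((p : ℝ) * (p - 1)) + 1 / (p : ℝ)) * Real.log p +
    ∑ p ∈ (opr H).filter (fun p => ¬ p ∣ M ∧ p ∉ S),
      1 / ((p : ℝ) * (p - 1)) * Real.log p := by
  rw [← Finset.sum_filter_add_sum_filter_not
      ((opr H).filter (fun p => ¬ p ∣ M)) (fun p => p ∈ S), Finset.filter_filter,
      Finset.filter_filter]
  congr 1
  · apply Finset.sum_congr rfl
    intro p hp
    rw [Finset.mem_filter] at hp
    rw [if_pos hp.2.2]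
  · apply Finset.sum_congr rfl
    intro p hp
    rw [Finset.mem_filter] at hp
    rw [if_neg hp.2.2, add_zero]

end IGRO

open Classical in
theorem pr_GRO (h1 : StGRS) (h2 : StGRG) (h3 : StGRM) : StGRO := by
  intro ι _ _ _ M β S L B J hM hL ε hε
  have hnd : (1 : ℝ) ≤ nd β := by
    have : 0 < nd β := by
      unfold nd
      rw [Finset.card_pos]
      exact Finset.univ_nonempty.image β
    exact_mod_cast this
  have hlog : ∀ p : ℕ, 0 ≤ Real.log p := fun p => Real.log_natCast_nonneg p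
  have hpart : 0 ≤ ∑ p ∈ M.primeFactors,
      ((M.factorization p : ℝ) + (spc p M β : ℝ) / ((p : ℝ) - 1)) * Real.log p := by
    refine Finset.sum_nonneg fun p hp => mul_nonneg (add_nonneg (Nat.cast_nonneg _) ?_) (hlog p)
    have : (1 : ℝ) ≤ p := by exact_mod_cast (Nat.prime_of_mem_primeFactors hp).one_lt.le
    exact div_nonneg (Nat.cast_nonneg _) (by linarith)
  have hSb : Sb M S := by
    refine ⟨L, fun F hF => ?_⟩
    have e1 := hL F fun p hp => ⟨(hF p hp).1, (hF p hp).2.1⟩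
    have e2 : ∑ p ∈ F, Real.log p / p ≤
        ∑ p ∈ F, (1 / ((p : ℝ) * (p - 1)) + if p ∈ S then 1 / (p : ℝ) else 0) * Real.log p := by
      refine Finset.sum_le_sum fun p hp => ?_
      rw [if_pos (hF p hp).2.2]
      have hp1 : (1 : ℝ) ≤ p := by exact_mod_cast (hF p hp).1.one_lt.le
      have : 0 ≤ 1 / ((p : ℝ) * (p - 1)) * Real.log p :=
        mul_nonneg (div_nonneg zero_le_one (mul_nonneg (by linarith) (by linarith))) (hlog p)
      have e3 : Real.log p / p = 1 / (p : ℝ) * Real.log p := by ring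
      rw [e3, add_mul]
      linarith
    have e0 : 0 ≤ ∑ p ∈ F, Real.log p / p :=
      Finset.sum_nonneg fun p _ => div_nonneg (hlog p) (Nat.cast_nonneg _)
    have e4 : ∑ p ∈ F, Real.log p / p ≤ (nd β : ℝ) * ∑ p ∈ F,
        (1 / ((p : ℝ) * (p - 1)) + if p ∈ S then 1 / (p : ℝ) else 0) * Real.log p :=
      calc ∑ p ∈ F, Real.log p / p = 1 * ∑ p ∈ F, Real.log p / p := (one_mul _).symm
        _ ≤ _ := mul_le_mul hnd e2 e0 (by linarith)
    linarith
  set T : ℝ := ∑ p ∈ M.primeFactors, (spc p M β : ℝ) with hT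
  have hT0 : 0 ≤ T := Finset.sum_nonneg fun p _ => Nat.cast_nonneg _
  have hε1 : 0 < ε / (3 * (T + 1)) := by positivity
  have hε2 : 0 < ε / (3 * (nd β : ℝ)) := by
    have : (0 : ℝ) < nd β := by linarith
    positivity
  obtain ⟨N1, hN1⟩ := h1 M S B J hM hSb _ hε2
  obtain ⟨N2, hN2⟩ := h2 M S B J hM _ hε2
  have h3' : ∀ p : ℕ, ∃ N0 : ℕ, p.Prime → ∀ N ≥ N0,
      (LSJ p M B J N : ℝ) * Real.log p ≤ N * (Real.log p / (p - 1)) + ε / (3 * (T + 1)) * N := by
    intro p
    by_cases hp : p.Prime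
    · obtain ⟨N0, h⟩ := h3 M p B J hM hp _ hε1
      exact ⟨N0, fun _ => h⟩
    · exact ⟨0, fun h => absurd h hp⟩
  choose N3 hN3 using h3'
  refine ⟨max (max N1 N2) (M.primeFactors.sup N3), fun N hN => ?_⟩
  have a1 := hN1 N (le_trans (le_trans (le_max_left _ _) (le_max_left _ _)) hN)
  have a2 := hN2 N (le_trans (le_trans (le_max_right _ _) (le_max_left _ _)) hN)
  have hN0 : (0 : ℝ) ≤ N := Nat.cast_nonneg N
  have a3 : ∑ p ∈ M.primeFactors,
        ((M.factorization p : ℝ) * N + (spc p M β : ℝ) * (LSJ p M B J N : ℝ)) * Real.log p ≤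
      N * ∑ p ∈ M.primeFactors,
        ((M.factorization p : ℝ) + (spc p M β : ℝ) / ((p : ℝ) - 1)) * Real.log p +
      ε / (3 * (T + 1)) * N * T := by
    rw [hT, Finset.mul_sum, Finset.mul_sum, ← Finset.sum_add_distrib]
    refine Finset.sum_le_sum fun p hp => ?_
    have b1 := hN3 p (Nat.prime_of_mem_primeFactors hp) N
      (le_trans (le_trans (Finset.le_sup hp) (le_max_right _ _)) hN)
    have b2 := mul_le_mul_of_nonneg_left b1 (Nat.cast_nonneg (spc p M β) : (0 : ℝ) ≤ _)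
    have b3 : ((M.factorization p : ℝ) * N + (spc p M β : ℝ) * (LSJ p M B J N : ℝ)) * Real.log p =
        (M.factorization p : ℝ) * N * Real.log p +
          (spc p M β : ℝ) * ((LSJ p M B J N : ℝ) * Real.log p) := by ring
    have b4 : (N : ℝ) * (((M.factorization p : ℝ) + (spc p M β : ℝ) / ((p : ℝ) - 1)) *
        Real.log p) + ε / (3 * ((∑ p ∈ M.primeFactors, (spc p M β : ℝ)) + 1)) * N * (spc p M β : ℝ) =
        (M.factorization p : ℝ) * N * Real.log p + (spc p M β : ℝ) *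
          (N * (Real.log p / (p - 1)) +
            ε / (3 * ((∑ p ∈ M.primeFactors, (spc p M β : ℝ)) + 1)) * N) := by ring
    rw [b3, b4]
    linarith
  have a4 := hL ((opr (M * N + B + M)).filter (fun p => ¬ p ∣ M)) (fun p hp => by
    rw [Finset.mem_filter, opr, Finset.mem_filter] at hp
    exact ⟨hp.1.2, hp.2⟩)
  rw [IGRO.sum_split] at a4
  rw [IGRO.log_dJ M β S B J N hM]
  have a5 : ε / (3 * (T + 1)) * N * T ≤ ε / 3 * N := by
    have : ε / (3 * (T + 1)) * T ≤ ε / 3 := by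
      rw [div_mul_eq_mul_div, div_le_div_iff₀ (by positivity) (by positivity)]
      nlinarith
    nlinarith
  have a6 : (nd β : ℝ) * (ε / (3 * (nd β : ℝ))) = ε / 3 := by
    have : (nd β : ℝ) ≠ 0 := by linarith
    field_simp
  have a7 := mul_le_mul_of_nonneg_left (add_le_add a1 a2) (by linarith : (0 : ℝ) ≤ nd β)
  have a8 := mul_le_mul_of_nonneg_left a4 hN0
  generalize (∑ p ∈ (opr (M * N + B + M)).filter (fun p => ¬ p ∣ M ∧ p ∈ S),
      (1 / ((p : ℝ) * (p - 1)) + 1 / (p : ℝ)) * Real.log p) = X1 at a7 a8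
  generalize (∑ p ∈ (opr (M * N + B + M)).filter (fun p => ¬ p ∣ M ∧ p ∉ S),
      1 / ((p : ℝ) * (p - 1)) * Real.log p) = X2 at a7 a8
  have a9 : (nd β : ℝ) * (N * X1 + ε / (3 * (nd β : ℝ)) * N +
      (N * X2 + ε / (3 * (nd β : ℝ)) * N)) = N * ((nd β : ℝ) * (X1 + X2)) + 2 * (ε / 3 * N) := by
    rw [← a6]
    ring
  rw [a9] at a7
  have a10 : (N : ℝ) * (∑ p ∈ M.primeFactors,
        ((M.factorization p : ℝ) + (spc p M β : ℝ) / ((p : ℝ) - 1)) * Real.log p +
      (nd β : ℝ) * (X1 + X2)) = N * ∑ p ∈ M.primeFactors,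
        ((M.factorization p : ℝ) + (spc p M β : ℝ) / ((p : ℝ) - 1)) * Real.log p +
      N * ((nd β : ℝ) * (X1 + X2)) := by ring
  rw [a10] at a8
  linarith

end Pool.Agent.Work.MP_5e5ff1_ag.TH
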