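import Mathlib
import Pool.Agent.Work.MP_5e5ff1_ag.TH.StmtsA

set_option autoImplicit false

/-!
# MP_5e5ff1_ag, block TH, item GRS (helper83): growth of the exponents for the exceptional primes
-/

open Matrix Filter Topology
open scoped Polynomial

namespace Pool.Agent.Work.MP_5e5ff1_ag.TH

namespace IGRS

theorem geo (p : ℝ) (hp : 1 < p) (L : ℕ) :
    ∑ l ∈ Finset.Icc 1 L, (1 : ℝ) / p ^ l ≤ 1 / (p - 1) := by
  have h0 : 0 < p - 1 := by linarith
  have hp0 : 0 < p := by linarith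
  have h : ∀ L : ℕ, ∑ l ∈ Finset.Icc 1 L, (1 : ℝ) / p ^ l = 1 / (p - 1) * (1 - 1 / p ^ L) := by
    intro L
    induction L with
    | zero => simp
    | succ L ih =>
      rw [Finset.sum_Icc_succ_top (by omega), ih]
      field_simp
      ring
  rw [h]
  have h1 : (0 : ℝ) ≤ 1 / p ^ L := by positivity
  have h2 : (0 : ℝ) ≤ 1 / (p - 1) := by positivity
  nlinarith

/-- bound of one term -/
theorem one (p M B J N : ℕ) (hp : 2 ≤ p) :
    (LSJ p M B J N : ℝ) * Real.log p ≤ N * (Real.log p / p + Real.log p / (p * (p - 1))) +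
      J * Real.log p + (if p ≤ Nat.sqrt (M * N + B) then
        (J : ℝ) * Real.log ((M * N + B : ℕ) : ℝ) else 0) := by
  have hp1 : (1 : ℝ) < p := by exact_mod_cast (by omega : 1 < p)
  have hlog : 0 ≤ Real.log p := Real.log_nonneg hp1.le
  set L := Nat.log p (M * N + B) with hL
  have h1 : (LSJ p M B J N : ℝ) ≤ N * (1 / ((p : ℝ) - 1)) + J * L := by
    have h2 : (LSJ p M B J N : ℝ) = ∑ l ∈ Finset.Icc 1 L, (((N / p ^ l : ℕ) : ℝ) + J) := by
      rw [LSJ]; push_cast; rfl
    rw [h2, Finset.sum_add_distrib]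
    have h3 : ∑ l ∈ Finset.Icc 1 L, ((N / p ^ l : ℕ) : ℝ) ≤ N * (1 / ((p : ℝ) - 1)) := by
      calc ∑ l ∈ Finset.Icc 1 L, ((N / p ^ l : ℕ) : ℝ)
          ≤ ∑ l ∈ Finset.Icc 1 L, (N : ℝ) * (1 / (p : ℝ) ^ l) := by
            apply Finset.sum_le_sum
            intro l _
            have := @Nat.cast_div_le ℝ _ _ _ N (p ^ l)
            push_cast at this
            rw [mul_one_div]
            exact this
        _ = N * ∑ l ∈ Finset.Icc 1 L, (1 / (p : ℝ) ^ l) := by rw [Finset.mul_sum]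
        _ ≤ _ := mul_le_mul_of_nonneg_left (geo p hp1 L) (by positivity)
    have h4 : ∑ _l ∈ Finset.Icc 1 L, (J : ℝ) = J * L := by
      rw [Finset.sum_const, Nat.card_Icc, nsmul_eq_mul]
      simp [mul_comm]
    linarith
  have h5 : (LSJ p M B J N : ℝ) * Real.log p ≤
      (N * (1 / ((p : ℝ) - 1)) + J * L) * Real.log p :=
    mul_le_mul_of_nonneg_right h1 hlog
  have h6 : N * (1 / ((p : ℝ) - 1)) * Real.log p =
      N * (Real.log p / p + Real.log p / (p * (p - 1))) := by
    have h7 : (p : ℝ) - 1 ≠ 0 := by linarith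
    have h8 : (p : ℝ) ≠ 0 := by linarith
    field_simp
    ring
  have h9 : (J : ℝ) * L * Real.log p ≤ J * Real.log p + (if p ≤ Nat.sqrt (M * N + B) then
        (J : ℝ) * Real.log ((M * N + B : ℕ) : ℝ) else 0) := by
    split_ifs with hs
    · have hne : M * N + B ≠ 0 := by
        rintro h0
        rw [h0] at hs
        simp at hs
        omega
      have h10 : p ^ L ≤ M * N + B := Nat.pow_log_le_self p hne
      have h11 : (L : ℝ) * Real.log p ≤ Real.log ((M * N + B : ℕ) : ℝ) := by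
        rw [← Real.log_pow]
        apply Real.log_le_log (by positivity)
        exact_mod_cast h10
      have h12 : 0 ≤ (J : ℝ) * Real.log p := by positivity
      have h13 : (J : ℝ) * (L * Real.log p) ≤ J * Real.log ((M * N + B : ℕ) : ℝ) :=
        mul_le_mul_of_nonneg_left h11 (by positivity)
      linarith
    · have hL1 : L ≤ 1 := by
        rw [hL]
        by_contra h2
        push Not at h2
        have hne : M * N + B ≠ 0 := by
          rintro h0
          rw [h0] at h2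
          simp at h2
        have h10 : p ^ Nat.log p (M * N + B) ≤ M * N + B := Nat.pow_log_le_self p hne
        have h11 : p ^ 2 ≤ M * N + B := le_trans (Nat.pow_le_pow_right (by omega) h2) h10
        apply hs
        rw [Nat.le_sqrt']
        exact h11
      have hL2 : (L : ℝ) ≤ 1 := by exact_mod_cast hL1
      have h12 : 0 ≤ (J : ℝ) * Real.log p := by positivity
      nlinarith
  nlinarith [h5, h6, h9]

/-- the error term -/
theorem err (M B J : ℕ) (hM : 0 < M) (ε : ℝ) (hε : 0 < ε) : ∃ N0 : ℕ, ∀ N ≥ N0,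
    (J : ℝ) * (Nat.sqrt (M * N + B) * Real.log ((M * N + B : ℕ) : ℝ)) ≤ ε * N := by
  set c : ℝ := ε / ((M + 1) * (J + 1)) with hc
  have hc0 : 0 < c := by positivity
  have h1 := (isLittleO_log_rpow_atTop (show (0 : ℝ) < 1 / 2 by norm_num)).def hc0
  rw [Filter.eventually_atTop] at h1
  obtain ⟨x0, hx0⟩ := h1
  refine ⟨max (Nat.ceil x0) (B + 1), fun N hN => ?_⟩
  have hN1 : Nat.ceil x0 ≤ N := le_trans (le_max_left _ _) hN
  have hN2 : B + 1 ≤ N := le_trans (le_max_right _ _) hN
  have hN3 : x0 ≤ N := le_trans (Nat.le_ceil x0) (by exact_mod_cast hN1)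
  set x : ℝ := ((M * N + B : ℕ) : ℝ) with hx
  have hxN : (N : ℝ) ≤ x := by
    rw [hx]
    have : N ≤ M * N + B := le_trans (Nat.le_mul_of_pos_left N hM) (Nat.le_add_right _ _)
    exact_mod_cast this
  have hx5 : x ≤ (M + 1) * N := by
    rw [hx]
    have : M * N + B ≤ (M + 1) * N := by
      rw [Nat.add_mul, Nat.one_mul]
      omega
    exact_mod_cast this
  have hN4 : (1 : ℝ) ≤ N := by exact_mod_cast (by omega : 1 ≤ N)
  have hx1 : 1 ≤ x := le_trans hN4 hxN
  have h2 := hx0 x (le_trans hN3 hxN)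
  have hlx : 0 ≤ Real.log x := Real.log_nonneg hx1
  rw [Real.norm_of_nonneg hlx, Real.norm_of_nonneg (by positivity), ← Real.sqrt_eq_rpow] at h2
  have h3 : (Nat.sqrt (M * N + B) : ℝ) ≤ Real.sqrt x := by
    rw [hx]
    exact Real.nat_sqrt_le_real_sqrt
  have h4 : (Nat.sqrt (M * N + B) : ℝ) * Real.log x ≤ Real.sqrt x * (c * Real.sqrt x) := by
    apply mul_le_mul h3 h2 hlx (Real.sqrt_nonneg _)
  have h5 : Real.sqrt x * (c * Real.sqrt x) = c * x := by
    have := Real.mul_self_sqrt (by linarith : 0 ≤ x)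
    calc Real.sqrt x * (c * Real.sqrt x) = c * (Real.sqrt x * Real.sqrt x) := by ring
      _ = _ := by rw [this]
  rw [h5] at h4
  have h6 : c * x ≤ c * ((M + 1) * N) := mul_le_mul_of_nonneg_left hx5 hc0.le
  have h7 : (J : ℝ) * (c * ((M + 1) * N)) ≤ ε * N := by
    have h8 : c * ((M + 1) * (J + 1)) = ε := by
      rw [hc]; field_simp
    have h9 : (J : ℝ) * (c * ((M + 1) * N)) = c * ((M + 1) * J) * N := by ring
    rw [h9]
    apply mul_le_mul_of_nonneg_right _ (by positivity)
    rw [← h8]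
    nlinarith
  calc (J : ℝ) * (Nat.sqrt (M * N + B) * Real.log x) ≤ J * (c * ((M + 1) * N)) :=
        mul_le_mul_of_nonneg_left (le_trans h4 h6) (by positivity)
    _ ≤ _ := h7

end IGRS

open IGRS

open Classical in
theorem pr_GRS (hSMA : StSMA) : StGRS := by
  intro M S B J hM hS ε hε
  obtain ⟨N1, hN1⟩ := hSMA M S B hM hS (ε / (2 * (J + 1))) (by positivity)
  obtain ⟨N2, hN2⟩ := err M B J hM (ε / 2) (by positivity)
  refine ⟨max N1 N2, fun N hN => ?_⟩
  have h1 := hN1 N (le_trans (le_max_left _ _) hN)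
  have h2 := hN2 N (le_trans (le_max_right _ _) hN)
  set F := (opr (M * N + B + M)).filter (fun p => ¬ p ∣ M ∧ p ∈ S) with hF
  have hF3 : ∀ p ∈ F, 2 ≤ p := by
    intro p hp
    rw [hF, Finset.mem_filter, opr, Finset.mem_filter, Finset.mem_Icc] at hp
    exact hp.1.1.1
  have h3 : ∑ p ∈ F, (LSJ p M B J N : ℝ) * Real.log p ≤
      ∑ p ∈ F, (N * (Real.log p / p + Real.log p / (p * (p - 1))) +
      J * Real.log p + (if p ≤ Nat.sqrt (M * N + B) then
        (J : ℝ) * Real.log ((M * N + B : ℕ) : ℝ) else 0)) :=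
    Finset.sum_le_sum fun p hp => one p M B J N (hF3 p hp)
  rw [Finset.sum_add_distrib, Finset.sum_add_distrib, ← Finset.mul_sum, ← Finset.mul_sum] at h3
  have h4 : ∑ p ∈ F, (if p ≤ Nat.sqrt (M * N + B) then
        (J : ℝ) * Real.log ((M * N + B : ℕ) : ℝ) else 0) ≤
      (J : ℝ) * (Nat.sqrt (M * N + B) * Real.log ((M * N + B : ℕ) : ℝ)) := by
    rw [← Finset.sum_filter, Finset.sum_const, nsmul_eq_mul]
    have hlog : 0 ≤ Real.log ((M * N + B : ℕ) : ℝ) := Real.log_natCast_nonneg _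
    have h5 : (F.filter fun p => p ≤ Nat.sqrt (M * N + B)).card ≤ Nat.sqrt (M * N + B) := by
      have h6 : (F.filter fun p => p ≤ Nat.sqrt (M * N + B)) ⊆
          Finset.Icc 1 (Nat.sqrt (M * N + B)) := by
        intro p hp
        rw [Finset.mem_filter] at hp
        rw [Finset.mem_Icc]
        have := hF3 p hp.1
        exact ⟨by omega, hp.2⟩
      have := Finset.card_le_card h6
      rwa [Nat.card_Icc, Nat.add_sub_cancel] at this
    have h7 : ((F.filter fun p => p ≤ Nat.sqrt (M * N + B)).card : ℝ) ≤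
        Nat.sqrt (M * N + B) := by exact_mod_cast h5
    calc _ = (J : ℝ) * (((F.filter fun p => p ≤ Nat.sqrt (M * N + B)).card : ℝ) *
          Real.log ((M * N + B : ℕ) : ℝ)) := by ring
      _ ≤ _ := by gcongr
  have h8 : (J : ℝ) * ∑ p ∈ F, Real.log p ≤ ε / 2 * N := by
    have h9 : (J : ℝ) * ∑ p ∈ F, Real.log p ≤ J * (ε / (2 * (J + 1)) * N) :=
      mul_le_mul_of_nonneg_left h1 (by positivity)
    have h10 : (J : ℝ) * (ε / (2 * (J + 1)) * N) ≤ ε / 2 * N := by
      have h11 : (J : ℝ) * (ε / (2 * (J + 1)) * N) = (J / (J + 1)) * (ε / 2 * N) := by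
        field_simp
      rw [h11]
      have h12 : (J : ℝ) / (J + 1) ≤ 1 := by
        rw [div_le_one (by positivity)]; linarith
      have h13 : 0 ≤ ε / 2 * (N : ℝ) := by positivity
      nlinarith
    linarith
  have h14 : ∑ p ∈ F, (Real.log p / p + Real.log p / ((p : ℝ) * (p - 1))) =
      ∑ p ∈ F, (1 / ((p : ℝ) * (p - 1)) + 1 / (p : ℝ)) * Real.log p :=
    Finset.sum_congr rfl fun p _ => by ring
  rw [h14] at h3
  linarith

end Pool.Agent.Work.MP_5e5ff1_ag.TH
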