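import Mathlib
import Pool.Agent.Work.MP_5e5ff1_ag.TH.StmtsX

set_option autoImplicit false

/-!
# MP_5e5ff1_ag, block TH, item GRTS: growth of the common denominator, general exponent `s`
-/

open Matrix Filter Topology
open scoped Polynomial

namespace Pool.Agent.Work.MP_5e5ff1_ag.TH

namespace IGRTS

open Classical in
theorem log_dS (M s : ℕ) (S : Set ℕ)
    (T : Finset ℕ) (κ : ℕ → ℝ) (a : ℕ → ℕ) (B J N : ℕ) (hT : ∀ p ∈ T, p.Prime) :
    Real.log (dS M s S T κ a B J N) =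
      ∑ p ∈ T, ((J : ℝ) * ((a p : ℝ) + 1) + (⌈κ p * N⌉₊ : ℝ)) * Real.log p +
      (s : ℝ) * (∑ p ∈ (opr (M * N + B + M)).filter (fun p => p ∉ T ∧ p ∈ S),
          (LSJ p M B J N : ℝ) * Real.log p +
        ∑ p ∈ (opr (M * N + B + M)).filter (fun p => p ∉ T ∧ p ∉ S),
          (LGJ p M B J N : ℝ) * Real.log p) := by
  have h0 : ∀ p ∈ T ∪ opr (M * N + B + M), ((p : ℝ) ^ exS M s S T κ a B J N p) ≠ 0 := by
    intro p hp
    rcases Finset.mem_union.1 hp with hp | hp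
    · exact pow_ne_zero _ (by exact_mod_cast (hT p hp).ne_zero)
    · rw [opr, Finset.mem_filter] at hp
      exact pow_ne_zero _ (by exact_mod_cast hp.2.ne_zero)
  have h1 : Real.log (dS M s S T κ a B J N) =
      ∑ p ∈ T ∪ opr (M * N + B + M), (exS M s S T κ a B J N p : ℝ) * Real.log p := by
    unfold dS
    rw [Nat.cast_prod]
    simp only [Nat.cast_pow]
    rw [Real.log_prod h0]
    simp only [Real.log_pow]
  have hU : T ∪ opr (M * N + B + M) = T ∪ (opr (M * N + B + M)).filter (fun p => p ∉ T) := by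
    ext p
    rw [Finset.mem_union, Finset.mem_union, Finset.mem_filter]
    by_cases h : p ∈ T
    · exact ⟨fun _ => Or.inl h, fun _ => Or.inl h⟩
    · exact ⟨fun h' => h'.elim Or.inl fun h'' => Or.inr ⟨h'', h⟩,
        fun h' => h'.elim Or.inl fun h'' => Or.inr h''.1⟩
  have hdis : Disjoint T ((opr (M * N + B + M)).filter (fun p => p ∉ T)) := by
    rw [Finset.disjoint_left]
    intro p h h'
    exact (Finset.mem_filter.1 h').2 h
  rw [h1, hU, Finset.sum_union hdis, mul_add, Finset.mul_sum, Finset.mul_sum]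
  congr 1
  · apply Finset.sum_congr rfl
    intro p hp
    rw [exS, if_pos hp]
    push_cast
    ring
  · rw [← Finset.sum_filter_add_sum_filter_not
      ((opr (M * N + B + M)).filter (fun p => p ∉ T)) (fun p => p ∈ S), Finset.filter_filter,
      Finset.filter_filter]
    congr 1
    · apply Finset.sum_congr rfl
      intro p hp
      rw [Finset.mem_filter] at hp
      rw [exS, if_neg hp.2.1, if_pos hp.2.2]
      push_cast
      ring
    · apply Finset.sum_congr rfl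
      intro p hp
      rw [Finset.mem_filter] at hp
      rw [exS, if_neg hp.2.1, if_neg hp.2.2]
      push_cast
      ring

open Classical in
theorem sum_split (T : Finset ℕ) (S : Set ℕ) (H : ℕ) :
    ∑ p ∈ (opr H).filter (fun p => p ∉ T),
      (1 / ((p : ℝ) * (p - 1)) + if p ∈ S then 1 / (p : ℝ) else 0) * Real.log p =
    ∑ p ∈ (opr H).filter (fun p => p ∉ T ∧ p ∈ S),
      (1 / ((p : ℝ) * (p - 1)) + 1 / (p : ℝ)) * Real.log p +
    ∑ p ∈ (opr H).filter (fun p => p ∉ T ∧ p ∉ S),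
      1 / ((p : ℝ) * (p - 1)) * Real.log p := by
  rw [← Finset.sum_filter_add_sum_filter_not
      ((opr H).filter (fun p => p ∉ T)) (fun p => p ∈ S), Finset.filter_filter,
      Finset.filter_filter]
  congr 1
  · apply Finset.sum_congr rfl
    intro p hp
    rw [Finset.mem_filter] at hp
    rw [if_pos hp.2.2]
  · apply Finset.sum_congr rfl
    intro p hp
    rw [Finset.mem_filter] at hp
    rw [if_neg hp.2.2, add_zero]

open Classical in
theorem filter_S (M : ℕ) (T : Finset ℕ) (S S' : Set ℕ) (H : ℕ)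
    (hMT : ∀ p : ℕ, p.Prime → p ∣ M → p ∈ T) (hS : ∀ p, p ∈ S' ↔ p ∈ S ∧ p ∉ T) :
    (opr H).filter (fun p => ¬ p ∣ M ∧ p ∈ S') =
      (opr H).filter (fun p => p ∉ T ∧ p ∈ S) := by
  ext p
  rw [Finset.mem_filter, Finset.mem_filter, hS]
  constructor
  · rintro ⟨h1, _, h3, h4⟩
    exact ⟨h1, h4, h3⟩
  · rintro ⟨h1, h2, h3⟩
    refine ⟨h1, fun h => h2 (hMT p ?_ h), h3, h2⟩
    rw [opr, Finset.mem_filter] at h1
    exact h1.2

open Classical in
theorem filter_G (M : ℕ) (T : Finset ℕ) (S S' : Set ℕ) (H : ℕ)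
    (hMT : ∀ p : ℕ, p.Prime → p ∣ M → p ∈ T) (hS : ∀ p, p ∈ S' ↔ p ∈ S ∨ p ∈ T) :
    (opr H).filter (fun p => ¬ p ∣ M ∧ p ∉ S') =
      (opr H).filter (fun p => p ∉ T ∧ p ∉ S) := by
  ext p
  rw [Finset.mem_filter, Finset.mem_filter, hS]
  constructor
  · rintro ⟨h1, _, h3⟩
    exact ⟨h1, fun h => h3 (Or.inr h), fun h => h3 (Or.inl h)⟩
  · rintro ⟨h1, h2, h3⟩
    refine ⟨h1, fun h => h2 (hMT p ?_ h), fun h => h.elim h3 h2⟩
    rw [opr, Finset.mem_filter] at h1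
    exact h1.2

end IGRTS

open Classical in
theorem pr_GRTS (h1 : StGRS) (h2 : StGRG) : StGRTS := by
  intro M s S T κ a L B J hM hs hTp hMT hL ε hε
  have hnd : (1 : ℝ) ≤ s := by
    exact_mod_cast hs
  have hlog : ∀ p : ℕ, 0 ≤ Real.log p := fun p => Real.log_natCast_nonneg p
  have hpart : 0 ≤ ∑ p ∈ T, κ p * Real.log p :=
    Finset.sum_nonneg fun p hp => mul_nonneg (hTp p hp).2 (hlog p)
  have hSb : Sb M (S \ {p | p ∈ T}) := by
    refine ⟨L, fun F hF => ?_⟩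
    have e1 := hL F fun p hp => ⟨(hF p hp).1, (hF p hp).2.2.2⟩
    have e2 : ∑ p ∈ F, Real.log p / p ≤
        ∑ p ∈ F, (1 / ((p : ℝ) * (p - 1)) + if p ∈ S then 1 / (p : ℝ) else 0) * Real.log p := by
      refine Finset.sum_le_sum fun p hp => ?_
      rw [if_pos (hF p hp).2.2.1]
      have hp1 : (1 : ℝ) ≤ p := by exact_mod_cast (hF p hp).1.one_lt.le
      have : 0 ≤ 1 / ((p : ℝ) * (p - 1)) * Real.log p :=
        mul_nonneg (div_nonneg zero_le_one (mul_nonneg (by linarith) (by linarith))) (hlog p)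
      have e3 : Real.log p / p = 1 / (p : ℝ) * Real.log p := by ring
      rw [e3, add_mul]
      linarith
    have e0 : 0 ≤ ∑ p ∈ F, Real.log p / p :=
      Finset.sum_nonneg fun p _ => div_nonneg (hlog p) (Nat.cast_nonneg _)
    have e4 : ∑ p ∈ F, Real.log p / p ≤ (s : ℝ) * ∑ p ∈ F,
        (1 / ((p : ℝ) * (p - 1)) + if p ∈ S then 1 / (p : ℝ) else 0) * Real.log p :=
      calc ∑ p ∈ F, Real.log p / p = 1 * ∑ p ∈ F, Real.log p / p := (one_mul _).symm
        _ ≤ _ := mul_le_mul hnd e2 e0 (by linarith)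
    linarith
  set C0 : ℝ := ∑ p ∈ T, ((J : ℝ) * ((a p : ℝ) + 1) + 1) * Real.log p with hC0
  have hε2 : 0 < ε / (3 * (s : ℝ)) := by
    have : (0 : ℝ) < s := by linarith
    positivity
  obtain ⟨N1, hN1⟩ := h1 M (S \ {p | p ∈ T}) B J hM hSb _ hε2
  obtain ⟨N2, hN2⟩ := h2 M (S ∪ {p | p ∈ T}) B J hM _ hε2
  refine ⟨max (max N1 N2) ⌈3 * C0 / ε⌉₊, fun N hN => ?_⟩
  have a1 := hN1 N (le_trans (le_trans (le_max_left _ _) (le_max_left _ _)) hN)
  have a2 := hN2 N (le_trans (le_trans (le_max_right _ _) (le_max_left _ _)) hN)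
  rw [IGRTS.filter_S M T S (S \ {p | p ∈ T}) _ hMT fun p => Iff.rfl] at a1
  rw [IGRTS.filter_G M T S (S ∪ {p | p ∈ T}) _ hMT fun p => Iff.rfl] at a2
  have hN0 : (0 : ℝ) ≤ N := Nat.cast_nonneg N
  have hC1 : C0 ≤ ε / 3 * N := by
    have h5 : 3 * C0 / ε ≤ (N : ℝ) :=
      (Nat.le_ceil _).trans (by exact_mod_cast (le_trans (le_max_right _ _) hN))
    rw [div_le_iff₀ hε] at h5
    linarith
  have a3 : ∑ p ∈ T, ((J : ℝ) * ((a p : ℝ) + 1) + (⌈κ p * N⌉₊ : ℝ)) * Real.log p ≤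
      N * ∑ p ∈ T, κ p * Real.log p + C0 := by
    rw [hC0, Finset.mul_sum, ← Finset.sum_add_distrib]
    refine Finset.sum_le_sum fun p hp => ?_
    have b1 : (⌈κ p * N⌉₊ : ℝ) ≤ κ p * N + 1 :=
      (Nat.ceil_lt_add_one (mul_nonneg (hTp p hp).2 hN0)).le
    have b2 := mul_le_mul_of_nonneg_right b1 (hlog p)
    have b3 : ((J : ℝ) * ((a p : ℝ) + 1) + (⌈κ p * N⌉₊ : ℝ)) * Real.log p =
        (J : ℝ) * ((a p : ℝ) + 1) * Real.log p + (⌈κ p * N⌉₊ : ℝ) * Real.log p := by ring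
    rw [b3]
    have b4 : (N : ℝ) * (κ p * Real.log p) + ((J : ℝ) * ((a p : ℝ) + 1) + 1) * Real.log p =
        (J : ℝ) * ((a p : ℝ) + 1) * Real.log p + (κ p * N + 1) * Real.log p := by ring
    rw [b4]
    linarith
  have a4 := hL ((opr (M * N + B + M)).filter (fun p => p ∉ T)) (fun p hp => by
    rw [Finset.mem_filter, opr, Finset.mem_filter] at hp
    exact ⟨hp.1.2, hp.2⟩)
  rw [IGRTS.sum_split] at a4
  rw [IGRTS.log_dS M s S T κ a B J N fun p hp => (hTp p hp).1]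
  have a6 : (s : ℝ) * (ε / (3 * (s : ℝ))) = ε / 3 := by
    have : (s : ℝ) ≠ 0 := by linarith
    field_simp
  have a7 := mul_le_mul_of_nonneg_left (add_le_add a1 a2) (by linarith : (0 : ℝ) ≤ s)
  have a8 := mul_le_mul_of_nonneg_left a4 hN0
  generalize (∑ p ∈ (opr (M * N + B + M)).filter (fun p => p ∉ T ∧ p ∈ S),
      (1 / ((p : ℝ) * (p - 1)) + 1 / (p : ℝ)) * Real.log p) = X1 at a7 a8
  generalize (∑ p ∈ (opr (M * N + B + M)).filter (fun p => p ∉ T ∧ p ∉ S),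
      1 / ((p : ℝ) * (p - 1)) * Real.log p) = X2 at a7 a8
  have a9 : (s : ℝ) * (N * X1 + ε / (3 * (s : ℝ)) * N +
      (N * X2 + ε / (3 * (s : ℝ)) * N)) = N * ((s : ℝ) * (X1 + X2)) + 2 * (ε / 3 * N) := by
    rw [← a6]
    ring
  rw [a9] at a7
  have a10 : (N : ℝ) * (∑ p ∈ T, κ p * Real.log p +
      (s : ℝ) * (X1 + X2)) = N * ∑ p ∈ T, κ p * Real.log p +
      N * ((s : ℝ) * (X1 + X2)) := by ring
  rw [a10] at a8
  linarith

end Pool.Agent.Work.MP_5e5ff1_ag.TH
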