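import Mathlib
import Pool.Agent.Work.MP_5e5ff1_ag.TH.StmtsZ

set_option autoImplicit false

/-!
# MP_5e5ff1_ag, block TH, item GS3: the cubic step
-/

open Filter Topology
open scoped Polynomial

namespace Pool.Agent.Work.MP_5e5ff1_ag.TH

namespace IGS3

theorem cb_mem {z : ℂ} (hz : z ∈ Metric.ball (0 : ℂ) 1) : z ^ 3 ∈ Metric.ball (0 : ℂ) 1 := by
  rw [mem_ball_zero_iff] at hz ⊢
  rw [norm_pow]
  exact pow_lt_one₀ (norm_nonneg _) hz (by norm_num)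

end IGS3

open IGS3 in
theorem pr_GS3 (hR : StROOT) : StGS3 := by
  rintro D hD ⟨n, d, hn, hd, h0, hnd⟩
  have h00 : (0 : ℂ) ∈ Metric.ball (0 : ℂ) 1 := Metric.mem_ball_self one_pos
  have hm : DifferentiableOn ℂ (fun z : ℂ => z ^ 3) (Metric.ball 0 1) :=
    (differentiable_id.pow 3).differentiableOn
  have hn1 : DifferentiableOn ℂ (fun z : ℂ => n (z ^ 3)) (Metric.ball 0 1) :=
    hn.comp hm fun z hz => cb_mem hz
  have hd1 : DifferentiableOn ℂ (fun z : ℂ => d (z ^ 3)) (Metric.ball 0 1) :=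
    hd.comp hm fun z hz => cb_mem hz
  have hy : DifferentiableOn ℂ (fun z : ℂ => z ^ 3 * n (z ^ 3)) (Metric.ball 0 1) := hm.mul hn1
  have hf : DifferentiableOn ℂ (fun z : ℂ => 9 * n (z ^ 3) *
      (d (z ^ 3) ^ 2 + d (z ^ 3) * (z ^ 3 * n (z ^ 3)) + (z ^ 3 * n (z ^ 3)) ^ 2))
      (Metric.ball 0 1) :=
    ((differentiableOn_const 9).mul hn1).mul (((hd1.pow 2).add (hd1.mul hy)).add (hy.pow 2))
  have key : ∀ z ∈ Metric.ball (0 : ℂ) 1, d (z ^ 3) - z ^ 3 * n (z ^ 3) ≠ 0 ∧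
      d (z ^ 3) ^ 2 + d (z ^ 3) * (z ^ 3 * n (z ^ 3)) + (z ^ 3 * n (z ^ 3)) ^ 2 ≠ 0 := by
    intro z hz
    have h1 := (h0 _ (cb_mem hz)).2
    have h2 : d (z ^ 3) ^ 3 - (z ^ 3 * n (z ^ 3)) ^ 3 = (d (z ^ 3) - z ^ 3 * n (z ^ 3)) *
        (d (z ^ 3) ^ 2 + d (z ^ 3) * (z ^ 3 * n (z ^ 3)) + (z ^ 3 * n (z ^ 3)) ^ 2) := by ring
    rw [h2] at h1
    exact ⟨left_ne_zero_of_mul h1, right_ne_zero_of_mul h1⟩
  obtain ⟨r, hr, hr2⟩ := hR _ 0 1 3 one_pos (by norm_num) hf (fun z hz =>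
    mul_ne_zero (mul_ne_zero (by norm_num) (h0 _ (cb_mem hz)).1) (key z hz).2)
  refine ⟨r, fun z => d (z ^ 3) + 2 * (z ^ 3 * n (z ^ 3)), hr,
    hd1.add ((differentiableOn_const 2).mul hy), ?_, ?_⟩
  · intro z hz
    refine ⟨(hr2 z hz).1, ?_⟩
    have h1 := (hr2 z hz).2.1
    have h2 : (d (z ^ 3) + 2 * (z ^ 3 * n (z ^ 3))) ^ 3 - (z * r z) ^ 3 =
        (d (z ^ 3) - z ^ 3 * n (z ^ 3)) ^ 3 := by
      rw [mul_pow z (r z), h1]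
      ring
    rw [h2]
    exact pow_ne_zero _ (key z hz).1
  · have h1 := (hr2 0 h00).2.1
    simp only [ne_eq, OfNat.ofNat_ne_zero, not_false_eq_true, zero_pow, zero_mul, mul_zero,
      add_zero] at h1 ⊢
    have h2 : ‖r 0‖ ^ 3 = (9 * D) * ‖d 0‖ ^ 3 := by
      rw [← norm_pow, h1, norm_mul, norm_mul, norm_pow, hnd]
      have h9 : ‖(9 : ℂ)‖ = 9 := by norm_num
      rw [h9]
      ring
    have h9D : 0 ≤ 9 * D := by positivity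
    have h3 : ((9 * D) ^ (1 / 3 : ℝ)) ^ 3 = 9 * D := by
      rw [← Real.rpow_natCast, ← Real.rpow_mul h9D]
      norm_num
    have h4 : ‖r 0‖ ^ 3 = ((9 * D) ^ (1 / 3 : ℝ) * ‖d 0‖) ^ 3 := by
      rw [mul_pow, h3, h2]
    have h5 : 0 ≤ (9 * D) ^ (1 / 3 : ℝ) * ‖d 0‖ := by positivity
    exact (pow_left_inj₀ (norm_nonneg _) h5 (by norm_num)).1 h4

end Pool.Agent.Work.MP_5e5ff1_ag.TH
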