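import Mathlib
import Pool.Agent.Work.MP_5e5ff1_ag.TH.StmtsB

set_option autoImplicit false

/-!
# MP_5e5ff1_ag, block TH, item GST (helper21): the Landen step
-/

open Filter Topology
open scoped Polynomial

namespace Pool.Agent.Work.MP_5e5ff1_ag.TH

namespace IGST

theorem sq_mem {z : ℂ} (hz : z ∈ Metric.ball (0 : ℂ) 1) : z ^ 2 ∈ Metric.ball (0 : ℂ) 1 := by
  rw [mem_ball_zero_iff] at hz ⊢
  rw [norm_pow]
  exact pow_lt_one₀ (norm_nonneg _) hz (by norm_num)

end IGST

open IGST in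
theorem pr_GST (hS : TG.StSqr) : StGST := by
  rintro D ⟨g, hg, h0, hD⟩
  have h00 : (0 : ℂ) ∈ Metric.ball (0 : ℂ) 1 := Metric.mem_ball_self one_pos
  obtain ⟨c, hc⟩ := IsAlgClosed.exists_pow_nat_eq (g 0) (n := 2) (by norm_num)
  obtain ⟨g1, hg1, hsq, -⟩ := hS g c hg (fun z hz => (h0 z hz).1) hc
  have hd : ∀ z ∈ Metric.ball (0 : ℂ) 1, 1 + z ^ 2 * g (z ^ 2) ≠ 0 := by
    intro z hz h
    apply (h0 _ (sq_mem hz)).2.2
    linear_combination h
  refine ⟨fun z => 2 * g1 (z ^ 2) / (1 + z ^ 2 * g (z ^ 2)), ?_, ?_, ?_⟩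
  · have hm : DifferentiableOn ℂ (fun z : ℂ => z ^ 2) (Metric.ball 0 1) :=
      (differentiable_id.pow 2).differentiableOn
    have h1 : DifferentiableOn ℂ (fun z : ℂ => g1 (z ^ 2)) (Metric.ball 0 1) :=
      hg1.comp hm fun z hz => sq_mem hz
    have h2 : DifferentiableOn ℂ (fun z : ℂ => g (z ^ 2)) (Metric.ball 0 1) :=
      hg.comp hm fun z hz => sq_mem hz
    exact ((differentiableOn_const 2).mul h1).div ((differentiableOn_const 1).add (hm.mul h2)) hd
  · intro z hz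
    have hz2 := sq_mem hz
    have e1 := hsq _ hz2
    have hd' := hd z hz
    have hg0 : g1 (z ^ 2) ≠ 0 := by
      intro h
      rw [h] at e1
      apply (h0 _ hz2).1
      rw [← e1]
      ring
    have hu : (z * g1 (z ^ 2)) ^ 2 ≠ 1 := by
      rw [mul_pow, e1]
      exact (h0 _ hz2).2.1
    refine ⟨div_ne_zero (mul_ne_zero two_ne_zero hg0) hd', ?_, ?_⟩
    · intro h
      have h1 : z * (2 * g1 (z ^ 2)) = 1 + z ^ 2 * g (z ^ 2) := by
        have h2 : z * (2 * g1 (z ^ 2) / (1 + z ^ 2 * g (z ^ 2))) =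
            z * (2 * g1 (z ^ 2)) / (1 + z ^ 2 * g (z ^ 2)) := by ring
        rw [h2, div_eq_iff hd', one_mul] at h
        exact h
      have h3 : (z * g1 (z ^ 2) - 1) ^ 2 = 0 := by
        linear_combination (z ^ 2) * e1 - h1
      have h4 : z * g1 (z ^ 2) - 1 = 0 := by
        rwa [pow_eq_zero_iff (by norm_num)] at h3
      apply hu
      rw [sub_eq_zero.1 h4, one_pow]
    · intro h
      have h1 : z * (2 * g1 (z ^ 2)) = -(1 + z ^ 2 * g (z ^ 2)) := by
        have h2 : z * (2 * g1 (z ^ 2) / (1 + z ^ 2 * g (z ^ 2))) =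
            z * (2 * g1 (z ^ 2)) / (1 + z ^ 2 * g (z ^ 2)) := by ring
        rw [h2, div_eq_iff hd'] at h
        linear_combination h
      have h3 : (z * g1 (z ^ 2) + 1) ^ 2 = 0 := by
        linear_combination (z ^ 2) * e1 + h1
      have h4 : z * g1 (z ^ 2) + 1 = 0 := by
        rwa [pow_eq_zero_iff (by norm_num)] at h3
      apply hu
      have h5 : z * g1 (z ^ 2) = -1 := by linear_combination h4
      rw [h5]
      norm_num
  · have e1 := hsq 0 h00
    have h1 : ‖g1 0‖ ^ 2 = D := by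
      rw [← norm_pow, e1, hD]
    have h2 : ‖g1 0‖ = Real.sqrt D := by
      rw [← h1, Real.sqrt_sq (norm_nonneg _)]
    simp only [ne_eq, OfNat.ofNat_ne_zero, not_false_eq_true, zero_pow, zero_mul, add_zero, div_one,
      norm_mul, Complex.norm_ofNat, h2]

end Pool.Agent.Work.MP_5e5ff1_ag.TH
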