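import Mathlib
import Pool.Agent.Work.MP_5e5ff1_ag.TH.StmtsY

set_option autoImplicit false

/-!
# MP_5e5ff1_ag, block TH, item HAC: conjugation by a constant matrix
-/

open Matrix Filter Topology NumberField
open scoped Polynomial nonZeroDivisors

namespace Pool.Agent.Work.MP_5e5ff1_ag.TH

namespace IHAC

/-- the embedding of the constants -/
noncomputable def em : ℂ →+* AlgebraicClosure (RatFunc ℂ) :=
  (algebraMap (RatFunc ℂ) (AlgebraicClosure (RatFunc ℂ))).comp (algebraMap ℂ (RatFunc ℂ))

/-- the variable -/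
noncomputable def tv : AlgebraicClosure (RatFunc ℂ) :=
  algebraMap (RatFunc ℂ) (AlgebraicClosure (RatFunc ℂ)) RatFunc.X

theorem coef {r : ℕ} (B D : Matrix (Fin r) (Fin r) ℂ) :
    (Matrix.of fun i j => algebraMap (RatFunc ℂ) (AlgebraicClosure (RatFunc ℂ))
        (algebraMap ℂ (RatFunc ℂ) (B i j) / RatFunc.X +
         algebraMap ℂ (RatFunc ℂ) (D i j) / (RatFunc.X - 1))) =
      tv⁻¹ • B.map em + (tv - 1)⁻¹ • D.map em := by
  ext i j
  simp only [Matrix.of_apply, Matrix.add_apply, Matrix.smul_apply, Matrix.map_apply, smul_eq_mul,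
    map_add, map_div₀, map_sub, map_one, em, tv, RingHom.comp_apply]
  rw [div_eq_inv_mul, div_eq_inv_mul]

end IHAC

open IHAC in
/-- Conjugation by a constant matrix. -/
theorem pr_HAC : StHAC := by
  intro r B D B' D' G hG hB hD h
  obtain ⟨δ, F, h1, h2, h3, h4⟩ := h
  refine ⟨δ, G.map em * F, h1, h2, ?_, ?_⟩
  · rw [Matrix.det_mul]
    refine mul_ne_zero ?_ h3
    have e1 : (G.map em).det = em G.det := (RingHom.map_det em G).symm
    rw [e1]
    exact (map_ne_zero em).2 hG
  · have e1 : (G.map em * F).map (fun x => δ x) = G.map em * F.map (fun x => δ x) := by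
      ext i j
      simp only [Matrix.map_apply, Matrix.mul_apply, map_sum]
      refine Finset.sum_congr rfl fun k _ => ?_
      rw [Derivation.leibniz]
      have e2 : δ (em (G i k)) = 0 := h1 (G i k)
      rw [e2, smul_zero, add_zero, smul_eq_mul]
    rw [coef B' D'] at h4
    rw [e1, h4, coef B D, ← Matrix.mul_assoc, ← Matrix.mul_assoc]
    congr 1
    have e2 : B.map em * G.map em = G.map em * B'.map em := by
      rw [← Matrix.map_mul, ← Matrix.map_mul, hB]
    have e3 : D.map em * G.map em = G.map em * D'.map em := by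
      rw [← Matrix.map_mul, ← Matrix.map_mul, hD]
    rw [Matrix.mul_add, Matrix.add_mul, Matrix.mul_smul, Matrix.mul_smul, Matrix.smul_mul,
      Matrix.smul_mul, e2, e3]

end Pool.Agent.Work.MP_5e5ff1_ag.TH
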