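import Mathlib
import Pool.Agent.Work.MP_5e5ff1_ag.TH.StmtsY

set_option autoImplicit false

/-! # Item IND of the block TH: the growth does not depend on the formal solution -/

open Matrix Filter Topology NumberField
open scoped Polynomial nonZeroDivisors

namespace Pool.Agent.Work.MP_5e5ff1_ag.TH

namespace IIND

/-- the quotient of two solutions -/
noncomputable def H {K : Type} [Field K] {r : ℕ} (U U' : ℕ → Matrix (Fin r) (Fin r) K) :
    ℕ → Matrix (Fin r) (Fin r) K
  | k => U' k - ∑ l : Fin k, U (k - l) * H U U' l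
decreasing_by exact l.2

theorem H_eq {K : Type} [Field K] {r : ℕ} (U U' : ℕ → Matrix (Fin r) (Fin r) K) (k : ℕ) :
    H U U' k = U' k - ∑ l ∈ Finset.range k, U (k - l) * H U U' l := by
  rw [H, Finset.sum_range (fun l => U (k - l) * H U U' l)]

theorem sum_eq {K : Type} [Field K] {r : ℕ} (U U' : ℕ → Matrix (Fin r) (Fin r) K)
    (h0 : U 0 = 1) (n : ℕ) :
    U' n = ∑ l ∈ Finset.range (n + 1), U (n - l) * H U U' l := by
  rw [Finset.sum_range_succ, Nat.sub_self, h0, one_mul, H_eq U U' n]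
  abel

theorem claim {K : Type} [Field K] {r M : ℕ} {β : Fin r → ℤ} {C : Matrix (Fin r) (Fin r) K}
    {U U' : ℕ → Matrix (Fin r) (Fin r) K} (hU : IsU M β C U) (hU' : IsU M β C U') :
    ∀ (k : ℕ) (i j : Fin r),
      ((M : K) * (k : K) + ((β j : K) - (β i : K))) * H U U' k i j = 0 := by
  intro k
  induction k using Nat.strong_induction_on with
  | _ k ih =>
    intro i j
    have h1 := hU'.eqn k i j
    have h2 : ∀ l ∈ Finset.range k, ((M : K) * (k : K) + ((β j : K) - (β i : K))) *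
        (U (k - l) * H U U' l) i j +
        ∑ m ∈ Finset.range (k - l), (C * U m * H U U' l) i j = 0 := by
      intro l hl
      rw [Finset.mem_range] at hl
      have h3 : ∀ m, (C * U m * H U U' l) i j = ∑ i', (C * U m) i i' * H U U' l i' j :=
        fun m => Matrix.mul_apply
      simp only [h3]
      rw [Matrix.mul_apply, Finset.mul_sum, Finset.sum_comm, ← Finset.sum_add_distrib]
      refine Finset.sum_eq_zero fun i' _ => ?_
      rw [← Finset.sum_mul]
      have h4 := hU.eqn (k - l) i i'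
      have h5 := ih l hl i' j
      have h6 : ((k - l : ℕ) : K) = (k : K) - (l : K) := by
        rw [Nat.cast_sub hl.le]
      rw [h6] at h4
      linear_combination (H U U' l i' j) * h4 + (U (k - l) i i') * h5
    have h7 : ∑ m ∈ Finset.range k, (C * U' m) i j =
        ∑ l ∈ Finset.range k, ∑ m ∈ Finset.range (k - l), (C * U m * H U U' l) i j := by
      rw [← Finset.sum_range_diag_flip k (fun l m => (C * U m * H U U' l) i j)]
      refine Finset.sum_congr rfl fun m _ => ?_
      have h8 := congrArg (fun X => (C * X) i j) (sum_eq U U' hU.zero m)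
      simp only [Matrix.mul_sum, Matrix.sum_apply] at h8
      rw [h8]
      refine Finset.sum_congr rfl fun l _ => ?_
      rw [Matrix.mul_assoc]
    have h9 : U' k i j = ∑ l ∈ Finset.range k, (U (k - l) * H U U' l) i j + H U U' k i j := by
      have h8 := congrArg (fun X => X i j) (sum_eq U U' hU.zero k)
      simp only [Matrix.sum_apply] at h8
      rw [h8, Finset.sum_range_succ, Nat.sub_self, hU.zero, one_mul]
    have h10 := Finset.sum_eq_zero h2
    rw [Finset.sum_add_distrib, ← Finset.mul_sum, ← h7] at h10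
    rw [h9] at h1
    linear_combination h1 - h10

theorem vanish {K : Type} [Field K] [CharZero K] {r M : ℕ} (hM : 0 < M) {β : Fin r → ℤ}
    {C : Matrix (Fin r) (Fin r) K} {U U' : ℕ → Matrix (Fin r) (Fin r) K}
    (hU : IsU M β C U) (hU' : IsU M β C U') :
    ∃ B0 : ℕ, ∀ k, B0 < k → H U U' k = 0 := by
  refine ⟨∑ i, ∑ j, (β i - β j).natAbs, fun k hk => ?_⟩
  ext i j
  rw [Matrix.zero_apply]
  by_contra hne
  have h1 := claim hU hU' k i j
  rcases mul_eq_zero.1 h1 with h2 | h2
  · have h3 : (M : ℤ) * (k : ℤ) = β i - β j := by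
      have h4 : (((M : ℤ) * (k : ℤ) : ℤ) : K) = ((β i - β j : ℤ) : K) := by
        push_cast
        linear_combination h2
      exact_mod_cast h4
    have h5 : k ≤ M * k := Nat.le_mul_of_pos_left k hM
    have h6 : (β i - β j).natAbs = M * k := by
      rw [← h3]
      exact_mod_cast Int.natAbs_natCast (M * k)
    have h7 : (β i - β j).natAbs ≤ ∑ j, (β i - β j).natAbs :=
      Finset.single_le_sum (f := fun j => (β i - β j).natAbs) (fun _ _ => Nat.zero_le _)
        (Finset.mem_univ j)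
    have h8 : ∑ j, (β i - β j).natAbs ≤ ∑ i, ∑ j, (β i - β j).natAbs :=
      Finset.single_le_sum (f := fun i => ∑ j, (β i - β j).natAbs) (fun _ _ => Nat.zero_le _)
        (Finset.mem_univ i)
    omega
  · exact hne h2

theorem den (K : Type) [Field K] [NumberField K] {ι : Type} [Fintype ι] (x : ι → K) :
    ∃ N : ℕ, 0 < N ∧ ∀ t, IsIntegral ℤ ((N : K) * x t) := by
  have h1 : ∀ t, ∃ y : ℕ, 0 < y ∧ IsIntegral ℤ ((y : K) * x t) := by
    intro t
    have halg : IsAlgebraic ℤ (x t) := by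
      rw [IsFractionRing.isAlgebraic_iff ℤ ℚ K]
      exact Algebra.IsAlgebraic.isAlgebraic _
    obtain ⟨y, hy, hint⟩ := halg.exists_integral_multiple
    refine ⟨y.natAbs, Int.natAbs_pos.2 hy, ?_⟩
    rw [zsmul_eq_mul] at hint
    rcases Int.natAbs_eq y with h | h
    · rw [h] at hint
      simpa using hint
    · rw [h] at hint
      have h2 := hint.neg
      simpa using h2
  choose y hy hint using h1
  refine ⟨∏ t, y t, Finset.prod_pos fun t _ => hy t, fun t => ?_⟩
  obtain ⟨q, hq⟩ : y t ∣ ∏ t, y t := Finset.dvd_prod_of_mem y (Finset.mem_univ t)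
  rw [hq, Nat.cast_mul, mul_comm ((y t : ℕ) : K), mul_assoc]
  have h6 : IsIntegral ℤ (q : K) := by
    have := isIntegral_algebraMap (R := ℤ) (A := K) (x := (q : ℤ))
    simpa using this
  exact h6.mul (hint t)

end IIND

open IIND

theorem pr_IND : StIND := by
  intro K _ _ r M β C U U' hM hU hU' p κ hp hκ hG
  obtain ⟨B0, hB0⟩ := vanish hM hU hU'
  obtain ⟨N, hN, hNint⟩ := den K (fun t : Fin (B0 + 1) × Fin r × Fin r => H U U' t.1 t.2.1 t.2.2)
  obtain ⟨v, N', hN', hNv⟩ := Nat.exists_eq_pow_mul_and_not_dvd hN.ne' p hp.ne_one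
  have hint : ∀ (k : ℕ) (i j : Fin r), IsIntegral ℤ ((N : K) * H U U' k i j) := by
    intro k i j
    by_cases hk : B0 < k
    · rw [hB0 k hk, Matrix.zero_apply, mul_zero]
      exact isIntegral_zero
    · exact hNint (⟨k, by omega⟩, i, j)
  intro ε hε
  obtain ⟨a, ha⟩ := hG ε hε
  refine ⟨v + a, fun n i j => ?_⟩
  have h1 : ∀ t : Fin (n + 1) × Fin r, ∃ m : ℕ, ¬ p ∣ m ∧
      IsIntegral ℤ ((m : K) * (p : K) ^ (a + ⌈(κ + ε) * n⌉₊) * U (n - t.1) i t.2) := by
    intro t
    obtain ⟨m, hm, hi⟩ := ha (n - t.1) i t.2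
    refine ⟨m, hm, ?_⟩
    have hle : ⌈(κ + ε) * ((n - t.1 : ℕ) : ℝ)⌉₊ ≤ ⌈(κ + ε) * n⌉₊ := by
      apply Nat.ceil_mono
      apply mul_le_mul_of_nonneg_left _ (by positivity)
      exact_mod_cast Nat.sub_le _ _
    obtain ⟨q, hq⟩ := Nat.exists_eq_add_of_le hle
    have h2 : (m : K) * (p : K) ^ (a + ⌈(κ + ε) * n⌉₊) * U (n - t.1) i t.2 =
        ((p : K) ^ q) * ((m : K) * (p : K) ^ (a + ⌈(κ + ε) * ((n - t.1 : ℕ) : ℝ)⌉₊) *
          U (n - t.1) i t.2) := by
      rw [hq, ← add_assoc, pow_add (p : K) (a + _) q]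
      ring
    rw [h2]
    have h3 : IsIntegral ℤ ((p : K) ^ q) := by
      have := isIntegral_algebraMap (R := ℤ) (A := K) (x := ((p : ℤ) ^ q))
      simpa using this
    exact h3.mul hi
  choose m hm hi using h1
  refine ⟨N' * ∏ t, m t, ?_, ?_⟩
  · intro hd
    rcases (Nat.Prime.dvd_mul hp).1 hd with h | h
    · exact hN' h
    · obtain ⟨t, -, ht⟩ := (Prime.dvd_finsetProd_iff hp.prime _).1 h
      exact hm t ht
  · have h4 := congrArg (fun X => X i j) (sum_eq U U' hU.zero n)
    simp only [Matrix.sum_apply, Matrix.mul_apply] at h4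
    rw [h4, Finset.mul_sum]
    refine IsIntegral.sum _ fun k hk => ?_
    rw [Finset.mul_sum]
    refine IsIntegral.sum _ fun i' _ => ?_
    rw [Finset.mem_range] at hk
    obtain ⟨q, hq⟩ : m (⟨k, hk⟩, i') ∣ ∏ t, m t :=
      Finset.dvd_prod_of_mem m (Finset.mem_univ ((⟨k, hk⟩, i') : Fin (n + 1) × Fin r))
    have h5 : ((N' * ∏ t, m t : ℕ) : K) * (p : K) ^ (v + a + ⌈(κ + ε) * n⌉₊) *
        (U (n - k) i i' * H U U' k i' j) =
        (q : K) * (((m (⟨k, hk⟩, i') : ℕ) : K) * (p : K) ^ (a + ⌈(κ + ε) * n⌉₊) *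
          U (n - k) i i') * ((N : K) * H U U' k i' j) := by
      rw [hq, hNv, add_assoc, pow_add (p : K) v]
      push_cast
      ring
    rw [h5]
    have h6 : IsIntegral ℤ (q : K) := by
      have := isIntegral_algebraMap (R := ℤ) (A := K) (x := (q : ℤ))
      simpa using this
    exact (h6.mul (hi (⟨k, hk⟩, i'))).mul (hint k i' j)

end Pool.Agent.Work.MP_5e5ff1_ag.TH
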