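import Mathlib
import Pool.Agent.Work.MP_5e5ff1_ag.TH.StmtsX

set_option autoImplicit false

/-!
# TH, item INFT: there are arbitrarily large good primes (cost with general exponents)
-/

namespace Pool.Agent.Work.MP_5e5ff1_ag.TH

namespace IINFT

/-- an element of a finite set of natural numbers is at most the sum of its elements -/
theorem le_sum (T : Finset ℕ) (p : ℕ) (hp : p ∈ T) : p ≤ ∑ q ∈ T, q :=
  Finset.single_le_sum (f := fun q : ℕ => q) (fun _ _ => Nat.zero_le _) hp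

end IINFT

open IINFT

theorem pr_INFT : StINFT := by
  intro M s S T κ L hM0 hs hT hS N
  classical
  by_contra hcon
  push Not at hcon
  have hmem : ∀ p : ℕ, N < p → p.Prime → ¬ p ∣ M → p ∈ S := fun p h1 h2 h3 => hcon p h1 h2 h3
  apply not_summable_one_div_on_primes
  obtain ⟨K, hK⟩ : ∃ K : ℕ, K = N + M + 3 + ∑ q ∈ T, q := ⟨_, rfl⟩
  have hKN : N ≤ K := by omega
  have hKM : M ≤ K := by omega
  have hK3 : 3 ≤ K := by omega
  have hKT : ∀ q ∈ T, q ≤ K := fun q hq => by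
    have := le_sum T q hq
    omega
  set f : ℕ → ℝ := Set.indicator {p : ℕ | p.Prime} (fun n : ℕ => (1 : ℝ) / n) with hf
  have hf0 : ∀ n, 0 ≤ f n := by
    intro n
    rw [hf]
    exact Set.indicator_nonneg (fun _ _ => by positivity) n
  refine summable_of_sum_le (c := ∑ n ∈ Finset.range (K + 1), f n + L) hf0 ?_
  intro u
  have h1 : ∑ n ∈ u, f n = ∑ n ∈ u.filter (fun n => n ≤ K), f n +
      ∑ n ∈ u.filter (fun n => ¬ n ≤ K), f n := (Finset.sum_filter_add_sum_filter_not u _ f).symm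
  have h2 : ∑ n ∈ u.filter (fun n => n ≤ K), f n ≤ ∑ n ∈ Finset.range (K + 1), f n := by
    refine Finset.sum_le_sum_of_subset_of_nonneg (fun n hn => ?_) fun n _ _ => hf0 n
    rw [Finset.mem_filter] at hn
    exact Finset.mem_range.2 (Nat.lt_succ_of_le hn.2)
  set F := (u.filter (fun n => ¬ n ≤ K)).filter (fun n => n.Prime) with hF
  have hFm : ∀ p ∈ F, p.Prime ∧ K < p := by
    intro p hp
    rw [hF, Finset.mem_filter, Finset.mem_filter] at hp
    exact ⟨hp.2, not_le.1 hp.1.2⟩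
  have hFM : ∀ p ∈ F, ¬ p ∣ M := by
    intro p hp hd
    have := Nat.le_of_dvd hM0 hd
    have := (hFm p hp).2
    omega
  have hFT : ∀ p ∈ F, p ∉ T := by
    intro p hp hd
    have := hKT p hd
    have := (hFm p hp).2
    omega
  have h3 : ∑ n ∈ u.filter (fun n => ¬ n ≤ K), f n ≤
      ∑ p ∈ F, (1 / ((p : ℝ) * (p - 1)) + if p ∈ S then 1 / (p : ℝ) else 0) *
      Real.log p := by
    have h5 : ∑ n ∈ u.filter (fun n => ¬ n ≤ K), f n = ∑ n ∈ F, f n := by
      rw [hF, Finset.sum_filter (fun n : ℕ => n.Prime)]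
      refine Finset.sum_congr rfl fun n hn => ?_
      by_cases hp : n.Prime
      · rw [if_pos hp]
      · rw [if_neg hp, hf, Set.indicator_of_notMem (by exact hp)]
    rw [h5]
    refine Finset.sum_le_sum fun n hn => ?_
    obtain ⟨hp, hKn⟩ := hFm n hn
    rw [if_pos (hmem n (by omega) hp (hFM n hn)), hf, Set.indicator_of_mem (by exact hp)]
    have hn3 : (3 : ℝ) ≤ n := by
      have : 3 ≤ n := by omega
      exact_mod_cast this
    have hlog : 1 ≤ Real.log n := by
      rw [Real.le_log_iff_exp_le (by linarith)]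
      have := Real.exp_one_lt_d9
      linarith
    have h6 : 0 ≤ 1 / ((n : ℝ) * (n - 1)) :=
      div_nonneg zero_le_one (mul_nonneg (by linarith) (by linarith))
    have h7 : (0 : ℝ) < 1 / (n : ℝ) := by positivity
    calc (1 : ℝ) / n ≤ 1 / ((n : ℝ) * (n - 1)) + 1 / (n : ℝ) := by linarith
      _ = (1 / ((n : ℝ) * (n - 1)) + 1 / (n : ℝ)) * 1 := (mul_one _).symm
      _ ≤ (1 / ((n : ℝ) * (n - 1)) + 1 / (n : ℝ)) * Real.log n :=
          mul_le_mul_of_nonneg_left hlog (by linarith)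
  have h4 := hS F (fun p hp => ⟨(hFm p hp).1, hFT p hp⟩)
  have h8 : 0 ≤ ∑ p ∈ T, κ p * Real.log p := by
    refine Finset.sum_nonneg fun p hp => ?_
    obtain ⟨hpp, hκ⟩ := hT p hp
    have hp1 : (1 : ℝ) ≤ p := by exact_mod_cast hpp.one_lt.le
    exact mul_nonneg hκ (Real.log_nonneg hp1)
  have h9 : 0 ≤ ∑ n ∈ u.filter (fun n => ¬ n ≤ K), f n := Finset.sum_nonneg fun n _ => hf0 n
  have h10 : (1 : ℝ) ≤ (s : ℝ) := by exact_mod_cast hs
  have h11 : ∑ p ∈ F, (1 / ((p : ℝ) * (p - 1)) + if p ∈ S then 1 / (p : ℝ) else 0) *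
      Real.log p ≤ (s : ℝ) *
      ∑ p ∈ F, (1 / ((p : ℝ) * (p - 1)) + if p ∈ S then 1 / (p : ℝ) else 0) * Real.log p :=
    le_mul_of_one_le_left (h9.trans h3) h10
  have h12 : ∑ p ∈ F, (1 / ((p : ℝ) * (p - 1)) + if p ∈ S then 1 / (p : ℝ) else 0) *
      Real.log p ≤ L := by
    refine h11.trans ?_
    convert (le_add_of_nonneg_left h8).trans h4
  linarith

end Pool.Agent.Work.MP_5e5ff1_ag.TH
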