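import Mathlib
import Pool.Agent.Work.MP_5e5ff1_ag.TH.StmtsA

set_option autoImplicit false

/-!
# MP_5e5ff1_ag, block TH, item ITR2: the iterates of the connection at infinity

Adapted from `TG/I_ITR.lean` (helper35).
-/

open Matrix Filter Topology
open scoped Polynomial

namespace Pool.Agent.Work.MP_5e5ff1_ag.TH

namespace IITR2

section

variable {R : Type} [CommRing R] {ι : Type}

/-- the power series of a component -/
noncomputable def Z (g : ℕ → ι → R) (i : ι) : PowerSeries R := PowerSeries.mk (fun n => g n i)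

theorem coeff_Z (g : ℕ → ι → R) (i : ι) (n : ℕ) : PowerSeries.coeff n (Z g i) = g n i :=
  PowerSeries.coeff_mk _ _

theorem sumS (a : ℕ → R) :
    (1 - (PowerSeries.X : PowerSeries R)) *
      PowerSeries.mk (fun n => ∑ k ∈ Finset.range (n + 1), a k) = PowerSeries.mk a := by
  ext n
  rw [sub_mul, one_mul, map_sub]
  cases n with
  | zero =>
    rw [PowerSeries.coeff_zero_X_mul, PowerSeries.coeff_mk, PowerSeries.coeff_mk,
      Finset.sum_range_succ, Finset.range_zero, Finset.sum_empty]
    ring
  | succ n =>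
    rw [PowerSeries.coeff_succ_X_mul, PowerSeries.coeff_mk, PowerSeries.coeff_mk,
      PowerSeries.coeff_mk, Finset.sum_range_succ]
    ring

theorem euler (f : PowerSeries R) (n : ℕ) :
    PowerSeries.coeff n (PowerSeries.X * PowerSeries.derivative R f) =
      (n : R) * PowerSeries.coeff n f := by
  cases n with
  | zero => rw [PowerSeries.coeff_zero_X_mul, Nat.cast_zero, zero_mul]
  | succ n =>
    rw [PowerSeries.coeff_succ_X_mul, PowerSeries.coeff_derivative, Nat.cast_succ]
    ring

theorem dpow (k : ℕ) :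
    (1 - (PowerSeries.X : PowerSeries R)) *
      PowerSeries.derivative R ((1 - (PowerSeries.X : PowerSeries R)) ^ k) =
      -((k : PowerSeries R) * (1 - (PowerSeries.X : PowerSeries R)) ^ k) := by
  induction k with
  | zero =>
    rw [pow_zero, PowerSeries.derivative_one, mul_zero, Nat.cast_zero, zero_mul, neg_zero]
  | succ k ih =>
    have h1 : PowerSeries.derivative R (1 - (PowerSeries.X : PowerSeries R)) = -1 := by
      rw [map_sub, PowerSeries.derivative_one, PowerSeries.derivative_X, zero_sub]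
    rw [pow_succ, Derivation.leibniz, h1, smul_eq_mul, smul_eq_mul, Nat.cast_succ]
    linear_combination (1 - (PowerSeries.X : PowerSeries R)) * ih

end

section

variable {R : Type} [CommRing R] {ι : Type} [Fintype ι] [DecidableEq ι]

/-- the recursion -/
noncomputable def T (M : ℕ) (β : ι → ℤ) (C : Matrix ι ι R) (k : ℕ) (W : ι → PowerSeries R)
    (i : ι) : PowerSeries R :=
  PowerSeries.C (M : R) * (PowerSeries.X * (1 - PowerSeries.X)) *
      PowerSeries.derivative R (W i) +
    (k : PowerSeries R) * PowerSeries.C (M : R) * W i +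
    ((1 - PowerSeries.X) * PowerSeries.C (((β i : ℤ) : R)) * W i +
      ∑ j, PowerSeries.C (C i j) * W j)

theorem DA_apply (M : ℕ) (β : ι → ℤ) (C : Matrix ι ι R) (g : ℕ → ι → R) (n : ℕ) (i : ι) :
    DA M (A2 β C) g n i = (M : R) * (n : R) * g n i + ((β i : ℤ) : R) * g n i +
      ∑ k ∈ Finset.range (n + 1), (C *ᵥ g k) i := by
  change (M : R) * (n : R) * g n i +
    ∑ k ∈ Finset.range (n + 1), (A2 β C (n - k) *ᵥ g k) i = _
  rw [Finset.sum_range_succ, Finset.sum_range_succ, Nat.sub_self]
  have h1 : ∀ k ∈ Finset.range n, (A2 β C (n - k) *ᵥ g k) i = (C *ᵥ g k) i := by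
    intro k hk
    have := Finset.mem_range.1 hk
    unfold A2
    rw [if_neg (by omega)]
  rw [Finset.sum_congr rfl h1]
  have h2 : A2 β C 0 = db R β + C := if_pos rfl
  rw [h2, Matrix.add_mulVec, Pi.add_apply]
  have h3 : (db R β *ᵥ g n) i = ((β i : ℤ) : R) * g n i := by
    unfold db
    rw [Matrix.mulVec_diagonal]
  rw [h3]
  ring

theorem D_Z' (M : ℕ) (β : ι → ℤ) (C : Matrix ι ι R) (g : ℕ → ι → R) (i : ι) :
    Z (DA M (A2 β C) g) i =
      PowerSeries.C (M : R) * (PowerSeries.X * PowerSeries.derivative R (Z g i)) +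
      PowerSeries.C (((β i : ℤ) : R)) * Z g i +
      PowerSeries.mk (fun n => ∑ k ∈ Finset.range (n + 1), (C *ᵥ g k) i) := by
  ext n
  rw [coeff_Z, map_add, map_add, PowerSeries.coeff_C_mul, PowerSeries.coeff_C_mul, euler,
    coeff_Z, PowerSeries.coeff_mk, DA_apply]
  ring

omit [DecidableEq ι] in
theorem mk_mulVec (C : Matrix ι ι R) (g : ℕ → ι → R) (i : ι) :
    PowerSeries.mk (fun n => (C *ᵥ g n) i) = ∑ j, PowerSeries.C (C i j) * Z g j := by
  ext n
  rw [PowerSeries.coeff_mk, map_sum]
  change ∑ j, C i j * g n j = _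
  apply Finset.sum_congr rfl
  intro j _
  rw [PowerSeries.coeff_C_mul, coeff_Z]

theorem D_Z (M : ℕ) (β : ι → ℤ) (C : Matrix ι ι R) (g : ℕ → ι → R) (i : ι) :
    (1 - (PowerSeries.X : PowerSeries R)) * Z (DA M (A2 β C) g) i =
      PowerSeries.C (M : R) * (PowerSeries.X * (1 - PowerSeries.X)) *
        PowerSeries.derivative R (Z g i) +
      ((1 - PowerSeries.X) * PowerSeries.C (((β i : ℤ) : R)) * Z g i +
        ∑ j, PowerSeries.C (C i j) * Z g j) := by
  have h1 := sumS (fun n => (C *ᵥ g n) i)
  rw [mk_mulVec] at h1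
  rw [D_Z']
  linear_combination h1

/-- the iterates -/
noncomputable def P (M : ℕ) (β : ι → ℤ) (C : Matrix ι ι R) (v : ι → R) (k : ℕ) : ℕ → ι → R :=
  Polynomial.aeval (DA M (A2 β C)) (∏ a ∈ Finset.range k,
    (Polynomial.X + Polynomial.C ((M : R) * (a : R)))) (cst v)

theorem P_succ (M : ℕ) (β : ι → ℤ) (C : Matrix ι ι R) (v : ι → R) (k : ℕ) :
    P M β C v (k + 1) = DA M (A2 β C) (P M β C v k) + ((M : R) * (k : R)) • P M β C v k := by
  unfold P
  rw [Finset.prod_range_succ, mul_comm, map_mul, Module.End.mul_apply, map_add,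
    Polynomial.aeval_X, Polynomial.aeval_C, LinearMap.add_apply, Module.algebraMap_end_apply]

theorem Z_P_succ (M : ℕ) (β : ι → ℤ) (C : Matrix ι ι R) (v : ι → R) (k : ℕ) (i : ι) :
    Z (P M β C v (k + 1)) i = Z (DA M (A2 β C) (P M β C v k)) i +
      (k : PowerSeries R) * PowerSeries.C (M : R) * Z (P M β C v k) i := by
  have h1 : (k : PowerSeries R) * PowerSeries.C (M : R) = PowerSeries.C ((M : R) * (k : R)) := by
    rw [map_mul, map_natCast, map_natCast]
    ring
  ext n
  rw [h1, map_add, PowerSeries.coeff_C_mul, coeff_Z, coeff_Z, coeff_Z, P_succ]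
  rfl

theorem W_succ (M : ℕ) (β : ι → ℤ) (C : Matrix ι ι R) (v : ι → R) (k : ℕ) (i : ι) :
    (1 - (PowerSeries.X : PowerSeries R)) ^ (k + 1) * Z (P M β C v (k + 1)) i =
      T M β C k (fun i => (1 - (PowerSeries.X : PowerSeries R)) ^ k * Z (P M β C v k) i) i := by
  have h1 := D_Z M β C (P M β C v k) i
  have h2 := dpow (R := R) k
  have h3 : ∑ j, PowerSeries.C (C i j) *
      ((1 - (PowerSeries.X : PowerSeries R)) ^ k * Z (P M β C v k) j) =
      (1 - (PowerSeries.X : PowerSeries R)) ^ k *
        ∑ j, PowerSeries.C (C i j) * Z (P M β C v k) j := by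
    rw [Finset.mul_sum]
    apply Finset.sum_congr rfl
    intro j _
    ring
  unfold T
  simp only [h3]
  rw [Z_P_succ, Derivation.leibniz, smul_eq_mul, smul_eq_mul]
  linear_combination (1 - (PowerSeries.X : PowerSeries R)) ^ k * h1 -
    PowerSeries.C (M : R) * PowerSeries.X * Z (P M β C v k) i * h2

theorem Qr_succ (M : ℕ) (β : ι → ℤ) (C : Matrix ι ι R) (k : ℕ) (i j : ι) :
    Qr M (db R β) C (k + 1) i j =
      -((Polynomial.C (M : R) * ((Polynomial.X : R[X]) * (1 - Polynomial.X))) *
        Polynomial.derivative (Qr M (db R β) C k i j)) -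
      ((k : R[X]) * Polynomial.C (M : R)) * Qr M (db R β) C k i j -
      ((1 - Polynomial.X) * Polynomial.C (((β i : ℤ) : R)) * Qr M (db R β) C k i j +
        ∑ l, Polynomial.C (C i l) * Qr M (db R β) C k l j) := by
  rw [Qr]
  simp only [Matrix.sub_apply, Matrix.neg_apply, Matrix.smul_apply, Matrix.map_apply,
    Matrix.mul_apply, Matrix.add_apply, smul_eq_mul]
  have h1 : ∑ l, ((1 - Polynomial.X : R[X]) * Polynomial.C (db R β i l) +
      Polynomial.C (C i l)) * Qr M (db R β) C k l j =
      (1 - Polynomial.X) * Polynomial.C (((β i : ℤ) : R)) * Qr M (db R β) C k i j +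
        ∑ l, Polynomial.C (C i l) * Qr M (db R β) C k l j := by
    have h2 : ∀ l, ((1 - Polynomial.X : R[X]) * Polynomial.C (db R β i l) +
        Polynomial.C (C i l)) * Qr M (db R β) C k l j =
        (1 - Polynomial.X) * Polynomial.C (db R β i l) * Qr M (db R β) C k l j +
        Polynomial.C (C i l) * Qr M (db R β) C k l j := by
      intro l
      ring
    simp only [h2]
    rw [Finset.sum_add_distrib]
    congr 1
    rw [Finset.sum_eq_single i]
    · unfold db
      rw [Matrix.diagonal_apply_eq]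
    · intro l _ hl
      unfold db
      rw [Matrix.diagonal_apply_ne _ (Ne.symm hl), map_zero, mul_zero, zero_mul]
    · intro h
      exact absurd (Finset.mem_univ i) h
  rw [h1]

/-- the right side -/
noncomputable def V (M : ℕ) (β : ι → ℤ) (C : Matrix ι ι R) (v : ι → R) (k : ℕ) (i : ι) :
    PowerSeries R :=
  (-1) ^ k * ∑ j, ((Qr M (db R β) C k i j : R[X]) : PowerSeries R) * PowerSeries.C (v j)

theorem Q_coe (M : ℕ) (β : ι → ℤ) (C : Matrix ι ι R) (k : ℕ) (i j : ι) :
    ((Qr M (db R β) C (k + 1) i j : R[X]) : PowerSeries R) =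
      -(PowerSeries.C (M : R) * (PowerSeries.X * (1 - PowerSeries.X)) *
        PowerSeries.derivative R ((Qr M (db R β) C k i j : R[X]) : PowerSeries R)) -
      (k : PowerSeries R) * PowerSeries.C (M : R) *
        ((Qr M (db R β) C k i j : R[X]) : PowerSeries R) -
      ((1 - PowerSeries.X) * PowerSeries.C (((β i : ℤ) : R)) *
          ((Qr M (db R β) C k i j : R[X]) : PowerSeries R) +
        ∑ l, PowerSeries.C (C i l) *
          ((Qr M (db R β) C k l j : R[X]) : PowerSeries R)) := by
  rw [Qr_succ, PowerSeries.derivative_coe]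
  have h := fun p : R[X] => (Polynomial.coeToPowerSeries.ringHom_apply (R := R) (φ := p)).symm
  simp only [h, map_sub, map_add, map_neg, map_mul, map_sum, map_natCast, map_one]
  simp only [Polynomial.coeToPowerSeries.ringHom_apply, Polynomial.coe_C, Polynomial.coe_X]

theorem V_succ (M : ℕ) (β : ι → ℤ) (C : Matrix ι ι R) (v : ι → R) (k : ℕ) (i : ι) :
    V M β C v (k + 1) i = T M β C k (V M β C v k) i := by
  unfold T V
  have hc : PowerSeries.derivative R ((-1 : PowerSeries R) ^ k) = 0 := by
    have e : ((-1 : PowerSeries R) ^ k) = PowerSeries.C ((-1 : R) ^ k) := by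
      rw [map_pow, map_neg, map_one]
    rw [e, PowerSeries.derivative_C]
  have hd : PowerSeries.derivative R
      ((-1 : PowerSeries R) ^ k *
        ∑ j, ((Qr M (db R β) C k i j : R[X]) : PowerSeries R) * PowerSeries.C (v j)) =
      (-1 : PowerSeries R) ^ k *
      ∑ j, PowerSeries.derivative R ((Qr M (db R β) C k i j : R[X]) : PowerSeries R) *
        PowerSeries.C (v j) := by
    rw [Derivation.leibniz, hc, smul_zero, add_zero, smul_eq_mul, map_sum]
    congr 1
    apply Finset.sum_congr rfl
    intro j _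
    rw [Derivation.leibniz, PowerSeries.derivative_C, smul_zero, zero_add, smul_eq_mul, mul_comm]
  have hs : ∑ l, PowerSeries.C (C i l) * ((-1 : PowerSeries R) ^ k *
      ∑ j, ((Qr M (db R β) C k l j : R[X]) : PowerSeries R) * PowerSeries.C (v j)) =
      (-1 : PowerSeries R) ^ k *
      ∑ j, (∑ l, PowerSeries.C (C i l) * ((Qr M (db R β) C k l j : R[X]) : PowerSeries R)) *
        PowerSeries.C (v j) := by
    simp only [Finset.mul_sum, Finset.sum_mul]
    rw [Finset.sum_comm]
    apply Finset.sum_congr rfl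
    intro j _
    apply Finset.sum_congr rfl
    intro l _
    ring
  rw [hd, hs]
  have hq : ∑ j, ((Qr M (db R β) C (k + 1) i j : R[X]) : PowerSeries R) * PowerSeries.C (v j) =
      -(PowerSeries.C (M : R) * (PowerSeries.X * (1 - PowerSeries.X)) *
        ∑ j, PowerSeries.derivative R ((Qr M (db R β) C k i j : R[X]) : PowerSeries R) *
          PowerSeries.C (v j)) -
      (k : PowerSeries R) * PowerSeries.C (M : R) *
        ∑ j, ((Qr M (db R β) C k i j : R[X]) : PowerSeries R) * PowerSeries.C (v j) -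
      ((1 - PowerSeries.X) * PowerSeries.C (((β i : ℤ) : R)) *
          ∑ j, ((Qr M (db R β) C k i j : R[X]) : PowerSeries R) * PowerSeries.C (v j) +
        ∑ j, (∑ l, PowerSeries.C (C i l) *
          ((Qr M (db R β) C k l j : R[X]) : PowerSeries R)) * PowerSeries.C (v j)) := by
    rw [Finset.mul_sum, Finset.mul_sum, Finset.mul_sum, ← Finset.sum_neg_distrib,
      ← Finset.sum_add_distrib, ← Finset.sum_sub_distrib, ← Finset.sum_sub_distrib]
    apply Finset.sum_congr rfl
    intro j _
    rw [Q_coe]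
    ring
  rw [hq, pow_succ]
  ring

theorem main (M : ℕ) (β : ι → ℤ) (C : Matrix ι ι R) (v : ι → R) (k : ℕ) (i : ι) :
    (1 - (PowerSeries.X : PowerSeries R)) ^ k * Z (P M β C v k) i = V M β C v k i := by
  induction k generalizing i with
  | zero =>
    unfold V P
    rw [pow_zero, one_mul, pow_zero, one_mul, Finset.range_zero, Finset.prod_empty, map_one]
    have h1 : ∀ j, ((Qr M (db R β) C 0 i j : R[X]) : PowerSeries R) * PowerSeries.C (v j) =
        if i = j then PowerSeries.C (v j) else 0 := by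
      intro j
      rw [Qr, Matrix.one_apply]
      split_ifs
      · rw [Polynomial.coe_one, one_mul]
      · rw [Polynomial.coe_zero, zero_mul]
    simp only [h1]
    rw [Finset.sum_ite_eq Finset.univ i, if_pos (Finset.mem_univ i)]
    ext n
    rw [coeff_Z, PowerSeries.coeff_C]
    rfl
  | succ k ih =>
    rw [W_succ, V_succ]
    congr 1
    funext j
    exact ih j

end

end IITR2

theorem pr_ITR2 : StITR2 := by
  intro R _ ι _ _ M β C v k i
  exact IITR2.main M β C v k i

end Pool.Agent.Work.MP_5e5ff1_ag.TH
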