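import Mathlib
import Pool.Agent.Work.MP_5e5ff1_ag.TH.StmtsX

set_option autoImplicit false

/-!
# MP_5e5ff1_ag, block TH, item ITRG (helper6, after I_ITR0): the iterates of the connection at 0
for a general residue
-/

open Matrix Filter Topology
open scoped Polynomial

namespace Pool.Agent.Work.MP_5e5ff1_ag.TH

namespace IITRG

section

variable {R : Type} [CommRing R] {ι : Type}

/-- the power series of a component -/
noncomputable def Z (g : ℕ → ι → R) (i : ι) : PowerSeries R := PowerSeries.mk (fun n => g n i)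

theorem coeff_Z (g : ℕ → ι → R) (i : ι) (n : ℕ) : PowerSeries.coeff n (Z g i) = g n i :=
  PowerSeries.coeff_mk _ _

theorem sumS (a : ℕ → R) :
    ((PowerSeries.X : PowerSeries R) - 1) * PowerSeries.mk (fun n => ∑ k ∈ Finset.range n, a k) =
      -(PowerSeries.X * PowerSeries.mk a) := by
  ext n
  rw [sub_mul, one_mul, map_sub, map_neg]
  cases n with
  | zero =>
    rw [PowerSeries.coeff_zero_X_mul, PowerSeries.coeff_zero_X_mul, PowerSeries.coeff_mk,
      Finset.range_zero, Finset.sum_empty]
    ring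
  | succ n =>
    rw [PowerSeries.coeff_succ_X_mul, PowerSeries.coeff_succ_X_mul, PowerSeries.coeff_mk,
      PowerSeries.coeff_mk, PowerSeries.coeff_mk, Finset.sum_range_succ]
    ring

theorem euler (f : PowerSeries R) (n : ℕ) :
    PowerSeries.coeff n (PowerSeries.X * PowerSeries.derivative R f) =
      (n : R) * PowerSeries.coeff n f := by
  cases n with
  | zero => rw [PowerSeries.coeff_zero_X_mul, Nat.cast_zero, zero_mul]
  | succ n =>
    rw [PowerSeries.coeff_succ_X_mul, PowerSeries.coeff_derivative, Nat.cast_succ]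
    ring

theorem dpow (k : ℕ) :
    ((PowerSeries.X : PowerSeries R) - 1) *
      PowerSeries.derivative R (((PowerSeries.X : PowerSeries R) - 1) ^ k) =
      (k : PowerSeries R) * ((PowerSeries.X : PowerSeries R) - 1) ^ k := by
  induction k with
  | zero =>
    rw [pow_zero, PowerSeries.derivative_one, mul_zero, Nat.cast_zero, zero_mul]
  | succ k ih =>
    have h1 : PowerSeries.derivative R ((PowerSeries.X : PowerSeries R) - 1) = 1 := by
      rw [map_sub, PowerSeries.derivative_one, PowerSeries.derivative_X, sub_zero]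
    rw [pow_succ, Derivation.leibniz, h1, smul_eq_mul, smul_eq_mul, Nat.cast_succ]
    linear_combination ((PowerSeries.X : PowerSeries R) - 1) * ih

end

section

variable {R : Type} [CommRing R] {ι : Type} [Fintype ι] [DecidableEq ι]

/-- the recursion -/
noncomputable def T (M : ℕ) (B C : Matrix ι ι R) (k : ℕ) (W : ι → PowerSeries R) (i : ι) :
    PowerSeries R :=
  PowerSeries.C (M : R) * (PowerSeries.X * (PowerSeries.X - 1)) *
      PowerSeries.derivative R (W i) -
    (k : PowerSeries R) * PowerSeries.C (M : R) * (2 * PowerSeries.X - 1) * W i -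
    ((PowerSeries.X - 1) * ∑ j, PowerSeries.C (B i j) * W j +
      PowerSeries.X * ∑ j, PowerSeries.C (C i j) * W j)

theorem mk_mulVec (C : Matrix ι ι R) (g : ℕ → ι → R) (i : ι) :
    PowerSeries.mk (fun n => (C *ᵥ g n) i) = ∑ j, PowerSeries.C (C i j) * Z g j := by
  ext n
  rw [PowerSeries.coeff_mk, map_sum]
  change ∑ j, C i j * g n j = _
  apply Finset.sum_congr rfl
  intro j _
  rw [PowerSeries.coeff_C_mul, coeff_Z]

theorem DA_Z' (M : ℕ) (B C : Matrix ι ι R) (g : ℕ → ι → R) (i : ι) :
    Z (DA M (A0g B C) g) i =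
      PowerSeries.C (M : R) * (PowerSeries.X * PowerSeries.derivative R (Z g i)) -
      PowerSeries.mk (fun n => (B *ᵥ g n) i) +
      PowerSeries.mk (fun n => ∑ k ∈ Finset.range n, (C *ᵥ g k) i) := by
  ext n
  rw [coeff_Z, map_add, map_sub, PowerSeries.coeff_C_mul, euler,
    coeff_Z, PowerSeries.coeff_mk, PowerSeries.coeff_mk]
  change (M : R) * (n : R) * g n i +
    ∑ k ∈ Finset.range (n + 1), ((A0g B C (n - k)) *ᵥ g k) i = _
  have h1 : ∑ k ∈ Finset.range n, ((A0g B C (n - k)) *ᵥ g k) i =
      ∑ k ∈ Finset.range n, (C *ᵥ g k) i := by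
    apply Finset.sum_congr rfl
    intro k hk
    rw [Finset.mem_range] at hk
    unfold A0g
    rw [if_neg (by omega)]
  have h2 : ((A0g B C (n - n)) *ᵥ g n) i = -((B *ᵥ g n) i) := by
    unfold A0g
    rw [if_pos (by omega), Matrix.neg_mulVec, Pi.neg_apply]
  rw [Finset.sum_range_succ, h1, h2]
  ring

theorem DA_Z (M : ℕ) (B C : Matrix ι ι R) (g : ℕ → ι → R) (i : ι) :
    ((PowerSeries.X : PowerSeries R) - 1) * Z (DA M (A0g B C) g) i =
      PowerSeries.C (M : R) * (PowerSeries.X * (PowerSeries.X - 1)) *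
        PowerSeries.derivative R (Z g i) -
      ((PowerSeries.X - 1) * ∑ j, PowerSeries.C (B i j) * Z g j +
      PowerSeries.X * ∑ j, PowerSeries.C (C i j) * Z g j) := by
  have h1 := sumS (fun n => (C *ᵥ g n) i)
  rw [mk_mulVec] at h1
  rw [DA_Z', mk_mulVec]
  linear_combination h1

/-- the iterates -/
noncomputable def P (M : ℕ) (B C : Matrix ι ι R) (v : ι → R) (k : ℕ) : ℕ → ι → R :=
  Polynomial.aeval (DA M (A0g B C)) (∏ a ∈ Finset.range k,
    (Polynomial.X - Polynomial.C ((M : R) * (a : R)))) (cst v)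

theorem P_succ (M : ℕ) (B C : Matrix ι ι R) (v : ι → R) (k : ℕ) :
    P M B C v (k + 1) = DA M (A0g B C) (P M B C v k) - ((M : R) * (k : R)) • P M B C v k := by
  unfold P
  rw [Finset.prod_range_succ, mul_comm, map_mul, Module.End.mul_apply, map_sub,
    Polynomial.aeval_X, Polynomial.aeval_C, LinearMap.sub_apply, Module.algebraMap_end_apply]

theorem Z_P_succ (M : ℕ) (B C : Matrix ι ι R) (v : ι → R) (k : ℕ) (i : ι) :
    Z (P M B C v (k + 1)) i = Z (DA M (A0g B C) (P M B C v k)) i -
      (k : PowerSeries R) * PowerSeries.C (M : R) * Z (P M B C v k) i := by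
  have h1 : (k : PowerSeries R) * PowerSeries.C (M : R) = PowerSeries.C ((M : R) * (k : R)) := by
    rw [map_mul, map_natCast, map_natCast]
    ring
  ext n
  rw [h1, map_sub, PowerSeries.coeff_C_mul, coeff_Z, coeff_Z, coeff_Z, P_succ]
  rfl

theorem sum_pull (C : Matrix ι ι R) (a : PowerSeries R) (f : ι → PowerSeries R) (i : ι) :
    ∑ j, PowerSeries.C (C i j) * (a * f j) = a * ∑ j, PowerSeries.C (C i j) * f j := by
  rw [Finset.mul_sum]
  apply Finset.sum_congr rfl
  intro j _
  ring

theorem W_succ (M : ℕ) (B C : Matrix ι ι R) (v : ι → R) (k : ℕ) (i : ι) :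
    ((PowerSeries.X : PowerSeries R) - 1) ^ (k + 1) * Z (P M B C v (k + 1)) i =
      T M B C k (fun i => ((PowerSeries.X : PowerSeries R) - 1) ^ k * Z (P M B C v k) i) i := by
  have h1 := DA_Z M B C (P M B C v k) i
  have h2 := dpow (R := R) k
  unfold T
  simp only [sum_pull]
  rw [Z_P_succ, Derivation.leibniz, smul_eq_mul, smul_eq_mul]
  linear_combination ((PowerSeries.X : PowerSeries R) - 1) ^ k * h1 -
    PowerSeries.C (M : R) * PowerSeries.X * Z (P M B C v k) i * h2

theorem Qi_succ (M : ℕ) (B C : Matrix ι ι R) (k : ℕ) (i j : ι) :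
    Qm M B C (k + 1) i j =
      (Polynomial.C (M : R) * ((Polynomial.X : R[X]) * (Polynomial.X - 1))) *
        Polynomial.derivative (Qm M B C k i j) -
      ((k : R[X]) * Polynomial.C (M : R) * (2 * (Polynomial.X : R[X]) - 1)) *
        Qm M B C k i j -
      ((Polynomial.X - 1) * ∑ l, Polynomial.C (B i l) * Qm M B C k l j +
        Polynomial.X * ∑ l, Polynomial.C (C i l) * Qm M B C k l j) := by
  rw [Qm]
  simp only [Matrix.sub_apply, Matrix.smul_apply, Matrix.map_apply, Matrix.mul_apply,
    Matrix.add_apply, smul_eq_mul]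
  have h1 : ∑ l, ((Polynomial.X - 1 : R[X]) * Polynomial.C (B i l) +
      Polynomial.X * Polynomial.C (C i l)) * Qm M B C k l j =
      (Polynomial.X - 1) * ∑ l, Polynomial.C (B i l) * Qm M B C k l j +
        Polynomial.X * ∑ l, Polynomial.C (C i l) * Qm M B C k l j := by
    rw [Finset.mul_sum, Finset.mul_sum, ← Finset.sum_add_distrib]
    apply Finset.sum_congr rfl
    intro l _
    ring
  rw [h1]

/-- the right side -/
noncomputable def V (M : ℕ) (B C : Matrix ι ι R) (v : ι → R) (k : ℕ) (i : ι) :
    PowerSeries R :=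
  ∑ j, ((Qm M B C k i j : R[X]) : PowerSeries R) * PowerSeries.C (v j)

theorem Q_coe (M : ℕ) (B C : Matrix ι ι R) (k : ℕ) (i j : ι) :
    ((Qm M B C (k + 1) i j : R[X]) : PowerSeries R) =
      PowerSeries.C (M : R) * (PowerSeries.X * (PowerSeries.X - 1)) *
        PowerSeries.derivative R ((Qm M B C k i j : R[X]) : PowerSeries R) -
      (k : PowerSeries R) * PowerSeries.C (M : R) * (2 * PowerSeries.X - 1) *
        ((Qm M B C k i j : R[X]) : PowerSeries R) -
      ((PowerSeries.X - 1) * ∑ l, PowerSeries.C (B i l) *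
          ((Qm M B C k l j : R[X]) : PowerSeries R) +
        PowerSeries.X * ∑ l, PowerSeries.C (C i l) *
          ((Qm M B C k l j : R[X]) : PowerSeries R)) := by
  rw [Qi_succ, PowerSeries.derivative_coe]
  have h := fun p : R[X] => (Polynomial.coeToPowerSeries.ringHom_apply (R := R) (φ := p)).symm
  simp only [h, map_sub, map_add, map_mul, map_sum, map_natCast, map_one, map_ofNat]
  simp only [Polynomial.coeToPowerSeries.ringHom_apply, Polynomial.coe_C, Polynomial.coe_X]

theorem sum_swap (M : ℕ) (B C D : Matrix ι ι R) (v : ι → R) (k : ℕ) (i : ι) :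
    ∑ l, PowerSeries.C (D i l) *
      ∑ j, ((Qm M B C k l j : R[X]) : PowerSeries R) * PowerSeries.C (v j) =
      ∑ j, (∑ l, PowerSeries.C (D i l) * ((Qm M B C k l j : R[X]) : PowerSeries R)) *
        PowerSeries.C (v j) := by
  simp only [Finset.mul_sum, Finset.sum_mul]
  rw [Finset.sum_comm]
  apply Finset.sum_congr rfl
  intro j _
  apply Finset.sum_congr rfl
  intro l _
  ring

theorem V_succ (M : ℕ) (B C : Matrix ι ι R) (v : ι → R) (k : ℕ) (i : ι) :
    V M B C v (k + 1) i = T M B C k (V M B C v k) i := by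
  unfold T V
  have hd : PowerSeries.derivative R
      (∑ j, ((Qm M B C k i j : R[X]) : PowerSeries R) * PowerSeries.C (v j)) =
      ∑ j, PowerSeries.derivative R ((Qm M B C k i j : R[X]) : PowerSeries R) *
        PowerSeries.C (v j) := by
    rw [map_sum]
    apply Finset.sum_congr rfl
    intro j _
    rw [Derivation.leibniz, PowerSeries.derivative_C, smul_zero, zero_add, smul_eq_mul, mul_comm]
  rw [hd, sum_swap, sum_swap, Finset.mul_sum, Finset.mul_sum, Finset.mul_sum, Finset.mul_sum,
    ← Finset.sum_add_distrib, ← Finset.sum_sub_distrib, ← Finset.sum_sub_distrib]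
  apply Finset.sum_congr rfl
  intro j _
  rw [Q_coe]
  ring

theorem main (M : ℕ) (B C : Matrix ι ι R) (v : ι → R) (k : ℕ) (i : ι) :
    ((PowerSeries.X : PowerSeries R) - 1) ^ k * Z (P M B C v k) i = V M B C v k i := by
  induction k generalizing i with
  | zero =>
    rw [pow_zero, one_mul]
    unfold V P
    rw [Finset.range_zero, Finset.prod_empty, map_one]
    have h1 : ∀ j, ((Qm M B C 0 i j : R[X]) : PowerSeries R) * PowerSeries.C (v j) =
        if i = j then PowerSeries.C (v j) else 0 := by
      intro j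
      rw [Qm, Matrix.one_apply]
      split_ifs
      · rw [Polynomial.coe_one, one_mul]
      · rw [Polynomial.coe_zero, zero_mul]
    simp only [h1]
    rw [Finset.sum_ite_eq Finset.univ i, if_pos (Finset.mem_univ i)]
    ext n
    rw [coeff_Z, PowerSeries.coeff_C]
    rfl
  | succ k ih =>
    rw [W_succ, V_succ]
    congr 1
    funext j
    exact ih j

end

end IITRG

theorem pr_ITRG : StITRG := by
  intro R _ ι _ _ M B C v k i
  exact IITRG.main M B C v k i

end Pool.Agent.Work.MP_5e5ff1_ag.TH
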