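import Mathlib
import Pool.Agent.Work.MP_5e5ff1_ag.TG.StmtsA
import Pool.Agent.Work.MP_5e5ff1_ag.TH.StmtsY

set_option autoImplicit false

/-!
# MP_5e5ff1_ag, block TH, item KAP2: the constant (TG item KAP with a larger table)

The sum of `log p / (p (p - 1))` over the odd primes up to `840` is bounded by a computation with
natural numbers (`log p ≤ (m / 200) log 2` if `p ^ 200 < 2 ^ m`), the tail by partial summation and
Chebyshev's bound.
-/

open Finset

namespace Pool.Agent.Work.MP_5e5ff1_ag.TH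

/-- KAP2: the true value of the infinite sum is 0.408793 -/
def StKAP2 : Prop := ∀ x : ℕ, ∑ p ∈ TG.opr x, Real.log p / (p * (p - 1)) ≤ 4112 / 10000

namespace IKAP2

/-- no divisor between 2 and 24 except possibly `n` itself -/
def tst (n : ℕ) : Bool := (List.range 23).all fun d => (n ≤ d + 2 : Bool) || (n % (d + 2) != 0)

/-- upper bound of `10^9 log n / (log 2 n (n-1))` -/
def term (n : ℕ) : ℕ :=
  if tst n then (Nat.log2 (n ^ 200) + 1) * 10 ^ 9 / (200 * n * (n - 1)) + 1 else 0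

/-- the partial sums of `term` -/
def S : ℕ → ℕ
  | 0 => 0
  | n + 1 => S n + (if 3 ≤ n + 1 then term (n + 1) else 0)

theorem S_value : S 840 ≤ 588400000 := by decide +kernel

theorem tst_prime {n : ℕ} (hn : n.Prime) : tst n = true := by
  unfold tst
  rw [List.all_eq_true]
  intro d _
  rw [Bool.or_eq_true, decide_eq_true_eq]
  by_cases h : n ≤ d + 2
  · exact Or.inl h
  · right
    rw [bne_iff_ne]
    intro h0
    rcases (Nat.dvd_prime hn).1 (Nat.dvd_of_mod_eq_zero h0) with h1 | h1 <;> omega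

theorem term_le {n : ℕ} (hn : n.Prime) (h3 : 3 ≤ n) :
    Real.log n / (n * (n - 1)) ≤ Real.log 2 / 10 ^ 9 * term n := by
  have hterm : term n = (Nat.log2 (n ^ 200) + 1) * 10 ^ 9 / (200 * n * (n - 1)) + 1 := by
    unfold term
    rw [if_pos (tst_prime hn)]
  set m := Nat.log2 (n ^ 200) + 1 with hm
  have h1 : n ^ 200 < 2 ^ m := Nat.lt_log2_self
  have hn0 : (0 : ℝ) < n := by exact_mod_cast hn.pos
  have hn1 : (0 : ℝ) < (n : ℝ) - 1 := by
    have : (1 : ℝ) < n := by exact_mod_cast hn.one_lt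
    linarith
  have h2 : 200 * Real.log n ≤ m * Real.log 2 := by
    have h4 : ((n : ℝ)) ^ 200 ≤ 2 ^ m := by exact_mod_cast h1.le
    have h5 := Real.log_le_log (pow_pos hn0 _) h4
    rw [Real.log_pow, Real.log_pow] at h5
    exact_mod_cast h5
  have hD : 0 < 200 * n * (n - 1) := by
    have : 0 < n - 1 := by omega
    have := hn.pos
    positivity
  have h6 : m * 10 ^ 9 < (200 * n * (n - 1)) * (m * 10 ^ 9 / (200 * n * (n - 1)) + 1) :=
    Nat.lt_mul_div_succ _ hD
  rw [← hterm] at h6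
  have h7 : (m : ℝ) * 10 ^ 9 ≤ (200 * n * ((n : ℝ) - 1)) * term n := by
    have h8 : ((n - 1 : ℕ) : ℝ) = (n : ℝ) - 1 := by
      rw [Nat.cast_sub (by omega)]
      simp
    rw [← h8]
    exact_mod_cast h6.le
  have hlog : 0 < Real.log 2 := Real.log_pos (by norm_num)
  rw [div_le_iff₀ (mul_pos hn0 hn1)]
  have h9 : (m * 10 ^ 9) * Real.log 2 ≤ ((200 * n * ((n : ℝ) - 1)) * term n) * Real.log 2 :=
    mul_le_mul_of_nonneg_right h7 hlog.le
  have h10 : (200 * 10 ^ 9) * Real.log n ≤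
      ((200 * n * ((n : ℝ) - 1)) * term n) * Real.log 2 := by
    calc (200 * 10 ^ 9) * Real.log n = 10 ^ 9 * (200 * Real.log n) := by ring
      _ ≤ 10 ^ 9 * (m * Real.log 2) := by
        exact mul_le_mul_of_nonneg_left h2 (by norm_num)
      _ = (m * 10 ^ 9) * Real.log 2 := by ring
      _ ≤ _ := h9
  have h11 : Real.log 2 / 10 ^ 9 * term n * ((n : ℝ) * ((n : ℝ) - 1)) =
      (((200 * n * ((n : ℝ) - 1)) * term n) * Real.log 2) / (200 * 10 ^ 9) := by
    ring
  rw [h11, le_div_iff₀ (by norm_num)]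
  linarith

theorem sum_opr (f : ℕ → ℝ) (x : ℕ) : ∑ p ∈ TG.opr (x + 1), f p =
    ∑ p ∈ TG.opr x, f p + (if 3 ≤ x + 1 ∧ (x + 1).Prime then f (x + 1) else 0) := by
  by_cases h : 3 ≤ x + 1 ∧ (x + 1).Prime
  · rw [if_pos h]
    have h1 : TG.opr (x + 1) = insert (x + 1) (TG.opr x) := by
      ext a
      simp only [TG.opr, mem_filter, mem_Icc, mem_insert]
      constructor
      · rintro ⟨⟨h2, h3⟩, h4⟩
        by_cases h5 : a = x + 1
        · exact Or.inl h5
        · exact Or.inr ⟨⟨h2, by omega⟩, h4⟩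
      · rintro (rfl | ⟨⟨h2, h3⟩, h4⟩)
        · exact ⟨⟨h.1, le_rfl⟩, h.2⟩
        · exact ⟨⟨h2, by omega⟩, h4⟩
    have h2 : x + 1 ∉ TG.opr x := by
      simp only [TG.opr, mem_filter, mem_Icc]
      omega
    rw [h1, sum_insert h2, add_comm]
  · rw [if_neg h, add_zero]
    have h1 : TG.opr (x + 1) = TG.opr x := by
      ext a
      simp only [TG.opr, mem_filter, mem_Icc]
      constructor
      · rintro ⟨⟨h2, h3⟩, h4⟩
        refine ⟨⟨h2, ?_⟩, h4⟩
        by_contra h5
        have h6 : a = x + 1 := by omega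
        rw [h6] at h2 h4
        exact h ⟨h2, h4⟩
      · rintro ⟨⟨h2, h3⟩, h4⟩
        exact ⟨⟨h2, by omega⟩, h4⟩
    rw [h1]

theorem opr_zero : TG.opr 0 = ∅ := by
  unfold TG.opr
  simp

theorem head_le (x : ℕ) : ∑ p ∈ TG.opr x, Real.log p / (p * (p - 1)) ≤
    Real.log 2 / 10 ^ 9 * S x := by
  have hlog : 0 < Real.log 2 := Real.log_pos (by norm_num)
  induction x with
  | zero => rw [opr_zero]; simp [S]
  | succ x ih =>
    rw [sum_opr (fun p : ℕ => Real.log p / (p * (p - 1)))]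
    have h1 : ((S (x + 1) : ℕ) : ℝ) =
        (S x : ℝ) + ((if 3 ≤ x + 1 then term (x + 1) else 0 : ℕ) : ℝ) := by
      rw [← Nat.cast_add]
      rfl
    rw [h1, mul_add]
    refine add_le_add ih ?_
    by_cases h3 : 3 ≤ x + 1
    · rw [if_pos h3]
      by_cases hp : (x + 1).Prime
      · rw [if_pos ⟨h3, hp⟩]
        exact term_le hp h3
      · rw [if_neg (fun h => hp h.2)]
        positivity
    · rw [if_neg (fun h => h3 h.1), if_neg h3]
      simp

/-- partial summation -/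
theorem tail_le (h1 : TG.StCHB) {P x : ℕ} (hP : 0 < P) (hx : P ≤ x) :
    ∑ p ∈ TG.opr x, Real.log p / (p * (p - 1)) ≤ ∑ p ∈ TG.opr P, Real.log p / (p * (p - 1)) +
      (∑ p ∈ TG.opr x, Real.log p) / (((x : ℝ) + 1) * x) +
      Real.log 4 * (1 / (P : ℝ) + 1 / ((P : ℝ) + 1) - 1 / (x : ℝ) - 1 / ((x : ℝ) + 1)) := by
  induction x, hx using Nat.le_induction with
  | base =>
    have h2 : 0 ≤ (∑ p ∈ TG.opr P, Real.log p) / (((P : ℝ) + 1) * P) :=
      div_nonneg (sum_nonneg fun p _ => Real.log_natCast_nonneg p) (by positivity)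
    have h3 : Real.log 4 * (1 / (P : ℝ) + 1 / ((P : ℝ) + 1) - 1 / (P : ℝ) - 1 / ((P : ℝ) + 1)) =
        0 := by ring
    rw [h3]
    linarith
  | succ x hx ih =>
    have hx0 : (0 : ℝ) < x := by exact_mod_cast hP.trans_le hx
    have hth := h1 (x + 1)
    set a : ℝ := if 3 ≤ x + 1 ∧ (x + 1).Prime then Real.log ((x + 1 : ℕ) : ℝ) else 0 with ha
    have h4 : (if 3 ≤ x + 1 ∧ (x + 1).Prime then
        Real.log ((x + 1 : ℕ) : ℝ) / (((x + 1 : ℕ) : ℝ) * (((x + 1 : ℕ) : ℝ) - 1)) else 0) =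
        a / (((x : ℝ) + 1) * x) := by
      rw [ha]
      split_ifs
      · push_cast
        ring_nf
      · simp
    rw [sum_opr (fun p : ℕ => Real.log p / (p * (p - 1))), h4]
    rw [sum_opr (fun p : ℕ => Real.log p), ← ha] at hth ⊢
    set θ := ∑ p ∈ TG.opr x, Real.log p with hθ
    set T := ∑ p ∈ TG.opr x, Real.log p / (p * (p - 1)) with hT
    set T0 := ∑ p ∈ TG.opr P, Real.log p / (p * (p - 1)) with hT0
    push_cast at hth ⊢
    have h5 : (θ + a) * (2 / ((x : ℝ) * (x + 1) * (x + 2))) ≤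
        ((x : ℝ) + 1) * Real.log 4 * (2 / ((x : ℝ) * (x + 1) * (x + 2))) :=
      mul_le_mul_of_nonneg_right hth (by positivity)
    have h6 : ((x : ℝ) + 1) * Real.log 4 * (2 / ((x : ℝ) * (x + 1) * (x + 2))) =
        Real.log 4 * (1 / (x : ℝ) - 1 / ((x : ℝ) + 2)) := by
      field_simp
      ring
    have h7 : (θ + a) * (2 / ((x : ℝ) * (x + 1) * (x + 2))) =
        (θ + a) / (((x : ℝ) + 1) * x) - (θ + a) / (((x : ℝ) + 1 + 1) * ((x : ℝ) + 1)) := by
      field_simp
      ring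
    have h8 : (θ + a) / (((x : ℝ) + 1) * x) = θ / (((x : ℝ) + 1) * x) +
      a / (((x : ℝ) + 1) * x) := by rw [add_div]
    have h9 : (x : ℝ) + 1 + 1 = x + 2 := by ring
    rw [h7, h8, h6] at h5
    rw [h9] at h5 ⊢
    linarith

end IKAP2

open IKAP2

/-- Item KAP. -/
theorem pr_KAP2 (h1 : TG.StCHB) : StKAP2 := by
  intro x
  have hl2 : Real.log 2 < 0.6931471808 := Real.log_two_lt_d9
  have hlog : 0 < Real.log 2 := Real.log_pos (by norm_num)
  have hl4 : Real.log 4 = 2 * Real.log 2 := by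
    rw [show (4 : ℝ) = 2 ^ 2 by norm_num, Real.log_pow]
    norm_num
  have hS : (S 840 : ℝ) ≤ 588400000 := by exact_mod_cast S_value
  have hhead : ∑ p ∈ TG.opr 840, Real.log p / (p * (p - 1)) ≤
      Real.log 2 * (588400000 / 10 ^ 9) := by
    refine (head_le 840).trans ?_
    have h2 : Real.log 2 / 10 ^ 9 * (S 840 : ℝ) ≤ Real.log 2 / 10 ^ 9 * 588400000 :=
      mul_le_mul_of_nonneg_left hS (by positivity)
    refine h2.trans (le_of_eq ?_)
    ring
  by_cases hx : x ≤ 840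
  · have h3 : ∑ p ∈ TG.opr x, Real.log p / (p * (p - 1)) ≤
        ∑ p ∈ TG.opr 840, Real.log p / (p * (p - 1)) := by
      refine sum_le_sum_of_subset_of_nonneg (fun p hp => ?_) fun p hp _ => ?_
      · simp only [TG.opr, mem_filter, mem_Icc] at hp ⊢
        exact ⟨⟨hp.1.1, hp.1.2.trans hx⟩, hp.2⟩
      · simp only [TG.opr, mem_filter, mem_Icc] at hp
        have h4 : (1 : ℝ) ≤ p := by exact_mod_cast hp.2.one_lt.le
        exact div_nonneg (Real.log_natCast_nonneg p) (mul_nonneg (by linarith) (by linarith))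
    have h5 : Real.log 2 * (588400000 / 10 ^ 9) ≤ 4112 / 10000 := by
      norm_num
      linarith
    linarith
  · have hx' : 840 ≤ x := by omega
    have hx0 : (0 : ℝ) < x := by exact_mod_cast (show 0 < 840 by norm_num).trans_le hx'
    have h2 := tail_le h1 (show 0 < 840 by norm_num) hx'
    have h3 : (∑ p ∈ TG.opr x, Real.log p) / (((x : ℝ) + 1) * x) ≤
        Real.log 4 * (1 / ((x : ℝ) + 1)) := by
      rw [div_le_iff₀ (by positivity)]
      have h4 : Real.log 4 * (1 / ((x : ℝ) + 1)) * (((x : ℝ) + 1) * x) = x * Real.log 4 := by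
        field_simp
      rw [h4]
      exact h1 x
    have h4 : Real.log 4 * (1 / (((840 : ℕ) : ℝ)) + 1 / ((((840 : ℕ) : ℝ)) + 1) - 1 / (x : ℝ) -
        1 / ((x : ℝ) + 1)) = Real.log 4 * (1 / 840 + 1 / 841) - Real.log 4 * (1 / (x : ℝ)) -
        Real.log 4 * (1 / ((x : ℝ) + 1)) := by
      push_cast
      norm_num
      ring
    have h5 : 0 ≤ Real.log 4 * (1 / (x : ℝ)) := by
      rw [hl4]
      positivity
    rw [h4] at h2
    have h6 : Real.log 2 * (588400000 / 10 ^ 9) + Real.log 4 * (1 / 840 + 1 / 841) ≤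
        4112 / 10000 := by
      rw [hl4]
      norm_num
      linarith
    linarith

end Pool.Agent.Work.MP_5e5ff1_ag.TH
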