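import Mathlib
import Pool.Agent.Work.MP_5e5ff1_ag.TH.StmtsK

set_option autoImplicit false

/-!
# MP_5e5ff1_ag, block TH, item KDC (helper55): double counting of ideals
-/

open Matrix Filter Topology NumberField
open scoped Polynomial nonZeroDivisors

namespace Pool.Agent.Work.MP_5e5ff1_ag.TH

namespace IKDC

theorem fin (L : Type) [Field L] [NumberField L] (y : ℝ) :
    {I : Ideal (𝓞 L) | I ≠ ⊥ ∧ ((Ideal.absNorm I : ℕ) : ℝ) ≤ y}.Finite := by
  refine (Ideal.finite_setOfPred_absNorm_le (S := 𝓞 L) ⌊y⌋₊).subset ?_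
  rintro I ⟨-, hI⟩
  exact Nat.le_floor hI

/-- the nonzero ideals of norm at most `y` -/
noncomputable def X (L : Type) [Field L] [NumberField L] (y : ℝ) : Finset (Ideal (𝓞 L)) :=
  (fin L y).toFinset

theorem mem_X {L : Type} [Field L] [NumberField L] {y : ℝ} {I : Ideal (𝓞 L)} :
    I ∈ X L y ↔ I ≠ ⊥ ∧ ((Ideal.absNorm I : ℕ) : ℝ) ≤ y := by
  unfold X
  rw [Set.Finite.mem_toFinset]
  rfl

theorem cnt_eq (L : Type) [Field L] [NumberField L] (y : ℝ) : cnt L y = (X L y).card := by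
  unfold cnt
  rw [← Nat.card_eq_finsetCard (X L y)]
  exact Nat.card_congr
    { toFun := fun I => ⟨(I.1 : Ideal (𝓞 L)),
        mem_X.2 ⟨nonZeroDivisors.coe_ne_zero I.1, I.2⟩⟩
      invFun := fun I => ⟨⟨I.1, mem_nonZeroDivisors_of_ne_zero (mem_X.1 I.2).1⟩, (mem_X.1 I.2).2⟩
      left_inv := fun I => rfl
      right_inv := fun I => rfl }

end IKDC

open IKDC in
theorem pr_KDC : StKDC := by
  classical
  intro L _ _ T hT x hx
  have hx0 : 0 < x := by linarith
  have hNP : ∀ P ∈ T, 0 < Ideal.absNorm P := fun P hP =>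
    Nat.pos_of_ne_zero (by rw [Ne, Ideal.absNorm_eq_zero_iff]; exact (hT P hP).2)
  have h1 : ∀ P ∈ T, (cnt L (x / Ideal.absNorm P) : ℝ) ≤
      (((X L x).filter fun I => P ∣ I).card : ℝ) := by
    intro P hP
    rw [cnt_eq]
    have h2 : (X L (x / Ideal.absNorm P)).card ≤ ((X L x).filter fun I => P ∣ I).card := by
      refine Finset.card_le_card_of_injOn (fun I => P * I) ?_ ?_
      · intro I hI
        obtain ⟨h3, h4⟩ := mem_X.1 (Finset.mem_coe.1 hI)
        rw [Finset.mem_coe, Finset.mem_filter, mem_X]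
        refine ⟨⟨mul_ne_zero (hT P hP).2 h3, ?_⟩, dvd_mul_right P I⟩
        have h5 : (0 : ℝ) < (Ideal.absNorm P : ℕ) := by exact_mod_cast hNP P hP
        rw [le_div_iff₀ h5] at h4
        rw [map_mul]
        push_cast
        linarith
      · intro I _ J _ hIJ
        exact mul_left_cancel₀ (hT P hP).2 hIJ
    exact_mod_cast h2
  have h6 : ∀ I ∈ X L x, ∑ P ∈ T.filter (fun P => P ∣ I), Real.log (Ideal.absNorm P) ≤
      Real.log x := by
    intro I hI
    obtain ⟨h7, h8⟩ := mem_X.1 hI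
    have h9 : ∏ P ∈ T.filter (fun P => P ∣ I), P ∣ I := by
      refine Finset.prod_primes_dvd I (fun P hP => ?_) fun P hP => (Finset.mem_filter.1 hP).2
      obtain ⟨h10, h11⟩ := hT P (Finset.mem_filter.1 hP).1
      exact Ideal.prime_of_isPrime h11 h10
    have h12 : Ideal.absNorm (∏ P ∈ T.filter (fun P => P ∣ I), P) ≤ Ideal.absNorm I := by
      refine Nat.le_of_dvd (Nat.pos_of_ne_zero ?_) (map_dvd Ideal.absNorm h9)
      rw [Ne, Ideal.absNorm_eq_zero_iff]
      exact h7
    have h13 : ∀ P ∈ T.filter (fun P => P ∣ I), ((Ideal.absNorm P : ℕ) : ℝ) ≠ 0 := fun P hP => by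
      have := hNP P (Finset.mem_filter.1 hP).1
      positivity
    rw [← Real.log_prod h13]
    rw [map_prod] at h12
    have h14 : (∏ P ∈ T.filter (fun P => P ∣ I), ((Ideal.absNorm P : ℕ) : ℝ)) ≤
        ((Ideal.absNorm I : ℕ) : ℝ) := by exact_mod_cast h12
    have h15 : 0 < ∏ P ∈ T.filter (fun P => P ∣ I), ((Ideal.absNorm P : ℕ) : ℝ) :=
      Finset.prod_pos fun P hP => by
        have := hNP P (Finset.mem_filter.1 hP).1
        positivity
    exact Real.log_le_log h15 (h14.trans h8)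
  calc ∑ P ∈ T, Real.log (Ideal.absNorm P) * (cnt L (x / Ideal.absNorm P) : ℝ)
      ≤ ∑ P ∈ T, Real.log (Ideal.absNorm P) * (((X L x).filter fun I => P ∣ I).card : ℝ) :=
        Finset.sum_le_sum fun P hP =>
          mul_le_mul_of_nonneg_left (h1 P hP) (Real.log_natCast_nonneg _)
    _ = ∑ P ∈ T, ∑ I ∈ X L x, if P ∣ I then Real.log (Ideal.absNorm P) else 0 := by
        refine Finset.sum_congr rfl fun P _ => ?_
        rw [← Finset.sum_filter, Finset.sum_const, nsmul_eq_mul, mul_comm]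
    _ = ∑ I ∈ X L x, ∑ P ∈ T.filter (fun P => P ∣ I), Real.log (Ideal.absNorm P) := by
        rw [Finset.sum_comm]
        exact Finset.sum_congr rfl fun I _ => (Finset.sum_filter _ _).symm
    _ ≤ ∑ _I ∈ X L x, Real.log x := Finset.sum_le_sum h6
    _ = (cnt L x : ℝ) * Real.log x := by
        rw [Finset.sum_const, nsmul_eq_mul, cnt_eq]

end Pool.Agent.Work.MP_5e5ff1_ag.TH
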