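import Mathlib
import Pool.Agent.Work.MP_5e5ff1_ag.TH.StmtsK

set_option autoImplicit false

/-!
MP_5e5ff1_ag, block TH, item KDK: a root of `f` modulo `p` gives an ideal of norm `p`.
-/

open Matrix Filter Topology NumberField
open scoped Polynomial nonZeroDivisors

namespace Pool.Agent.Work.MP_5e5ff1_ag.TH

namespace IKDK

/-- the number field of a monic irreducible polynomial -/
theorem field (f : ℤ[X]) (hf : f.Monic) (hirr : Irreducible f) (hd : 2 ≤ f.natDegree) :
    ∃ (L : Type) (_ : Field L) (_ : NumberField L) (θ : 𝓞 L), minpoly ℤ θ = f ∧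
      Algebra.adjoin ℚ {algebraMap (𝓞 L) L θ} = ⊤ := by
  set F : ℚ[X] := f.map (Int.castRingHom ℚ) with hF
  have hFirr : Irreducible F :=
    (Polynomial.IsPrimitive.Int.irreducible_iff_irreducible_map_cast hf.isPrimitive).mp hirr
  haveI : Fact (Irreducible F) := ⟨hFirr⟩
  have hF0 : F ≠ 0 := hFirr.ne_zero
  haveI : FiniteDimensional ℚ (AdjoinRoot F) := (AdjoinRoot.powerBasis hF0).finite
  haveI : CharZero (AdjoinRoot F) := algebraRat.charZero _
  haveI : NumberField (AdjoinRoot F) := { }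
  have hroot : Polynomial.eval₂ (algebraMap ℤ (AdjoinRoot F)) (AdjoinRoot.root F) f = 0 := by
    have h1 := AdjoinRoot.eval₂_root F
    rw [hF, Polynomial.eval₂_map] at h1
    have h2 : (AdjoinRoot.of F).comp (Int.castRingHom ℚ) = algebraMap ℤ (AdjoinRoot F) :=
      RingHom.ext_int _ _
    rw [← h2]
    exact h1
  have hint : IsIntegral ℤ (AdjoinRoot.root F) := ⟨f, hf, hroot⟩
  let θ : 𝓞 (AdjoinRoot F) := ⟨AdjoinRoot.root F, hint⟩
  refine ⟨AdjoinRoot F, inferInstance, inferInstance, θ, ?_, ?_⟩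
  · have hθ : IsIntegral ℤ θ := RingOfIntegers.isIntegral _
    have hdvd : minpoly ℤ θ ∣ f := by
      apply minpoly.isIntegrallyClosed_dvd hθ
      apply RingOfIntegers.coe_injective
      have h3 := Polynomial.aeval_algebraMap_apply (AdjoinRoot F) θ f
      rw [map_zero]
      exact h3.symm.trans hroot
    have hass : Associated (minpoly ℤ θ) f :=
      (hirr.dvd_iff.mp hdvd).resolve_left (minpoly.not_isUnit ℤ _) |>.symm
    exact Polynomial.eq_of_monic_of_associated (minpoly.monic hθ) hf hass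
  · exact AdjoinRoot.adjoinRoot_eq_top

/-- the ring homomorphism of a root -/
theorem hom {L : Type} [Field L] [NumberField L] (θ : 𝓞 L) (p : ℕ) [Fact p.Prime]
    (hp : ¬ p ∣ RingOfIntegers.exponent θ) (a : ZMod p)
    (ha : ((minpoly ℤ θ).map (Int.castRingHom (ZMod p))).eval a = 0) :
    ∃ φ : 𝓞 L →+* ZMod p, ∀ Q : ℤ[X], φ (Polynomial.aeval θ Q) =
      (Q.map (Int.castRingHom (ZMod p))).eval a := by
  let ψ : (ZMod p)[X] ⧸ Ideal.span {(minpoly ℤ θ).map (Int.castRingHom (ZMod p))} →+* ZMod p :=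
    Ideal.Quotient.lift _ (Polynomial.evalRingHom a) (by
      intro x hx
      obtain ⟨y, hy⟩ := Ideal.mem_span_singleton.mp hx
      rw [hy, map_mul, Polynomial.coe_evalRingHom, ha, zero_mul])
  let e := RingOfIntegers.ZModXQuotSpanEquivQuotSpan hp
  refine ⟨(ψ.comp e.symm.toRingHom).comp (Ideal.Quotient.mk _), ?_⟩
  intro Q
  have h1 := RingOfIntegers.ZModXQuotSpanEquivQuotSpan_mk_apply hp Q
  have h2 : e.symm (Ideal.Quotient.mk (Ideal.span {(p : 𝓞 L)}) (Polynomial.aeval θ Q)) =
      Ideal.Quotient.mk _ (Q.map (Int.castRingHom (ZMod p))) := by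
    rw [← h1]
    exact e.symm_apply_apply _
  show ψ (e.symm (Ideal.Quotient.mk (Ideal.span {(p : 𝓞 L)}) (Polynomial.aeval θ Q))) = _
  rw [h2]
  simp only [ψ, Ideal.Quotient.lift_mk, Polynomial.coe_evalRingHom]

/-- the norm of the kernel -/
theorem norm_ker {L : Type} [Field L] [NumberField L] (p : ℕ) [Fact p.Prime]
    (φ : 𝓞 L →+* ZMod p) : (RingHom.ker φ).IsPrime ∧ Ideal.absNorm (RingHom.ker φ) = p := by
  refine ⟨RingHom.ker_isPrime φ, ?_⟩
  rw [Ideal.absNorm_apply, Submodule.cardQuot_apply]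
  have e := RingHom.quotientKerEquivOfSurjective (ZMod.ringHom_surjective φ)
  exact (Nat.card_congr e.toEquiv).trans (Nat.card_zmod p)

/-- the exponent is not zero -/
theorem exponent_ne {L : Type} [Field L] [NumberField L] (θ : 𝓞 L)
    (hadj : Algebra.adjoin ℚ {algebraMap (𝓞 L) L θ} = ⊤)
    (hder : Polynomial.aeval θ (Polynomial.derivative (minpoly ℤ θ)) ≠ 0) :
    RingOfIntegers.exponent θ ≠ 0 := by
  have h1 := conductor_mul_differentIdeal ℤ ℚ L θ hadj
  have h2 : conductor ℤ θ ≠ ⊥ := by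
    intro h0
    rw [h0, Ideal.bot_mul] at h1
    exact hder (Ideal.span_singleton_eq_bot.mp h1.symm)
  rw [RingOfIntegers.exponent, Ne, Ideal.absNorm_eq_zero_iff]
  exact Ideal.under_ne_bot ℤ h2

end IKDK

open IKDK

theorem pr_KDK : StKDK := by
  intro f hf hirr hd
  obtain ⟨L, iF, iN, θ, hmin, hadj⟩ := IKDK.field f hf hirr hd
  have hint : IsIntegral ℤ θ := RingOfIntegers.isIntegral θ
  have hder : Polynomial.aeval θ (Polynomial.derivative (minpoly ℤ θ)) ≠ 0 := by
    intro h0
    have h1 := minpoly.isIntegrallyClosed_dvd hint h0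
    have h2 : Polynomial.derivative (minpoly ℤ θ) ≠ 0 := by
      intro h3
      have := Polynomial.natDegree_eq_zero_of_derivative_eq_zero h3
      rw [hmin] at this
      omega
    have h3 := Polynomial.degree_le_of_dvd h1 h2
    exact absurd h3 (not_le.mpr (Polynomial.degree_derivative_lt (minpoly.ne_zero hint)))
  have hexp := exponent_ne θ hadj hder
  set D : ℕ := Ideal.absNorm (Ideal.span {Polynomial.aeval θ (Polynomial.derivative (minpoly ℤ θ))})
    with hD
  have hD0 : D ≠ 0 := by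
    rw [hD, Ne, Ideal.absNorm_eq_zero_iff]
    intro h
    exact hder (Ideal.span_singleton_eq_bot.mp h)
  refine ⟨L, iF, iN, RingOfIntegers.exponent θ + D, ?_⟩
  intro p hp hpN ⟨s, hs⟩
  haveI : Fact p.Prime := ⟨hp⟩
  have hpe : ¬ p ∣ RingOfIntegers.exponent θ := by
    intro h
    have := Nat.le_of_dvd (Nat.pos_of_ne_zero hexp) h
    omega
  have hpD : ¬ p ∣ D := by
    intro h
    have := Nat.le_of_dvd (Nat.pos_of_ne_zero hD0) h
    omega
  have hcard : Multiset.card s = f.natDegree := by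
    have h1 := hf.natDegree_map (Int.castRingHom (ZMod p))
    rw [← h1, hs, Polynomial.natDegree_multiset_prod_X_sub_C_eq_card]
  -- two elements of `s`
  obtain ⟨a, a', t, rfl⟩ : ∃ a a' t, s = a ::ₘ a' ::ₘ t := by
    obtain ⟨a, ha⟩ := Multiset.exists_mem_of_ne_zero (s := s) (by
      intro h0
      rw [h0] at hcard
      simp at hcard
      omega)
    obtain ⟨t, rfl⟩ := Multiset.exists_cons_of_mem ha
    obtain ⟨a', ha'⟩ := Multiset.exists_mem_of_ne_zero (s := t) (by
      intro h0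
      rw [h0] at hcard
      simp at hcard
      omega)
    obtain ⟨t', rfl⟩ := Multiset.exists_cons_of_mem ha'
    exact ⟨a, a', t', rfl⟩
  simp only [Multiset.map_cons, Multiset.prod_cons] at hs
  have hra : ((minpoly ℤ θ).map (Int.castRingHom (ZMod p))).eval a = 0 := by
    rw [hmin, hs]
    simp
  have hra' : ((minpoly ℤ θ).map (Int.castRingHom (ZMod p))).eval a' = 0 := by
    rw [hmin, hs]
    simp
  obtain ⟨φ, hφ⟩ := hom θ p hpe a hra
  obtain ⟨φ', hφ'⟩ := hom θ p hpe a' hra'
  have hne : a ≠ a' := by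
    intro haa
    rw [← haa] at hs
    have h1 : φ (Polynomial.aeval θ (Polynomial.derivative (minpoly ℤ θ))) = 0 := by
      rw [hφ, ← Polynomial.derivative_map, hmin, hs]
      simp [Polynomial.derivative_mul]
    have h2 : (D : 𝓞 L) ∈ Ideal.span {Polynomial.aeval θ (Polynomial.derivative (minpoly ℤ θ))} :=
      Ideal.absNorm_mem _
    obtain ⟨y, hy⟩ := Ideal.mem_span_singleton.mp h2
    have h3 : φ (D : 𝓞 L) = 0 := by rw [hy, map_mul, h1, zero_mul]
    rw [map_natCast] at h3
    exact hpD ((ZMod.natCast_eq_zero_iff _ _).mp h3)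
  refine ⟨RingHom.ker φ, RingHom.ker φ', ?_, (norm_ker p φ).1, (norm_ker p φ').1,
    (norm_ker p φ).2, (norm_ker p φ').2⟩
  intro hker
  obtain ⟨k, hk⟩ := ZMod.intCast_surjective a
  have h1 : Polynomial.aeval θ (Polynomial.X - Polynomial.C k : ℤ[X]) ∈ RingHom.ker φ := by
    rw [RingHom.mem_ker, hφ]
    simp [hk]
  rw [hker, RingHom.mem_ker, hφ'] at h1
  rw [Polynomial.map_sub, Polynomial.map_X, Polynomial.map_C, Polynomial.eval_sub,
    Polynomial.eval_X, Polynomial.eval_C, eq_intCast, hk] at h1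
  exact hne (sub_eq_zero.mp h1).symm

end Pool.Agent.Work.MP_5e5ff1_ag.TH
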