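import Mathlib
import Pool.Agent.Work.MP_5e5ff1_ag.TH.StmtsB

set_option autoImplicit false

/-!
# MP_5e5ff1_ag, block TH, item KEY2: the upper bound (after TG/I_KEY of helper78)
-/

open Filter Topology
open scoped Polynomial

namespace Pool.Agent.Work.MP_5e5ff1_ag.TH

namespace IKEY2

/-- the auxiliary function on the disc -/
noncomputable def GG (δ A' h F : ℂ → ℂ) (J X : ℕ) (q : ℕ → ℕ → ℤ) (z : ℂ) : ℂ :=
  ∑ j ∈ Finset.range J, ∑ i ∈ Finset.range X,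
    (q j i : ℂ) * (δ z ^ i * A' z ^ (X - i) * (F z ^ j * h z ^ (J - j)))

theorem GG_diff {δ A' h F : ℂ → ℂ} {s : Set ℂ} (h1 : DifferentiableOn ℂ δ s)
    (h1' : DifferentiableOn ℂ A' s)
    (h2 : DifferentiableOn ℂ h s) (h3 : DifferentiableOn ℂ F s) (J X : ℕ) (q : ℕ → ℕ → ℤ) :
    DifferentiableOn ℂ (GG δ A' h F J X q) s := by
  unfold GG
  refine DifferentiableOn.fun_sum fun j _ => DifferentiableOn.fun_sum fun i _ => ?_
  exact (((h1.pow i).mul (h1'.pow (X - i))).mul ((h3.pow j).mul (h2.pow (J - j)))).const_mul _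

theorem GG_bound {δ A' h F : ℂ → ℂ} (J X : ℕ) (q : ℕ → ℕ → ℤ) (Q C0 : ℝ) (hC : 1 ≤ C0)
    (hQ : 0 ≤ Q) (hq : ∀ j i, |(q j i : ℝ)| ≤ Q) (z : ℂ) (h1 : ‖δ z‖ ≤ C0) (h1' : ‖A' z‖ ≤ C0)
    (h2 : ‖h z‖ ≤ C0)
    (h3 : ‖F z‖ ≤ C0) : ‖GG δ A' h F J X q z‖ ≤ J * X * Q * C0 ^ (X + J) := by
  have hC0 : (0 : ℝ) ≤ C0 := by linarith
  have hterm : ∀ j ∈ Finset.range J, ∀ i ∈ Finset.range X,
      ‖(q j i : ℂ) * (δ z ^ i * A' z ^ (X - i) * (F z ^ j * h z ^ (J - j)))‖ ≤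
        Q * C0 ^ (X + J) := by
    intro j hj i hi
    rw [Finset.mem_range] at hj hi
    rw [norm_mul, norm_mul, norm_mul, norm_mul, norm_pow, norm_pow, norm_pow, norm_pow,
      Complex.norm_intCast]
    have e1 : ‖δ z‖ ^ i * ‖A' z‖ ^ (X - i) * (‖F z‖ ^ j * ‖h z‖ ^ (J - j)) ≤
        C0 ^ i * C0 ^ (X - i) * (C0 ^ j * C0 ^ (J - j)) := by
      gcongr
    have e2 : C0 ^ i * C0 ^ (X - i) * (C0 ^ j * C0 ^ (J - j)) = C0 ^ (X + J) := by
      rw [← pow_add, ← pow_add, ← pow_add]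
      congr 1
      omega
    calc |(q j i : ℝ)| * (‖δ z‖ ^ i * ‖A' z‖ ^ (X - i) * (‖F z‖ ^ j * ‖h z‖ ^ (J - j)))
        ≤ Q * (C0 ^ i * C0 ^ (X - i) * (C0 ^ j * C0 ^ (J - j))) := by
          apply mul_le_mul (hq j i) e1 (by positivity) hQ
      _ = Q * C0 ^ (X + J) := by
          rw [e2]
  unfold GG
  calc ‖∑ j ∈ Finset.range J, ∑ i ∈ Finset.range X,
          (q j i : ℂ) * (δ z ^ i * A' z ^ (X - i) * (F z ^ j * h z ^ (J - j)))‖
      ≤ ∑ j ∈ Finset.range J, ∑ i ∈ Finset.range X, Q * C0 ^ (X + J) :=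
        (norm_sum_le _ _).trans (Finset.sum_le_sum fun j hj =>
          (norm_sum_le _ _).trans (Finset.sum_le_sum fun i hi => hterm j hj i hi))
    _ = J * X * Q * C0 ^ (X + J) := by
        simp only [Finset.sum_const, Finset.card_range, nsmul_eq_mul]
        ring

theorem GG_eq (δ A' h F : ℂ → ℂ) (J X : ℕ) (q : ℕ → ℕ → ℤ) (z S : ℂ) (hA : A' z ≠ 0)
    (hF : F z = h z * S) :
    GG δ A' h F J X q z = A' z ^ X * h z ^ J * ∑ j ∈ Finset.range J, ∑ i ∈ Finset.range X,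
      (q j i : ℂ) * ((δ z / A' z) ^ i * S ^ j) := by
  unfold GG
  rw [Finset.mul_sum]
  refine Finset.sum_congr rfl fun j hj => ?_
  rw [Finset.mul_sum]
  refine Finset.sum_congr rfl fun i hi => ?_
  rw [Finset.mem_range] at hj hi
  have e : h z ^ J = h z ^ j * h z ^ (J - j) := by
    rw [← pow_add]
    congr 1
    omega
  have e' : A' z ^ X = A' z ^ i * A' z ^ (X - i) := by
    rw [← pow_add]
    congr 1
    omega
  have e'' : A' z ^ i * (δ z / A' z) ^ i = δ z ^ i := by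
    rw [← mul_pow, mul_div_cancel₀ _ hA]
  rw [hF, e, e', mul_pow, ← e'']
  ring

theorem bound_on (f : ℂ → ℂ) (ρ : ℝ) (hρ1 : ρ < 1) (hf : DifferentiableOn ℂ f (Metric.ball 0 1)) :
    ∃ C : ℝ, ∀ z : ℂ, ‖z‖ ≤ ρ → ‖f z‖ ≤ C := by
  obtain ⟨C, hC⟩ := (isCompact_closedBall (0 : ℂ) ρ).exists_bound_of_continuousOn
    (f := f) (hf.continuousOn.mono (Metric.closedBall_subset_ball hρ1))
  exact ⟨C, fun z hz => hC z (by simpa using hz)⟩

end IKEY2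

open IKEY2 in
theorem pr_KEY2 (hCfa : TG.StCfa) (hCva : TG.StCva) (hFac : TG.StFac) (hOrd : TG.StOrd)
    (hMax : TG.StMax) : StKEY2 := by
  intro a A m g A' h F hA ha hm hgd hAd hh hhne hF hA0 hFeq ρ hρ hρ1
  have hδd : DifferentiableOn ℂ (fun z : ℂ => z ^ m * g z) (Metric.ball 0 1) :=
    (differentiableOn_id.pow m).mul hgd
  obtain ⟨C1, hC1⟩ := bound_on (fun z : ℂ => z ^ m * g z) ρ hρ1 hδd
  obtain ⟨C4, hC4⟩ := bound_on A' ρ hρ1 hAd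
  obtain ⟨C2, hC2⟩ := bound_on h ρ hρ1 hh
  obtain ⟨C3, hC3⟩ := bound_on F ρ hρ1 hF
  obtain ⟨ν, h1, hh1, hh10, hheq⟩ := hOrd h hh hhne
  set C0 : ℝ := max 1 (max (max C1 C4) (max C2 C3)) with hC0def
  have hC0 : 1 ≤ C0 := le_max_left _ _
  have hb1 : ∀ z : ℂ, ‖z‖ ≤ ρ → ‖z ^ m * g z‖ ≤ C0 := fun z hz =>
    (hC1 z hz).trans ((le_max_left _ _).trans ((le_max_left _ _).trans (le_max_right _ _)))
  have hb4 : ∀ z : ℂ, ‖z‖ ≤ ρ → ‖A' z‖ ≤ C0 := fun z hz =>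
    (hC4 z hz).trans ((le_max_right _ _).trans ((le_max_left _ _).trans (le_max_right _ _)))
  have hb2 : ∀ z : ℂ, ‖z‖ ≤ ρ → ‖h z‖ ≤ C0 := fun z hz =>
    (hC2 z hz).trans ((le_max_left _ _).trans ((le_max_right _ _).trans (le_max_right _ _)))
  have hb3 : ∀ z : ℂ, ‖z‖ ≤ ρ → ‖F z‖ ≤ C0 := fun z hz =>
    (hC3 z hz).trans ((le_max_right _ _).trans ((le_max_right _ _).trans (le_max_right _ _)))
  have hball : Metric.ball (0 : ℂ) 1 ∈ 𝓝 (0 : ℂ) := Metric.ball_mem_nhds _ one_pos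
  have hgpos : 0 < ‖h1 0‖ := norm_pos_iff.mpr hh10
  set u : ℝ := ‖h1 0‖ * ρ ^ ν with hu
  have hupos : 0 < u := by positivity
  set W : ℝ := max 1 (1 / u) with hW
  have hW1 : 1 ≤ W := le_max_left _ _
  have hvpos : 0 < ‖A' 0‖ := norm_pos_iff.mpr hA0
  set V : ℝ := max 1 (1 / ‖A' 0‖) with hV
  have hV1 : 1 ≤ V := le_max_left _ _
  refine ⟨C0 * W * V, ?_, ?_⟩
  · exact one_le_mul_of_one_le_of_one_le (one_le_mul_of_one_le_of_one_le hC0 hW1) hV1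
  intro J X q Q T' hq hz
  have hQ : 0 ≤ Q := (abs_nonneg _).trans (hq 0 0)
  set b : ℕ → ℂ := fun n => ((PowerSeries.coeff n (TG.aux a J X q) : ℚ) : ℂ) with hb
  have hbn : ∀ n, ‖b n‖ = |((PowerSeries.coeff n (TG.aux a J X q) : ℚ) : ℝ)| := by
    intro n
    simp only [hb]
    rw [Complex.norm_ratCast]
  have hbK : ∀ n, ‖b n‖ ≤ (J * X * Q * (2 * A) ^ J) * (2 * A) ^ n := by
    intro n
    rw [hbn n]
    refine (hCfa a A hA ha J X q Q hq n).trans (le_of_eq ?_)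
    rw [pow_add]
    ring
  obtain ⟨P, hP, hP0, hPeq⟩ := hFac b (J * X * Q * (2 * A) ^ J) (2 * A) T' (by linarith) hbK
    (fun n hn => by simp only [hb]; rw [hz n hn]; simp)
  have hgan : AnalyticAt ℂ g 0 := hgd.analyticAt hball
  have hAan : AnalyticAt ℂ A' 0 := hAd.analyticAt hball
  have htan : AnalyticAt ℂ (fun z : ℂ => z ^ m * g z / A' z) 0 :=
    ((analyticAt_id.pow m).mul hgan).div hAan hA0
  have ht0 : (0 : ℂ) ^ m * g 0 / A' 0 = 0 := by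
    rw [zero_pow hm.ne', zero_mul, zero_div]
  have htend : Tendsto (fun z : ℂ => z ^ m * g z / A' z) (𝓝 0) (𝓝 0) := by
    have h2 := htan.continuousAt.tendsto
    simp only [ht0] at h2
    exact h2
  have hsmall : ∀ᶠ z in 𝓝 (0 : ℂ), ‖z ^ m * g z / A' z‖ < 1 / (2 * A) := by
    have h1 : Tendsto (fun z : ℂ => ‖z ^ m * g z / A' z‖) (𝓝 0) (𝓝 0) := by
      have := htend.norm
      rwa [norm_zero] at this
    exact h1.eventually_lt_const (by positivity)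
  have hAne : ∀ᶠ z in 𝓝 (0 : ℂ), A' z ≠ 0 := hAan.continuousAt.eventually_ne hA0
  set g' : ℂ → ℂ := fun z => A' z ^ X * h1 z ^ J * (g z / A' z) ^ T' *
    P (z ^ m * g z / A' z) with hg'
  have hg'an : AnalyticAt ℂ g' 0 := by
    have hP' : AnalyticAt ℂ (fun z : ℂ => P (z ^ m * g z / A' z)) 0 := by
      refine AnalyticAt.fun_comp (g := P) (f := fun z : ℂ => z ^ m * g z / A' z) ?_ htan
      simp only [ht0]
      exact hP
    exact (((hAan.pow X).mul (hh1.pow J)).mul ((hgan.div hAan hA0).pow T')).mul hP'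
  have hGeq : ∀ᶠ z in 𝓝 (0 : ℂ), GG (fun z : ℂ => z ^ m * g z) A' h F J X q z =
      z ^ (J * ν + m * T') * g' z := by
    filter_upwards [hFeq, hsmall, htend.eventually hPeq, hheq, hAne] with z e1 e2 e3 e4 e6
    rw [GG_eq (fun z : ℂ => z ^ m * g z) A' h F J X q z _ e6 e1,
      ← (hCva a A hA ha (z ^ m * g z / A' z) e2 J X q).2]
    have e3' : ∑' n : ℕ, ((PowerSeries.coeff n (TG.aux a J X q) : ℚ) : ℂ) *
        (z ^ m * g z / A' z) ^ n =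
      (z ^ m * g z / A' z) ^ T' * P (z ^ m * g z / A' z) := e3
    rw [e3', e4]
    simp only [hg']
    have e5 : (z ^ m * g z / A' z) ^ T' = z ^ (m * T') * (g z / A' z) ^ T' := by
      rw [mul_div_assoc, mul_pow, ← pow_mul]
    rw [e5, mul_pow, ← pow_mul, pow_add, mul_comm ν J]
    ring
  have hmain := hMax (GG (fun z : ℂ => z ^ m * g z) A' h F J X q) g' (J * ν + m * T') ρ
    (J * X * Q * C0 ^ (X + J))
    (GG_diff hδd hAd hh hF J X q) hg'an hGeq hρ hρ1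
    (fun z hz => GG_bound J X q Q C0 hC0 hQ hq z (hb1 z hz) (hb4 z hz) (hb2 z hz) (hb3 z hz))
  have hg'0 : ‖g' 0‖ = ‖A' 0‖ ^ X * ‖h1 0‖ ^ J * (‖g 0‖ / ‖A' 0‖) ^ T' * ‖b T'‖ := by
    simp only [hg']
    rw [norm_mul, norm_mul, norm_mul, norm_pow, norm_pow, norm_pow, norm_div, ht0, hP0]
  rw [hg'0] at hmain
  rw [← hbn T']
  have hM : (‖A' 0‖ ^ X * u ^ J) * (‖b T'‖ * (‖g 0‖ / ‖A' 0‖ * ρ ^ m) ^ T') ≤
      J * X * Q * C0 ^ (X + J) := by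
    refine (le_of_eq ?_).trans hmain
    rw [hu, mul_pow, mul_pow, pow_add, ← pow_mul, ← pow_mul, mul_comm ν J]
    ring
  have hR : ‖b T'‖ * (‖g 0‖ / ‖A' 0‖ * ρ ^ m) ^ T' ≤
      ((1 / ‖A' 0‖) ^ X * (1 / u) ^ J) * (J * X * Q * C0 ^ (X + J)) := by
    have h1 := mul_le_mul_of_nonneg_left hM
      (by positivity : (0 : ℝ) ≤ (1 / ‖A' 0‖) ^ X * (1 / u) ^ J)
    have h2 : ((1 / ‖A' 0‖) ^ X * (1 / u) ^ J) * (‖A' 0‖ ^ X * u ^ J) = 1 := by
      have h3 : (1 / u) ^ J * u ^ J = 1 := by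
        rw [← mul_pow, one_div, inv_mul_cancel₀ hupos.ne', one_pow]
      have h4 : (1 / ‖A' 0‖) ^ X * ‖A' 0‖ ^ X = 1 := by
        rw [← mul_pow, one_div, inv_mul_cancel₀ hvpos.ne', one_pow]
      calc ((1 / ‖A' 0‖) ^ X * (1 / u) ^ J) * (‖A' 0‖ ^ X * u ^ J) =
          ((1 / ‖A' 0‖) ^ X * ‖A' 0‖ ^ X) * ((1 / u) ^ J * u ^ J) := by ring
        _ = 1 := by rw [h3, h4, one_mul]
    rwa [← mul_assoc, h2, one_mul] at h1
  refine hR.trans ?_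
  have hC0' : (0 : ℝ) ≤ C0 := by linarith
  have k1 : (1 / u) ^ J ≤ W ^ (X + J) :=
    (pow_le_pow_left₀ (by positivity) (le_max_right _ _) J).trans
      (pow_le_pow_right₀ hW1 (by omega))
  have k2 : (1 / ‖A' 0‖) ^ X ≤ V ^ (X + J) :=
    (pow_le_pow_left₀ (by positivity) (le_max_right _ _) X).trans
      (pow_le_pow_right₀ hV1 (by omega))
  calc ((1 / ‖A' 0‖) ^ X * (1 / u) ^ J) * (J * X * Q * C0 ^ (X + J))
      ≤ (V ^ (X + J) * W ^ (X + J)) * (J * X * Q * C0 ^ (X + J)) := by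
        gcongr
    _ = J * X * Q * (C0 * W * V) ^ (X + J) := by
        rw [mul_pow, mul_pow]
        ring

end Pool.Agent.Work.MP_5e5ff1_ag.TH
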