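import Mathlib
import Pool.Agent.Work.MP_5e5ff1_ag.TH.StmtsK

set_option autoImplicit false

/-!
# MP_5e5ff1_ag, block TH, item KME: lower bound in the first theorem of Mertens
-/

open Finset

namespace Pool.Agent.Work.MP_5e5ff1_ag.TH

namespace IKME

lemma mem_opr {n p : ℕ} : p ∈ opr n ↔ p ≤ n ∧ p.Prime := by
  unfold opr
  rw [mem_filter, mem_Icc]
  constructor
  · rintro ⟨⟨_, h2⟩, h3⟩
    exact ⟨h2, h3⟩
  · rintro ⟨h2, h3⟩
    exact ⟨⟨h3.two_le, h2⟩, h3⟩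

lemma log_factorial_eq (n : ℕ) :
    Real.log (n.factorial : ℝ) = ∑ p ∈ opr n, (n.factorial.factorization p : ℝ) * Real.log p := by
  rw [Real.log_nat_eq_sum_factorization, Finsupp.sum]
  refine sum_subset ?_ ?_
  · intro p hp
    rw [Nat.support_factorization, Nat.mem_primeFactors] at hp
    exact mem_opr.2 ⟨(hp.1.dvd_factorial).1 hp.2.1, hp.1⟩
  · intro p _ hp
    rw [Finsupp.notMem_support_iff.1 hp, Nat.cast_zero, zero_mul]

lemma fact_le {n p : ℕ} (hp : p.Prime) :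
    (n.factorial.factorization p : ℝ) ≤ n / ((p : ℝ) - 1) := by
  have hf : Fact p.Prime := ⟨hp⟩
  have h1 : (p - 1) * padicValNat p n.factorial ≤ n := by
    rw [sub_one_mul_padicValNat_factorial]
    exact Nat.sub_le _ _
  have h2 : (0 : ℝ) < (p : ℝ) - 1 := by
    have : (1 : ℝ) < p := by exact_mod_cast hp.one_lt
    linarith
  rw [le_div_iff₀ h2, Nat.factorization_def _ hp]
  have h3 : (((p - 1) * padicValNat p n.factorial : ℕ) : ℝ) ≤ n := by exact_mod_cast h1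
  rw [Nat.cast_mul, Nat.cast_sub hp.one_le, Nat.cast_one] at h3
  linarith

lemma main (n : ℕ) (hn : 1 ≤ n) :
    Real.log n - 1 ≤ ∑ p ∈ opr n, Real.log p / ((p : ℝ) - 1) := by
  have hn0 : (0 : ℝ) < n := by exact_mod_cast hn
  have h1 := Real.pow_div_factorial_le_exp (n : ℝ) hn0.le n
  have hf : (0 : ℝ) < n.factorial := by exact_mod_cast n.factorial_pos
  have h2 : n * Real.log n - Real.log n.factorial ≤ n := by
    have h3 := Real.log_le_log (by positivity) h1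
    rw [Real.log_exp, Real.log_div (by positivity) hf.ne', Real.log_pow] at h3
    exact h3
  rw [log_factorial_eq] at h2
  have h3 : ∑ p ∈ opr n, (n.factorial.factorization p : ℝ) * Real.log p ≤
      n * ∑ p ∈ opr n, Real.log p / ((p : ℝ) - 1) := by
    rw [mul_sum]
    refine sum_le_sum fun p hp => ?_
    have hp' := (mem_opr.1 hp).2
    have hl : 0 ≤ Real.log p := Real.log_nonneg (by exact_mod_cast hp'.one_le)
    calc (n.factorial.factorization p : ℝ) * Real.log p ≤ n / ((p : ℝ) - 1) * Real.log p :=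
          mul_le_mul_of_nonneg_right (fact_le hp') hl
      _ = n * (Real.log p / ((p : ℝ) - 1)) := by ring
  have h4 : n * (Real.log n - 1) ≤ n * ∑ p ∈ opr n, Real.log p / ((p : ℝ) - 1) := by linarith
  exact le_of_mul_le_mul_left h4 hn0

lemma term_le {p : ℕ} (hp : 2 ≤ p) :
    Real.log p / ((p : ℝ) * ((p : ℝ) - 1)) ≤ 4 * ((p : ℝ) ^ (3 / 2 : ℝ))⁻¹ := by
  have hp2 : (2 : ℝ) ≤ p := by exact_mod_cast hp
  have hp0 : (0 : ℝ) < p := by linarith
  have h1 : Real.log p ≤ 2 * (p : ℝ) ^ (1 / 2 : ℝ) := by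
    have := Real.log_le_rpow_div hp0.le (show (0 : ℝ) < 1 / 2 by norm_num)
    linarith
  have h2 : (p : ℝ) ^ 2 ≤ 2 * ((p : ℝ) * ((p : ℝ) - 1)) := by nlinarith
  have h3 : (0 : ℝ) < (p : ℝ) * ((p : ℝ) - 1) := mul_pos hp0 (by linarith)
  have h4 : (p : ℝ) ^ (1 / 2 : ℝ) * (p : ℝ) ^ (3 / 2 : ℝ) = (p : ℝ) ^ 2 := by
    rw [← Real.rpow_add hp0, ← Real.rpow_natCast]
    norm_num
  have h5 : (0 : ℝ) < (p : ℝ) ^ (3 / 2 : ℝ) := Real.rpow_pos_of_pos hp0 _
  rw [div_le_iff₀ h3, mul_assoc, inv_mul_eq_div, ← mul_div_assoc, le_div_iff₀ h5]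
  calc Real.log p * (p : ℝ) ^ (3 / 2 : ℝ) ≤ 2 * (p : ℝ) ^ (1 / 2 : ℝ) * (p : ℝ) ^ (3 / 2 : ℝ) :=
        mul_le_mul_of_nonneg_right h1 h5.le
    _ = 2 * (p : ℝ) ^ 2 := by rw [mul_assoc, h4]
    _ ≤ 4 * ((p : ℝ) * ((p : ℝ) - 1)) := by linarith

end IKME

theorem pr_KME : StKME := by
  have hs : Summable (fun k : ℕ => 4 * ((k : ℝ) ^ (3 / 2 : ℝ))⁻¹) :=
    (Real.summable_nat_rpow_inv.2 (by norm_num)).mul_left 4
  refine ⟨1 + ∑' k : ℕ, 4 * ((k : ℝ) ^ (3 / 2 : ℝ))⁻¹, fun n hn => ?_⟩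
  have h1 := IKME.main n hn
  have h2 : ∑ p ∈ opr n, Real.log p / ((p : ℝ) - 1) =
      ∑ p ∈ opr n, Real.log p / p + ∑ p ∈ opr n, Real.log p / ((p : ℝ) * ((p : ℝ) - 1)) := by
    rw [← sum_add_distrib]
    refine sum_congr rfl fun p hp => ?_
    have hp' := (IKME.mem_opr.1 hp).2
    have hp0 : (p : ℝ) ≠ 0 := by exact_mod_cast hp'.ne_zero
    have hp1 : (p : ℝ) - 1 ≠ 0 := by
      have : (1 : ℝ) < p := by exact_mod_cast hp'.one_lt
      linarith
    field_simp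
    ring
  have h3 : ∑ p ∈ opr n, Real.log p / ((p : ℝ) * ((p : ℝ) - 1)) ≤
      ∑' k : ℕ, 4 * ((k : ℝ) ^ (3 / 2 : ℝ))⁻¹ :=
    (sum_le_sum fun p hp => IKME.term_le (IKME.mem_opr.1 hp).2.two_le).trans
      (hs.sum_le_tsum _ fun k _ => by positivity)
  linarith

end Pool.Agent.Work.MP_5e5ff1_ag.TH
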