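import Mathlib
import Pool.Agent.Work.MP_5e5ff1_ag.TH.StmtsK

set_option autoImplicit false

/-!
# MP_5e5ff1_ag, block TH, item KRO (helper56): Kronecker
-/

open Matrix Filter Topology NumberField
open scoped Polynomial nonZeroDivisors

namespace Pool.Agent.Work.MP_5e5ff1_ag.TH

theorem pr_KRO (hTW : StKTW) (hDK : StKDK) : StKRO := by
  intro f S N0 c hf hirr hS h
  by_contra hne
  have h0 : f.natDegree ≠ 0 := by
    intro h0
    have h1 : f = 1 := Polynomial.eq_one_of_monic_natDegree_zero hf h0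
    exact hirr.not_isUnit (h1 ▸ isUnit_one)
  have h2 : 2 ≤ f.natDegree := by omega
  obtain ⟨L, iL, iN, N1, hN1⟩ := hDK f hf hirr h2
  exact hTW L S (max N0 N1) c hS fun p hp hlt hpS =>
    hN1 p hp (lt_of_le_of_lt (le_max_right _ _) hlt)
      (h p hp (lt_of_le_of_lt (le_max_left _ _) hlt) hpS)

end Pool.Agent.Work.MP_5e5ff1_ag.TH
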