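import Mathlib
import Pool.Agent.Work.MP_5e5ff1_ag.TH.StmtsK

set_option autoImplicit false

/-!
# MP_5e5ff1_ag, block TH, item KSP: the characteristic polynomial splits over the integers
-/

open Matrix Filter Topology NumberField
open scoped Polynomial

namespace Pool.Agent.Work.MP_5e5ff1_ag.TH

namespace IKSP

/-- restriction of scalars as a ring homomorphism -/
noncomputable def rsH (K : Type) [Field K] [NumberField K] (r : ℕ) :
    Matrix (Fin r) (Fin r) (𝓞 K) →+*
      Matrix (Fin r × Fin (Module.finrank ℤ (𝓞 K))) (Fin r × Fin (Module.finrank ℤ (𝓞 K))) ℤ where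
  toFun := TG.rs K
  map_one' := by
    ext i j
    obtain ⟨i1, i2⟩ := i
    obtain ⟨j1, j2⟩ := j
    by_cases h : i1 = j1
    · subst h
      simp [TG.rs, Matrix.one_apply, Prod.ext_iff]
    · simp [TG.rs, Prod.ext_iff, h]
  map_mul' a b := by
    ext i j
    simp only [TG.rs, Matrix.mul_apply, Fintype.sum_prod_type, map_sum, Matrix.sum_apply, map_mul]
  map_zero' := by
    ext i j
    simp [TG.rs]
  map_add' a b := by
    ext i j
    simp [TG.rs, Matrix.add_apply]

theorem rsH_inj (K : Type) [Field K] [NumberField K] (r : ℕ) :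
    Function.Injective (rsH K r) := by
  intro a b h
  refine Matrix.ext fun i j => ?_
  refine Algebra.leftMulMatrix_injective (Module.finBasis ℤ (𝓞 K)) ?_
  refine Matrix.ext fun k l => ?_
  exact congrFun (congrFun h (i, k)) (j, l)

/-- over an algebraically closed field -/
theorem eig {E : Type} [Field E] (r : ℕ) (c : Matrix (Fin r) (Fin r) E) (P : E[X])
    (hP : Polynomial.aeval c P = 0) (μ : E) (hμ : c.charpoly.IsRoot μ) : P.eval μ = 0 := by
  have h0 : (Matrix.scalar (Fin r) μ - c).det = 0 := by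
    rw [← Matrix.eval_charpoly]
    exact hμ
  obtain ⟨v, hv0, hv⟩ := Matrix.exists_mulVec_eq_zero_iff.2 h0
  have hcv : c *ᵥ v = μ • v := by
    rw [Matrix.sub_mulVec, sub_eq_zero] at hv
    rw [← hv]
    ext i
    simp [Matrix.scalar_apply, Matrix.mulVec_diagonal]
  have hpow : ∀ n : ℕ, (c ^ n) *ᵥ v = μ ^ n • v := by
    intro n
    induction n with
    | zero => simp
    | succ n ih =>
      rw [pow_succ, ← Matrix.mulVec_mulVec, hcv, Matrix.mulVec_smul, ih, smul_smul, pow_succ,
        mul_comm]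
  have hall : (Polynomial.aeval c P) *ᵥ v = P.eval μ • v := by
    rw [Polynomial.aeval_eq_sum_range, Matrix.sum_mulVec, Polynomial.eval_eq_sum_range,
      Finset.sum_smul]
    refine Finset.sum_congr rfl fun i _ => ?_
    rw [Matrix.smul_mulVec, hpow, smul_smul]
  rw [hP, Matrix.zero_mulVec] at hall
  rcases smul_eq_zero.1 hall.symm with h | h
  · exact h
  · exact absurd h hv0

theorem lst {E : Type} [Field E] (g : E → E[X]) : ∀ L : List E,
    (∀ x ∈ L, ∃ z : ℤ, (z : E) = x) → ∀ r : ℕ, L.length = r →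
    ∃ γ' : Fin r → ℤ, (L.map g).prod = ∏ i, g ((γ' i : ℤ) : E) := by
  intro L
  induction L with
  | nil =>
    intro _ r hr
    subst hr
    exact ⟨fun _ => 0, by simp⟩
  | cons a L ih =>
    intro hL r hr
    subst hr
    obtain ⟨γ', hγ'⟩ := ih (fun x hx => hL x (List.mem_cons_of_mem _ hx)) L.length rfl
    obtain ⟨z, hz⟩ := hL a (List.mem_cons_self ..)
    refine ⟨Fin.cons z γ', ?_⟩
    rw [List.map_cons, List.prod_cons, hγ']
    rw [← hz]
    exact (Fin.prod_univ_succ (n := L.length) (fun i => g (((Fin.cons z γ' : Fin (L.length + 1) → ℤ) i : ℤ) : E))).symm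

end IKSP

theorem pr_KSP : StKSP := by
  intro K _ _ r c m γ h
  have h3 := Polynomial.aeval_algHom_apply (IKSP.rsH K r).toIntAlgHom c
    (∏ j, (Polynomial.X - Polynomial.C (γ j)) : ℤ[X])
  have h4 : Polynomial.aeval c (∏ j, (Polynomial.X - Polynomial.C (γ j)) : ℤ[X]) = 0 := by
    refine IKSP.rsH_inj K r ?_
    rw [map_zero]
    exact h3.symm.trans h
  let E := AlgebraicClosure K
  let f : 𝓞 K →+* E := (algebraMap K E).comp (algebraMap (𝓞 K) K)
  have hf : Function.Injective f :=
    (algebraMap K E).injective.comp (FaithfulSMul.algebraMap_injective (𝓞 K) K)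
  let cE : Matrix (Fin r) (Fin r) E := c.map f
  have hcE : cE.charpoly = c.charpoly.map f := Matrix.charpoly_map c f
  have h5 : Polynomial.aeval cE (∏ j, (Polynomial.X - Polynomial.C ((γ j : ℤ) : E)) : E[X]) = 0 := by
    have h6 := Polynomial.aeval_algHom_apply (f.mapMatrix (m := Fin r)).toIntAlgHom c
      (∏ j, (Polynomial.X - Polynomial.C (γ j)) : ℤ[X])
    rw [h4, map_zero] at h6
    have h7 : (∏ j, (Polynomial.X - Polynomial.C ((γ j : ℤ) : E)) : E[X]) =
        Polynomial.map (algebraMap ℤ E) (∏ j, (Polynomial.X - Polynomial.C (γ j)) : ℤ[X]) := by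
      rw [Polynomial.map_prod]
      refine Finset.prod_congr rfl fun j _ => ?_
      rw [Polynomial.map_sub, Polynomial.map_X, Polynomial.map_C]
      rfl
    rw [h7, Polynomial.aeval_map_algebraMap]
    exact h6
  have hroot : ∀ μ ∈ cE.charpoly.roots, ∃ z : ℤ, (z : E) = μ := by
    intro μ hμ
    have h8 := IKSP.eig r cE _ h5 μ (Polynomial.isRoot_of_mem_roots hμ)
    rw [Polynomial.eval_prod, Finset.prod_eq_zero_iff] at h8
    obtain ⟨j, -, hj⟩ := h8
    refine ⟨γ j, ?_⟩
    simp only [Polynomial.eval_sub, Polynomial.eval_X, Polynomial.eval_C, sub_eq_zero] at hj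
    exact hj.symm
  have hmon : cE.charpoly.Monic := Matrix.charpoly_monic cE
  have hspl : cE.charpoly.Splits := IsAlgClosed.splits _
  have hcard : Multiset.card cE.charpoly.roots = r := by
    rw [← hspl.natDegree_eq_card_roots, Matrix.charpoly_natDegree_eq_dim, Fintype.card_fin]
  have hprod := hspl.eq_prod_roots_of_monic hmon
  have hlen : cE.charpoly.roots.toList.length = r := by
    rw [Multiset.length_toList, hcard]
  obtain ⟨γ', hγ'⟩ := IKSP.lst (fun a => (Polynomial.X - Polynomial.C a : E[X]))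
    cE.charpoly.roots.toList (fun x hx => hroot x (Multiset.mem_toList.1 hx)) r hlen
  refine ⟨γ', ?_⟩
  refine Polynomial.map_injective f hf ?_
  rw [← hcE, hprod, Polynomial.map_prod]
  have h9 : (cE.charpoly.roots.map fun a => (Polynomial.X - Polynomial.C a : E[X])).prod =
      (cE.charpoly.roots.toList.map fun a => (Polynomial.X - Polynomial.C a : E[X])).prod := by
    conv_lhs => rw [← Multiset.coe_toList cE.charpoly.roots]
    rw [Multiset.map_coe, Multiset.prod_coe]
  rw [h9, hγ']
  refine Finset.prod_congr rfl fun i _ => ?_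
  have h10 : f ((γ' i : ℤ) : 𝓞 K) = ((γ' i : ℤ) : E) := map_intCast f _
  rw [Polynomial.map_sub, Polynomial.map_X, Polynomial.map_C, h10]

end Pool.Agent.Work.MP_5e5ff1_ag.TH
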