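import Mathlib
import Pool.Agent.Work.MP_5e5ff1_ag.TH.StmtsK

set_option autoImplicit false

/-!
# MP_5e5ff1_ag, block TH, item KTW: two ideals of norm `p` for almost all `p`
-/

open Matrix Filter Topology NumberField
open scoped Polynomial nonZeroDivisors

namespace Pool.Agent.Work.MP_5e5ff1_ag.TH

namespace IKTW

/-- Two sided bounds for the number of ideals. -/
theorem bounds (L : Type) [Field L] [NumberField L] : ∃ κ Y : ℝ, 0 < κ ∧ 1 ≤ Y ∧
    ∀ y : ℝ, Y ≤ y → 7 / 8 * κ * y ≤ cnt L y ∧ (cnt L y : ℝ) ≤ 9 / 8 * κ * y := by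
  have h := NumberField.Ideal.tendsto_norm_le_div_atTop₀ L
  obtain ⟨κ, hκ⟩ : ∃ κ : ℝ, κ = dedekindZeta_residue L := ⟨_, rfl⟩
  have hκ0 : 0 < κ := by rw [hκ]; exact dedekindZeta_residue_pos L
  have h' : Tendsto (fun s : ℝ => (cnt L s : ℝ) / s) atTop (𝓝 κ) := by
    rw [hκ, dedekindZeta_residue_def]
    exact h
  have h1 := h'.eventually_const_le (show 7 / 8 * κ < κ by linarith)
  have h2 := h'.eventually_le_const (show κ < 9 / 8 * κ by linarith)
  obtain ⟨Y, hY⟩ := eventually_atTop.1 (h1.and h2)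
  refine ⟨κ, max Y 1, hκ0, le_max_right _ _, fun y hy => ?_⟩
  obtain ⟨h3, h4⟩ := hY y ((le_max_left _ _).trans hy)
  have hy0 : 0 < y := lt_of_lt_of_le one_pos ((le_max_right _ _).trans hy)
  rw [le_div_iff₀ hy0] at h3
  rw [div_le_iff₀ hy0] at h4
  exact ⟨h3, h4⟩

end IKTW

open Classical in
theorem pr_KTW (hKDC : StKDC) (hKME : StKME) : StKTW := by
  intro L _ _ S N0 c hS hPQ
  obtain ⟨κ, Y, hκ, hY, hb⟩ := IKTW.bounds L
  obtain ⟨C, hC⟩ := hKME
  have hch : ∀ p : ℕ, ∃ P Q : Ideal (𝓞 L), p.Prime → N0 < p → p ∉ S →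
      P ≠ Q ∧ P.IsPrime ∧ Q.IsPrime ∧ Ideal.absNorm P = p ∧ Ideal.absNorm Q = p := by
    intro p
    by_cases hp : p.Prime ∧ N0 < p ∧ p ∉ S
    · obtain ⟨P, Q, h⟩ := hPQ p hp.1 hp.2.1 hp.2.2
      exact ⟨P, Q, fun _ _ _ => h⟩
    · exact ⟨⊥, ⊥, fun h1 h2 h3 => absurd ⟨h1, h2, h3⟩ hp⟩
  choose P Q hPQ' using hch
  obtain ⟨E, hE⟩ : ∃ E : ℝ, E = ∑ p ∈ opr N0, Real.log p / p := ⟨_, rfl⟩
  obtain ⟨D, hD⟩ : ∃ D : ℝ, D = 14 * (Real.log (2 * Y) + C + E + c) := ⟨_, rfl⟩
  obtain ⟨x, hx⟩ : ∃ x : ℝ, x = max (2 * Y) (Real.exp |D|) := ⟨_, rfl⟩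
  have hx1 : 2 * Y ≤ x := by rw [hx]; exact le_max_left _ _
  have hx0 : 0 < x := by linarith
  have hxD : |D| ≤ Real.log x := by
    rw [Real.le_log_iff_exp_le hx0, hx]
    exact le_max_right _ _
  have hlx : 0 < Real.log x := Real.log_pos (by linarith)
  obtain ⟨n, hn⟩ : ∃ n : ℕ, n = ⌊x / Y⌋₊ := ⟨_, rfl⟩
  have hY0 : 0 < Y := by linarith
  have hxY : 0 ≤ x / Y := by positivity
  have hn1 : (n : ℝ) ≤ x / Y := by rw [hn]; exact Nat.floor_le hxY
  have hn2 : x / (2 * Y) ≤ n := by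
    have h1 : x / Y < n + 1 := by rw [hn]; exact Nat.lt_floor_add_one _
    have h2 : 1 ≤ x / (2 * Y) := by
      rw [le_div_iff₀ (by positivity)]
      linarith
    have h3 : x / Y = 2 * (x / (2 * Y)) := by
      field_simp
    linarith
  have hn3 : 1 ≤ n := by
    have h2 : 1 ≤ x / (2 * Y) := by
      rw [le_div_iff₀ (by positivity)]
      linarith
    exact_mod_cast h2.trans hn2
  obtain ⟨G, hG⟩ : ∃ G : Finset ℕ, G = (opr n).filter (fun p => N0 < p ∧ p ∉ S) := ⟨_, rfl⟩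
  have hGm : ∀ p ∈ G, p.Prime ∧ p ≤ n ∧ N0 < p ∧ p ∉ S := by
    intro p hp
    rw [hG, Finset.mem_filter] at hp
    unfold opr at hp
    rw [Finset.mem_filter, Finset.mem_Icc] at hp
    exact ⟨hp.1.2, hp.1.1.2, hp.2.1, hp.2.2⟩
  have hGP : ∀ p ∈ G, P p ≠ Q p ∧ (P p).IsPrime ∧ (Q p).IsPrime ∧
      Ideal.absNorm (P p) = p ∧ Ideal.absNorm (Q p) = p := fun p hp => by
    obtain ⟨h1, h2, h3, h4⟩ := hGm p hp
    exact hPQ' p h1 h3 h4
  have hdisj : (G : Set ℕ).PairwiseDisjoint (fun p => ({P p, Q p} : Finset (Ideal (𝓞 L)))) := by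
    intro p hp q hq hpq
    rw [Function.onFun, Finset.disjoint_left]
    intro I hI hI'
    have h1 : Ideal.absNorm I = p := by
      rcases Finset.mem_insert.1 hI with h | h
      · rw [h]; exact (hGP p hp).2.2.2.1
      · rw [Finset.mem_singleton.1 h]; exact (hGP p hp).2.2.2.2
    have h2 : Ideal.absNorm I = q := by
      rcases Finset.mem_insert.1 hI' with h | h
      · rw [h]; exact (hGP q hq).2.2.2.1
      · rw [Finset.mem_singleton.1 h]; exact (hGP q hq).2.2.2.2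
    exact hpq (h1.symm.trans h2)
  have hT := hKDC L (G.biUnion fun p => {P p, Q p}) (by
    intro I hI
    obtain ⟨p, hp, hI⟩ := Finset.mem_biUnion.1 hI
    obtain ⟨g1, g2, g3, g4, g5⟩ := hGP p hp
    have hp0 : p ≠ 0 := (hGm p hp).1.ne_zero
    rcases Finset.mem_insert.1 hI with h | h
    · rw [h]
      exact ⟨g2, fun h' => hp0 (by rw [← g4, h', Ideal.absNorm_bot])⟩
    · rw [Finset.mem_singleton.1 h]
      exact ⟨g3, fun h' => hp0 (by rw [← g5, h', Ideal.absNorm_bot])⟩) x (by linarith)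
  rw [Finset.sum_biUnion hdisj] at hT
  have hlow : ∑ p ∈ G, 7 / 4 * κ * x * (Real.log p / p) ≤
      ∑ p ∈ G, ∑ I ∈ ({P p, Q p} : Finset (Ideal (𝓞 L))),
        Real.log (Ideal.absNorm I) * (cnt L (x / Ideal.absNorm I) : ℝ) := by
    refine Finset.sum_le_sum fun p hp => ?_
    obtain ⟨g1, g2, g3, g4, g5⟩ := hGP p hp
    obtain ⟨f1, f2, f3, f4⟩ := hGm p hp
    rw [Finset.sum_pair g1, g4, g5]
    have hp0 : (0 : ℝ) < p := Nat.cast_pos.2 f1.pos
    have hpx : Y ≤ x / p := by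
      rw [le_div_iff₀ hp0]
      have h1 : (p : ℝ) ≤ n := by exact_mod_cast f2
      have h2 := h1.trans hn1
      rw [le_div_iff₀ hY0] at h2
      linarith
    have h3 := (hb (x / p) hpx).1
    have h4 := mul_le_mul_of_nonneg_left h3 (Real.log_natCast_nonneg p)
    calc 7 / 4 * κ * x * (Real.log p / p) = 2 * (Real.log p * (7 / 8 * κ * (x / p))) := by ring
      _ ≤ 2 * (Real.log p * (cnt L (x / p) : ℝ)) := by linarith
      _ = _ := by ring
  rw [← Finset.mul_sum] at hlow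
  have hcx := (hb x (by linarith)).2
  have h14 : 14 * ∑ p ∈ G, Real.log p / p ≤ 9 * Real.log x := by
    have h1 := hlow.trans hT
    have h2 := mul_le_mul_of_nonneg_right hcx hlx.le
    have h3 : κ * x * (14 * ∑ p ∈ G, Real.log p / p) ≤ κ * x * (9 * Real.log x) := by
      linarith
    exact le_of_mul_le_mul_left h3 (mul_pos hκ hx0)
  -- lower bound for the sum over `G`
  have hsplit : ∑ p ∈ opr n, Real.log p / p ≤ ∑ p ∈ G, Real.log p / p + E + c := by
    have h1 : opr n ⊆ (G ∪ opr N0) ∪ (opr n).filter (fun p => p ∈ S) := by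
      intro p hp
      by_cases hpS : p ∈ S
      · exact Finset.mem_union_right _ (Finset.mem_filter.2 ⟨hp, hpS⟩)
      · refine Finset.mem_union_left _ ?_
        by_cases hpN : N0 < p
        · refine Finset.mem_union_left _ ?_
          rw [hG]
          exact Finset.mem_filter.2 ⟨hp, hpN, hpS⟩
        · refine Finset.mem_union_right _ ?_
          unfold opr at hp ⊢
          rw [Finset.mem_filter, Finset.mem_Icc] at hp ⊢
          exact ⟨⟨hp.1.1, not_lt.1 hpN⟩, hp.2⟩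
    have hpos : ∀ p : ℕ, 0 ≤ Real.log p / p := fun p =>
      div_nonneg (Real.log_natCast_nonneg p) (Nat.cast_nonneg p)
    have hun : ∀ A B : Finset ℕ, ∑ p ∈ A ∪ B, Real.log p / p ≤
        ∑ p ∈ A, Real.log p / p + ∑ p ∈ B, Real.log p / p := by
      intro A B
      rw [← Finset.sum_union_inter]
      have := Finset.sum_nonneg (s := A ∩ B) fun p _ => hpos p
      linarith
    have h2 := Finset.sum_le_sum_of_subset_of_nonneg h1 fun p _ _ => hpos p
    have h3 := hun (G ∪ opr N0) ((opr n).filter (fun p => p ∈ S))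
    have h4 := hun G (opr N0)
    have h5 := hS ((opr n).filter (fun p => p ∈ S)) (fun p hp => by
      rw [Finset.mem_filter] at hp
      unfold opr at hp
      rw [Finset.mem_filter] at hp
      exact ⟨hp.1.2, hp.2⟩)
    rw [← hE] at h4
    linarith
  have hlog : Real.log x - Real.log (2 * Y) ≤ Real.log n := by
    rw [← Real.log_div hx0.ne' (by positivity)]
    exact Real.log_le_log (by positivity) hn2
  have hfin := hC n hn3
  have hDle : D ≤ Real.log x := (le_abs_self D).trans hxD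
  have : 14 * (Real.log x - Real.log (2 * Y) - C - E - c) ≤ 9 * Real.log x := by linarith
  linarith

end Pool.Agent.Work.MP_5e5ff1_ag.TH
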