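import Mathlib
import Pool.Agent.Work.MP_5e5ff1_ag.TH.StmtsX
import Pool.Agent.Work.MP_5e5ff1_ag.TH.I_LAG

set_option autoImplicit false

/-!
# MP_5e5ff1_ag, block TH, item LAGR: Lagrange projection of the truncation
-/

open Matrix Filter Topology
open scoped Polynomial

namespace Pool.Agent.Work.MP_5e5ff1_ag.TH

namespace ILAGR

open ILAG

section

variable {ι : Type} [Fintype ι] [DecidableEq ι] {F : Type} [Field F]

theorem DA_apply0 (M : ℕ) (B C : Matrix ι ι F) (v : ℕ → ι → F) (n : ℕ) (i : ι) :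
    DA M (A0g B C) v n i = (M : F) * (n : F) * v n i - (B *ᵥ v n) i +
      ∑ k ∈ Finset.range n, (C *ᵥ v k) i := by
  have h0 : DA M (A0g B C) v n i = (M : F) * (n : F) * v n i +
      ∑ k ∈ Finset.range (n + 1), (A0g B C (n - k) *ᵥ v k) i := rfl
  rw [h0, Finset.sum_range_succ]
  have h1 : ∑ k ∈ Finset.range n, (A0g B C (n - k) *ᵥ v k) i =
      ∑ k ∈ Finset.range n, (C *ᵥ v k) i := by
    refine Finset.sum_congr rfl fun k hk => ?_
    have hk' := Finset.mem_range.1 hk
    unfold A0g
    rw [if_neg (by omega)]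
  have h2 : (A0g B C (n - n) *ᵥ v n) i = -((B *ᵥ v n) i) := by
    unfold A0g
    rw [if_pos (Nat.sub_self n), Matrix.neg_mulVec, Pi.neg_apply]
  rw [h1, h2]
  ring

theorem DA_col {M : ℕ} {β : ι → ℤ} {B C : Matrix ι ι F} {W : ℕ → Matrix ι ι F}
    (h : IsW M β B C W) (i : ι) :
    DA M (A0g B C) (ucol W i) = (-(β i : F)) • ucol W i := by
  funext n l
  rw [DA_apply0]
  have h1 := h n l i
  have h2 : ∀ k, (C *ᵥ (ucol W i k)) l = (C * W k) l i := fun k => rfl
  have h3 : (B *ᵥ (ucol W i n)) l = (B * W n) l i := rfl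
  simp only [h2]
  rw [h3]
  change (M : F) * (n : F) * W n l i - (B * W n) l i + _ = -(β i : F) * W n l i
  linear_combination h1

theorem DA_shf (M : ℕ) (B C : Matrix ι ι F) (k : ℕ) (v : ℕ → ι → F) :
    DA M (A0g B C) (shf k v) = shf k (DA M (A0g B C) v + ((M : F) * (k : F)) • v) := by
  funext n l
  rw [DA_apply0]
  by_cases hk : k ≤ n
  · obtain ⟨d, rfl⟩ := Nat.exists_eq_add_of_le hk
    have e0 : ∀ x, shf k v (k + x) = v x := by
      intro x
      funext i
      unfold shf
      rw [if_pos (by omega), Nat.add_sub_cancel_left]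
    have e1 : shf k v (k + d) l = v d l := by rw [e0]
    have e2 : shf k (DA M (A0g B C) v + ((M : F) * (k : F)) • v) (k + d) l =
        DA M (A0g B C) v d l + ((M : F) * (k : F)) * v d l := by
      unfold shf
      rw [if_pos (by omega), Nat.add_sub_cancel_left]
      rfl
    have e3 : ∑ j ∈ Finset.range (k + d), (C *ᵥ shf k v j) l =
        ∑ j ∈ Finset.range d, (C *ᵥ v j) l := by
      rw [Finset.sum_range_add]
      have e4 : ∑ j ∈ Finset.range k, (C *ᵥ shf k v j) l = 0 := by
        refine Finset.sum_eq_zero fun j hj => ?_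
        have e5 : shf k v j = 0 := by
          funext i
          unfold shf
          rw [if_neg (by have := Finset.mem_range.1 hj; omega)]
          rfl
        rw [e5, Matrix.mulVec_zero]
        rfl
      rw [e4, zero_add]
      refine Finset.sum_congr rfl fun j _ => ?_
      rw [e0]
    rw [e1, e2, e3, DA_apply0, Nat.cast_add, e0]
    ring
  · have e0 : ∀ (w : ℕ → ι → F) (j : ℕ), j ≤ n → shf k w j = 0 := by
      intro w j hj
      funext i
      unfold shf
      rw [if_neg (by omega)]
      rfl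
    rw [e0 _ n le_rfl, e0 _ n le_rfl]
    have e4 : ∑ j ∈ Finset.range n, (C *ᵥ shf k v j) l = 0 := by
      refine Finset.sum_eq_zero fun j hj => ?_
      rw [e0 v j (Finset.mem_range.1 hj).le, Matrix.mulVec_zero]
      rfl
    rw [e4, Matrix.mulVec_zero]
    simp

theorem DA_shf_ucol {M : ℕ} {β : ι → ℤ} {B C : Matrix ι ι F} {W : ℕ → Matrix ι ι F}
    (h : IsW M β B C W) (k : ℕ) (i : ι) :
    DA M (A0g B C) (shf k (ucol W i)) = ((M : F) * (k : F) - (β i : F)) • shf k (ucol W i) := by
  rw [DA_shf, DA_col h, ← add_smul, shf_smul]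
  congr 1
  ring

theorem DA_Zr (M : ℕ) (B C : Matrix ι ι F) (m0 : ℕ) {v : ℕ → ι → F}
    (hv : v ∈ (Zr m0 : Submodule F (ℕ → ι → F))) :
    DA M (A0g B C) v ∈ (Zr m0 : Submodule F (ℕ → ι → F)) := by
  intro n hn
  funext l
  rw [DA_apply0, hv n hn]
  have e4 : ∑ j ∈ Finset.range n, (C *ᵥ v j) l = 0 := by
    refine Finset.sum_eq_zero fun j hj => ?_
    rw [hv j ((Finset.mem_range.1 hj).trans hn), Matrix.mulVec_zero]
    rfl
  rw [e4, Matrix.mulVec_zero]
  simp

theorem aeval_Zr (M : ℕ) (B C : Matrix ι ι F) (m0 : ℕ) (f : F[X]) {v : ℕ → ι → F}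
    (hv : v ∈ (Zr m0 : Submodule F (ℕ → ι → F))) :
    Polynomial.aeval (DA M (A0g B C)) f v ∈ (Zr m0 : Submodule F (ℕ → ι → F)) := by
  have hp : ∀ n : ℕ, (DA M (A0g B C) ^ n) v ∈ (Zr m0 : Submodule F (ℕ → ι → F)) := by
    intro n
    induction n with
    | zero => exact hv
    | succ n ih =>
      rw [pow_succ', Module.End.mul_apply]
      exact DA_Zr M B C m0 ih
  induction f using Polynomial.induction_on' with
  | add p q hp hq =>
    rw [map_add, LinearMap.add_apply]
    exact Submodule.add_mem _ hp hq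
  | monomial n a =>
    rw [Polynomial.aeval_monomial, Module.End.mul_apply, Module.algebraMap_end_apply]
    exact Submodule.smul_mem _ _ (hp n)

theorem key {M : ℕ} {β : ι → ℤ} {B C : Matrix ι ι F} {W : ℕ → Matrix ι ι F}
    (h : IsW M β B C W) (hdet : (W 0).det ≠ 0) (B0 m0 : ℕ) (f : F[X])
    (hf : ∀ (k : ℕ) (i : ι), B0 < k → k < m0 → f.eval ((M : F) * (k : F) - (β i : F)) = 0) :
    ∀ (d k : ℕ), B0 < k → k + d = m0 → ∀ v ∈ (Zr k : Submodule F (ℕ → ι → F)),
      Polynomial.aeval (DA M (A0g B C)) f v ∈ (Zr m0 : Submodule F (ℕ → ι → F)) := by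
  intro d
  induction d with
  | zero =>
    intro k _ hk v hv
    rw [add_zero] at hk
    subst hk
    exact aeval_Zr M B C k f hv
  | succ d ih =>
    intro k hk1 hk v hv
    set a : ι → F := (W 0)⁻¹ *ᵥ v k with ha
    have ha0 : W 0 *ᵥ a = v k := by
      rw [ha, Matrix.mulVec_mulVec, Matrix.mul_nonsing_inv _ (isUnit_iff_ne_zero.2 hdet),
        Matrix.one_mulVec]
    set w : ℕ → ι → F := ∑ i : ι, a i • shf k (ucol W i) with hw
    have hwn : ∀ n l, w n l = ∑ i : ι, a i * shf k (ucol W i) n l := by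
      intro n l
      rw [hw, Finset.sum_apply, Finset.sum_apply]
      rfl
    have h1 : v - w ∈ (Zr (k + 1) : Submodule F (ℕ → ι → F)) := by
      intro n hn
      funext l
      change v n l - w n l = 0
      rw [hwn]
      rcases Nat.lt_succ_iff_lt_or_eq.1 hn with h2 | h2
      · rw [hv n h2]
        have e : ∀ i ∈ (Finset.univ : Finset ι), a i * shf k (ucol W i) n l = 0 := by
          intro i _
          unfold shf
          rw [if_neg (by omega), mul_zero]
        rw [Finset.sum_eq_zero e]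
        simp
      · subst h2
        have e : ∀ i ∈ (Finset.univ : Finset ι), a i * shf n (ucol W i) n l =
            W 0 l i * a i := by
          intro i _
          unfold shf
          rw [if_pos le_rfl, Nat.sub_self, mul_comm]
          rfl
        rw [Finset.sum_congr rfl e]
        have h3 : ∑ i, W 0 l i * a i = v n l := congrFun ha0 l
        rw [h3, sub_self]
    have h2 := ih (k + 1) (by omega) (by omega) (v - w) h1
    have h3 : Polynomial.aeval (DA M (A0g B C)) f w = 0 := by
      rw [hw, map_sum]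
      refine Finset.sum_eq_zero fun i _ => ?_
      rw [map_smul, aeval_eig _ _ _ (DA_shf_ucol h k i), hf k i hk1 (by omega), zero_smul,
        smul_zero]
    rw [map_sub, h3, sub_zero] at h2
    exact h2

end

end ILAGR

open ILAG ILAGR in
/-- item LAGR -/
theorem pr_LAGR : StLAGR := by
  intro F _ _ ι _ _ M β B C W hW hdet B0 m0 f hf n i j hn
  have h1 : (fun n i => if n ≤ B0 then W n i j else 0) - ucol W j ∈
      (Zr (B0 + 1) : Submodule F (ℕ → ι → F)) := by
    intro m hm
    funext l
    change (if m ≤ B0 then W m l j else 0) - W m l j = 0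
    rw [if_pos (by omega), sub_self]
  have h2 : Polynomial.aeval (DA M (A0g B C)) f
      ((fun n i => if n ≤ B0 then W n i j else 0) - ucol W j) ∈
      (Zr m0 : Submodule F (ℕ → ι → F)) := by
    rcases le_or_gt (B0 + 1) m0 with h3 | h3
    · exact ILAGR.key hW hdet B0 m0 f hf (m0 - (B0 + 1)) (B0 + 1) (by omega) (by omega) _ h1
    · refine ILAGR.aeval_Zr M B C m0 f ?_
      intro m hm
      exact h1 m (by omega)
  rw [map_sub, aeval_eig _ _ _ (ILAGR.DA_col hW j)] at h2
  have h3 := congrFun (h2 n hn) i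
  have h4 : Polynomial.aeval (DA M (A0g B C)) f (fun n i => if n ≤ B0 then W n i j else 0) n i -
      f.eval (-(β j : F)) * W n i j = 0 := h3
  exact sub_eq_zero.1 h4

end Pool.Agent.Work.MP_5e5ff1_ag.TH
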