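import Mathlib
import Pool.Agent.Work.MP_5e5ff1_ag.TH.StmtsD

set_option autoImplicit false

/-!
# Item LOC0: the solution vector near 0
-/

open Matrix Filter Topology
open scoped Polynomial

namespace Pool.Agent.Work.MP_5e5ff1_ag.TH

namespace ILOC0

theorem pow_drop (n : ℕ) (x : ℂ) (hx : x ≠ 0) : (n : ℂ) * x ^ (n - 1) = n / x * x ^ n := by
  rcases n with _ | n
  · simp
  · rw [Nat.add_sub_cancel, pow_succ]
    field_simp

theorem alg {M φ D a ω e e' βi βj K u u' S χ χ' : ℂ} (hM : M ≠ 0) (hφ : 1 - φ ≠ 0)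
    (h1 : (φ - 1) * (e' * ω - e * a) = φ * (D - e * a))
    (h2 : M * φ * (1 - φ) * u' + (βj - βi) * (1 - φ) * u + φ * S = 0)
    (h3 : χ' = χ * ((K - e * βj * M⁻¹) * a + K * ω)) :
    χ' * u + χ * (u' * (φ * (D - e * a))) =
      D * M⁻¹ * ((βi - βj) * (χ * u)) + ω * (e' * M⁻¹ * (χ * S) + K * (χ * u)) +
        a * (K * (χ * u) - e * M⁻¹ * (βi * (χ * u) + χ * S)) := by
  have h4 : M * φ * u' * (D - e * a) + (βj - βi) * u * (D - e * a) - S * (e' * ω - e * a) = 0 := by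
    refine mul_left_cancel₀ hφ ?_
    linear_combination (D - e * a) * h2 + S * h1
  have h5 : M * M⁻¹ = 1 := mul_inv_cancel₀ hM
  rw [h3]
  linear_combination (χ * M⁻¹) * h4 - χ * u' * φ * (D - e * a) * h5

theorem dphi {z : ℂ} {m e : ℕ} {g A : ℂ → ℂ} {g' A' : ℂ} (hz : z ≠ 0) (hg0 : g z ≠ 0)
    (hA0 : A z ≠ 0) (hg : HasDerivAt g g' z) (hA : HasDerivAt A A' z) :
    HasDerivAt (fun y => y ^ m * g y / A y ^ e)
      (z ^ m * g z / A z ^ e * ((m : ℂ) / z + g' / g z - (e : ℂ) * (A' / A z))) z := by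
  have h1 := ((hasDerivAt_pow m z).fun_mul hg).fun_div (hA.fun_pow e) (pow_ne_zero e hA0)
  refine h1.congr_deriv ?_
  rw [pow_drop m z hz, pow_drop e (A z) hA0]
  field_simp

end ILOC0

open ILOC0 in
theorem pr_LOC0 (h1 : StUAN) (h2 : StROOT) (h3 : StDRL) (h4 : StWNZ) : StLOC0 := by
  intro ι _ _ M n1 n2 β C U hM hU hA R m g A w hm K j hK
  obtain ⟨ρu, u, hρu, husum, hud, hudet, hueq⟩ := h1 ι M β C U hU hA
  obtain ⟨hw0, -⟩ := h4 n1 n2 R m g A w hm
  have hwat : ∀ z ∈ Metric.ball (0 : ℂ) 1, HasDerivAt w (deriv w z) z := fun z hz =>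
    (hm.dw.differentiableAt (Metric.isOpen_ball.mem_nhds hz)).hasDerivAt
  have hAat : ∀ z ∈ Metric.ball (0 : ℂ) 1, HasDerivAt A (deriv A z) z := fun z hz =>
    (hm.dA.differentiableAt (Metric.isOpen_ball.mem_nhds hz)).hasDerivAt
  have hgat : ∀ z ∈ Metric.ball (0 : ℂ) 1, HasDerivAt g (deriv g z) z := fun z hz =>
    (hm.dg.differentiableAt (Metric.isOpen_ball.mem_nhds hz)).hasDerivAt
  have h01 : (0 : ℂ) ∈ Metric.ball (0 : ℂ) 1 := Metric.mem_ball_self one_pos
  have hev : ∀ᶠ z in 𝓝 (0 : ℂ), z ∈ Metric.ball (0 : ℂ) 1 ∧ A z ≠ 0 ∧ w z ≠ 0 ∧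
      z ^ m * g z / A z ^ e1 n2 ∈ Metric.ball (0 : ℂ) ρu := by
    have ha : ∀ᶠ z in 𝓝 (0 : ℂ), z ∈ Metric.ball (0 : ℂ) 1 := Metric.isOpen_ball.mem_nhds h01
    have hb : ∀ᶠ z in 𝓝 (0 : ℂ), A z ≠ 0 := (hAat 0 h01).continuousAt.eventually_ne hm.A00
    have hc : ∀ᶠ z in 𝓝 (0 : ℂ), w z ≠ 0 := (hwat 0 h01).continuousAt.eventually_ne hw0
    have hd : ContinuousAt (fun z => z ^ m * g z / A z ^ e1 n2) 0 :=
      ((continuousAt_id.pow m).mul (hgat 0 h01).continuousAt).div
        ((hAat 0 h01).continuousAt.pow _) (pow_ne_zero _ hm.A00)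
    refine ha.and (hb.and (hc.and (hd.eventually (Metric.isOpen_ball.mem_nhds ?_))))
    simpa [zero_pow hm.m0.ne'] using hρu
  obtain ⟨ρ, hρ, hball⟩ := Metric.eventually_nhds_iff_ball.1 hev
  set p : ℕ := ((K : ℤ) * M - (e1 n2 : ℤ) * β j).toNat with hp
  have hpc : (p : ℂ) = (K : ℂ) * M - (e1 n2 : ℂ) * β j := by
    have h5 : ((p : ℕ) : ℤ) = (K : ℤ) * M - (e1 n2 : ℤ) * β j :=
      Int.toNat_of_nonneg (by linarith)
    have h6 := congrArg (fun x : ℤ => (x : ℂ)) h5
    push_cast at h6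
    exact h6
  have hfd : ∀ z ∈ Metric.ball (0 : ℂ) (min ρ 1), HasDerivAt (fun y => A y ^ p * w y ^ (K * M))
      (A z ^ p * w z ^ (K * M) * ((p : ℂ) * (deriv A z / A z) +
        ((K : ℂ) * M) * (deriv w z / w z))) z := by
    intro z hz
    have hzb := hball z (Metric.ball_subset_ball (min_le_left _ _) hz)
    have h5 := ((hAat z hzb.1).fun_pow p).fun_mul ((hwat z hzb.1).fun_pow (K * M))
    refine h5.congr_deriv ?_
    rw [pow_drop p (A z) hzb.2.1, pow_drop (K * M) (w z) hzb.2.2.1]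
    push_cast
    ring
  obtain ⟨χ, hχd, hχ⟩ := h2 (fun y => A y ^ p * w y ^ (K * M)) 0 (min ρ 1) M
    (lt_min hρ one_pos) hM
    (fun z hz => (hfd z hz).differentiableAt.differentiableWithinAt)
    (fun z hz => by
      have hzb := hball z (Metric.ball_subset_ball (min_le_left _ _) hz)
      exact mul_ne_zero (pow_ne_zero _ hzb.2.1) (pow_ne_zero _ hzb.2.2.1))
  have hMC : (M : ℂ) ≠ 0 := by exact_mod_cast hM.ne'
  refine ⟨min ρ 1, fun z i => χ z * u (z ^ m * g z / A z ^ e1 n2) i j, χ, lt_min hρ one_pos,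
    min_le_right _ _, ?_, ?_⟩
  · intro i z hz
    have hzb := hball z (Metric.ball_subset_ball (min_le_left _ _) hz)
    have hg1 : DifferentiableAt ℂ (fun x => u x i j) (z ^ m * g z / A z ^ e1 n2) :=
      (hud i j).differentiableAt (Metric.isOpen_ball.mem_nhds hzb.2.2.2)
    have hg0 : DifferentiableAt ℂ (fun y => y ^ m * g y / A y ^ e1 n2) z :=
      ((differentiableAt_id.pow m).mul (hgat z hzb.1).differentiableAt).div
        ((hAat z hzb.1).differentiableAt.pow _) (pow_ne_zero _ hzb.2.1)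
    have hg2 : DifferentiableAt ℂ (fun y => u (y ^ m * g y / A y ^ e1 n2) i j) z :=
      DifferentiableAt.comp z (g := fun x => u x i j) (f := fun y => y ^ m * g y / A y ^ e1 n2)
        hg1 hg0
    exact ((hχd.differentiableAt (Metric.isOpen_ball.mem_nhds hz)).mul
      hg2).differentiableWithinAt
  · intro z hz
    have hzb := hball z (Metric.ball_subset_ball (min_le_left _ _) hz)
    obtain ⟨hχ0, hχM, hχD⟩ := hχ z hz
    refine ⟨hχM, fun i => ?_, fun hz0 i => ?_⟩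
    · show χ z * u (z ^ m * g z / A z ^ e1 n2) i j = _
      rw [(husum _ hzb.2.2.2 i j).tsum_eq]
    · have hgz := hm.g0 z hzb.1
      have hφd := dphi (m := m) (e := e1 n2) hz0 hgz hzb.2.1 (hgat z hzb.1) (hAat z hzb.1)
      have hg1 : HasDerivAt (fun x => u x i j)
          (deriv (fun x => u x i j) (z ^ m * g z / A z ^ e1 n2)) (z ^ m * g z / A z ^ e1 n2) :=
        ((hud i j).differentiableAt (Metric.isOpen_ball.mem_nhds hzb.2.2.2)).hasDerivAt
      have hg2 := HasDerivAt.comp z (h₂ := fun x => u x i j)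
        (h := fun y => y ^ m * g y / A y ^ e1 n2) hg1 hφd
      have hχd' : HasDerivAt χ (deriv χ z) z :=
        (hχd.differentiableAt (Metric.isOpen_ball.mem_nhds hz)).hasDerivAt
      have hall := hχd'.fun_mul hg2
      have hpt : z ^ m * g z / A z ^ e1 n2 - 1 = w z ^ e1 n1 / A z ^ e1 n2 := by
        rw [← hm.rel z hzb.1]
        have := pow_ne_zero (e1 n2) hzb.2.1
        field_simp
      have hφ1 : 1 - z ^ m * g z / A z ^ e1 n2 ≠ 0 := by
        have h5 : w z ^ e1 n1 / A z ^ e1 n2 ≠ 0 :=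
          div_ne_zero (pow_ne_zero _ hzb.2.2.1) (pow_ne_zero _ hzb.2.1)
        rw [← hpt] at h5
        intro h6
        exact h5 (by linear_combination -h6)
      have hk1 : (z ^ m * g z / A z ^ e1 n2 - 1) *
          ((e1 n1 : ℂ) * (deriv w z / w z) - (e1 n2 : ℂ) * (deriv A z / A z)) =
          z ^ m * g z / A z ^ e1 n2 * ((m : ℂ) / z + deriv g z / g z -
            (e1 n2 : ℂ) * (deriv A z / A z)) := by
        have h5 := h3 n1 n2 R m g A w hm z hzb.1 hz0 hzb.2.1 hzb.2.2.1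
        rw [hpt, div_mul_eq_mul_div, h5, div_mul_eq_mul_div]
      have hk3 : deriv χ z = χ z * (((K : ℂ) - (e1 n2 : ℂ) * (β j : ℂ) * (M : ℂ)⁻¹) *
          (deriv A z / A z) + (K : ℂ) * (deriv w z / w z)) := by
        have hf0 : A z ^ p * w z ^ (K * M) ≠ 0 :=
          mul_ne_zero (pow_ne_zero _ hzb.2.1) (pow_ne_zero _ hzb.2.2.1)
        have h5 : (M : ℂ) * deriv χ z * (A z ^ p * w z ^ (K * M)) =
            (A z ^ p * w z ^ (K * M) * ((p : ℂ) * (deriv A z / A z) +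
              ((K : ℂ) * M) * (deriv w z / w z))) * χ z := by
          have h6 := hχD
          rw [(hfd z hz).deriv] at h6
          exact h6
        have h7 : (M : ℂ) * deriv χ z = ((p : ℂ) * (deriv A z / A z) +
              ((K : ℂ) * M) * (deriv w z / w z)) * χ z := by
          refine mul_right_cancel₀ hf0 ?_
          linear_combination h5
        rw [hpc] at h7
        have h8 : (M : ℂ) * (M : ℂ)⁻¹ = 1 := mul_inv_cancel₀ hMC
        refine mul_left_cancel₀ hMC ?_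
        rw [h7]
        linear_combination ((e1 n2 : ℂ) * β j * (deriv A z / A z) * χ z) * h8
      have hAA : ((AA M n1 n2 β C K (β j) m g A w z *ᵥ
          fun i => χ z * u (z ^ m * g z / A z ^ e1 n2) i j) i) =
          ((m : ℂ) / z + deriv g z / g z) * (M : ℂ)⁻¹ * (((β i : ℂ) - (β j : ℂ)) *
            (χ z * u (z ^ m * g z / A z ^ e1 n2) i j)) +
          (deriv w z / w z) * ((e1 n1 : ℂ) * (M : ℂ)⁻¹ * (χ z *
            ∑ l, (C i l : ℂ) * u (z ^ m * g z / A z ^ e1 n2) l j) +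
            K * (χ z * u (z ^ m * g z / A z ^ e1 n2) i j)) +
          (deriv A z / A z) * (K * (χ z * u (z ^ m * g z / A z ^ e1 n2) i j) -
            (e1 n2 : ℂ) * (M : ℂ)⁻¹ * ((β i : ℂ) * (χ z * u (z ^ m * g z / A z ^ e1 n2) i j) +
              χ z * ∑ l, (C i l : ℂ) * u (z ^ m * g z / A z ^ e1 n2) l j)) := by
        have e5 : (C.map (Int.castRingHom ℂ) *ᵥ
            fun i => χ z * u (z ^ m * g z / A z ^ e1 n2) i j) i =
            χ z * ∑ l, (C i l : ℂ) * u (z ^ m * g z / A z ^ e1 n2) l j := by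
          rw [Matrix.mulVec, dotProduct, Finset.mul_sum]
          exact Finset.sum_congr rfl fun l _ => by
            rw [Matrix.map_apply, eq_intCast]
            ring
        unfold AA
        simp only [Matrix.add_mulVec, Matrix.sub_mulVec, Matrix.smul_mulVec, Matrix.one_mulVec,
          Pi.add_apply, Pi.sub_apply, Pi.smul_apply, Matrix.mulVec_diagonal, smul_eq_mul, e5]
      have hgoal := alg hMC hφ1 hk1 (hueq _ hzb.2.2.2 i j) hk3
      show HasDerivAt (fun y => χ y * u (y ^ m * g y / A y ^ e1 n2) i j)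
        ((AA M n1 n2 β C K (β j) m g A w z *ᵥ
          fun i => χ z * u (z ^ m * g z / A z ^ e1 n2) i j) i) z
      rw [hAA, ← hgoal]
      exact hall

end Pool.Agent.Work.MP_5e5ff1_ag.TH
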