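import Mathlib
import Pool.Agent.Work.MP_5e5ff1_ag.TH.StmtsD

set_option autoImplicit false

/-!
# MP_5e5ff1_ag, block TH, item LOCA: local solutions everywhere except 0
-/

open Matrix Filter Topology
open scoped Polynomial

namespace Pool.Agent.Work.MP_5e5ff1_ag.TH

namespace ILOCA

/-- the polynomial for the negative matrix -/
theorem neg_aeval {ι : Type} [Fintype ι] [DecidableEq ι] (C : Matrix ι ι ℤ) (m : ℕ)
    (γ : Fin m → ℤ)
    (h : Polynomial.aeval C (∏ j, (Polynomial.X - Polynomial.C (γ j))) = 0) :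
    Polynomial.aeval (-C) (∏ j, (Polynomial.X - Polynomial.C (-γ j))) = 0 := by
  have h1 : (-C) = Polynomial.aeval C (-Polynomial.X : ℤ[X]) := by simp
  rw [h1, ← Polynomial.aeval_comp, Polynomial.prod_comp]
  have h2 : ∀ j, ((Polynomial.X - Polynomial.C (-γ j)) : ℤ[X]).comp (-Polynomial.X) =
      -1 * (Polynomial.X - Polynomial.C (γ j)) := by
    intro j
    simp only [Polynomial.sub_comp, Polynomial.X_comp, Polynomial.C_comp, Polynomial.C_neg,
      Polynomial.neg_comp]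
    ring
  rw [Finset.prod_congr rfl (fun j _ => h2 j), Finset.prod_mul_distrib, map_mul, h, mul_zero]

/-- a sum of absolute values of all entries -/
noncomputable def bd {ι : Type} [Fintype ι] (β : ι → ℤ) (C : Matrix ι ι ℤ) : ℤ :=
  ∑ i, |β i| + ∑ i, ∑ j, |C i j|

theorem le_bd {ι : Type} [Fintype ι] (β : ι → ℤ) (C : Matrix ι ι ℤ) (i i' j : ι) :
    |β i| + |C i' j| ≤ bd β C := by
  unfold bd
  have h1 : |β i| ≤ ∑ i, |β i| :=
    Finset.single_le_sum (f := fun i => |β i|) (fun _ _ => abs_nonneg _) (Finset.mem_univ i)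
  have h2 : |C i' j| ≤ ∑ j, |C i' j| :=
    Finset.single_le_sum (f := fun j => |C i' j|) (fun _ _ => abs_nonneg _) (Finset.mem_univ j)
  have h3 : ∑ j, |C i' j| ≤ ∑ i, ∑ j, |C i j| :=
    Finset.single_le_sum (f := fun i => ∑ j, |C i j|)
      (fun _ _ => Finset.sum_nonneg fun _ _ => abs_nonneg _) (Finset.mem_univ i')
  linarith

theorem abs_db {ι : Type} [DecidableEq ι] (β : ι → ℤ) (i j : ι) : |db ℤ β i j| ≤ |β i| := by
  unfold db
  rw [Matrix.diagonal_apply]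
  split
  · simp
  · simp

theorem bdd1 {ι : Type} [Fintype ι] [DecidableEq ι] (β : ι → ℤ) (C : Matrix ι ι ℤ) :
    ∃ c : ℤ, ∀ m i j, |A1 β C m i j| ≤ c := by
  refine ⟨bd β C, fun m i j => ?_⟩
  have h := le_bd β C i i j
  have h1 := abs_nonneg (β i)
  have h2 := abs_nonneg (C i j)
  have h3 := abs_db β i j
  unfold A1
  split
  · rw [Matrix.neg_apply, abs_neg]; linarith
  · rw [Matrix.smul_apply, smul_eq_mul, abs_mul, abs_pow, abs_neg, abs_one, one_pow, one_mul]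
    linarith

theorem bdd2 {ι : Type} [Fintype ι] [DecidableEq ι] (β : ι → ℤ) (C : Matrix ι ι ℤ) :
    ∃ c : ℤ, ∀ m i j, |A2 β C m i j| ≤ c := by
  refine ⟨bd β C, fun m i j => ?_⟩
  have h := le_bd β C i i j
  have h1 := abs_nonneg (β i)
  have h2 := abs_nonneg (C i j)
  have h3 := abs_db β i j
  unfold A2
  split
  · rw [Matrix.add_apply]
    exact (abs_add_le _ _).trans (by linarith)
  · linarith

/-- a natural number above the sum of the absolute values is above the quotients -/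
theorem div_le {ι : Type} [Fintype ι] (M n : ℕ) (b : ι → ℤ) (K : ℕ)
    (hK : ∑ j, ((n : ℤ) * b j).natAbs ≤ K) (l : ι) : (n : ℤ) * b l / (M : ℤ) ≤ (K : ℤ) := by
  have h1 : ((n : ℤ) * b l).natAbs ≤ ∑ j, ((n : ℤ) * b j).natAbs :=
    Finset.single_le_sum (f := fun j => ((n : ℤ) * b j).natAbs) (fun _ _ => Nat.zero_le _)
      (Finset.mem_univ l)
  have h2 : |(n : ℤ) * b l / (M : ℤ)| ≤ |(n : ℤ) * b l| := by
    have := Int.natAbs_ediv_le_natAbs ((n : ℤ) * b l) (M : ℤ)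
    rw [Int.abs_eq_natAbs, Int.abs_eq_natAbs]
    exact_mod_cast this
  have h3 := le_abs_self ((n : ℤ) * b l / (M : ℤ))
  have h4 : |(n : ℤ) * b l| ≤ (K : ℤ) := by
    rw [Int.abs_eq_natAbs]
    exact_mod_cast h1.trans hK
  linarith

end ILOCA

/-- LOCA: local solutions everywhere except 0. -/
theorem pr_LOCA (h1 : StFRB) (h2 : StGEX) (h3 : StGCV) (h4 : StLOC1) (h5 : StLOC2)
    (h6 : StLOCR) : StLOCA := by
  intro ι _ _ _ M n1 n2 β C S L hS
  obtain ⟨hF1, hF2⟩ := h1 ι M n1 n2 β C S L hS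
  -- the point 1
  have hP1 : ∃ K1 : ℕ, ∀ (R : ℝ) (m : ℕ) (g A w : ℂ → ℂ), IsMap n1 n2 R m g A w → ∀ K ≥ K1,
      ∀ lam : ℤ, ∀ z0 ∈ Metric.ball (0 : ℂ) 1, w z0 = 0 →
      ∃ (ρ : ℝ) (N : ℂ → Matrix ι ι ℂ), LocSol M n1 n2 β C K lam m g A w N z0 ρ := by
    by_cases hn : n1 = 0
    · exact ⟨0, fun R m g A w hm K _ lam z0 hz0 hw => absurd hw (hm.nw hn z0 hz0)⟩
    · obtain ⟨m, γ, hγ, hC⟩ := hS.h1 hn
      have hA : A1 β C 0 = -C := by simp [A1]
      have hC' : Polynomial.aeval (A1 β C 0)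
          (∏ j, (Polynomial.X - Polynomial.C ((fun j => -γ j) j))) = 0 := by
        rw [hA]; exact ILOCA.neg_aeval C m γ hC
      obtain ⟨γ', G, hγ', hG⟩ := h2 ι M (A1 β C) hF1 m (fun j => -γ j) hC'
      obtain ⟨B, -, hB⟩ := h3 ι M (A1 β C) γ' G hS.hM (ILOCA.bdd1 β C) hG
      have hdv : ∀ l, (M : ℤ) ∣ n1 * γ' l := by
        intro l
        obtain ⟨j, hj⟩ := hγ' l
        rw [hj, mul_neg]
        exact (dvd_neg).mpr (hγ j)
      refine ⟨∑ j, ((n1 : ℤ) * γ' j).natAbs, ?_⟩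
      intro R m' g A w hm K hK lam z0 hz0 hw
      exact h4 ι M n1 n2 β C γ' G hS.hM hG ⟨B, hB⟩ hdv R m' g A w hm K
        (fun l => ILOCA.div_le M n1 γ' K hK l) lam z0 hz0 hw
  -- the point at infinity
  have hP2 : ∃ K2 : ℕ, ∀ (R : ℝ) (m : ℕ) (g A w : ℂ → ℂ), IsMap n1 n2 R m g A w → ∀ K ≥ K2,
      ∀ lam : ℤ, ∀ z0 ∈ Metric.ball (0 : ℂ) 1, A z0 = 0 →
      ∃ (ρ : ℝ) (N : ℂ → Matrix ι ι ℂ), LocSol M n1 n2 β C K lam m g A w N z0 ρ := by
    by_cases hn : n2 = 0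
    · exact ⟨0, fun R m g A w hm K _ lam z0 hz0 hA => absurd hA (hm.nA hn z0 hz0)⟩
    · obtain ⟨m, γ, hγ, hC⟩ := hS.h2 hn
      have hA : A2 β C 0 = db ℤ β + C := by simp [A2]
      have hC' : Polynomial.aeval (A2 β C 0)
          (∏ j, (Polynomial.X - Polynomial.C (γ j))) = 0 := by
        rw [hA]; exact hC
      obtain ⟨γ', G, hγ', hG⟩ := h2 ι M (A2 β C) hF2 m γ hC'
      obtain ⟨B, -, hB⟩ := h3 ι M (A2 β C) γ' G hS.hM (ILOCA.bdd2 β C) hG
      have hdv : ∀ l, (M : ℤ) ∣ n2 * γ' l := by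
        intro l
        obtain ⟨j, hj⟩ := hγ' l
        rw [hj]
        exact hγ j
      refine ⟨∑ j, ((n2 : ℤ) * γ' j).natAbs, ?_⟩
      intro R m' g A w hm K hK lam z0 hz0 hA0
      exact h5 ι M n1 n2 β C γ' G hS.hM hG ⟨B, hB⟩ hdv R m' g A w hm K
        (fun l => ILOCA.div_le M n2 γ' K hK l) lam z0 hz0 hA0
  obtain ⟨K1, hK1⟩ := hP1
  obtain ⟨K2, hK2⟩ := hP2
  refine ⟨K1 + K2, ?_⟩
  intro R m g A w hm K hK lam z0 hz0 hne
  by_cases hA : A z0 = 0
  · exact hK2 R m g A w hm K (by omega) lam z0 hz0 hA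
  · by_cases hw : w z0 = 0
    · exact hK1 R m g A w hm K (by omega) lam z0 hz0 hw
    · exact h6 ι M n1 n2 β C R m g A w hm K lam z0 hz0 hne hA hw

end Pool.Agent.Work.MP_5e5ff1_ag.TH
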