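import Mathlib
import Pool.Agent.Work.MP_5e5ff1_ag.TH.StmtsX
import Pool.Agent.Work.MP_5e5ff1_ag.TH.I_LOCA

set_option autoImplicit false

/-!
# MP_5e5ff1_ag, block TH, item LOCAR: local solutions everywhere except 0, resonance allowed
-/

open Matrix Filter Topology
open scoped Polynomial

namespace Pool.Agent.Work.MP_5e5ff1_ag.TH

/-- LOCAR: local solutions everywhere except 0, resonance allowed. -/
theorem pr_LOCAR (h1 : StFRBR) (h2 : StGEX) (h3 : StGCV) (h4 : StLOC1) (h5 : StLOC2)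
    (h6 : StLOCR) : StLOCAR := by
  intro ι _ _ _ M n1 n2 β C S hS
  obtain ⟨-, hF1, hF2⟩ := h1 ι M n1 n2 β C S hS
  -- the point 1
  have hP1 : ∃ K1 : ℕ, ∀ (R : ℝ) (m : ℕ) (g A w : ℂ → ℂ), IsMap n1 n2 R m g A w → ∀ K ≥ K1,
      ∀ lam : ℤ, ∀ z0 ∈ Metric.ball (0 : ℂ) 1, w z0 = 0 →
      ∃ (ρ : ℝ) (N : ℂ → Matrix ι ι ℂ), LocSol M n1 n2 β C K lam m g A w N z0 ρ := by
    by_cases hn : n1 = 0
    · exact ⟨0, fun R m g A w hm K _ lam z0 hz0 hw => absurd hw (hm.nw hn z0 hz0)⟩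
    · obtain ⟨m, γ, hγ, hC⟩ := hS.h1 hn
      have hA : A1 β C 0 = -C := by simp [A1]
      have hC' : Polynomial.aeval (A1 β C 0)
          (∏ j, (Polynomial.X - Polynomial.C ((fun j => -γ j) j))) = 0 := by
        rw [hA]; exact ILOCA.neg_aeval C m γ hC
      obtain ⟨γ', G, hγ', hG⟩ := h2 ι M (A1 β C) hF1 m (fun j => -γ j) hC'
      obtain ⟨B, -, hB⟩ := h3 ι M (A1 β C) γ' G hS.hM (ILOCA.bdd1 β C) hG
      have hdv : ∀ l, (M : ℤ) ∣ n1 * γ' l := by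
        intro l
        obtain ⟨j, hj⟩ := hγ' l
        rw [hj, mul_neg]
        exact (dvd_neg).mpr (hγ j)
      refine ⟨∑ j, ((n1 : ℤ) * γ' j).natAbs, ?_⟩
      intro R m' g A w hm K hK lam z0 hz0 hw
      exact h4 ι M n1 n2 β C γ' G hS.hM hG ⟨B, hB⟩ hdv R m' g A w hm K
        (fun l => ILOCA.div_le M n1 γ' K hK l) lam z0 hz0 hw
  -- the point at infinity
  have hP2 : ∃ K2 : ℕ, ∀ (R : ℝ) (m : ℕ) (g A w : ℂ → ℂ), IsMap n1 n2 R m g A w → ∀ K ≥ K2,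
      ∀ lam : ℤ, ∀ z0 ∈ Metric.ball (0 : ℂ) 1, A z0 = 0 →
      ∃ (ρ : ℝ) (N : ℂ → Matrix ι ι ℂ), LocSol M n1 n2 β C K lam m g A w N z0 ρ := by
    by_cases hn : n2 = 0
    · exact ⟨0, fun R m g A w hm K _ lam z0 hz0 hA => absurd hA (hm.nA hn z0 hz0)⟩
    · obtain ⟨m, γ, hγ, hC⟩ := hS.h2 hn
      have hA : A2 β C 0 = db ℤ β + C := by simp [A2]
      have hC' : Polynomial.aeval (A2 β C 0)
          (∏ j, (Polynomial.X - Polynomial.C (γ j))) = 0 := by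
        rw [hA]; exact hC
      obtain ⟨γ', G, hγ', hG⟩ := h2 ι M (A2 β C) hF2 m γ hC'
      obtain ⟨B, -, hB⟩ := h3 ι M (A2 β C) γ' G hS.hM (ILOCA.bdd2 β C) hG
      have hdv : ∀ l, (M : ℤ) ∣ n2 * γ' l := by
        intro l
        obtain ⟨j, hj⟩ := hγ' l
        rw [hj]
        exact hγ j
      refine ⟨∑ j, ((n2 : ℤ) * γ' j).natAbs, ?_⟩
      intro R m' g A w hm K hK lam z0 hz0 hA0
      exact h5 ι M n1 n2 β C γ' G hS.hM hG ⟨B, hB⟩ hdv R m' g A w hm K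
        (fun l => ILOCA.div_le M n2 γ' K hK l) lam z0 hz0 hA0
  obtain ⟨K1, hK1⟩ := hP1
  obtain ⟨K2, hK2⟩ := hP2
  refine ⟨K1 + K2, ?_⟩
  intro R m g A w hm K hK lam z0 hz0 hne
  by_cases hA : A z0 = 0
  · exact hK2 R m g A w hm K (by omega) lam z0 hz0 hA
  · by_cases hw : w z0 = 0
    · exact hK1 R m g A w hm K (by omega) lam z0 hz0 hw
    · exact h6 ι M n1 n2 β C R m g A w hm K lam z0 hz0 hne hA hw

end Pool.Agent.Work.MP_5e5ff1_ag.TH
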