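import Mathlib
import Pool.Agent.Work.MP_5e5ff1_ag.TH.StmtsB

set_option autoImplicit false

/-!
# MP_5e5ff1_ag, block TH, item M00: the map of type (0, 0)
-/

open Filter Topology

namespace Pool.Agent.Work.MP_5e5ff1_ag.TH

/-- Item M00. -/
theorem pr_M00 : StM00 := by
  rintro D ⟨g, hg, hz, hD⟩
  have hAne : ∀ z ∈ Metric.ball (0 : ℂ) 1, (z * g z) ^ 2 - 1 ≠ 0 := by
    intro z hzb h
    obtain ⟨-, h1, h2⟩ := hz z hzb
    have h3 : (z * g z - 1) * (z * g z + 1) = 0 := by linear_combination h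
    rcases mul_eq_zero.1 h3 with h4 | h4
    · exact h1 (sub_eq_zero.1 h4)
    · exact h2 (eq_neg_of_add_eq_zero_left h4)
  refine ⟨2, fun z => g z ^ 2, fun z => (z * g z) ^ 2 - 1, fun _ => 1, ?_⟩
  refine ⟨hg.fun_pow 2, ?_, differentiableOn_const 1, two_pos, ?_, ?_, fun _ => hAne,
    fun _ _ _ => one_ne_zero, ?_, ?_⟩
  · exact ((differentiableOn_id.fun_mul hg).fun_pow 2).sub_const 1
  · intro z hzb
    exact pow_ne_zero 2 (hz z hzb).1
  · intro z _
    simp only [e1, if_true, pow_one]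
    ring
  · exact hAne 0 (Metric.mem_ball_self one_pos)
  · simp only [e1, if_true, pow_one, norm_pow, hD, zero_mul]
    norm_num

end Pool.Agent.Work.MP_5e5ff1_ag.TH
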