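import Mathlib
import Pool.Agent.Work.MP_5e5ff1_ag.TH.StmtsZ

set_option autoImplicit false

/-!
# Item M03 of the block TH: the map of type (cusp, 3, cusp)
-/

open Filter Topology
open scoped Polynomial

namespace Pool.Agent.Work.MP_5e5ff1_ag.TH

/-- **item M03** -/
theorem pr_M03 : StM03 := by
  rintro D ⟨n, d, hn, hd, hz, hD⟩
  have hid : DifferentiableOn ℂ (fun z : ℂ => z) (Metric.ball 0 1) := differentiableOn_id
  have hx : DifferentiableOn ℂ (fun z : ℂ => (z * n z) ^ 3) (Metric.ball 0 1) :=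
    (hid.mul hn).pow 3
  have hd0 : d 0 ≠ 0 := by
    intro h
    have h1 := (hz 0 (Metric.mem_ball_self one_pos)).2
    rw [h] at h1
    exact h1 (by ring)
  have e3 : e1 3 = 3 := rfl
  have e0 : e1 0 = 1 := rfl
  refine ⟨3, fun z => n z ^ 3, d, fun z => (z * n z) ^ 3 - d z ^ 3, ?_⟩
  refine ⟨?_, hd, ?_, by norm_num, ?_, ?_, ?_, ?_, hd0, ?_⟩
  · exact hn.pow 3
  · exact hx.sub (hd.pow 3)
  · intro z hzb
    exact pow_ne_zero 3 (hz z hzb).1
  · intro z _
    rw [e3, e0]
    ring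
  · intro h
    exact absurd h (by norm_num)
  · intro _ z hzb h
    exact (hz z hzb).2 (by linear_combination -h)
  · rw [e3, norm_pow, hD]
    have h1 : ‖d 0‖ ≠ 0 := norm_ne_zero_iff.2 hd0
    rw [mul_pow, mul_div_assoc, div_self (pow_ne_zero 3 h1), mul_one]

end Pool.Agent.Work.MP_5e5ff1_ag.TH
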