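import Mathlib
import Pool.Agent.Work.MP_5e5ff1_ag.TH.StmtsB

set_option autoImplicit false

/-!
# Item M23 of the block TH: the map of type (2, 3, cusp)
-/

open Filter Topology

namespace Pool.Agent.Work.MP_5e5ff1_ag.TH

theorem pr_M23 : StM23 := by
  rintro D ⟨g, hg, hz, hD⟩
  have hid : DifferentiableOn ℂ (fun z : ℂ => z) (Metric.ball 0 1) := differentiableOn_id
  have hx : DifferentiableOn ℂ (fun z : ℂ => (z * g z) ^ 2) (Metric.ball 0 1) :=
    (hid.mul hg).pow 2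
  refine ⟨4, fun z => 27 / 4 * g z ^ 4 * (1 - (z * g z) ^ 2) ^ 2,
    fun z => 1 - (z * g z) ^ 2 + ((z * g z) ^ 2) ^ 2,
    fun z => Complex.I * ((1 / 2) * ((1 + (z * g z) ^ 2) * (1 - 2 * (z * g z) ^ 2) *
      (2 - (z * g z) ^ 2))), ?_⟩
  refine ⟨?_, ?_, ?_, by norm_num, ?_, ?_, ?_, ?_, ?_, ?_⟩
  · exact ((hg.pow 4).const_mul (27 / 4)).mul ((hx.const_sub 1).pow 2)
  · exact (hx.const_sub 1).add (hx.pow 2)
  · exact ((((hx.const_add 1).mul ((hx.const_mul 2).const_sub 1)).mul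
      (hx.const_sub 2)).const_mul (1 / 2)).const_mul Complex.I
  · intro z hzb
    obtain ⟨h1, h2, h3⟩ := hz z hzb
    have h4 : 1 - (z * g z) ^ 2 ≠ 0 := by
      intro h
      have h5 : (z * g z - 1) * (z * g z + 1) = 0 := by linear_combination -h
      rcases mul_eq_zero.1 h5 with h6 | h6
      · exact h2 (sub_eq_zero.1 h6)
      · exact h3 (eq_neg_of_add_eq_zero_left h6)
    exact mul_ne_zero (mul_ne_zero (by norm_num) (pow_ne_zero 4 h1)) (pow_ne_zero 2 h4)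
  · intro z _
    have e2 : e1 2 = 2 := rfl
    have e3 : e1 3 = 3 := rfl
    rw [e2, e3]
    have hI : Complex.I ^ 2 = -1 := Complex.I_sq
    rw [mul_pow Complex.I, hI]
    ring
  · intro h
    exact absurd h (by norm_num)
  · intro h
    exact absurd h (by norm_num)
  · norm_num
  · have e3 : e1 3 = 3 := rfl
    rw [e3]
    have h1 : ‖(27 / 4 : ℂ) * g 0 ^ 4 * (1 - ((0 : ℂ) * g 0) ^ 2) ^ 2‖ = 27 / 4 * D ^ 4 := by
      rw [zero_mul, zero_pow (by norm_num), sub_zero, one_pow, mul_one, norm_mul, norm_pow, hD]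
      norm_num
    have h2 : ‖1 - ((0 : ℂ) * g 0) ^ 2 + (((0 : ℂ) * g 0) ^ 2) ^ 2‖ = 1 := by
      rw [zero_mul]
      norm_num
    rw [h1, h2]
    apply le_of_eq
    ring

end Pool.Agent.Work.MP_5e5ff1_ag.TH
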