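import Mathlib
import Pool.Agent.Work.MP_5e5ff1_ag.TH.StmtsZ

set_option autoImplicit false

/-!
# Item M26 of the block TH: the map of type (2, 6, cusp)
-/

open Filter Topology

namespace Pool.Agent.Work.MP_5e5ff1_ag.TH

theorem pr_M26 : StM26 := by
  rintro D ⟨n, d, hn, hd, hz, hD⟩
  have hid : DifferentiableOn ℂ (fun z : ℂ => z) (Metric.ball 0 1) := differentiableOn_id
  have hy : DifferentiableOn ℂ (fun z : ℂ => (z * n z) ^ 3) (Metric.ball 0 1) :=
    (hid.mul hn).pow 3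
  have h00 : (0 : ℂ) ∈ Metric.ball (0 : ℂ) 1 := Metric.mem_ball_self one_pos
  have hd0 : d 0 ≠ 0 := by
    intro h
    apply (hz 0 h00).2
    rw [h]
    ring
  have e2 : e1 2 = 2 := rfl
  have e6 : e1 6 = 6 := rfl
  refine ⟨3, fun z => 4 * n z ^ 3 * (d z ^ 3 - (z * n z) ^ 3), d,
    fun z => Complex.I * (2 * (z * n z) ^ 3 - d z ^ 3), ?_⟩
  refine ⟨?_, hd, ?_, by norm_num, ?_, ?_, ?_, ?_, hd0, ?_⟩
  · exact ((hn.pow 3).const_mul 4).mul ((hd.pow 3).sub hy)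
  · exact ((hy.const_mul 2).sub (hd.pow 3)).const_mul Complex.I
  · intro z hzb
    obtain ⟨h1, h2⟩ := hz z hzb
    exact mul_ne_zero (mul_ne_zero (by norm_num) (pow_ne_zero 3 h1)) h2
  · intro z _
    rw [e2, e6]
    have hI : Complex.I ^ 2 = -1 := Complex.I_sq
    rw [mul_pow Complex.I, hI]
    ring
  · intro h
    exact absurd h (by norm_num)
  · intro h
    exact absurd h (by norm_num)
  · rw [e6]
    have h1 : ‖(4 : ℂ) * n 0 ^ 3 * (d 0 ^ 3 - ((0 : ℂ) * n 0) ^ 3)‖ =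
        4 * (D * ‖d 0‖) ^ 3 * ‖d 0‖ ^ 3 := by
      rw [zero_mul, zero_pow (by norm_num), sub_zero, norm_mul, norm_mul, norm_pow, norm_pow, hD]
      norm_num
    rw [h1]
    have h2 : ‖d 0‖ ≠ 0 := norm_ne_zero_iff.mpr hd0
    apply le_of_eq
    field_simp

end Pool.Agent.Work.MP_5e5ff1_ag.TH
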