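import Mathlib
import Pool.Agent.Work.MP_5e5ff1_ag.TH.StmtsZ

set_option autoImplicit false

/-!
# Item M33 of the block TH: the map of type (3, 3, cusp)
-/

open Filter Topology

namespace Pool.Agent.Work.MP_5e5ff1_ag.TH

namespace IM33

/-- the norm of a square root of `-3` -/
lemma norm_s (s : ℂ) (h : s ^ 2 = -3) : ‖s‖ = Real.sqrt 3 := by
  have h1 : ‖s‖ ^ 2 = 3 := by
    rw [← norm_pow, h, norm_neg]
    norm_num
  rw [← h1, Real.sqrt_sq (norm_nonneg s)]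

/-- the norm of a primitive cube root of unity -/
lemma norm_om (s : ℂ) (h : s ^ 2 = -3) : ‖(-1 + s) / 2‖ = 1 := by
  have h1 : ((-1 + s) / 2) ^ 3 = 1 := by
    linear_combination (-3 / 8 + s / 8) * h
  have h2 : ‖(-1 + s) / 2‖ ^ 3 = 1 := by
    rw [← norm_pow, h1, norm_one]
  exact (pow_eq_one_iff_of_nonneg (norm_nonneg _) (by norm_num)).1 h2

end IM33

open IM33 in
theorem pr_M33 : StM33 := by
  rintro D ⟨g, hg, hz, hD⟩
  have hid : DifferentiableOn ℂ (fun z : ℂ => z) (Metric.ball 0 1) := differentiableOn_id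
  have hx : DifferentiableOn ℂ (fun z : ℂ => (z * g z) ^ 2) (Metric.ball 0 1) :=
    (hid.mul hg).pow 2
  have hne : ∀ z ∈ Metric.ball (0 : ℂ) 1, (z * g z) ^ 2 - 1 ≠ 0 := by
    intro z hzb h
    obtain ⟨h1, h2, h3⟩ := hz z hzb
    have h5 : (z * g z - 1) * (z * g z + 1) = 0 := by linear_combination h
    rcases mul_eq_zero.1 h5 with h6 | h6
    · exact h2 (sub_eq_zero.1 h6)
    · exact h3 (eq_neg_of_add_eq_zero_left h6)
  obtain ⟨s, hs⟩ := IsAlgClosed.exists_pow_nat_eq (-3 : ℂ) (n := 2) (by norm_num)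
  have hns := norm_s s hs
  have hno := norm_om s hs
  have e3 : e1 3 = 3 := rfl
  have hs0 : s ≠ 0 := by
    intro h
    rw [h] at hs
    norm_num at hs
  refine ⟨2, fun z => 3 * s * ((z * g z) ^ 2 - 1) * g z ^ 2,
    fun z => (z * g z) ^ 2 + (-1 + s) / 2, fun z => -((z * g z) ^ 2 + (-1 - s) / 2), ?_⟩
  refine ⟨?_, ?_, ?_, by norm_num, ?_, ?_, ?_, ?_, ?_, ?_⟩
  · exact ((hx.sub_const 1).const_mul (3 * s)).mul (hg.pow 2)
  · exact hx.add_const _
  · exact (hx.add_const _).neg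
  · intro z hzb
    obtain ⟨h1, -, -⟩ := hz z hzb
    exact mul_ne_zero (mul_ne_zero (mul_ne_zero (by norm_num) hs0) (hne z hzb)) (pow_ne_zero 2 h1)
  · intro z _
    rw [e3]
    show z ^ 2 * (3 * s * ((z * g z) ^ 2 - 1) * g z ^ 2) - ((z * g z) ^ 2 + (-1 + s) / 2) ^ 3 =
      (-((z * g z) ^ 2 + (-1 - s) / 2)) ^ 3
    linear_combination (-s / 4) * hs
  · intro h
    exact absurd h (by norm_num)
  · intro h
    exact absurd h (by norm_num)
  · intro h
    have h' : ((-1 + s) / 2 : ℂ) = 0 := by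
      have : ((0 : ℂ) * g 0) ^ 2 + (-1 + s) / 2 = 0 := h
      simpa using this
    rw [h', norm_zero] at hno
    norm_num at hno
  · show 3 * Real.sqrt 3 * D ^ 2 ≤ ‖3 * s * (((0 : ℂ) * g 0) ^ 2 - 1) * g 0 ^ 2‖ /
      ‖((0 : ℂ) * g 0) ^ 2 + (-1 + s) / 2‖ ^ e1 3
    have h1 : ((0 : ℂ) * g 0) ^ 2 = 0 := by ring
    rw [e3, h1, zero_add, hno, zero_sub, one_pow, div_one, norm_mul, norm_mul, norm_mul, norm_pow,
      hD, hns, norm_neg, norm_one]
    apply le_of_eq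
    norm_num

end Pool.Agent.Work.MP_5e5ff1_ag.TH
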