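import Mathlib
import Pool.Agent.Work.MP_5e5ff1_ag.TH.StmtsB

set_option autoImplicit false

/-!
# Item M44 of the block TH: the map of type (4, 4, cusp)
-/

open Filter Topology

namespace Pool.Agent.Work.MP_5e5ff1_ag.TH

namespace IM44

/-- the norm of `1 + κ` for a square root `κ` of `-1` -/
lemma norm_four (κ : ℂ) (h : κ ^ 2 = -1) : ‖κ + 1‖ ^ 4 = 4 := by
  have h1 : (κ + 1) ^ 4 = -4 := by
    have h2 : (κ + 1) ^ 2 = 2 * κ := by linear_combination h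
    calc (κ + 1) ^ 4 = ((κ + 1) ^ 2) ^ 2 := by ring
      _ = 4 * κ ^ 2 := by rw [h2]; ring
      _ = -4 := by rw [h]; ring
  rw [← norm_pow, h1, norm_neg]
  norm_num

lemma norm_kap (κ : ℂ) (h : κ ^ 2 = -1) : ‖κ‖ = 1 := by
  have h1 : ‖κ‖ ^ 2 = 1 := by rw [← norm_pow, h]; simp
  have h2 := norm_nonneg κ
  nlinarith

end IM44

open IM44 in
theorem pr_M44 (h0 : TG.StSqr) : StM44 := by
  rintro D ⟨g, hg, hz, hD⟩
  have hid : DifferentiableOn ℂ (fun z : ℂ => z) (Metric.ball 0 1) := differentiableOn_id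
  have hx : DifferentiableOn ℂ (fun z : ℂ => (z * g z) ^ 2 - 1) (Metric.ball 0 1) :=
    ((hid.mul hg).pow 2).sub_const 1
  have hne : ∀ z ∈ Metric.ball (0 : ℂ) 1, (z * g z) ^ 2 - 1 ≠ 0 := by
    intro z hzb h
    obtain ⟨h1, h2, h3⟩ := hz z hzb
    have h5 : (z * g z - 1) * (z * g z + 1) = 0 := by linear_combination h
    rcases mul_eq_zero.1 h5 with h6 | h6
    · exact h2 (sub_eq_zero.1 h6)
    · exact h3 (eq_neg_of_add_eq_zero_left h6)
  obtain ⟨κ, hκ, hκ2, hκ0⟩ := h0 (fun z : ℂ => (z * g z) ^ 2 - 1) Complex.I hx hne (by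
    simp [Complex.I_sq])
  obtain ⟨ζ, hζ⟩ := IsAlgClosed.exists_pow_nat_eq (-1 : ℂ) (n := 4) (by norm_num)
  have hb0 : (0 : ℂ) ∈ Metric.ball (0 : ℂ) 1 := Metric.mem_ball_self one_pos
  have hκ00 : κ 0 ^ 2 = -1 := by
    rw [hκ2 0 hb0]
    simp
  have e4 : e1 4 = 4 := rfl
  have h4 := norm_four (κ 0) hκ00
  refine ⟨2, fun z => 8 * κ z * g z ^ 2, fun z => κ z + 1, fun z => ζ * (κ z - 1), ?_⟩
  refine ⟨?_, ?_, ?_, by norm_num, ?_, ?_, ?_, ?_, ?_, ?_⟩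
  · exact (hκ.const_mul 8).mul (hg.pow 2)
  · exact hκ.add_const 1
  · exact (hκ.sub_const 1).const_mul ζ
  · intro z hzb
    obtain ⟨h1, -, -⟩ := hz z hzb
    have h2 : κ z ≠ 0 := by
      intro h
      apply hne z hzb
      rw [← hκ2 z hzb, h]
      ring
    exact mul_ne_zero (mul_ne_zero (by norm_num) h2) (pow_ne_zero 2 h1)
  · intro z hzb
    rw [e4, mul_pow, hζ]
    have h2 : κ z ^ 2 = (z * g z) ^ 2 - 1 := hκ2 z hzb
    have h3 : z ^ 2 * (8 * κ z * g z ^ 2) = 8 * κ z * (κ z ^ 2 + 1) := by rw [h2]; ring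
    show z ^ 2 * (8 * κ z * g z ^ 2) - (κ z + 1) ^ 4 = -1 * (κ z - 1) ^ 4
    rw [h3]
    ring
  · intro h
    exact absurd h (by norm_num)
  · intro h
    exact absurd h (by norm_num)
  · intro h
    rw [h, norm_zero] at h4
    norm_num at h4
  · show 2 * D ^ 2 ≤ ‖8 * κ 0 * g 0 ^ 2‖ / ‖κ 0 + 1‖ ^ e1 4
    rw [e4, h4, norm_mul, norm_mul, norm_pow, hD, IM44.norm_kap (κ 0) hκ00]
    apply le_of_eq
    norm_num
    ring

end Pool.Agent.Work.MP_5e5ff1_ag.TH
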