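import Mathlib
import Pool.Agent.Work.MP_5e5ff1_ag.TH.StmtsZ

set_option autoImplicit false

/-!
# Item M66 of the block TH: the map of type (6, 6, cusp)
-/

open Filter Topology

namespace Pool.Agent.Work.MP_5e5ff1_ag.TH

namespace IM66

lemma sq_ball {z : ℂ} (hz : z ∈ Metric.ball (0 : ℂ) 1) : z ^ 2 ∈ Metric.ball (0 : ℂ) 1 := by
  rw [mem_ball_zero_iff] at hz ⊢
  rw [norm_pow]
  have := norm_nonneg z
  nlinarith

lemma comp_sq {f : ℂ → ℂ} (hf : DifferentiableOn ℂ f (Metric.ball 0 1)) :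
    DifferentiableOn ℂ (fun z : ℂ => f (z ^ 2)) (Metric.ball 0 1) := by
  have hid : DifferentiableOn ℂ (fun z : ℂ => z ^ 2) (Metric.ball 0 1) :=
    (differentiable_id.pow 2).differentiableOn
  exact hf.comp hid (fun z hz => sq_ball hz)

end IM66

open IM66 in
theorem pr_M66 (h1 : StRTP) (h0 : TG.StSqr) : StM66 := by
  rintro D ⟨n, d, hn, hd, hz, hD⟩
  have hb0 : (0 : ℂ) ∈ Metric.ball (0 : ℂ) 1 := Metric.mem_ball_self one_pos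
  have hn2 := comp_sq hn
  have hd2 := comp_sq hd
  have hid : DifferentiableOn ℂ (fun z : ℂ => z) (Metric.ball 0 1) := differentiableOn_id
  have hd0 : d 0 ≠ 0 := by
    intro h
    apply (hz 0 hb0).2
    rw [h]; ring
  have hn0 : n 0 ≠ 0 := (hz 0 hb0).1
  -- the square root
  have hfd : DifferentiableOn ℂ
      (fun z : ℂ => n (z ^ 2) ^ 3 * (d (z ^ 2) ^ 3 - (z ^ 2 * n (z ^ 2)) ^ 3)) (Metric.ball 0 1) :=
    (hn2.pow 3).mul ((hd2.pow 3).sub (((hid.pow 2).mul hn2).pow 3))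
  have hfn : ∀ z ∈ Metric.ball (0 : ℂ) 1,
      n (z ^ 2) ^ 3 * (d (z ^ 2) ^ 3 - (z ^ 2 * n (z ^ 2)) ^ 3) ≠ 0 := by
    intro z hzb
    obtain ⟨ha, hb⟩ := hz (z ^ 2) (sq_ball hzb)
    exact mul_ne_zero (pow_ne_zero 3 ha) hb
  obtain ⟨c, hc⟩ := IsAlgClosed.exists_pow_nat_eq
    (n ((0 : ℂ) ^ 2) ^ 3 * (d ((0 : ℂ) ^ 2) ^ 3 - ((0 : ℂ) ^ 2 * n ((0 : ℂ) ^ 2)) ^ 3)) (n := 2)
    (by norm_num)
  obtain ⟨ρ, hρ, hρ2, -⟩ := h0 _ c hfd hfn hc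
  have hρn : ∀ z ∈ Metric.ball (0 : ℂ) 1, ρ z ≠ 0 := by
    intro z hzb h
    apply hfn z hzb
    have := hρ2 z hzb
    rw [h] at this
    rw [← this]; ring
  have hI : Complex.I ^ 2 = -1 := Complex.I_sq
  -- the functions P and Q
  have hPd : DifferentiableOn ℂ (fun z : ℂ => 2 * (z ^ 3 * ρ z) +
      Complex.I * (2 * (z ^ 2 * n (z ^ 2)) ^ 3 - d (z ^ 2) ^ 3)) (Metric.ball 0 1) :=
    (((hid.pow 3).mul hρ).const_mul 2).add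
      (((((hid.pow 2).mul hn2).pow 3).const_mul 2 |>.sub (hd2.pow 3)).const_mul Complex.I)
  have hQd : DifferentiableOn ℂ (fun z : ℂ => 2 * (z ^ 3 * ρ z) -
      Complex.I * (2 * (z ^ 2 * n (z ^ 2)) ^ 3 - d (z ^ 2) ^ 3)) (Metric.ball 0 1) :=
    (((hid.pow 3).mul hρ).const_mul 2).sub
      (((((hid.pow 2).mul hn2).pow 3).const_mul 2 |>.sub (hd2.pow 3)).const_mul Complex.I)
  have hu : ∀ z ∈ Metric.ball (0 : ℂ) 1, (z ^ 3 * ρ z) ^ 2 =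
      (z ^ 2 * n (z ^ 2)) ^ 3 * (d (z ^ 2) ^ 3 - (z ^ 2 * n (z ^ 2)) ^ 3) := by
    intro z hzb
    have := hρ2 z hzb
    rw [mul_pow, this]; ring
  have hPQ : ∀ z ∈ Metric.ball (0 : ℂ) 1,
      (2 * (z ^ 3 * ρ z) + Complex.I * (2 * (z ^ 2 * n (z ^ 2)) ^ 3 - d (z ^ 2) ^ 3)) *
      (2 * (z ^ 3 * ρ z) - Complex.I * (2 * (z ^ 2 * n (z ^ 2)) ^ 3 - d (z ^ 2) ^ 3)) =
        d (z ^ 2) ^ 6 := by
    intro z hzb
    have e := hu z hzb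
    linear_combination 4 * e - (2 * (z ^ 2 * n (z ^ 2)) ^ 3 - d (z ^ 2) ^ 3) ^ 2 * hI
  have hcom : ∀ z ∈ Metric.ball (0 : ℂ) 1,
      2 * (z ^ 3 * ρ z) + Complex.I * (2 * (z ^ 2 * n (z ^ 2)) ^ 3 - d (z ^ 2) ^ 3) = 0 →
      2 * (z ^ 3 * ρ z) - Complex.I * (2 * (z ^ 2 * n (z ^ 2)) ^ 3 - d (z ^ 2) ^ 3) = 0 →
        False := by
    intro z hzb hP hQ
    have h3 : z ^ 3 * ρ z = 0 := by linear_combination (1 / 4) * hP + (1 / 4) * hQ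
    rcases mul_eq_zero.1 h3 with h4 | h4
    · have h5 : z = 0 := by
        by_contra hne
        exact pow_ne_zero 3 hne h4
      subst h5
      have h6 : Complex.I * d 0 ^ 3 = 0 := by
        have := hP
        norm_num at this
        tauto
      exact mul_ne_zero Complex.I_ne_zero (pow_ne_zero 3 hd0) h6
    · exact hρn z hzb h4
  have hP0 : 2 * ((0 : ℂ) ^ 3 * ρ 0) + Complex.I * (2 * ((0 : ℂ) ^ 2 * n ((0 : ℂ) ^ 2)) ^ 3 -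
      d ((0 : ℂ) ^ 2) ^ 3) = - (Complex.I * d 0 ^ 3) := by
    norm_num
  have hQ0 : 2 * ((0 : ℂ) ^ 3 * ρ 0) - Complex.I * (2 * ((0 : ℂ) ^ 2 * n ((0 : ℂ) ^ 2)) ^ 3 -
      d ((0 : ℂ) ^ 2) ^ 3) = Complex.I * d 0 ^ 3 := by
    norm_num
  have hId : Complex.I * d 0 ^ 3 ≠ 0 := mul_ne_zero Complex.I_ne_zero (pow_ne_zero 3 hd0)
  obtain ⟨w, hw, hw6⟩ := h1 _ _ (fun z => d (z ^ 2)) 6 (by norm_num) hPd hQd hd2 hPQ
    (fun z hzb hP hQ => hcom z hzb hP hQ) (by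
      show 2 * ((0 : ℂ) ^ 3 * ρ 0) + Complex.I * (2 * ((0 : ℂ) ^ 2 * n ((0 : ℂ) ^ 2)) ^ 3 -
      d ((0 : ℂ) ^ 2) ^ 3) ≠ 0
      rw [hP0]
      exact neg_ne_zero.2 hId)
  obtain ⟨A, hA, hA6⟩ := h1 _ _ (fun z => d (z ^ 2)) 6 (by norm_num) hQd hPd hd2
    (fun z hzb => by
      have := hPQ z hzb
      rw [mul_comm] at this
      exact this)
    (fun z hzb hQ hP => hcom z hzb hP hQ) (by
      show 2 * ((0 : ℂ) ^ 3 * ρ 0) - Complex.I * (2 * ((0 : ℂ) ^ 2 * n ((0 : ℂ) ^ 2)) ^ 3 -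
      d ((0 : ℂ) ^ 2) ^ 3) ≠ 0
      rw [hQ0]
      exact hId)
  have e6 : e1 6 = 6 := rfl
  have hA0 : A 0 ^ 6 = Complex.I * d 0 ^ 3 := by
    have := hA6 0 hb0
    rw [this]
    exact hQ0
  have hA00 : A 0 ≠ 0 := by
    intro h
    rw [h] at hA0
    apply hId
    rw [← hA0]
    norm_num
  refine ⟨3, fun z => 4 * ρ z, A, w, ?_⟩
  refine ⟨hρ.const_mul 4, hA, hw, by norm_num, ?_, ?_, ?_, ?_, hA00, ?_⟩
  · intro z hzb
    exact mul_ne_zero (by norm_num) (hρn z hzb)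
  · intro z hzb
    rw [e6, hw6 z hzb, hA6 z hzb]
    ring
  · intro h
    exact absurd h (by norm_num)
  · intro h
    exact absurd h (by norm_num)
  · have hdn : 0 < ‖d 0‖ := norm_pos_iff.2 hd0
    have hnn : 0 < ‖n 0‖ := norm_pos_iff.2 hn0
    have hDp : 0 < D := by
      by_contra hneg
      have : D * ‖d 0‖ ≤ 0 := mul_nonpos_of_nonpos_of_nonneg (not_lt.1 hneg) hdn.le
      linarith
    have hρ0 : ‖ρ 0‖ = Real.sqrt (D ^ 3) * ‖d 0‖ ^ 3 := by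
      have h2 := hρ2 0 hb0
      have h3 : ρ 0 ^ 2 = n 0 ^ 3 * d 0 ^ 3 := by
        rw [h2]; norm_num
      have h4 : ‖ρ 0‖ ^ 2 = (Real.sqrt (D ^ 3) * ‖d 0‖ ^ 3) ^ 2 := by
        rw [← norm_pow, h3, norm_mul, norm_pow, norm_pow, hD, mul_pow, mul_pow (Real.sqrt _),
          Real.sq_sqrt (pow_pos hDp 3).le]
        ring
      have h5 : 0 ≤ Real.sqrt (D ^ 3) * ‖d 0‖ ^ 3 := by positivity
      exact (pow_left_inj₀ (norm_nonneg _) h5 (by norm_num)).1 h4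
    have hAn : ‖A 0‖ ^ 6 = ‖d 0‖ ^ 3 := by
      rw [← norm_pow, hA0, norm_mul, norm_pow, Complex.norm_I, one_mul]
    show 4 * Real.sqrt (D ^ 3) ≤ ‖4 * ρ 0‖ / ‖A 0‖ ^ e1 6
    rw [e6, hAn, norm_mul, hρ0]
    apply le_of_eq
    rw [eq_div_iff (by positivity)]
    norm_num
    ring

end Pool.Agent.Work.MP_5e5ff1_ag.TH
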