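import Mathlib
import Pool.Agent.Work.MP_5e5ff1_ag.TH.StmtsG

set_option autoImplicit false

/-!
# MP_5e5ff1_ag, block TH, item MDG: the local estimate without hypotheses
-/

open Matrix Filter Topology NumberField
open scoped Polynomial

namespace Pool.Agent.Work.MP_5e5ff1_ag.TH

namespace IMDG

theorem LS_eq (p M B n : ℕ) : LS p M B n = LSJ p M B 1 n := rfl

/-- the bound for large `n` -/
theorem large (hGRM : StGRM) (M p B v s : ℕ) (hM : 0 < M) (hp : p.Prime) (κ : ℝ)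
    (hκ : (v : ℝ) + (s : ℝ) / ((p : ℝ) - 1) ≤ κ) (ε : ℝ) (hε : 0 < ε) :
    ∃ N0 : ℕ, ∀ n ≥ N0, v * n + s * LS p M B n ≤ ⌈(κ + ε) * n⌉₊ := by
  have hp1 : (1 : ℝ) < p := by exact_mod_cast hp.one_lt
  have hlog : 0 < Real.log p := Real.log_pos hp1
  have hs : (0 : ℝ) < (s : ℝ) + 1 := by positivity
  obtain ⟨N0, hN0⟩ := hGRM M p B 1 hM hp (ε * Real.log p / (s + 1)) (by positivity)
  refine ⟨N0, fun n hn => ?_⟩
  have h1 := hN0 n hn
  rw [← LS_eq] at h1
  have h2 : (LS p M B n : ℝ) ≤ n * (1 / ((p : ℝ) - 1)) + ε / (s + 1) * n := by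
    have h3 : (LS p M B n : ℝ) * Real.log p ≤
        (n * (1 / ((p : ℝ) - 1)) + ε / (s + 1) * n) * Real.log p := by
      refine h1.trans (le_of_eq ?_)
      ring
    exact le_of_mul_le_mul_right h3 hlog
  have h4 : (s : ℝ) * (ε / (s + 1)) ≤ ε := by
    rw [mul_div_assoc', div_le_iff₀ hs]
    nlinarith
  have hn0 : (0 : ℝ) ≤ n := Nat.cast_nonneg n
  have h5 : ((v * n + s * LS p M B n : ℕ) : ℝ) ≤ (κ + ε) * n := by
    push_cast
    have h6 : (s : ℝ) * LS p M B n ≤ s * (n * (1 / ((p : ℝ) - 1)) + ε / (s + 1) * n) :=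
      mul_le_mul_of_nonneg_left h2 (Nat.cast_nonneg s)
    have h7 : (s : ℝ) * (ε / (s + 1)) * n ≤ ε * n := mul_le_mul_of_nonneg_right h4 hn0
    have h8 : ((v : ℝ) + (s : ℝ) / ((p : ℝ) - 1)) * n ≤ κ * n :=
      mul_le_mul_of_nonneg_right hκ hn0
    have h9 : (s : ℝ) * (n * (1 / ((p : ℝ) - 1)) + ε / (s + 1) * n) =
        (s : ℝ) / ((p : ℝ) - 1) * n + (s : ℝ) * (ε / (s + 1)) * n := by ring
    rw [h9] at h6
    nlinarith
  have h10 : ((v * n + s * LS p M B n : ℕ) : ℝ) ≤ (⌈(κ + ε) * n⌉₊ : ℝ) := h5.trans (Nat.le_ceil _)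
  exact_mod_cast h10

end IMDG

open IMDG

theorem pr_MDG (hMOD : StMOD) (hGRM : StGRM) : StMDG := by
  intro p hpf ι _ _ M β C U hM hU hβ κ hκ ε hε
  set B : ℕ := ∑ i, ∑ j, (β i - β j).natAbs with hB
  have hBb : ∀ i j, |β i - β j| ≤ B := by
    intro i j
    have h1 : (β i - β j).natAbs ≤ B := by
      refine le_trans ?_ (Finset.single_le_sum
        (f := fun i => ∑ j, (β i - β j).natAbs) (fun _ _ => Nat.zero_le _) (Finset.mem_univ i))
      exact Finset.single_le_sum (f := fun j => (β i - β j).natAbs)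
        (fun _ _ => Nat.zero_le _) (Finset.mem_univ j)
    rw [Int.abs_eq_natAbs]
    exact_mod_cast h1
  obtain ⟨N0, hN0⟩ := large hGRM M p B (M.factorization p) (spc p M β) hM hpf.out κ hκ ε hε
  refine ⟨∑ n ∈ Finset.range N0, (M.factorization p * n + spc p M β * LS p M B n),
    fun n i j => ?_⟩
  refine (hMOD p ι M β C U hM hU hβ B hBb n i j).trans ?_
  have hp1 : (1 : ℚ) ≤ p := by exact_mod_cast hpf.out.one_lt.le
  refine pow_le_pow_right₀ hp1 ?_
  by_cases hn : n < N0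
  · have h1 : M.factorization p * n + spc p M β * LS p M B n ≤
        ∑ n ∈ Finset.range N0, (M.factorization p * n + spc p M β * LS p M B n) :=
      Finset.single_le_sum
        (f := fun n => M.factorization p * n + spc p M β * LS p M B n)
        (fun _ _ => Nat.zero_le _) (Finset.mem_range.2 hn)
    omega
  · have h1 := hN0 n (by omega)
    omega

end Pool.Agent.Work.MP_5e5ff1_ag.TH
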