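import Mathlib
import Pool.Agent.Work.MP_5e5ff1_ag.TH.StmtsX

set_option autoImplicit false

/-!
# MP_5e5ff1_ag, block TH, item MODN: every prime, diagonal residue, resonance allowed
-/

open Matrix Filter Topology NumberField
open scoped Polynomial nonZeroDivisors

namespace Pool.Agent.Work.MP_5e5ff1_ag.TH

namespace IMODN

/-- inverse of the norm of an integer -/
theorem inv_norm (p : ℕ) [Fact p.Prime] {z : ℤ} (hz : z ≠ 0) :
    (padicNorm p (z : ℚ))⁻¹ = (p : ℚ) ^ (padicValInt p z) := by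
  have hz' : (z : ℚ) ≠ 0 := by exact_mod_cast hz
  rw [padicNorm.eq_zpow_of_nonzero hz', padicValRat.of_int, _root_.zpow_neg, inv_inv,
    _root_.zpow_natCast]

theorem one_le_inv (p : ℕ) [Fact p.Prime] {z : ℤ} (hz : z ≠ 0) :
    (1 : ℚ) ≤ (padicNorm p (z : ℚ))⁻¹ := by
  rw [inv_norm p hz]
  have hp : (1 : ℚ) ≤ p := by exact_mod_cast (Fact.out : p.Prime).one_le
  exact one_le_pow₀ hp

theorem norm_pow (p : ℕ) [hp : Fact p.Prime] (k : ℕ) :
    padicNorm p ((p : ℚ) ^ k) = ((p : ℚ) ^ k)⁻¹ := by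
  induction k with
  | zero => simp
  | succ k ih => rw [pow_succ, padicNorm.mul, ih, padicNorm.padicNorm_p_of_prime, mul_inv]

/-- the bounding function -/
noncomputable def g (p k M' : ℕ) (T : Finset ℤ) (δ : ℤ → ℤ) (B0 n : ℕ) : ℚ :=
  (p : ℚ) ^ (k * n) *
    ∏ c ∈ T, ∏ m ∈ Finset.Ioc B0 n, (padicNorm p (((M' : ℤ) * (m : ℤ) + δ c : ℤ) : ℚ))⁻¹

theorem g_succ (p k M' : ℕ) (T : Finset ℤ) (δ : ℤ → ℤ) (B0 n : ℕ) (hn : B0 ≤ n) :
    g p k M' T δ B0 (n + 1) = g p k M' T δ B0 n * ((p : ℚ) ^ k *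
      ∏ c ∈ T, (padicNorm p (((M' : ℤ) * ((n + 1 : ℕ) : ℤ) + δ c : ℤ) : ℚ))⁻¹) := by
  unfold g
  have e : ∏ c ∈ T, ∏ m ∈ Finset.Ioc B0 (n + 1),
      (padicNorm p (((M' : ℤ) * (m : ℤ) + δ c : ℤ) : ℚ))⁻¹ =
      (∏ c ∈ T, ∏ m ∈ Finset.Ioc B0 n, (padicNorm p (((M' : ℤ) * (m : ℤ) + δ c : ℤ) : ℚ))⁻¹) *
      ∏ c ∈ T, (padicNorm p (((M' : ℤ) * ((n + 1 : ℕ) : ℤ) + δ c : ℤ) : ℚ))⁻¹ := by
    rw [← Finset.prod_mul_distrib]
    refine Finset.prod_congr rfl fun c _ => ?_
    have e1 : Finset.Ioc B0 (n + 1) = insert (n + 1) (Finset.Ioc B0 n) := by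
      ext m
      rw [Finset.mem_insert, Finset.mem_Ioc, Finset.mem_Ioc]
      omega
    rw [e1, Finset.prod_insert (by rw [Finset.mem_Ioc]; omega), mul_comm]
  rw [e, Nat.mul_succ, pow_add]
  ring

theorem g_small (p k M' : ℕ) (T : Finset ℤ) (δ : ℤ → ℤ) (B0 n : ℕ) (hn : n ≤ B0) :
    g p k M' T δ B0 n = (p : ℚ) ^ (k * n) := by
  unfold g
  rw [Finset.Ioc_eq_empty (by omega)]
  simp

theorem one_le_prod (p M' : ℕ) [Fact p.Prime] (T : Finset ℤ) (δ : ℤ → ℤ) (n : ℕ)
    (h : ∀ c ∈ T, (M' : ℤ) * ((n + 1 : ℕ) : ℤ) + δ c ≠ 0) :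
    1 ≤ ∏ c ∈ T, (padicNorm p (((M' : ℤ) * ((n + 1 : ℕ) : ℤ) + δ c : ℤ) : ℚ))⁻¹ := by
  classical
  induction T using Finset.induction_on with
  | empty => rw [Finset.prod_empty]
  | insert a s ha ih =>
    rw [Finset.prod_insert ha]
    exact one_le_mul_of_one_le_of_one_le (one_le_inv p (h a (Finset.mem_insert_self a s)))
      (ih fun c hc => h c (Finset.mem_insert_of_mem hc))

theorem LS_mono (p M B : ℕ) {m n : ℕ} (h : m ≤ n) : LS p M B m ≤ LS p M B n := by
  unfold LS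
  have h1 : Nat.log p (M * m + B) ≤ Nat.log p (M * n + B) :=
    Nat.log_mono_right (Nat.add_le_add_right (Nat.mul_le_mul_left _ h) _)
  refine (Finset.sum_le_sum_of_subset (Finset.Icc_subset_Icc_right h1)).trans ?_
  exact Finset.sum_le_sum fun l _ => Nat.add_le_add_right (Nat.div_le_div_right h) _

/-- the ultrametric recursion for `IsW` -/
theorem rec (p : ℕ) [Fact p.Prime] {ι : Type} [Fintype ι] [DecidableEq ι]
    (M : ℕ) (β : ι → ℤ) (C : Matrix ι ι ℤ) (W : ℕ → Matrix ι ι ℚ)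
    (hW : IsW M β (qm (db ℤ β)) (qm C) W) (B0 : ℕ)
    (hint : ∀ k ≤ B0, ∀ i j, ∃ z : ℤ, W k i j = z) (j : ι) (g : ℕ → ℚ) (hg1 : ∀ n, 1 ≤ g n)
    (hmono : Monotone g)
    (hstep : ∀ (n : ℕ) (i : ι), B0 ≤ n → g n ≤ padicNorm p
      (((M : ℤ) * ((n + 1 : ℕ) : ℤ) + (β j - β i) : ℤ) : ℚ) * g (n + 1)) :
    ∀ (n : ℕ) (i : ι), padicNorm p (W n i j) ≤ g n := by
  intro n
  induction n using Nat.strong_induction_on with
  | _ n ih =>
    intro i
    rcases Nat.lt_or_ge B0 n with hn | hn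
    · obtain ⟨m, rfl⟩ : ∃ m, n = m + 1 := ⟨n - 1, by omega⟩
      have hgn : 1 ≤ g m := hg1 m
      have hsum : padicNorm p (∑ k ∈ Finset.range (m + 1), (qm C * W k) i j) ≤ g m := by
        apply padicNorm.sum_le' _ (by linarith)
        intro k hk
        rw [Finset.mem_range] at hk
        rw [Matrix.mul_apply]
        apply padicNorm.sum_le' _ (by linarith)
        intro l _
        rw [padicNorm.mul]
        have h1 : padicNorm p ((Int.castRingHom ℚ) (C i l)) ≤ 1 := padicNorm.of_int (C i l)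
        have h2 : padicNorm p (W k l j) ≤ g m :=
          (ih k hk l).trans (hmono (by omega))
        change padicNorm p ((Int.castRingHom ℚ) (C i l)) * padicNorm p (W k l j) ≤ g m
        calc padicNorm p ((Int.castRingHom ℚ) (C i l)) * padicNorm p (W k l j)
            ≤ 1 * g m := mul_le_mul h1 h2 (padicNorm.nonneg _) zero_le_one
          _ = g m := one_mul _
      have heq := hW (m + 1) i j
      have hdb : (qm (db ℤ β) * W (m + 1)) i j = (β i : ℚ) * W (m + 1) i j := by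
        have e1 : qm (db ℤ β) = Matrix.diagonal fun i => ((β i : ℤ) : ℚ) := by
          unfold qm db
          rw [Matrix.diagonal_map (map_zero _)]
          congr 1
        rw [e1, Matrix.diagonal_mul]
      rw [hdb] at heq
      have h4 : padicNorm p (((M : ℤ) * ((m + 1 : ℕ) : ℤ) + (β j - β i) : ℤ) : ℚ) *
          padicNorm p (W (m + 1) i j) ≤ g m := by
        rw [← padicNorm.mul]
        have e : ((((M : ℤ) * ((m + 1 : ℕ) : ℤ) + (β j - β i) : ℤ) : ℚ)) * W (m + 1) i j =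
            -(∑ k ∈ Finset.range (m + 1), (qm C * W k) i j) := by
          push_cast at heq ⊢
          linarith
        rw [e, padicNorm.neg]
        exact hsum
      have h5 := hstep m i (by omega)
      have hpos : 0 < padicNorm p (((M : ℤ) * ((m + 1 : ℕ) : ℤ) + (β j - β i) : ℤ) : ℚ) := by
        rcases (padicNorm.nonneg (p := p)
          (((M : ℤ) * ((m + 1 : ℕ) : ℤ) + (β j - β i) : ℤ) : ℚ)).lt_or_eq with h | h
        · exact h
        · rw [← h, zero_mul] at h5
          linarith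
      exact le_of_mul_le_mul_left (h4.trans h5) hpos
    · obtain ⟨z, hz⟩ := hint n hn i j
      rw [hz]
      exact (padicNorm.of_int z).trans (hg1 n)

end IMODN

open IMODN in
/-- **item MODN**: every prime, diagonal residue `b`. -/
theorem pr_MODN (hC : StCN1) : StMODN := by
  intro p hp ι _ _ M β C W hM hW B0 hB hint n i j
  classical
  have hpp : p.Prime := hp.out
  have hp0 : (0 : ℚ) < p := by exact_mod_cast hpp.pos
  have hp1 : (1 : ℚ) ≤ p := by exact_mod_cast hpp.one_le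
  obtain ⟨k, hk⟩ : ∃ k, k = M.factorization p := ⟨_, rfl⟩
  obtain ⟨M', hM'⟩ : ∃ M', M' = M / p ^ k := ⟨_, rfl⟩
  have hMM : M = p ^ k * M' := by
    rw [hM', hk]
    exact (Nat.ordProj_mul_ordCompl_eq_self M p).symm
  have hMz : (M : ℤ) = (p : ℤ) ^ k * (M' : ℤ) := by
    have := congrArg (Nat.cast : ℕ → ℤ) hMM
    push_cast at this
    exact this
  have hpM' : ¬ p ∣ M' := by
    rw [hM', hk]
    exact Nat.not_dvd_ordCompl hpp hM.ne'
  have hM'M : M' ≤ M := by
    rw [hM']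
    exact Nat.div_le_self _ _
  rw [← hk]
  set T : Finset ℤ := (Finset.univ.image β).filter fun c => (p : ℤ) ^ k ∣ c - β j with hT
  have hTc : T.card ≤ spc p M β := by
    unfold spc
    rw [← hk]
    exact Finset.le_sup (f := fun i => ((Finset.univ.image β).filter fun c =>
      (p : ℤ) ^ k ∣ c - β i).card) (Finset.mem_univ j)
  set δ : ℤ → ℤ := fun c => (β j - c) / (p : ℤ) ^ k with hδ
  have hδT : ∀ c ∈ T, β j - c = (p : ℤ) ^ k * δ c := by
    intro c hc
    have h1 : (p : ℤ) ^ k ∣ c - β j := (Finset.mem_filter.1 hc).2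
    have h2 : (p : ℤ) ^ k ∣ β j - c := (dvd_sub_comm).1 h1
    exact (Int.mul_ediv_cancel' h2).symm
  have hfac : ∀ (m : ℤ), ∀ c ∈ T, (M : ℤ) * m + (β j - c) =
      (p : ℤ) ^ k * ((M' : ℤ) * m + δ c) := by
    intro m c hc
    rw [hδT c hc, hMz]
    ring
  have hpk : (1 : ℤ) ≤ (p : ℤ) ^ k := by
    have : (1 : ℤ) ≤ (p : ℤ) := by exact_mod_cast hpp.one_le
    exact one_le_pow₀ this
  have hMpos : (1 : ℤ) ≤ M := by exact_mod_cast hM
  have hTB : ∀ c ∈ T, |β j - c| ≤ B0 := by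
    intro c hc
    obtain ⟨i', -, rfl⟩ := Finset.mem_image.1 (Finset.mem_filter.1 hc).1
    exact hB j i'
  have hne : ∀ m : ℕ, B0 < m → ∀ c ∈ T, (M' : ℤ) * (m : ℤ) + δ c ≠ 0 := by
    intro m hm c hc h0
    have h1 := hfac (m : ℤ) c hc
    rw [h0, mul_zero] at h1
    have h2 := (abs_le.1 (hTB c hc)).1
    have hm' : (B0 : ℤ) < m := by exact_mod_cast hm
    have hm0 : (0 : ℤ) ≤ m := by positivity
    nlinarith
  have hg0 : ∀ n, 1 ≤ g p k M' T δ B0 n := by
    intro n
    induction n with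
    | zero =>
      rw [g_small _ _ _ _ _ _ _ (Nat.zero_le _)]
      exact one_le_pow₀ hp1
    | succ n ih =>
      rcases Nat.lt_or_ge n B0 with h | h
      · rw [g_small _ _ _ _ _ _ _ h]
        exact one_le_pow₀ hp1
      · rw [g_succ _ _ _ _ _ _ _ h]
        exact one_le_mul_of_one_le_of_one_le ih (one_le_mul_of_one_le_of_one_le (one_le_pow₀ hp1)
          (one_le_prod p M' T δ n fun c hc => hne (n + 1) (by omega) c hc))
  have hgp : ∀ n, 0 < g p k M' T δ B0 n := fun n => lt_of_lt_of_le zero_lt_one (hg0 n)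
  have hstep1 : ∀ n, g p k M' T δ B0 n ≤ g p k M' T δ B0 (n + 1) := by
    intro n
    rcases Nat.lt_or_ge n B0 with h | h
    · rw [g_small _ _ _ _ _ _ _ h, g_small _ _ _ _ _ _ _ h.le]
      exact pow_le_pow_right₀ hp1 (Nat.mul_le_mul_left _ (Nat.le_succ n))
    · rw [g_succ _ _ _ _ _ _ _ h]
      exact le_mul_of_one_le_right (hgp n).le (one_le_mul_of_one_le_of_one_le (one_le_pow₀ hp1)
        (one_le_prod p M' T δ n fun c hc => hne (n + 1) (by omega) c hc))
  have hkey := rec p M β C W hW B0 hint j (g p k M' T δ B0) hg0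
    (monotone_nat_of_le_succ hstep1) (fun n i hnB => by
      rw [g_succ _ _ _ _ _ _ _ hnB]
      by_cases hi : β i ∈ T
      · have hz := hne (n + 1) (by omega) (β i) hi
        have e3 : padicNorm p (((M' : ℤ) * ((n + 1 : ℕ) : ℤ) + δ (β i) : ℤ) : ℚ) ≠ 0 :=
          padicNorm.nonzero (by exact_mod_cast hz)
        have e2 : padicNorm p (((p : ℤ) ^ k : ℤ) : ℚ) = ((p : ℚ) ^ k)⁻¹ := by
          push_cast
          exact norm_pow p k
        rw [hfac _ _ hi, Int.cast_mul, padicNorm.mul, e2, ← Finset.mul_prod_erase T _ hi]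
        have e4 : ((p : ℚ) ^ k)⁻¹ *
            padicNorm p (((M' : ℤ) * ((n + 1 : ℕ) : ℤ) + δ (β i) : ℤ) : ℚ) *
            (g p k M' T δ B0 n * ((p : ℚ) ^ k *
            ((padicNorm p (((M' : ℤ) * ((n + 1 : ℕ) : ℤ) + δ (β i) : ℤ) : ℚ))⁻¹ *
            ∏ c ∈ T.erase (β i),
              (padicNorm p (((M' : ℤ) * ((n + 1 : ℕ) : ℤ) + δ c : ℤ) : ℚ))⁻¹))) =
            g p k M' T δ B0 n * ∏ c ∈ T.erase (β i),
              (padicNorm p (((M' : ℤ) * ((n + 1 : ℕ) : ℤ) + δ c : ℤ) : ℚ))⁻¹ := by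
          have hpk0 : ((p : ℚ) ^ k) ≠ 0 := (pow_pos hp0 k).ne'
          field_simp
        rw [e4]
        exact le_mul_of_one_le_right (hgp n).le (one_le_prod p M' (T.erase (β i)) δ n
          fun c hc => hne (n + 1) (by omega) c (Finset.mem_of_mem_erase hc))
      · have hnd : ¬ ((p ^ k : ℕ) : ℤ) ∣ ((M : ℤ) * ((n + 1 : ℕ) : ℤ) + (β j - β i)) := by
          intro hd
          apply hi
          rw [hT, Finset.mem_filter]
          refine ⟨Finset.mem_image_of_mem β (Finset.mem_univ i), ?_⟩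
          push_cast at hd
          have h1 : (p : ℤ) ^ k ∣ (M : ℤ) * ((n : ℤ) + 1) := by
            rw [hMz, mul_assoc]
            exact dvd_mul_right _ _
          have h2 : (p : ℤ) ^ k ∣ β j - β i := (dvd_add_right h1).1 hd
          exact (dvd_sub_comm).1 h2
        have h9 : ¬ padicNorm p (((M : ℤ) * ((n + 1 : ℕ) : ℤ) + (β j - β i) : ℤ) : ℚ) ≤
            (p : ℚ) ^ (-(k : ℕ) : ℤ) := fun hh => hnd (padicNorm.dvd_iff_norm_le.mpr hh)
        have h10 := not_le.mp h9
        rw [_root_.zpow_neg, _root_.zpow_natCast] at h10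
        have h11 : 1 ≤ padicNorm p (((M : ℤ) * ((n + 1 : ℕ) : ℤ) + (β j - β i) : ℤ) : ℚ) *
            (p : ℚ) ^ k := by
          have h12 := mul_le_mul_of_nonneg_right h10.le (pow_pos hp0 k).le
          rwa [inv_mul_cancel₀ (pow_pos hp0 k).ne'] at h12
        have h13 := one_le_prod p M' T δ n
          (fun c hc => hne (n + 1) (by omega) c hc)
        have e5 : padicNorm p (((M : ℤ) * ((n + 1 : ℕ) : ℤ) + (β j - β i) : ℤ) : ℚ) *
            (g p k M' T δ B0 n * ((p : ℚ) ^ k *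
            ∏ c ∈ T, (padicNorm p (((M' : ℤ) * ((n + 1 : ℕ) : ℤ) + δ c : ℤ) : ℚ))⁻¹)) =
            g p k M' T δ B0 n *
            ((padicNorm p (((M : ℤ) * ((n + 1 : ℕ) : ℤ) + (β j - β i) : ℤ) : ℚ) * (p : ℚ) ^ k) *
            ∏ c ∈ T, (padicNorm p (((M' : ℤ) * ((n + 1 : ℕ) : ℤ) + δ c : ℤ) : ℚ))⁻¹) := by
          ring
        rw [e5]
        exact le_mul_of_one_le_right (hgp n).le (one_le_mul_of_one_le_of_one_le h11 h13)) n i
  refine hkey.trans ?_
  have e5 : g p k M' T δ B0 n = (p : ℚ) ^ (k * n + ∑ c ∈ T, ∑ m ∈ Finset.Ioc B0 n,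
      padicValInt p ((M' : ℤ) * (m : ℤ) + δ c)) := by
    unfold g
    rw [pow_add, ← Finset.prod_pow_eq_pow_sum]
    congr 1
    refine Finset.prod_congr rfl fun c hc => ?_
    rw [← Finset.prod_pow_eq_pow_sum]
    exact Finset.prod_congr rfl fun m hm => inv_norm p (hne m (Finset.mem_Ioc.1 hm).1 c hc)
  rw [e5]
  refine pow_le_pow_right₀ hp1 (Nat.add_le_add_left ?_ _)
  calc ∑ c ∈ T, ∑ m ∈ Finset.Ioc B0 n, padicValInt p ((M' : ℤ) * (m : ℤ) + δ c)
      ≤ ∑ _c ∈ T, LS p M ((M + 1) * B0) n := Finset.sum_le_sum fun c hc => by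
        have hre : ∑ m ∈ Finset.Ioc B0 n, padicValInt p ((M' : ℤ) * (m : ℤ) + δ c) =
            ∑ m ∈ Finset.Icc 1 (n - B0),
              padicValInt p ((M' : ℤ) * (m : ℤ) + ((M' : ℤ) * B0 + δ c)) := by
          refine Finset.sum_bij' (fun m _ => m - B0) (fun m _ => m + B0) ?_ ?_ ?_ ?_ ?_
          · intro m hm
            rw [Finset.mem_Ioc] at hm
            rw [Finset.mem_Icc]
            omega
          · intro m hm
            rw [Finset.mem_Icc] at hm
            rw [Finset.mem_Ioc]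
            omega
          · intro m hm
            rw [Finset.mem_Ioc] at hm
            omega
          · intro m hm
            omega
          · intro m hm
            rw [Finset.mem_Ioc] at hm
            congr 1
            rw [Nat.cast_sub hm.1.le]
            ring
        rw [hre]
        refine (hC p M' M hpp hpM' hM'M ((M + 1) * B0) (n - B0) _ ?_ ?_).trans
          (LS_mono p M _ (Nat.sub_le _ _))
        · have h1 := hTB c hc
          rw [hδT c hc, abs_mul, abs_of_pos (lt_of_lt_of_le zero_lt_one hpk)] at h1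
          have h2 : |δ c| ≤ (p : ℤ) ^ k * |δ c| := le_mul_of_one_le_left (abs_nonneg _) hpk
          have h3 : |δ c| ≤ B0 := h2.trans h1
          have h4 : (M' : ℤ) * B0 ≤ (M : ℤ) * B0 :=
            mul_le_mul_of_nonneg_right (by exact_mod_cast hM'M) (by positivity)
          have h5 : (0 : ℤ) ≤ (M' : ℤ) * B0 := by positivity
          calc |(M' : ℤ) * B0 + δ c| ≤ |(M' : ℤ) * B0| + |δ c| := abs_add_le _ _
            _ ≤ (M : ℤ) * B0 + B0 := by
                rw [abs_of_nonneg h5]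
                exact add_le_add h4 h3
            _ = (((M + 1) * B0 : ℕ) : ℤ) := by
                push_cast
                ring
        · intro m hm h0
          refine hne (m + B0) (by omega) c hc ?_
          push_cast
          linarith
    _ = T.card * LS p M ((M + 1) * B0) n := by rw [Finset.sum_const, smul_eq_mul]
    _ ≤ spc p M β * LS p M ((M + 1) * B0) n := Nat.mul_le_mul_right _ hTc

end Pool.Agent.Work.MP_5e5ff1_ag.TH
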