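import Mathlib
import Pool.Agent.Work.MP_5e5ff1_ag.TH.StmtsZ

set_option autoImplicit false

/-! Block TH, item MPN: the maps of the new types. -/

open Filter Topology
open scoped Polynomial

namespace Pool.Agent.Work.MP_5e5ff1_ag.TH

namespace IMPN

theorem mono {n1 n2 : ℕ} {R R' : ℝ} {m : ℕ} {g A w : ℂ → ℂ} (h : IsMap n1 n2 R m g A w)
    (hR : R' ≤ R) : IsMap n1 n2 R' m g A w :=
  { dg := h.dg, dA := h.dA, dw := h.dw, m0 := h.m0, g0 := h.g0, rel := h.rel, nA := h.nA,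
    nw := h.nw, A00 := h.A00, rad := hR.trans h.rad }

theorem exists_gen (P : ℝ → Prop) (D0 : ℝ) (hD0 : 0 < D0)
    (hG : ∀ D : ℝ, D < D0 → ∃ D' : ℝ, D ≤ D' ∧ 0 < D' ∧ P D') (f : ℝ → ℝ) (hf : Continuous f)
    (hm : ∀ x y, 0 < x → x ≤ y → f x ≤ f y) (R' : ℝ) (h : R' < f D0) :
    ∃ D, P D ∧ R' ≤ f D := by
  have h1 : ∀ᶠ D in 𝓝[<] D0, R' < f D :=
    (hf.continuousAt.eventually_const_lt h).filter_mono nhdsWithin_le_nhds
  have h2 : ∀ᶠ D in 𝓝[<] D0, 0 < D :=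
    (continuousAt_id.eventually_const_lt hD0).filter_mono nhdsWithin_le_nhds
  have h3 : ∀ᶠ D in 𝓝[<] D0, D < D0 := eventually_mem_nhdsWithin
  obtain ⟨D, hD1, hD2, hD3⟩ := (h1.and (h2.and h3)).exists
  obtain ⟨D', hD', _, hQ⟩ := hG D hD3
  exact ⟨D', hQ, hD1.le.trans (hm D D' hD2 hD')⟩

end IMPN

open IMPN

theorem pr_MPN (hGLI : StGLI) (hGL3 : StGL3) (hSYM : StSYM) (hM33 : StM33) (hM66 : StM66)
    (hM26 : StM26) (hM03 : StM03) : StMPN := by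
  have h33 : ∀ R' < (48 * Real.sqrt 3 : ℝ), ∃ (m : ℕ) (g A w : ℂ → ℂ), IsMap 3 3 R' m g A w := by
    intro R' hR
    obtain ⟨D, hQ, hD⟩ := exists_gen QG 4 (by norm_num) hGLI
      (fun D => 3 * Real.sqrt 3 * D ^ 2) (by fun_prop) (fun x y hx hxy =>
        mul_le_mul_of_nonneg_left (pow_le_pow_left₀ hx.le hxy 2) (by positivity)) R' (by
        linarith)
    obtain ⟨m, g, A, w, h⟩ := hM33 D hQ
    exact ⟨m, g, A, w, mono h hD⟩
  have h66 : ∀ R' < (12 * Real.sqrt 3 : ℝ), ∃ (m : ℕ) (g A w : ℂ → ℂ), IsMap 6 6 R' m g A w := by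
    intro R' hR
    have h27 : Real.sqrt ((3 : ℝ) ^ 3) = 3 * Real.sqrt 3 := by
      rw [show (3 : ℝ) ^ 3 = 3 ^ 2 * 3 by norm_num, Real.sqrt_mul (by norm_num),
        Real.sqrt_sq (by norm_num)]
    obtain ⟨D, hQ, hD⟩ := exists_gen QG3 3 (by norm_num) hGL3
      (fun D => 4 * Real.sqrt (D ^ 3)) (by fun_prop) (fun x y hx hxy =>
        mul_le_mul_of_nonneg_left (Real.sqrt_le_sqrt (pow_le_pow_left₀ hx.le hxy 3))
          (by norm_num)) R' (by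
        rw [h27]
        linarith)
    obtain ⟨m, g, A, w, h⟩ := hM66 D hQ
    exact ⟨m, g, A, w, mono h hD⟩
  have h26 : ∀ R' < (108 : ℝ), ∃ (m : ℕ) (g A w : ℂ → ℂ), IsMap 2 6 R' m g A w := by
    intro R' hR
    obtain ⟨D, hQ, hD⟩ := exists_gen QG3 3 (by norm_num) hGL3
      (fun D => 4 * D ^ 3) (by fun_prop) (fun x y hx hxy =>
        mul_le_mul_of_nonneg_left (pow_le_pow_left₀ hx.le hxy 3) (by norm_num)) R' (by
        linarith)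
    obtain ⟨m, g, A, w, h⟩ := hM26 D hQ
    exact ⟨m, g, A, w, mono h hD⟩
  have h03 : ∀ R' < (27 : ℝ), ∃ (m : ℕ) (g A w : ℂ → ℂ), IsMap 0 3 R' m g A w := by
    intro R' hR
    obtain ⟨D, hQ, hD⟩ := exists_gen QG3 3 (by norm_num) hGL3
      (fun D => D ^ 3) (by fun_prop) (fun x y hx hxy => pow_le_pow_left₀ hx.le hxy 3) R' (by
        linarith)
    obtain ⟨m, g, A, w, h⟩ := hM03 D hQ
    exact ⟨m, g, A, w, mono h hD⟩
  intro n1 n2 R hT R' hR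
  rcases hT with ⟨rfl, rfl, rfl⟩ | ⟨rfl, rfl, rfl⟩ | ⟨rfl, rfl, rfl⟩ | ⟨rfl, rfl, rfl⟩ |
    ⟨rfl, rfl, rfl⟩ | ⟨rfl, rfl, rfl⟩
  · exact h33 R' hR
  · exact h66 R' hR
  · exact h26 R' hR
  · obtain ⟨m, g, A, w, h⟩ := h26 R' hR
    exact ⟨m, g, w, A, hSYM _ _ _ _ _ _ _ h⟩
  · obtain ⟨m, g, A, w, h⟩ := h03 R' hR
    exact ⟨m, g, w, A, hSYM _ _ _ _ _ _ _ h⟩
  · exact h03 R' hR

end Pool.Agent.Work.MP_5e5ff1_ag.TH
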