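import Mathlib
import Pool.Agent.Work.MP_5e5ff1_ag.TH.StmtsB
import Pool.Agent.Work.MP_5e5ff1_ag.TH.StmtsZ

set_option autoImplicit false

/-! Block TH, item MPT: the maps. -/

open Filter Topology
open scoped Polynomial

namespace Pool.Agent.Work.MP_5e5ff1_ag.TH

namespace IMPT

theorem mono {n1 n2 : ℕ} {R R' : ℝ} {m : ℕ} {g A w : ℂ → ℂ} (h : IsMap n1 n2 R m g A w)
    (hR : R' ≤ R) : IsMap n1 n2 R' m g A w :=
  { dg := h.dg, dA := h.dA, dw := h.dw, m0 := h.m0, g0 := h.g0, rel := h.rel, nA := h.nA,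
    nw := h.nw, A00 := h.A00, rad := hR.trans h.rad }

theorem exists_D (hG : StGLI) (c : ℝ) (hc : 0 < c) (k : ℕ) (R' : ℝ) (h : R' < c * 4 ^ k) :
    ∃ D, QG D ∧ R' ≤ c * D ^ k := by
  have hcont : Continuous fun D : ℝ => c * D ^ k := by fun_prop
  have h1 : ∀ᶠ D in 𝓝[<] (4 : ℝ), R' < c * D ^ k :=
    (hcont.continuousAt.eventually_const_lt h).filter_mono nhdsWithin_le_nhds
  have h2 : ∀ᶠ D in 𝓝[<] (4 : ℝ), 0 < D :=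
    (continuousAt_id.eventually_const_lt (by norm_num : (0 : ℝ) < 4)).filter_mono
      nhdsWithin_le_nhds
  have h3 : ∀ᶠ D in 𝓝[<] (4 : ℝ), D < 4 := eventually_mem_nhdsWithin
  obtain ⟨D, hD1, hD2, hD3⟩ := (h1.and (h2.and h3)).exists
  obtain ⟨D', hD', _, hQ⟩ := hG D hD3
  refine ⟨D', hQ, hD1.le.trans ?_⟩
  exact mul_le_mul_of_nonneg_left (pow_le_pow_left₀ hD2.le hD' k) hc.le

end IMPT

open IMPT

theorem pr_MPT (hGLI : StGLI) (hSYM : StSYM) (hM44 : StM44) (hM24 : StM24) (hM20 : StM20)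
    (hM23 : StM23) (hM00 : StM00) (hMPN : StMPN) : StMapT := by
  have h44 : ∀ R' < (32 : ℝ), ∃ (m : ℕ) (g A w : ℂ → ℂ), IsMap 4 4 R' m g A w := by
    intro R' hR
    obtain ⟨D, hQ, hD⟩ := exists_D hGLI 2 (by norm_num) 2 R' (by linarith)
    obtain ⟨m, g, A, w, h⟩ := hM44 D hQ
    exact ⟨m, g, A, w, mono h hD⟩
  have h24 : ∀ R' < (256 : ℝ), ∃ (m : ℕ) (g A w : ℂ → ℂ), IsMap 2 4 R' m g A w := by
    intro R' hR
    obtain ⟨D, hQ, hD⟩ := exists_D hGLI 1 (by norm_num) 4 R' (by linarith)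
    obtain ⟨m, g, A, w, h⟩ := hM24 D hQ
    exact ⟨m, g, A, w, mono h (by linarith)⟩
  have h20 : ∀ R' < (64 : ℝ), ∃ (m : ℕ) (g A w : ℂ → ℂ), IsMap 2 0 R' m g A w := by
    intro R' hR
    obtain ⟨D, hQ, hD⟩ := exists_D hGLI (1 / 4) (by norm_num) 4 R' (by linarith)
    obtain ⟨m, g, A, w, h⟩ := hM20 D hQ
    exact ⟨m, g, A, w, mono h (by linarith)⟩
  have h23 : ∀ R' < (1728 : ℝ), ∃ (m : ℕ) (g A w : ℂ → ℂ), IsMap 2 3 R' m g A w := by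
    intro R' hR
    obtain ⟨D, hQ, hD⟩ := exists_D hGLI (27 / 4) (by norm_num) 4 R' (by linarith)
    obtain ⟨m, g, A, w, h⟩ := hM23 D hQ
    exact ⟨m, g, A, w, mono h hD⟩
  have h00 : ∀ R' < (16 : ℝ), ∃ (m : ℕ) (g A w : ℂ → ℂ), IsMap 0 0 R' m g A w := by
    intro R' hR
    obtain ⟨D, hQ, hD⟩ := exists_D hGLI 1 (by norm_num) 2 R' (by linarith)
    obtain ⟨m, g, A, w, h⟩ := hM00 D hQ
    exact ⟨m, g, A, w, mono h (by linarith)⟩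
  intro n1 n2 R hT R' hR
  rcases hT with ⟨rfl, rfl, rfl⟩ | ⟨rfl, rfl, rfl⟩ | ⟨rfl, rfl, rfl⟩ | ⟨rfl, rfl, rfl⟩ |
    ⟨rfl, rfl, rfl⟩ | ⟨rfl, rfl, rfl⟩ | ⟨rfl, rfl, rfl⟩ | ⟨rfl, rfl, rfl⟩ | hN
  · exact h44 R' hR
  · exact h24 R' hR
  · obtain ⟨m, g, A, w, h⟩ := h24 R' hR
    exact ⟨m, g, w, A, hSYM _ _ _ _ _ _ _ h⟩
  · exact h20 R' hR
  · obtain ⟨m, g, A, w, h⟩ := h20 R' hR
    exact ⟨m, g, w, A, hSYM _ _ _ _ _ _ _ h⟩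
  · exact h23 R' hR
  · obtain ⟨m, g, A, w, h⟩ := h23 R' hR
    exact ⟨m, g, w, A, hSYM _ _ _ _ _ _ _ h⟩
  · exact h00 R' hR
  · exact hMPN _ _ _ hN R' hR

end Pool.Agent.Work.MP_5e5ff1_ag.TH
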