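import Mathlib
import Pool.Agent.Work.MP_5e5ff1_ag.TH.StmtsE

set_option autoImplicit false

/-!
# MP_5e5ff1_ag, block TH, item MZ: the theorem for integral systems
-/

open Matrix Filter Topology NumberField
open scoped Polynomial

namespace Pool.Agent.Work.MP_5e5ff1_ag.TH

namespace IMZ

theorem dJ_pos {ι : Type} [Fintype ι] [DecidableEq ι] (M : ℕ) (β : ι → ℤ) (S : Set ℕ)
    (B J N : ℕ) : 0 < dJ M β S B J N := by
  unfold dJ
  refine Finset.prod_pos fun p hp => ?_
  exact Nat.pow_pos (Finset.mem_filter.1 hp).2.pos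

theorem bound {ι : Type} [Fintype ι] (β : ι → ℤ) : ∃ B : ℕ, ∀ i j, |β i - β j| ≤ B := by
  refine ⟨∑ i, ∑ j, (β i - β j).natAbs, fun i j => ?_⟩
  have h1 : (β i - β j).natAbs ≤ ∑ j, (β i - β j).natAbs :=
    Finset.single_le_sum (f := fun j => (β i - β j).natAbs) (fun _ _ => Nat.zero_le _)
      (Finset.mem_univ j)
  have h2 : ∑ j, (β i - β j).natAbs ≤ ∑ i, ∑ j, (β i - β j).natAbs :=
    Finset.single_le_sum (f := fun i => ∑ j, (β i - β j).natAbs) (fun _ _ => Nat.zero_le _)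
      (Finset.mem_univ i)
  rw [Int.abs_eq_natAbs]
  exact_mod_cast h1.trans h2

theorem typ_pos {n1 n2 : ℕ} {R : ℝ} (h : Typ n1 n2 R) : 0 < R := by
  rcases h with h | h | h | h | h | h | h | h | h | h | h | h | h | h <;> rw [h.2.2] <;> positivity

end IMZ

theorem pr_MZ (hCrit : StCrit2) (hMap : StMapT) (hDEN : StDEN) (hGRO : StGRO)
    (hUCV : StUCV) (hCON : StCON) (hPwr : TG.StPwr) (hCnv : TG.StCnv) : StMZ := by
  intro ι _ _ _ M n1 n2 β C S R L U hTyp hL hsys hU i j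
  have hR : 0 < R := IMZ.typ_pos hTyp
  have hexp : Real.exp L < R := (Real.lt_log_iff_exp_lt hR).1 hL
  obtain ⟨R', hR1, hR2⟩ := exists_between hexp
  obtain ⟨m, g, A, w, hm⟩ := hMap n1 n2 R hTyp R' hR2
  obtain ⟨B, hB⟩ := IMZ.bound β
  obtain ⟨A0, hA1, hAU⟩ := hUCV ι M β C U hsys.hM hU
  obtain ⟨h, F, hh, hne, hF, hFe⟩ := hCON ι M n1 n2 β C S L U hsys hU R' m g A w hm i j
  obtain ⟨f, hf⟩ : ∃ f : PowerSeries ℚ, f = PowerSeries.mk fun n => U n i j := ⟨_, rfl⟩
  obtain ⟨a, ha⟩ : ∃ a : ℕ → ℚ, a = fun n => PowerSeries.coeff n (f ^ M) := ⟨_, rfl⟩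
  have hmk : PowerSeries.mk a = f ^ M := by
    ext n
    rw [PowerSeries.coeff_mk, ha]
  have h0 : (0 : ℂ) ∈ Metric.ball (0 : ℂ) 1 := Metric.mem_ball_self one_pos
  have hM := hsys.hM
  have hA2 : (1 : ℝ) ≤ 2 * A0 := by linarith
  have halg : IsAlgebraic ℚ[X] (PowerSeries.mk a : PowerSeries ℚ) := by
    refine hCrit L ((2 * A0) ^ M) a m g (fun z => A z ^ e1 n2) h F ?_ (one_le_pow₀ hA2) ?_ hm.m0
      hm.dg (hm.dA.pow _) hh hF (pow_ne_zero _ hm.A00) ?_ hne ?_
    · intro J ε hε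
      obtain ⟨N0, hN0⟩ := hGRO ι M β S L B (M * J) hM hsys.cost ε hε
      refine ⟨N0, fun N hN => ⟨dJ M β S B (M * J) N, IMZ.dJ_pos M β S B (M * J) N,
        hN0 N hN, ?_⟩⟩
      intro j' hj' k hk
      rw [hmk, ← pow_mul, hf]
      exact hDEN ι M β C S U hM hU hsys.hβ hsys.pz B hB i j (M * J) N (M * j')
        (Nat.mul_le_mul_left _ hj') k hk
    · intro n
      have h1 := hPwr (fun n => U n i j) A0 hA1 (fun n => hAU n i j) M n
      rw [← hf] at h1
      have h2 : (2 * A0) ^ (n + M) ≤ ((2 * A0) ^ M) ^ (n + 1) := by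
        rw [← pow_mul]
        refine pow_le_pow_right₀ hA2 ?_
        nlinarith
      rw [ha]
      exact h1.trans h2
    · have h1 : 0 < R' := (Real.exp_pos L).trans hR1
      have h2 : L < Real.log R' := (Real.lt_log_iff_exp_lt h1).2 hR1
      refine h2.trans_le (Real.log_le_log h1 ?_)
      rw [norm_pow]
      exact hm.rad
    · have hcont : ContinuousAt (fun z => z ^ m * g z / A z ^ e1 n2) 0 := by
        have hnb : Metric.ball (0 : ℂ) 1 ∈ 𝓝 (0 : ℂ) := Metric.ball_mem_nhds _ one_pos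
        have hg : ContinuousAt g 0 := (hm.dg.differentiableAt hnb).continuousAt
        have hA : ContinuousAt A 0 := (hm.dA.differentiableAt hnb).continuousAt
        exact ((continuousAt_id.pow m).mul hg).div (hA.pow _) (pow_ne_zero _ hm.A00)
      have hlim : Tendsto (fun z => ‖z ^ m * g z / A z ^ e1 n2‖) (𝓝 0) (𝓝 0) := by
        have h1 := hcont.norm.tendsto
        simp only [zero_pow hm.m0.ne', zero_mul, zero_div, norm_zero] at h1
        exact h1
      have hev := hlim.eventually_lt_const (show (0 : ℝ) < 1 / (2 * A0) by positivity)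
      filter_upwards [hFe, hev] with z hz1 hz2
      rw [hz1]
      congr 1
      have h3 := (hCnv (fun n => U n i j) A0 hA1 (fun n => hAU n i j) _ hz2 M).2
      rw [← hf] at h3
      rw [ha]
      exact h3.symm
  rw [hmk] at halg
  rw [← hf]
  exact IsAlgebraic.of_pow hM halg

end Pool.Agent.Work.MP_5e5ff1_ag.TH
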