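import Mathlib
import Pool.Agent.Work.MP_5e5ff1_ag.TH.StmtsX

set_option autoImplicit false

/-!
# MP_5e5ff1_ag, block TH, item MZR: the theorem for integral systems, resonance allowed
-/

open Matrix Filter Topology NumberField
open scoped Polynomial

namespace Pool.Agent.Work.MP_5e5ff1_ag.TH

namespace IMZR

theorem dS_pos (M s : ℕ) (S : Set ℕ)
    (T : Finset ℕ) (κ : ℕ → ℝ) (a : ℕ → ℕ) (hT : ∀ p ∈ T, p.Prime) (B J N : ℕ) :
    0 < dS M s S T κ a B J N := by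
  unfold dS
  refine Finset.prod_pos fun p hp => ?_
  rcases Finset.mem_union.1 hp with h | h
  · exact Nat.pow_pos (hT p h).pos
  · exact Nat.pow_pos (Finset.mem_filter.1 h).2.pos

theorem one_le_nc {ι : Type} [Fintype ι] [DecidableEq ι] [Nonempty ι] (M : ℕ) (β : ι → ℤ) :
    1 ≤ nc M β := by
  unfold nc
  rw [Nat.one_le_iff_ne_zero, Finset.card_ne_zero]
  exact Finset.univ_nonempty.image _

/-- a common denominator of the first terms -/
theorem exists_den {ι : Type} [Fintype ι] (U : ℕ → Matrix ι ι ℚ) (B : ℕ) :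
    ∃ d : ℕ, 0 < d ∧ ∀ k ≤ B, ∀ i j, ∃ z : ℤ, (d : ℚ) * U k i j = z := by
  refine ⟨∏ k ∈ Finset.range (B + 1), ∏ i, ∏ j, (U k i j).den, ?_, ?_⟩
  · exact Finset.prod_pos fun k _ => Finset.prod_pos fun i _ => Finset.prod_pos fun j _ =>
      (U k i j).den_pos
  · intro k hk i j
    have h1 : (U k i j).den ∣ ∏ k ∈ Finset.range (B + 1), ∏ i, ∏ j, (U k i j).den :=
      ((Finset.dvd_prod_of_mem (fun j => (U k i j).den) (Finset.mem_univ j)).trans
        (Finset.dvd_prod_of_mem (fun i => ∏ j, (U k i j).den) (Finset.mem_univ i))).trans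
        (Finset.dvd_prod_of_mem (fun k => ∏ i, ∏ j, (U k i j).den)
          (Finset.mem_range.2 (Nat.lt_succ_of_le hk)))
    obtain ⟨e, he⟩ := h1
    refine ⟨(e : ℤ) * (U k i j).num, ?_⟩
    rw [he]
    push_cast
    have h2 : ((U k i j).den : ℚ) * U k i j = (U k i j).num := Rat.den_mul_eq_num _
    calc ((U k i j).den : ℚ) * (e : ℚ) * U k i j = e * (((U k i j).den : ℚ) * U k i j) := by ring
      _ = e * (U k i j).num := by rw [h2]

theorem bound {ι : Type} [Fintype ι] (β : ι → ℤ) : ∃ B : ℕ, ∀ i j, |β i - β j| ≤ B := by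
  refine ⟨∑ i, ∑ j, (β i - β j).natAbs, fun i j => ?_⟩
  have h1 : (β i - β j).natAbs ≤ ∑ j, (β i - β j).natAbs :=
    Finset.single_le_sum (f := fun j => (β i - β j).natAbs) (fun _ _ => Nat.zero_le _)
      (Finset.mem_univ j)
  have h2 : ∑ j, (β i - β j).natAbs ≤ ∑ i, ∑ j, (β i - β j).natAbs :=
    Finset.single_le_sum (f := fun i => ∑ j, (β i - β j).natAbs) (fun _ _ => Nat.zero_le _)
      (Finset.mem_univ i)
  rw [Int.abs_eq_natAbs]
  exact_mod_cast h1.trans h2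

theorem typ_pos {n1 n2 : ℕ} {R : ℝ} (h : Typ n1 n2 R) : 0 < R := by
  rcases h with h | h | h | h | h | h | h | h | h | h | h | h | h | h <;> rw [h.2.2] <;> positivity

/-- the choice of `δ` -/
theorem exists_delta (T : Finset ℕ) (hT : ∀ p ∈ T, p.Prime) {L l : ℝ} (h : L < l) :
    ∃ δ : ℝ, 0 < δ ∧ L + δ * ∑ p ∈ T, Real.log p < l := by
  have h0 : 0 ≤ ∑ p ∈ T, Real.log (p : ℝ) :=
    Finset.sum_nonneg fun p hp => Real.log_nonneg (by exact_mod_cast (hT p hp).one_lt.le)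
  refine ⟨(l - L) / (2 * (∑ p ∈ T, Real.log (p : ℝ) + 1)), by
    have : 0 < l - L := by linarith
    positivity, ?_⟩
  have h1 : (l - L) / (2 * (∑ p ∈ T, Real.log (p : ℝ) + 1)) * ∑ p ∈ T, Real.log (p : ℝ) ≤
      (l - L) / 2 := by
    rw [div_mul_eq_mul_div, div_le_div_iff₀ (by positivity) (by norm_num)]
    nlinarith
  linarith

/-- the cost with `κ + δ` -/
theorem cost_add {T : Finset ℕ} {κ : ℕ → ℝ} {s : ℕ} {S : Set ℕ} {L δ : ℝ}
    (h : CostT T κ s S L) : CostT T (fun p => κ p + δ) s S (L + δ * ∑ p ∈ T, Real.log p) := by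
  intro F hF
  have h1 := h F hF
  have h2 : ∑ p ∈ T, (κ p + δ) * Real.log p = ∑ p ∈ T, κ p * Real.log p +
      δ * ∑ p ∈ T, Real.log p := by
    rw [Finset.mul_sum, ← Finset.sum_add_distrib]
    exact Finset.sum_congr rfl fun p _ => by ring
  rw [h2]
  linarith

/-- the numbers `a p` -/
theorem exists_a {ι : Type} (T : Finset ℕ) (κ : ℕ → ℝ) {δ : ℝ} (hδ : 0 < δ)
    (U : ℕ → Matrix ι ι ℚ) (h : ∀ p ∈ T, Gr p (κ p) U) : ∃ a : ℕ → ℕ, ∀ p ∈ T,
    ∀ (n : ℕ) (i j : ι), padicNorm p (U n i j) ≤ (p : ℚ) ^ (a p + ⌈(κ p + δ) * n⌉₊) := by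
  classical
  have h1 : ∀ p : ℕ, ∃ b : ℕ, p ∈ T → ∀ (n : ℕ) (i j : ι),
      padicNorm p (U n i j) ≤ (p : ℚ) ^ (b + ⌈(κ p + δ) * n⌉₊) := by
    intro p
    by_cases hp : p ∈ T
    · obtain ⟨b, hb⟩ := h p hp δ hδ
      exact ⟨b, fun _ => hb⟩
    · exact ⟨0, fun h => absurd h hp⟩
  choose a ha using h1
  exact ⟨a, fun p hp => ha p hp⟩

end IMZR

theorem pr_MZR (hCrit : StCrit2) (hMap : StMapT) (hDNS : StDNS) (hGRTS : StGRTS)
    (hUCV : StUCV) (hCONR : StCONR) (hPwr : TG.StPwr) (hCnv : TG.StCnv) : StMZR := by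
  intro ι _ _ _ M n1 n2 β C S T κ R L₀ U hTyp hL₀ hsys hMT hcost₀ hU hT i j
  have hM : 0 < M := hsys.hM
  have hTp : ∀ p ∈ T, p.Prime := fun p hp => (hT p hp).1
  obtain ⟨δ, hδ, hL'⟩ := IMZR.exists_delta T hTp hL₀
  obtain ⟨L, hLdef⟩ : ∃ L : ℝ, L = L₀ + δ * ∑ p ∈ T, Real.log p := ⟨_, rfl⟩
  obtain ⟨κ', hκ'⟩ : ∃ κ' : ℕ → ℝ, κ' = fun p => κ p + δ := ⟨_, rfl⟩
  have hL : L < Real.log R := by rw [hLdef]; exact hL'
  have hcost : CostT T κ' (nc M β) S L := by
    rw [hκ', hLdef]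
    exact IMZR.cost_add hcost₀
  have hT' : ∀ p ∈ T, p.Prime ∧ 0 ≤ κ' p := by
    intro p hp
    rw [hκ']
    exact ⟨(hT p hp).1, add_nonneg (hT p hp).2.1 hδ.le⟩
  obtain ⟨ap, hap⟩ := IMZR.exists_a T κ hδ U fun p hp => (hT p hp).2.2
  have hR : 0 < R := IMZR.typ_pos hTyp
  have hexp : Real.exp L < R := (Real.lt_log_iff_exp_lt hR).1 hL
  obtain ⟨R', hR1, hR2⟩ := exists_between hexp
  obtain ⟨m, g, A, w, hm⟩ := hMap n1 n2 R hTyp R' hR2
  obtain ⟨B, hB⟩ := IMZR.bound β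
  obtain ⟨A0, hA1, hAU⟩ := hUCV ι M β C U hM hU
  obtain ⟨d, hd, hdU⟩ := IMZR.exists_den U B
  obtain ⟨h, F, hh, hne, hF, hFe⟩ := hCONR ι M n1 n2 β C S U hsys hU R' m g A w hm i j
  obtain ⟨f, hf⟩ : ∃ f : PowerSeries ℚ, f = PowerSeries.mk fun n => U n i j := ⟨_, rfl⟩
  obtain ⟨a, ha⟩ : ∃ a : ℕ → ℚ, a = fun n => PowerSeries.coeff n (f ^ M) := ⟨_, rfl⟩
  have hmk : PowerSeries.mk a = f ^ M := by
    ext n
    rw [PowerSeries.coeff_mk, ha]
  have h0 : (0 : ℂ) ∈ Metric.ball (0 : ℂ) 1 := Metric.mem_ball_self one_pos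
  have hA2 : (1 : ℝ) ≤ 2 * A0 := by linarith
  have halg : IsAlgebraic ℚ[X] (PowerSeries.mk a : PowerSeries ℚ) := by
    refine hCrit L ((2 * A0) ^ M) a m g (fun z => A z ^ e1 n2) h F ?_ (one_le_pow₀ hA2) ?_ hm.m0
      hm.dg (hm.dA.pow _) hh hF (pow_ne_zero _ hm.A00) ?_ hne ?_
    · intro J ε hε
      obtain ⟨N0, hN0⟩ := hGRTS M (nc M β) S T κ' ap L B (M * J) hM (IMZR.one_le_nc M β) hT' hMT
        hcost (ε / 2) (by positivity)
      have hd1 : 0 ≤ Real.log (d : ℝ) := Real.log_nonneg (by exact_mod_cast hd)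
      refine ⟨max N0 ⌈2 * ((M * J : ℕ) : ℝ) * Real.log (d : ℝ) / ε⌉₊, fun N hN =>
        ⟨d ^ (M * J) * dS M (nc M β) S T κ' ap B (M * J) N,
        Nat.mul_pos (Nat.pow_pos hd) (IMZR.dS_pos M (nc M β) S T κ' ap hTp B (M * J) N), ?_, ?_⟩⟩
      · have e1 := hN0 N ((le_max_left _ _).trans hN)
        have e2 : 2 * ((M * J : ℕ) : ℝ) * Real.log (d : ℝ) / ε ≤ N :=
          (Nat.le_ceil _).trans (by exact_mod_cast (le_max_right _ _).trans hN)
        rw [div_le_iff₀ hε] at e2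
        have e3 : 0 < dS M (nc M β) S T κ' ap B (M * J) N :=
          IMZR.dS_pos M (nc M β) S T κ' ap hTp B (M * J) N
        have e4 : Real.log ((d ^ (M * J) * dS M (nc M β) S T κ' ap B (M * J) N : ℕ) : ℝ) =
            ((M * J : ℕ) : ℝ) * Real.log (d : ℝ) +
              Real.log (dS M (nc M β) S T κ' ap B (M * J) N : ℝ) := by
          rw [Nat.cast_mul, Nat.cast_pow, Real.log_mul (by positivity)
            (by exact_mod_cast e3.ne'), Real.log_pow]
        rw [e4]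
        nlinarith
      intro j' hj' k hk
      rw [hmk, ← pow_mul, hf]
      refine hDNS ι M β C S T κ' ap U hM hU hMT hsys.pz ?_ B hB d hd hdU i j (M * J) N (M * j')
        (Nat.mul_le_mul_left _ hj') k hk
      intro p hp
      refine ⟨(hT' p hp).2, fun n i j => ?_⟩
      rw [hκ']
      exact hap p hp n i j
    · intro n
      have h1 := hPwr (fun n => U n i j) A0 hA1 (fun n => hAU n i j) M n
      rw [← hf] at h1
      have h2 : (2 * A0) ^ (n + M) ≤ ((2 * A0) ^ M) ^ (n + 1) := by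
        rw [← pow_mul]
        refine pow_le_pow_right₀ hA2 ?_
        nlinarith
      rw [ha]
      exact h1.trans h2
    · have h1 : 0 < R' := (Real.exp_pos L).trans hR1
      have h2 : L < Real.log R' := (Real.lt_log_iff_exp_lt h1).2 hR1
      refine h2.trans_le (Real.log_le_log h1 ?_)
      rw [norm_pow]
      exact hm.rad
    · have hcont : ContinuousAt (fun z => z ^ m * g z / A z ^ e1 n2) 0 := by
        have hnb : Metric.ball (0 : ℂ) 1 ∈ 𝓝 (0 : ℂ) := Metric.ball_mem_nhds _ one_pos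
        have hg : ContinuousAt g 0 := (hm.dg.differentiableAt hnb).continuousAt
        have hA : ContinuousAt A 0 := (hm.dA.differentiableAt hnb).continuousAt
        exact ((continuousAt_id.pow m).mul hg).div (hA.pow _) (pow_ne_zero _ hm.A00)
      have hlim : Tendsto (fun z => ‖z ^ m * g z / A z ^ e1 n2‖) (𝓝 0) (𝓝 0) := by
        have h1 := hcont.norm.tendsto
        simp only [zero_pow hm.m0.ne', zero_mul, zero_div, norm_zero] at h1
        exact h1
      have hev := hlim.eventually_lt_const (show (0 : ℝ) < 1 / (2 * A0) by positivity)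
      filter_upwards [hFe, hev] with z hz1 hz2
      rw [hz1]
      congr 1
      have h3 := (hCnv (fun n => U n i j) A0 hA1 (fun n => hAU n i j) _ hz2 M).2
      rw [← hf] at h3
      rw [ha]
      exact h3.symm
  rw [hmk] at halg
  rw [← hf]
  exact IsAlgebraic.of_pow hM halg

end Pool.Agent.Work.MP_5e5ff1_ag.TH
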