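import Mathlib
import Pool.Agent.Work.MP_5e5ff1_ag.TH.StmtsE

set_option autoImplicit false

/-!
# MP_5e5ff1_ag, block TH, item NUM5: the numerical inequalities
-/

open Matrix Filter Topology
open scoped Polynomial

namespace Pool.Agent.Work.MP_5e5ff1_ag.TH

namespace INUM5

theorem log32 : Real.log 32 = 5 * Real.log 2 := by
  rw [show (32 : ℝ) = 2 ^ 5 by norm_num, Real.log_pow]
  norm_num

theorem log64 : Real.log 64 = 6 * Real.log 2 := by
  rw [show (64 : ℝ) = 2 ^ 6 by norm_num, Real.log_pow]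
  norm_num

theorem log256 : Real.log 256 = 8 * Real.log 2 := by
  rw [show (256 : ℝ) = 2 ^ 8 by norm_num, Real.log_pow]
  norm_num

theorem log1728 : Real.log 1728 = 6 * Real.log 2 + 3 * Real.log 3 := by
  rw [show (1728 : ℝ) = 2 ^ 6 * 3 ^ 3 by norm_num, Real.log_mul (by norm_num) (by norm_num),
    Real.log_pow, Real.log_pow]
  norm_num

theorem log3 : 19 * Real.log 2 < 12 * Real.log 3 := by
  have h := Real.log_lt_log (by norm_num : (0 : ℝ) < 2 ^ 19) (by norm_num : (2 : ℝ) ^ 19 < 3 ^ 12)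
  rw [Real.log_pow, Real.log_pow] at h
  norm_num at h
  exact h

end INUM5

open INUM5 in
theorem pr_NUM5 : StNUM5 := by
  have h2 := Real.log_two_gt_d9
  have h3 := log3
  refine ⟨?_, ?_, ?_, ?_, ?_⟩
  · rw [log32]
    linarith
  · rw [log256]
    linarith
  · rw [log256]
    linarith
  · rw [log64]
    linarith
  · rw [log1728]
    linarith

end Pool.Agent.Work.MP_5e5ff1_ag.TH
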