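import Mathlib
import Pool.Agent.Work.MP_5e5ff1_ag.TH.StmtsA

set_option autoImplicit false

/-!
# MP_5e5ff1_ag, block TH, item PCG: the shift argument for the p-th iterate of `DA` modulo `p`
-/

open Matrix Filter Topology
open scoped Polynomial

namespace Pool.Agent.Work.MP_5e5ff1_ag.TH

namespace IPCG

variable {ι : Type} [Fintype ι] [DecidableEq ι] {R : Type} [CommRing R]

/-- the sequence with one term -/
def e (k : ℕ) (u : ι → R) : ℕ → ι → R := fun m => if m = k then u else 0

/-- the shift as a linear map -/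
def S (ι R : Type) [CommRing R] : (ℕ → ι → R) →ₗ[R] (ℕ → ι → R) where
  toFun v := fun n => if n = 0 then 0 else v (n - 1)
  map_add' v w := by
    funext n
    by_cases h : n = 0
    · simp [h]
    · simp [h]
  map_smul' a v := by
    funext n
    by_cases h : n = 0
    · simp [h]
    · simp [h]

theorem S_zero (v : ℕ → ι → R) : S ι R v 0 = 0 := rfl

theorem S_succ (v : ℕ → ι → R) (n : ℕ) : S ι R v (n + 1) = v n := rfl

theorem S_e (k : ℕ) (u : ι → R) : S ι R (e k u) = e (k + 1) u := by
  funext n
  rcases n with _ | n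
  · rw [S_zero]
    unfold e
    rw [if_neg (by omega)]
  · rw [S_succ]
    unfold e
    by_cases h : n = k
    · rw [if_pos h, if_pos (by omega)]
    · rw [if_neg h, if_neg (by omega)]

theorem cst_e (u : ι → R) : cst u = e 0 u := by
  funext n i
  unfold cst e
  by_cases h : n = 0
  · rw [if_pos h, if_pos h]
  · rw [if_neg h, if_neg h]
    rfl

theorem DA_apply (M : ℕ) (A : ℕ → Matrix ι ι R) (v : ℕ → ι → R) (n : ℕ) (i : ι) :
    DA M A v n i = (M : R) * (n : R) * v n i +
      ∑ k ∈ Finset.range (n + 1), (A (n - k) *ᵥ v k) i := rfl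

/-- the shift and `DA` -/
theorem semi (M : ℕ) (A : ℕ → Matrix ι ι R) :
    SemiconjBy (S ι R : Module.End R (ℕ → ι → R))
      ((DA M A : Module.End R (ℕ → ι → R)) + algebraMap R _ (M : R)) (DA M A) := by
  refine LinearMap.ext fun v => ?_
  funext n i
  rw [Module.End.mul_apply, Module.End.mul_apply]
  rcases n with _ | n
  · rw [S_zero, DA_apply, Finset.sum_range_one, S_zero, Matrix.mulVec_zero]
    simp
  · rw [S_succ, DA_apply, Finset.sum_range_succ', S_zero, Matrix.mulVec_zero, S_succ]
    change DA M A v n i + (M : R) * v n i = _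
    rw [DA_apply]
    simp only [S_succ, Pi.zero_apply, add_zero, Nat.add_sub_add_right]
    push_cast
    ring

/-- `DA` is lower triangular -/
theorem tri (M : ℕ) (A : ℕ → Matrix ι ι R) (n : ℕ) (w : ℕ → ι → R) (hw : ∀ m ≤ n, w m = 0) :
    ∀ m ≤ n, DA M A w m = 0 := by
  intro m hm
  funext i
  rw [DA_apply, hw m hm, Finset.sum_eq_zero]
  · simp
  · intro k hk
    have h1 := Finset.mem_range.1 hk
    rw [hw k (by omega), Matrix.mulVec_zero]
    rfl

theorem tri_pow (M : ℕ) (A : ℕ → Matrix ι ι R) (n k : ℕ) (w : ℕ → ι → R)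
    (hw : ∀ m ≤ n, w m = 0) : ∀ m ≤ n, ((DA M A : Module.End R (ℕ → ι → R)) ^ k) w m = 0 := by
  induction k with
  | zero => exact hw
  | succ k ih =>
    rw [pow_succ', Module.End.mul_apply]
    exact tri M A n _ ih

end IPCG

open IPCG in
/-- PCG: if the p-th iterate of `DA` is `DA` modulo `p` on constants then everywhere. -/
theorem pr_PCG : StPCG := by
  intro p _ ι _ _ M A hcst v
  set D : Module.End (ZMod p) (ℕ → ι → ZMod p) := DA M A with hD
  set L : Module.End (ZMod p) (ℕ → ι → ZMod p) := D ^ p - D with hL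
  set T : Module.End (ZMod p) (ℕ → ι → ZMod p) := D + algebraMap (ZMod p) _ (M : ZMod p) with hT
  have hTp : T ^ p - T = L := by
    have h3 : ((Polynomial.X : (ZMod p)[X]) + Polynomial.C (M : ZMod p)) ^ p -
        (Polynomial.X + Polynomial.C (M : ZMod p)) = Polynomial.X ^ p - Polynomial.X := by
      rw [add_pow_char, ← Polynomial.C_pow, ZMod.pow_card]
      ring
    have h4 := congrArg (Polynomial.aeval D) h3
    rw [map_sub, map_sub, map_pow, map_add, Polynomial.aeval_X, Polynomial.aeval_C, map_pow,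
      Polynomial.aeval_X] at h4
    exact h4
  have hSL : S ι (ZMod p) * L = L * S ι (ZMod p) := by
    have h3 : SemiconjBy (S ι (ZMod p) : Module.End (ZMod p) (ℕ → ι → ZMod p)) T D := semi M A
    have h4 := h3.pow_right p
    have h5 : (S ι (ZMod p) : Module.End (ZMod p) (ℕ → ι → ZMod p)) * (T ^ p - T) =
        (D ^ p - D) * S ι (ZMod p) := by
      rw [mul_sub, sub_mul, h4.eq, h3.eq]
    rw [hTp] at h5
    exact h5
  have he : ∀ (k : ℕ) (u : ι → ZMod p), L (e k u) = 0 := by
    intro k u
    induction k with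
    | zero =>
      rw [← cst_e, hL, LinearMap.sub_apply, hcst, sub_self]
    | succ k ih =>
      rw [← S_e]
      have h3 := congrArg (fun A : Module.End (ZMod p) (ℕ → ι → ZMod p) => A (e k u)) hSL
      simp only [Module.End.mul_apply] at h3
      rw [← h3, ih, map_zero]
  have hmain : L v = 0 := by
    funext n
    set w : ℕ → ι → ZMod p := v - ∑ k ∈ Finset.range (n + 1), e k (v k) with hw
    have hw0 : ∀ m ≤ n, w m = 0 := by
      intro m hm
      rw [hw, Pi.sub_apply, Finset.sum_apply]
      unfold e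
      rw [Finset.sum_ite_eq (Finset.range (n + 1)) m (fun k => v k),
        if_pos (Finset.mem_range.2 (by omega)), sub_self]
    have hv : L v = L w := by
      have h3 : v = w + ∑ k ∈ Finset.range (n + 1), e k (v k) := by
        rw [hw, sub_add_cancel]
      conv_lhs => rw [h3]
      rw [map_add, map_sum, Finset.sum_eq_zero fun k _ => he k (v k), add_zero]
    rw [hv, hL, LinearMap.sub_apply, Pi.sub_apply, tri_pow M A n p w hw0 n le_rfl,
      tri M A n w hw0 n le_rfl, sub_zero]
    rfl
  rw [hL, LinearMap.sub_apply] at hmain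
  exact sub_eq_zero.1 hmain

end Pool.Agent.Work.MP_5e5ff1_ag.TH
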