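import Mathlib
import Pool.Agent.Work.MP_5e5ff1_ag.TH.StmtsY

set_option autoImplicit false

/-!
# MP_5e5ff1_ag, block TH, item QAT
-/

open Matrix Filter Topology NumberField
open scoped Polynomial nonZeroDivisors

namespace Pool.Agent.Work.MP_5e5ff1_ag.TH

namespace IQAT

variable {ι : Type} [Fintype ι] [DecidableEq ι] {R : Type} [CommRing R]

theorem DA_zero (M : ℕ) (A : ℕ → Matrix ι ι R) (v : ℕ → ι → R) :
    DA M A v 0 = A 0 *ᵥ v 0 := by
  funext i
  show (M : R) * ((0 : ℕ) : R) * v 0 i + ∑ k ∈ Finset.range (0 + 1), (A (0 - k) *ᵥ v k) i = _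
  simp

theorem DA_pow_zero (M : ℕ) (A : ℕ → Matrix ι ι R) (v : ℕ → ι → R) (k : ℕ) :
    ((DA M A) ^ k) v 0 = (A 0) ^ k *ᵥ v 0 := by
  induction k with
  | zero => simp
  | succ k ih =>
    rw [pow_succ', Module.End.mul_apply, DA_zero, ih, Matrix.mulVec_mulVec, ← pow_succ']

theorem key (M : ℕ) (A : ℕ → Matrix ι ι R) (p : ℕ)
    (h : ∀ v : ℕ → ι → R, ((DA M A) ^ p) v = DA M A v) : (A 0) ^ p = A 0 := by
  apply Matrix.toLin'.injective
  refine LinearMap.ext fun x => ?_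
  rw [Matrix.toLin'_apply, Matrix.toLin'_apply]
  have h1 := congrFun (h (cst x)) 0
  rw [DA_pow_zero, DA_zero] at h1
  exact h1

end IQAT

theorem pr_QAT (h1 : StPC0G) : StQAT := by
  intro p _ ι _ _ M B C hp hZ
  have hA := h1 p ι M B C hp hZ
  have h2 := IQAT.key M _ p hA
  have h3 : (-pm p B) ^ p = -pm p B := h2
  have h4 : (-pm p B) ^ p = -(pm p B) ^ p := by
    rw [← neg_one_smul (ZMod p) (pm p B), smul_pow, neg_one_pow_char, neg_one_smul]
  rw [h4] at h3
  exact neg_injective h3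

end Pool.Agent.Work.MP_5e5ff1_ag.TH
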