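import Mathlib
import Pool.Agent.Work.MP_5e5ff1_ag.TH.StmtsX

set_option autoImplicit false

/-!
# MP_5e5ff1_ag, block TH, item REP: representatives of the classes modulo `M`
-/

open Matrix Filter Topology NumberField
open scoped Polynomial nonZeroDivisors

namespace Pool.Agent.Work.MP_5e5ff1_ag.TH

theorem pr_REP : StREP := by
  intro ι _ _ M β _
  have h0 : ∀ i : ι, ∃ j, (M : ℤ) ∣ β j - β i ∧ ∀ j', (M : ℤ) ∣ β j' - β i → β j ≤ β j' := by
    intro i
    obtain ⟨j, hj, hj'⟩ := Finset.exists_min_image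
      (Finset.univ.filter fun j => (M : ℤ) ∣ β j - β i) β
      ⟨i, Finset.mem_filter.2 ⟨Finset.mem_univ i, by simp⟩⟩
    exact ⟨j, (Finset.mem_filter.1 hj).2, fun j' h =>
      hj' j' (Finset.mem_filter.2 ⟨Finset.mem_univ j', h⟩)⟩
  choose f hf1 hf2 using h0
  have hmod : ∀ i, β (f i) % (M : ℤ) = β i % (M : ℤ) := fun i =>
    (Int.emod_emod_of_dvd _ (dvd_refl _)).symm.trans
      ((Int.emod_emod_of_dvd _ (dvd_refl _)).trans (Int.ModEq.symm (Int.modEq_iff_dvd.2 (hf1 i))))
  refine ⟨Finset.univ.image fun i => β (f i), ?_, ?_, ?_, ?_⟩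
  · have h1 : (Finset.univ.image fun i => β i % (M : ℤ)) =
        (Finset.univ.image fun i => β (f i)).image fun c => c % (M : ℤ) := by
      rw [Finset.image_image]
      exact Finset.image_congr fun i _ => (hmod i).symm
    rw [nc, h1]
    refine (Finset.card_image_of_injOn ?_).symm
    have key : ∀ i i' : ι, β (f i) % (M : ℤ) = β (f i') % (M : ℤ) → β (f i') ≤ β (f i) := by
      intro i i' h
      rw [hmod i'] at h
      have h2 : (M : ℤ) ∣ β i' - β (f i) := Int.modEq_iff_dvd.1 h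
      exact hf2 i' (f i) ((dvd_sub_comm).1 h2)
    intro c hc c' hc' h
    obtain ⟨i, -, rfl⟩ := Finset.mem_image.1 (Finset.mem_coe.1 hc)
    obtain ⟨i', -, rfl⟩ := Finset.mem_image.1 (Finset.mem_coe.1 hc')
    exact le_antisymm (key i' i h.symm) (key i i' h)
  · intro c hc
    obtain ⟨i, -, rfl⟩ := Finset.mem_image.1 hc
    exact ⟨f i, rfl⟩
  · intro i
    exact ⟨β (f i), Finset.mem_image.2 ⟨i, Finset.mem_univ i, rfl⟩, hf2 i i (by simp),
      (dvd_sub_comm).1 (hf1 i)⟩
  · intro c hc j hj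
    obtain ⟨i, -, rfl⟩ := Finset.mem_image.1 hc
    refine hf2 i j ?_
    have h1 := dvd_add hj (hf1 i)
    rwa [sub_add_sub_cancel] at h1

end Pool.Agent.Work.MP_5e5ff1_ag.TH
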