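import Mathlib
import Pool.Agent.Work.MP_5e5ff1_ag.TH.StmtsA

set_option autoImplicit false

/-!
# MP_5e5ff1_ag, block TH, item REV: the reversed numerators
-/

open Matrix
open scoped Polynomial

namespace Pool.Agent.Work.MP_5e5ff1_ag.TH

namespace IREV

section pol

variable {R : Type*} [CommRing R]

lemma a0 (a : R) (f : R[X]) :
    (Polynomial.C a * ((Polynomial.X : R[X]) * (Polynomial.X - 1)) *
      Polynomial.derivative f).coeff 0 = 0 := by
  have e : Polynomial.C a * ((Polynomial.X : R[X]) * (Polynomial.X - 1)) *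
      Polynomial.derivative f = Polynomial.X * (Polynomial.C a * ((Polynomial.X - 1) *
      Polynomial.derivative f)) := by ring
  rw [e, Polynomial.coeff_X_mul_zero]

lemma aS (a : R) (f : R[X]) (n : ℕ) :
    (Polynomial.C a * ((Polynomial.X : R[X]) * (Polynomial.X - 1)) *
      Polynomial.derivative f).coeff (n + 1) =
      a * ((n : R) * f.coeff n - ((n : R) + 1) * f.coeff (n + 1)) := by
  have e : Polynomial.C a * ((Polynomial.X : R[X]) * (Polynomial.X - 1)) *
      Polynomial.derivative f = Polynomial.X * (Polynomial.C a * (Polynomial.X *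
      Polynomial.derivative f - Polynomial.derivative f)) := by ring
  rw [e, Polynomial.coeff_X_mul, Polynomial.coeff_C_mul, Polynomial.coeff_sub]
  cases n with
  | zero =>
    rw [Polynomial.coeff_X_mul_zero, Polynomial.coeff_derivative]
    push_cast
    ring
  | succ m =>
    rw [Polynomial.coeff_X_mul, Polynomial.coeff_derivative, Polynomial.coeff_derivative]
    push_cast
    ring

lemma b0 (k : ℕ) (a : R) (f : R[X]) :
    ((k : R[X]) * Polynomial.C a * (2 * (Polynomial.X : R[X]) - 1) * f).coeff 0 =
      -((k : R) * a * f.coeff 0) := by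
  have e : (k : R[X]) * Polynomial.C a * (2 * (Polynomial.X : R[X]) - 1) * f =
      Polynomial.X * (Polynomial.C (2 * (k : R) * a) * f) - Polynomial.C ((k : R) * a) * f := by
    simp only [map_mul, map_natCast, Polynomial.C_ofNat]
    ring
  rw [e, Polynomial.coeff_sub, Polynomial.coeff_X_mul_zero, Polynomial.coeff_C_mul, zero_sub]

lemma bS (k : ℕ) (a : R) (f : R[X]) (n : ℕ) :
    ((k : R[X]) * Polynomial.C a * (2 * (Polynomial.X : R[X]) - 1) * f).coeff (n + 1) =
      (k : R) * a * (2 * f.coeff n - f.coeff (n + 1)) := by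
  have e : (k : R[X]) * Polynomial.C a * (2 * (Polynomial.X : R[X]) - 1) * f =
      Polynomial.X * (Polynomial.C (2 * (k : R) * a) * f) - Polynomial.C ((k : R) * a) * f := by
    simp only [map_mul, map_natCast, Polynomial.C_ofNat]
    ring
  rw [e, Polynomial.coeff_sub, Polynomial.coeff_X_mul, Polynomial.coeff_C_mul,
    Polynomial.coeff_C_mul]
  ring

lemma c0 (x y : R) (f : R[X]) :
    ((((Polynomial.X : R[X]) - 1) * Polynomial.C x + Polynomial.X * Polynomial.C y) * f).coeff 0 =
      -(x * f.coeff 0) := by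
  have e : (((Polynomial.X : R[X]) - 1) * Polynomial.C x + Polynomial.X * Polynomial.C y) * f =
      Polynomial.X * (Polynomial.C (x + y) * f) - Polynomial.C x * f := by
    rw [map_add]
    ring
  rw [e, Polynomial.coeff_sub, Polynomial.coeff_X_mul_zero, Polynomial.coeff_C_mul, zero_sub]

lemma cS (x y : R) (f : R[X]) (n : ℕ) :
    ((((Polynomial.X : R[X]) - 1) * Polynomial.C x + Polynomial.X * Polynomial.C y) * f).coeff
      (n + 1) = x * (f.coeff n - f.coeff (n + 1)) + y * f.coeff n := by
  have e : (((Polynomial.X : R[X]) - 1) * Polynomial.C x + Polynomial.X * Polynomial.C y) * f =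
      Polynomial.X * (Polynomial.C (x + y) * f) - Polynomial.C x * f := by
    rw [map_add]
    ring
  rw [e, Polynomial.coeff_sub, Polynomial.coeff_X_mul, Polynomial.coeff_C_mul,
    Polynomial.coeff_C_mul]
  ring

lemma d0 (x y : R) (f : R[X]) :
    (((1 - (Polynomial.X : R[X])) * Polynomial.C x + Polynomial.C y) * f).coeff 0 =
      x * f.coeff 0 + y * f.coeff 0 := by
  have e : ((1 - (Polynomial.X : R[X])) * Polynomial.C x + Polynomial.C y) * f =
      Polynomial.C (x + y) * f - Polynomial.X * (Polynomial.C x * f) := by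
    rw [map_add]
    ring
  rw [e, Polynomial.coeff_sub, Polynomial.coeff_X_mul_zero, Polynomial.coeff_C_mul]
  ring

lemma dS (x y : R) (f : R[X]) (n : ℕ) :
    (((1 - (Polynomial.X : R[X])) * Polynomial.C x + Polynomial.C y) * f).coeff (n + 1) =
      x * (f.coeff (n + 1) - f.coeff n) + y * f.coeff (n + 1) := by
  have e : ((1 - (Polynomial.X : R[X])) * Polynomial.C x + Polynomial.C y) * f =
      Polynomial.C (x + y) * f - Polynomial.X * (Polynomial.C x * f) := by
    rw [map_add]
    ring
  rw [e, Polynomial.coeff_sub, Polynomial.coeff_X_mul, Polynomial.coeff_C_mul,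
    Polynomial.coeff_C_mul]
  ring

end pol

section mat

variable {R : Type*} [CommRing R] {ι : Type} [Fintype ι] [DecidableEq ι]

lemma Qm_ent (M : ℕ) (b c : Matrix ι ι R) (k : ℕ) (i j : ι) :
    Qm M b c (k + 1) i j =
      Polynomial.C (M : R) * ((Polynomial.X : R[X]) * (Polynomial.X - 1)) *
        Polynomial.derivative (Qm M b c k i j) -
      (k : R[X]) * Polynomial.C (M : R) * (2 * (Polynomial.X : R[X]) - 1) * Qm M b c k i j -
      ∑ l, (((Polynomial.X : R[X]) - 1) * Polynomial.C (b i l) +
        Polynomial.X * Polynomial.C (c i l)) * Qm M b c k l j := rfl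

lemma Qr_ent (M : ℕ) (b c : Matrix ι ι R) (k : ℕ) (i j : ι) :
    Qr M b c (k + 1) i j =
      -(Polynomial.C (M : R) * ((Polynomial.X : R[X]) * (1 - Polynomial.X)) *
        Polynomial.derivative (Qr M b c k i j)) -
      (k : R[X]) * Polynomial.C (M : R) * Qr M b c k i j -
      ∑ l, ((1 - (Polynomial.X : R[X])) * Polynomial.C (b i l) +
        Polynomial.C (c i l)) * Qr M b c k l j := rfl

lemma Qm0 (M : ℕ) (b c : Matrix ι ι R) (k : ℕ) (i j : ι) :
    (Qm M b c (k + 1) i j).coeff 0 = (k : R) * (M : R) * (Qm M b c k i j).coeff 0 +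
      ∑ l, b i l * (Qm M b c k l j).coeff 0 := by
  rw [Qm_ent, Polynomial.coeff_sub, Polynomial.coeff_sub, a0, b0, Polynomial.finsetSum_coeff,
    Finset.sum_congr rfl fun l _ => c0 (b i l) (c i l) (Qm M b c k l j), Finset.sum_neg_distrib]
  ring

lemma QmS (M : ℕ) (b c : Matrix ι ι R) (k : ℕ) (i j : ι) (n : ℕ) :
    (Qm M b c (k + 1) i j).coeff (n + 1) =
      (M : R) * ((n : R) * (Qm M b c k i j).coeff n -
        ((n : R) + 1) * (Qm M b c k i j).coeff (n + 1)) -
      (k : R) * (M : R) * (2 * (Qm M b c k i j).coeff n - (Qm M b c k i j).coeff (n + 1)) -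
      ∑ l, (b i l * ((Qm M b c k l j).coeff n - (Qm M b c k l j).coeff (n + 1)) +
        c i l * (Qm M b c k l j).coeff n) := by
  rw [Qm_ent, Polynomial.coeff_sub, Polynomial.coeff_sub, aS, bS, Polynomial.finsetSum_coeff,
    Finset.sum_congr rfl fun l _ => cS (b i l) (c i l) (Qm M b c k l j) n]

lemma Qr0 (M : ℕ) (b c : Matrix ι ι R) (k : ℕ) (i j : ι) :
    (Qr M b c (k + 1) i j).coeff 0 = -((k : R) * (M : R) * (Qr M b c k i j).coeff 0) -
      ∑ l, (b i l * (Qr M b c k l j).coeff 0 + c i l * (Qr M b c k l j).coeff 0) := by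
  have e : -(Polynomial.C (M : R) * ((Polynomial.X : R[X]) * (1 - Polynomial.X)) *
        Polynomial.derivative (Qr M b c k i j)) -
      (k : R[X]) * Polynomial.C (M : R) * Qr M b c k i j =
      Polynomial.C (M : R) * ((Polynomial.X : R[X]) * (Polynomial.X - 1)) *
        Polynomial.derivative (Qr M b c k i j) -
      Polynomial.C ((k : R) * (M : R)) * Qr M b c k i j := by
    have hk : Polynomial.C (k : R) = (k : R[X]) := map_natCast _ _
    rw [map_mul, hk]
    ring
  rw [Qr_ent, e, Polynomial.coeff_sub, Polynomial.coeff_sub, a0, Polynomial.coeff_C_mul,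
    Polynomial.finsetSum_coeff,
    Finset.sum_congr rfl fun l _ => d0 (b i l) (c i l) (Qr M b c k l j)]
  ring

lemma QrS (M : ℕ) (b c : Matrix ι ι R) (k : ℕ) (i j : ι) (n : ℕ) :
    (Qr M b c (k + 1) i j).coeff (n + 1) =
      (M : R) * ((n : R) * (Qr M b c k i j).coeff n -
        ((n : R) + 1) * (Qr M b c k i j).coeff (n + 1)) -
      (k : R) * (M : R) * (Qr M b c k i j).coeff (n + 1) -
      ∑ l, (b i l * ((Qr M b c k l j).coeff (n + 1) - (Qr M b c k l j).coeff n) +
        c i l * (Qr M b c k l j).coeff (n + 1)) := by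
  have e : -(Polynomial.C (M : R) * ((Polynomial.X : R[X]) * (1 - Polynomial.X)) *
        Polynomial.derivative (Qr M b c k i j)) -
      (k : R[X]) * Polynomial.C (M : R) * Qr M b c k i j =
      Polynomial.C (M : R) * ((Polynomial.X : R[X]) * (Polynomial.X - 1)) *
        Polynomial.derivative (Qr M b c k i j) -
      Polynomial.C ((k : R) * (M : R)) * Qr M b c k i j := by
    have hk : Polynomial.C (k : R) = (k : R[X]) := map_natCast _ _
    rw [map_mul, hk]
    ring
  rw [Qr_ent, e, Polynomial.coeff_sub, Polynomial.coeff_sub, aS, Polynomial.coeff_C_mul,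
    Polynomial.finsetSum_coeff,
    Finset.sum_congr rfl fun l _ => dS (b i l) (c i l) (Qr M b c k l j) n]

lemma main (M : ℕ) (b c : Matrix ι ι R) (k : ℕ) : ∀ i j : ι,
    (∀ n ≤ k, (Qr M b c k i j).coeff n = (Qm M b c k i j).coeff (k - n)) ∧
    ∀ n > k, (Qr M b c k i j).coeff n = 0 ∧ (Qm M b c k i j).coeff n = 0 := by
  induction k with
  | zero =>
    intro i j
    have e1 : Qr M b c 0 i j = (1 : Matrix ι ι R[X]) i j := rfl
    have e2 : Qm M b c 0 i j = (1 : Matrix ι ι R[X]) i j := rfl
    rw [e1, e2]
    refine ⟨?_, ?_⟩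
    · intro n hn
      have h0 : n = 0 := by omega
      subst h0
      rfl
    · intro n hn
      have h : ((1 : Matrix ι ι R[X]) i j).coeff n = 0 := by
        rw [Matrix.one_apply]
        split_ifs
        · rw [Polynomial.coeff_one, if_neg (by omega)]
        · exact Polynomial.coeff_zero n
      exact ⟨h, h⟩
  | succ k ih =>
    intro i j
    refine ⟨?_, ?_⟩
    · intro n hn
      cases n with
      | zero =>
        rw [Nat.sub_zero, Qr0, QmS, (ih i j).1 0 (Nat.zero_le _), Nat.sub_zero,
          ((ih i j).2 (k + 1) (by omega)).2]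
        have h : ∀ l, b i l * (Qr M b c k l j).coeff 0 + c i l * (Qr M b c k l j).coeff 0 =
            b i l * ((Qm M b c k l j).coeff k - (Qm M b c k l j).coeff (k + 1)) +
              c i l * (Qm M b c k l j).coeff k := by
          intro l
          rw [(ih l j).1 0 (Nat.zero_le _), Nat.sub_zero, ((ih l j).2 (k + 1) (by omega)).2,
            sub_zero]
        rw [Finset.sum_congr rfl fun l _ => h l]
        ring
      | succ m =>
        by_cases hm : m = k
        · subst hm
          rw [Nat.sub_self, Qm0, QrS, (ih i j).1 m le_rfl, Nat.sub_self,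
            ((ih i j).2 (m + 1) (by omega)).1]
          have h : ∀ l, b i l * ((Qr M b c m l j).coeff (m + 1) - (Qr M b c m l j).coeff m) +
              c i l * (Qr M b c m l j).coeff (m + 1) = -(b i l * (Qm M b c m l j).coeff 0) := by
            intro l
            rw [(ih l j).1 m le_rfl, Nat.sub_self, ((ih l j).2 (m + 1) (by omega)).1]
            ring
          rw [Finset.sum_congr rfl fun l _ => h l, Finset.sum_neg_distrib]
          ring
        · obtain ⟨d, rfl⟩ : ∃ d, k = m + 1 + d := ⟨k - (m + 1), by omega⟩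
          have e1 : m + 1 + d + 1 - (m + 1) = d + 1 := by omega
          have e2 : m + 1 + d - m = d + 1 := by omega
          have e3 : m + 1 + d - (m + 1) = d := by omega
          rw [e1, QmS, QrS, (ih i j).1 m (by omega), (ih i j).1 (m + 1) (by omega), e2, e3]
          have h : ∀ l, b i l * ((Qr M b c (m + 1 + d) l j).coeff (m + 1) -
                (Qr M b c (m + 1 + d) l j).coeff m) +
              c i l * (Qr M b c (m + 1 + d) l j).coeff (m + 1) =
              b i l * ((Qm M b c (m + 1 + d) l j).coeff d -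
                (Qm M b c (m + 1 + d) l j).coeff (d + 1)) +
              c i l * (Qm M b c (m + 1 + d) l j).coeff d := by
            intro l
            rw [(ih l j).1 m (by omega), (ih l j).1 (m + 1) (by omega), e2, e3]
          rw [Finset.sum_congr rfl fun l _ => h l]
          push_cast
          ring
    · intro n hn
      obtain ⟨m, rfl⟩ : ∃ m, n = m + 1 := ⟨n - 1, by omega⟩
      have hz : ∀ l, (Qr M b c k l j).coeff m = 0 ∧ (Qr M b c k l j).coeff (m + 1) = 0 ∧
          (Qm M b c k l j).coeff m = 0 ∧ (Qm M b c k l j).coeff (m + 1) = 0 := by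
        intro l
        exact ⟨((ih l j).2 m (by omega)).1, ((ih l j).2 (m + 1) (by omega)).1,
          ((ih l j).2 m (by omega)).2, ((ih l j).2 (m + 1) (by omega)).2⟩
      refine ⟨?_, ?_⟩
      · rw [QrS, (hz i).1, (hz i).2.1, Finset.sum_eq_zero]
        · ring
        · intro l _
          rw [(hz l).1, (hz l).2.1]
          ring
      · rw [QmS, (hz i).2.2.1, (hz i).2.2.2, Finset.sum_eq_zero]
        · ring
        · intro l _
          rw [(hz l).2.2.1, (hz l).2.2.2]
          ring

end mat

end IREV

/-- REV. -/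
theorem pr_REV : StREV := by
  intro R _ ι _ _ M b c k i j
  exact IREV.main M b c k i j

end Pool.Agent.Work.MP_5e5ff1_ag.TH
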