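import Mathlib
import Pool.Agent.Work.MP_5e5ff1_ag.TH.StmtsX

set_option autoImplicit false

/-!
# MP_5e5ff1_ag, block TH, item RK: restriction of scalars for matrices over the field
-/

open Matrix Filter Topology NumberField
open scoped Polynomial nonZeroDivisors

namespace Pool.Agent.Work.MP_5e5ff1_ag.TH

namespace IRK

/-- the basis consists of the elements of the integral basis -/
theorem qb_apply (K : Type) [Field K] [NumberField K] (a : Fin (Module.finrank ℤ (𝓞 K))) :
    qb K a = algebraMap (𝓞 K) K (Module.finBasis ℤ (𝓞 K) a) :=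
  Module.Basis.localizationLocalization_apply ℚ ℤ⁰ K _ a

/-- multiplication by an integer has an integral matrix -/
theorem lm_int (K : Type) [Field K] [NumberField K] (x : 𝓞 K)
    (a b : Fin (Module.finrank ℤ (𝓞 K))) :
    Algebra.leftMulMatrix (qb K) (x : K) a b =
      ((Algebra.leftMulMatrix (Module.finBasis ℤ (𝓞 K)) x a b : ℤ) : ℚ) := by
  rw [Algebra.leftMulMatrix_eq_repr_mul, Algebra.leftMulMatrix_eq_repr_mul, qb_apply]
  have h : (x : K) * algebraMap (𝓞 K) K (Module.finBasis ℤ (𝓞 K) b) =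
      algebraMap (𝓞 K) K (x * Module.finBasis ℤ (𝓞 K) b) := by
    rw [map_mul]
  rw [h]
  exact Module.Basis.localizationLocalization_repr_algebraMap ℚ ℤ⁰ K _ _ a

end IRK

open IRK in
theorem pr_RK : StRK := by
  intro K _ _ r
  refine ⟨?_, ?_, ?_, ?_, ?_, ?_, ?_⟩
  · ext ⟨i1, i2⟩ ⟨j1, j2⟩
    by_cases h : i1 = j1
    · subst h
      simp [rsK, Matrix.one_apply, Prod.ext_iff]
    · simp [rsK, Matrix.one_apply, Prod.ext_iff, h]
  · intro A B
    ext i j
    simp only [rsK, Matrix.mul_apply, Fintype.sum_prod_type, map_sum, Matrix.sum_apply, map_mul]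
  · intro A B
    ext i j
    simp only [rsK, Matrix.add_apply, map_add]
  · intro q A
    ext i j
    simp only [rsK, Matrix.smul_apply, map_smul]
  · intro A hA
    ext i j
    have h1 : Algebra.leftMulMatrix (qb K) (A i j) = 0 := by
      ext a b
      exact congrFun (congrFun hA (i, a)) (j, b)
    have h2 : Algebra.leftMulMatrix (qb K) (A i j) = Algebra.leftMulMatrix (qb K) 0 := by
      rw [h1, map_zero]
    exact Algebra.leftMulMatrix_injective _ h2
  · intro c
    ext ⟨i1, i2⟩ ⟨j1, j2⟩
    exact lm_int K (c i1 j1) i2 j2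
  · intro β
    ext ⟨i1, i2⟩ ⟨j1, j2⟩
    have hint : ∀ n : ℤ, Algebra.leftMulMatrix (qb K) ((n : ℤ) : K) = ((n : ℤ) : Matrix _ _ ℚ) :=
      fun n => map_intCast _ n
    by_cases h : i1 = j1
    · subst h
      simp only [rsK, db, Matrix.diagonal_apply_eq, hint]
      rw [← Matrix.diagonal_intCast]
      by_cases h2 : i2 = j2
      · subst h2
        simp
      · rw [Matrix.diagonal_apply_ne _ h2, Matrix.diagonal_apply_ne _ (fun h3 => h2 (Prod.ext_iff.1 h3).2)]
    · simp only [rsK, db, Matrix.diagonal_apply_ne _ h]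
      rw [map_zero, Matrix.zero_apply, Matrix.diagonal_apply_ne _ (fun h3 => h (Prod.ext_iff.1 h3).1)]

end Pool.Agent.Work.MP_5e5ff1_ag.TH
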