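import Mathlib
import Pool.Agent.Work.MP_5e5ff1_ag.TH.StmtsX

set_option autoImplicit false

/-! # Item RKG of the block TH: growth and restriction of scalars over `K` -/

open Matrix Filter Topology NumberField
open scoped Polynomial nonZeroDivisors

namespace Pool.Agent.Work.MP_5e5ff1_ag.TH

namespace IRKG

/-- the elements of the rational basis -/
theorem qb_apply (K : Type) [Field K] [NumberField K]
    (b : Fin (Module.finrank ℤ (𝓞 K))) :
    qb K b = ((Module.finBasis ℤ (𝓞 K) b : 𝓞 K) : K) :=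
  Module.Basis.localizationLocalization_apply ℚ ℤ⁰ K _ b

/-- the entries of the restriction of scalars -/
theorem rsK_apply (K : Type) [Field K] [NumberField K] {r : ℕ}
    (A : Matrix (Fin r) (Fin r) K) (i j : Fin r) (s b : Fin (Module.finrank ℤ (𝓞 K))) :
    rsK K A (i, s) (j, b) = (qb K).repr (A i j * qb K b) s :=
  Algebra.leftMulMatrix_eq_repr_mul (qb K) (A i j) s b

/-- coordinates of an algebraic integer -/
theorem repr_int (K : Type) [Field K] [NumberField K] (w : 𝓞 K)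
    (s : Fin (Module.finrank ℤ (𝓞 K))) :
    (qb K).repr (w : K) s = (((Module.finBasis ℤ (𝓞 K)).repr w s : ℤ) : ℚ) :=
  Module.Basis.localizationLocalization_repr_algebraMap ℚ ℤ⁰ K _ w s

/-- rational factors -/
theorem repr_mul (K : Type) [Field K] [NumberField K] (m p e : ℕ) (x : K)
    (s : Fin (Module.finrank ℤ (𝓞 K))) :
    (qb K).repr ((m : K) * (p : K) ^ e * x) s = (m : ℚ) * (p : ℚ) ^ e * (qb K).repr x s := by
  have h : (m : K) * (p : K) ^ e * x = ((m : ℚ) * (p : ℚ) ^ e) • x := by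
    rw [Rat.smul_def]
    push_cast
    ring
  rw [h, map_smul, Finsupp.smul_apply, smul_eq_mul]

theorem norm_pow {p : ℕ} (hp : p.Prime) (e : ℕ) : padicNorm p ((p : ℚ) ^ e) = ((p : ℚ) ^ e)⁻¹ := by
  have : Fact p.Prime := ⟨hp⟩
  induction e with
  | zero => rw [pow_zero, inv_one, padicNorm.one]
  | succ e ih =>
    rw [pow_succ, padicNorm.mul, padicNorm.padicNorm_p hp.one_lt, mul_inv, ih]

/-- the norm bound from an integral multiple -/
theorem norm_le {p m e : ℕ} (hp : p.Prime) (hm : ¬ p ∣ m) (v : ℚ) (z : ℤ)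
    (h : (m : ℚ) * (p : ℚ) ^ e * v = (z : ℚ)) : padicNorm p v ≤ (p : ℚ) ^ e := by
  have : Fact p.Prime := ⟨hp⟩
  have hp0 : (0 : ℚ) < (p : ℚ) := by exact_mod_cast hp.pos
  have h1 : padicNorm p ((m : ℚ) * (p : ℚ) ^ e * v) ≤ 1 := by
    rw [h]
    exact padicNorm.of_int z
  have h2 : padicNorm p (m : ℚ) = 1 := padicNorm.nat_eq_one_iff m |>.2 hm
  rw [padicNorm.mul, padicNorm.mul, h2, norm_pow hp, one_mul] at h1
  have h4 : (0 : ℚ) < (p : ℚ) ^ e := by positivity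
  calc padicNorm p v = (p : ℚ) ^ e * (((p : ℚ) ^ e)⁻¹ * padicNorm p v) := by
        rw [← mul_assoc, mul_inv_cancel₀ h4.ne', one_mul]
    _ ≤ (p : ℚ) ^ e * 1 := mul_le_mul_of_nonneg_left h1 h4.le
    _ = (p : ℚ) ^ e := mul_one _

/-- the converse: a denominator prime to `p` -/
theorem exists_den {p e : ℕ} (hp : p.Prime) (v : ℚ) (h : padicNorm p v ≤ (p : ℚ) ^ e) :
    ∃ (m : ℕ) (z : ℤ), ¬ p ∣ m ∧ (m : ℚ) * (p : ℚ) ^ e * v = (z : ℚ) := by
  have : Fact p.Prime := ⟨hp⟩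
  have hp0 : (0 : ℚ) < (p : ℚ) := by exact_mod_cast hp.pos
  have h4 : (0 : ℚ) < (p : ℚ) ^ e := by positivity
  obtain ⟨q, hq⟩ : ∃ q : ℚ, q = (p : ℚ) ^ e * v := ⟨_, rfl⟩
  have hq1 : padicNorm p q ≤ 1 := by
    rw [hq, padicNorm.mul, norm_pow hp]
    calc ((p : ℚ) ^ e)⁻¹ * padicNorm p v ≤ ((p : ℚ) ^ e)⁻¹ * (p : ℚ) ^ e :=
          mul_le_mul_of_nonneg_left h (inv_nonneg.2 h4.le)
      _ = 1 := inv_mul_cancel₀ h4.ne'
  refine ⟨q.den, q.num, ?_, ?_⟩
  · intro hd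
    have h5 : padicNorm p (q.num : ℚ) < 1 := by
      have h6 : (q.num : ℚ) = q * (q.den : ℚ) := (Rat.mul_den_eq_num q).symm
      rw [h6, padicNorm.mul]
      calc padicNorm p q * padicNorm p (q.den : ℚ) ≤ 1 * padicNorm p (q.den : ℚ) :=
            mul_le_mul_of_nonneg_right hq1 (padicNorm.nonneg _)
        _ = padicNorm p (q.den : ℚ) := one_mul _
        _ < 1 := (padicNorm.nat_lt_one_iff _).2 hd
    have h7 : (p : ℤ) ∣ q.num := (padicNorm.int_lt_one_iff _).1 h5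
    have h8 : p ∣ q.num.natAbs := Int.natCast_dvd.1 h7
    exact hp.one_lt.ne' (Nat.eq_one_of_dvd_coprimes q.reduced h8 hd)
  · rw [mul_assoc, ← hq, mul_comm]
    exact Rat.mul_den_eq_num q

/-- an element whose coordinates with respect to the products with the basis are integers is
integral -/
theorem integral (K : Type) [Field K] [NumberField K] (x : K)
    (h : ∀ s b, ∃ z : ℤ, (qb K).repr (x * qb K b) s = (z : ℚ)) : IsIntegral ℤ x := by
  have h1 : ∀ b, IsIntegral ℤ (x * qb K b) := by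
    intro b
    rw [← (qb K).sum_repr (x * qb K b)]
    refine IsIntegral.sum _ fun s _ => ?_
    obtain ⟨z, hz⟩ := h s b
    rw [hz, Rat.smul_def, Rat.cast_intCast, qb_apply]
    exact (isIntegral_algebraMap (R := ℤ) (A := K) (x := z)).mul
      (Module.finBasis ℤ (𝓞 K) s).2
  have h2 : x = ∑ b, (((Module.finBasis ℤ (𝓞 K)).repr 1 b : ℤ) : K) * (x * qb K b) := by
    have h3 := congrArg (algebraMap (𝓞 K) K) ((Module.finBasis ℤ (𝓞 K)).sum_repr 1)
    rw [map_one (algebraMap (𝓞 K) K), map_sum] at h3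
    calc x = x * 1 := (mul_one x).symm
      _ = x * ∑ b, algebraMap (𝓞 K) K ((Module.finBasis ℤ (𝓞 K)).repr 1 b •
            Module.finBasis ℤ (𝓞 K) b) := by rw [h3]
      _ = _ := by
        rw [Finset.mul_sum]
        refine Finset.sum_congr rfl fun b _ => ?_
        rw [qb_apply, zsmul_eq_mul, map_mul, map_intCast]
        ring
  rw [h2]
  refine IsIntegral.sum _ fun b _ => ?_
  exact (isIntegral_algebraMap (R := ℤ) (A := K)
    (x := (Module.finBasis ℤ (𝓞 K)).repr 1 b)).mul (h1 b)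

end IRKG

theorem pr_RKG : StRKG := by
  intro K _ _ r U p κ hp
  have : Fact p.Prime := ⟨hp⟩
  constructor
  · intro hG ε hε
    obtain ⟨a, ha⟩ := hG ε hε
    refine ⟨a, ?_⟩
    intro n ⟨i, s⟩ ⟨j, b⟩
    obtain ⟨m, hm, hint⟩ := ha n i j
    obtain ⟨e, he⟩ : ∃ e : ℕ, e = a + ⌈(κ + ε) * n⌉₊ := ⟨_, rfl⟩
    rw [← he] at hint ⊢
    have hint2 : IsIntegral ℤ ((m : K) * (p : K) ^ e * U n i j *
        ((Module.finBasis ℤ (𝓞 K) b : 𝓞 K) : K)) :=
      hint.mul (Module.finBasis ℤ (𝓞 K) b).2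
    obtain ⟨w, hw⟩ : ∃ w : 𝓞 K, (w : K) = (m : K) * (p : K) ^ e * U n i j *
        ((Module.finBasis ℤ (𝓞 K) b : 𝓞 K) : K) := ⟨⟨_, hint2⟩, rfl⟩
    refine IRKG.norm_le hp hm _ ((Module.finBasis ℤ (𝓞 K)).repr w s) ?_
    show (m : ℚ) * (p : ℚ) ^ e * rsK K (U n) (i, s) (j, b) = _
    rw [← IRKG.repr_int, hw, mul_assoc ((m : K) * (p : K) ^ e), IRKG.repr_mul, IRKG.rsK_apply,
      IRKG.qb_apply]
  · intro hG ε hε
    obtain ⟨a, ha⟩ := hG ε hε
    refine ⟨a, ?_⟩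
    intro n i j
    obtain ⟨e, he⟩ : ∃ e : ℕ, e = a + ⌈(κ + ε) * n⌉₊ := ⟨_, rfl⟩
    have h1 : ∀ t : Fin (Module.finrank ℤ (𝓞 K)) × Fin (Module.finrank ℤ (𝓞 K)),
        ∃ (m : ℕ) (z : ℤ), ¬ p ∣ m ∧
          (m : ℚ) * (p : ℚ) ^ e * rsK K (U n) (i, t.1) (j, t.2) = (z : ℚ) := by
      intro t
      have h2 := ha n (i, t.1) (j, t.2)
      rw [← he] at h2
      exact IRKG.exists_den hp _ h2
    choose m z hm hz using h1
    rw [← he]
    refine ⟨∏ t, m t, ?_, ?_⟩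
    · intro hd
      obtain ⟨t, -, ht⟩ := (Prime.dvd_finset_prod_iff hp.prime _).1 hd
      exact hm t ht
    · refine IRKG.integral K _ fun s b => ?_
      obtain ⟨q, hq⟩ : m (s, b) ∣ ∏ t, m t := Finset.dvd_prod_of_mem m (Finset.mem_univ (s, b))
      refine ⟨(q : ℤ) * z (s, b), ?_⟩
      rw [mul_assoc (((∏ t, m t : ℕ) : K) * (p : K) ^ e), IRKG.repr_mul, ← IRKG.rsK_apply, hq]
      push_cast
      rw [← hz (s, b)]
      ring

end Pool.Agent.Work.MP_5e5ff1_ag.TH
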