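import Mathlib
import Pool.Agent.Work.MP_5e5ff1_ag.TH.StmtsX

set_option autoImplicit false

/-!
# MP_5e5ff1_ag, block TH, item RKU (helper56)
-/

open Matrix

namespace Pool.Agent.Work.MP_5e5ff1_ag.TH

open NumberField

namespace IRKU

/-- matrix form of the recursion -/
lemma matForm {K : Type} [Field K] [NumberField K] {r M : ℕ} {β : Fin r → ℤ}
    {C : Matrix (Fin r) (Fin r) K} {U : ℕ → Matrix (Fin r) (Fin r) K}
    (hU : IsU M β C U) (n : ℕ) :
    ((M : ℚ) * (n : ℚ)) • U n + U n * (Matrix.diagonal fun i => ((β i : ℤ) : K))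
      + (-1 : ℚ) • ((Matrix.diagonal fun i => ((β i : ℤ) : K)) * U n)
      + ∑ k ∈ Finset.range n, C * U k = 0 := by
  ext i j
  have h := hU.eqn n i j
  simp only [Matrix.add_apply, Matrix.smul_apply, Matrix.mul_diagonal, Matrix.diagonal_mul,
    Matrix.sum_apply, Matrix.zero_apply]
  rw [← h]
  simp only [Algebra.smul_def, map_mul, map_natCast, map_neg, map_one]
  ring

end IRKU

open IRKU in
theorem pr_RKU (hRK : StRK) : StRKU := by
  intro K _ _ r M β c U hU
  obtain ⟨h1, hmul, hadd, hsmul, -, hc, hd⟩ := hRK K r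
  constructor
  · show rsK K (U 0) = 1
    rw [hU.zero, h1]
  · intro n x y
    have hm := matForm hU n
    have hf := congrArg (AddMonoidHom.mk' (rsK K (r := r)) hadd) hm
    rw [map_add, map_add, map_add, map_sum, map_zero] at hf
    simp only [AddMonoidHom.mk'_apply, hsmul, hmul, hc, hd] at hf
    have hxy := congrFun (congrFun hf x) y
    simp only [Matrix.add_apply, Matrix.smul_apply, Matrix.sum_apply, Matrix.zero_apply, db,
      Matrix.mul_diagonal, Matrix.diagonal_mul, smul_eq_mul] at hxy
    rw [← hxy]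
    ring

end Pool.Agent.Work.MP_5e5ff1_ag.TH
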