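import Mathlib
import Pool.Agent.Work.MP_5e5ff1_ag.TH.StmtsD

set_option autoImplicit false

/-!
# MP_5e5ff1_ag, block TH, item ROOT: roots of a function without zeros on a ball
-/

open Matrix Filter Topology

namespace Pool.Agent.Work.MP_5e5ff1_ag.TH

/-- Item ROOT. -/
theorem pr_ROOT : StROOT := by
  intro f z0 ρ N hρ hN hf hne
  have hopen : IsOpen (Metric.ball z0 ρ) := Metric.isOpen_ball
  have h0 : z0 ∈ Metric.ball z0 ρ := Metric.mem_ball_self hρ
  have hq : DifferentiableOn ℂ (fun z => deriv f z / f z) (Metric.ball z0 ρ) :=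
    (hf.deriv hopen).div hf hne
  obtain ⟨L, hL0, hL⟩ := hq.isExactOn_ball.with_val_at z0 0
  have hfd : ∀ z ∈ Metric.ball z0 ρ, HasDerivAt f (deriv f z) z := fun z hz =>
    (hf.differentiableAt (hopen.mem_nhds hz)).hasDerivAt
  have hF : ∀ z ∈ Metric.ball z0 ρ, HasDerivAt (fun y => f y * Complex.exp (-(L y))) 0 z := by
    intro z hz
    have h1 := (hfd z hz).mul ((hL z hz).neg.cexp)
    have h2 : deriv f z * Complex.exp (-(L z)) +
        f z * (Complex.exp (-(L z)) * -(deriv f z / f z)) = 0 := by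
      have := hne z hz
      field_simp
      ring
    rw [← h2]
    exact h1
  have hconst : ∀ z ∈ Metric.ball z0 ρ, f z * Complex.exp (-(L z)) = f z0 := by
    intro z hz
    have h1 := hopen.is_const_of_deriv_eq_zero (convex_ball z0 ρ).isPreconnected
      (fun y hy => (hF y hy).differentiableAt.differentiableWithinAt)
      (fun y hy => (hF y hy).deriv) hz h0
    simpa [hL0] using h1
  obtain ⟨c, hc⟩ := IsAlgClosed.exists_pow_nat_eq (f z0) hN
  have hc0 : c ≠ 0 := by
    rintro rfl
    rw [zero_pow hN.ne'] at hc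
    exact hne z0 h0 hc.symm
  have hN0 : (N : ℂ) ≠ 0 := by exact_mod_cast hN.ne'
  refine ⟨fun z => c * Complex.exp (L z / N), ?_, fun z hz => ⟨?_, ?_, ?_⟩⟩
  · intro z hz
    exact (((hL z hz).differentiableAt.div_const (N : ℂ)).cexp.const_mul c).differentiableWithinAt
  · exact mul_ne_zero hc0 (Complex.exp_ne_zero _)
  · have h1 := hconst z hz
    show (c * Complex.exp (L z / N)) ^ N = f z
    rw [mul_pow, hc, ← Complex.exp_nat_mul, ← h1, mul_assoc, ← Complex.exp_add]
    have h2 : -L z + (N : ℂ) * (L z / N) = 0 := by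
      field_simp
      ring
    rw [h2, Complex.exp_zero, mul_one]
  · have h1 : HasDerivAt (fun z => c * Complex.exp (L z / N))
        (c * (Complex.exp (L z / N) * (deriv f z / f z / N))) z :=
      (((hL z hz).div_const (N : ℂ)).cexp).const_mul c
    rw [h1.deriv]
    have := hne z hz
    field_simp

end Pool.Agent.Work.MP_5e5ff1_ag.TH
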