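import Mathlib
import Pool.Agent.Work.MP_5e5ff1_ag.TH.StmtsE

set_option autoImplicit false

/-!
# MP_5e5ff1_ag, block TH, item RSC
-/

open Matrix Filter Topology NumberField
open scoped Polynomial

namespace Pool.Agent.Work.MP_5e5ff1_ag.TH

namespace IRSC

/-- restriction of scalars as a ring homomorphism -/
noncomputable def rsH (K : Type) [Field K] [NumberField K] (r : ℕ) :
    Matrix (Fin r) (Fin r) (𝓞 K) →+*
      Matrix (Fin r × Fin (Module.finrank ℤ (𝓞 K))) (Fin r × Fin (Module.finrank ℤ (𝓞 K))) ℤ where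
  toFun := TG.rs K
  map_one' := by
    ext i j
    obtain ⟨i1, i2⟩ := i
    obtain ⟨j1, j2⟩ := j
    by_cases h : i1 = j1
    · subst h
      simp [TG.rs, Matrix.one_apply, Prod.ext_iff]
    · simp [TG.rs, Matrix.one_apply, Prod.ext_iff, h]
  map_mul' a b := by
    ext i j
    simp only [TG.rs, Matrix.mul_apply, Fintype.sum_prod_type, map_sum, Matrix.sum_apply, map_mul]
  map_zero' := by
    ext i j
    simp [TG.rs]
  map_add' a b := by
    ext i j
    simp [TG.rs, Matrix.add_apply]

end IRSC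

theorem pr_RSC : StRSC := by
  intro K _ _ r c γ hc
  have h1 : (Polynomial.map (algebraMap ℤ (𝓞 K))
      (∏ j, (Polynomial.X - Polynomial.C (γ j)) : ℤ[X])) = c.charpoly := by
    rw [hc, Polynomial.map_prod]
    refine Finset.prod_congr rfl fun j _ => ?_
    rw [Polynomial.map_sub, Polynomial.map_X, Polynomial.map_C]
    rfl
  have h2 : Polynomial.aeval c (∏ j, (Polynomial.X - Polynomial.C (γ j)) : ℤ[X]) = 0 := by
    rw [← Polynomial.aeval_map_algebraMap (𝓞 K), h1]
    exact Matrix.aeval_self_charpoly c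
  have h3 := Polynomial.aeval_algHom_apply (IRSC.rsH K r).toIntAlgHom c
    (∏ j, (Polynomial.X - Polynomial.C (γ j)) : ℤ[X])
  rw [h2, map_zero] at h3
  exact h3

end Pool.Agent.Work.MP_5e5ff1_ag.TH
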