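import Mathlib
import Pool.Agent.Work.MP_5e5ff1_ag.TH.StmtsE

/-!
MP_5e5ff1_ag, block TH, item RSD: restriction of scalars of a diagonal matrix with integer entries.
-/

set_option autoImplicit false

open Matrix NumberField

namespace Pool.Agent.Work.MP_5e5ff1_ag.TH

/-- Item RSD. -/
theorem pr_RSD : StRSD := by
  intro K _ _ r β c
  ext ⟨i, a⟩ ⟨j, b⟩
  simp only [TG.rs, db, Matrix.add_apply, map_add]
  congr 1
  by_cases hij : i = j
  · subst hij
    rw [Matrix.diagonal_apply_eq]
    have h1 : Algebra.leftMulMatrix (Module.finBasis ℤ (𝓞 K)) ((β i : ℤ) : 𝓞 K) =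
        ((β i : ℤ) : Matrix (Fin (Module.finrank ℤ (𝓞 K))) (Fin (Module.finrank ℤ (𝓞 K))) ℤ) :=
      map_intCast _ _
    rw [h1]
    by_cases hab : a = b
    · subst hab
      rw [Matrix.diagonal_apply_eq, Matrix.intCast_apply, if_pos rfl]
    · have hne : (i, a) ≠ (i, b) := fun h => hab (Prod.ext_iff.1 h).2
      rw [Matrix.intCast_apply, if_neg hab, Matrix.diagonal_apply_ne _ hne]
      simp
  · rw [Matrix.diagonal_apply_ne _ hij, map_zero, Matrix.zero_apply, Matrix.diagonal_apply_ne]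
    intro h
    exact hij (Prod.ext_iff.1 h).1

end Pool.Agent.Work.MP_5e5ff1_ag.TH
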