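import Mathlib
import Pool.Agent.Work.MP_5e5ff1_ag.TH.StmtsG

set_option autoImplicit false

/-! # Item RSG of the block TH: growth and restriction of scalars -/

open Matrix Filter Topology NumberField
open scoped Polynomial

namespace Pool.Agent.Work.MP_5e5ff1_ag.TH

namespace IRSG

/-- the integral basis as a rational basis of `K` -/
theorem indep (K : Type) [Field K] [NumberField K]
    (x y : Fin (Module.finrank ℤ (𝓞 K)) → ℚ)
    (h : ∑ a, ((Module.finBasis ℤ (𝓞 K) a : 𝓞 K) : K) * ((x a : ℚ) : K) =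
      ∑ a, ((Module.finBasis ℤ (𝓞 K) a : 𝓞 K) : K) * ((y a : ℚ) : K)) : x = y := by
  obtain ⟨b, hb⟩ : ∃ b : Module.Basis (Fin (Module.finrank ℤ (𝓞 K))) ℚ K,
      ∀ a, b a = ((Module.finBasis ℤ (𝓞 K) a : 𝓞 K) : K) :=
    ⟨Module.Basis.localizationLocalization ℚ (nonZeroDivisors ℤ) K (Module.finBasis ℤ (𝓞 K)),
      fun a => Module.Basis.localizationLocalization_apply ℚ (nonZeroDivisors ℤ) K _ a⟩
  have h1 : ∑ a, x a • b a = ∑ a, y a • b a := by
    have e : ∀ (z : Fin (Module.finrank ℤ (𝓞 K)) → ℚ), ∑ a, z a • b a =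
        ∑ a, ((Module.finBasis ℤ (𝓞 K) a : 𝓞 K) : K) * ((z a : ℚ) : K) := by
      intro z
      refine Finset.sum_congr rfl fun a _ => ?_
      rw [hb, Rat.smul_def, mul_comm]
    rw [e, e, h]
  have h2 := congrArg (fun v => b.equivFun v) h1
  simp only [← Module.Basis.equivFun_symm_apply, LinearEquiv.apply_symm_apply] at h2
  exact h2

/-- the norm bound from an integral multiple -/
theorem norm_le {p m e : ℕ} (hp : p.Prime) (hm : ¬ p ∣ m) (v : ℚ) (z : ℤ)
    (h : (m : ℚ) * (p : ℚ) ^ e * v = (z : ℚ)) : padicNorm p v ≤ (p : ℚ) ^ e := by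
  have : Fact p.Prime := ⟨hp⟩
  have hp0 : (0 : ℚ) < (p : ℚ) := by exact_mod_cast hp.pos
  have h1 : padicNorm p ((m : ℚ) * (p : ℚ) ^ e * v) ≤ 1 := by
    rw [h]
    exact padicNorm.of_int z
  have h2 : padicNorm p (m : ℚ) = 1 := padicNorm.nat_eq_one_iff m |>.2 hm
  have h3 : ∀ e : ℕ, padicNorm p ((p : ℚ) ^ e) = ((p : ℚ) ^ e)⁻¹ := by
    intro e
    induction e with
    | zero => rw [pow_zero, inv_one, padicNorm.one]
    | succ e ih =>
      rw [pow_succ, padicNorm.mul, padicNorm.padicNorm_p hp.one_lt, mul_inv, ih]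
  rw [padicNorm.mul, padicNorm.mul, h2, h3, one_mul] at h1
  have h4 : (0 : ℚ) < (p : ℚ) ^ e := by positivity
  calc padicNorm p v = (p : ℚ) ^ e * (((p : ℚ) ^ e)⁻¹ * padicNorm p v) := by
        rw [← mul_assoc, mul_inv_cancel₀ h4.ne', one_mul]
    _ ≤ (p : ℚ) ^ e * 1 := mul_le_mul_of_nonneg_left h1 h4.le
    _ = (p : ℚ) ^ e := mul_one _

end IRSG

theorem pr_RSG (hRSU : StRSU) : StRSG := by
  intro K _ _ σ r M β c U V hM hβ hU hV p κ hp hG ε hε
  obtain ⟨a, ha⟩ := hG ε hε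
  refine ⟨a, ?_⟩
  intro n ⟨i, s⟩ ⟨j, b⟩
  have hUσ : IsU M β (Matrix.of fun i j => σ (c i j : K)) (fun n => (U n).map σ) := by
    constructor
    · ext i j
      rw [hU.zero, Matrix.map_apply, Matrix.one_apply, Matrix.one_apply]
      split_ifs
      · exact map_one σ
      · exact map_zero σ
    · intro n i j
      have h := congrArg σ (hU.eqn n i j)
      rw [map_add, map_mul, map_sum, map_zero] at h
      rw [← h]
      congr 1
      · rw [Matrix.map_apply]
        simp only [map_add, map_sub, map_mul, map_natCast, map_intCast]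
      · refine Finset.sum_congr rfl fun k _ => ?_
        rw [Matrix.mul_apply, Matrix.mul_apply, map_sum]
        refine Finset.sum_congr rfl fun l _ => ?_
        rw [map_mul]
        rfl
  have key : U n i j * ((Module.finBasis ℤ (𝓞 K) b : 𝓞 K) : K) =
      ∑ t, ((Module.finBasis ℤ (𝓞 K) t : 𝓞 K) : K) * ((V n (i, t) (j, b) : ℚ) : K) := by
    apply σ.injective
    have h := hRSU K σ r M β c _ V hM hβ hUσ hV n i j b
    rw [map_mul, map_sum]
    rw [Matrix.map_apply] at h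
    rw [h]
    refine Finset.sum_congr rfl fun t _ => ?_
    rw [map_mul, map_ratCast]
  obtain ⟨m, hm, hint⟩ := ha n i j
  obtain ⟨e, he⟩ : ∃ e : ℕ, e = a + ⌈(κ + ε) * n⌉₊ := ⟨_, rfl⟩
  rw [← he] at hint ⊢
  have hint2 : IsIntegral ℤ ((m : K) * (p : K) ^ e * U n i j *
      ((Module.finBasis ℤ (𝓞 K) b : 𝓞 K) : K)) :=
    hint.mul (Module.finBasis ℤ (𝓞 K) b).2
  obtain ⟨w, hw⟩ : ∃ w : 𝓞 K, (w : K) = (m : K) * (p : K) ^ e * U n i j *
      ((Module.finBasis ℤ (𝓞 K) b : 𝓞 K) : K) := ⟨⟨_, hint2⟩, rfl⟩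
  have hsum : (w : K) = ∑ t, ((Module.finBasis ℤ (𝓞 K) t : 𝓞 K) : K) *
      ((((Module.finBasis ℤ (𝓞 K)).repr w t : ℤ) : ℚ) : K) := by
    have h1 := (Module.finBasis ℤ (𝓞 K)).sum_repr w
    have h2 := congrArg (algebraMap (𝓞 K) K) h1
    have h3 : (w : K) = algebraMap (𝓞 K) K w := rfl
    rw [h3, ← h2, map_sum]
    refine Finset.sum_congr rfl fun t _ => ?_
    rw [zsmul_eq_mul, map_mul, map_intCast, mul_comm, Rat.cast_intCast]
  have hsum2 : (w : K) = ∑ t, ((Module.finBasis ℤ (𝓞 K) t : 𝓞 K) : K) *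
      (((m : ℚ) * (p : ℚ) ^ e * V n (i, t) (j, b) : ℚ) : K) := by
    rw [hw, mul_assoc, key, Finset.mul_sum]
    refine Finset.sum_congr rfl fun t _ => ?_
    push_cast
    ring
  have hxy := IRSG.indep K _ _ (hsum2.symm.trans hsum)
  have hs := congrFun hxy s
  exact IRSG.norm_le hp hm _ _ hs

end Pool.Agent.Work.MP_5e5ff1_ag.TH
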