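import Mathlib
import Pool.Agent.Work.MP_5e5ff1_ag.TH.StmtsE

set_option autoImplicit false

/-! # Item RSL of the block TH: algebraicity descends -/

open Matrix Filter Topology NumberField
open scoped Polynomial

namespace Pool.Agent.Work.MP_5e5ff1_ag.TH

theorem IRSL.algC (z : ℂ) : IsAlgebraic ℂ[X] (PowerSeries.C z : PowerSeries ℂ) := by
  have h : algebraMap ℂ[X] (PowerSeries ℂ) (Polynomial.C z) = PowerSeries.C z := by
    rw [PowerSeries.algebraMap_apply', Polynomial.coe_C]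
    simp
  rw [← h]
  exact isAlgebraic_algebraMap _

theorem pr_RSL (hQC : TG.StQC) (hRSU : StRSU) : StRSL := by
  intro K _ _ σ r M β c U V hM hβ hU hV halg i j
  have hpos : 0 < Module.finrank ℤ (𝓞 K) := Module.finrank_pos
  let b : Fin (Module.finrank ℤ (𝓞 K)) := ⟨0, hpos⟩
  have hb0 : σ ((Module.finBasis ℤ (𝓞 K) b : 𝓞 K) : K) ≠ 0 := by
    rw [map_ne_zero]
    have h := (Module.finBasis ℤ (𝓞 K)).ne_zero b
    intro h1
    exact h (by exact_mod_cast h1)
  have key : PowerSeries.mk (fun n => U n i j) =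
      ∑ a, PowerSeries.C (σ ((Module.finBasis ℤ (𝓞 K) a : 𝓞 K) : K) /
        σ ((Module.finBasis ℤ (𝓞 K) b : 𝓞 K) : K)) *
        PowerSeries.map (algebraMap ℚ ℂ) (PowerSeries.mk fun n => V n (i, a) (j, b)) := by
    ext n
    rw [PowerSeries.coeff_mk, map_sum]
    have h := hRSU K σ r M β c U V hM hβ hU hV n i j b
    have h2 : U n i j = (∑ a, σ ((Module.finBasis ℤ (𝓞 K) a : 𝓞 K) : K) *
        ((V n (i, a) (j, b) : ℚ) : ℂ)) / σ ((Module.finBasis ℤ (𝓞 K) b : 𝓞 K) : K) :=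
      eq_div_of_mul_eq hb0 h
    rw [h2, Finset.sum_div]
    refine Finset.sum_congr rfl fun a _ => ?_
    rw [PowerSeries.coeff_C_mul, PowerSeries.coeff_map, PowerSeries.coeff_mk]
    simp only [eq_ratCast]
    ring
  rw [key]
  refine Finset.sum_induction _ (fun x => IsAlgebraic ℂ[X] x) (fun x y hx hy => hx.add hy)
    isAlgebraic_zero ?_
  intro a _
  exact (IRSL.algC _).mul (hQC _ (halg _ _))

end Pool.Agent.Work.MP_5e5ff1_ag.TH
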