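import Mathlib
import Pool.Agent.Work.MP_5e5ff1_ag.TH.StmtsY

set_option autoImplicit false

/-!
# MP_5e5ff1_ag, block TH, item RSPG: the p-curvature after restriction of scalars, general `b`
-/

open Matrix Filter Topology NumberField
open scoped Polynomial

namespace Pool.Agent.Work.MP_5e5ff1_ag.TH

namespace IRSPG

/-- the iterates modulo `P` satisfy the recursion of `PCurvZero` -/
theorem zero_mod (K : Type) [Field K] [NumberField K] (r M : ℕ)
    (b c : Matrix (Fin r) (Fin r) (𝓞 K)) (P : Ideal (𝓞 K))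
    (h : PCurvZero M b c P) :
    Qm M (b.map (Ideal.Quotient.mk P)) (c.map (Ideal.Quotient.mk P))
      (ringChar (𝓞 K ⧸ P)) = 0 := by
  refine h (fun k => Qm M (b.map (Ideal.Quotient.mk P))
    (c.map (Ideal.Quotient.mk P)) k) rfl ?_
  intro k
  have h8 : (Ideal.Quotient.mk P) ((M : ℕ) : 𝓞 K) = ((M : ℕ) : 𝓞 K ⧸ P) := map_natCast _ _
  have hb : (b.map (Ideal.Quotient.mk P)).map
      (fun x => (Polynomial.C x : (𝓞 K ⧸ P)[X])) =
      b.map (fun x => Polynomial.C ((Ideal.Quotient.mk P) x)) := by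
    ext1 i j
    rfl
  have hc : (c.map (Ideal.Quotient.mk P)).map
      (fun x => (Polynomial.C x : (𝓞 K ⧸ P)[X])) =
      c.map (fun x => Polynomial.C ((Ideal.Quotient.mk P) x)) := by
    ext1 i j
    rfl
  rw [h8, ← hb, ← hc]
  rfl

/-- `p` in the maximal ideal `P` gives residue characteristic `p` -/
theorem char_eq (K : Type) [Field K] [NumberField K] (p : ℕ) (hp : p.Prime) (P : Ideal (𝓞 K))
    (hP : P.IsMaximal) (hpP : (p : 𝓞 K) ∈ P) : ringChar (𝓞 K ⧸ P) = p := by
  have h0 : ((p : ℕ) : 𝓞 K ⧸ P) = 0 := by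
    have := (Ideal.Quotient.eq_zero_iff_mem (I := P)).mpr hpP
    rwa [map_natCast] at this
  have hd : ringChar (𝓞 K ⧸ P) ∣ p := ringChar.dvd h0
  rcases (Nat.dvd_prime hp).mp hd with h1 | h1
  · exfalso
    have h2 : ((1 : ℕ) : 𝓞 K ⧸ P) = 0 := (ringChar.spec (𝓞 K ⧸ P) 1).mpr (by rw [h1])
    have : Nontrivial (𝓞 K ⧸ P) := Ideal.Quotient.nontrivial_iff.mpr hP.ne_top
    exact one_ne_zero (α := 𝓞 K ⧸ P) (by simpa using h2)
  · exact h1

end IRSPG

/-- RSPG. The p-curvature after restriction of scalars, general `b`. -/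
theorem pr_RSPG (hQIM : StQIM) (hRSQG : StRSQG) (hPID : TG.StPID) : StRSPG := by
  intro K _ _ r M b c p hp hrad hP
  have key : ∀ (i j : Fin r) (n : ℕ),
      ∃ y : 𝓞 K, (Qm M b c p i j).coeff n = (p : 𝓞 K) * y := by
    intro i j n
    refine hPID K p hp hrad _ ?_
    intro P hPm hpP
    have hchar := IRSPG.char_eq K p hp P hPm hpP
    have h0 := IRSPG.zero_mod K r M b c P (hP P hPm hchar)
    rw [hchar, hQIM (𝓞 K) (𝓞 K ⧸ P) (Ideal.Quotient.mk P) (Fin r)] at h0
    have h1 := congrArg (fun f : (𝓞 K ⧸ P)[X] => f.coeff n) (congrFun (congrFun h0 i) j)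
    simp only [Matrix.map_apply, Polynomial.coeff_map, Matrix.zero_apply,
      Polynomial.coeff_zero] at h1
    exact Ideal.Quotient.eq_zero_iff_mem.mp h1
  unfold PZg
  have hmain : Qm M ((TG.rs K b).map (Int.castRingHom (ZMod p)))
      ((TG.rs K c).map (Int.castRingHom (ZMod p))) p = 0 := by
    rw [hQIM ℤ (ZMod p) (Int.castRingHom (ZMod p))]
    ext1 i j
    ext n
    rw [Matrix.map_apply, Polynomial.coeff_map, hRSQG K r M b c p n i j, Matrix.zero_apply,
      Polynomial.coeff_zero]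
    obtain ⟨y, hy⟩ := key i.1 j.1 n
    have h2 : (p : 𝓞 K) * y = (p : ℕ) • y := (nsmul_eq_mul p y).symm
    rw [hy, h2, map_nsmul, Matrix.smul_apply, nsmul_eq_mul, map_mul, map_natCast,
      ZMod.natCast_self, zero_mul]
  exact hmain

end Pool.Agent.Work.MP_5e5ff1_ag.TH
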