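import Mathlib
import Pool.Agent.Work.MP_5e5ff1_ag.TH.StmtsE

set_option autoImplicit false

/-!
# MP_5e5ff1_ag, block TH, item RSU: the solutions after restriction of scalars
-/

open Matrix Filter Topology NumberField
open scoped Polynomial

namespace Pool.Agent.Work.MP_5e5ff1_ag.TH

namespace IRSU

/-- The columns of the matrix of multiplication by `x`. -/
theorem key (K : Type) [Field K] [NumberField K] (σ : K →+* ℂ) (x : 𝓞 K)
    (e : Fin (Module.finrank ℤ (𝓞 K))) :
    ∑ a, σ ((Module.finBasis ℤ (𝓞 K) a : 𝓞 K) : K) *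
        ((Algebra.leftMulMatrix (Module.finBasis ℤ (𝓞 K)) x a e : ℤ) : ℂ) =
      σ (x : K) * σ ((Module.finBasis ℤ (𝓞 K) e : 𝓞 K) : K) := by
  have h1 : ∑ a, (Algebra.leftMulMatrix (Module.finBasis ℤ (𝓞 K)) x a e) •
      (Module.finBasis ℤ (𝓞 K) a) = x * Module.finBasis ℤ (𝓞 K) e := by
    rw [← (Module.finBasis ℤ (𝓞 K)).sum_repr (x * Module.finBasis ℤ (𝓞 K) e)]
    refine Finset.sum_congr rfl fun a _ => ?_
    rw [Algebra.leftMulMatrix_eq_repr_mul]
  have h2 := congrArg (fun y : 𝓞 K => σ (y : K)) h1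
  simp only [zsmul_eq_mul, map_sum, map_mul] at h2
  rw [← h2]
  refine Finset.sum_congr rfl fun a _ => ?_
  rw [mul_comm]
  congr 1
  simp

end IRSU

theorem pr_RSU : StRSU := by
  intro K _ _ σ r M β c U V hM hβ hU hV n
  induction n using Nat.strong_induction_on with
  | _ n ih =>
    intro i j b
    rcases Nat.eq_zero_or_pos n with rfl | hn
    · rw [hU.zero, hV.zero]
      by_cases hij : i = j
      · subst hij
        rw [Matrix.one_apply_eq, one_mul, Finset.sum_eq_single b]
        · rw [Matrix.one_apply_eq]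
          simp
        · intro a _ hab
          rw [Matrix.one_apply_ne (fun h => hab (congrArg Prod.snd h))]
          simp
        · intro h
          exact absurd (Finset.mem_univ b) h
      · rw [Matrix.one_apply_ne hij, zero_mul]
        symm
        refine Finset.sum_eq_zero fun a _ => ?_
        rw [Matrix.one_apply_ne (fun h => hij (congrArg Prod.fst h))]
        simp
    · have hs : ((M : ℂ) * (n : ℂ) + ((β j : ℂ) - (β i : ℂ))) ≠ 0 := by
        intro h
        have h1 : (M : ℤ) * (n : ℤ) + (β j - β i) = 0 := by exact_mod_cast h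
        have h2 : (M : ℤ) ∣ β i - β j := ⟨n, by linarith⟩
        have h3 := hβ i j h2
        rw [h3, sub_self, add_zero] at h1
        have h4 : (0 : ℤ) < (M : ℤ) * (n : ℤ) := by positivity
        omega
      apply mul_left_cancel₀ hs
      have e1 := hU.eqn n i j
      have e2 : ∀ a, ((M : ℂ) * (n : ℂ) + ((β j : ℂ) - (β i : ℂ))) *
          ((V n (i, a) (j, b) : ℚ) : ℂ) =
          -∑ k ∈ Finset.range n, ∑ l, ∑ e,
            ((Algebra.leftMulMatrix (Module.finBasis ℤ (𝓞 K)) (c i l) a e : ℤ) : ℂ) *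
              ((V k (l, e) (j, b) : ℚ) : ℂ) := by
        intro a
        have e3 := hV.eqn n (i, a) (j, b)
        have e4 := congrArg (fun q : ℚ => (q : ℂ)) e3
        simp only [Rat.cast_add, Rat.cast_mul, Rat.cast_sub, Rat.cast_sum, Rat.cast_natCast,
          Rat.cast_intCast, Rat.cast_zero, Matrix.mul_apply, Fintype.sum_prod_type] at e4
        rw [eq_neg_iff_add_eq_zero]
        simpa [TG.rs] using e4
      have e6 : ((M : ℂ) * (n : ℂ) + ((β j : ℂ) - (β i : ℂ))) * U n i j =
          -∑ k ∈ Finset.range n, ∑ l, σ (c i l : K) * U k l j := by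
        rw [eq_neg_iff_add_eq_zero]
        simpa [Matrix.mul_apply] using e1
      rw [← mul_assoc, e6, Finset.mul_sum]
      have e7 : ∀ a, ((M : ℂ) * (n : ℂ) + ((β j : ℂ) - (β i : ℂ))) *
          (σ ((Module.finBasis ℤ (𝓞 K) a : 𝓞 K) : K) * ((V n (i, a) (j, b) : ℚ) : ℂ)) =
          -∑ k ∈ Finset.range n, ∑ l, ∑ e, (σ ((Module.finBasis ℤ (𝓞 K) a : 𝓞 K) : K) *
            ((Algebra.leftMulMatrix (Module.finBasis ℤ (𝓞 K)) (c i l) a e : ℤ) : ℂ)) *
              ((V k (l, e) (j, b) : ℚ) : ℂ) := by
        intro a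
        rw [mul_left_comm, e2 a, mul_neg]
        congr 1
        rw [Finset.mul_sum]
        refine Finset.sum_congr rfl fun k _ => ?_
        rw [Finset.mul_sum]
        refine Finset.sum_congr rfl fun l _ => ?_
        rw [Finset.mul_sum]
        refine Finset.sum_congr rfl fun e _ => ?_
        ring
      rw [Finset.sum_congr rfl fun a _ => e7 a, Finset.sum_neg_distrib, neg_mul]
      congr 1
      conv_rhs => rw [Finset.sum_comm]
      rw [Finset.sum_mul]
      refine Finset.sum_congr rfl fun k hk => ?_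
      conv_rhs => rw [Finset.sum_comm]
      rw [Finset.sum_mul]
      refine Finset.sum_congr rfl fun l _ => ?_
      conv_rhs => rw [Finset.sum_comm]
      rw [mul_assoc, ih k (Finset.mem_range.1 hk) l j b, Finset.mul_sum]
      refine Finset.sum_congr rfl fun e _ => ?_
      rw [← Finset.sum_mul, IRSU.key K σ (c i l) e]
      ring

end Pool.Agent.Work.MP_5e5ff1_ag.TH
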