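import Mathlib
import Pool.Agent.Work.MP_5e5ff1_ag.TH.StmtsZ

set_option autoImplicit false

/-!
# MP_5e5ff1_ag, block TH, item RTP: roots of a factor of an `N`-th power
-/

open Filter Topology

namespace Pool.Agent.Work.MP_5e5ff1_ag.TH

namespace IRTP

/-- Local roots. -/
lemma local_root (hROOT : StROOT) (P Q d : ℂ → ℂ) (N : ℕ) (hN : 0 < N)
    (hP : DifferentiableOn ℂ P (Metric.ball 0 1)) (hQ : DifferentiableOn ℂ Q (Metric.ball 0 1))
    (hd : DifferentiableOn ℂ d (Metric.ball 0 1))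
    (hPQ : ∀ z ∈ Metric.ball (0 : ℂ) 1, P z * Q z = d z ^ N)
    (h0 : ∀ z ∈ Metric.ball (0 : ℂ) 1, P z = 0 → Q z ≠ 0) (z0 : ℂ)
    (hz0 : z0 ∈ Metric.ball (0 : ℂ) 1) :
    ∃ δ > 0, ∃ r : ℂ → ℂ, Metric.ball z0 δ ⊆ Metric.ball 0 1 ∧
      DifferentiableOn ℂ r (Metric.ball z0 δ) ∧ ∀ z ∈ Metric.ball z0 δ, r z ^ N = P z := by
  have hnhds : Metric.ball (0 : ℂ) 1 ∈ 𝓝 z0 := Metric.isOpen_ball.mem_nhds hz0
  by_cases hPz : P z0 = 0
  · have hQz := h0 z0 hz0 hPz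
    have hc : ContinuousAt Q z0 := (hQ.differentiableAt hnhds).continuousAt
    have he : ∀ᶠ z in 𝓝 z0, z ∈ Metric.ball (0 : ℂ) 1 ∧ Q z ≠ 0 :=
      (Filter.eventually_mem_set.mpr hnhds).and (hc.eventually_ne hQz)
    obtain ⟨δ, hδ, hb⟩ := Metric.eventually_nhds_iff_ball.mp he
    have hsub : Metric.ball z0 δ ⊆ Metric.ball 0 1 := fun z hz => (hb z hz).1
    obtain ⟨q, hq, hq'⟩ := hROOT Q z0 δ N hδ hN (hQ.mono hsub) (fun z hz => (hb z hz).2)
    refine ⟨δ, hδ, fun z => d z / q z, hsub, (hd.mono hsub).div hq (fun z hz => (hq' z hz).1), ?_⟩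
    intro z hz
    have h1 := hPQ z (hsub hz)
    have h2 := (hq' z hz).2.1
    have h3 := (hb z hz).2
    show (d z / q z) ^ N = P z
    rw [div_pow, ← h1, h2]
    field_simp
  · have hc : ContinuousAt P z0 := (hP.differentiableAt hnhds).continuousAt
    have he : ∀ᶠ z in 𝓝 z0, z ∈ Metric.ball (0 : ℂ) 1 ∧ P z ≠ 0 :=
      (Filter.eventually_mem_set.mpr hnhds).and (hc.eventually_ne hPz)
    obtain ⟨δ, hδ, hb⟩ := Metric.eventually_nhds_iff_ball.mp he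
    have hsub : Metric.ball z0 δ ⊆ Metric.ball 0 1 := fun z hz => (hb z hz).1
    obtain ⟨q, hq, hq'⟩ := hROOT P z0 δ N hδ hN (hP.mono hsub) (fun z hz => (hb z hz).2)
    exact ⟨δ, hδ, q, hsub, hq, fun z hz => (hq' z hz).2.1⟩

/-- Two roots of the same function on a preconnected open set differ by a root of unity. -/
lemma unity (N : ℕ) (hN : 0 < N) (Ω : Set ℂ) (hΩ : IsOpen Ω) (hc : IsPreconnected Ω)
    (hne : Ω.Nonempty) (g r : ℂ → ℂ) (hg : DifferentiableOn ℂ g Ω) (hr : DifferentiableOn ℂ r Ω)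
    (h : ∀ z ∈ Ω, g z ^ N = r z ^ N) : ∃ ζ : ℂ, ∀ z ∈ Ω, g z = ζ * r z := by
  obtain ⟨z1, hz1⟩ := hne
  by_contra hcon
  push Not at hcon
  have hev : ∀ ζ ∈ Polynomial.nthRootsFinset N (1 : ℂ), ∀ᶠ z in 𝓝[≠] z1, g z ≠ ζ * r z := by
    intro ζ _
    by_contra hf
    have hf' : ∃ᶠ z in 𝓝[≠] z1, g z = ζ * r z := by
      intro hh
      exact hf hh
    obtain ⟨z, hz, hzne⟩ := hcon ζ
    have h1 : AnalyticOnNhd ℂ g Ω := hg.analyticOnNhd hΩ
    have h2 : AnalyticOnNhd ℂ (fun z => ζ * r z) Ω := (hr.const_mul ζ).analyticOnNhd hΩ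
    exact hzne (h1.eqOn_of_preconnected_of_frequently_eq h2 hc hz1 hf' hz)
  have hall : ∀ᶠ z in 𝓝[≠] z1, ∀ ζ ∈ Polynomial.nthRootsFinset N (1 : ℂ), g z ≠ ζ * r z :=
    (Filter.eventually_all_finset _).mpr hev
  have hmem : ∀ᶠ z in 𝓝[≠] z1, z ∈ Ω := nhdsWithin_le_nhds (hΩ.mem_nhds hz1)
  obtain ⟨z, hz, hzΩ⟩ := (hall.and hmem).exists
  have hpow := h z hzΩ
  by_cases hrz : r z = 0
  · have h1 : (1 : ℂ) ∈ Polynomial.nthRootsFinset N (1 : ℂ) := by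
      rw [Polynomial.mem_nthRootsFinset hN]
      exact one_pow N
    apply hz 1 h1
    rw [hrz, mul_zero]
    rw [hrz, zero_pow hN.ne'] at hpow
    exact pow_eq_zero_iff hN.ne' |>.mp hpow
  · have h1 : g z / r z ∈ Polynomial.nthRootsFinset N (1 : ℂ) := by
      rw [Polynomial.mem_nthRootsFinset hN, div_pow, hpow]
      exact div_self (pow_ne_zero _ hrz)
    apply hz _ h1
    field_simp

/-- The identity theorem for the power. -/
lemma pow_eq (P g : ℂ → ℂ) (N : ℕ) (r : ℝ) (hr : 0 < r)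
    (hP : DifferentiableOn ℂ P (Metric.ball 0 r)) (hg : DifferentiableOn ℂ g (Metric.ball 0 r))
    (h : ∀ᶠ z in 𝓝 (0 : ℂ), g z ^ N = P z) : ∀ z ∈ Metric.ball (0 : ℂ) r, g z ^ N = P z := by
  have h1 : AnalyticOnNhd ℂ P (Metric.ball 0 r) := hP.analyticOnNhd Metric.isOpen_ball
  have h2 : AnalyticOnNhd ℂ (fun z => g z ^ N) (Metric.ball 0 r) :=
    (hg.pow N).analyticOnNhd Metric.isOpen_ball
  exact h2.eqOn_of_preconnected_of_eventuallyEq h1 (convex_ball (0 : ℂ) r).isPreconnected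
    (Metric.mem_ball_self hr) h

end IRTP

/-- Item RTP. -/
theorem pr_RTP (hROOT : StROOT) (hGLU : TG.StGLU) : StRTP := by
  intro P Q d N hN hP hQ hd hPQ h0 _
  have hloc := IRTP.local_root hROOT P Q d N hN hP hQ hd hPQ h0
  obtain ⟨r0, hr0, f, hsub, hf, hfP⟩ := hloc 0 (Metric.mem_ball_self one_pos)
  obtain ⟨F, hF, hFf⟩ := hGLU ℂ f r0 hr0 hf (by
    intro z0 hz0
    obtain ⟨δ, hδ, r, hsubr, hr, hrP⟩ := hloc z0 hz0
    refine ⟨δ, hδ, fun g r' hr' hr'1 hg hgf hne => ?_⟩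
    have hb1 : Metric.ball (0 : ℂ) r' ⊆ Metric.ball 0 1 := Metric.ball_subset_ball hr'1
    have hgP : ∀ z ∈ Metric.ball (0 : ℂ) r', g z ^ N = P z := by
      apply IRTP.pow_eq P g N r' hr' (hP.mono hb1) hg
      filter_upwards [hgf, Metric.ball_mem_nhds (0 : ℂ) hr0] with z hz hz'
      rw [hz, hfP z hz']
    obtain ⟨ζ, hζ⟩ := IRTP.unity N hN (Metric.ball z0 δ ∩ Metric.ball 0 r')
      (Metric.isOpen_ball.inter Metric.isOpen_ball)
      ((convex_ball z0 δ).inter (convex_ball 0 r')).isPreconnected hne g r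
      (hg.mono Set.inter_subset_right) (hr.mono Set.inter_subset_left)
      (fun z hz => by rw [hgP z hz.2, hrP z hz.1])
    exact ⟨fun z => ζ * r z, hr.const_mul ζ, fun z hz => (hζ z hz).symm⟩)
  refine ⟨F, hF, IRTP.pow_eq P F N 1 one_pos hP hF ?_⟩
  filter_upwards [hFf, Metric.ball_mem_nhds (0 : ℂ) hr0] with z hz hz'
  rw [hz, hfP z hz']

end Pool.Agent.Work.MP_5e5ff1_ag.TH
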