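import Mathlib
import Pool.Agent.Work.MP_5e5ff1_ag.TH.StmtsD

set_option autoImplicit false

/-!
# MP_5e5ff1_ag, block TH, item SEM: semisimplicity
-/

open Matrix Filter Topology
open scoped Polynomial

namespace Pool.Agent.Work.MP_5e5ff1_ag.TH

namespace ISEM

variable {ι : Type} [Fintype ι] [DecidableEq ι]

theorem DA_apply {R : Type} [CommRing R] (M : ℕ) (A : ℕ → Matrix ι ι R) (v : ℕ → ι → R) (n : ℕ)
    (i : ι) : DA M A v n i = (M : R) * (n : R) * v n i +
    ∑ k ∈ Finset.range (n + 1), (A (n - k) *ᵥ v k) i := rfl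

theorem DA_congr {R : Type} [CommRing R] (M : ℕ) (A : ℕ → Matrix ι ι R) {v w : ℕ → ι → R} {n : ℕ}
    (h : ∀ m ≤ n, ∀ i, v m i = w m i) : ∀ m ≤ n, ∀ i, DA M A v m i = DA M A w m i := by
  intro m hm i
  have h1 : ∀ k ≤ n, v k = w k := fun k hk => funext (h k hk)
  rw [DA_apply, DA_apply, h1 m hm]
  congr 1
  refine Finset.sum_congr rfl fun k hk => ?_
  rw [h1 k (by have := Finset.mem_range.mp hk; omega)]

theorem L1_congr {R : Type} [CommRing R] (M : ℕ) (A : ℕ → Matrix ι ι R) (lam : ℤ)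
    {v w : ℕ → ι → R} {n : ℕ} (h : ∀ m ≤ n, ∀ i, v m i = w m i) :
    ∀ m ≤ n, ∀ i, L1 M A lam v m i = L1 M A lam w m i := by
  intro m hm i
  unfold L1
  rw [DA_congr M A h m hm i, h m hm i]

theorem L1_smul {R : Type} [CommRing R] (M : ℕ) (A : ℕ → Matrix ι ι R) (lam : ℤ)
    (a : R) (v : ℕ → ι → R) : L1 M A lam (a • v) = a • L1 M A lam v := by
  funext m i
  unfold L1
  rw [map_smul]
  simp only [Pi.smul_apply, smul_eq_mul]
  ring

/-- base change -/
theorem DA_cast {R : Type} [CommRing R] (M : ℕ) (A : ℕ → Matrix ι ι ℤ) (W : ℕ → ι → ℤ) :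
    DA M (fun m => (A m).map (Int.castRingHom R)) (fun m i => ((W m i : ℤ) : R)) =
      fun m i => ((DA M A W m i : ℤ) : R) := by
  funext m i
  rw [DA_apply, DA_apply]
  push_cast
  congr 1
  refine Finset.sum_congr rfl fun k _ => ?_
  rw [Matrix.mulVec, Matrix.mulVec, dotProduct, dotProduct]
  push_cast
  rfl

theorem L1_cast {R : Type} [CommRing R] (M : ℕ) (A : ℕ → Matrix ι ι ℤ) (lam : ℤ)
    (W : ℕ → ι → ℤ) :
    L1 M (fun m => (A m).map (Int.castRingHom R)) lam (fun m i => ((W m i : ℤ) : R)) =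
      fun m i => ((L1 M A lam W m i : ℤ) : R) := by
  funext m i
  unfold L1
  rw [DA_cast]
  push_cast
  rfl

/-- common denominator -/
theorem exists_den (w : ℕ → ι → ℚ) (n : ℕ) : ∃ (N : ℕ) (W : ℕ → ι → ℤ), 0 < N ∧
    ∀ m ≤ n, ∀ i, ((W m i : ℤ) : ℚ) = (N : ℚ) * w m i := by
  refine ⟨∏ m ∈ Finset.range (n + 1), ∏ i, (w m i).den, ?_⟩
  have h : ∀ m i, m ≤ n → ∃ z : ℤ, (z : ℚ) =
      ((∏ m ∈ Finset.range (n + 1), ∏ i, (w m i).den : ℕ) : ℚ) * w m i := by
    intro m i hm
    have h1 : (w m i).den ∣ ∏ m ∈ Finset.range (n + 1), ∏ i, (w m i).den :=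
      (Finset.dvd_prod_of_mem (fun i => (w m i).den) (Finset.mem_univ i)).trans
        (Finset.dvd_prod_of_mem (fun m => ∏ i, (w m i).den) (Finset.mem_range.mpr (by omega)))
    obtain ⟨c, hc⟩ := h1
    refine ⟨c * (w m i).num, ?_⟩
    rw [hc]
    push_cast
    have h2 : ((w m i).den : ℚ) * w m i = (w m i).num := by
      rw [mul_comm]
      exact Rat.mul_den_eq_num _
    rw [← h2]
    ring
  choose z hz using h
  refine ⟨fun m i => if hm : m ≤ n then z m i hm else 0, ?_, ?_⟩
  · exact Finset.prod_pos fun m _ => Finset.prod_pos fun i _ => (w m i).den_pos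
  · intro m hm i
    simp only [dif_pos hm]
    exact hz m i hm

end ISEM

open ISEM

theorem pr_SEM : StSEM := by
  intro ι _ _ M A hF w lam n h
  obtain ⟨N, W, hN, hW⟩ := exists_den w n
  set u : ℕ → ι → ℤ := L1 M A lam W with hu
  have hW' : ∀ m ≤ n, ∀ i, (fun m i => ((W m i : ℤ) : ℚ)) m i = ((N : ℚ) • w) m i := by
    intro m hm i
    exact hW m hm i
  -- first application
  have h1 : ∀ m ≤ n, ∀ i, ((u m i : ℤ) : ℚ) =
      ((N : ℚ) • L1 M (fun m => qm (A m)) lam w) m i := by
    intro m hm i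
    have e1 := congrFun (congrFun (L1_cast (R := ℚ) M A lam W) m) i
    have e2 := L1_congr M (fun m => qm (A m)) lam hW' m hm i
    rw [L1_smul] at e2
    exact e1.symm.trans e2
  have h2 : ∀ m ≤ n, ∀ i, L1 M A lam u m i = 0 := by
    intro m hm i
    have e1 := congrFun (congrFun (L1_cast (R := ℚ) M A lam u) m) i
    have e2 := L1_congr M (fun m => qm (A m)) lam h1 m hm i
    rw [L1_smul] at e2
    have e3 : ((N : ℚ) • L1 M (fun m => qm (A m)) lam
        (L1 M (fun m => qm (A m)) lam w)) m i = 0 := by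
      rw [Pi.smul_apply, Pi.smul_apply, h m hm i, smul_zero]
    have e4 : (((L1 M A lam u m i : ℤ)) : ℚ) = 0 := e1.symm.trans (e2.trans e3)
    exact_mod_cast e4
  have h3 : ∀ m ≤ n, ∀ i, u m i = 0 := by
    intro m0 hm0 i0
    obtain ⟨p, hpN, hp, hfr⟩ := hF (u m0 i0).natAbs
    have : Fact p.Prime := ⟨hp⟩
    set Ap : ℕ → Matrix ι ι (ZMod p) := fun m => pm p (A m) with hAp
    set v : ℕ → ι → ZMod p := fun m i => ((W m i : ℤ) : ZMod p) with hv
    set ub : ℕ → ι → ZMod p := fun m i => ((u m i : ℤ) : ZMod p) with hub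
    set l : ZMod p := (lam : ZMod p) with hl
    have hpc := hfr v
    have a1 : DA M Ap v = l • v + ub := by
      funext m i
      have e1 := congrFun (congrFun (L1_cast (R := ZMod p) M A lam W) m) i
      have e2 : DA M Ap v m i - l * v m i = ub m i := e1
      show DA M Ap v m i = l * v m i + ub m i
      rw [← e2]
      ring
    have a2 : ∀ m ≤ n, ∀ i, DA M Ap ub m i = (l • ub) m i := by
      intro m hm i
      have e1 := congrFun (congrFun (L1_cast (R := ZMod p) M A lam u) m) i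
      have e2 : DA M Ap ub m i - l * ub m i = ((L1 M A lam u m i : ℤ) : ZMod p) := e1
      rw [h2 m hm i, Int.cast_zero] at e2
      show DA M Ap ub m i = l * ub m i
      exact sub_eq_zero.mp e2
    have a3 : ∀ k : ℕ, ∀ m ≤ n, ∀ i, ((DA M Ap) ^ (k + 1)) v m i =
        (l ^ (k + 1) • v + (((k + 1 : ℕ) : ZMod p) * l ^ k) • ub) m i := by
      intro k
      induction k with
      | zero =>
        intro m hm i
        rw [zero_add, pow_one, pow_one, a1]
        simp
      | succ k ih =>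
        intro m hm i
        rw [pow_succ', Module.End.mul_apply, DA_congr M Ap ih m hm i, map_add, map_smul, map_smul,
          a1]
        simp only [Pi.add_apply, Pi.smul_apply, smul_eq_mul]
        rw [a2 m hm i]
        simp only [Pi.smul_apply, smul_eq_mul]
        push_cast
        ring
    have a4 := a3 (p - 1) m0 hm0 i0
    have hp1 : p - 1 + 1 = p := by
      have := hp.pos
      omega
    rw [hp1, hpc, a1, ZMod.pow_card, CharP.cast_eq_zero, zero_mul, zero_smul, add_zero] at a4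
    have a5 : ub m0 i0 = 0 := by
      have : (l • v + ub) m0 i0 = (l • v) m0 i0 := a4
      rw [Pi.add_apply, Pi.add_apply] at this
      exact add_eq_left.mp this
    have a6 : (p : ℤ) ∣ u m0 i0 := (ZMod.intCast_zmod_eq_zero_iff_dvd _ _).mp a5
    exact Int.eq_zero_of_abs_lt_dvd a6 (by
      rw [Int.abs_eq_natAbs]
      exact_mod_cast hpN)
  intro m hm i
  have e1 := h1 m hm i
  rw [h3 m hm i, Int.cast_zero] at e1
  have e2 : (N : ℚ) * L1 M (fun m => qm (A m)) lam w m i = 0 := e1.symm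
  rcases mul_eq_zero.mp e2 with e3 | e3
  · have : N = 0 := by exact_mod_cast e3
    omega
  · exact e3

end Pool.Agent.Work.MP_5e5ff1_ag.TH
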