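import Mathlib
import Pool.Agent.Work.MP_5e5ff1_ag.TH.StmtsA

set_option autoImplicit false

/-!
# Item SMA of the block TH: the exceptional primes are few
-/

open Matrix Filter Topology
open scoped Polynomial

namespace Pool.Agent.Work.MP_5e5ff1_ag.TH

namespace ISMA

open Classical in
/-- the weights -/
noncomputable def c (M : ℕ) (S : Set ℕ) (p : ℕ) : ℝ :=
  if p.Prime ∧ ¬ p ∣ M ∧ p ∈ S then Real.log p / p else 0

lemma c_nonneg (M : ℕ) (S : Set ℕ) (p : ℕ) : 0 ≤ c M S p := by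
  unfold c
  split_ifs
  · exact div_nonneg (Real.log_natCast_nonneg p) (Nat.cast_nonneg p)
  · exact le_refl _

lemma summ {M : ℕ} {S : Set ℕ} (h : Sb M S) : Summable (c M S) := by
  classical
  obtain ⟨b, h⟩ := h
  refine summable_of_sum_le (c := b) (c_nonneg M S) fun F => ?_
  have e : ∑ p ∈ F, c M S p =
      ∑ p ∈ F.filter (fun p => p.Prime ∧ ¬ p ∣ M ∧ p ∈ S), Real.log p / p := by
    rw [Finset.sum_filter]
    exact Finset.sum_congr rfl fun p _ => rfl
  rw [e]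
  exact h _ fun p hp => (Finset.mem_filter.1 hp).2

end ISMA

theorem pr_SMA : StSMA := by
  classical
  intro M S B hM hS ε hε
  have hs := ISMA.summ hS
  have hM0 : (0 : ℝ) < M := by exact_mod_cast hM
  obtain ⟨s, hs⟩ := summable_iff_vanishing_norm.1 hs (ε / (2 * M)) (by positivity)
  set K : ℝ := ∑ p ∈ s, Real.log (p : ℝ) with hK
  obtain ⟨N0, hN0⟩ := exists_nat_ge ((K + ((B : ℝ) + M) * (ε / (2 * M))) * (2 / ε))
  refine ⟨N0, fun N hN => ?_⟩
  set P : Finset ℕ := (opr (M * N + B + M)).filter (fun p => ¬ p ∣ M ∧ p ∈ S) with hP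
  have hPp : ∀ p ∈ P, p ≤ M * N + B + M ∧ p.Prime ∧ ¬ p ∣ M ∧ p ∈ S := by
    intro p hp
    obtain ⟨h1, h2⟩ := Finset.mem_filter.1 hp
    obtain ⟨h3, h4⟩ := Finset.mem_filter.1 h1
    exact ⟨(Finset.mem_Icc.1 h3).2, h4, h2⟩
  have h1 : ∑ p ∈ P.filter (· ∈ s), Real.log (p : ℝ) ≤ K := by
    refine Finset.sum_le_sum_of_subset_of_nonneg ?_ fun p _ _ => Real.log_natCast_nonneg p
    intro p hp
    exact (Finset.mem_filter.1 hp).2
  have h2 : ∑ p ∈ P.filter (¬ · ∈ s), Real.log (p : ℝ) ≤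
      ((M : ℝ) * (N : ℝ) + B + M) * (ε / (2 * M)) := by
    have h3 := hs (P.filter (¬ · ∈ s)) (by
      rw [Finset.disjoint_left]
      intro p hp
      exact (Finset.mem_filter.1 hp).2)
    have h4 : ∑ p ∈ P.filter (¬ · ∈ s), ISMA.c M S p ≤ ε / (2 * M) :=
      (le_abs_self _).trans h3.le
    calc ∑ p ∈ P.filter (¬ · ∈ s), Real.log (p : ℝ)
        ≤ ∑ p ∈ P.filter (¬ · ∈ s), ((M : ℝ) * (N : ℝ) + B + M) * ISMA.c M S p := by
          refine Finset.sum_le_sum fun p hp => ?_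
          obtain ⟨h5, h6, h7⟩ := hPp p (Finset.mem_filter.1 hp).1
          have h8 : ISMA.c M S p = Real.log p / p := by unfold ISMA.c; rw [if_pos ⟨h6, h7⟩]
          have h9 : (0 : ℝ) < p := by exact_mod_cast h6.pos
          have h10 : (p : ℝ) ≤ (M : ℝ) * (N : ℝ) + B + M := by exact_mod_cast h5
          have h11 : 0 ≤ Real.log (p : ℝ) / p :=
            div_nonneg (Real.log_natCast_nonneg p) h9.le
          rw [h8]
          calc Real.log (p : ℝ) = p * (Real.log p / p) := by field_simp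
            _ ≤ ((M : ℝ) * (N : ℝ) + B + M) * (Real.log p / p) :=
              mul_le_mul_of_nonneg_right h10 h11
      _ = ((M : ℝ) * (N : ℝ) + B + M) * ∑ p ∈ P.filter (¬ · ∈ s), ISMA.c M S p := by
          rw [Finset.mul_sum]
      _ ≤ ((M : ℝ) * (N : ℝ) + B + M) * (ε / (2 * M)) :=
          mul_le_mul_of_nonneg_left h4 (by positivity)
  have h3 : ∑ p ∈ P, Real.log (p : ℝ) =
      ∑ p ∈ P.filter (· ∈ s), Real.log (p : ℝ) + ∑ p ∈ P.filter (¬ · ∈ s), Real.log (p : ℝ) :=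
    (Finset.sum_filter_add_sum_filter_not P (· ∈ s) _).symm
  have h4 : (K + ((B : ℝ) + M) * (ε / (2 * M))) * (2 / ε) ≤ N := hN0.trans (by exact_mod_cast hN)
  have h5 : K + ((B : ℝ) + M) * (ε / (2 * M)) ≤ N * (ε / 2) := by
    have h6 := mul_le_mul_of_nonneg_right h4 (by positivity : (0 : ℝ) ≤ ε / 2)
    have h7 : (K + ((B : ℝ) + M) * (ε / (2 * M))) * (2 / ε) * (ε / 2) =
        K + ((B : ℝ) + M) * (ε / (2 * M)) := by field_simp
    rwa [h7] at h6
  have h8 : ((M : ℝ) * (N : ℝ) + B + M) * (ε / (2 * M)) =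
      N * (ε / 2) + ((B : ℝ) + M) * (ε / (2 * M)) := by
    field_simp
    ring
  rw [h3]
  linarith

end Pool.Agent.Work.MP_5e5ff1_ag.TH
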