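import Mathlib
import Pool.Agent.Work.MP_5e5ff1_ag.TH.StmtsY

set_option autoImplicit false

/-!
# MP_5e5ff1_ag, block TH, item TAB1: the cost for `T = {2}`
-/

open Matrix Filter Topology NumberField
open scoped Polynomial nonZeroDivisors

namespace Pool.Agent.Work.MP_5e5ff1_ag.TH

namespace ITAB1

theorem nd_one : nd (fun _ : Fin 1 => (0 : ℤ)) = 1 := by
  unfold nd
  rw [Finset.image_const Finset.univ_nonempty, Finset.card_singleton]

theorem spc_one (k : ℕ) : spc 2 (2 ^ k) (fun _ : Fin 1 => (0 : ℤ)) = 1 := by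
  unfold spc
  rw [Finset.image_const Finset.univ_nonempty]
  have h : ∀ i : Fin 1, (({0} : Finset ℤ).filter fun c =>
      ((2 : ℕ) : ℤ) ^ ((2 ^ k).factorization 2) ∣ c - (fun _ : Fin 1 => (0 : ℤ)) i).card = 1 := by
    intro i
    rw [Finset.filter_true_of_mem, Finset.card_singleton]
    intro c hc
    rw [Finset.mem_singleton] at hc
    subst hc
    simp
  rw [Finset.sup_congr rfl fun i _ => h i]
  exact Finset.sup_const Finset.univ_nonempty 1

end ITAB1

open Classical in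
/-- the cost for `T = {2}` -/
theorem pr_TAB1 (hDYA : StDYA) : StTAB1 := by
  intro k s S σ hk hS F hF
  have hk0 : k ≠ 0 := by omega
  have h1 := hDYA (Fin 1) k 1 (fun _ => 0) S σ hk (fun _ _ _ => rfl)
    ITAB1.nd_one.le hS F (fun p hp => by
      obtain ⟨hp1, hp2⟩ := hF p hp
      refine ⟨hp1, fun hd => hp2 ?_⟩
      rw [Finset.mem_singleton]
      exact (Nat.prime_dvd_prime_iff_eq hp1 Nat.prime_two).1 (hp1.dvd_of_dvd_pow hd))
  rw [Nat.primeFactors_prime_pow hk0 Nat.prime_two, Finset.sum_singleton, ITAB1.spc_one,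
    ITAB1.nd_one, Nat.Prime.factorization_pow Nat.prime_two, Finsupp.single_eq_same] at h1
  rw [Finset.sum_singleton]
  have h2 : ((k : ℝ) + ((1 : ℕ) : ℝ) / (((2 : ℕ) : ℝ) - 1)) * Real.log ((2 : ℕ) : ℝ) =
      ((k : ℝ) + 1) * Real.log 2 := by
    norm_num
  rw [h2] at h1
  have h3 : ∑ p ∈ F, (1 / ((p : ℝ) * (p - 1)) + if p ∈ S then 1 / (p : ℝ) else 0) * Real.log p ≤
      4145 / 10000 + σ := by
    have h4 : ((1 : ℕ) : ℝ) * ∑ p ∈ F, (1 / ((p : ℝ) * (p - 1)) + if p ∈ S then 1 / (p : ℝ) else 0) *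
        Real.log p = ∑ p ∈ F, (1 / ((p : ℝ) * (p - 1)) + if p ∈ S then 1 / (p : ℝ) else 0) *
        Real.log p := by
      rw [Nat.cast_one, one_mul]
    rw [h4] at h1
    push_cast at h1
    linarith
  have h5 := mul_le_mul_of_nonneg_left h3 (Nat.cast_nonneg (α := ℝ) s)
  have h6 : ((k : ℝ) + 1) * Real.log ((2 : ℕ) : ℝ) = ((k : ℝ) + 1) * Real.log 2 := by norm_num
  rw [h6]
  linarith

end Pool.Agent.Work.MP_5e5ff1_ag.TH
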