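import Mathlib
import Pool.Agent.Work.MP_5e5ff1_ag.TH.StmtsY

set_option autoImplicit false

/-!
# MP_5e5ff1_ag, block TH, item TAB2: the cost for the primes 2 and 3
-/

open Matrix Filter Topology
open scoped Polynomial

namespace Pool.Agent.Work.MP_5e5ff1_ag.TH

theorem pr_TAB2 (hKAP : TG.StKAP) : StTAB2 := by
  intro s S σ κ hs hS hk2 hk3 F hF
  classical
  rw [Finset.sum_pair (by norm_num)]
  have hl2 : 0 < Real.log 2 := Real.log_pos one_lt_two
  have hl3 : 0 < Real.log 3 := Real.log_pos (by norm_num)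
  have hs' : (s : ℝ) ≤ 8 := by exact_mod_cast hs
  have hfirst : κ 2 * Real.log ((2 : ℕ) : ℝ) + κ 3 * Real.log ((3 : ℕ) : ℝ) ≤
      4 * Real.log 2 + 5 / 2 * Real.log 3 := by
    push_cast
    have e1 : κ 2 * Real.log 2 ≤ 4 * Real.log 2 := mul_le_mul_of_nonneg_right hk2 hl2.le
    have e2 : κ 3 * Real.log 3 ≤ 5 / 2 * Real.log 3 := mul_le_mul_of_nonneg_right hk3 hl3.le
    linarith
  have hp5 : ∀ p ∈ F, 3 ≤ p ∧ p ≠ 3 := by
    intro p hp
    obtain ⟨hpp, hpd⟩ := hF p hp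
    have h4 := hpp.two_le
    rw [Finset.mem_insert, Finset.mem_singleton, not_or] at hpd
    exact ⟨by omega, hpd.2⟩
  have hn0 : ∀ p : ℕ, 0 ≤ Real.log (p : ℝ) := fun p => Real.log_natCast_nonneg p
  have hpm : ∀ p : ℕ, 0 ≤ (p : ℝ) * ((p : ℝ) - 1) := by
    intro p
    rcases Nat.eq_zero_or_pos p with h | h
    · simp [h]
    · have : (1 : ℝ) ≤ p := by exact_mod_cast h
      exact mul_nonneg (by linarith) (by linarith)
  have h3F : 3 ∉ F := fun h => (hp5 3 h).2 rfl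
  have hA : ∑ p ∈ F, Real.log (p : ℝ) / ((p : ℝ) * ((p : ℝ) - 1)) ≤
      4145 / 10000 - Real.log 3 / 6 := by
    have h7 := hKAP (F.sup id + 3)
    have h8 : ∑ p ∈ insert 3 F, Real.log (p : ℝ) / ((p : ℝ) * ((p : ℝ) - 1)) ≤
        ∑ p ∈ TG.opr (F.sup id + 3), Real.log (p : ℝ) / ((p : ℝ) * ((p : ℝ) - 1)) := by
      refine Finset.sum_le_sum_of_subset_of_nonneg ?_ fun p _ _ => div_nonneg (hn0 p) (hpm p)
      intro p hp
      rw [Finset.mem_insert] at hp
      rcases hp with rfl | hp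
      · exact Finset.mem_filter.2 ⟨Finset.mem_Icc.2 ⟨le_rfl, by omega⟩, Nat.prime_three⟩
      · refine Finset.mem_filter.2 ⟨Finset.mem_Icc.2 ⟨(hp5 p hp).1, ?_⟩, (hF p hp).1⟩
        have h9 : p ≤ F.sup id := Finset.le_sup (f := id) hp
        omega
    rw [Finset.sum_insert h3F] at h8
    have h10 : Real.log ((3 : ℕ) : ℝ) / (((3 : ℕ) : ℝ) * (((3 : ℕ) : ℝ) - 1)) =
        Real.log 3 / 6 := by
      push_cast
      norm_num
    rw [h10] at h8
    linarith
  have hB : ∑ p ∈ F, (if p ∈ S then 1 / (p : ℝ) else 0) * Real.log (p : ℝ) ≤ σ := by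
    have h7 := hS (F.filter (· ∈ S)) fun p hp =>
      ⟨(hF p (Finset.mem_filter.1 hp).1).1, (Finset.mem_filter.1 hp).2⟩
    rw [Finset.sum_filter] at h7
    refine le_trans (le_of_eq ?_) h7
    refine Finset.sum_congr rfl fun p _ => ?_
    split_ifs
    · ring
    · ring
  have hT : ∑ p ∈ F, (1 / ((p : ℝ) * (p - 1)) + if p ∈ S then 1 / (p : ℝ) else 0) *
      Real.log p ≤ 4145 / 10000 - Real.log 3 / 6 + σ := by
    have h7 : ∑ p ∈ F, (1 / ((p : ℝ) * (p - 1)) + if p ∈ S then 1 / (p : ℝ) else 0) *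
        Real.log p = ∑ p ∈ F, Real.log (p : ℝ) / ((p : ℝ) * ((p : ℝ) - 1)) +
        ∑ p ∈ F, (if p ∈ S then 1 / (p : ℝ) else 0) * Real.log (p : ℝ) := by
      rw [← Finset.sum_add_distrib]
      exact Finset.sum_congr rfl fun p _ => by ring
    rw [h7]
    linarith
  have hT0 : 0 ≤ ∑ p ∈ F, (1 / ((p : ℝ) * (p - 1)) + if p ∈ S then 1 / (p : ℝ) else 0) *
      Real.log p := by
    refine Finset.sum_nonneg fun p _ => mul_nonneg (add_nonneg ?_ ?_) (hn0 p)
    · exact one_div_nonneg.2 (hpm p)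
    · split_ifs
      · positivity
      · exact le_rfl
  have hprod : (s : ℝ) * ∑ p ∈ F, (1 / ((p : ℝ) * (p - 1)) +
      if p ∈ S then 1 / (p : ℝ) else 0) * Real.log p ≤
      8 * (4145 / 10000 - Real.log 3 / 6 + σ) :=
    (mul_le_mul_of_nonneg_right hs' hT0).trans (mul_le_mul_of_nonneg_left hT (by norm_num))
  have hsum := add_le_add hfirst hprod
  refine le_trans (le_of_eq ?_) (hsum.trans (le_of_eq ?_))
  · congr 1
  · ring

end Pool.Agent.Work.MP_5e5ff1_ag.TH
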