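import Mathlib
import Pool.Agent.Work.MP_5e5ff1_ag.TH.StmtsD

set_option autoImplicit false

/-!
# MP_5e5ff1_ag, block TH, item UCV: the solution at 0 has a positive radius of convergence
-/

open Matrix Filter Topology
open scoped Polynomial

namespace Pool.Agent.Work.MP_5e5ff1_ag.TH

namespace IUCV

variable {ι : Type} [Fintype ι] [DecidableEq ι]

/-- The recursion over the real numbers. -/
lemma eqn_real {M : ℕ} {β : ι → ℤ} {C : Matrix ι ι ℤ} {U : ℕ → Matrix ι ι ℚ}
    (hU : IsU M β (qm C) U)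
    (n : ℕ) (i j : ι) :
    ((M : ℝ) * (n : ℝ) + ((β j : ℝ) - (β i : ℝ))) * (U n i j : ℝ) =
      - ∑ k ∈ Finset.range n, ∑ l, (C i l : ℝ) * (U k l j : ℝ) := by
  have h := congrArg (fun q : ℚ => (q : ℝ)) (hU.eqn n i j)
  simp only [Matrix.mul_apply, Matrix.map_apply, eq_intCast] at h
  push_cast at h
  linarith

end IUCV

theorem pr_UCV (h1 : TG.StMAJ) : StUCV := by
  intro ι _ _ M β C U hM hU
  classical
  set x : ℕ → ℝ := fun n => ∑ i, ∑ j, |(U n i j : ℝ)| with hx
  set c' : ℝ := ∑ i, ∑ l, |(C i l : ℝ)| with hc'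
  set n0 : ℕ := ∑ i, ∑ j, (β j - β i).natAbs + 1 with hn0
  have hx0 : ∀ n, 0 ≤ x n := fun n =>
    Finset.sum_nonneg fun i _ => Finset.sum_nonneg fun j _ => abs_nonneg _
  have hc0 : 0 ≤ c' := Finset.sum_nonneg fun i _ => Finset.sum_nonneg fun j _ => abs_nonneg _
  have hle : ∀ n i j, |(U n i j : ℝ)| ≤ x n := by
    intro n i j
    refine le_trans (Finset.single_le_sum (f := fun j => |(U n i j : ℝ)|)
      (fun j _ => abs_nonneg _) (Finset.mem_univ j)) ?_
    exact Finset.single_le_sum (f := fun i => ∑ j, |(U n i j : ℝ)|)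
      (fun i _ => Finset.sum_nonneg fun j _ => abs_nonneg _) (Finset.mem_univ i)
  have hcle : ∀ i l, |(C i l : ℝ)| ≤ c' := by
    intro i l
    refine le_trans (Finset.single_le_sum (f := fun j => |(C i j : ℝ)|)
      (fun j _ => abs_nonneg _) (Finset.mem_univ l)) ?_
    exact Finset.single_le_sum (f := fun i => ∑ j, |(C i j : ℝ)|)
      (fun i _ => Finset.sum_nonneg fun j _ => abs_nonneg _) (Finset.mem_univ i)
  have hcol : ∀ k j, ∑ l, |(U k l j : ℝ)| ≤ x k := by
    intro k j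
    refine Finset.sum_le_sum fun l _ => ?_
    exact Finset.single_le_sum (f := fun j => |(U k l j : ℝ)|)
      (fun j _ => abs_nonneg _) (Finset.mem_univ j)
  have hent : ∀ n, n0 ≤ n → ∀ i j, |(U n i j : ℝ)| ≤ c' * ∑ k ∈ Finset.range n, x k := by
    intro n hn i j
    have e := IUCV.eqn_real hU n i j
    have hb : (β j - β i).natAbs + 1 ≤ n := by
      have h2 : (β j - β i).natAbs ≤ ∑ i, ∑ j, (β j - β i).natAbs := by
        refine le_trans (Finset.single_le_sum (f := fun j => (β j - β i).natAbs)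
          (fun j _ => Nat.zero_le _) (Finset.mem_univ j)) ?_
        exact Finset.single_le_sum (f := fun i => ∑ j, (β j - β i).natAbs)
          (fun i _ => Nat.zero_le _) (Finset.mem_univ i)
      omega
    have hb1 : |(β j : ℝ) - (β i : ℝ)| + 1 ≤ n := by
      have h3 : (((β j - β i).natAbs : ℕ) : ℝ) = |(β j : ℝ) - (β i : ℝ)| := by
        rw [← Int.cast_natCast (R := ℝ), Int.natCast_natAbs]
        push_cast
        rfl
      rw [← h3]
      exact_mod_cast hb
    have hf : 1 ≤ (M : ℝ) * (n : ℝ) + ((β j : ℝ) - (β i : ℝ)) := by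
      have hM1 : (1 : ℝ) ≤ M := by exact_mod_cast hM
      have hn0' : (0 : ℝ) ≤ n := Nat.cast_nonneg n
      have hMn : (n : ℝ) ≤ (M : ℝ) * n := le_mul_of_one_le_left hn0' hM1
      have h4 := neg_abs_le ((β j : ℝ) - (β i : ℝ))
      have h5 := abs_nonneg ((β j : ℝ) - (β i : ℝ))
      linarith
    have h6 : |(U n i j : ℝ)| ≤ |((M : ℝ) * (n : ℝ) + ((β j : ℝ) - (β i : ℝ))) * (U n i j : ℝ)| := by
      rw [abs_mul, abs_of_nonneg (by linarith : (0 : ℝ) ≤ (M : ℝ) * (n : ℝ) +
        ((β j : ℝ) - (β i : ℝ)))]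
      exact le_mul_of_one_le_left (abs_nonneg _) hf
    refine h6.trans ?_
    rw [e, abs_neg, Finset.mul_sum]
    refine (Finset.abs_sum_le_sum_abs _ _).trans (Finset.sum_le_sum fun k _ => ?_)
    refine (Finset.abs_sum_le_sum_abs _ _).trans ?_
    calc ∑ l, |(C i l : ℝ) * (U k l j : ℝ)| ≤ ∑ l, c' * |(U k l j : ℝ)| := by
          refine Finset.sum_le_sum fun l _ => ?_
          rw [abs_mul]
          exact mul_le_mul_of_nonneg_right (hcle i l) (abs_nonneg _)
      _ = c' * ∑ l, |(U k l j : ℝ)| := by rw [Finset.mul_sum]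
      _ ≤ c' * x k := mul_le_mul_of_nonneg_left (hcol k j) hc0
  have hrec : ∀ n ≥ n0, x n ≤ ((Fintype.card ι : ℝ) ^ 2 * c') * ∑ k ∈ Finset.range n, x k := by
    intro n hn
    calc x n ≤ ∑ _i : ι, ∑ _j : ι, c' * ∑ k ∈ Finset.range n, x k :=
          Finset.sum_le_sum fun i _ => Finset.sum_le_sum fun j _ => hent n hn i j
      _ = ((Fintype.card ι : ℝ) ^ 2 * c') * ∑ k ∈ Finset.range n, x k := by
          simp only [Finset.sum_const, Finset.card_univ, nsmul_eq_mul]
          ring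
  obtain ⟨A, hA1, hA⟩ := h1 x ((Fintype.card ι : ℝ) ^ 2 * c') n0
    (mul_nonneg (by positivity) hc0) hx0 hrec
  exact ⟨A, hA1, fun n i j => (hle n i j).trans (hA n)⟩

end Pool.Agent.Work.MP_5e5ff1_ag.TH
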