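import Mathlib
import Pool.Agent.Work.MP_5e5ff1_ag.TH.StmtsA

set_option autoImplicit false

/-!
# MP_5e5ff1_ag, block TH, item UEX
-/

open Matrix Filter Topology
open scoped Polynomial

namespace Pool.Agent.Work.MP_5e5ff1_ag.TH

namespace IUEX

/-- the factor of the recursion does not vanish for positive `n` -/
theorem factor_ne {F : Type} [Field F] [CharZero F] {ι : Type} (M : ℕ) (hM : 0 < M) (β : ι → ℤ)
    (h : ∀ i j, (M : ℤ) ∣ β i - β j → β i = β j) (n : ℕ) (hn : n ≠ 0) (i j : ι) :
    ((M : F) * (n : F) + ((β j : F) - (β i : F))) ≠ 0 := by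
  intro h0
  have h1 : (((M : ℤ) * (n : ℤ) + (β j - β i) : ℤ) : F) = 0 := by
    push_cast
    exact h0
  have h2 : ((M : ℤ) * (n : ℤ) + (β j - β i) : ℤ) = 0 := by exact_mod_cast h1
  have h3 : β i - β j = (M : ℤ) * (n : ℤ) := by linarith
  have h4 : β i = β j := h i j ⟨(n : ℤ), h3⟩
  rw [h4, sub_self] at h3
  have h5 : (M : ℤ) ≠ 0 := by exact_mod_cast hM.ne'
  have h6 : (n : ℤ) ≠ 0 := by exact_mod_cast hn
  exact mul_ne_zero h5 h6 h3.symm

/-- the solution, by strong recursion -/
noncomputable def V {F : Type} [Field F] {ι : Type} [Fintype ι] [DecidableEq ι]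
    (M : ℕ) (β : ι → ℤ) (C : Matrix ι ι F) : ℕ → Matrix ι ι F
  | n => if n = 0 then 1 else fun i j =>
      -((M : F) * (n : F) + ((β j : F) - (β i : F)))⁻¹ * ∑ k : Fin n, (C * V M β C k.1) i j
termination_by n => n
decreasing_by exact k.2

theorem V_zero {F : Type} [Field F] {ι : Type} [Fintype ι] [DecidableEq ι]
    (M : ℕ) (β : ι → ℤ) (C : Matrix ι ι F) : V M β C 0 = 1 := by
  rw [V]
  simp

theorem V_pos {F : Type} [Field F] {ι : Type} [Fintype ι] [DecidableEq ι]
    (M : ℕ) (β : ι → ℤ) (C : Matrix ι ι F) (n : ℕ) (hn : n ≠ 0) (i j : ι) :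
    V M β C n i j = -((M : F) * (n : F) + ((β j : F) - (β i : F)))⁻¹ *
      ∑ k ∈ Finset.range n, (C * V M β C k) i j := by
  rw [V, if_neg hn]
  rw [← Fin.sum_univ_eq_sum_range (fun k => (C * V M β C k) i j) n]

end IUEX

theorem pr_UEX : StUEX := by
  intro F _ _ ι _ _ M β C hM h
  refine ⟨IUEX.V M β C, ⟨IUEX.V_zero M β C, ?_⟩, ?_⟩
  · intro n i j
    rcases Nat.eq_zero_or_pos n with rfl | hn
    · rw [IUEX.V_zero]
      by_cases hij : i = j
      · subst hij
        simp
      · simp [Matrix.one_apply_ne hij]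
    · have hne : n ≠ 0 := hn.ne'
      have hf := IUEX.factor_ne (F := F) M hM β h n hne i j
      rw [IUEX.V_pos M β C n hne i j, neg_mul, mul_neg, mul_inv_cancel_left₀ hf]
      ring
  · intro U' hU'
    funext n
    induction n using Nat.strong_induction_on with
    | _ n ih =>
      rcases Nat.eq_zero_or_pos n with rfl | hn
      · rw [hU'.zero, IUEX.V_zero]
      · have hne : n ≠ 0 := hn.ne'
        funext i j
        have hf := IUEX.factor_ne (F := F) M hM β h n hne i j
        have h1 := hU'.eqn n i j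
        have h2 : ∑ k ∈ Finset.range n, (C * U' k) i j =
            ∑ k ∈ Finset.range n, (C * IUEX.V M β C k) i j := by
          refine Finset.sum_congr rfl fun k hk => ?_
          rw [ih k (Finset.mem_range.1 hk)]
        rw [h2] at h1
        rw [IUEX.V_pos M β C n hne i j]
        have h3 : ((M : F) * (n : F) + ((β j : F) - (β i : F))) * U' n i j =
            -(∑ k ∈ Finset.range n, (C * IUEX.V M β C k) i j) := by
          linear_combination h1
        rw [neg_mul, ← mul_neg, ← h3, inv_mul_cancel_left₀ hf]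

end Pool.Agent.Work.MP_5e5ff1_ag.TH
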