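import Mathlib
import Pool.Agent.Work.MP_5e5ff1_ag.TH.StmtsX
import Pool.Agent.Work.MP_5e5ff1_ag.TH.I_UEX

set_option autoImplicit false

/-!
# MP_5e5ff1_ag, block TH, item UEXR: a formal solution over `K`, resonance allowed
-/

open Matrix Filter Topology NumberField
open scoped Polynomial nonZeroDivisors

namespace Pool.Agent.Work.MP_5e5ff1_ag.TH

namespace IUEXR

theorem qm_neg_db {ι : Type} [Fintype ι] [DecidableEq ι] (β : ι → ℤ) :
    qm (-db ℤ β) = Matrix.diagonal fun i => ((-(β i) : ℤ) : ℚ) := by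
  ext i j
  by_cases h : i = j
  · subst h
    simp [db]
  · simp [db, Matrix.diagonal_apply_ne _ h]

theorem L1_A0 {ι : Type} [Fintype ι] [DecidableEq ι] (M : ℕ) (β : ι → ℤ) (C : Matrix ι ι ℤ)
    (lam : ℤ) (w : ℕ → ι → ℚ) (m : ℕ) (x : ι) :
    L1 M (fun m => qm (A0 β C m)) lam w m x =
      ((M : ℚ) * (m : ℚ) - (β x : ℚ) - (lam : ℚ)) * w m x +
        ∑ k ∈ Finset.range m, (qm C *ᵥ w k) x := by
  have h1 : L1 M (fun m => qm (A0 β C m)) lam w m x = (M : ℚ) * (m : ℚ) * w m x +
      ∑ k ∈ Finset.range (m + 1), (qm (A0 β C (m - k)) *ᵥ w k) x - (lam : ℚ) * w m x := rfl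
  rw [h1, Finset.sum_range_succ, Nat.sub_self]
  have h2 : ∀ k ∈ Finset.range m, (qm (A0 β C (m - k)) *ᵥ w k) x = (qm C *ᵥ w k) x := by
    intro k hk
    have h3 : m - k ≠ 0 := by
      have := Finset.mem_range.1 hk
      omega
    rw [A0, if_neg h3]
  rw [Finset.sum_congr rfl h2]
  have h4 : (qm (A0 β C 0) *ᵥ w m) x = -(β x : ℚ) * w m x := by
    rw [A0, if_pos rfl, qm_neg_db, Matrix.mulVec_diagonal]
    push_cast
    ring
  rw [h4]
  ring

end IUEXR

open IUEXR in
/-- Item UEXR. -/
theorem pr_UEXR (hE : StEXT) (hRK : StRK) : StUEXR := by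
  intro K _ _ r M β c hM hF
  obtain ⟨-, hmul, -, -, -, hcm, -⟩ := hRK K r
  set C : Matrix (Fin r) (Fin r) K := Matrix.of fun i j => (c i j : K) with hC
  set U : ℕ → Matrix (Fin r) (Fin r) K := IUEX.V M β C with hU
  set β' : Fin r × Fin (Module.finrank ℤ (𝓞 K)) → ℤ := fun x => β x.1 with hβ'
  let Λ := Algebra.leftMulMatrix (qb K)
  have hΛ : ∀ (B : Matrix (Fin r) (Fin r) K) x y, rsK K B x y = Λ (B x.1 y.1) x.2 y.2 :=
    fun B x y => rfl
  -- multiplication with the residue
  have hmv : ∀ (k : ℕ) (j : Fin r) (b : Fin (Module.finrank ℤ (𝓞 K)))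
      (x : Fin r × Fin (Module.finrank ℤ (𝓞 K))),
      (qm (TG.rs K c) *ᵥ fun y => rsK K (U k) y (j, b)) x = Λ ((C * U k) x.1 j) x.2 b := by
    intro k j b x
    have h1 : (qm (TG.rs K c) *ᵥ fun y => rsK K (U k) y (j, b)) x =
        (qm (TG.rs K c) * rsK K (U k)) x (j, b) := rfl
    rw [h1, ← hcm, ← hmul, hΛ]
  -- the equations after restriction of scalars
  have hres : ∀ (m : ℕ) (j : Fin r) (b : Fin (Module.finrank ℤ (𝓞 K)))
      (x : Fin r × Fin (Module.finrank ℤ (𝓞 K))),
      L1 M (fun m => qm (A0 β' (TG.rs K c) m)) (-(β j)) (fun k y => rsK K (U k) y (j, b)) m x =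
        Λ (((M : K) * (m : K) + ((β j : K) - (β x.1 : K))) * U m x.1 j +
          ∑ k ∈ Finset.range m, (C * U k) x.1 j) x.2 b := by
    intro m j b x
    rw [L1_A0]
    have h1 : ((M : K) * (m : K) + ((β j : K) - (β x.1 : K))) * U m x.1 j =
        ((M : ℚ) * (m : ℚ) + ((β j : ℚ) - (β x.1 : ℚ))) • U m x.1 j := by
      rw [Algebra.smul_def]
      congr 1
      simp
    rw [h1, map_add, map_smul, map_sum, Matrix.add_apply, Matrix.smul_apply, Matrix.sum_apply]
    have h2 : ∀ k ∈ Finset.range m, (qm (TG.rs K c) *ᵥ fun y => rsK K (U k) y (j, b)) x =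
        Λ ((C * U k) x.1 j) x.2 b := fun k _ => hmv k j b x
    rw [Finset.sum_congr rfl h2, hΛ, smul_eq_mul]
    push_cast
    ring
  -- the factor vanishes only if the sum does
  have key : ∀ n : ℕ, ∀ i j : Fin r, ((M : K) * (n : K) + ((β j : K) - (β i : K))) * U n i j +
      ∑ k ∈ Finset.range n, (C * U k) i j = 0 := by
    intro n
    induction n using Nat.strong_induction_on with
    | _ n ih =>
      intro i j
      rcases Nat.eq_zero_or_pos n with rfl | hn
      · rw [hU, IUEX.V_zero]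
        by_cases hij : i = j
        · subst hij
          simp
        · simp [Matrix.one_apply_ne hij]
      · by_cases hf : (M : K) * (n : K) + ((β j : K) - (β i : K)) = 0
        · rw [hf, zero_mul, zero_add]
          have hfq : (M : ℚ) * (n : ℚ) + ((β j : ℚ) - (β i : ℚ)) = 0 := by
            have h1 : (((M : ℤ) * (n : ℤ) + (β j - β i) : ℤ) : K) = 0 := by
              push_cast
              exact hf
            have h2 : ((M : ℤ) * (n : ℤ) + (β j - β i) : ℤ) = 0 := by exact_mod_cast h1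
            exact_mod_cast h2
          have hinj : Function.Injective Λ := Algebra.leftMulMatrix_injective (qb K)
          apply hinj
          rw [map_zero]
          ext a b
          rw [Matrix.zero_apply]
          have hlow : ∀ m < n, ∀ x, L1 M (fun m => qm (A0 β' (TG.rs K c) m)) (-(β j))
              (fun k y => rsK K (U k) y (j, b)) m x = 0 := by
            intro m hm x
            rw [hres, ih m hm x.1 j, map_zero, Matrix.zero_apply]
          obtain ⟨h, hh⟩ := hE _ M (A0 β' (TG.rs K c)) hF (fun x => -(β' x)) 1 (by simp)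
            (by
              rw [Matrix.mul_one, Matrix.one_mul, A0, if_pos rfl, qm_neg_db])
            (fun k y => rsK K (U k) y (j, b)) (-(β j)) n hlow
          have h3 := hh n le_rfl (i, a)
          rw [L1_A0] at h3
          have h4 : ((M : ℚ) * (n : ℚ) - (β' (i, a) : ℚ) - ((-(β j) : ℤ) : ℚ)) = 0 := by
            show ((M : ℚ) * (n : ℚ) - (β i : ℚ) - ((-(β j) : ℤ) : ℚ)) = 0
            push_cast
            linear_combination hfq
          rw [h4, zero_mul, zero_add] at h3
          rw [map_sum, Matrix.sum_apply]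
          rw [← h3]
          refine Finset.sum_congr rfl fun k hk => ?_
          have hkn : k ≠ n := (Finset.mem_range.1 hk).ne
          rw [Function.update_of_ne hkn, hmv]
        · rw [hU, IUEX.V_pos M β C n hn.ne' i j, neg_mul, mul_neg, mul_inv_cancel_left₀ hf]
          ring
  exact ⟨U, ⟨IUEX.V_zero M β C, key⟩⟩

end Pool.Agent.Work.MP_5e5ff1_ag.TH
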