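import Mathlib
import Pool.Agent.Work.MP_5e5ff1_ag.TH.StmtsA

set_option autoImplicit false

/-! MP_5e5ff1_ag, block TH, item UREC: the ultrametric recursion (after TG/I_UREC). -/

open Matrix Filter Topology
open scoped Polynomial

namespace Pool.Agent.Work.MP_5e5ff1_ag.TH

theorem pr_UREC : StUREC := by
  intro p _ ι _ _ M β C U hU j g hg0 hmono hstep n
  induction n using Nat.strong_induction_on with
  | _ n ih =>
    intro i
    rcases n with _ | n
    · rw [hU.zero]
      by_cases h : i = j
      · rw [h, Matrix.one_apply_eq, padicNorm.one]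
        exact hg0
      · rw [Matrix.one_apply_ne h, padicNorm.zero]
        linarith
    · have hgn : 1 ≤ g n := hg0.trans (hmono (Nat.zero_le n))
      have hsum : padicNorm p (∑ k ∈ Finset.range (n + 1),
          (qm C * U k) i j) ≤ g n := by
        apply padicNorm.sum_le' _ (by linarith)
        intro k hk
        rw [Finset.mem_range] at hk
        rw [Matrix.mul_apply]
        apply padicNorm.sum_le' _ (by linarith)
        intro l _
        rw [padicNorm.mul]
        have h1 : padicNorm p ((Int.castRingHom ℚ) (C i l)) ≤ 1 := padicNorm.of_int (C i l)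
        have h2 : padicNorm p (U k l j) ≤ g n :=
          (ih k hk l).trans (hmono (by omega))
        change padicNorm p ((Int.castRingHom ℚ) (C i l)) * padicNorm p (U k l j) ≤ g n
        calc padicNorm p ((Int.castRingHom ℚ) (C i l)) * padicNorm p (U k l j)
            ≤ 1 * g n := mul_le_mul h1 h2 (padicNorm.nonneg _) zero_le_one
          _ = g n := one_mul _
      have heq := hU.eqn (n + 1) i j
      have h3 : ((M : ℚ) * (((n + 1 : ℕ)) : ℚ) + ((β j : ℚ) - (β i : ℚ))) * U (n + 1) i j =
          -(∑ k ∈ Finset.range (n + 1), (qm C * U k) i j) := by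
        linarith
      have h4 : padicNorm p ((M : ℚ) * (((n : ℚ)) + 1) + ((β j : ℚ) - (β i : ℚ))) *
          padicNorm p (U (n + 1) i j) ≤ g n := by
        rw [← padicNorm.mul]
        have e : ((M : ℚ) * ((n : ℚ) + 1) + ((β j : ℚ) - (β i : ℚ))) * U (n + 1) i j =
            -(∑ k ∈ Finset.range (n + 1), (qm C * U k) i j) := by
          rw [← h3]
          push_cast
          ring
        rw [e, padicNorm.neg]
        exact hsum
      have h5 := hstep n i
      have hpos : 0 < padicNorm p ((M : ℚ) * ((n : ℚ) + 1) + ((β j : ℚ) - (β i : ℚ))) := by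
        rcases (padicNorm.nonneg (p := p) ((M : ℚ) * ((n : ℚ) + 1) +
          ((β j : ℚ) - (β i : ℚ)))).lt_or_eq with h | h
        · exact h
        · rw [← h, zero_mul] at h5
          linarith
      exact le_of_mul_le_mul_left (h4.trans h5) hpos

end Pool.Agent.Work.MP_5e5ff1_ag.TH
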