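import Mathlib
import Pool.Agent.Work.MP_5e5ff1_ag.TH.StmtsA

set_option autoImplicit false

/-!
# MP_5e5ff1_ag, block TH, item WIL
-/

open Matrix Filter Topology
open scoped Polynomial

namespace Pool.Agent.Work.MP_5e5ff1_ag.TH

namespace IWIL

theorem prod_univ (p : ℕ) [Fact p.Prime] :
    ∏ c : ZMod p, ((Polynomial.X : (ZMod p)[X]) - Polynomial.C c) =
      Polynomial.X ^ p - Polynomial.X := by
  have hp1 : 1 < p := (Fact.out : p.Prime).one_lt
  have hroots : (Polynomial.X ^ p - Polynomial.X : (ZMod p)[X]).roots = Finset.univ.val := by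
    have h := FiniteField.roots_X_pow_card_sub_X (ZMod p)
    rwa [ZMod.card p] at h
  have hmonic : (Polynomial.X ^ p - Polynomial.X : (ZMod p)[X]).Monic := by
    refine Polynomial.monic_X_pow_sub ?_
    rw [Polynomial.degree_X]
    exact_mod_cast hp1
  have hcard : Multiset.card (Polynomial.X ^ p - Polynomial.X : (ZMod p)[X]).roots =
      (Polynomial.X ^ p - Polynomial.X : (ZMod p)[X]).natDegree := by
    rw [hroots, FiniteField.X_pow_card_sub_X_natDegree_eq (ZMod p) hp1]
    simp [ZMod.card]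
  have h := Polynomial.prod_multiset_X_sub_C_of_monic_of_roots_card_eq hmonic hcard
  rw [hroots] at h
  exact h

end IWIL

/-- WIL: `∏_{k<p} (X + a + u k) = X^p - X` over `ZMod p`, `u ≠ 0`. -/
theorem pr_WIL : StWIL := by
  intro p _ a u hu
  rw [← IWIL.prod_univ p]
  refine Finset.prod_bij (fun k _ => -(a + u * (k : ZMod p))) (fun _ _ => Finset.mem_univ _)
    ?_ ?_ ?_
  · intro k₁ hk₁ k₂ hk₂ h
    have h1 : u * (k₁ : ZMod p) = u * (k₂ : ZMod p) := add_left_cancel (neg_injective h)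
    have h2 : (k₁ : ZMod p) = (k₂ : ZMod p) := mul_left_cancel₀ hu h1
    rw [ZMod.natCast_eq_natCast_iff'] at h2
    rwa [Nat.mod_eq_of_lt (Finset.mem_range.mp hk₁), Nat.mod_eq_of_lt (Finset.mem_range.mp hk₂)]
      at h2
  · intro c _
    refine ⟨((-c - a) / u).val, Finset.mem_range.mpr (ZMod.val_lt _), ?_⟩
    rw [ZMod.natCast_zmod_val, mul_div_cancel₀ _ hu]
    ring
  · intro k _
    rw [Polynomial.C_neg, sub_neg_eq_add]

end Pool.Agent.Work.MP_5e5ff1_ag.TH
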