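import Mathlib
import Pool.Agent.Work.MP_5e5ff1_ag.TG.I_ARI
import Pool.Agent.Work.MP_5e5ff1_ag.TG.I_CFA
import Pool.Agent.Work.MP_5e5ff1_ag.TG.I_CHB
import Pool.Agent.Work.MP_5e5ff1_ag.TG.I_CNV
import Pool.Agent.Work.MP_5e5ff1_ag.TG.I_CVA
import Pool.Agent.Work.MP_5e5ff1_ag.TG.I_END
import Pool.Agent.Work.MP_5e5ff1_ag.TG.I_FAC
import Pool.Agent.Work.MP_5e5ff1_ag.TG.I_GLU
import Pool.Agent.Work.MP_5e5ff1_ag.TG.I_ITA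
import Pool.Agent.Work.MP_5e5ff1_ag.TG.I_ITG
import Pool.Agent.Work.MP_5e5ff1_ag.TG.I_KAP
import Pool.Agent.Work.MP_5e5ff1_ag.TG.I_LFT
import Pool.Agent.Work.MP_5e5ff1_ag.TG.I_MAJ
import Pool.Agent.Work.MP_5e5ff1_ag.TG.I_MAX
import Pool.Agent.Work.MP_5e5ff1_ag.TG.I_NZA
import Pool.Agent.Work.MP_5e5ff1_ag.TG.I_ORD
import Pool.Agent.Work.MP_5e5ff1_ag.TG.I_PID
import Pool.Agent.Work.MP_5e5ff1_ag.TG.I_POW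
import Pool.Agent.Work.MP_5e5ff1_ag.TG.I_PWR
import Pool.Agent.Work.MP_5e5ff1_ag.TG.I_QC
import Pool.Agent.Work.MP_5e5ff1_ag.TG.I_SGL
import Pool.Agent.Work.MP_5e5ff1_ag.TG.I_SQR
import Pool.Agent.Work.MP_5e5ff1_ag.TH.I_ADJ
import Pool.Agent.Work.MP_5e5ff1_ag.TH.I_ALG
import Pool.Agent.Work.MP_5e5ff1_ag.TH.I_BAD
import Pool.Agent.Work.MP_5e5ff1_ag.TH.I_BADN
import Pool.Agent.Work.MP_5e5ff1_ag.TH.I_BLM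
import Pool.Agent.Work.MP_5e5ff1_ag.TH.I_BLMG
import Pool.Agent.Work.MP_5e5ff1_ag.TH.I_C12
import Pool.Agent.Work.MP_5e5ff1_ag.TH.I_C72
import Pool.Agent.Work.MP_5e5ff1_ag.TH.I_CAS
import Pool.Agent.Work.MP_5e5ff1_ag.TH.I_CHB
import Pool.Agent.Work.MP_5e5ff1_ag.TH.I_CHP
import Pool.Agent.Work.MP_5e5ff1_ag.TH.I_CJP
import Pool.Agent.Work.MP_5e5ff1_ag.TH.I_CJQ
import Pool.Agent.Work.MP_5e5ff1_ag.TH.I_CKC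
import Pool.Agent.Work.MP_5e5ff1_ag.TH.I_CLF
import Pool.Agent.Work.MP_5e5ff1_ag.TH.I_CMP
import Pool.Agent.Work.MP_5e5ff1_ag.TH.I_CN1
import Pool.Agent.Work.MP_5e5ff1_ag.TH.I_CN2
import Pool.Agent.Work.MP_5e5ff1_ag.TH.I_CON
import Pool.Agent.Work.MP_5e5ff1_ag.TH.I_CONR
import Pool.Agent.Work.MP_5e5ff1_ag.TH.I_COSR
import Pool.Agent.Work.MP_5e5ff1_ag.TH.I_CRT2
import Pool.Agent.Work.MP_5e5ff1_ag.TH.I_DEN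
import Pool.Agent.Work.MP_5e5ff1_ag.TH.I_DIA
import Pool.Agent.Work.MP_5e5ff1_ag.TH.I_DIAK
import Pool.Agent.Work.MP_5e5ff1_ag.TH.I_DIAL
import Pool.Agent.Work.MP_5e5ff1_ag.TH.I_DNS
import Pool.Agent.Work.MP_5e5ff1_ag.TH.I_DNT
import Pool.Agent.Work.MP_5e5ff1_ag.TH.I_DRL
import Pool.Agent.Work.MP_5e5ff1_ag.TH.I_DYA
import Pool.Agent.Work.MP_5e5ff1_ag.TH.I_END2
import Pool.Agent.Work.MP_5e5ff1_ag.TH.I_EXS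
import Pool.Agent.Work.MP_5e5ff1_ag.TH.I_EXT
import Pool.Agent.Work.MP_5e5ff1_ag.TH.I_EXU
import Pool.Agent.Work.MP_5e5ff1_ag.TH.I_FAM
import Pool.Agent.Work.MP_5e5ff1_ag.TH.I_FAM2
import Pool.Agent.Work.MP_5e5ff1_ag.TH.I_FGD
import Pool.Agent.Work.MP_5e5ff1_ag.TH.I_FGG
import Pool.Agent.Work.MP_5e5ff1_ag.TH.I_FIN
import Pool.Agent.Work.MP_5e5ff1_ag.TH.I_FIN2
import Pool.Agent.Work.MP_5e5ff1_ag.TH.I_FING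
import Pool.Agent.Work.MP_5e5ff1_ag.TH.I_FINR
import Pool.Agent.Work.MP_5e5ff1_ag.TH.I_FINT
import Pool.Agent.Work.MP_5e5ff1_ag.TH.I_FRB
import Pool.Agent.Work.MP_5e5ff1_ag.TH.I_FRBR
import Pool.Agent.Work.MP_5e5ff1_ag.TH.I_GAN
import Pool.Agent.Work.MP_5e5ff1_ag.TH.I_GB3
import Pool.Agent.Work.MP_5e5ff1_ag.TH.I_GBA
import Pool.Agent.Work.MP_5e5ff1_ag.TH.I_GCV
import Pool.Agent.Work.MP_5e5ff1_ag.TH.I_GEX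
import Pool.Agent.Work.MP_5e5ff1_ag.TH.I_GL3
import Pool.Agent.Work.MP_5e5ff1_ag.TH.I_GLI
import Pool.Agent.Work.MP_5e5ff1_ag.TH.I_GOD
import Pool.Agent.Work.MP_5e5ff1_ag.TH.I_GODN
import Pool.Agent.Work.MP_5e5ff1_ag.TH.I_GRC
import Pool.Agent.Work.MP_5e5ff1_ag.TH.I_GRG
import Pool.Agent.Work.MP_5e5ff1_ag.TH.I_GRM
import Pool.Agent.Work.MP_5e5ff1_ag.TH.I_GRM2
import Pool.Agent.Work.MP_5e5ff1_ag.TH.I_GRN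
import Pool.Agent.Work.MP_5e5ff1_ag.TH.I_GRO
import Pool.Agent.Work.MP_5e5ff1_ag.TH.I_GRS
import Pool.Agent.Work.MP_5e5ff1_ag.TH.I_GRT
import Pool.Agent.Work.MP_5e5ff1_ag.TH.I_GRTS
import Pool.Agent.Work.MP_5e5ff1_ag.TH.I_GS3
import Pool.Agent.Work.MP_5e5ff1_ag.TH.I_GST
import Pool.Agent.Work.MP_5e5ff1_ag.TH.I_HAC
import Pool.Agent.Work.MP_5e5ff1_ag.TH.I_IND
import Pool.Agent.Work.MP_5e5ff1_ag.TH.I_INF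
import Pool.Agent.Work.MP_5e5ff1_ag.TH.I_INFT
import Pool.Agent.Work.MP_5e5ff1_ag.TH.I_ITR0
import Pool.Agent.Work.MP_5e5ff1_ag.TH.I_ITR1
import Pool.Agent.Work.MP_5e5ff1_ag.TH.I_ITR2
import Pool.Agent.Work.MP_5e5ff1_ag.TH.I_ITRG
import Pool.Agent.Work.MP_5e5ff1_ag.TH.I_KAP2
import Pool.Agent.Work.MP_5e5ff1_ag.TH.I_KDC
import Pool.Agent.Work.MP_5e5ff1_ag.TH.I_KDK
import Pool.Agent.Work.MP_5e5ff1_ag.TH.I_KEI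
import Pool.Agent.Work.MP_5e5ff1_ag.TH.I_KEY2
import Pool.Agent.Work.MP_5e5ff1_ag.TH.I_KME
import Pool.Agent.Work.MP_5e5ff1_ag.TH.I_KPC
import Pool.Agent.Work.MP_5e5ff1_ag.TH.I_KRO
import Pool.Agent.Work.MP_5e5ff1_ag.TH.I_KSP
import Pool.Agent.Work.MP_5e5ff1_ag.TH.I_KTW
import Pool.Agent.Work.MP_5e5ff1_ag.TH.I_LAG
import Pool.Agent.Work.MP_5e5ff1_ag.TH.I_LAGR
import Pool.Agent.Work.MP_5e5ff1_ag.TH.I_LIS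
import Pool.Agent.Work.MP_5e5ff1_ag.TH.I_LOC0
import Pool.Agent.Work.MP_5e5ff1_ag.TH.I_LOC1
import Pool.Agent.Work.MP_5e5ff1_ag.TH.I_LOC2
import Pool.Agent.Work.MP_5e5ff1_ag.TH.I_LOCA
import Pool.Agent.Work.MP_5e5ff1_ag.TH.I_LOCAR
import Pool.Agent.Work.MP_5e5ff1_ag.TH.I_LOCR
import Pool.Agent.Work.MP_5e5ff1_ag.TH.I_M00
import Pool.Agent.Work.MP_5e5ff1_ag.TH.I_M03
import Pool.Agent.Work.MP_5e5ff1_ag.TH.I_M20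
import Pool.Agent.Work.MP_5e5ff1_ag.TH.I_M23
import Pool.Agent.Work.MP_5e5ff1_ag.TH.I_M24
import Pool.Agent.Work.MP_5e5ff1_ag.TH.I_M26
import Pool.Agent.Work.MP_5e5ff1_ag.TH.I_M33
import Pool.Agent.Work.MP_5e5ff1_ag.TH.I_M44
import Pool.Agent.Work.MP_5e5ff1_ag.TH.I_M66
import Pool.Agent.Work.MP_5e5ff1_ag.TH.I_MDG
import Pool.Agent.Work.MP_5e5ff1_ag.TH.I_MDGR
import Pool.Agent.Work.MP_5e5ff1_ag.TH.I_MOD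
import Pool.Agent.Work.MP_5e5ff1_ag.TH.I_MODN
import Pool.Agent.Work.MP_5e5ff1_ag.TH.I_MPN
import Pool.Agent.Work.MP_5e5ff1_ag.TH.I_MPT
import Pool.Agent.Work.MP_5e5ff1_ag.TH.I_MZ
import Pool.Agent.Work.MP_5e5ff1_ag.TH.I_MZR
import Pool.Agent.Work.MP_5e5ff1_ag.TH.I_MZT
import Pool.Agent.Work.MP_5e5ff1_ag.TH.I_NUM5
import Pool.Agent.Work.MP_5e5ff1_ag.TH.I_ODX
import Pool.Agent.Work.MP_5e5ff1_ag.TH.I_PC012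
import Pool.Agent.Work.MP_5e5ff1_ag.TH.I_PC0G
import Pool.Agent.Work.MP_5e5ff1_ag.TH.I_PCG
import Pool.Agent.Work.MP_5e5ff1_ag.TH.I_QAT
import Pool.Agent.Work.MP_5e5ff1_ag.TH.I_QIM
import Pool.Agent.Work.MP_5e5ff1_ag.TH.I_REP
import Pool.Agent.Work.MP_5e5ff1_ag.TH.I_REV
import Pool.Agent.Work.MP_5e5ff1_ag.TH.I_RK
import Pool.Agent.Work.MP_5e5ff1_ag.TH.I_RKG
import Pool.Agent.Work.MP_5e5ff1_ag.TH.I_RKL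
import Pool.Agent.Work.MP_5e5ff1_ag.TH.I_RKU
import Pool.Agent.Work.MP_5e5ff1_ag.TH.I_ROOT
import Pool.Agent.Work.MP_5e5ff1_ag.TH.I_RSC
import Pool.Agent.Work.MP_5e5ff1_ag.TH.I_RSD
import Pool.Agent.Work.MP_5e5ff1_ag.TH.I_RSG
import Pool.Agent.Work.MP_5e5ff1_ag.TH.I_RSL
import Pool.Agent.Work.MP_5e5ff1_ag.TH.I_RSP
import Pool.Agent.Work.MP_5e5ff1_ag.TH.I_RSPG
import Pool.Agent.Work.MP_5e5ff1_ag.TH.I_RSQ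
import Pool.Agent.Work.MP_5e5ff1_ag.TH.I_RSQG
import Pool.Agent.Work.MP_5e5ff1_ag.TH.I_RSU
import Pool.Agent.Work.MP_5e5ff1_ag.TH.I_RTP
import Pool.Agent.Work.MP_5e5ff1_ag.TH.I_SEM
import Pool.Agent.Work.MP_5e5ff1_ag.TH.I_SMA
import Pool.Agent.Work.MP_5e5ff1_ag.TH.I_SYM
import Pool.Agent.Work.MP_5e5ff1_ag.TH.I_TAB1
import Pool.Agent.Work.MP_5e5ff1_ag.TH.I_TAB2
import Pool.Agent.Work.MP_5e5ff1_ag.TH.I_TABG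
import Pool.Agent.Work.MP_5e5ff1_ag.TH.I_UAN
import Pool.Agent.Work.MP_5e5ff1_ag.TH.I_UCV
import Pool.Agent.Work.MP_5e5ff1_ag.TH.I_UEX
import Pool.Agent.Work.MP_5e5ff1_ag.TH.I_UEXR
import Pool.Agent.Work.MP_5e5ff1_ag.TH.I_UPS
import Pool.Agent.Work.MP_5e5ff1_ag.TH.I_UREC
import Pool.Agent.Work.MP_5e5ff1_ag.TH.I_WIL
import Pool.Agent.Work.MP_5e5ff1_ag.TH.I_WNZ

/-! Assembly of the items of block TH (hyperbolic triangle groups, base point at a cusp). -/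

set_option autoImplicit false

namespace Pool.Agent.Work.MP_5e5ff1_ag.TH

theorem fin_TH_ADJ : Pool.Agent.Work.MP_5e5ff1_ag.TH.StADJ :=
  Pool.Agent.Work.MP_5e5ff1_ag.TH.pr_ADJ
theorem fin_TG_LFT : Pool.Agent.Work.MP_5e5ff1_ag.TG.StLFT :=
  Pool.Agent.Work.MP_5e5ff1_ag.TG.pr_LFT
theorem fin_TH_UPS : Pool.Agent.Work.MP_5e5ff1_ag.TH.StUPS :=
  Pool.Agent.Work.MP_5e5ff1_ag.TH.pr_UPS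
theorem fin_TH_ALG : Pool.Agent.Work.MP_5e5ff1_ag.TH.StALG :=
  Pool.Agent.Work.MP_5e5ff1_ag.TH.pr_ALG fin_TG_LFT fin_TH_UPS
theorem fin_TH_UREC : Pool.Agent.Work.MP_5e5ff1_ag.TH.StUREC :=
  Pool.Agent.Work.MP_5e5ff1_ag.TH.pr_UREC
theorem fin_TH_CN1 : Pool.Agent.Work.MP_5e5ff1_ag.TH.StCN1 :=
  Pool.Agent.Work.MP_5e5ff1_ag.TH.pr_CN1
theorem fin_TH_BAD : Pool.Agent.Work.MP_5e5ff1_ag.TH.StBAD :=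
  Pool.Agent.Work.MP_5e5ff1_ag.TH.pr_BAD fin_TH_UREC fin_TH_CN1
theorem fin_TH_REP : Pool.Agent.Work.MP_5e5ff1_ag.TH.StREP :=
  Pool.Agent.Work.MP_5e5ff1_ag.TH.pr_REP
theorem fin_TH_LAGR : Pool.Agent.Work.MP_5e5ff1_ag.TH.StLAGR :=
  Pool.Agent.Work.MP_5e5ff1_ag.TH.pr_LAGR
theorem fin_TH_CAS : Pool.Agent.Work.MP_5e5ff1_ag.TH.StCAS :=
  Pool.Agent.Work.MP_5e5ff1_ag.TH.pr_CAS
theorem fin_TH_BADN : Pool.Agent.Work.MP_5e5ff1_ag.TH.StBADN :=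
  Pool.Agent.Work.MP_5e5ff1_ag.TH.pr_BADN fin_TH_REP fin_TH_LAGR fin_TH_CAS fin_TH_CN1
theorem fin_TH_WIL : Pool.Agent.Work.MP_5e5ff1_ag.TH.StWIL :=
  Pool.Agent.Work.MP_5e5ff1_ag.TH.pr_WIL
theorem fin_TH_ITR0 : Pool.Agent.Work.MP_5e5ff1_ag.TH.StITR0 :=
  Pool.Agent.Work.MP_5e5ff1_ag.TH.pr_ITR0
theorem fin_TH_ITR1 : Pool.Agent.Work.MP_5e5ff1_ag.TH.StITR1 :=
  Pool.Agent.Work.MP_5e5ff1_ag.TH.pr_ITR1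
theorem fin_TH_ITR2 : Pool.Agent.Work.MP_5e5ff1_ag.TH.StITR2 :=
  Pool.Agent.Work.MP_5e5ff1_ag.TH.pr_ITR2
theorem fin_TH_REV : Pool.Agent.Work.MP_5e5ff1_ag.TH.StREV :=
  Pool.Agent.Work.MP_5e5ff1_ag.TH.pr_REV
theorem fin_TH_PCG : Pool.Agent.Work.MP_5e5ff1_ag.TH.StPCG :=
  Pool.Agent.Work.MP_5e5ff1_ag.TH.pr_PCG
theorem fin_TH_PC012 : Pool.Agent.Work.MP_5e5ff1_ag.TH.StPC012 :=
  Pool.Agent.Work.MP_5e5ff1_ag.TH.pr_PC012 fin_TH_ITR0 fin_TH_ITR1 fin_TH_ITR2 fin_TH_REV fin_TH_WIL fin_TH_PCG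
theorem fin_TH_BLM : Pool.Agent.Work.MP_5e5ff1_ag.TH.StBLM :=
  Pool.Agent.Work.MP_5e5ff1_ag.TH.pr_BLM fin_TH_WIL fin_TH_PC012 fin_TH_CAS
theorem fin_TH_BLMG : Pool.Agent.Work.MP_5e5ff1_ag.TH.StBLMG :=
  Pool.Agent.Work.MP_5e5ff1_ag.TH.pr_BLMG fin_TH_WIL fin_TH_CAS
theorem fin_TG_CHB : Pool.Agent.Work.MP_5e5ff1_ag.TG.StCHB :=
  Pool.Agent.Work.MP_5e5ff1_ag.TG.pr_CHB
theorem fin_TG_KAP : Pool.Agent.Work.MP_5e5ff1_ag.TG.StKAP :=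
  Pool.Agent.Work.MP_5e5ff1_ag.TG.pr_KAP fin_TG_CHB
theorem fin_TH_C12 : Pool.Agent.Work.MP_5e5ff1_ag.TH.StC12 :=
  Pool.Agent.Work.MP_5e5ff1_ag.TH.pr_C12 fin_TG_KAP
theorem fin_TH_C72 : Pool.Agent.Work.MP_5e5ff1_ag.TH.StC72 :=
  Pool.Agent.Work.MP_5e5ff1_ag.TH.pr_C72 fin_TG_KAP
theorem fin_TH_CHB : Pool.Agent.Work.MP_5e5ff1_ag.TH.StCHB :=
  Pool.Agent.Work.MP_5e5ff1_ag.TH.pr_CHB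
theorem fin_TH_CHP : Pool.Agent.Work.MP_5e5ff1_ag.TH.StCHP :=
  Pool.Agent.Work.MP_5e5ff1_ag.TH.pr_CHP
theorem fin_TH_CJQ : Pool.Agent.Work.MP_5e5ff1_ag.TH.StCJQ :=
  Pool.Agent.Work.MP_5e5ff1_ag.TH.pr_CJQ
theorem fin_TH_CJP : Pool.Agent.Work.MP_5e5ff1_ag.TH.StCJP :=
  Pool.Agent.Work.MP_5e5ff1_ag.TH.pr_CJP fin_TH_CJQ
theorem fin_TH_CKC : Pool.Agent.Work.MP_5e5ff1_ag.TH.StCKC :=
  Pool.Agent.Work.MP_5e5ff1_ag.TH.pr_CKC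
theorem fin_TH_CLF : Pool.Agent.Work.MP_5e5ff1_ag.TH.StCLF :=
  Pool.Agent.Work.MP_5e5ff1_ag.TH.pr_CLF
theorem fin_TH_WNZ : Pool.Agent.Work.MP_5e5ff1_ag.TH.StWNZ :=
  Pool.Agent.Work.MP_5e5ff1_ag.TH.pr_WNZ
theorem fin_TH_CMP : Pool.Agent.Work.MP_5e5ff1_ag.TH.StCMP :=
  Pool.Agent.Work.MP_5e5ff1_ag.TH.pr_CMP fin_TH_WNZ
theorem fin_TH_CN2 : Pool.Agent.Work.MP_5e5ff1_ag.TH.StCN2 :=
  Pool.Agent.Work.MP_5e5ff1_ag.TH.pr_CN2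
theorem fin_TG_MAJ : Pool.Agent.Work.MP_5e5ff1_ag.TG.StMAJ :=
  Pool.Agent.Work.MP_5e5ff1_ag.TG.pr_MAJ
theorem fin_TH_UCV : Pool.Agent.Work.MP_5e5ff1_ag.TH.StUCV :=
  Pool.Agent.Work.MP_5e5ff1_ag.TH.pr_UCV fin_TG_MAJ
theorem fin_TH_UAN : Pool.Agent.Work.MP_5e5ff1_ag.TH.StUAN :=
  Pool.Agent.Work.MP_5e5ff1_ag.TH.pr_UAN
theorem fin_TH_ROOT : Pool.Agent.Work.MP_5e5ff1_ag.TH.StROOT :=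
  Pool.Agent.Work.MP_5e5ff1_ag.TH.pr_ROOT
theorem fin_TH_DRL : Pool.Agent.Work.MP_5e5ff1_ag.TH.StDRL :=
  Pool.Agent.Work.MP_5e5ff1_ag.TH.pr_DRL
theorem fin_TH_LOC0 : Pool.Agent.Work.MP_5e5ff1_ag.TH.StLOC0 :=
  Pool.Agent.Work.MP_5e5ff1_ag.TH.pr_LOC0 fin_TH_UAN fin_TH_ROOT fin_TH_DRL fin_TH_WNZ
theorem fin_TH_INF : Pool.Agent.Work.MP_5e5ff1_ag.TH.StINF :=
  Pool.Agent.Work.MP_5e5ff1_ag.TH.pr_INF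
theorem fin_TH_FRB : Pool.Agent.Work.MP_5e5ff1_ag.TH.StFRB :=
  Pool.Agent.Work.MP_5e5ff1_ag.TH.pr_FRB fin_TH_INF fin_TH_PC012
theorem fin_TH_SEM : Pool.Agent.Work.MP_5e5ff1_ag.TH.StSEM :=
  Pool.Agent.Work.MP_5e5ff1_ag.TH.pr_SEM
theorem fin_TH_DIAL : Pool.Agent.Work.MP_5e5ff1_ag.TH.StDIAL :=
  Pool.Agent.Work.MP_5e5ff1_ag.TH.pr_DIAL
theorem fin_TH_DIA : Pool.Agent.Work.MP_5e5ff1_ag.TH.StDIA :=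
  Pool.Agent.Work.MP_5e5ff1_ag.TH.pr_DIA fin_TH_SEM fin_TH_DIAL
theorem fin_TH_EXT : Pool.Agent.Work.MP_5e5ff1_ag.TH.StEXT :=
  Pool.Agent.Work.MP_5e5ff1_ag.TH.pr_EXT fin_TH_SEM
theorem fin_TH_GEX : Pool.Agent.Work.MP_5e5ff1_ag.TH.StGEX :=
  Pool.Agent.Work.MP_5e5ff1_ag.TH.pr_GEX fin_TH_DIA fin_TH_EXT
theorem fin_TH_GCV : Pool.Agent.Work.MP_5e5ff1_ag.TH.StGCV :=
  Pool.Agent.Work.MP_5e5ff1_ag.TH.pr_GCV fin_TG_MAJ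
theorem fin_TH_GAN : Pool.Agent.Work.MP_5e5ff1_ag.TH.StGAN :=
  Pool.Agent.Work.MP_5e5ff1_ag.TH.pr_GAN
theorem fin_TH_LOC1 : Pool.Agent.Work.MP_5e5ff1_ag.TH.StLOC1 :=
  Pool.Agent.Work.MP_5e5ff1_ag.TH.pr_LOC1 fin_TH_GAN fin_TH_CLF fin_TH_ROOT fin_TH_DRL fin_TH_WNZ
theorem fin_TH_LOC2 : Pool.Agent.Work.MP_5e5ff1_ag.TH.StLOC2 :=
  Pool.Agent.Work.MP_5e5ff1_ag.TH.pr_LOC2 fin_TH_GAN fin_TH_CLF fin_TH_ROOT fin_TH_DRL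
theorem fin_TH_LOCR : Pool.Agent.Work.MP_5e5ff1_ag.TH.StLOCR :=
  Pool.Agent.Work.MP_5e5ff1_ag.TH.pr_LOCR
theorem fin_TH_LOCA : Pool.Agent.Work.MP_5e5ff1_ag.TH.StLOCA :=
  Pool.Agent.Work.MP_5e5ff1_ag.TH.pr_LOCA fin_TH_FRB fin_TH_GEX fin_TH_GCV fin_TH_LOC1 fin_TH_LOC2 fin_TH_LOCR
theorem fin_TH_ODX : Pool.Agent.Work.MP_5e5ff1_ag.TH.StODX :=
  Pool.Agent.Work.MP_5e5ff1_ag.TH.pr_ODX fin_TH_WNZ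
theorem fin_TG_GLU : Pool.Agent.Work.MP_5e5ff1_ag.TG.StGLU :=
  Pool.Agent.Work.MP_5e5ff1_ag.TG.pr_GLU
theorem fin_TH_CON : Pool.Agent.Work.MP_5e5ff1_ag.TH.StCON :=
  Pool.Agent.Work.MP_5e5ff1_ag.TH.pr_CON fin_TH_UCV fin_TH_LOC0 fin_TH_LOCA fin_TH_ODX fin_TH_CMP fin_TG_GLU fin_TH_WNZ
theorem fin_TH_FRBR : Pool.Agent.Work.MP_5e5ff1_ag.TH.StFRBR :=
  Pool.Agent.Work.MP_5e5ff1_ag.TH.pr_FRBR fin_TH_PC012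
theorem fin_TH_LOCAR : Pool.Agent.Work.MP_5e5ff1_ag.TH.StLOCAR :=
  Pool.Agent.Work.MP_5e5ff1_ag.TH.pr_LOCAR fin_TH_FRBR fin_TH_GEX fin_TH_GCV fin_TH_LOC1 fin_TH_LOC2 fin_TH_LOCR
theorem fin_TH_CONR : Pool.Agent.Work.MP_5e5ff1_ag.TH.StCONR :=
  Pool.Agent.Work.MP_5e5ff1_ag.TH.pr_CONR fin_TH_UCV fin_TH_LOC0 fin_TH_LOCAR fin_TH_ODX fin_TH_CMP fin_TG_GLU fin_TH_WNZ
theorem fin_TH_COSR : Pool.Agent.Work.MP_5e5ff1_ag.TH.StCOSR :=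
  Pool.Agent.Work.MP_5e5ff1_ag.TH.pr_COSR
theorem fin_TG_PWR : Pool.Agent.Work.MP_5e5ff1_ag.TG.StPwr :=
  Pool.Agent.Work.MP_5e5ff1_ag.TG.pr_PWR
theorem fin_TG_ITA : Pool.Agent.Work.MP_5e5ff1_ag.TG.StIta :=
  Pool.Agent.Work.MP_5e5ff1_ag.TG.pr_ITA
theorem fin_TG_SGL : Pool.Agent.Work.MP_5e5ff1_ag.TG.StSgl :=
  Pool.Agent.Work.MP_5e5ff1_ag.TG.pr_SGL
theorem fin_TG_NZA : Pool.Agent.Work.MP_5e5ff1_ag.TG.StNza :=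
  Pool.Agent.Work.MP_5e5ff1_ag.TG.pr_NZA
theorem fin_TG_ARI : Pool.Agent.Work.MP_5e5ff1_ag.TG.StAri :=
  Pool.Agent.Work.MP_5e5ff1_ag.TG.pr_ARI fin_TG_PWR fin_TG_ITA fin_TG_SGL fin_TG_NZA
theorem fin_TG_CFA : Pool.Agent.Work.MP_5e5ff1_ag.TG.StCfa :=
  Pool.Agent.Work.MP_5e5ff1_ag.TG.pr_CFA fin_TG_PWR
theorem fin_TG_CNV : Pool.Agent.Work.MP_5e5ff1_ag.TG.StCnv :=
  Pool.Agent.Work.MP_5e5ff1_ag.TG.pr_CNV fin_TG_PWR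
theorem fin_TG_CVA : Pool.Agent.Work.MP_5e5ff1_ag.TG.StCva :=
  Pool.Agent.Work.MP_5e5ff1_ag.TG.pr_CVA fin_TG_CNV
theorem fin_TG_FAC : Pool.Agent.Work.MP_5e5ff1_ag.TG.StFac :=
  Pool.Agent.Work.MP_5e5ff1_ag.TG.pr_FAC
theorem fin_TG_ORD : Pool.Agent.Work.MP_5e5ff1_ag.TG.StOrd :=
  Pool.Agent.Work.MP_5e5ff1_ag.TG.pr_ORD
theorem fin_TG_MAX : Pool.Agent.Work.MP_5e5ff1_ag.TG.StMax :=
  Pool.Agent.Work.MP_5e5ff1_ag.TG.pr_MAX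
theorem fin_TH_KEY2 : Pool.Agent.Work.MP_5e5ff1_ag.TH.StKEY2 :=
  Pool.Agent.Work.MP_5e5ff1_ag.TH.pr_KEY2 fin_TG_CFA fin_TG_CVA fin_TG_FAC fin_TG_ORD fin_TG_MAX
theorem fin_TG_END : Pool.Agent.Work.MP_5e5ff1_ag.TG.StEnd :=
  Pool.Agent.Work.MP_5e5ff1_ag.TG.pr_END
theorem fin_TH_END2 : Pool.Agent.Work.MP_5e5ff1_ag.TH.StEND2 :=
  Pool.Agent.Work.MP_5e5ff1_ag.TH.pr_END2 fin_TG_END
theorem fin_TH_CRT2 : Pool.Agent.Work.MP_5e5ff1_ag.TH.StCrit2 :=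
  Pool.Agent.Work.MP_5e5ff1_ag.TH.pr_CRT2 fin_TG_ARI fin_TH_KEY2 fin_TH_END2
theorem fin_TH_MOD : Pool.Agent.Work.MP_5e5ff1_ag.TH.StMOD :=
  Pool.Agent.Work.MP_5e5ff1_ag.TH.pr_MOD fin_TH_UREC fin_TH_CN1
theorem fin_TH_LAG : Pool.Agent.Work.MP_5e5ff1_ag.TH.StLAG :=
  Pool.Agent.Work.MP_5e5ff1_ag.TH.pr_LAG
theorem fin_TH_GOD : Pool.Agent.Work.MP_5e5ff1_ag.TH.StGOD :=
  Pool.Agent.Work.MP_5e5ff1_ag.TH.pr_GOD fin_TH_BLM fin_TH_LAG fin_TH_CAS fin_TH_CN2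
theorem fin_TG_POW : Pool.Agent.Work.MP_5e5ff1_ag.TG.StPOW :=
  Pool.Agent.Work.MP_5e5ff1_ag.TG.pr_POW
theorem fin_TH_LIS : Pool.Agent.Work.MP_5e5ff1_ag.TH.StLIS :=
  Pool.Agent.Work.MP_5e5ff1_ag.TH.pr_LIS
theorem fin_TG_ITG : Pool.Agent.Work.MP_5e5ff1_ag.TG.StITG :=
  Pool.Agent.Work.MP_5e5ff1_ag.TG.pr_ITG
theorem fin_TH_DEN : Pool.Agent.Work.MP_5e5ff1_ag.TH.StDEN :=
  Pool.Agent.Work.MP_5e5ff1_ag.TH.pr_DEN fin_TH_MOD fin_TH_BAD fin_TH_GOD fin_TG_POW fin_TH_LIS fin_TG_ITG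
theorem fin_TH_KDC : Pool.Agent.Work.MP_5e5ff1_ag.TH.StKDC :=
  Pool.Agent.Work.MP_5e5ff1_ag.TH.pr_KDC
theorem fin_TH_KME : Pool.Agent.Work.MP_5e5ff1_ag.TH.StKME :=
  Pool.Agent.Work.MP_5e5ff1_ag.TH.pr_KME
theorem fin_TH_KTW : Pool.Agent.Work.MP_5e5ff1_ag.TH.StKTW :=
  Pool.Agent.Work.MP_5e5ff1_ag.TH.pr_KTW fin_TH_KDC fin_TH_KME
theorem fin_TH_KDK : Pool.Agent.Work.MP_5e5ff1_ag.TH.StKDK :=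
  Pool.Agent.Work.MP_5e5ff1_ag.TH.pr_KDK
theorem fin_TH_KRO : Pool.Agent.Work.MP_5e5ff1_ag.TH.StKRO :=
  Pool.Agent.Work.MP_5e5ff1_ag.TH.pr_KRO fin_TH_KTW fin_TH_KDK
theorem fin_TH_KEI : Pool.Agent.Work.MP_5e5ff1_ag.TH.StKEI :=
  Pool.Agent.Work.MP_5e5ff1_ag.TH.pr_KEI fin_TH_KRO
theorem fin_TH_DIAK : Pool.Agent.Work.MP_5e5ff1_ag.TH.StDIAK :=
  Pool.Agent.Work.MP_5e5ff1_ag.TH.pr_DIAK fin_TH_KEI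
theorem fin_TH_ITRG : Pool.Agent.Work.MP_5e5ff1_ag.TH.StITRG :=
  Pool.Agent.Work.MP_5e5ff1_ag.TH.pr_ITRG
theorem fin_TH_PC0G : Pool.Agent.Work.MP_5e5ff1_ag.TH.StPC0G :=
  Pool.Agent.Work.MP_5e5ff1_ag.TH.pr_PC0G fin_TH_ITRG fin_TH_WIL fin_TH_PCG
theorem fin_TH_GODN : Pool.Agent.Work.MP_5e5ff1_ag.TH.StGODN :=
  Pool.Agent.Work.MP_5e5ff1_ag.TH.pr_GODN fin_TH_REP fin_TH_LAGR fin_TH_CAS fin_TH_PC0G fin_TH_BLMG fin_TH_CN2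
theorem fin_TH_DNS : Pool.Agent.Work.MP_5e5ff1_ag.TH.StDNS :=
  Pool.Agent.Work.MP_5e5ff1_ag.TH.pr_DNS fin_TH_BADN fin_TH_GODN fin_TG_POW fin_TH_LIS fin_TG_ITG
theorem fin_TH_DNT : Pool.Agent.Work.MP_5e5ff1_ag.TH.StDNT :=
  Pool.Agent.Work.MP_5e5ff1_ag.TH.pr_DNT fin_TH_BAD fin_TH_GOD fin_TG_POW fin_TH_LIS fin_TG_ITG
theorem fin_TH_DYA : Pool.Agent.Work.MP_5e5ff1_ag.TH.StDYA :=
  Pool.Agent.Work.MP_5e5ff1_ag.TH.pr_DYA fin_TG_KAP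
theorem fin_TH_EXS : Pool.Agent.Work.MP_5e5ff1_ag.TH.StEXS :=
  Pool.Agent.Work.MP_5e5ff1_ag.TH.pr_EXS
theorem fin_TH_RK : Pool.Agent.Work.MP_5e5ff1_ag.TH.StRK :=
  Pool.Agent.Work.MP_5e5ff1_ag.TH.pr_RK
theorem fin_TH_UEXR : Pool.Agent.Work.MP_5e5ff1_ag.TH.StUEXR :=
  Pool.Agent.Work.MP_5e5ff1_ag.TH.pr_UEXR fin_TH_EXT fin_TH_RK
theorem fin_TH_QIM : Pool.Agent.Work.MP_5e5ff1_ag.TH.StQIM :=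
  Pool.Agent.Work.MP_5e5ff1_ag.TH.pr_QIM
theorem fin_TH_RSQ : Pool.Agent.Work.MP_5e5ff1_ag.TH.StRSQ :=
  Pool.Agent.Work.MP_5e5ff1_ag.TH.pr_RSQ
theorem fin_TG_PID : Pool.Agent.Work.MP_5e5ff1_ag.TG.StPID :=
  Pool.Agent.Work.MP_5e5ff1_ag.TG.pr_PID
theorem fin_TH_RSP : Pool.Agent.Work.MP_5e5ff1_ag.TH.StRSP :=
  Pool.Agent.Work.MP_5e5ff1_ag.TH.pr_RSP fin_TH_QIM fin_TH_RSQ fin_TG_PID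
theorem fin_TH_EXU : Pool.Agent.Work.MP_5e5ff1_ag.TH.StEXU :=
  Pool.Agent.Work.MP_5e5ff1_ag.TH.pr_EXU fin_TH_UEXR fin_TH_RSP fin_TH_PC012
theorem fin_TH_UEX : Pool.Agent.Work.MP_5e5ff1_ag.TH.StUEX :=
  Pool.Agent.Work.MP_5e5ff1_ag.TH.pr_UEX
theorem fin_TH_GBA : Pool.Agent.Work.MP_5e5ff1_ag.TH.StGBA :=
  Pool.Agent.Work.MP_5e5ff1_ag.TH.pr_GBA
theorem fin_TG_SQR : Pool.Agent.Work.MP_5e5ff1_ag.TG.StSqr :=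
  Pool.Agent.Work.MP_5e5ff1_ag.TG.pr_SQR
theorem fin_TH_GST : Pool.Agent.Work.MP_5e5ff1_ag.TH.StGST :=
  Pool.Agent.Work.MP_5e5ff1_ag.TH.pr_GST fin_TG_SQR
theorem fin_TH_GLI : Pool.Agent.Work.MP_5e5ff1_ag.TH.StGLI :=
  Pool.Agent.Work.MP_5e5ff1_ag.TH.pr_GLI fin_TH_GBA fin_TH_GST
theorem fin_TH_SYM : Pool.Agent.Work.MP_5e5ff1_ag.TH.StSYM :=
  Pool.Agent.Work.MP_5e5ff1_ag.TH.pr_SYM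
theorem fin_TH_M44 : Pool.Agent.Work.MP_5e5ff1_ag.TH.StM44 :=
  Pool.Agent.Work.MP_5e5ff1_ag.TH.pr_M44 fin_TG_SQR
theorem fin_TH_M24 : Pool.Agent.Work.MP_5e5ff1_ag.TH.StM24 :=
  Pool.Agent.Work.MP_5e5ff1_ag.TH.pr_M24
theorem fin_TH_M20 : Pool.Agent.Work.MP_5e5ff1_ag.TH.StM20 :=
  Pool.Agent.Work.MP_5e5ff1_ag.TH.pr_M20
theorem fin_TH_M23 : Pool.Agent.Work.MP_5e5ff1_ag.TH.StM23 :=
  Pool.Agent.Work.MP_5e5ff1_ag.TH.pr_M23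
theorem fin_TH_M00 : Pool.Agent.Work.MP_5e5ff1_ag.TH.StM00 :=
  Pool.Agent.Work.MP_5e5ff1_ag.TH.pr_M00
theorem fin_TH_GB3 : Pool.Agent.Work.MP_5e5ff1_ag.TH.StGB3 :=
  Pool.Agent.Work.MP_5e5ff1_ag.TH.pr_GB3
theorem fin_TH_GS3 : Pool.Agent.Work.MP_5e5ff1_ag.TH.StGS3 :=
  Pool.Agent.Work.MP_5e5ff1_ag.TH.pr_GS3 fin_TH_ROOT
theorem fin_TH_GL3 : Pool.Agent.Work.MP_5e5ff1_ag.TH.StGL3 :=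
  Pool.Agent.Work.MP_5e5ff1_ag.TH.pr_GL3 fin_TH_GB3 fin_TH_GS3
theorem fin_TH_M33 : Pool.Agent.Work.MP_5e5ff1_ag.TH.StM33 :=
  Pool.Agent.Work.MP_5e5ff1_ag.TH.pr_M33
theorem fin_TH_RTP : Pool.Agent.Work.MP_5e5ff1_ag.TH.StRTP :=
  Pool.Agent.Work.MP_5e5ff1_ag.TH.pr_RTP fin_TH_ROOT fin_TG_GLU
theorem fin_TH_M66 : Pool.Agent.Work.MP_5e5ff1_ag.TH.StM66 :=
  Pool.Agent.Work.MP_5e5ff1_ag.TH.pr_M66 fin_TH_RTP fin_TG_SQR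
theorem fin_TH_M26 : Pool.Agent.Work.MP_5e5ff1_ag.TH.StM26 :=
  Pool.Agent.Work.MP_5e5ff1_ag.TH.pr_M26
theorem fin_TH_M03 : Pool.Agent.Work.MP_5e5ff1_ag.TH.StM03 :=
  Pool.Agent.Work.MP_5e5ff1_ag.TH.pr_M03
theorem fin_TH_MPN : Pool.Agent.Work.MP_5e5ff1_ag.TH.StMPN :=
  Pool.Agent.Work.MP_5e5ff1_ag.TH.pr_MPN fin_TH_GLI fin_TH_GL3 fin_TH_SYM fin_TH_M33 fin_TH_M66 fin_TH_M26 fin_TH_M03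
theorem fin_TH_MPT : Pool.Agent.Work.MP_5e5ff1_ag.TH.StMapT :=
  Pool.Agent.Work.MP_5e5ff1_ag.TH.pr_MPT fin_TH_GLI fin_TH_SYM fin_TH_M44 fin_TH_M24 fin_TH_M20 fin_TH_M23 fin_TH_M00 fin_TH_MPN
theorem fin_TH_SMA : Pool.Agent.Work.MP_5e5ff1_ag.TH.StSMA :=
  Pool.Agent.Work.MP_5e5ff1_ag.TH.pr_SMA
theorem fin_TH_GRS : Pool.Agent.Work.MP_5e5ff1_ag.TH.StGRS :=
  Pool.Agent.Work.MP_5e5ff1_ag.TH.pr_GRS fin_TH_SMA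
theorem fin_TH_GRG : Pool.Agent.Work.MP_5e5ff1_ag.TH.StGRG :=
  Pool.Agent.Work.MP_5e5ff1_ag.TH.pr_GRG
theorem fin_TH_GRM : Pool.Agent.Work.MP_5e5ff1_ag.TH.StGRM :=
  Pool.Agent.Work.MP_5e5ff1_ag.TH.pr_GRM
theorem fin_TH_GRO : Pool.Agent.Work.MP_5e5ff1_ag.TH.StGRO :=
  Pool.Agent.Work.MP_5e5ff1_ag.TH.pr_GRO fin_TH_GRS fin_TH_GRG fin_TH_GRM
theorem fin_TH_MZ : Pool.Agent.Work.MP_5e5ff1_ag.TH.StMZ :=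
  Pool.Agent.Work.MP_5e5ff1_ag.TH.pr_MZ fin_TH_CRT2 fin_TH_MPT fin_TH_DEN fin_TH_GRO fin_TH_UCV fin_TH_CON fin_TG_PWR fin_TG_CNV
theorem fin_TH_RSC : Pool.Agent.Work.MP_5e5ff1_ag.TH.StRSC :=
  Pool.Agent.Work.MP_5e5ff1_ag.TH.pr_RSC
theorem fin_TH_RSD : Pool.Agent.Work.MP_5e5ff1_ag.TH.StRSD :=
  Pool.Agent.Work.MP_5e5ff1_ag.TH.pr_RSD
theorem fin_TG_QC : Pool.Agent.Work.MP_5e5ff1_ag.TG.StQC :=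
  Pool.Agent.Work.MP_5e5ff1_ag.TG.pr_QC
theorem fin_TH_RSU : Pool.Agent.Work.MP_5e5ff1_ag.TH.StRSU :=
  Pool.Agent.Work.MP_5e5ff1_ag.TH.pr_RSU
theorem fin_TH_RSL : Pool.Agent.Work.MP_5e5ff1_ag.TH.StRSL :=
  Pool.Agent.Work.MP_5e5ff1_ag.TH.pr_RSL fin_TG_QC fin_TH_RSU
theorem fin_TH_FIN : Pool.Agent.Work.MP_5e5ff1_ag.TH.StFIN :=
  Pool.Agent.Work.MP_5e5ff1_ag.TH.pr_FIN fin_TH_UEX fin_TH_MZ fin_TH_RSC fin_TH_RSD fin_TH_RSP fin_TH_RSL fin_TH_ALG fin_TH_COSR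
theorem fin_TH_NUM5 : Pool.Agent.Work.MP_5e5ff1_ag.TH.StNUM5 :=
  Pool.Agent.Work.MP_5e5ff1_ag.TH.pr_NUM5
theorem fin_TH_FAM : Pool.Agent.Work.MP_5e5ff1_ag.TH.StFAM :=
  Pool.Agent.Work.MP_5e5ff1_ag.TH.pr_FAM fin_TH_FIN fin_TH_DYA fin_TH_C12 fin_TH_NUM5
theorem fin_TH_KPC : Pool.Agent.Work.MP_5e5ff1_ag.TH.StKPC :=
  Pool.Agent.Work.MP_5e5ff1_ag.TH.pr_KPC fin_TH_PC012
theorem fin_TH_KSP : Pool.Agent.Work.MP_5e5ff1_ag.TH.StKSP :=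
  Pool.Agent.Work.MP_5e5ff1_ag.TH.pr_KSP
theorem fin_TH_FIN2 : Pool.Agent.Work.MP_5e5ff1_ag.TH.StFIN2 :=
  Pool.Agent.Work.MP_5e5ff1_ag.TH.pr_FIN2 fin_TH_FIN fin_TH_KEI fin_TH_KPC fin_TH_KSP fin_TH_RSP fin_TH_RSD
theorem fin_TH_FAM2 : Pool.Agent.Work.MP_5e5ff1_ag.TH.StFAM2 :=
  Pool.Agent.Work.MP_5e5ff1_ag.TH.pr_FAM2 fin_TH_FIN2 fin_TH_DYA fin_TH_C72 fin_TH_NUM5
theorem fin_TH_GRTS : Pool.Agent.Work.MP_5e5ff1_ag.TH.StGRTS :=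
  Pool.Agent.Work.MP_5e5ff1_ag.TH.pr_GRTS fin_TH_GRS fin_TH_GRG
theorem fin_TH_MZR : Pool.Agent.Work.MP_5e5ff1_ag.TH.StMZR :=
  Pool.Agent.Work.MP_5e5ff1_ag.TH.pr_MZR fin_TH_CRT2 fin_TH_MPT fin_TH_DNS fin_TH_GRTS fin_TH_UCV fin_TH_CONR fin_TG_PWR fin_TG_CNV
theorem fin_TH_INFT : Pool.Agent.Work.MP_5e5ff1_ag.TH.StINFT :=
  Pool.Agent.Work.MP_5e5ff1_ag.TH.pr_INFT
theorem fin_TH_RKU : Pool.Agent.Work.MP_5e5ff1_ag.TH.StRKU :=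
  Pool.Agent.Work.MP_5e5ff1_ag.TH.pr_RKU fin_TH_RK
theorem fin_TH_RKG : Pool.Agent.Work.MP_5e5ff1_ag.TH.StRKG :=
  Pool.Agent.Work.MP_5e5ff1_ag.TH.pr_RKG
theorem fin_TH_RKL : Pool.Agent.Work.MP_5e5ff1_ag.TH.StRKL :=
  Pool.Agent.Work.MP_5e5ff1_ag.TH.pr_RKL fin_TG_QC
theorem fin_TH_MODN : Pool.Agent.Work.MP_5e5ff1_ag.TH.StMODN :=
  Pool.Agent.Work.MP_5e5ff1_ag.TH.pr_MODN fin_TH_CN1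
theorem fin_TH_MDGR : Pool.Agent.Work.MP_5e5ff1_ag.TH.StMDGR :=
  Pool.Agent.Work.MP_5e5ff1_ag.TH.pr_MDGR fin_TH_MODN fin_TH_GRM
theorem fin_TH_FINR : Pool.Agent.Work.MP_5e5ff1_ag.TH.StFINR :=
  Pool.Agent.Work.MP_5e5ff1_ag.TH.pr_FINR fin_TH_MZR fin_TH_INFT fin_TH_RSC fin_TH_RSD fin_TH_RSP fin_TH_RKU fin_TH_RKG fin_TH_RKL fin_TH_ALG fin_TH_KEI fin_TH_KPC fin_TH_KSP fin_TH_MDGR
theorem fin_TH_GRM2 : Pool.Agent.Work.MP_5e5ff1_ag.TH.StGRM2 :=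
  Pool.Agent.Work.MP_5e5ff1_ag.TH.pr_GRM2
theorem fin_TH_GRN : Pool.Agent.Work.MP_5e5ff1_ag.TH.StGRN :=
  Pool.Agent.Work.MP_5e5ff1_ag.TH.pr_GRN fin_TH_BADN fin_TH_GODN fin_TH_RK fin_TH_RKG fin_TH_GRM fin_TH_GRM2
theorem fin_TH_IND : Pool.Agent.Work.MP_5e5ff1_ag.TH.StIND :=
  Pool.Agent.Work.MP_5e5ff1_ag.TH.pr_IND
theorem fin_TH_GRC : Pool.Agent.Work.MP_5e5ff1_ag.TH.StGRC :=
  Pool.Agent.Work.MP_5e5ff1_ag.TH.pr_GRC fin_TH_IND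
theorem fin_TH_FGD : Pool.Agent.Work.MP_5e5ff1_ag.TH.StFGD :=
  Pool.Agent.Work.MP_5e5ff1_ag.TH.pr_FGD fin_TH_FINR fin_TH_EXU fin_TH_INFT fin_TH_GRN fin_TH_GRC fin_TH_EXS
theorem fin_TH_HAC : Pool.Agent.Work.MP_5e5ff1_ag.TH.StHAC :=
  Pool.Agent.Work.MP_5e5ff1_ag.TH.pr_HAC
theorem fin_TH_RSQG : Pool.Agent.Work.MP_5e5ff1_ag.TH.StRSQG :=
  Pool.Agent.Work.MP_5e5ff1_ag.TH.pr_RSQG
theorem fin_TH_RSPG : Pool.Agent.Work.MP_5e5ff1_ag.TH.StRSPG :=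
  Pool.Agent.Work.MP_5e5ff1_ag.TH.pr_RSPG fin_TH_QIM fin_TH_RSQG fin_TG_PID
theorem fin_TH_FGG : Pool.Agent.Work.MP_5e5ff1_ag.TH.StFGG :=
  Pool.Agent.Work.MP_5e5ff1_ag.TH.pr_FGG fin_TH_FINR fin_TH_EXU fin_TH_INFT fin_TH_GRN fin_TH_GRC fin_TH_CJP fin_TH_CHP fin_TH_HAC fin_TH_RSPG
theorem fin_TH_QAT : Pool.Agent.Work.MP_5e5ff1_ag.TH.StQAT :=
  Pool.Agent.Work.MP_5e5ff1_ag.TH.pr_QAT fin_TH_PC0G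
theorem fin_TH_FING : Pool.Agent.Work.MP_5e5ff1_ag.TH.StFING :=
  Pool.Agent.Work.MP_5e5ff1_ag.TH.pr_FING fin_TH_FGD fin_TH_FGG fin_TH_DIAK fin_TH_ADJ fin_TH_EXS fin_TH_RSPG fin_TH_QAT
theorem fin_TH_GRT : Pool.Agent.Work.MP_5e5ff1_ag.TH.StGRT :=
  Pool.Agent.Work.MP_5e5ff1_ag.TH.pr_GRT fin_TH_GRS fin_TH_GRG
theorem fin_TH_MZT : Pool.Agent.Work.MP_5e5ff1_ag.TH.StMZT :=
  Pool.Agent.Work.MP_5e5ff1_ag.TH.pr_MZT fin_TH_CRT2 fin_TH_MPT fin_TH_DNT fin_TH_GRT fin_TH_CKC fin_TH_UCV fin_TH_CON fin_TG_PWR fin_TG_CNV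
theorem fin_TH_MDG : Pool.Agent.Work.MP_5e5ff1_ag.TH.StMDG :=
  Pool.Agent.Work.MP_5e5ff1_ag.TH.pr_MDG fin_TH_MOD fin_TH_GRM
theorem fin_TH_RSG : Pool.Agent.Work.MP_5e5ff1_ag.TH.StRSG :=
  Pool.Agent.Work.MP_5e5ff1_ag.TH.pr_RSG fin_TH_RSU
theorem fin_TH_FINT : Pool.Agent.Work.MP_5e5ff1_ag.TH.StFINT :=
  Pool.Agent.Work.MP_5e5ff1_ag.TH.pr_FINT fin_TH_UEX fin_TH_MZT fin_TH_RSC fin_TH_RSD fin_TH_RSP fin_TH_RSL fin_TH_ALG fin_TH_CKC fin_TH_KEI fin_TH_KPC fin_TH_KSP fin_TH_MDG fin_TH_RSG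
theorem fin_TH_KAP2 : Pool.Agent.Work.MP_5e5ff1_ag.TH.StKAP2 :=
  Pool.Agent.Work.MP_5e5ff1_ag.TH.pr_KAP2 fin_TG_CHB
theorem fin_TH_TAB1 : Pool.Agent.Work.MP_5e5ff1_ag.TH.StTAB1 :=
  Pool.Agent.Work.MP_5e5ff1_ag.TH.pr_TAB1 fin_TH_DYA
theorem fin_TH_TAB2 : Pool.Agent.Work.MP_5e5ff1_ag.TH.StTAB2 :=
  Pool.Agent.Work.MP_5e5ff1_ag.TH.pr_TAB2 fin_TG_KAP
theorem fin_TH_TABG : Pool.Agent.Work.MP_5e5ff1_ag.TH.StTABG :=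
  Pool.Agent.Work.MP_5e5ff1_ag.TH.pr_TABG fin_TH_KAP2

end Pool.Agent.Work.MP_5e5ff1_ag.TH
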