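import Mathlib
import Pool.Agent.Work.MP_5e5ff1_ag.TH.StmtsY
import Pool.Agent.Work.MP_5e5ff1_ag.TH.StmtsZ

set_option autoImplicit false

/-!
# MP_5e5ff1_ag, block TH, part W: elliptic base points

Part W generalizes parts D, X, Y to maps `φ` which vanish also outside of `0`, with multiplicities
divisible by `n0`: the exponents at the point `t = 0` differ by elements of `(1/n0) ℤ`, so that the
formal solution `U(φ)` continues to these points.  Example: `φ = 4 ψ (1 - ψ)` where `ψ` is the map of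
type `(4,4)` and radius 32: the zeros of `φ` outside of 0 are the zeros of `ψ - 1`, of order 4, the
zeros of `φ - 1` have order 2, and the poles order 8; the radius is 128.  Since
`4 log 2 + 4 * 0.412 < log 128` this gives the theorem for ALL integral systems of the compact
triangle group `(4,2,8)`, without any condition on the number of exponents.

The case `n0 = 0` (`h` has no zeros) is that of the parts D, X, Y.  Every docstring is the complete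
proof.  USES lists the statements which the item may take as hypotheses `(h : StX)`.
Captain helper45 (co-captain of helper18).  The items are adaptations of the proved items named in the
docstrings: copy the file and add the function `h`.
-/

open Matrix Filter Topology NumberField
open scoped Polynomial

namespace Pool.Agent.Work.MP_5e5ff1_ag.TH

/-- The map `φ = δ / A^(e1 n2)`, `δ z = z^m g z (h z)^(e1 n0)`, on the unit disc: ramified of order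
`n1` over 1 and `n2` over `∞`, and of order `n0` over 0 at the zeros of `h` (not at `z = 0`). -/
structure IsMapW (n0 n1 n2 : ℕ) (R : ℝ) (m : ℕ) (g A w h : ℂ → ℂ) : Prop where
  dg : DifferentiableOn ℂ g (Metric.ball 0 1)
  dA : DifferentiableOn ℂ A (Metric.ball 0 1)
  dw : DifferentiableOn ℂ w (Metric.ball 0 1)
  dh : DifferentiableOn ℂ h (Metric.ball 0 1)
  m0 : 0 < m
  g0 : ∀ z ∈ Metric.ball (0 : ℂ) 1, g z ≠ 0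
  rel : ∀ z ∈ Metric.ball (0 : ℂ) 1, z ^ m * (g z * h z ^ e1 n0) - A z ^ e1 n2 = w z ^ e1 n1
  nA : n2 = 0 → ∀ z ∈ Metric.ball (0 : ℂ) 1, A z ≠ 0
  nw : n1 = 0 → ∀ z ∈ Metric.ball (0 : ℂ) 1, w z ≠ 0
  nh : n0 = 0 → ∀ z ∈ Metric.ball (0 : ℂ) 1, h z ≠ 0
  cop : ∀ z ∈ Metric.ball (0 : ℂ) 1, A z = 0 → h z ≠ 0
  A00 : A 0 ≠ 0
  h00 : h 0 ≠ 0
  rad : R ≤ ‖g 0 * h 0 ^ e1 n0‖ / ‖A 0‖ ^ e1 n2

section ana

variable {ι : Type} [Fintype ι] [DecidableEq ι]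

/-- coefficient matrix of the pulled back system, after multiplication of the solutions with
`δ^(-lam/M) (w A h)^K`, `δ z = z^m g z (h z)^(e1 n0)`:
`(δ'/δ) (diag β - lam)/M + (w'/w) (e1 n1 C/M + K) + (A'/A) (K - e1 n2 (diag β + C)/M) + (h'/h) K` -/
noncomputable def AAW (M n0 n1 n2 : ℕ) (β : ι → ℤ) (C : Matrix ι ι ℤ) (K : ℕ) (lam : ℤ) (m : ℕ)
    (g A w h : ℂ → ℂ) (z : ℂ) : Matrix ι ι ℂ :=
  AA M n1 n2 β C K lam m g A w z +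
    (deriv h z / h z) • (((e1 n0 : ℂ) * (M : ℂ)⁻¹) •
      (Matrix.diagonal fun i => ((β i : ℂ) - (lam : ℂ))) + (K : ℂ) • (1 : Matrix ι ι ℂ))

/-- a local fundamental solution near a point `z0 ≠ 0`, holomorphic also at the zeros of `A w h` -/
structure LocSolW (M n0 n1 n2 : ℕ) (β : ι → ℤ) (C : Matrix ι ι ℤ) (K : ℕ) (lam : ℤ) (m : ℕ)
    (g A w h : ℂ → ℂ) (N : ℂ → Matrix ι ι ℂ) (z0 : ℂ) (ρ : ℝ) : Prop where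
  pos : 0 < ρ
  sub : Metric.ball z0 ρ ⊆ Metric.ball 0 1
  zer : (0 : ℂ) ∉ Metric.ball z0 ρ
  diff : ∀ i j, DifferentiableOn ℂ (fun z => N z i j) (Metric.ball z0 ρ)
  det : ∀ z ∈ Metric.ball z0 ρ, A z ≠ 0 → w z ≠ 0 → h z ≠ 0 → (N z).det ≠ 0
  ode : ∀ z ∈ Metric.ball z0 ρ, A z ≠ 0 → w z ≠ 0 → h z ≠ 0 → ∀ i j,
    HasDerivAt (fun y => N y i j) ((AAW M n0 n1 n2 β C K lam m g A w h z * N z) i j) z

end ana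

/-- the elliptic types: `n0 > 0` -/
def TypE (n0 n1 n2 : ℕ) (R : ℝ) : Prop :=
  (n0 = 4 ∧ n1 = 2 ∧ n2 = 8 ∧ R = 128) ∨ (n0 = 6 ∧ n1 = 2 ∧ n2 = 4 ∧ R = 432) ∨
  (n0 = 8 ∧ n1 = 3 ∧ n2 = 2 ∧ R = 6912) ∨ (n0 = 12 ∧ n1 = 3 ∧ n2 = 2 ∧ R = 2916) ∨
  (n0 = 6 ∧ n1 = 2 ∧ n2 = 12 ∧ R = 48 * Real.sqrt 3) ∨ (n0 = 3 ∧ n1 = 2 ∧ n2 = 0 ∧ R = 108) ∨
  (n0 = 7 ∧ n1 = 2 ∧ n2 = 3 ∧ R = 27648) ∨ (n0 = 9 ∧ n1 = 2 ∧ n2 = 3 ∧ R = 3072 * Real.sqrt 3) ∨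
  (n0 = 5 ∧ n1 = 2 ∧ n2 = 4 ∧ R = 1024) ∨ (n0 = 4 ∧ n1 = 3 ∧ n2 = 3 ∧ R = 96 * Real.sqrt 3) ∨
  (n0 = 6 ∧ n1 = 3 ∧ n2 = 3 ∧ R = 108)

/-- all types `(n0; n1, n2)` with the radius `R` -/
def TypW (n0 n1 n2 : ℕ) (R : ℝ) : Prop :=
  (n0 = 0 ∧ Typ n1 n2 R) ∨ TypE n0 n1 n2 R ∨ TypE n0 n2 n1 R

/-- existence of the maps -/
def StMapW : Prop := ∀ (n0 n1 n2 : ℕ) (R : ℝ), TypW n0 n1 n2 R → ∀ R' < R,
  ∃ (m : ℕ) (g A w h : ℂ → ℂ), IsMapW n0 n1 n2 R' m g A w h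

/-! ### the maps -/

/-- SYMW, EASY (copy of I_SYM).  The exchange of the points 1 and ∞.

`z^m (g h^e) - w^(e1 n1) = A^(e1 n2)` from `rel`.  At `z = 0`: `-(A 0)^(e1 n2) = (w 0)^(e1 n1)`, so
`w 0 ≠ 0` and `‖w 0‖^(e1 n1) = ‖A 0‖^(e1 n2)`.  `cop`: if `w z = 0` and `h z = 0` then
`A z ^ e1 n2 = 0` (`e1 n0 > 0`), so `A z = 0`, contradiction to `cop`. -/
def StSYMW : Prop := ∀ (n0 n1 n2 : ℕ) (R : ℝ) (m : ℕ) (g A w h : ℂ → ℂ),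
  IsMapW n0 n1 n2 R m g A w h → IsMapW n0 n2 n1 R m g w A h

/-- INCW, EASY.  `h = 1`, `n0 = 0` (all fields are immediate, `1 ^ e = 1`). -/
def StINCW : Prop := ∀ (n1 n2 : ℕ) (R : ℝ) (m : ℕ) (g A w : ℂ → ℂ),
  IsMap n1 n2 R m g A w → IsMapW 0 n1 n2 R m g A w (fun _ => 1)

/-- DBLW, EASY-MEDIUM.  Composition with `4 ψ (1 - ψ)`.

`x = z^m g`, `y = A^(e1 b)`, `x - y = w^(e1 a)`.  `h' = w`, `g' = -4 g`, `w' = i (y - 2 x)`, and `A' = A`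
if `b ≠ 0` (`A^(2b) = y²`), `A' = A²` if `b = 0` (`e1 0 = 1`, `y = A`, `A'^1 = y²`).  `rel`:
`x (-4 w^(e1 a)) - y² = -4 x (x - y) - y² = -(y - 2x)²` (ring, `e1 2 = 2`).  `w 0 ≠ 0` because
`w 0 ^ e1 a = - A 0 ^ e1 b`.  `cop`: if `A' z = 0` and `w z = 0` then `y = 0`, `x = y = 0`, so `z = 0`
(`g z ≠ 0`), and `A 0 ≠ 0`.  `rad`: `‖4 g 0 (A 0)^(e1 b)‖ / ‖(A 0)^(e1 b)‖² = 4 ‖g 0‖/‖A 0‖^(e1 b)`. -/
def StDBLW : Prop := ∀ (a b : ℕ) (R : ℝ) (m : ℕ) (g A w : ℂ → ℂ), IsMap a b R m g A w →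
  ∃ (g' A' w' h' : ℂ → ℂ), IsMapW a 2 (2 * b) (4 * R) m g' A' w' h'

/-- TRIW, EASY-MEDIUM.  Composition with `-27 ψ (ψ-1)² / (9ψ-1)²`.

`x = z^m g`, `y = A^(2b)`, `x - y = w^a` (`a, b > 0`).  `h' = w`, `g' = -27 g`, `A' = A^b (9x - y)`,
`w' = -(3x + y)`.  `rel` (`e1 (2a) = 2a`, `e1 3 = 3`, `e1 2 = 2`):
`-27 x (x-y)² - y (9x-y)² = -(3x+y)³` (ring).  `w 0 ≠ 0` because `w 0 ^ a = - A 0 ^ (2b)`.  `cop`: if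
`w z = 0` then `x = y`; if also `A' z = 0` then `A z = 0` (so `y = 0 = x`) or `9x = y` (so
`x = y = 0`); so `x = 0`, `z = 0` and `A 0 = 0`, contradiction.  At 0: `x = 0`,
`‖-27 g 0 ((w 0)^a)²‖ / ‖(A 0)^b (-y)‖² = 27 ‖g 0‖ / ‖A 0‖^(2b)`. -/
def StTRIW : Prop := ∀ (a b : ℕ) (R : ℝ) (m : ℕ) (g A w : ℂ → ℂ), 0 < a → 0 < b →
  IsMap a (2 * b) R m g A w →
  ∃ (g' A' w' h' : ℂ → ℂ), IsMapW (2 * a) 3 2 (27 * R) m g' A' w' h'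

/-- MPW, EASY.  The maps.  USES StMapT SYMW INCW DBLW TRIW.

`n0 = 0`: StMapT and INCW.  TypE: for `R' < R` take `IsMap` with the radius `R'/4` (`R'/27`):
`(4,4)` with `32`, `(6,2)` with `108`, `(6,6)` with `12 √3`, `(3,0)` with `27` and DBLW give
`(4;2,8)`, `(6;2,4)`, `(6;2,12)`, `(3;2,0)`; `(4,2)` with `256`, `(6,2)` with `108` and TRIW (`b = 1`)
give `(8;3,2)`, `(12;3,2)`.  The last alternative of TypW: SYMW. -/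
def StMPW : Prop := StMapW

/-! ### local solutions and continuation -/

/-- WNZW, EASY (copy of I_WNZ). -/
def StWNZW : Prop := ∀ (n0 n1 n2 : ℕ) (R : ℝ) (m : ℕ) (g A w h : ℂ → ℂ),
  IsMapW n0 n1 n2 R m g A w h →
  w 0 ≠ 0 ∧ ∀ Ω : Set ℂ, IsOpen Ω → Ω ⊆ Metric.ball 0 1 → Ω.Nonempty →
    ∃ z ∈ Ω, z ≠ 0 ∧ A z ≠ 0 ∧ w z ≠ 0 ∧ h z ≠ 0

/-- DRLW, EASY (copy of I_DRL).  The logarithmic derivatives.

`δ = z^m (g h^e0)`, `δ' = δ (m/z + g'/g + e0 h'/h)`; differentiate `rel`: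
`δ' - e2 A^(e2-1) A' = e1 w^(e1-1) w'`; so `w^e1 e1 w'/w = δ (m/z + g'/g + e0 h'/h) - e2 A^e2 A'/A`
and subtract `w^e1 e2 A'/A = (δ - A^e2) e2 A'/A`. -/
def StDRLW : Prop := ∀ (n0 n1 n2 : ℕ) (R : ℝ) (m : ℕ) (g A w h : ℂ → ℂ),
  IsMapW n0 n1 n2 R m g A w h →
  ∀ z ∈ Metric.ball (0 : ℂ) 1, z ≠ 0 → A z ≠ 0 → w z ≠ 0 → h z ≠ 0 →
  w z ^ e1 n1 * ((e1 n1 : ℂ) * (deriv w z / w z) - (e1 n2 : ℂ) * (deriv A z / A z)) =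
    z ^ m * (g z * h z ^ e1 n0) * ((m : ℂ) / z + deriv g z / g z +
      (e1 n0 : ℂ) * (deriv h z / h z) - (e1 n2 : ℂ) * (deriv A z / A z))

/-- LOC0W, MEDIUM (copy of I_LOC0).  The solution vector near 0.  USES UAN ROOT DRLW WNZW.

`e = e1 n2`, `φ z = z^m (g z h z ^ e1 n0) / A z ^ e`.  Choose `ρ` with `A`, `w`, `h` without zeros on
`ball 0 ρ` and `|φ| < ρ_u` there.  `χ`: ROOT with `N = M`, `f = A^(KM - eβ_j) w^(KM) h^(KM)`.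
`W z i = χ z u(φ z) i j`.  As in I_LOC0 with `φ'/φ = m/z + g'/g + e1 n0 h'/h - e A'/A`, and
`χ'/χ = (K - eβ_j/M) A'/A + K w'/w + K h'/h`.  Sum: `AAW` with `lam = β_j`. -/
def StLOC0W : Prop := ∀ (ι : Type) [Fintype ι] [DecidableEq ι] (M n0 n1 n2 : ℕ) (β : ι → ℤ)
  (C : Matrix ι ι ℤ) (U : ℕ → Matrix ι ι ℚ), 0 < M → IsU M β (qm C) U →
  (∃ A : ℝ, ∀ n i j, |(U n i j : ℝ)| ≤ A ^ (n + 1)) →
  ∀ (R : ℝ) (m : ℕ) (g A w h : ℂ → ℂ), IsMapW n0 n1 n2 R m g A w h →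
  ∀ (K : ℕ) (j : ι), (e1 n2 : ℤ) * β j ≤ (K : ℤ) * M →
  ∃ (ρ : ℝ) (W : ℂ → ι → ℂ) (χ : ℂ → ℂ), 0 < ρ ∧ ρ ≤ 1 ∧
    (∀ i, DifferentiableOn ℂ (fun z => W z i) (Metric.ball 0 ρ)) ∧
    ∀ z ∈ Metric.ball (0 : ℂ) ρ,
      χ z ^ M = A z ^ ((K : ℤ) * M - (e1 n2 : ℤ) * β j).toNat * w z ^ (K * M) *
        h z ^ (K * M) ∧
      (∀ i, W z i = χ z * ∑' n : ℕ, (U n i j : ℂ) *
        (z ^ m * (g z * h z ^ e1 n0) / A z ^ e1 n2) ^ n) ∧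
      (z ≠ 0 → ∀ i, HasDerivAt (fun y => W y i)
        ((AAW M n0 n1 n2 β C K (β j) m g A w h z *ᵥ W z) i) z)

/-- LOC1W, MEDIUM (copy of I_LOC1).  Local solutions at the zeros of `w`.
USES GAN CLF ROOT DRLW WNZW.

Here `n1 ≠ 0` (`nw`), `e1 n1 = n1`, `z0 ≠ 0` (WNZW).  `A z0 ≠ 0` (otherwise
`z0^m (g z0 h z0^e) = 0` with `h z0 ≠ 0` by `cop`), and `h z0 ≠ 0` (otherwise `A z0 ^ e1 n2 = 0`).  On a
small ball without 0 and without zeros of `A`, `h`: `x = w^n1 / A^e`, `e = e1 n2`, `|x| < ρ_G`;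
`1 + x = φ`.  For the column `l`: `χ_l` from ROOT with `N = M`,
`f = A^(K M + e γ_l) (z^m g)^(-lam) h^(K M - e1 n0 lam)` (integral exponents), and
`N z i l = G'(x z) i l * w z ^ (K - n1 γ_l / M) * χ_l z`.  As in I_LOC1; the logarithmic derivative of
`w^(K - n1γ_l/M) χ_l` is
`K (w'/w + A'/A + h'/h) - (γ_l/M)(n1 w'/w - e A'/A) - (lam/M) δ'/δ`,
`δ'/δ = m/z + g'/g + e1 n0 h'/h`.  Total:
`(x'/x) C/M + (φ'/φ) B/M - (lam/M) δ'/δ + K (w'/w + A'/A + h'/h) = AAW`. -/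
def StLOC1W : Prop := ∀ (ι : Type) [Fintype ι] [DecidableEq ι] (M n0 n1 n2 : ℕ) (β : ι → ℤ)
  (C : Matrix ι ι ℤ) (γ : ι → ℤ) (G : ℕ → Matrix ι ι ℚ), 0 < M →
  IsG M (fun m => qm (A1 β C m)) γ G → (∃ A' : ℝ, ∀ n i j, |(G n i j : ℝ)| ≤ A' ^ (n + 1)) →
  (∀ l, (M : ℤ) ∣ n1 * γ l) → ∀ (R : ℝ) (m : ℕ) (g A w h : ℂ → ℂ),
  IsMapW n0 n1 n2 R m g A w h →
  ∀ (K : ℕ), (∀ l, n1 * γ l / M ≤ K) → ∀ lam : ℤ, ∀ z0 ∈ Metric.ball (0 : ℂ) 1, w z0 = 0 →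
  ∃ (ρ : ℝ) (N : ℂ → Matrix ι ι ℂ), LocSolW M n0 n1 n2 β C K lam m g A w h N z0 ρ

/-- LOC2W, MEDIUM (copy of I_LOC2).  Local solutions at the zeros of `A`.
USES GAN CLF ROOT DRLW.

`n2 ≠ 0` (`nA`), `e = n2`, `z0 ≠ 0` (`A 0 ≠ 0`), `h z0 ≠ 0` (`cop`), `w z0 ≠ 0`
(`w z0^e1 = z0^m (g z0 h z0^e)`).  `y = A^n2/(z^m g h^(e1 n0)) = 1/φ`; for the column `l`: `χ_l` from
ROOT with `f = (z^m g)^(γ_l - lam) h^(e1 n0 (γ_l - lam) + K M) w^(K M)`,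
`N z i l = G'(y z) i l * A z ^ (K - n2 γ_l / M) * χ_l z`.  As in I_LOC2 with
`δ'/δ = m/z + g'/g + e1 n0 h'/h`: the logarithmic derivative of `A^(K - n2γ_l/M) χ_l` is
`K (A'/A + w'/w + h'/h) - (γ_l/M) y'/y - (lam/M) δ'/δ`. -/
def StLOC2W : Prop := ∀ (ι : Type) [Fintype ι] [DecidableEq ι] (M n0 n1 n2 : ℕ) (β : ι → ℤ)
  (C : Matrix ι ι ℤ) (γ : ι → ℤ) (G : ℕ → Matrix ι ι ℚ), 0 < M →
  IsG M (fun m => qm (A2 β C m)) γ G → (∃ A' : ℝ, ∀ n i j, |(G n i j : ℝ)| ≤ A' ^ (n + 1)) →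
  (∀ l, (M : ℤ) ∣ n2 * γ l) → ∀ (R : ℝ) (m : ℕ) (g A w h : ℂ → ℂ),
  IsMapW n0 n1 n2 R m g A w h →
  ∀ (K : ℕ), (∀ l, n2 * γ l / M ≤ K) → ∀ lam : ℤ, ∀ z0 ∈ Metric.ball (0 : ℂ) 1, A z0 = 0 →
  ∃ (ρ : ℝ) (N : ℂ → Matrix ι ι ℂ), LocSolW M n0 n1 n2 β C K lam m g A w h N z0 ρ

/-- LOCZW, MEDIUM (compare I_LOC0, I_LOC1).  Local solutions at the zeros of `h`.
USES UAN ROOT DRLW WNZW.

`n0 ≠ 0` (`nh`), `e1 n0 = n0`, `z0 ≠ 0` (`h 0 ≠ 0`), `A z0 ≠ 0` (`cop`), `w z0 ≠ 0`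
(`w z0 ^ e1 n1 = - A z0 ^ e1 n2`).  On a small ball without 0 and without zeros of `A`, `w`:
`φ = z^m (g h^n0) / A^e`, `e = e1 n2`, `|φ| < ρ_u` (`φ z0 = 0`), and `1 - φ = - w^(e1 n1)/A^e ≠ 0`.  `u`
from UAN.  For the column `l`: `χ_l` from ROOT with `N = M`,
`f = (z^m g)^(β_l - lam) A^(K M - e β_l) w^(K M)` (integral exponents), and
`N z i l = u (φ z) i l * h z ^ (K + n0 (β_l - lam) / M) * χ_l z`; the exponent of `h` is a natural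
number because `n0 (lam - β_l) / M ≤ K` and the division is exact.
As in LOC0W `u_l(φ)' = (φ'/φ) ((B - β_l)/M) u_l + (x'/x) (C/M) u_l`, `x = φ - 1`,
`φ'/φ = δ'/δ - e A'/A`, `x'/x = e1 n1 w'/w - e A'/A` (multiply with `w^(e1 n1)` and use DRLW; at points
with `h z ≠ 0`).  The logarithmic derivative of `h^(..) χ_l` is
`K (h'/h + A'/A + w'/w) + ((β_l - lam)/M) δ'/δ - (e β_l/M) A'/A`.  Total:
`(δ'/δ) (B - lam)/M - e (A'/A) B/M + (x'/x) C/M + K (..) = AAW`.  At the points with `h z ≠ 0` the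
determinant is `det u(φ) ∏_l (h^(..) χ_l) ≠ 0`. -/
def StLOCZW : Prop := ∀ (ι : Type) [Fintype ι] [DecidableEq ι] (M n0 n1 n2 : ℕ) (β : ι → ℤ)
  (C : Matrix ι ι ℤ) (U : ℕ → Matrix ι ι ℚ), 0 < M → IsU M β (qm C) U →
  (∃ A : ℝ, ∀ n i j, |(U n i j : ℝ)| ≤ A ^ (n + 1)) →
  ∀ (R : ℝ) (m : ℕ) (g A w h : ℂ → ℂ), IsMapW n0 n1 n2 R m g A w h →
  ∀ (K : ℕ) (lam : ℤ), (∀ l, (M : ℤ) ∣ n0 * (β l - lam)) → (∀ l, n0 * (lam - β l) / M ≤ K) →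
  ∀ z0 ∈ Metric.ball (0 : ℂ) 1, h z0 = 0 →
  ∃ (ρ : ℝ) (N : ℂ → Matrix ι ι ℂ), LocSolW M n0 n1 n2 β C K lam m g A w h N z0 ρ

/-- LOCRW, EASY (copy of I_LOCR).  Regular points: `AAW` is holomorphic near `z0`. -/
def StLOCRW : Prop := ∀ (ι : Type) [Fintype ι] [DecidableEq ι] (M n0 n1 n2 : ℕ) (β : ι → ℤ)
  (C : Matrix ι ι ℤ) (R : ℝ) (m : ℕ) (g A w h : ℂ → ℂ), IsMapW n0 n1 n2 R m g A w h →
  ∀ (K : ℕ) (lam : ℤ), ∀ z0 ∈ Metric.ball (0 : ℂ) 1, z0 ≠ 0 → A z0 ≠ 0 → w z0 ≠ 0 → h z0 ≠ 0 →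
  ∃ (ρ : ℝ) (N : ℂ → Matrix ι ι ℂ), LocSolW M n0 n1 n2 β C K lam m g A w h N z0 ρ

/-- LOCAW, EASY-MEDIUM (copy of I_LOCAR).  Local solutions everywhere except 0.
USES FRBR GEX GCV UCV LOC1W LOC2W LOCZW LOCRW.

`γ'`, `G` at 1 and `∞` as in I_LOCAR.  `K0` = a number larger than all `|n1 γ'_l|`, `|n2 γ''_l|` and all
`|n0 (β_j - β_l)|` (division by `M ≥ 1` does not increase the absolute value of a multiple of `M`).  At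
a zero of `h`: LOCZW with `lam = β_j` (growth of `U` by UCV).  If `n0 = 0` then `h` has no zeros. -/
def StLOCAW : Prop := ∀ (ι : Type) [Fintype ι] [DecidableEq ι] [Nonempty ι] (M n0 n1 n2 : ℕ)
  (β : ι → ℤ) (C : Matrix ι ι ℤ) (S : Set ℕ) (U : ℕ → Matrix ι ι ℚ), SysR M n1 n2 β C S →
  (∀ i j, (M : ℤ) ∣ n0 * (β i - β j)) → IsU M β (qm C) U → ∃ K0 : ℕ,
  ∀ (R : ℝ) (m : ℕ) (g A w h : ℂ → ℂ), IsMapW n0 n1 n2 R m g A w h → ∀ K ≥ K0, ∀ j : ι,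
  ∀ z0 ∈ Metric.ball (0 : ℂ) 1, z0 ≠ 0 →
  ∃ (ρ : ℝ) (N : ℂ → Matrix ι ι ℂ), LocSolW M n0 n1 n2 β C K (β j) m g A w h N z0 ρ

/-- ODXW, EASY-MEDIUM (copy of I_ODX).  The differential equation propagates.  USES WNZW.

`z g A w h (V' - AAW V)` is a vector of holomorphic functions on `ball 0 r`. -/
def StODXW : Prop := ∀ (ι : Type) [Fintype ι] [DecidableEq ι] (M n0 n1 n2 : ℕ) (β : ι → ℤ)
  (C : Matrix ι ι ℤ) (R : ℝ) (m : ℕ) (g A w h : ℂ → ℂ), IsMapW n0 n1 n2 R m g A w h →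
  ∀ (K : ℕ) (lam : ℤ) (W V : ℂ → ι → ℂ) (ρ r : ℝ), 0 < ρ → 0 < r → r ≤ 1 →
  (∀ z ∈ Metric.ball (0 : ℂ) ρ, z ≠ 0 → ∀ i, HasDerivAt (fun y => W y i)
    ((AAW M n0 n1 n2 β C K lam m g A w h z *ᵥ W z) i) z) →
  (∀ i, DifferentiableOn ℂ (fun z => V z i) (Metric.ball 0 r)) → (∀ᶠ z in 𝓝 0, V z = W z) →
  ∀ z ∈ Metric.ball (0 : ℂ) r, z ≠ 0 → A z ≠ 0 → w z ≠ 0 → h z ≠ 0 → ∀ i,
    HasDerivAt (fun y => V y i) ((AAW M n0 n1 n2 β C K lam m g A w h z *ᵥ V z) i) z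

/-- CMPW, EASY-MEDIUM (copy of I_CMP).  Comparison with a local solution.  USES WNZW. -/
def StCMPW : Prop := ∀ (ι : Type) [Fintype ι] [DecidableEq ι] (M n0 n1 n2 : ℕ) (β : ι → ℤ)
  (C : Matrix ι ι ℤ) (R : ℝ) (m : ℕ) (g A w h : ℂ → ℂ), IsMapW n0 n1 n2 R m g A w h →
  ∀ (K : ℕ) (lam : ℤ) (N : ℂ → Matrix ι ι ℂ) (V : ℂ → ι → ℂ) (z0 : ℂ) (ρ r : ℝ),
  LocSolW M n0 n1 n2 β C K lam m g A w h N z0 ρ → 0 < r → r ≤ 1 →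
  (∀ i, DifferentiableOn ℂ (fun z => V z i) (Metric.ball 0 r)) →
  (∀ z ∈ Metric.ball (0 : ℂ) r, z ≠ 0 → A z ≠ 0 → w z ≠ 0 → h z ≠ 0 → ∀ i,
    HasDerivAt (fun y => V y i) ((AAW M n0 n1 n2 β C K lam m g A w h z *ᵥ V z) i) z) →
  (Metric.ball z0 ρ ∩ Metric.ball 0 r).Nonempty →
  ∃ v : ι → ℂ, ∀ z ∈ Metric.ball z0 ρ ∩ Metric.ball 0 r, V z = N z *ᵥ v

/-- CONW, EASY (copy of I_CONR).  USES UCV LOC0W LOCAW ODXW CMPW TG.StGLU WNZW.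

As I_CONR with `lam = β_j` and the factor `A^(KM - e2β_j) w^(KM) h^(KM)` (nonzero somewhere by
WNZW). -/
def StCONW : Prop := ∀ (ι : Type) [Fintype ι] [DecidableEq ι] [Nonempty ι] (M n0 n1 n2 : ℕ)
  (β : ι → ℤ) (C : Matrix ι ι ℤ) (S : Set ℕ) (U : ℕ → Matrix ι ι ℚ),
  SysR M n1 n2 β C S → (∀ i j, (M : ℤ) ∣ n0 * (β i - β j)) → IsU M β (qm C) U →
  ∀ (R : ℝ) (m : ℕ) (g A w h : ℂ → ℂ), IsMapW n0 n1 n2 R m g A w h → ∀ i j, ∃ q F : ℂ → ℂ,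
    DifferentiableOn ℂ q (Metric.ball 0 1) ∧ (∃ z ∈ Metric.ball (0 : ℂ) 1, q z ≠ 0) ∧
    DifferentiableOn ℂ F (Metric.ball 0 1) ∧
    ∀ᶠ z in 𝓝 0, F z = q z *
      (∑' n : ℕ, (U n i j : ℂ) * (z ^ m * (g z * h z ^ e1 n0) / A z ^ e1 n2) ^ n) ^ M

/-! ### the theorem -/

/-- MZW, EASY (copy of I_MZR).  USES StCrit2 StMapW DNS GRTS UCV CONW TG.StPwr TG.StCnv.

As I_MZR; StCrit2 is applied with `g := fun z => g z * h z ^ e1 n0` (it needs no condition on the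
zeros of `g`).  All `R` of TypW are positive.  The lemmas of the namespace IMZR can be imported. -/
def StMZW : Prop := ∀ (ι : Type) [Fintype ι] [DecidableEq ι] [Nonempty ι] (M n0 n1 n2 : ℕ)
  (β : ι → ℤ) (C : Matrix ι ι ℤ) (S : Set ℕ) (T : Finset ℕ) (κ : ℕ → ℝ) (R L : ℝ)
  (U : ℕ → Matrix ι ι ℚ),
  TypW n0 n1 n2 R → L < Real.log R → SysR M n1 n2 β C S →
  (∀ i j, (M : ℤ) ∣ n0 * (β i - β j)) →
  (∀ p : ℕ, p.Prime → p ∣ M → p ∈ T) → CostT T κ (nc M β) S L → IsU M β (qm C) U →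
  (∀ p ∈ T, p.Prime ∧ 0 ≤ κ p ∧ Gr p (κ p) U) →
  ∀ i j, IsAlgebraic ℚ[X] (PowerSeries.mk fun n => U n i j)

/-- FINW, EASY (copy of I_FINR).  THE THEOREM for diagonal `b`.
USES MZW INFT RSC RSD RSP RKU RKG RKL ALG KEI KPC KSP MDGR. -/
def StFINW : Prop := ∀ (K : Type) [Field K] [NumberField K] (σ : K →+* ℂ) (r M n0 n1 n2 : ℕ)
  (R L : ℝ) (β : Fin r → ℤ) (b c : Matrix (Fin r) (Fin r) (𝓞 K)) (S : Set ℕ) (T : Finset ℕ)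
  (κ : ℕ → ℝ) (U : ℕ → Matrix (Fin r) (Fin r) K),
  0 < M → TypW n0 n1 n2 R → L < Real.log R →
  b = Matrix.diagonal (fun i => ((β i : ℤ) : 𝓞 K)) →
  (∀ i j, (M : ℤ) ∣ n0 * (β i - β j)) →
  (∀ γ : ℤ, c.charpoly.IsRoot ((γ : ℤ) : 𝓞 K) → (M : ℤ) ∣ n1 * γ) →
  (∀ ζ : ℤ, (b + c).charpoly.IsRoot ((ζ : ℤ) : 𝓞 K) → (M : ℤ) ∣ n2 * ζ) →
  IsU M β (Matrix.of fun i j => (c i j : K)) U →
  (∀ p : ℕ, p.Prime → p ∣ M → p ∈ T) →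
  (∀ p ∈ T, p.Prime ∧ 0 ≤ κ p ∧
    ((M.factorization p : ℝ) + (spc p M β : ℝ) / ((p : ℝ) - 1) ≤ κ p ∨ GrK p (κ p) U)) →
  CostT T κ (nc M β) S L →
  (∀ p : ℕ, p.Prime → ¬ p ∣ M → p ∉ S → (Ideal.span {(p : 𝓞 K)}).IsRadical) →
  (∀ P : Ideal (𝓞 K), P.IsMaximal → ¬ ringChar (𝓞 K ⧸ P) ∣ M → ringChar (𝓞 K ⧸ P) ∉ S →
    PCurvZero M b c P) →
  ∀ B D : Matrix (Fin r) (Fin r) ℂ, (∀ i j, B i j = σ (b i j : K) / M) →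
    (∀ i j, D i j = σ (c i j : K) / M) → A.HasAlgebraicSolutions B D

/-- the data of the theorem: all hypotheses except the sizes -/
structure DatW (K : Type) [Field K] [NumberField K] (r M n0 n1 n2 : ℕ)
    (b c : Matrix (Fin r) (Fin r) (𝓞 K)) (S : Set ℕ) (T : Finset ℕ) (κ : ℕ → ℝ) (R L : ℝ) :
    Prop where
  hM : 0 < M
  typ : TypW n0 n1 n2 R
  lt : L < Real.log R
  h0 : ∀ β ∈ expSet b, ∀ β' ∈ expSet b, (M : ℤ) ∣ n0 * (β - β')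
  h1 : ∀ γ : ℤ, c.charpoly.IsRoot ((γ : ℤ) : 𝓞 K) → (M : ℤ) ∣ n1 * γ
  h2 : ∀ ζ : ℤ, (b + c).charpoly.IsRoot ((ζ : ℤ) : 𝓞 K) → (M : ℤ) ∣ n2 * ζ
  hT : ∀ p : ℕ, p.Prime → p ∣ M → p ∈ T
  hκ : ∀ p ∈ T, p.Prime ∧ 0 ≤ κ p
  rad : ∀ p : ℕ, p.Prime → ¬ p ∣ M → p ∉ S → (Ideal.span {(p : 𝓞 K)}).IsRadical
  psi : ∀ P : Ideal (𝓞 K), P.IsMaximal → ¬ ringChar (𝓞 K ⧸ P) ∣ M → ringChar (𝓞 K ⧸ P) ∉ S →
    PCurvZero M b c P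

/-- FGDW, EASY (copy of I_FGD).  USES FINW EXU INFT GRN GRC EXS.

As I_FGD; `β i ∈ expSet b` (EXS with `g = 1`: `expSet b = range β`), so `h0` gives the hypothesis of
FINW. -/
def StFGDW : Prop := ∀ (K : Type) [Field K] [NumberField K] (σ : K →+* ℂ) (r M n0 n1 n2 : ℕ)
  (β : Fin r → ℤ) (b c : Matrix (Fin r) (Fin r) (𝓞 K)) (S : Set ℕ) (T : Finset ℕ) (κ : ℕ → ℝ)
  (R L : ℝ), DatW K r M n0 n1 n2 b c S T κ R L →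
  b = Matrix.diagonal (fun i => ((β i : ℤ) : 𝓞 K)) →
  (∀ p ∈ T, SizeG M b c p (κ p)) → CostT T κ (nc M β) S L →
  ∀ B D : Matrix (Fin r) (Fin r) ℂ, (∀ i j, B i j = σ (b i j : K) / M) →
    (∀ i j, D i j = σ (c i j : K) / M) → A.HasAlgebraicSolutions B D

/-- FGGW, EASY-MEDIUM (copy of I_FGG).
USES FINW EXU INFT GRN GRC CJP CHP HAC RSPG EXS.

As I_FGG; the additional hypothesis of FINW for `(M N, N β)` is `M N ∣ n0 (N β_i - N β_j)`, from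
`h0` because `expSet b = range β` (EXS; if `r = 0` there is nothing to show). -/
def StFGGW : Prop := ∀ (K : Type) [Field K] [NumberField K] (σ : K →+* ℂ)
  (r M N n0 n1 n2 : ℕ)
  (β : Fin r → ℤ) (b c g h : Matrix (Fin r) (Fin r) (𝓞 K)) (S : Set ℕ) (T : Finset ℕ)
  (κ : ℕ → ℝ) (R L : ℝ), DatW K r M n0 n1 n2 b c S T κ R L → 0 < N →
  h * g = (N : 𝓞 K) • (1 : Matrix (Fin r) (Fin r) (𝓞 K)) →
  g * h = (N : 𝓞 K) • (1 : Matrix (Fin r) (Fin r) (𝓞 K)) →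
  b * g = g * Matrix.diagonal (fun i => ((β i : ℤ) : 𝓞 K)) →
  (∀ p ∈ T, (¬ p ∣ M ∧ (nc M β : ℝ) / ((p : ℝ) - 1) ≤ κ p) ∨
    ∃ V : ℕ → Matrix (Fin r) (Fin r) K,
      IsS M (Matrix.of fun i j => (b i j : K)) (Matrix.of fun i j => (c i j : K)) V ∧
      GrK p (κ p) V) →
  CostT T κ (nc M β) S L →
  ∀ B D : Matrix (Fin r) (Fin r) ℂ, (∀ i j, B i j = σ (b i j : K) / M) →
    (∀ i j, D i j = σ (c i j : K) / M) → A.HasAlgebraicSolutions B D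

/-- FINGW, EASY (copy of I_FING).  USES FGDW FGGW DIAK ADJ EXS RSPG QAT. -/
def StFINGW : Prop := ∀ (K : Type) [Field K] [NumberField K] (σ : K →+* ℂ) (r M n0 n1 n2 : ℕ)
  (b c : Matrix (Fin r) (Fin r) (𝓞 K)) (S : Set ℕ) (T : Finset ℕ) (κ : ℕ → ℝ)
  (R L : ℝ), DatW K r M n0 n1 n2 b c S T κ R L →
  (∀ p ∈ T, SizeG M b c p (κ p)) → CostT T κ (max 1 (ncb M b)) S L →
  ∀ B D : Matrix (Fin r) (Fin r) ℂ, (∀ i j, B i j = σ (b i j : K) / M) →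
    (∀ i j, D i j = σ (c i j : K) / M) → A.HasAlgebraicSolutions B D

end Pool.Agent.Work.MP_5e5ff1_ag.TH
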