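import Mathlib
import Pool.Agent.Work.MP_5e5ff1_ag.TH.StmtsW
import Pool.Agent.Work.MP_5e5ff1_ag.Bd.B07

set_option autoImplicit false

/-!
# MP_5e5ff1_ag, block TH, item CMPW: comparison with a local solution
-/

open Matrix Filter Topology
open scoped Polynomial

namespace Pool.Agent.Work.MP_5e5ff1_ag.TH

namespace ICMPW

variable {ι : Type} [Fintype ι] [DecidableEq ι]

/-- derivative of `N⁻¹ V` for a solution vector `V` of the same equation -/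
theorem quot_deriv {N : ℂ → Matrix ι ι ℂ} {V : ℂ → ι → ℂ} {A : Matrix ι ι ℂ} {v : ℂ}
    (hN : ∀ a b, HasDerivAt (fun y => N y a b) ((A * N v) a b) v)
    (hV : ∀ a, HasDerivAt (fun y => V y a) ((A *ᵥ V v) a) v)
    (hU : IsUnit (N v).det) (a : ι) :
    HasDerivAt (fun s => ∑ k, (N s)⁻¹ a k * V s k) 0 v := by
  have h1 : HasDerivAt (fun s => ∑ k, (N s)⁻¹ a k * V s k)
      (∑ k, ((-((N v)⁻¹ * (A * N v) * (N v)⁻¹)) a k * V v k
        + (N v)⁻¹ a k * (A *ᵥ V v) k)) v :=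
    HasDerivAt.fun_sum fun k _ =>
      (Pool.Agent.MSU.ItemSUniq.inv_hasDerivAt hN hU a k).mul (hV k)
  have e0 : (N v)⁻¹ * (A * N v) * (N v)⁻¹ = (N v)⁻¹ * A := by
    rw [Matrix.mul_assoc, Matrix.mul_assoc, mul_nonsing_inv _ hU, Matrix.mul_one]
  have e : (∑ k, ((-((N v)⁻¹ * (A * N v) * (N v)⁻¹)) a k * V v k
        + (N v)⁻¹ a k * (A *ᵥ V v) k)) = 0 := by
    have e1 : ∑ k, (-((N v)⁻¹ * A)) a k * V v k = ((-((N v)⁻¹ * A)) *ᵥ V v) a := rfl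
    have e2 : ∑ k, (N v)⁻¹ a k * (A *ᵥ V v) k = ((N v)⁻¹ *ᵥ (A *ᵥ V v)) a := rfl
    rw [e0, Finset.sum_add_distrib, e1, e2, Matrix.neg_mulVec, Matrix.mulVec_mulVec,
      Pi.neg_apply, neg_add_cancel]
  rwa [e] at h1

end ICMPW

open ICMPW in
theorem pr_CMPW (hWNZ : StWNZW) : StCMPW := by
  intro ι _ _ M n0 n1 n2 β C R m g A w h hm K lam N V z0 δ r hN hr hr1 hVd hVo hne
  have hΩo : IsOpen (Metric.ball z0 δ ∩ Metric.ball (0 : ℂ) r) :=
    Metric.isOpen_ball.inter Metric.isOpen_ball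
  have hΩc : Convex ℝ (Metric.ball z0 δ ∩ Metric.ball (0 : ℂ) r) :=
    (convex_ball _ _).inter (convex_ball _ _)
  have hΩ1 : Metric.ball z0 δ ∩ Metric.ball (0 : ℂ) r ⊆ Metric.ball 0 1 :=
    fun z hz => hN.sub hz.1
  obtain ⟨z1, hz1, hz10, hA1, hw1, hh1⟩ :=
    (hWNZ n0 n1 n2 R m g A w h hm).2 _ hΩo hΩ1 hne
  have hAc : ContinuousAt A z1 :=
    (hm.dA.differentiableAt (Metric.isOpen_ball.mem_nhds (hΩ1 hz1))).continuousAt
  have hwc : ContinuousAt w z1 :=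
    (hm.dw.differentiableAt (Metric.isOpen_ball.mem_nhds (hΩ1 hz1))).continuousAt
  have hhc : ContinuousAt h z1 :=
    (hm.dh.differentiableAt (Metric.isOpen_ball.mem_nhds (hΩ1 hz1))).continuousAt
  have hev : ∀ᶠ z in 𝓝 z1, z ∈ Metric.ball z0 δ ∩ Metric.ball (0 : ℂ) r ∧ z ≠ 0 ∧ A z ≠ 0 ∧
      w z ≠ 0 ∧ h z ≠ 0 := by
    filter_upwards [hΩo.mem_nhds hz1, continuousAt_id.eventually_ne hz10,
      hAc.eventually_ne hA1, hwc.eventually_ne hw1, hhc.eventually_ne hh1] with z h1 h2 h3 h4 h5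
    exact ⟨h1, h2, h3, h4, h5⟩
  obtain ⟨ε, hε, hB⟩ := Metric.eventually_nhds_iff_ball.1 hev
  have hdet : ∀ z ∈ Metric.ball z1 ε, IsUnit (N z).det := fun z hz =>
    isUnit_iff_ne_zero.2 (hN.det z (hB z hz).1.1 (hB z hz).2.2.1 (hB z hz).2.2.2.1
      (hB z hz).2.2.2.2)
  have hd : ∀ a, ∀ v ∈ Metric.ball z1 ε,
      HasDerivAt (fun s => ∑ k, (N s)⁻¹ a k * V s k) 0 v := by
    intro a v hv
    obtain ⟨h1, h2, h3, h4, h5⟩ := hB v hv
    exact quot_deriv (hN.ode v h1.1 h3 h4 h5) (hVo v h1.2 h2 h3 h4 h5) (hdet v hv) a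
  have hz1B : z1 ∈ Metric.ball z1 ε := Metric.mem_ball_self hε
  have hloc : ∀ z ∈ Metric.ball z1 ε, V z = N z *ᵥ ((N z1)⁻¹ *ᵥ V z1) := by
    intro z hz
    have h2 : (N z)⁻¹ *ᵥ V z = (N z1)⁻¹ *ᵥ V z1 := by
      ext a
      exact Metric.isOpen_ball.is_const_of_deriv_eq_zero
        (convex_ball z1 ε).isPreconnected
        (fun v hv => (hd a v hv).differentiableAt.differentiableWithinAt)
        (fun v hv => (hd a v hv).deriv) hz hz1B
    rw [← h2, Matrix.mulVec_mulVec, mul_nonsing_inv _ (hdet z hz), Matrix.one_mulVec]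
  refine ⟨(N z1)⁻¹ *ᵥ V z1, fun z hz => ?_⟩
  ext a
  have hf : AnalyticOnNhd ℂ (fun z => V z a) (Metric.ball z0 δ ∩ Metric.ball (0 : ℂ) r) :=
    ((hVd a).mono Set.inter_subset_right).analyticOnNhd hΩo
  have hg : AnalyticOnNhd ℂ (fun z => ∑ k, N z a k * ((N z1)⁻¹ *ᵥ V z1) k)
      (Metric.ball z0 δ ∩ Metric.ball (0 : ℂ) r) := by
    refine DifferentiableOn.analyticOnNhd ?_ hΩo
    exact DifferentiableOn.fun_sum fun k _ =>
      ((hN.diff a k).mono Set.inter_subset_left).mul_const _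
  have hfg : (fun z => V z a) =ᶠ[𝓝 z1] fun z => ∑ k, N z a k * ((N z1)⁻¹ *ᵥ V z1) k := by
    filter_upwards [Metric.isOpen_ball.mem_nhds hz1B] with z hz
    rw [hloc z hz]
    rfl
  exact hf.eqOn_of_preconnected_of_eventuallyEq hg hΩc.isPreconnected hz1 hfg hz

end Pool.Agent.Work.MP_5e5ff1_ag.TH
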