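import Mathlib
import Pool.Agent.Work.MP_5e5ff1_ag.TH.StmtsW

set_option autoImplicit false

/-!
# MP_5e5ff1_ag, block TH, item CONW (copy of items CON, CONR): continuation of the entries to the disc, elliptic base points
-/

open Matrix Filter Topology
open scoped Polynomial

namespace Pool.Agent.Work.MP_5e5ff1_ag.TH

namespace ICONW

lemma ident {E : Type} [NormedAddCommGroup E] [NormedSpace ℂ E] [CompleteSpace E]
    {f g : ℂ → E} {ρ r : ℝ} (hρ : 0 < ρ) (hr : 0 < r)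
    (hf : DifferentiableOn ℂ f (Metric.ball 0 ρ)) (hg : DifferentiableOn ℂ g (Metric.ball 0 r))
    (h : ∀ᶠ z in 𝓝 (0 : ℂ), g z = f z) :
    ∀ z ∈ Metric.ball (0 : ℂ) ρ ∩ Metric.ball 0 r, f z = g z := by
  intro z hz
  have hb : Metric.ball (0 : ℂ) (min ρ r) ⊆ Metric.ball 0 ρ :=
    Metric.ball_subset_ball (min_le_left _ _)
  have hb' : Metric.ball (0 : ℂ) (min ρ r) ⊆ Metric.ball 0 r :=
    Metric.ball_subset_ball (min_le_right _ _)
  have h1 : AnalyticOnNhd ℂ f (Metric.ball 0 (min ρ r)) :=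
    (hf.mono hb).analyticOnNhd Metric.isOpen_ball
  have h2 : AnalyticOnNhd ℂ g (Metric.ball 0 (min ρ r)) :=
    (hg.mono hb').analyticOnNhd Metric.isOpen_ball
  have h3 : (0 : ℂ) ∈ Metric.ball (0 : ℂ) (min ρ r) := Metric.mem_ball_self (lt_min hρ hr)
  have h4 : z ∈ Metric.ball (0 : ℂ) (min ρ r) := by
    have e1 := hz.1
    have e2 := hz.2
    rw [Metric.mem_ball] at e1 e2 ⊢
    exact lt_min e1 e2
  exact (h2.eqOn_of_preconnected_of_eventuallyEq h1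
    (convex_ball (0 : ℂ) (min ρ r)).isPreconnected h3 h h4).symm

end ICONW

theorem pr_CONW (hUCV : StUCV) (hLOC0 : StLOC0W) (hLOCA : StLOCAW) (hODX : StODXW)
    (hCMP : StCMPW) (hGLU : TG.StGLU) (hWNZ : StWNZW) : StCONW := by
  intro ι _ _ _ M n0 n1 n2 β C S U hS hdiv hU R m g A w h hm i j
  obtain ⟨A', -, hA'⟩ := hUCV ι M β C U hS.hM hU
  obtain ⟨K0, hK0⟩ := hLOCA ι M n0 n1 n2 β C S U hS hdiv hU
  obtain ⟨K, hKK, hK⟩ : ∃ K : ℕ, K0 ≤ K ∧ (e1 n2 : ℤ) * β j ≤ (K : ℤ) * M := by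
    refine ⟨K0 + e1 n2 * (β j).natAbs, Nat.le_add_right _ _, ?_⟩
    have hM : (1 : ℤ) ≤ M := by exact_mod_cast hS.hM
    have h1 : β j ≤ ((β j).natAbs : ℤ) := Int.le_natAbs
    have h2 : (0 : ℤ) ≤ (e1 n2 : ℤ) := Int.natCast_nonneg _
    have h3 : (e1 n2 : ℤ) * β j ≤ (e1 n2 : ℤ) * ((β j).natAbs : ℤ) :=
      mul_le_mul_of_nonneg_left h1 h2
    have h4 : (e1 n2 : ℤ) * ((β j).natAbs : ℤ) ≤ ((K0 + e1 n2 * (β j).natAbs : ℕ) : ℤ) := by
      exact_mod_cast Nat.le_add_left _ _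
    have h5 : (0 : ℤ) ≤ ((K0 + e1 n2 * (β j).natAbs : ℕ) : ℤ) := Int.natCast_nonneg _
    exact (h3.trans h4).trans (le_mul_of_one_le_right h5 hM)
  have h0 : (0 : ℂ) ∈ Metric.ball (0 : ℂ) 1 := by simp
  obtain ⟨ρ, W, χ, hρ, -, hWd, hW⟩ :=
    hLOC0 ι M n0 n1 n2 β C U hS.hM hU ⟨A', hA'⟩ R m g A w h hm K j hK
  have hd0 : DifferentiableOn ℂ W (Metric.ball 0 ρ) := differentiableOn_pi.2 hWd
  obtain ⟨F0, hF0, hF0f⟩ := hGLU (ι → ℂ) W ρ hρ hd0 (by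
    intro z0 hz0
    rcases eq_or_ne z0 0 with rfl | hz00
    · exact ⟨ρ, hρ, fun g' r hr _ hg' hgf _ => ⟨W, hd0, ICONW.ident hρ hr hd0 hg' hgf⟩⟩
    · obtain ⟨δ, N, hN⟩ := hK0 R m g A w h hm K hKK j z0 hz0 hz00
      refine ⟨δ, hN.pos, ?_⟩
      intro g' r hr hr1 hg' hgf hne
      have hg'' := differentiableOn_pi.1 hg'
      have hode := hODX ι M n0 n1 n2 β C R m g A w h hm K (β j) W g' ρ r hρ hr hr1
        (fun z hz hz0 i => (hW z hz).2.2 hz0 i) hg'' hgf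
      obtain ⟨v, hv⟩ := hCMP ι M n0 n1 n2 β C R m g A w h hm K (β j) N g' z0 δ r hN hr hr1 hg''
        hode hne
      refine ⟨fun z => N z *ᵥ v, ?_, fun z hz => (hv z hz).symm⟩
      rw [differentiableOn_pi]
      intro a
      simp only [Matrix.mulVec, dotProduct]
      exact DifferentiableOn.fun_sum fun l _ => (hN.diff a l).mul_const _)
  refine ⟨fun z => A z ^ ((K : ℤ) * M - (e1 n2 : ℤ) * β j).toNat * w z ^ (K * M) *
      h z ^ (K * M),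
    fun z => F0 z i ^ M, ((hm.dA.pow _).mul (hm.dw.pow _)).mul (hm.dh.pow _), ?_,
    ((differentiableOn_pi.1 hF0) i).pow M, ?_⟩
  · obtain ⟨z, hz, -, hz1, hz2, hz3⟩ := (hWNZ n0 n1 n2 R m g A w h hm).2 (Metric.ball 0 1)
      Metric.isOpen_ball le_rfl ⟨0, h0⟩
    exact ⟨z, hz, mul_ne_zero (mul_ne_zero (pow_ne_zero _ hz1) (pow_ne_zero _ hz2))
      (pow_ne_zero _ hz3)⟩
  · filter_upwards [hF0f, Metric.ball_mem_nhds (0 : ℂ) hρ] with z hz hz1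
    obtain ⟨h1, h2, -⟩ := hW z hz1
    rw [hz, h2 i, mul_pow, h1]

end Pool.Agent.Work.MP_5e5ff1_ag.TH
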