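import Mathlib
import Pool.Agent.Work.MP_5e5ff1_ag.TH.StmtsW

/-!
MP_5e5ff1_ag, block TH, item DBLW: composition of a map with four psi (1 - psi).
-/

set_option autoImplicit false

namespace Pool.Agent.Work.MP_5e5ff1_ag.TH

namespace IDBLW

theorem e1_ne (n : ℕ) : e1 n ≠ 0 := by
  unfold e1
  split_ifs with h
  · exact one_ne_zero
  · exact h

theorem e1_two : e1 2 = 2 := by
  simp [e1]

/-- The construction, for any function `A'` with `A' ^ e1 (2 b) = (A ^ e1 b) ^ 2`. -/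
theorem core {a b : ℕ} {R : ℝ} {m : ℕ} {g A w A' : ℂ → ℂ} (h : IsMap a b R m g A w)
    (dA' : DifferentiableOn ℂ A' (Metric.ball 0 1))
    (hA' : ∀ z, A' z ^ e1 (2 * b) = (A z ^ e1 b) ^ 2)
    (hz : ∀ z, A' z = 0 → A z = 0) :
    IsMapW a 2 (2 * b) (4 * R) m (fun z => -4 * g z) A'
      (fun z => Complex.I * (A z ^ e1 b - 2 * (z ^ m * g z))) w := by
  have h0 : (0 : ℂ) ∈ Metric.ball (0 : ℂ) 1 := Metric.mem_ball_self one_pos
  have hrel := h.rel 0 h0
  rw [zero_pow h.m0.ne', zero_mul, zero_sub] at hrel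
  have hA : A 0 ^ e1 b ≠ 0 := pow_ne_zero _ h.A00
  have hw : w 0 ≠ 0 := by
    intro hw
    rw [hw, zero_pow (e1_ne a), neg_eq_zero] at hrel
    exact hA hrel
  have hn : ‖w 0‖ ^ e1 a = ‖A 0‖ ^ e1 b := by
    rw [← norm_pow, ← hrel, norm_neg, norm_pow]
  refine
    { dg := (differentiableOn_const _).mul h.dg
      dA := dA'
      dw := ?_
      dh := h.dw
      m0 := h.m0
      g0 := fun z hz' => mul_ne_zero (by norm_num) (h.g0 z hz')
      rel := ?_
      nA := ?_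
      nw := fun h2 => absurd h2 (by norm_num)
      nh := h.nw
      cop := ?_
      A00 := fun hA0 => h.A00 (hz 0 hA0)
      h00 := hw
      rad := ?_ }
  · refine (differentiableOn_const _).mul ((h.dA.pow _).sub ((differentiableOn_const _).mul
      (DifferentiableOn.mul ?_ h.dg)))
    exact (differentiable_pow m).differentiableOn
  · intro z hz'
    have hr := h.rel z hz'
    rw [hA', e1_two, ← hr, mul_pow, Complex.I_sq]
    ring
  · intro hb z hz' hA0
    have hb0 : b = 0 := by omega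
    exact h.nA hb0 z hz' (hz z hA0)
  · intro z hz' hA0 hw0
    have hAz : A z = 0 := hz z hA0
    have hr := h.rel z hz'
    rw [hAz, hw0, zero_pow (e1_ne b), zero_pow (e1_ne a), sub_zero] at hr
    rcases mul_eq_zero.1 hr with hr | hr
    · have hz0 : z = 0 := pow_eq_zero_iff h.m0.ne' |>.1 hr
      rw [hz0] at hAz
      exact h.A00 hAz
    · exact h.g0 z hz' hr
  · have hA0 : 0 < ‖A 0‖ ^ e1 b := pow_pos (norm_pos_iff.2 h.A00) _
    have hnum : ‖(-4 * g 0) * w 0 ^ e1 a‖ = 4 * ‖g 0‖ * ‖A 0‖ ^ e1 b := by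
      rw [norm_mul, norm_mul, norm_pow, hn]
      norm_num
    have hden : ‖A' 0‖ ^ e1 (2 * b) = (‖A 0‖ ^ e1 b) ^ 2 := by
      rw [← norm_pow, hA', norm_pow, norm_pow]
    show 4 * R ≤ ‖(-4 * g 0) * w 0 ^ e1 a‖ / ‖A' 0‖ ^ e1 (2 * b)
    rw [hnum, hden]
    have hrad := h.rad
    have he : 4 * ‖g 0‖ * ‖A 0‖ ^ e1 b / (‖A 0‖ ^ e1 b) ^ 2 = 4 * (‖g 0‖ / ‖A 0‖ ^ e1 b) := by
      field_simp
    rw [he]
    linarith

end IDBLW

/-- Item DBLW. -/
theorem pr_DBLW : StDBLW := by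
  intro a b R m g A w h
  by_cases hb : b = 0
  · subst hb
    refine ⟨_, fun z => A z ^ 2, _, w, IDBLW.core h (h.dA.pow 2) ?_ ?_⟩
    · intro z
      simp [e1]
    · intro z hz
      exact pow_eq_zero_iff (two_ne_zero) |>.1 hz
  · refine ⟨_, A, _, w, IDBLW.core h h.dA ?_ (fun z hz => hz)⟩
    intro z
    have h1 : e1 (2 * b) = 2 * b := by
      unfold e1
      rw [if_neg (by omega)]
    have h2 : e1 b = b := by
      unfold e1
      rw [if_neg hb]
    rw [h1, h2, mul_comm 2 b, pow_mul]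

end Pool.Agent.Work.MP_5e5ff1_ag.TH
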