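import Mathlib
import Pool.Agent.Work.MP_5e5ff1_ag.TH.StmtsW

set_option autoImplicit false

/-!
# MP_5e5ff1_ag, block TH, item DRLW (helper37): the logarithmic derivatives
-/

open Filter Topology

namespace Pool.Agent.Work.MP_5e5ff1_ag.TH

namespace IDRLW

/-- the algebra -/
theorem alg (a b m : ℕ) (z g A w g' A' w' : ℂ) (hz : z ≠ 0) (hg : g ≠ 0) (hw : w ≠ 0)
    (hA : A ≠ 0) (hr : z ^ (m + 1) * g - A ^ (b + 1) = w ^ (a + 1))
    (hd : ((m : ℂ) + 1) * z ^ m * g + z ^ (m + 1) * g' - ((b : ℂ) + 1) * A ^ b * A' =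
      ((a : ℂ) + 1) * w ^ a * w') :
    w ^ (a + 1) * (((a : ℂ) + 1) * (w' / w) - ((b : ℂ) + 1) * (A' / A)) =
      z ^ (m + 1) * g * (((m : ℂ) + 1) / z + g' / g - ((b : ℂ) + 1) * (A' / A)) := by
  have h1 : w ^ (a + 1) * (w' / w) = w ^ a * w' := by
    rw [pow_succ]
    field_simp
  have h2 : A ^ (b + 1) * (A' / A) = A ^ b * A' := by
    rw [pow_succ]
    field_simp
  have h3 : z ^ (m + 1) * g * (((m : ℂ) + 1) / z) = ((m : ℂ) + 1) * z ^ m * g := by
    rw [pow_succ]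
    field_simp
  have h4 : z ^ (m + 1) * g * (g' / g) = z ^ (m + 1) * g' := by
    field_simp
  linear_combination ((a : ℂ) + 1) * h1 + ((b : ℂ) + 1) * h2 - h3 - h4 +
    ((b : ℂ) + 1) * (A' / A) * hr - hd

theorem e1_pos (n : ℕ) : ∃ a, e1 n = a + 1 := by
  unfold e1
  split_ifs with h
  · exact ⟨0, rfl⟩
  · exact ⟨n - 1, by omega⟩

/-- the logarithmic derivative of `g h^(c+1)` -/
theorem logder (c : ℕ) (g h g' h' : ℂ) (hg : g ≠ 0) (hh : h ≠ 0) :
    (g' * h ^ (c + 1) + g * (((c : ℂ) + 1) * h ^ c * h')) / (g * h ^ (c + 1)) =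
      g' / g + ((c : ℂ) + 1) * (h' / h) := by
  rw [pow_succ]
  field_simp

end IDRLW

open IDRLW in
/-- Item DRLW. -/
theorem pr_DRLW : StDRLW := by
  intro n0 n1 n2 R m g A w h H z hz hz0 hA0 hw0 hh0
  have hrel := H.rel
  have hm := H.m0
  obtain ⟨a, ha⟩ := e1_pos n1
  obtain ⟨b, hb⟩ := e1_pos n2
  obtain ⟨c, hc⟩ := e1_pos n0
  obtain ⟨m', rfl⟩ : ∃ m', m = m' + 1 := ⟨m - 1, by omega⟩
  rw [ha, hb, hc] at hrel ⊢
  have hz' : Metric.ball (0 : ℂ) 1 ∈ 𝓝 z := Metric.isOpen_ball.mem_nhds hz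
  have h1 : HasDerivAt g (deriv g z) z := (H.dg.differentiableAt hz').hasDerivAt
  have h2 : HasDerivAt A (deriv A z) z := (H.dA.differentiableAt hz').hasDerivAt
  have h3 : HasDerivAt w (deriv w z) z := (H.dw.differentiableAt hz').hasDerivAt
  have h0 : HasDerivAt h (deriv h z) z := (H.dh.differentiableAt hz').hasDerivAt
  have hG : HasDerivAt (fun y => g y * h y ^ (c + 1))
      (deriv g z * h z ^ (c + 1) + g z * (((c : ℂ) + 1) * h z ^ c * deriv h z)) z := by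
    have h6 := h1.fun_mul (h0.fun_pow (c + 1))
    simpa using h6
  have h4 : HasDerivAt (fun y => y ^ (m' + 1) * (g y * h y ^ (c + 1)) - A y ^ (b + 1))
      (((m' : ℂ) + 1) * z ^ m' * (g z * h z ^ (c + 1)) + z ^ (m' + 1) *
        (deriv g z * h z ^ (c + 1) + g z * (((c : ℂ) + 1) * h z ^ c * deriv h z)) -
        ((b : ℂ) + 1) * A z ^ b * deriv A z) z := by
    have h5 := ((hasDerivAt_pow (m' + 1) z).fun_mul hG).fun_sub (h2.fun_pow (b + 1))
    simpa using h5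
  have h5 : HasDerivAt (fun y => w y ^ (a + 1)) (((a : ℂ) + 1) * w z ^ a * deriv w z) z := by
    have h6 := h3.fun_pow (a + 1)
    simpa using h6
  have h6 : (fun y => y ^ (m' + 1) * (g y * h y ^ (c + 1)) - A y ^ (b + 1)) =ᶠ[𝓝 z]
      fun y => w y ^ (a + 1) := by
    filter_upwards [hz'] with y hy
    exact hrel y hy
  have h7 := (h4.congr_of_eventuallyEq h6.symm).unique h5
  have hG0 : g z * h z ^ (c + 1) ≠ 0 := mul_ne_zero (H.g0 z hz) (pow_ne_zero _ hh0)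
  have h8 := alg a b m' z (g z * h z ^ (c + 1)) (A z) (w z) _ _ _ hz0 hG0 hw0 hA0 (hrel z hz) h7
  rw [logder c (g z) (h z) _ _ (H.g0 z hz) hh0] at h8
  push_cast
  rw [← add_assoc] at h8
  exact h8

end Pool.Agent.Work.MP_5e5ff1_ag.TH
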