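import Mathlib
import Pool.Agent.Work.MP_5e5ff1_ag.TH.StmtsW

set_option autoImplicit false

/-!
# MP_5e5ff1_ag, block TH, item FGDW: the theorem for diagonal `b`, all alternatives for the sizes
(part W, copy of I_FGD)
-/

open Matrix Filter Topology NumberField
open scoped Polynomial nonZeroDivisors

namespace Pool.Agent.Work.MP_5e5ff1_ag.TH

namespace IFGDW

/-- the supremum `spc` is attained -/
theorem spc_eq {r : ℕ} (hr : 0 < r) (p M : ℕ) (β : Fin r → ℤ) :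
    ∃ i : Fin r, spc p M β =
      Set.ncard {γ : ℤ | γ ∈ Set.range β ∧ (p : ℤ) ^ M.factorization p ∣ γ - β i} := by
  classical
  have hne : (Finset.univ : Finset (Fin r)).Nonempty := ⟨⟨0, hr⟩, Finset.mem_univ _⟩
  obtain ⟨i, _, hi⟩ := Finset.exists_mem_eq_sup (Finset.univ : Finset (Fin r)) hne
    (fun i => ((Finset.univ.image β).filter
      fun c => (p : ℤ) ^ (M.factorization p) ∣ c - β i).card)
  refine ⟨i, ?_⟩
  have h1 : {γ : ℤ | γ ∈ Set.range β ∧ (p : ℤ) ^ M.factorization p ∣ γ - β i} =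
      (((Finset.univ.image β).filter
        fun c => (p : ℤ) ^ (M.factorization p) ∣ c - β i : Finset ℤ) : Set ℤ) := by
    ext γ
    simp
  rw [h1, Set.ncard_coe_finset]
  exact hi

theorem nc_pos {r : ℕ} (hr : 0 < r) (M : ℕ) (β : Fin r → ℤ) : 1 ≤ nc M β := by
  classical
  refine Finset.card_pos.2 ?_
  exact ⟨_, Finset.mem_image_of_mem _ (Finset.mem_univ (⟨0, hr⟩ : Fin r))⟩

end IFGDW

open IFGDW

theorem pr_FGDW (hFINW : StFINW) (hEXU : StEXU) (hINFT : StINFT) (hGRN : StGRN) (hGRC : StGRC)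
    (hEXS : StEXS) : StFGDW := by
  intro K _ _ σ r M n0 n1 n2 β b c S T κ R L hD hb hsize hcost B D hB hDD
  have hbg : b * (1 : Matrix (Fin r) (Fin r) (𝓞 K)) =
      1 * Matrix.diagonal (fun i => ((β i : ℤ) : 𝓞 K)) := by
    rw [mul_one, one_mul, hb]
  obtain ⟨hexp, hncb⟩ := hEXS K r M β b 1 hD.hM (by rw [Matrix.det_one]; exact one_ne_zero) hbg
  have hmem : ∀ i, β i ∈ expSet b := fun i => by rw [hexp]; exact ⟨i, rfl⟩
  -- it is enough to have a solution with the growth conditions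
  suffices h : ∃ U : ℕ → Matrix (Fin r) (Fin r) K,
      IsU M β (Matrix.of fun i j => (c i j : K)) U ∧
      ∀ p ∈ T, ((M.factorization p : ℝ) + (spc p M β : ℝ) / ((p : ℝ) - 1) ≤ κ p ∨
        GrK p (κ p) U) by
    obtain ⟨U, hU, hG⟩ := h
    exact hFINW K σ r M n0 n1 n2 R L β b c S T κ U hD.hM hD.typ hD.lt hb
      (fun i j => hD.h0 (β i) (hmem i) (β j) (hmem j)) hD.h1 hD.h2 hU hD.hT
      (fun p hp => ⟨(hD.hκ p hp).1, (hD.hκ p hp).2, hG p hp⟩) hcost hD.rad hD.psi B D hB hDD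
  rcases Nat.eq_zero_or_pos r with hr | hr
  · subst hr
    refine ⟨fun _ => 1, ⟨rfl, fun n i => i.elim0⟩, fun p _ => Or.inr ?_⟩
    intro ε _
    exact ⟨0, fun n i => i.elim0⟩
  have hinf := hINFT M (nc M β) S T κ L hD.hM (nc_pos hr M β) hD.hκ hcost
  obtain ⟨U, hU⟩ := hEXU K r M β c S hD.hM hinf hD.rad (fun P h1 h2 h3 => by
    have := hD.psi P h1 h2 h3
    rwa [hb] at this)
  have hone : (1 : Matrix (Fin r) (Fin r) (𝓞 K)) * 1 =
      ((1 : ℕ) : 𝓞 K) • (1 : Matrix (Fin r) (Fin r) (𝓞 K)) := by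
    rw [Nat.cast_one, one_smul, one_mul]
  have hU1 : IsU (M * 1) (fun i => ((1 : ℕ) : ℤ) * β i)
      (Matrix.of fun i j => (((1 : Matrix (Fin r) (Fin r) (𝓞 K)) * c *
        (1 : Matrix (Fin r) (Fin r) (𝓞 K)) : Matrix (Fin r) (Fin r) (𝓞 K)) i j : K)) U := by
    have e1 : (fun i => ((1 : ℕ) : ℤ) * β i) = β := by
      funext i
      rw [Nat.cast_one, one_mul]
    rw [e1, mul_one M, one_mul c, mul_one c]
    exact hU
  refine ⟨U, hU, fun p hp => ?_⟩
  obtain ⟨hpp, hκ0⟩ := hD.hκ p hp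
  rcases hsize p hp with ⟨h1, h2⟩ | ⟨_, h2⟩ | ⟨V, hV1, hV2⟩
  · right
    rw [hncb] at h2
    exact (hGRN K r M 1 β b c 1 1 U hD.hM Nat.one_pos hone hone hbg hU1 p (κ p) hpp h1).1 h2
  · left
    obtain ⟨i, hi⟩ := spc_eq hr p M β
    rw [hi]
    have h3 := h2 (β i) (by rw [hexp]; exact ⟨i, rfl⟩)
    rw [hexp] at h3
    exact h3
  · right
    exact hGRC K r M 1 β b c 1 1 U V hD.hM Nat.one_pos hone hone hbg hU1 hV1 p (κ p) hpp hκ0 hV2

end Pool.Agent.Work.MP_5e5ff1_ag.TH
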