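import Mathlib
import Pool.Agent.Work.MP_5e5ff1_ag.TH.StmtsW

set_option autoImplicit false

/-!
# MP_5e5ff1_ag, block TH, part W, item FGGW (adaptation of I_FGG.lean)
-/

open Matrix Filter Topology NumberField
open scoped Polynomial nonZeroDivisors

namespace Pool.Agent.Work.MP_5e5ff1_ag.TH

namespace IFGGW

/-- the number of classes of the multiples -/
theorem nc_mul {ι : Type} [Fintype ι] [DecidableEq ι] (M N : ℕ) (β : ι → ℤ) (hN : 0 < N) :
    nc (M * N) (fun i => (N : ℤ) * β i) = nc M β := by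
  unfold nc
  have e : (fun i => ((N : ℤ) * β i) % ((M * N : ℕ) : ℤ)) =
      (fun x : ℤ => (N : ℤ) * x) ∘ fun i => β i % (M : ℤ) := by
    funext i
    have h : ((M * N : ℕ) : ℤ) = (N : ℤ) * M := by
      push_cast
      ring
    show ((N : ℤ) * β i) % ((M * N : ℕ) : ℤ) = (N : ℤ) * (β i % (M : ℤ))
    rw [h]
    exact Int.mul_emod_mul_of_pos _ _ (by exact_mod_cast hN)
  rw [e, ← Finset.image_image]
  refine Finset.card_image_of_injective _ fun a b hab => ?_
  exact mul_left_cancel₀ (by exact_mod_cast hN.ne' : (N : ℤ) ≠ 0) hab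

open Classical in
/-- the new sizes -/
noncomputable def kap (T : Finset ℕ) (κ : ℕ → ℝ) (s : ℕ) (S : Set ℕ) (p : ℕ) : ℝ :=
  if p ∈ T then κ p else if p ∈ S then (s : ℝ) / ((p : ℝ) - 1) else (s : ℝ) / ((p : ℝ) * (p - 1))

theorem kap_eq {T : Finset ℕ} {κ : ℕ → ℝ} {s : ℕ} {S : Set ℕ} {p : ℕ} (hp : p.Prime)
    (hT : p ∉ T) [Decidable (p ∈ S)] : kap T κ s S p =
      (s : ℝ) * (1 / ((p : ℝ) * (p - 1)) + if p ∈ S then 1 / (p : ℝ) else 0) := by
  have h1 : (0 : ℝ) < (p : ℝ) - 1 := by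
    have : (1 : ℝ) < p := by exact_mod_cast hp.one_lt
    linarith
  have h0 : (0 : ℝ) < (p : ℝ) := by exact_mod_cast hp.pos
  unfold kap
  rw [if_neg hT]
  by_cases h : p ∈ S
  · rw [if_pos h, if_pos h]
    field_simp
    ring
  · rw [if_neg h, if_neg h, add_zero, mul_one_div]

theorem kap_nonneg {T : Finset ℕ} {κ : ℕ → ℝ} {s : ℕ} {S : Set ℕ} {p : ℕ} (hp : p.Prime)
    (hκ : p ∈ T → 0 ≤ κ p) : 0 ≤ kap T κ s S p := by
  have h1 : (0 : ℝ) < (p : ℝ) - 1 := by
    have : (1 : ℝ) < p := by exact_mod_cast hp.one_lt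
    linarith
  have h0 : (0 : ℝ) < (p : ℝ) := by exact_mod_cast hp.pos
  unfold kap
  split_ifs with a1 a2
  · exact hκ a1
  · positivity
  · positivity

theorem cost {T : Finset ℕ} {κ : ℕ → ℝ} {s : ℕ} {S : Set ℕ} {L : ℝ} (P : Finset ℕ)
    (hP : ∀ p ∈ P, p.Prime) (hc : CostT T κ s S L) : CostT (T ∪ P) (kap T κ s S) s S L := by
  classical
  intro F hF
  have h1 := hc (F ∪ (P \ T)) (by
    intro p hp
    rcases Finset.mem_union.1 hp with hp | hp
    · exact ⟨(hF p hp).1, fun h => (hF p hp).2 (Finset.mem_union_left _ h)⟩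
    · exact ⟨hP p (Finset.mem_sdiff.1 hp).1, (Finset.mem_sdiff.1 hp).2⟩)
  have hd : Disjoint F (P \ T) := by
    rw [Finset.disjoint_left]
    intro p hp hp2
    exact (hF p hp).2 (Finset.mem_union_right _ (Finset.mem_sdiff.1 hp2).1)
  rw [Finset.sum_union hd, mul_add] at h1
  have h2 : ∑ p ∈ T ∪ P, kap T κ s S p * Real.log p = ∑ p ∈ T, κ p * Real.log p +
      (s : ℝ) * ∑ p ∈ P \ T, (1 / ((p : ℝ) * (p - 1)) + if p ∈ S then 1 / (p : ℝ) else 0) *
        Real.log p := by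
    have e : T ∪ P = T ∪ (P \ T) := (Finset.union_sdiff_self_eq_union).symm
    rw [e, Finset.sum_union Finset.disjoint_sdiff]
    congr 1
    · refine Finset.sum_congr rfl fun p hp => ?_
      unfold kap
      rw [if_pos hp]
    · rw [Finset.mul_sum]
      refine Finset.sum_congr rfl fun p hp => ?_
      rw [kap_eq (hP p (Finset.mem_sdiff.1 hp).1) (Finset.mem_sdiff.1 hp).2, mul_assoc]
  rw [h2]
  refine le_trans (le_of_eq ?_) h1
  ring

end IFGGW

open IFGGW in
theorem pr_FGGW (hFINW : StFINW) (hEXU : StEXU) (hINFT : StINFT) (hGRN : StGRN) (hGRC : StGRC)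
    (hCJP : StCJP) (hCHP : StCHP) (hHAC : StHAC) (hRSPG : StRSPG) (hEXS : StEXS) : StFGGW := by
  classical
  intro K _ _ σ r M N n0 n1 n2 β b c g h S T κ R L hD hN hhg hgh hbg hsz hcost B D hB hDD
  have hM' : 0 < M * N := Nat.mul_pos hD.hM hN
  have hN0 : (N : 𝓞 K) ≠ 0 := by exact_mod_cast hN.ne'
  have hgdet : g.det ≠ 0 := by
    intro h0
    have e1 : (h * g).det = (N : 𝓞 K) ^ r := by
      rw [hhg, Matrix.det_smul, Matrix.det_one, mul_one, Fintype.card_fin]
    rw [Matrix.det_mul, h0, mul_zero] at e1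
    exact pow_ne_zero r hN0 e1.symm
  have hexp : expSet b = Set.range β := (hEXS K r M β b g hD.hM hgdet hbg).1
  obtain ⟨β', hβ'⟩ : ∃ β' : Fin r → ℤ, β' = fun i => (N : ℤ) * β i := ⟨_, rfl⟩
  have hdiv : ∀ i j, ((M * N : ℕ) : ℤ) ∣ n0 * (β' i - β' j) := by
    intro i j
    obtain ⟨w, hw⟩ := hD.h0 (β i) (by rw [hexp]; exact ⟨i, rfl⟩) (β j) (by rw [hexp]; exact ⟨j, rfl⟩)
    refine ⟨w, ?_⟩
    rw [hβ']
    push_cast
    linear_combination (N : ℤ) * hw
  obtain ⟨b', hb'⟩ : ∃ b' : Matrix (Fin r) (Fin r) (𝓞 K),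
    b' = Matrix.diagonal (fun i => ((β' i : ℤ) : 𝓞 K)) := ⟨_, rfl⟩
  have hbb : h * b * g = b' := by
    rw [Matrix.mul_assoc, hbg, ← Matrix.mul_assoc, hhg, Matrix.smul_mul, Matrix.one_mul, hb', hβ']
    ext i j
    rw [Matrix.smul_apply, Matrix.diagonal_apply, Matrix.diagonal_apply]
    split_ifs
    · rw [smul_eq_mul]
      push_cast
      ring
    · rw [smul_zero]
  have hbc : b' + h * c * g = h * (b + c) * g := by
    rw [Matrix.mul_add, Matrix.add_mul, hbb]
  have hnc : nc (M * N) β' = nc M β := by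
    rw [hβ']
    exact nc_mul M N β hN
  -- the sizes
  obtain ⟨κ', hκ'⟩ : ∃ κ' : ℕ → ℝ, κ' = kap T κ (nc M β) S := ⟨_, rfl⟩
  obtain ⟨T', hT'⟩ : ∃ T' : Finset ℕ, T' = T ∪ N.primeFactors := ⟨_, rfl⟩
  have hcost' : CostT T' κ' (nc M β) S L := by
    rw [hT', hκ']
    exact cost _ (fun p hp => Nat.prime_of_mem_primeFactors hp) hcost
  have hTp : ∀ p ∈ T', p.Prime := by
    intro p hp
    rw [hT'] at hp
    rcases Finset.mem_union.1 hp with hp | hp
    · exact (hD.hκ p hp).1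
    · exact Nat.prime_of_mem_primeFactors hp
  have hκ0 : ∀ p ∈ T', 0 ≤ κ' p := by
    intro p hp
    rw [hκ']
    exact kap_nonneg (hTp p hp) fun h => (hD.hκ p h).2
  have hdvd : ∀ p : ℕ, p.Prime → p ∣ M * N → p ∈ T' := by
    intro p hp hpd
    rw [hT']
    rcases (Nat.Prime.dvd_mul hp).1 hpd with h1 | h1
    · exact Finset.mem_union_left _ (hD.hT p hp h1)
    · exact Finset.mem_union_right _ (Nat.mem_primeFactors.2 ⟨hp, h1, hN.ne'⟩)
  have hrad : ∀ p : ℕ, p.Prime → ¬ p ∣ M * N → p ∉ S → (Ideal.span {(p : 𝓞 K)}).IsRadical :=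
    fun p hp hpd hpS => hD.rad p hp (fun h1 => hpd (h1.mul_right N)) hpS
  have hpsi : ∀ P : Ideal (𝓞 K), P.IsMaximal → ¬ ringChar (𝓞 K ⧸ P) ∣ M * N →
      ringChar (𝓞 K ⧸ P) ∉ S → PCurvZero (M * N) b' (h * c * g) P := by
    intro P hP hpd hpS
    rw [← hbb]
    exact hCJP K r M N b c g h hhg hgh P hP (fun h1 => hpd (h1.mul_left M))
      (hD.psi P hP (fun h1 => hpd (h1.mul_right N)) hpS)
  -- the formal solution
  obtain ⟨U, hU⟩ : ∃ U : ℕ → Matrix (Fin r) (Fin r) K,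
      IsU (M * N) β' (Matrix.of fun i j => ((h * c * g) i j : K)) U := by
    by_cases hr : r = 0
    · subst hr
      refine ⟨fun _ => 1, ⟨rfl, fun n i => i.elim0⟩⟩
    · have hs : 1 ≤ nc M β := by
        unfold nc
        rw [Nat.one_le_iff_ne_zero, Ne, Finset.card_eq_zero, Finset.image_eq_empty]
        have : NeZero r := ⟨hr⟩
        exact Finset.univ_nonempty.ne_empty
      refine hEXU K r (M * N) β' (h * c * g) S hM'
        (hINFT (M * N) (nc M β) S T' κ' L hM' hs (fun p hp => ⟨hTp p hp, hκ0 p hp⟩) hcost')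
        hrad ?_
      rw [← hb']
      exact hpsi
  have hU' : IsU (M * N) (fun i => (N : ℤ) * β i)
      (Matrix.of fun i j => ((h * c * g) i j : K)) U := by
    rw [← hβ']
    exact hU
  -- the growth
  have hgr : ∀ p ∈ T', GrK p (κ' p) U := by
    intro p hp
    have hpp := hTp p hp
    by_cases hpT : p ∈ T
    · have e : κ' p = κ p := by
        rw [hκ']
        unfold kap
        rw [if_pos hpT]
      rw [e]
      rcases hsz p hpT with ⟨h1, h2⟩ | ⟨V, hV1, hV2⟩
      · exact (hGRN K r M N β b c g h U hD.hM hN hhg hgh hbg hU' p (κ p) hpp h1).1 h2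
      · exact hGRC K r M N β b c g h U V hD.hM hN hhg hgh hbg hU' hV1 p (κ p) hpp
          (hD.hκ p hpT).2 hV2
    · have hpM : ¬ p ∣ M := fun h1 => hpT (hD.hT p hpp h1)
      obtain ⟨g1, g2⟩ := hGRN K r M N β b c g h U hD.hM hN hhg hgh hbg hU' p (κ' p) hpp hpM
      by_cases hpS : p ∈ S
      · refine g1 (le_of_eq ?_)
        rw [hκ']
        unfold kap
        rw [if_neg hpT, if_pos hpS]
      · refine g2 ?_ (le_of_eq ?_)
        · refine hRSPG K r M b c p hpp (hD.rad p hpp hpM hpS) fun P hP hPp => ?_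
          refine hD.psi P hP ?_ ?_
          · rw [hPp]
            exact hpM
          · rw [hPp]
            exact hpS
        · rw [hκ']
          unfold kap
          rw [if_neg hpT, if_neg hpS]
  -- the matrices over the complex numbers
  obtain ⟨ψ, hψ⟩ : ∃ ψ : 𝓞 K →+* ℂ, ψ = σ.comp (algebraMap (𝓞 K) K) := ⟨_, rfl⟩
  have hψa : ∀ x : 𝓞 K, ψ x = σ (x : K) := by
    intro x
    rw [hψ]
    rfl
  have hM0 : (M : ℂ) ≠ 0 := by exact_mod_cast hD.hM.ne'
  have hNC : (N : ℂ) ≠ 0 := by exact_mod_cast hN.ne'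
  have key := hFINW K σ r (M * N) n0 n1 n2 R L β' b' (h * c * g) S T' κ' U hM' hD.typ hD.lt hb'
    hdiv ?_ ?_ hU hdvd (fun p hp => ⟨hTp p hp, hκ0 p hp, Or.inr (hgr p hp)⟩) (by rw [hnc]; exact hcost')
    hrad hpsi (Matrix.of fun i j => σ (b' i j : K) / ((M * N : ℕ) : ℂ))
    (Matrix.of fun i j => σ ((h * c * g) i j : K) / ((M * N : ℕ) : ℂ)) (fun i j => rfl)
    (fun i j => rfl)
  · -- conjugation
    have conj : ∀ (X : Matrix (Fin r) (Fin r) (𝓞 K)) (Y : Matrix (Fin r) (Fin r) ℂ),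
        (∀ i j, Y i j = σ (X i j : K) / M) →
        Y * ψ.mapMatrix g = ψ.mapMatrix g *
          Matrix.of (fun i j => σ ((h * X * g) i j : K) / ((M * N : ℕ) : ℂ)) := by
      intro X Y hY
      have e1 : Y = (M : ℂ)⁻¹ • ψ.mapMatrix X := by
        ext i j
        rw [hY, Matrix.smul_apply, RingHom.mapMatrix_apply, Matrix.map_apply, hψa, smul_eq_mul,
          div_eq_inv_mul]
      have e2 : Matrix.of (fun i j => σ ((h * X * g) i j : K) / ((M * N : ℕ) : ℂ)) =
          ((M : ℂ)⁻¹ * (N : ℂ)⁻¹) • ψ.mapMatrix (h * X * g) := by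
        ext i j
        rw [Matrix.of_apply, Matrix.smul_apply, RingHom.mapMatrix_apply, Matrix.map_apply, hψa,
          smul_eq_mul, Nat.cast_mul, div_eq_inv_mul, mul_inv]
      have e3 : ψ.mapMatrix g * ψ.mapMatrix (h * X * g) =
          (N : ℂ) • (ψ.mapMatrix X * ψ.mapMatrix g) := by
        rw [← map_mul, ← map_mul]
        have e4 : g * (h * X * g) = (N : 𝓞 K) • (X * g) := by
          rw [← Matrix.mul_assoc, ← Matrix.mul_assoc, hgh, Matrix.smul_mul, Matrix.one_mul,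
            Matrix.smul_mul]
        rw [e4]
        ext i j
        rw [RingHom.mapMatrix_apply, Matrix.map_apply, Matrix.smul_apply, smul_eq_mul, map_mul,
          map_natCast, Matrix.smul_apply, smul_eq_mul, RingHom.mapMatrix_apply, Matrix.map_apply]
      rw [e1, e2, Matrix.smul_mul, Matrix.mul_smul, e3, smul_smul, mul_assoc, inv_mul_cancel₀ hNC,
        mul_one]
    refine hHAC r B D _ _ (ψ.mapMatrix g) ?_ ?_ (conj c D hDD) key
    · intro h0
      have e1 : (ψ.mapMatrix g * ψ.mapMatrix h).det = (N : ℂ) ^ r := by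
        rw [← map_mul, hgh]
        have e2 : ψ.mapMatrix ((N : 𝓞 K) • (1 : Matrix (Fin r) (Fin r) (𝓞 K))) =
            (N : ℂ) • (1 : Matrix (Fin r) (Fin r) ℂ) := by
          ext i j
          rw [RingHom.mapMatrix_apply, Matrix.map_apply, Matrix.smul_apply, smul_eq_mul, map_mul,
            map_natCast, Matrix.smul_apply, smul_eq_mul, Matrix.one_apply, Matrix.one_apply]
          split_ifs <;> simp
        rw [e2, Matrix.det_smul, Matrix.det_one, mul_one, Fintype.card_fin]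
      rw [Matrix.det_mul, h0, zero_mul] at e1
      exact pow_ne_zero r hNC e1.symm
    · have := conj b B hB
      rw [hbb] at this
      exact this
  · intro γ hγ
    obtain ⟨γ', rfl, h2⟩ := hCHP K r N c g h hN hhg hgh γ hγ
    obtain ⟨w, hw⟩ := hD.h1 γ' h2
    refine ⟨w, ?_⟩
    push_cast
    linear_combination (N : ℤ) * hw
  · intro ζ hζ
    rw [hbc] at hζ
    obtain ⟨γ', rfl, h2⟩ := hCHP K r N (b + c) g h hN hhg hgh ζ hζ
    obtain ⟨w, hw⟩ := hD.h2 γ' h2
    refine ⟨w, ?_⟩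
    push_cast
    linear_combination (N : ℤ) * hw

end Pool.Agent.Work.MP_5e5ff1_ag.TH
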