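import Mathlib
import Pool.Agent.Work.MP_5e5ff1_ag.TH.StmtsW

set_option autoImplicit false

/-!
# MP_5e5ff1_ag, block TH, part V: more elliptic base points

Compositions with the Belyi maps of degrees 3, 4, 6, 8 of the inclusions of triangle groups
`(4,4,4) < (3,3,4)`, `(3,3,9) < (2,3,9)`, `(4,4,5) < (2,4,5)`, `(3,3,7) < (2,3,7)` (Singerman's list).
All identities have been checked with exact arithmetic.  Every docstring is the complete proof.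
Captain helper45.

In all items: `IsMap a b R m g A w` is given; `x = z^m g z`, `Y = (A z)^b`, `(w z)^a = x - Y`
(`rel`, `e1 k = k` for `k > 0`).  At `z = 0`: `x = 0`, so `(w 0)^a = - Y`, `Y = (A 0)^b ≠ 0`, and
`‖w 0‖^a = ‖A 0‖^b`.  If `x = 0` and `Y = 0` at the same point then `z = 0` (`g z ≠ 0`) and `A 0 = 0`
(`b > 0`), contradiction: so `x`, `Y` have no common zeros.
-/

open Filter Topology
open scoped Polynomial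

namespace Pool.Agent.Work.MP_5e5ff1_ag.TH

/-- QUAW, EASY-MEDIUM (compare I_TRIW).  Composition with `64 ψ (1-ψ)³ / (1+8ψ)³`.

`b = 3`, `Y = A³`.  `g' = -64 g`, `h' = w`, `A' = A (Y + 8x)`, `w' = i (8x² + 20xY - Y²)`
(`Complex.I`).  `rel` (`h'^(3a) = (x-Y)³`):
`-64 x (x-Y)³ - Y (Y+8x)³ = - (8x² + 20xY - Y²)²` (ring).  `cop`: `w = 0` gives `x = Y`, and then
`A' = 0` gives `A = 0` or `9 x = 0`, so `x = Y = 0`.  `rad`: `‖A' 0‖³ = ‖A 0‖^12`,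
`‖g' 0 (w 0)^(3a)‖ = 64 ‖g 0‖ ‖A 0‖^9`. -/
def StQUAW : Prop := ∀ (a : ℕ) (R : ℝ) (m : ℕ) (g A w : ℂ → ℂ), 0 < a → IsMap a 3 R m g A w →
  ∃ (g' A' w' h' : ℂ → ℂ), IsMapW (3 * a) 2 3 (64 * R) m g' A' w' h'

/-- TRJW, EASY-MEDIUM (compare I_M33).  Composition with `3 (ω - ω̄) ψ (ψ-1) / (ψ+ω)³`.

`b = a > 0`, `Y = A^a`; `ω = (-1 + √3 i)/2`, `ω̄ = -1 - ω`, `ω² + ω + 1 = 0`, `‖ω - ω̄‖ = √3` (as in
I_M33).  `g' = 3 (ω - ω̄) g`, `h' = w A` (so `h'^a = (x - Y) Y`), `A' = x + ω Y`, `w' = -(x + ω̄ Y)`.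
`rel`: `3 (ω - ω̄) x (x-Y) Y - (x+ωY)³ = - (x+ω̄Y)³`.  `cop`: `h' = 0` gives `A = 0` (`Y = 0`, and
`A' = 0` gives `x = 0`) or `w = 0` (`x = Y`, and `A' = 0` gives `(1+ω) Y = 0`).  `rad`:
`‖A' 0‖³ = ‖Y‖³`, `‖g' 0 (h' 0)^a‖ = 3 √3 ‖g 0‖ ‖Y‖²`. -/
def StTRJW : Prop := ∀ (a : ℕ) (R : ℝ) (m : ℕ) (g A w : ℂ → ℂ), 0 < a → IsMap a a R m g A w →
  ∃ (g' A' w' h' : ℂ → ℂ), IsMapW a 3 3 (3 * Real.sqrt 3 * R) m g' A' w' h'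

/-- HEXW, MEDIUM (compare I_TRIW).  Composition with the Belyi map of degree 6.

`a = b = 4`, `Y = A⁴`, `w⁴ = x - Y`, `i = Complex.I`.  `g' = -g`, `h' = (3+4i) x - 8i Y`,
`A' = √2 A w ((2+11i) x - 4Y)` (`√2⁴ = 4`),
`w' = i ((-38+41i) x³ + (-336-98i) x² Y + (336+48i) x Y² - 32i Y³)`.  `rel`:
`- x h'^5 - 4 Y (x-Y) ((2+11i) x - 4Y)^4 = w'^2`.
Proof of the identity for all complex `x`, `Y`: `linear_combination (..) * I_sq`, or step by step with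
`h'^2 = (-7+24i) x² + (64-48i) x Y - 64 Y²`,
`h'^4 = (-527-336i) x⁴ + (1408+3744i) x³ Y + (2688-9216i) x² Y² + (-8192+6144i) x Y³ + 4096 Y⁴`,
`((2+11i) x - 4Y)^2 = (-117+44i) x² + (-16-88i) x Y + 16 Y²`, and its square
`(11753-10296i) x⁴ + (11488+19184i) x³ Y + (-11232+4224i) x² Y² + (-512-2816i) x Y³ + 256 Y⁴`.
`cop`: `A' = 0` and `h' = 0`: `A = 0` gives `Y = 0`, `x = 0`; `w = 0` gives `x = Y`, `(3-4i) Y = 0`;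
`(2+11i) x = 4Y` and `(3+4i) x = 8i Y` give
`(2+11i) 8i Y = (3+4i) 4 Y`, i.e. `(-100+0i) Y = 0` (`(2+11i) 8i - 4 (3+4i) = -100`).  `h' 0 = -8i Y`,
`A' 0 = √2 A w (-4Y)`.  `rad`: `‖A' 0‖⁴ = 4 ‖Y‖ ‖Y‖ 256 ‖Y‖⁴`, `‖g' 0 (h' 0)^5‖ = ‖g 0‖ 8⁵ ‖Y‖⁵`,
quotient `32 ‖g 0‖/‖Y‖`. -/
def StHEXW : Prop := ∀ (R : ℝ) (m : ℕ) (g A w : ℂ → ℂ), IsMap 4 4 R m g A w →
  ∃ (g' A' w' h' : ℂ → ℂ), IsMapW 5 2 4 (32 * R) m g' A' w' h'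

/-- OCTW, MEDIUM (compare I_TRIW).  Composition with the Belyi map of degree 8.

`a = b = 3`, `Y = A³`, `w³ = x - Y`; `r = √3 i`, `r² = -3`.  `g' = 64 g`,
`h' = -(13+3r)/2 x + 3r Y`, `D = (844-348r) x² + (27+696r) x Y - 27 Y²`, `A' = A w D`,
`w' = (-7052+996r) x⁴ + (7138-35442r) x³ Y + (20898+35523r) x² Y² + (-13932-162r) x Y³ + 81r Y⁴`.
`rel`: `64 x h'^7 - Y (x-Y) D³ = w'^2`.
Proof of the identity for all complex `x`, `Y` step by step with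
`h'^2 = (71+39r)/2 x² + (27-39r) x Y - 27 Y²`,
`h'^3 = (-143-180r) x³ + (-1053+639r)/2 x² Y + (1053+243r)/2 x Y² - 81r Y³`,
`h'^4 = (239+2769r)/2 x⁴ + (6480-1716r) x³ Y + (-5751-3159r) x² Y² + (-1458+2106r) x Y³ + 729 Y⁴`,
`h'^7 = h'^3 h'^4 = (1461083-438987r)/2 x⁷ + (-3243240-1611771r) x⁶ Y
 + (-6184269+10408419r)/2 x⁵ Y² + (23550345-677565r)/2 x⁴ Y³ + (-3648645-4592700r) x³ Y⁴
 + (-5373459+3260817r)/2 x² Y⁵ + (1791153+413343r)/2 x Y⁶ - 59049r Y⁷`,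
`D² = (349024-587424r) x⁴ + (1498824+1156056r) x³ Y + (-1498095+56376r) x² Y²
 + (-1458-37584r) x Y³ + 729 Y⁴`,
`D³ = (-318694400-617246208r) x⁶ + (3707894880+681180768r) x⁵ Y
 + (-3588335964+1659173868r) x⁴ Y² + (-239098149-1103578992r) x³ Y³
 + (119499867-3805380r) x² Y⁴ + (59049+1522152r) x Y⁵ - 19683 Y⁶`
(each line is `linear_combination (explicit polynomial) * (r² + 3 = 0)`).
`cop`: `A' = 0` and `h' = 0`: `A = 0` gives `Y = 0`, so `(13+3r) x = 0`, `x = 0`; `w = 0` gives `x = Y`,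
`(-13+3r) Y = 0`; `D = 0`: `h' = 0` means `x = q Y`, `q = (27+39r)/98`, and
`D = (844-348r) q² + (27+696r) q - 27 = (-1917+1053r)/2` times `Y²`, so `Y = 0`.
(`13+3r ≠ 0` etc.: `(13+3r)(13-3r) = 196`.)  `h' 0 = 3r Y`, `‖3r‖ = 3√3`.  `rad`:
`‖A' 0‖³ = ‖Y‖ ‖Y‖ 27³ ‖Y‖⁶`, `‖g' 0 (h' 0)^7‖ = 64 ‖g 0‖ (3√3)^7 ‖Y‖⁷`, quotient
`64 (3√3)^7/27³ ‖g 0‖/‖Y‖ = 192 √3 ‖g 0‖/‖Y‖`. -/
def StOCTW : Prop := ∀ (R : ℝ) (m : ℕ) (g A w : ℂ → ℂ), IsMap 3 3 R m g A w →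
  ∃ (g' A' w' h' : ℂ → ℂ), IsMapW 7 2 3 (192 * Real.sqrt 3 * R) m g' A' w' h'

end Pool.Agent.Work.MP_5e5ff1_ag.TH
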