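import Mathlib
import Pool.Agent.Work.MP_5e5ff1_ag.TH.StmtsV

set_option autoImplicit false

/-!
# Item HEXW of the block TH, part V: composition with a Belyi map of degree six
-/

open Filter Topology

namespace Pool.Agent.Work.MP_5e5ff1_ag.TH

namespace IHEXW

/-- the third function -/
def hh (x Y i : ℂ) : ℂ := (3 + 4 * i) * x - 8 * i * Y

/-- the linear form in the second function -/
def dd (x Y i : ℂ) : ℂ := (2 + 11 * i) * x - 4 * Y

/-- the cubic form -/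
def ww (x Y i : ℂ) : ℂ := i * ((-38 + 41 * i) * x ^ 3 + (-336 - 98 * i) * x ^ 2 * Y +
  (336 + 48 * i) * x * Y ^ 2 - 32 * i * Y ^ 3)

theorem hh2 (x Y i : ℂ) (hi : i ^ 2 = -1) : hh x Y i ^ 2 =
    (-7 + 24 * i) * x ^ 2 + (64 - 48 * i) * x * Y - 64 * Y ^ 2 := by
  unfold hh
  linear_combination (16 * x ^ 2 - 64 * x * Y + 64 * Y ^ 2) * hi

theorem hh4 (x Y i : ℂ) (hi : i ^ 2 = -1) : hh x Y i ^ 4 =
    (-527 - 336 * i) * x ^ 4 + (1408 + 3744 * i) * x ^ 3 * Y +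
      (2688 - 9216 * i) * x ^ 2 * Y ^ 2 + (-8192 + 6144 * i) * x * Y ^ 3 + 4096 * Y ^ 4 := by
  have h : hh x Y i ^ 4 = (hh x Y i ^ 2) ^ 2 := by ring
  rw [h, hh2 x Y i hi]
  linear_combination (576 * x ^ 4 - 2304 * x ^ 3 * Y + 2304 * x ^ 2 * Y ^ 2) * hi

theorem dd2 (x Y i : ℂ) (hi : i ^ 2 = -1) : dd x Y i ^ 2 =
    (-117 + 44 * i) * x ^ 2 + (-16 - 88 * i) * x * Y + 16 * Y ^ 2 := by
  unfold dd
  linear_combination (121 * x ^ 2) * hi

theorem dd4 (x Y i : ℂ) (hi : i ^ 2 = -1) : dd x Y i ^ 4 =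
    (11753 - 10296 * i) * x ^ 4 + (11488 + 19184 * i) * x ^ 3 * Y +
      (-11232 + 4224 * i) * x ^ 2 * Y ^ 2 + (-512 - 2816 * i) * x * Y ^ 3 + 256 * Y ^ 4 := by
  have h : dd x Y i ^ 4 = (dd x Y i ^ 2) ^ 2 := by ring
  rw [h, dd2 x Y i hi]
  linear_combination (1936 * x ^ 4 - 7744 * x ^ 3 * Y + 7744 * x ^ 2 * Y ^ 2) * hi

theorem key (x Y i : ℂ) (hi : i ^ 2 = -1) :
    -x * hh x Y i ^ 5 - 4 * Y * (x - Y) * dd x Y i ^ 4 = ww x Y i ^ 2 := by
  have h : hh x Y i ^ 5 = hh x Y i ^ 4 * hh x Y i := by ring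
  rw [h, hh4 x Y i hi, dd4 x Y i hi]
  unfold hh ww
  linear_combination ((-1681) * i ^ 2 * x ^ 6 + (8036) * i ^ 2 * x ^ 5 * Y +
    (-13540) * i ^ 2 * x ^ 4 * Y ^ 2 + (12032) * i ^ 2 * x ^ 3 * Y ^ 3 +
    (-8576) * i ^ 2 * x ^ 2 * Y ^ 4 + (3072) * i ^ 2 * x * Y ^ 5 + (-1024) * i ^ 2 * Y ^ 6 +
    (3116) * i * x ^ 6 + (20104) * i * x ^ 5 * Y + (-89760) * i * x ^ 4 * Y ^ 2 +
    (95680) * i * x ^ 3 * Y ^ 3 + (-53760) * i * x ^ 2 * Y ^ 4 + (21504) * i * x * Y ^ 5 +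
    (1581) * x ^ 6 + (-51236) * x ^ 5 * Y + (-7004) * x ^ 4 * Y ^ 2 +
    (115456) * x ^ 3 * Y ^ 3 + (-55168) * x ^ 2 * Y ^ 4 + (-3072) * x * Y ^ 5 +
    (1024) * Y ^ 6) * hi

end IHEXW

open IHEXW in
theorem pr_HEXW : StHEXW := by
  intro R m g A w hm
  have e4 : e1 4 = 4 := rfl
  have e5 : e1 5 = 5 := rfl
  have e2 : e1 2 = 2 := rfl
  have hI : Complex.I ^ 2 = -1 := Complex.I_sq
  have hid : DifferentiableOn ℂ (fun z : ℂ => z) (Metric.ball 0 1) := differentiableOn_id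
  have hrel := hm.rel
  rw [e4] at hrel
  have hx : DifferentiableOn ℂ (fun z : ℂ => z ^ m * g z) (Metric.ball 0 1) :=
    (hid.pow m).mul hm.dg
  have hy : DifferentiableOn ℂ (fun z : ℂ => A z ^ 4) (Metric.ball 0 1) := hm.dA.pow _
  have hz0 : (0 : ℂ) ∈ Metric.ball (0 : ℂ) 1 := Metric.mem_ball_self one_pos
  have hx0 : (0 : ℂ) ^ m * g 0 = 0 := by
    rw [zero_pow hm.m0.ne', zero_mul]
  have hrel0 : w 0 ^ 4 = -(A 0 ^ 4) := by
    have := hrel 0 hz0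
    rw [hx0, zero_sub] at this
    exact this.symm
  have hA0 : A 0 ≠ 0 := hm.A00
  have hw0 : w 0 ≠ 0 := by
    intro h
    rw [h, zero_pow (by norm_num)] at hrel0
    exact (neg_ne_zero.2 (pow_ne_zero 4 hA0)) hrel0.symm
  obtain ⟨s, hs⟩ : ∃ s : ℂ, s = ((Real.sqrt 2 : ℝ) : ℂ) := ⟨_, rfl⟩
  have hs4 : s ^ 4 = 4 := by
    have h : (Real.sqrt 2) ^ 4 = 4 := by
      have h1 : (Real.sqrt 2) ^ 2 = 2 := Real.sq_sqrt (by norm_num)
      have h2 : (Real.sqrt 2) ^ 4 = ((Real.sqrt 2) ^ 2) ^ 2 := by ring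
      rw [h2, h1]
      norm_num
    rw [hs]
    exact_mod_cast h
  have hs0 : s ≠ 0 := by
    intro h
    rw [h] at hs4
    norm_num at hs4
  have hsn : ‖s‖ ^ 4 = 4 := by
    rw [← norm_pow, hs4]
    norm_num
  -- no common zeros
  have hcom : ∀ z ∈ Metric.ball (0 : ℂ) 1, z ^ m * g z = 0 → A z ^ 4 ≠ 0 := by
    intro z hz h1 h2
    have hz1 : z = 0 := by
      rcases mul_eq_zero.1 h1 with h3 | h3
      · exact pow_eq_zero_iff (hm.m0.ne') |>.1 h3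
      · exact absurd h3 (hm.g0 z hz)
    have hA1 : A z = 0 := pow_eq_zero_iff (by norm_num) |>.1 h2
    rw [hz1] at hA1
    exact hA0 hA1
  refine ⟨fun z => -g z, fun z => s * (A z * (w z * dd (z ^ m * g z) (A z ^ 4) Complex.I)),
    fun z => ww (z ^ m * g z) (A z ^ 4) Complex.I,
    fun z => hh (z ^ m * g z) (A z ^ 4) Complex.I, ?_⟩
  refine ⟨?_, ?_, ?_, ?_, hm.m0, ?_, ?_, ?_, ?_, ?_, ?_, ?_, ?_, ?_⟩
  · exact hm.dg.neg
  · unfold dd
    exact (hm.dA.mul (hm.dw.mul ((hx.const_mul _).sub (hy.const_mul 4)))).const_mul s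
  · unfold ww
    have hx' : DifferentiableOn ℂ (fun z : ℂ => z ^ m * g z) (Metric.ball 0 1) := hx
    fun_prop
  · unfold hh
    exact (hx.const_mul _).sub (hy.const_mul _)
  · intro z hz
    exact neg_ne_zero.2 (hm.g0 z hz)
  · intro z hz
    have h := hrel z hz
    rw [e5, e2, e4]
    have h1 := key (z ^ m * g z) (A z ^ 4) Complex.I hI
    show z ^ m * (-g z * hh (z ^ m * g z) (A z ^ 4) Complex.I ^ 5) -
      (s * (A z * (w z * dd (z ^ m * g z) (A z ^ 4) Complex.I))) ^ 4 =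
      ww (z ^ m * g z) (A z ^ 4) Complex.I ^ 2
    rw [← h1]
    generalize hh (z ^ m * g z) (A z ^ 4) Complex.I = H
    generalize dd (z ^ m * g z) (A z ^ 4) Complex.I = Dd
    rw [mul_pow, mul_pow, mul_pow, hs4, ← h]
    ring
  · intro h
    exact absurd h (by norm_num)
  · intro h
    exact absurd h (by norm_num)
  · intro h
    exact absurd h (by norm_num)
  · intro z hz hAz hhz
    have h := hrel z hz
    have hn := hcom z hz
    generalize z ^ m * g z = x at h hAz hhz hn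
    have hhz' : (3 + 4 * Complex.I) * x = 8 * Complex.I * A z ^ 4 := sub_eq_zero.1 hhz
    have hI0 : Complex.I ≠ 0 := Complex.I_ne_zero
    have h34 : (3 + 4 * Complex.I) ≠ 0 := by
      intro h0
      have h2 : (3 + 4 * Complex.I) * (3 - 4 * Complex.I) = 25 := by
        linear_combination (-16) * hI
      rw [h0, zero_mul] at h2
      norm_num at h2
    have hx1 : x = 0 → False := by
      intro h0
      rw [h0, mul_zero] at hhz'
      have h3 : A z ^ 4 = 0 := by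
        rcases mul_eq_zero.1 hhz'.symm with h3 | h3
        · exact absurd h3 (mul_ne_zero (by norm_num) hI0)
        · exact h3
      exact hn h0 h3
    rcases mul_eq_zero.1 hAz with h1 | h1
    · exact hs0 h1
    rcases mul_eq_zero.1 h1 with h1 | h1
    · apply hx1
      rw [h1, zero_pow (by norm_num), mul_zero] at hhz'
      exact (mul_eq_zero.1 hhz').resolve_left h34
    rcases mul_eq_zero.1 h1 with h1 | h1
    · rw [h1, zero_pow (by norm_num)] at h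
      have h2 : x = A z ^ 4 := sub_eq_zero.1 h
      rw [← h2] at hhz'
      apply hx1
      have h3 : (3 - 4 * Complex.I) * x = 0 := by linear_combination hhz'
      rcases mul_eq_zero.1 h3 with h4 | h4
      · exfalso
        have h5 : (3 + 4 * Complex.I) * (3 - 4 * Complex.I) = 25 := by
          linear_combination (-16) * hI
        rw [h4, mul_zero] at h5
        norm_num at h5
      · exact h4
    · have h2 : (2 + 11 * Complex.I) * x = 4 * A z ^ 4 := sub_eq_zero.1 h1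
      have h3 : (100 : ℂ) * A z ^ 4 = 0 := by
        linear_combination (-(3 + 4 * Complex.I)) * h2 + (2 + 11 * Complex.I) * hhz' +
          (88 * A z ^ 4) * hI
      have h4 : A z ^ 4 = 0 := (mul_eq_zero.1 h3).resolve_left (by norm_num)
      apply hx1
      rw [h4, mul_zero] at hhz'
      exact (mul_eq_zero.1 hhz').resolve_left h34
  · show s * (A 0 * (w 0 * dd ((0 : ℂ) ^ m * g 0) (A 0 ^ 4) Complex.I)) ≠ 0
    rw [hx0]
    unfold dd
    rw [mul_zero, zero_sub]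
    exact mul_ne_zero hs0 (mul_ne_zero hA0 (mul_ne_zero hw0 (neg_ne_zero.2
      (mul_ne_zero (by norm_num) (pow_ne_zero _ hA0)))))
  · show hh ((0 : ℂ) ^ m * g 0) (A 0 ^ 4) Complex.I ≠ 0
    rw [hx0]
    unfold hh
    rw [mul_zero, zero_sub]
    exact neg_ne_zero.2 (mul_ne_zero (mul_ne_zero (by norm_num) Complex.I_ne_zero)
      (pow_ne_zero _ hA0))
  · have hr := hm.rad
    rw [e4] at hr
    rw [e5, e4]
    show 32 * R ≤ ‖-g 0 * hh ((0 : ℂ) ^ m * g 0) (A 0 ^ 4) Complex.I ^ 5‖ /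
      ‖s * (A 0 * (w 0 * dd ((0 : ℂ) ^ m * g 0) (A 0 ^ 4) Complex.I))‖ ^ 4
    rw [hx0]
    have hwn : ‖w 0‖ ^ 4 = ‖A 0‖ ^ 4 := by
      rw [← norm_pow, hrel0, norm_neg, norm_pow]
    have hn : 0 < ‖A 0‖ := norm_pos_iff.2 hA0
    have hp : 0 < ‖A 0‖ ^ 4 := pow_pos hn _
    have h1 : ‖-g 0 * hh 0 (A 0 ^ 4) Complex.I ^ 5‖ = ‖g 0‖ * (8 * ‖A 0‖ ^ 4) ^ 5 := by
      unfold hh
      rw [mul_zero, zero_sub, norm_mul, norm_neg, norm_pow, norm_neg, norm_mul, norm_mul,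
        Complex.norm_I, norm_pow, mul_one]
      norm_num
    have h2 : ‖s * (A 0 * (w 0 * dd 0 (A 0 ^ 4) Complex.I))‖ ^ 4 =
        4 * ‖A 0‖ ^ 4 * ‖A 0‖ ^ 4 * (4 * ‖A 0‖ ^ 4) ^ 4 := by
      unfold dd
      rw [mul_zero, zero_sub, norm_mul, norm_mul, norm_mul, norm_neg, norm_mul, norm_pow]
      have h4 : ‖(4 : ℂ)‖ = 4 := by norm_num
      rw [h4, mul_pow, mul_pow, mul_pow, hsn, hwn]
      ring
    rw [h1, h2]
    have h3 : ‖g 0‖ * (8 * ‖A 0‖ ^ 4) ^ 5 / (4 * ‖A 0‖ ^ 4 * ‖A 0‖ ^ 4 * (4 * ‖A 0‖ ^ 4) ^ 4) =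
        32 * (‖g 0‖ / ‖A 0‖ ^ 4) := by
      field_simp
      ring
    rw [h3]
    exact mul_le_mul_of_nonneg_left hr (by norm_num)

end Pool.Agent.Work.MP_5e5ff1_ag.TH
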