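import Mathlib
import Pool.Agent.Work.MP_5e5ff1_ag.TH.StmtsW

set_option autoImplicit false

/-!
# Item INCW of the block TH: the maps without zeros outside of 0
-/

open Matrix Filter Topology NumberField
open scoped Polynomial

namespace Pool.Agent.Work.MP_5e5ff1_ag.TH

theorem pr_INCW : StINCW := by
  intro n1 n2 R m g A w hM
  refine ⟨hM.dg, hM.dA, hM.dw, differentiableOn_const 1, hM.m0, hM.g0, ?_, hM.nA, hM.nw,
    fun _ z _ => one_ne_zero, fun z _ _ => one_ne_zero, hM.A00, one_ne_zero, ?_⟩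
  · intro z hz
    rw [one_pow, mul_one]
    exact hM.rel z hz
  · show R ≤ ‖g 0 * (1 : ℂ) ^ e1 0‖ / ‖A 0‖ ^ e1 n2
    rw [one_pow, mul_one]
    exact hM.rad

end Pool.Agent.Work.MP_5e5ff1_ag.TH
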