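import Mathlib
import Pool.Agent.Work.MP_5e5ff1_ag.TH.StmtsW

set_option autoImplicit false

/-!
# MP_5e5ff1_ag, block TH, item LOC1W: local solutions at the zeros of `w`
-/

open Matrix Filter Topology
open scoped Polynomial

namespace Pool.Agent.Work.MP_5e5ff1_ag.TH

namespace ILOC1W

/-- logarithmic derivative `p` at `z` -/
def LD (f : ℂ → ℂ) (z p : ℂ) : Prop := HasDerivAt f (f z * p) z

theorem LD.mul {f g : ℂ → ℂ} {z p q : ℂ} (hf : LD f z p) (hg : LD g z q) :
    LD (fun y => f y * g y) z (p + q) := by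
  unfold LD at *
  refine (HasDerivAt.fun_mul hf hg).congr_deriv ?_
  ring

theorem LD.zpow {f : ℂ → ℂ} {z p : ℂ} (hf : LD f z p) (h0 : f z ≠ 0) (a : ℤ) :
    LD (fun y => f y ^ a) z (a * p) := by
  unfold LD at *
  have h1 := hasDerivAt_zpow a (f z) (Or.inl h0)
  have h2 := HasDerivAt.comp z (h₂ := fun x : ℂ => x ^ a) (h := f) h1 hf
  refine h2.congr_deriv ?_
  rw [zpow_sub_one₀ h0]
  field_simp

theorem LD.pow {f : ℂ → ℂ} {z p : ℂ} (hf : LD f z p) (h0 : f z ≠ 0) (n : ℕ) :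
    LD (fun y => f y ^ n) z (n * p) := by
  have h := hf.zpow h0 (n : ℤ)
  simp only [zpow_natCast] at h
  exact_mod_cast h

theorem LD.of {f : ℂ → ℂ} {z : ℂ} (hf : DifferentiableAt ℂ f z) (h0 : f z ≠ 0) :
    LD f z (deriv f z / f z) := by
  unfold LD
  refine hf.hasDerivAt.congr_deriv ?_
  field_simp

theorem LD.eq {f : ℂ → ℂ} {z p : ℂ} (hf : LD f z p) : deriv f z = f z * p :=
  HasDerivAt.deriv hf

theorem LD_id_pow {z : ℂ} (hz : z ≠ 0) (m : ℕ) : LD (fun y => y ^ m) z ((m : ℂ) / z) := by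
  have h : LD (fun y : ℂ => y) z (1 / z) := by
    unfold LD
    refine (hasDerivAt_id z).congr_deriv ?_
    field_simp
  have h2 := h.pow (by simpa using hz) m
  have e : (m : ℂ) * (1 / z) = (m : ℂ) / z := by ring
  rw [e] at h2
  exact h2

/-- boundedness of the coefficients -/
theorem A1_bd {ι : Type} [Fintype ι] [DecidableEq ι] (β : ι → ℤ) (C : Matrix ι ι ℤ) :
    ∃ c : ℤ, ∀ m i j, |A1 β C m i j| ≤ c := by
  refine ⟨(∑ i, ∑ j, |C i j|) + ∑ i, |β i|, ?_⟩
  intro m i j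
  have hC : |C i j| ≤ ∑ i, ∑ j, |C i j| := by
    refine (Finset.single_le_sum (f := fun j => |C i j|) (fun _ _ => abs_nonneg _)
      (Finset.mem_univ j)).trans ?_
    exact Finset.single_le_sum (f := fun i => ∑ j, |C i j|)
      (fun _ _ => Finset.sum_nonneg fun _ _ => abs_nonneg _) (Finset.mem_univ i)
  have hβ : |β i| ≤ ∑ i, |β i| :=
    Finset.single_le_sum (f := fun i => |β i|) (fun _ _ => abs_nonneg _) (Finset.mem_univ i)
  have hC0 : 0 ≤ ∑ i, ∑ j, |C i j| := (abs_nonneg _).trans hC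
  have hβ0 : 0 ≤ ∑ i, |β i| := (abs_nonneg _).trans hβ
  unfold A1
  by_cases hm : m = 0
  · rw [if_pos hm]
    simp only [Matrix.neg_apply, abs_neg]
    linarith
  · rw [if_neg hm]
    simp only [Matrix.smul_apply, smul_eq_mul, db, Matrix.diagonal_apply]
    by_cases hij : i = j
    · rw [if_pos hij, abs_mul, abs_pow, abs_neg, abs_one, one_pow, one_mul]
      simp only [Int.cast_id]
      linarith
    · rw [if_neg hij, mul_zero, abs_zero]
      linarith

/-- the algebraic identity -/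
theorem alg {M n1 e γ lam K β x X Φ D W A' G S dG : ℂ} (hM : M ≠ 0) (hx1 : 1 + x ≠ 0)
    (hX : X = n1 * W - e * A') (hΦ : Φ = D - e * A')
    (e1 : x * X = (1 + x) * Φ)
    (e2 : M * x * dG + (-S - β * (x / (1 + x)) * G) = γ * G) :
    dG * (x * X) + G * ((K - n1 * γ / M) * W + ((K * M + e * γ) * A' + (-lam) * D) / M) =
      D * M⁻¹ * ((β - lam) * G) + W * (n1 * M⁻¹ * S + K * G) +
        A' * (K * G - e * M⁻¹ * (β * G + S)) := by
  have e3 : M * x * dG = γ * G + S + β * (x / (1 + x)) * G := by linear_combination e2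
  have e4 : X * (x / (1 + x)) = Φ := by
    rw [← mul_div_assoc, mul_comm X x, e1]
    field_simp
  have e5 : dG * (x * X) = M⁻¹ * (X * (γ * G + S) + β * Φ * G) := by
    have : dG * (x * X) = M⁻¹ * (X * (M * x * dG)) := by
      field_simp
    rw [this, e3, ← e4]
    ring
  rw [e5, hX, hΦ]
  field_simp
  ring

end ILOC1W

open ILOC1W in
theorem pr_LOC1W (hGAN : StGAN) (hCLF : StCLF) (hROOT : StROOT) (hDRL : StDRLW)
    (hWNZ : StWNZW) : StLOC1W := by
  intro ι _ _ M n0 n1 n2 β C γ G hM hG hA hdiv R m g A w h hm K hK lam z0 hz0 hw0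
  have hn1 : n1 ≠ 0 := fun h => hm.nw h z0 hz0 hw0
  have he1 : e1 n1 = n1 := by simp [e1, hn1]
  have he2 : e1 n2 ≠ 0 := by
    unfold e1
    split_ifs <;> omega
  have he0 : e1 n0 ≠ 0 := by
    unfold e1
    split_ifs <;> omega
  set e : ℕ := e1 n2 with hedef
  set k0 : ℕ := e1 n0 with hk0def
  have hMC : (M : ℂ) ≠ 0 := by exact_mod_cast hM.ne'
  have hz00 : z0 ≠ 0 := by
    rintro rfl
    exact (hWNZ n0 n1 n2 R m g A w h hm).1 hw0
  have hA0 : A z0 ≠ 0 := by
    intro h0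
    have h1 := hm.rel z0 hz0
    rw [h0, hw0, he1, zero_pow hn1, zero_pow (by rw [← hedef]; exact he2), sub_zero] at h1
    exact mul_ne_zero (pow_ne_zero _ hz00) (mul_ne_zero (hm.g0 z0 hz0)
      (pow_ne_zero _ (hm.cop z0 hz0 h0))) h1
  have hh0 : h z0 ≠ 0 := by
    intro h0
    have h1 := hm.rel z0 hz0
    rw [h0, hw0, he1, zero_pow hn1, zero_pow (by rw [← hk0def]; exact he0), mul_zero, mul_zero,
      zero_sub, neg_eq_zero] at h1
    exact hA0 (pow_eq_zero_iff (by rw [← hedef]; exact he2) |>.1 h1)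
  obtain ⟨ρg, G', hρg, hρg1, hgd, hgdet, hgeq⟩ := hGAN ι M (A1 β C) γ G (A1_bd β C) hG hA
  have hwat : ∀ z ∈ Metric.ball (0 : ℂ) 1, DifferentiableAt ℂ w z := fun z hz =>
    hm.dw.differentiableAt (Metric.isOpen_ball.mem_nhds hz)
  have hAat : ∀ z ∈ Metric.ball (0 : ℂ) 1, DifferentiableAt ℂ A z := fun z hz =>
    hm.dA.differentiableAt (Metric.isOpen_ball.mem_nhds hz)
  have hgat : ∀ z ∈ Metric.ball (0 : ℂ) 1, DifferentiableAt ℂ g z := fun z hz =>
    hm.dg.differentiableAt (Metric.isOpen_ball.mem_nhds hz)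
  have hhat : ∀ z ∈ Metric.ball (0 : ℂ) 1, DifferentiableAt ℂ h z := fun z hz =>
    hm.dh.differentiableAt (Metric.isOpen_ball.mem_nhds hz)
  -- the local coordinate
  set x : ℂ → ℂ := fun z => w z ^ n1 * A z ^ (-(e : ℤ)) with hxdef
  have hxat : ∀ z ∈ Metric.ball (0 : ℂ) 1, A z ≠ 0 → DifferentiableAt ℂ x z := by
    intro z hz hAz
    refine ((hwat z hz).fun_pow n1).mul ?_
    have h1 := (hasDerivAt_zpow (-(e : ℤ)) (A z) (Or.inl hAz)).differentiableAt
    exact DifferentiableAt.comp z (g := fun x : ℂ => x ^ (-(e : ℤ))) (f := A) h1 (hAat z hz)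
  have hx0 : x z0 = 0 := by simp [hxdef, hw0, hn1]
  have hev : ∀ᶠ z in 𝓝 z0, z ∈ Metric.ball (0 : ℂ) 1 ∧ z ≠ 0 ∧ A z ≠ 0 ∧
      x z ∈ Metric.ball (0 : ℂ) ρg ∧ h z ≠ 0 := by
    have ha : ∀ᶠ z in 𝓝 z0, z ∈ Metric.ball (0 : ℂ) 1 := Metric.isOpen_ball.mem_nhds hz0
    have hb : ∀ᶠ z in 𝓝 z0, z ≠ 0 := isOpen_ne.mem_nhds hz00
    have hc : ∀ᶠ z in 𝓝 z0, A z ≠ 0 :=
      (hAat z0 hz0).continuousAt.eventually (isOpen_ne.mem_nhds hA0)
    have hd : ∀ᶠ z in 𝓝 z0, x z ∈ Metric.ball (0 : ℂ) ρg :=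
      (hxat z0 hz0 hA0).continuousAt.eventually (Metric.isOpen_ball.mem_nhds (by
        rw [hx0]
        exact Metric.mem_ball_self hρg))
    have he : ∀ᶠ z in 𝓝 z0, h z ≠ 0 :=
      (hhat z0 hz0).continuousAt.eventually (isOpen_ne.mem_nhds hh0)
    filter_upwards [ha, hb, hc, hd, he] with z h1 h2 h3 h4 h5 using ⟨h1, h2, h3, h4, h5⟩
  obtain ⟨ρ, hρ, hball⟩ := Metric.eventually_nhds_iff_ball.1 hev
  -- the roots
  have hδ : ∀ z ∈ Metric.ball z0 ρ, z ^ m * (g z * h z ^ k0) ≠ 0 := fun z hz =>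
    mul_ne_zero (pow_ne_zero _ (hball z hz).2.1) (mul_ne_zero (hm.g0 z (hball z hz).1)
      (pow_ne_zero _ (hball z hz).2.2.2.2))
  set D : ℂ → ℂ := fun z => (m : ℂ) / z + (deriv g z / g z + (k0 : ℂ) * (deriv h z / h z))
    with hDdef
  have hδLD : ∀ z ∈ Metric.ball z0 ρ, LD (fun z => z ^ m * (g z * h z ^ k0)) z (D z) :=
    fun z hz => (LD_id_pow (hball z hz).2.1 m).mul
      ((LD.of (hgat z (hball z hz).1) (hm.g0 z (hball z hz).1)).mul
        ((LD.of (hhat z (hball z hz).1) (hball z hz).2.2.2.2).pow (hball z hz).2.2.2.2 k0))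
  have hfLD : ∀ l, ∀ z ∈ Metric.ball z0 ρ,
      LD (fun z => (A z ^ ((K : ℤ) * M + e * γ l) * (z ^ m * (g z * h z ^ k0)) ^ (-lam)) *
          h z ^ (K * M)) z
        (((((K : ℤ) * M + e * γ l : ℤ) : ℂ) * (deriv A z / A z) + ((-lam : ℤ) : ℂ) * D z) +
          ((K * M : ℕ) : ℂ) * (deriv h z / h z)) :=
    fun l z hz => (((LD.of (hAat z (hball z hz).1) (hball z hz).2.2.1).zpow
      (hball z hz).2.2.1 _).mul ((hδLD z hz).zpow (hδ z hz) _)).mul
      ((LD.of (hhat z (hball z hz).1) (hball z hz).2.2.2.2).pow (hball z hz).2.2.2.2 _)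
  have hf0 : ∀ l, ∀ z ∈ Metric.ball z0 ρ,
      (A z ^ ((K : ℤ) * M + e * γ l) * (z ^ m * (g z * h z ^ k0)) ^ (-lam)) *
        h z ^ (K * M) ≠ 0 := fun l z hz =>
    mul_ne_zero (mul_ne_zero (zpow_ne_zero _ (hball z hz).2.2.1) (zpow_ne_zero _ (hδ z hz)))
      (pow_ne_zero _ (hball z hz).2.2.2.2)
  have hex : ∀ l, ∃ r : ℂ → ℂ, DifferentiableOn ℂ r (Metric.ball z0 ρ) ∧
      ∀ z ∈ Metric.ball z0 ρ, r z ≠ 0 ∧
        LD r z ((((((K : ℤ) * M + e * γ l : ℤ) : ℂ) * (deriv A z / A z) +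
          ((-lam : ℤ) : ℂ) * D z) + ((K * M : ℕ) : ℂ) * (deriv h z / h z)) / M) := by
    intro l
    obtain ⟨r, hr, hrr⟩ := hROOT (fun z => (A z ^ ((K : ℤ) * M + e * γ l) *
      (z ^ m * (g z * h z ^ k0)) ^ (-lam)) * h z ^ (K * M)) z0 ρ M hρ hM (fun z hz =>
        (HasDerivAt.differentiableAt (hfLD l z hz)).differentiableWithinAt) (hf0 l)
    refine ⟨r, hr, fun z hz => ⟨(hrr z hz).1, ?_⟩⟩
    have h1 := (hrr z hz).2.2
    rw [(hfLD l z hz).eq] at h1
    have hrd : HasDerivAt r (deriv r z) z :=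
      (hr.differentiableAt (Metric.isOpen_ball.mem_nhds hz)).hasDerivAt
    unfold LD
    refine hrd.congr_deriv ?_
    have h2 := hf0 l z hz
    rw [← mul_div_assoc, eq_div_iff hMC]
    refine mul_right_cancel₀ h2 ?_
    linear_combination h1
  choose χ hχd hχ using hex
  -- the exponents
  set E : ι → ℕ := fun l => ((K : ℤ) - n1 * γ l / M).toNat with hEdef
  have hEc : ∀ l, ((E l : ℕ) : ℂ) = K - n1 * γ l / M := by
    intro l
    have h3 : ((E l : ℕ) : ℤ) = (K : ℤ) - n1 * γ l / M :=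
      Int.toNat_of_nonneg (sub_nonneg.2 (hK l))
    obtain ⟨c, hc⟩ := hdiv l
    have hMz : (M : ℤ) ≠ 0 := by exact_mod_cast hM.ne'
    have h4 : (n1 : ℤ) * γ l / M = c := by
      rw [hc]
      exact Int.mul_ediv_cancel_left c hMz
    rw [h4] at h3
    have h5 := congrArg (fun x : ℤ => (x : ℂ)) h3
    have h6 := congrArg (fun x : ℤ => (x : ℂ)) hc
    push_cast at h5 h6
    rw [h5, h6]
    field_simp
  refine ⟨ρ, fun z => Matrix.of fun i l => G' (x z) i l * (w z ^ E l * χ l z),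
    hρ, fun z hz => (hball z hz).1, fun h0 => (hball 0 h0).2.1 rfl, ?_, ?_, ?_⟩
  · intro i l z hz
    have hb := hball z hz
    have hg1 : DifferentiableAt ℂ (fun y => G' y i l) (x z) :=
      (hgd i l).differentiableAt (Metric.isOpen_ball.mem_nhds hb.2.2.2.1)
    have hg2 : DifferentiableAt ℂ (fun y => G' (x y) i l) z :=
      DifferentiableAt.comp z (g := fun y => G' y i l) (f := x) hg1 (hxat z hb.1 hb.2.2.1)
    refine DifferentiableAt.differentiableWithinAt ?_
    simp only [Matrix.of_apply]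
    exact hg2.mul (((hwat z hb.1).fun_pow _).mul
      ((hχd l).differentiableAt (Metric.isOpen_ball.mem_nhds hz)))
  · intro z hz hAz hwz hhz
    have hb := hball z hz
    have e3 : (Matrix.of fun i l => G' (x z) i l * (w z ^ E l * χ l z)) =
        G' (x z) * Matrix.diagonal fun l => w z ^ E l * χ l z := by
      ext i l
      rw [Matrix.mul_diagonal, Matrix.of_apply]
    rw [e3, Matrix.det_mul, Matrix.det_diagonal]
    exact mul_ne_zero (hgdet _ hb.2.2.2.1) (Finset.prod_ne_zero_iff.2 fun l _ =>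
      mul_ne_zero (pow_ne_zero _ hwz) (hχ l z hz).1)
  · intro z hz hAz hwz hhz i l
    have hb := hball z hz
    have hwLD : LD w z (deriv w z / w z) := LD.of (hwat z hb.1) hwz
    have hALD : LD A z (deriv A z / A z) := LD.of (hAat z hb.1) hAz
    have hxLD : LD x z ((n1 : ℂ) * (deriv w z / w z) +
        ((-(e : ℤ) : ℤ) : ℂ) * (deriv A z / A z)) :=
      (hwLD.pow hwz n1).mul (hALD.zpow hAz _)
    have hg1 : HasDerivAt (fun y => G' y i l) (deriv (fun y => G' y i l) (x z)) (x z) :=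
      ((hgd i l).differentiableAt (Metric.isOpen_ball.mem_nhds hb.2.2.2.1)).hasDerivAt
    have hg2 : HasDerivAt (fun y => G' (x y) i l) (deriv (fun y => G' y i l) (x z) *
        (x z * ((n1 : ℂ) * (deriv w z / w z) +
        ((-(e : ℤ) : ℤ) : ℂ) * (deriv A z / A z)))) z :=
      HasDerivAt.comp z (h₂ := fun y => G' y i l) (h := x) hg1 hxLD
    have hcf : LD (fun y => w y ^ E l * χ l y) z _ :=
      (hwLD.pow hwz (E l)).mul (hχ l z hz).2
    have hall := hg2.fun_mul hcf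
    -- the right side
    have hAA : ((AAW M n0 n1 n2 β C K lam m g A w h z * Matrix.of fun i l =>
        G' (x z) i l * (w z ^ E l * χ l z)) i l) =
        (w z ^ E l * χ l z) * (D z * (M : ℂ)⁻¹ * (((β i : ℂ) - lam) * G' (x z) i l) +
          (deriv w z / w z) * ((n1 : ℂ) * (M : ℂ)⁻¹ * (∑ k, (C i k : ℂ) * G' (x z) k l) +
            K * G' (x z) i l) +
          (deriv A z / A z) * (K * G' (x z) i l - (e : ℂ) * (M : ℂ)⁻¹ *
            ((β i : ℂ) * G' (x z) i l + ∑ k, (C i k : ℂ) * G' (x z) k l)) +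
          (deriv h z / h z) * (K * G' (x z) i l)) := by
      have e5 : (C.map (Int.castRingHom ℂ) * Matrix.of fun i l =>
          G' (x z) i l * (w z ^ E l * χ l z)) i l =
          (w z ^ E l * χ l z) * ∑ k, (C i k : ℂ) * G' (x z) k l := by
        rw [Matrix.mul_apply, Finset.mul_sum]
        refine Finset.sum_congr rfl fun k _ => ?_
        simp only [Matrix.map_apply, Matrix.of_apply, eq_intCast]
        ring
      unfold AAW AA
      rw [he1, ← hedef, ← hk0def]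
      simp only [Matrix.add_mul, Matrix.sub_mul, Matrix.smul_mul, Matrix.one_mul,
        Matrix.add_apply, Matrix.sub_apply, Matrix.smul_apply, Matrix.diagonal_mul, smul_eq_mul,
        Matrix.of_apply, e5]
      rw [hDdef]
      ring
    rw [hAA]
    simp only [Matrix.of_apply]
    refine hall.congr_deriv ?_
    -- the equation of the series
    have hxn : ‖x z‖ < 1 := by
      have := hb.2.2.2.1
      rw [mem_ball_zero_iff] at this
      linarith
    have h1x : 1 + x z ≠ 0 := by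
      intro h0
      have : x z = -1 := by linear_combination h0
      rw [this, norm_neg, norm_one] at hxn
      exact lt_irrefl _ hxn
    have heq := hgeq (x z) hb.2.2.2.1 i l
    have hsum : ∑ k, (∑' m : ℕ, ((A1 β C m i k : ℤ) : ℂ) * x z ^ m) * G' (x z) k l =
        -(∑ k, (C i k : ℂ) * G' (x z) k l) - (β i : ℂ) * (x z / (1 + x z)) * G' (x z) i l := by
      have : ∀ k, (∑' m : ℕ, ((A1 β C m i k : ℤ) : ℂ) * x z ^ m) * G' (x z) k l =
          -((C i k : ℂ) * G' (x z) k l) -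
            (if i = k then (β i : ℂ) * (x z / (1 + x z)) * G' (x z) k l else 0) := by
        intro k
        rw [(hCLF ι β C (x z) hxn i k).1]
        split_ifs <;> ring
      rw [Finset.sum_congr rfl fun k _ => this k, Finset.sum_sub_distrib, Finset.sum_neg_distrib]
      simp
    rw [hsum] at heq
    have hd := hDRL n0 n1 n2 R m g A w h hm z hb.1 hb.2.1 hAz hwz hhz
    have hrel := hm.rel z hb.1
    rw [he1, ← hedef, ← hk0def] at hd hrel
    have hAe : A z ^ e ≠ 0 := pow_ne_zero _ hAz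
    have hxz : x z = w z ^ n1 / A z ^ e := by
      simp only [hxdef]
      rw [_root_.zpow_neg, zpow_natCast, div_eq_mul_inv]
    have h1xz : 1 + x z = z ^ m * (g z * h z ^ k0) / A z ^ e := by
      rw [hxz, ← hrel]
      field_simp
      ring
    have hkey : x z * ((n1 : ℂ) * (deriv w z / w z) - (e : ℂ) * (deriv A z / A z)) =
        (1 + x z) * (D z - (e : ℂ) * (deriv A z / A z)) := by
      rw [h1xz, hxz, div_mul_eq_mul_div, div_mul_eq_mul_div, hd, hDdef]
      ring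
    have hfin := ILOC1W.alg (M := (M : ℂ)) (n1 := n1) (e := e) (γ := γ l) (lam := lam) (K := K)
      (β := β i) (x := x z) (X := (n1 : ℂ) * (deriv w z / w z) - (e : ℂ) * (deriv A z / A z))
      (Φ := D z - (e : ℂ) * (deriv A z / A z)) (D := D z) (W := deriv w z / w z)
      (A' := deriv A z / A z) (G := G' (x z) i l) (S := ∑ k, (C i k : ℂ) * G' (x z) k l)
      (dG := deriv (fun y => G' y i l) (x z)) hMC h1x rfl rfl hkey heq
    rw [← hfin, hEc l]
    push_cast
    field_simp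
    ring

end Pool.Agent.Work.MP_5e5ff1_ag.TH
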