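import Mathlib
import Pool.Agent.Work.MP_5e5ff1_ag.TH.StmtsW

set_option autoImplicit false

/-!
# MP_5e5ff1_ag, block TH, item LOC2W (copy of item LOC2): the local solution at a zero of `A`
-/

open Matrix Filter Topology
open scoped Polynomial

namespace Pool.Agent.Work.MP_5e5ff1_ag.TH

namespace ILOC2W

theorem alg {a ω D e e' M K lam β γ G G' CG y W δ S : ℂ} (hM : M ≠ 0) (hW : W ≠ 0) (hδ : δ ≠ 0)
    (h1y : 1 - y = W / δ)
    (hS : S = β * G + CG + CG * (y / (1 - y)))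
    (hgan : M * y * G' + S = γ * G)
    (hdrl : W * (e' * ω - e * a) = δ * (D - e * a)) :
    G' * (y * (e * a - D)) + G * ((K - e * γ / M) * a + (γ - lam) * (D / M) + K * ω) =
      (D * M⁻¹) * ((β - lam) * G) + ω * ((e' * M⁻¹) * CG + K * G) +
        a * (K * G - (e * M⁻¹) * (β * G + CG)) := by
  have hy0 : 1 - y ≠ 0 := by
    rw [h1y]
    exact div_ne_zero hW hδ
  have e1 : CG + CG * (y / (1 - y)) = CG * δ / W := by
    have e2 : CG + CG * (y / (1 - y)) = CG / (1 - y) := by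
      field_simp
      ring
    rw [e2, h1y]
    field_simp
  have e3 : M * y * G' = (γ - β) * G - CG * δ / W := by
    rw [← e1]
    linear_combination hgan - hS
  have e4 : CG * δ / W * (D - e * a) = CG * (e' * ω - e * a) := by
    have : CG * δ / W * (D - e * a) = CG * (δ * (D - e * a)) / W := by ring
    rw [this, ← hdrl]
    field_simp
  have e5 : G' * (y * (e * a - D)) = ((γ - β) * G * (e * a - D) + CG * (e' * ω - e * a)) / M := by
    rw [eq_div_iff hM]
    linear_combination (e * a - D) * e3 + e4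
  rw [e5]
  field_simp
  ring

end ILOC2W

open ILOC2W in
theorem pr_LOC2W (h1 : StGAN) (h2 : StCLF) (h3 : StROOT) (h4 : StDRLW) : StLOC2W := by
  intro ι _ _ M n0 n1 n2 β C γ G hM hG hA hdiv R m g A w h hm K hK lam z0 hz0 hA0
  have hbd : ∃ c : ℤ, ∀ m i j, |A2 β C m i j| ≤ c := by
    refine ⟨∑ i, ∑ j, (|C i j| + |db ℤ β i j|), fun m i j => ?_⟩
    have ha : |C i j| + |db ℤ β i j| ≤ ∑ i, ∑ j, (|C i j| + |db ℤ β i j|) := by
      have hb : |C i j| + |db ℤ β i j| ≤ ∑ j, (|C i j| + |db ℤ β i j|) :=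
        Finset.single_le_sum (f := fun j => |C i j| + |db ℤ β i j|)
          (fun j _ => by positivity) (Finset.mem_univ j)
      refine hb.trans (Finset.single_le_sum (f := fun i => ∑ j, (|C i j| + |db ℤ β i j|))
          (fun i _ => Finset.sum_nonneg fun j _ => by positivity) (Finset.mem_univ i))
    refine le_trans ?_ ha
    unfold A2
    split_ifs with hc
    · rw [Matrix.add_apply, add_comm]
      exact abs_add_le _ _
    · exact le_add_of_nonneg_right (abs_nonneg _)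
  obtain ⟨ρg, Gf, hρg, hρg1, hgd, hgdet, hgeq⟩ := h1 ι M (A2 β C) γ G hbd hG hA
  have hn2 : n2 ≠ 0 := fun hc => hm.nA hc z0 hz0 hA0
  have he2 : e1 n2 = n2 := by
    unfold e1
    rw [if_neg hn2]
  have hz00 : z0 ≠ 0 := by
    rintro rfl
    exact hm.A00 hA0
  have hh0 : h z0 ≠ 0 := hm.cop z0 hz0 hA0
  have hwat : ∀ z ∈ Metric.ball (0 : ℂ) 1, HasDerivAt w (deriv w z) z := fun z hz =>
    (hm.dw.differentiableAt (Metric.isOpen_ball.mem_nhds hz)).hasDerivAt
  have hgat : ∀ z ∈ Metric.ball (0 : ℂ) 1, HasDerivAt g (deriv g z) z := fun z hz =>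
    (hm.dg.differentiableAt (Metric.isOpen_ball.mem_nhds hz)).hasDerivAt
  have hhat : ∀ z ∈ Metric.ball (0 : ℂ) 1, HasDerivAt h (deriv h z) z := fun z hz =>
    (hm.dh.differentiableAt (Metric.isOpen_ball.mem_nhds hz)).hasDerivAt
  have hAat : ∀ z ∈ Metric.ball (0 : ℂ) 1, HasDerivAt A (deriv A z) z := fun z hz =>
    (hm.dA.differentiableAt (Metric.isOpen_ball.mem_nhds hz)).hasDerivAt
  have hev : ∀ᶠ z in 𝓝 z0, z ∈ Metric.ball (0 : ℂ) 1 ∧ z ≠ 0 ∧ h z ≠ 0 ∧
      A z ^ n2 / (z ^ m * (g z * h z ^ e1 n0)) ∈ Metric.ball (0 : ℂ) ρg := by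
    have ha : ∀ᶠ z in 𝓝 z0, z ∈ Metric.ball (0 : ℂ) 1 := Metric.isOpen_ball.mem_nhds hz0
    have hb : ∀ᶠ z in 𝓝 z0, z ≠ 0 := isOpen_ne.mem_nhds hz00
    have hc : ∀ᶠ z in 𝓝 z0, h z ≠ 0 := (hhat z0 hz0).continuousAt.eventually_ne hh0
    refine ha.and (hb.and (hc.and ?_))
    have hd : ContinuousAt (fun z => A z ^ n2 / (z ^ m * (g z * h z ^ e1 n0))) z0 :=
      ((hAat z0 hz0).continuousAt.pow n2).div
        ((continuousAt_id.pow m).mul ((hgat z0 hz0).continuousAt.mul
          ((hhat z0 hz0).continuousAt.pow (e1 n0))))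
        (mul_ne_zero (pow_ne_zero _ hz00) (mul_ne_zero (hm.g0 z0 hz0) (pow_ne_zero _ hh0)))
    refine hd.eventually (Metric.isOpen_ball.mem_nhds ?_)
    simpa [hA0, zero_pow hn2] using hρg
  obtain ⟨ρ, hρ, hball⟩ := Metric.eventually_nhds_iff_ball.1 hev
  have hpow : ∀ (n : ℕ) (x : ℂ), x ≠ 0 → (n : ℂ) * x ^ (n - 1) = n / x * x ^ n := by
    intro n x hx
    rcases n with _ | n
    · simp
    · rw [Nat.add_sub_cancel, pow_succ]
      field_simp
  have hδat : ∀ z ∈ Metric.ball z0 ρ, HasDerivAt (fun z => z ^ m * (g z * h z ^ e1 n0))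
      (z ^ m * (g z * h z ^ e1 n0) * ((m : ℂ) / z + deriv g z / g z + (e1 n0 : ℂ) * (deriv h z / h z))) z := by
    intro z hz
    have hz1 := (hball z hz).1
    have hz2 := (hball z hz).2.1
    have hz4 := (hball z hz).2.2.1
    have hg := hm.g0 z hz1
    have h5 := (hasDerivAt_pow m z).fun_mul
      ((hgat z hz1).fun_mul ((hhat z hz1).fun_pow (e1 n0)))
    refine h5.congr_deriv ?_
    rw [hpow m z hz2, hpow (e1 n0) (h z) hz4]
    field_simp
    ring
  have hδ0 : ∀ z ∈ Metric.ball z0 ρ, z ^ m * (g z * h z ^ e1 n0) ≠ 0 := fun z hz =>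
    mul_ne_zero (pow_ne_zero _ (hball z hz).2.1) (mul_ne_zero (hm.g0 z (hball z hz).1)
      (pow_ne_zero _ (hball z hz).2.2.1))
  obtain ⟨r, hrd, hr⟩ := h3 (fun z => z ^ m * (g z * h z ^ e1 n0)) z0 ρ M hρ hM
    (fun z hz => (hδat z hz).differentiableAt.differentiableWithinAt) hδ0
  have hMC : (M : ℂ) ≠ 0 := Nat.cast_ne_zero.2 hM.ne'
  have hrat : ∀ z ∈ Metric.ball z0 ρ, HasDerivAt r
      (r z * (((m : ℂ) / z + deriv g z / g z + (e1 n0 : ℂ) * (deriv h z / h z)) / M)) z := by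
    intro z hz
    have h5 : HasDerivAt r (deriv r z) z :=
      (hrd.differentiableAt (Metric.isOpen_ball.mem_nhds hz)).hasDerivAt
    refine h5.congr_deriv ?_
    obtain ⟨hr0, hr1, hr2⟩ := hr z hz
    rw [(hδat z hz).deriv] at hr2
    have h6 := hδ0 z hz
    have h7 : (M : ℂ) * deriv r z = ((m : ℂ) / z + deriv g z / g z + (e1 n0 : ℂ) * (deriv h z / h z)) * r z := by
      refine mul_right_cancel₀ h6 ?_
      linear_combination hr2
    rw [← mul_div_assoc, eq_div_iff hMC]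
    linear_combination h7
  have hyat : ∀ z ∈ Metric.ball z0 ρ, HasDerivAt (fun z => A z ^ n2 / (z ^ m * (g z * h z ^ e1 n0)))
      (((n2 : ℂ) * A z ^ (n2 - 1) * deriv A z * (z ^ m * (g z * h z ^ e1 n0)) -
        A z ^ n2 * (z ^ m * (g z * h z ^ e1 n0) * ((m : ℂ) / z + deriv g z / g z + (e1 n0 : ℂ) * (deriv h z / h z)))) / (z ^ m * (g z * h z ^ e1 n0)) ^ 2) z := by
    intro z hz
    exact ((hAat z (hball z hz).1).fun_pow n2).fun_div (hδat z hz) (hδ0 z hz)
  have hkl : ∀ l, ((((K : ℤ) - n2 * γ l / M).toNat : ℕ) : ℂ) = (K : ℂ) - n2 * γ l / M := by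
    intro l
    have h5 : ((((K : ℤ) - n2 * γ l / M).toNat : ℕ) : ℤ) = (K : ℤ) - n2 * γ l / M :=
      Int.toNat_of_nonneg (by linarith [hK l])
    have h6 := congrArg (fun x : ℤ => (x : ℂ)) h5
    obtain ⟨c, hc⟩ := hdiv l
    have hMZ : (M : ℤ) ≠ 0 := by exact_mod_cast hM.ne'
    have h7 : (n2 : ℤ) * γ l / M = c := by
      rw [hc]
      exact Int.mul_ediv_cancel_left _ hMZ
    have h8 : ((n2 : ℂ) * γ l / M) = c := by
      rw [div_eq_iff hMC]
      have := congrArg (fun x : ℤ => (x : ℂ)) hc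
      push_cast at this
      rw [this]
      ring
    rw [h8]
    rw [h7] at h6
    push_cast at h6
    rw [h7]
    exact h6
  refine ⟨ρ, fun z => Matrix.of fun i l => Gf (A z ^ n2 / (z ^ m * (g z * h z ^ e1 n0))) i l *
    (A z ^ ((K : ℤ) - n2 * γ l / M).toNat * (r z ^ (γ l - lam) * (w z ^ K * h z ^ K))),
    hρ, fun z hz => (hball z hz).1, fun hc => (hball 0 hc).2.1 rfl, ?_, ?_, ?_⟩
  · intro i l z hz
    have hz1 := (hball z hz).1
    have hz3 := (hball z hz).2.2.2
    have hg1 : DifferentiableAt ℂ (fun x => Gf x i l) (A z ^ n2 / (z ^ m * (g z * h z ^ e1 n0))) :=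
      (hgd i l).differentiableAt (Metric.isOpen_ball.mem_nhds hz3)
    have hg2 : DifferentiableAt ℂ (fun y => Gf (A y ^ n2 / (y ^ m * (g y * h y ^ e1 n0))) i l) z :=
      DifferentiableAt.comp z (g := fun x => Gf x i l) (f := fun y => A y ^ n2 / (y ^ m * (g y * h y ^ e1 n0))) hg1
        (hyat z hz).differentiableAt
    refine DifferentiableAt.differentiableWithinAt ?_
    simp only [Matrix.of_apply]
    refine hg2.mul (((hAat z hz1).differentiableAt.pow _).mul
      (DifferentiableAt.mul ?_ (((hwat z hz1).differentiableAt.pow _).mul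
        ((hhat z hz1).differentiableAt.pow _))))
    exact (hrat z hz).differentiableAt.zpow (Or.inl (hr z hz).1)
  · intro z hz hA hw hh
    have e1 : (Matrix.of fun i l => Gf (A z ^ n2 / (z ^ m * (g z * h z ^ e1 n0))) i l *
        (A z ^ ((K : ℤ) - n2 * γ l / M).toNat * (r z ^ (γ l - lam) * (w z ^ K * h z ^ K)))) =
        Gf (A z ^ n2 / (z ^ m * (g z * h z ^ e1 n0))) * Matrix.diagonal fun l =>
          (A z ^ ((K : ℤ) - n2 * γ l / M).toNat * (r z ^ (γ l - lam) * (w z ^ K * h z ^ K))) := by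
      ext i j
      rw [Matrix.mul_diagonal, Matrix.of_apply]
    simp only [e1]
    rw [Matrix.det_mul, Matrix.det_diagonal]
    refine mul_ne_zero (hgdet _ (hball z hz).2.2.2) (Finset.prod_ne_zero_iff.2 fun j _ =>
      mul_ne_zero (pow_ne_zero _ hA) (mul_ne_zero (zpow_ne_zero _ (hr z hz).1)
        (mul_ne_zero (pow_ne_zero _ hw) (pow_ne_zero _ hh))))
  · intro z hz hA hw hh i l
    have hz1 := (hball z hz).1
    have hz2 := (hball z hz).2.1
    have hz3 := (hball z hz).2.2.2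
    have hδz := hδ0 z hz
    have hr0 := (hr z hz).1
    set y : ℂ := A z ^ n2 / (z ^ m * (g z * h z ^ e1 n0)) with hy
    have hg1 : HasDerivAt (fun x => Gf x i l) (deriv (fun x => Gf x i l) y) y :=
      ((hgd i l).differentiableAt (Metric.isOpen_ball.mem_nhds hz3)).hasDerivAt
    have hg2 : HasDerivAt (fun s => Gf (A s ^ n2 / (s ^ m * (g s * h s ^ e1 n0))) i l)
        (deriv (fun x => Gf x i l) y * (((n2 : ℂ) * A z ^ (n2 - 1) * deriv A z * (z ^ m * (g z * h z ^ e1 n0)) -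
        A z ^ n2 * (z ^ m * (g z * h z ^ e1 n0) * ((m : ℂ) / z + deriv g z / g z + (e1 n0 : ℂ) * (deriv h z / h z)))) / (z ^ m * (g z * h z ^ e1 n0)) ^ 2)) z :=
      HasDerivAt.comp z (h₂ := fun x => Gf x i l) (h := fun s => A s ^ n2 / (s ^ m * (g s * h s ^ e1 n0))) hg1
        (hyat z hz)
    have hrz : HasDerivAt (fun s => r s ^ (γ l - lam))
        (r z ^ (γ l - lam) * (((γ l : ℂ) - lam) * (((m : ℂ) / z + deriv g z / g z + (e1 n0 : ℂ) * (deriv h z / h z)) / M))) z := by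
      have h5 := HasDerivAt.comp z (h₂ := fun x : ℂ => x ^ (γ l - lam)) (h := r)
        (hasDerivAt_zpow (γ l - lam) (r z) (Or.inl hr0)) (hrat z hz)
      refine h5.congr_deriv ?_
      rw [zpow_sub_one₀ hr0]
      push_cast
      field_simp
    have hall := hg2.fun_mul (((hAat z hz1).fun_pow ((K : ℤ) - n2 * γ l / M).toNat).fun_mul
      (hrz.fun_mul (((hwat z hz1).fun_pow K).fun_mul ((hhat z hz1).fun_pow K))))
    have hAA : ((AAW M n0 n1 n2 β C K lam m g A w h z * Matrix.of fun i l => Gf y i l *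
        (A z ^ ((K : ℤ) - n2 * γ l / M).toNat * (r z ^ (γ l - lam) * (w z ^ K * h z ^ K)))) i l) =
        (((((m : ℂ) / z + deriv g z / g z + (e1 n0 : ℂ) * (deriv h z / h z)) * (M : ℂ)⁻¹) * (((β i : ℂ) - lam) * Gf y i l) +
        (deriv w z / w z) * (((e1 n1 : ℂ) * (M : ℂ)⁻¹) * ∑ k, (C i k : ℂ) * Gf y k l +
          K * Gf y i l)) + (deriv A z / A z) * (K * Gf y i l -
          ((e1 n2 : ℂ) * (M : ℂ)⁻¹) * ((β i : ℂ) * Gf y i l + ∑ k, (C i k : ℂ) * Gf y k l)) +
          (deriv h z / h z) * (K * Gf y i l)) *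
          (A z ^ ((K : ℤ) - n2 * γ l / M).toNat * (r z ^ (γ l - lam) * (w z ^ K * h z ^ K))) := by
      have e5 : (AAW M n0 n1 n2 β C K lam m g A w h z * Matrix.of fun i l => Gf y i l *
        (A z ^ ((K : ℤ) - n2 * γ l / M).toNat * (r z ^ (γ l - lam) * (w z ^ K * h z ^ K)))) =
        (AAW M n0 n1 n2 β C K lam m g A w h z * Gf y) * Matrix.diagonal fun l =>
          (A z ^ ((K : ℤ) - n2 * γ l / M).toNat * (r z ^ (γ l - lam) * (w z ^ K * h z ^ K))) := by
        rw [Matrix.mul_assoc]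
        congr 1
        ext i j
        rw [Matrix.mul_diagonal, Matrix.of_apply]
      rw [e5, Matrix.mul_diagonal]
      congr 1
      unfold AAW AA
      simp only [Matrix.add_mul, Matrix.sub_mul, Matrix.smul_mul, Matrix.one_mul]
      simp only [Matrix.add_apply, Matrix.sub_apply, Matrix.smul_apply, Matrix.diagonal_mul,
        smul_eq_mul]
      rw [Matrix.mul_apply]
      simp only [Matrix.map_apply, eq_intCast]
      ring
    rw [hAA]
    simp only [Matrix.of_apply]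
    refine hall.congr_deriv ?_
    have hylt : ‖y‖ < 1 := by
      have := mem_ball_zero_iff.1 hz3
      linarith
    have hrel := hm.rel z hz1
    rw [he2] at hrel
    have hkey := alg (a := deriv A z / A z) (ω := deriv w z / w z)
      (D := (m : ℂ) / z + deriv g z / g z + (e1 n0 : ℂ) * (deriv h z / h z)) (e := (n2 : ℂ)) (e' := (e1 n1 : ℂ)) (M := (M : ℂ))
      (K := (K : ℂ)) (lam := (lam : ℂ)) (β := (β i : ℂ)) (γ := (γ l : ℂ)) (G := Gf y i l)
      (G' := deriv (fun x => Gf x i l) y) (CG := ∑ k, (C i k : ℂ) * Gf y k l) (y := y)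
      (W := w z ^ e1 n1) (δ := z ^ m * (g z * h z ^ e1 n0))
      (S := ∑ k, (∑' m : ℕ, ((A2 β C m i k : ℤ) : ℂ) * y ^ m) * Gf y k l)
      hMC (pow_ne_zero _ hw) hδz
      (by
        rw [← hrel, hy, sub_div, div_self hδz])
      (by
        have e6 : ∀ k, (∑' m : ℕ, ((A2 β C m i k : ℤ) : ℂ) * y ^ m) * Gf y k l =
            (if i = k then (β i : ℂ) else 0) * Gf y k l + (C i k : ℂ) * Gf y k l +
              (C i k : ℂ) * Gf y k l * (y / (1 - y)) := by
          intro k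
          rw [(h2 ι β C y hylt i k).2]
          ring
        simp only [e6]
        rw [Finset.sum_add_distrib, Finset.sum_add_distrib, ← Finset.sum_mul]
        congr 2
        simp)
      (hgeq y hz3 i l)
      (by
        have := h4 n0 n1 n2 R m g A w h hm z hz1 hz2 hA hw hh
        rw [he2] at this
        exact this)
    have e7 : (((n2 : ℂ) * A z ^ (n2 - 1) * deriv A z * (z ^ m * (g z * h z ^ e1 n0)) -
        A z ^ n2 * (z ^ m * (g z * h z ^ e1 n0) * ((m : ℂ) / z + deriv g z / g z + (e1 n0 : ℂ) * (deriv h z / h z)))) / (z ^ m * (g z * h z ^ e1 n0)) ^ 2) =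
        y * ((n2 : ℂ) * (deriv A z / A z) - ((m : ℂ) / z + deriv g z / g z + (e1 n0 : ℂ) * (deriv h z / h z))) := by
      rw [hpow n2 (A z) hA, hy]
      generalize ((m : ℂ) / z + deriv g z / g z + (e1 n0 : ℂ) * (deriv h z / h z)) = D
      generalize z ^ m * (g z * h z ^ e1 n0) = d at *
      field_simp
    rw [e7, hpow K (w z) hw, hpow K (h z) hh, hpow ((K : ℤ) - n2 * γ l / M).toNat (A z) hA, hkl l, he2]
    linear_combination (A z ^ ((K : ℤ) - n2 * γ l / M).toNat *
      (r z ^ (γ l - lam) * (w z ^ K * h z ^ K))) * hkey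

end Pool.Agent.Work.MP_5e5ff1_ag.TH
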