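import Mathlib
import Pool.Agent.Work.MP_5e5ff1_ag.TH.StmtsW
import Pool.Agent.Work.MP_5e5ff1_ag.TH.I_LOCA

set_option autoImplicit false

/-!
# MP_5e5ff1_ag, block TH, item LOCAW: local solutions everywhere except 0, elliptic base points
-/

open Matrix Filter Topology
open scoped Polynomial

namespace Pool.Agent.Work.MP_5e5ff1_ag.TH

namespace ILOCAW

theorem div_le' (M : ℕ) (x : ℤ) (K : ℕ) (hK : x.natAbs ≤ K) : x / (M : ℤ) ≤ K := by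
  have h1 : x ≤ K := by omega
  rcases Nat.eq_zero_or_pos M with h | h
  · subst h
    simp
  · rcases le_or_gt 0 x with h2 | h2
    · exact (Int.ediv_le_self _ h2).trans h1
    · have h3 : x / (M : ℤ) < 0 := Int.ediv_neg_of_neg_of_pos h2 (by exact_mod_cast h)
      omega

end ILOCAW

/-- LOCAW: local solutions everywhere except 0. -/
theorem pr_LOCAW (h1 : StFRBR) (h2 : StGEX) (h3 : StGCV) (h0 : StUCV) (h4 : StLOC1W)
    (h5 : StLOC2W) (h7 : StLOCZW) (h6 : StLOCRW) : StLOCAW := by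
  intro ι _ _ _ M n0 n1 n2 β C S U hS hdiv hU
  obtain ⟨-, hF1, hF2⟩ := h1 ι M n1 n2 β C S hS
  -- the point 1
  have hP1 : ∃ K1 : ℕ, ∀ (R : ℝ) (m : ℕ) (g A w h : ℂ → ℂ), IsMapW n0 n1 n2 R m g A w h →
      ∀ K ≥ K1, ∀ lam : ℤ, ∀ z0 ∈ Metric.ball (0 : ℂ) 1, w z0 = 0 →
      ∃ (ρ : ℝ) (N : ℂ → Matrix ι ι ℂ), LocSolW M n0 n1 n2 β C K lam m g A w h N z0 ρ := by
    by_cases hn : n1 = 0
    · exact ⟨0, fun R m g A w h hm K _ lam z0 hz0 hw => absurd hw (hm.nw hn z0 hz0)⟩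
    · obtain ⟨m, γ, hγ, hC⟩ := hS.h1 hn
      have hA : A1 β C 0 = -C := by simp [A1]
      have hC' : Polynomial.aeval (A1 β C 0)
          (∏ j, (Polynomial.X - Polynomial.C ((fun j => -γ j) j))) = 0 := by
        rw [hA]; exact ILOCA.neg_aeval C m γ hC
      obtain ⟨γ', G, hγ', hG⟩ := h2 ι M (A1 β C) hF1 m (fun j => -γ j) hC'
      obtain ⟨B, -, hB⟩ := h3 ι M (A1 β C) γ' G hS.hM (ILOCA.bdd1 β C) hG
      have hdv : ∀ l, (M : ℤ) ∣ n1 * γ' l := by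
        intro l
        obtain ⟨j, hj⟩ := hγ' l
        rw [hj, mul_neg]
        exact (dvd_neg).mpr (hγ j)
      refine ⟨∑ j, ((n1 : ℤ) * γ' j).natAbs, ?_⟩
      intro R m' g A w h hm K hK lam z0 hz0 hw
      exact h4 ι M n0 n1 n2 β C γ' G hS.hM hG ⟨B, hB⟩ hdv R m' g A w h hm K
        (fun l => ILOCA.div_le M n1 γ' K hK l) lam z0 hz0 hw
  -- the point at infinity
  have hP2 : ∃ K2 : ℕ, ∀ (R : ℝ) (m : ℕ) (g A w h : ℂ → ℂ), IsMapW n0 n1 n2 R m g A w h →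
      ∀ K ≥ K2, ∀ lam : ℤ, ∀ z0 ∈ Metric.ball (0 : ℂ) 1, A z0 = 0 →
      ∃ (ρ : ℝ) (N : ℂ → Matrix ι ι ℂ), LocSolW M n0 n1 n2 β C K lam m g A w h N z0 ρ := by
    by_cases hn : n2 = 0
    · exact ⟨0, fun R m g A w h hm K _ lam z0 hz0 hA => absurd hA (hm.nA hn z0 hz0)⟩
    · obtain ⟨m, γ, hγ, hC⟩ := hS.h2 hn
      have hA : A2 β C 0 = db ℤ β + C := by simp [A2]
      have hC' : Polynomial.aeval (A2 β C 0)
          (∏ j, (Polynomial.X - Polynomial.C (γ j))) = 0 := by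
        rw [hA]; exact hC
      obtain ⟨γ', G, hγ', hG⟩ := h2 ι M (A2 β C) hF2 m γ hC'
      obtain ⟨B, -, hB⟩ := h3 ι M (A2 β C) γ' G hS.hM (ILOCA.bdd2 β C) hG
      have hdv : ∀ l, (M : ℤ) ∣ n2 * γ' l := by
        intro l
        obtain ⟨j, hj⟩ := hγ' l
        rw [hj]
        exact hγ j
      refine ⟨∑ j, ((n2 : ℤ) * γ' j).natAbs, ?_⟩
      intro R m' g A w h hm K hK lam z0 hz0 hA0
      exact h5 ι M n0 n1 n2 β C γ' G hS.hM hG ⟨B, hB⟩ hdv R m' g A w h hm K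
        (fun l => ILOCA.div_le M n2 γ' K hK l) lam z0 hz0 hA0
  -- the zeros of h
  have hP3 : ∃ K3 : ℕ, ∀ (R : ℝ) (m : ℕ) (g A w h : ℂ → ℂ), IsMapW n0 n1 n2 R m g A w h →
      ∀ K ≥ K3, ∀ j : ι, ∀ z0 ∈ Metric.ball (0 : ℂ) 1, h z0 = 0 →
      ∃ (ρ : ℝ) (N : ℂ → Matrix ι ι ℂ), LocSolW M n0 n1 n2 β C K (β j) m g A w h N z0 ρ := by
    obtain ⟨B, -, hB⟩ := h0 ι M β C U hS.hM hU
    refine ⟨∑ j, ∑ l, ((n0 : ℤ) * (β j - β l)).natAbs, ?_⟩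
    intro R m g A w h hm K hK j z0 hz0 hh
    refine h7 ι M n0 n1 n2 β C U hS.hM hU ⟨B, hB⟩ R m g A w h hm K (β j) (fun l => hdiv l j)
      (fun l => ?_) z0 hz0 hh
    refine ILOCAW.div_le' M _ K (le_trans ?_ hK)
    have e1 : ((n0 : ℤ) * (β j - β l)).natAbs ≤ ∑ l, ((n0 : ℤ) * (β j - β l)).natAbs :=
      Finset.single_le_sum (f := fun l => ((n0 : ℤ) * (β j - β l)).natAbs)
        (fun _ _ => Nat.zero_le _) (Finset.mem_univ l)
    have e2 : ∑ l, ((n0 : ℤ) * (β j - β l)).natAbs ≤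
        ∑ j, ∑ l, ((n0 : ℤ) * (β j - β l)).natAbs :=
      Finset.single_le_sum (f := fun j => ∑ l, ((n0 : ℤ) * (β j - β l)).natAbs)
        (fun _ _ => Nat.zero_le _) (Finset.mem_univ j)
    exact e1.trans e2
  obtain ⟨K1, hK1⟩ := hP1
  obtain ⟨K2, hK2⟩ := hP2
  obtain ⟨K3, hK3⟩ := hP3
  refine ⟨K1 + K2 + K3, ?_⟩
  intro R m g A w h hm K hK j z0 hz0 hne
  by_cases hA : A z0 = 0
  · exact hK2 R m g A w h hm K (by omega) (β j) z0 hz0 hA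
  · by_cases hw : w z0 = 0
    · exact hK1 R m g A w h hm K (by omega) (β j) z0 hz0 hw
    · by_cases hh : h z0 = 0
      · exact hK3 R m g A w h hm K (by omega) j z0 hz0 hh
      · exact h6 ι M n0 n1 n2 β C R m g A w h hm K (β j) z0 hz0 hne hA hw hh

end Pool.Agent.Work.MP_5e5ff1_ag.TH
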