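import Mathlib
import Pool.Agent.Work.MP_5e5ff1_ag.TH.StmtsW
import Pool.Agent.Work.MP_5e5ff1_ag.Bd.B07

set_option autoImplicit false

open Matrix Filter Topology

namespace Pool.Agent.Work.MP_5e5ff1_ag.TH

/-- LOCRW: local solutions at regular points. -/
theorem pr_LOCRW : StLOCRW := by
  intro ι _ _ M n0 n1 n2 β C R m g A w h hM K lam z0 hz0 hz ht hw hh
  have hopen : IsOpen (Metric.ball (0 : ℂ) 1) := Metric.isOpen_ball
  have hcA : ContinuousAt A z0 := (hM.dA.differentiableAt (hopen.mem_nhds hz0)).continuousAt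
  have hcw : ContinuousAt w z0 := (hM.dw.differentiableAt (hopen.mem_nhds hz0)).continuousAt
  have hch : ContinuousAt h z0 := (hM.dh.differentiableAt (hopen.mem_nhds hz0)).continuousAt
  have hev : ∀ᶠ z in 𝓝 z0, z ∈ Metric.ball (0 : ℂ) 1 ∧ z ≠ 0 ∧ A z ≠ 0 ∧ w z ≠ 0 ∧ h z ≠ 0 :=
    Filter.Eventually.and (hopen.mem_nhds hz0)
      ((continuousAt_id.eventually_ne hz).and
        ((hcA.eventually_ne ht).and ((hcw.eventually_ne hw).and (hch.eventually_ne hh))))
  obtain ⟨r, hr, hsub⟩ := Metric.eventually_nhds_iff_ball.1 hev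
  have hA : ∀ i j, DifferentiableOn ℂ (fun z => AAW M n0 n1 n2 β C K lam m g A w h z i j)
      (Metric.ball z0 r) := by
    intro i j
    have h0 : DifferentiableOn ℂ (fun z => ((m : ℂ) / z + deriv g z / g z) * (M : ℂ)⁻¹)
        (Metric.ball z0 r) := by
      refine DifferentiableOn.mul_const (DifferentiableOn.add ?_ ?_) _
      · exact (differentiableOn_const _).div differentiableOn_id fun z hz => (hsub z hz).2.1
      · exact ((hM.dg.deriv hopen).mono fun z hz => (hsub z hz).1).div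
          (hM.dg.mono fun z hz => (hsub z hz).1) fun z hz => hM.g0 z (hsub z hz).1
    have h1 : DifferentiableOn ℂ (fun z => deriv w z / w z) (Metric.ball z0 r) :=
      ((hM.dw.deriv hopen).mono fun z hz => (hsub z hz).1).div
        (hM.dw.mono fun z hz => (hsub z hz).1) fun z hz => (hsub z hz).2.2.2.1
    have h2 : DifferentiableOn ℂ (fun z => deriv A z / A z) (Metric.ball z0 r) :=
      ((hM.dA.deriv hopen).mono fun z hz => (hsub z hz).1).div
        (hM.dA.mono fun z hz => (hsub z hz).1) fun z hz => (hsub z hz).2.2.1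
    have h2' : DifferentiableOn ℂ (fun z => deriv h z / h z) (Metric.ball z0 r) :=
      ((hM.dh.deriv hopen).mono fun z hz => (hsub z hz).1).div
        (hM.dh.mono fun z hz => (hsub z hz).1) fun z hz => (hsub z hz).2.2.2.2
    have h3 := (((h0.mul_const ((Matrix.diagonal fun i => ((β i : ℂ) - (lam : ℂ))) i j)).add
      (h1.mul_const ((((e1 n1 : ℂ) * (M : ℂ)⁻¹) • C.map (Int.castRingHom ℂ) +
        (K : ℂ) • (1 : Matrix ι ι ℂ)) i j))).add
      (h2.mul_const (((K : ℂ) • (1 : Matrix ι ι ℂ) -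
        ((e1 n2 : ℂ) * (M : ℂ)⁻¹) • (Matrix.diagonal (fun i => (β i : ℂ)) +
        C.map (Int.castRingHom ℂ))) i j))).add
      (h2'.mul_const ((((e1 n0 : ℂ) * (M : ℂ)⁻¹) •
        (Matrix.diagonal fun i => ((β i : ℂ) - (lam : ℂ))) +
        (K : ℂ) • (1 : Matrix ι ι ℂ)) i j))
    exact h3
  obtain ⟨Y, hY0, hY⟩ := Pool.Agent.MSU.prf_S_Ex Pool.Agent.MSU.prf_S_Prim ι (Metric.ball z0 r) z0
    Metric.isOpen_ball (Metric.mem_ball_self hr)
    ((convex_ball z0 r).starConvex (Metric.mem_ball_self hr))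
    (AAW M n0 n1 n2 β C K lam m g A w h) hA
  have hYd : ContinuousAt (fun z => (Y z).det) z0 := by
    have h1 : ContinuousAt Y z0 := by
      refine continuousAt_pi.2 fun i => continuousAt_pi.2 fun j => ?_
      exact (hY z0 (Metric.mem_ball_self hr) i j).continuousAt
    exact (Continuous.matrix_det continuous_id).continuousAt.comp h1
  have hev2 : ∀ᶠ z in 𝓝 z0, z ∈ Metric.ball z0 r ∧ (Y z).det ≠ 0 :=
    Filter.Eventually.and (Metric.ball_mem_nhds z0 hr) (hYd.eventually_ne (by simp [hY0]))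
  obtain ⟨ρ, hρ, hsub2⟩ := Metric.eventually_nhds_iff_ball.1 hev2
  refine ⟨ρ, Y, hρ, fun z hz => (hsub z (hsub2 z hz).1).1, ?_, ?_, ?_, ?_⟩
  · intro h0
    exact (hsub 0 (hsub2 0 h0).1).2.1 rfl
  · intro i j z hz
    exact (hY z (hsub2 z hz).1 i j).differentiableAt.differentiableWithinAt
  · intro z hz _ _ _
    exact (hsub2 z hz).2
  · intro z hz _ _ _ i j
    exact hY z (hsub2 z hz).1 i j

end Pool.Agent.Work.MP_5e5ff1_ag.TH
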