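import Mathlib
import Pool.Agent.Work.MP_5e5ff1_ag.TH.StmtsW

set_option autoImplicit false

/-!
# MP_5e5ff1_ag, block TH, item LOCZW: local solutions at the zeros of `h`
-/

open Matrix Filter Topology
open scoped Polynomial

namespace Pool.Agent.Work.MP_5e5ff1_ag.TH

namespace ILOCZW

/-- logarithmic derivative `p` at `z` -/
def LD (f : ℂ → ℂ) (z p : ℂ) : Prop := HasDerivAt f (f z * p) z

theorem LD.mul {f g : ℂ → ℂ} {z p q : ℂ} (hf : LD f z p) (hg : LD g z q) :
    LD (fun y => f y * g y) z (p + q) := by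
  unfold LD at *
  refine (HasDerivAt.fun_mul hf hg).congr_deriv ?_
  ring

theorem LD.zpow {f : ℂ → ℂ} {z p : ℂ} (hf : LD f z p) (h0 : f z ≠ 0) (a : ℤ) :
    LD (fun y => f y ^ a) z (a * p) := by
  unfold LD at *
  have h1 := hasDerivAt_zpow a (f z) (Or.inl h0)
  have h2 := HasDerivAt.comp z (h₂ := fun x : ℂ => x ^ a) (h := f) h1 hf
  refine h2.congr_deriv ?_
  rw [zpow_sub_one₀ h0]
  field_simp

theorem LD.pow {f : ℂ → ℂ} {z p : ℂ} (hf : LD f z p) (h0 : f z ≠ 0) (n : ℕ) :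
    LD (fun y => f y ^ n) z (n * p) := by
  have h := hf.zpow h0 (n : ℤ)
  simp only [zpow_natCast] at h
  exact_mod_cast h

theorem LD.of {f : ℂ → ℂ} {z : ℂ} (hf : DifferentiableAt ℂ f z) (h0 : f z ≠ 0) :
    LD f z (deriv f z / f z) := by
  unfold LD
  refine hf.hasDerivAt.congr_deriv ?_
  field_simp

theorem LD.eq {f : ℂ → ℂ} {z p : ℂ} (hf : LD f z p) : deriv f z = f z * p :=
  HasDerivAt.deriv hf

theorem LD_id_pow {z : ℂ} (hz : z ≠ 0) (m : ℕ) : LD (fun y => y ^ m) z ((m : ℂ) / z) := by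
  have h : LD (fun y : ℂ => y) z (1 / z) := by
    unfold LD
    refine (hasDerivAt_id z).congr_deriv ?_
    field_simp
  have h2 := h.pow (by simpa using hz) m
  have e : (m : ℂ) * (1 / z) = (m : ℂ) / z := by ring
  rw [e] at h2
  exact h2

/-- the algebraic identity -/
theorem alg {M φ D η a ω e e' n0 βi βl K lam u du S : ℂ} (hM : M ≠ 0) (hφ : 1 - φ ≠ 0)
    (h1 : (φ - 1) * (e' * ω - e * a) = φ * (D + n0 * η - e * a))
    (h2 : M * φ * (1 - φ) * du + (βl - βi) * (1 - φ) * u + φ * S = 0) :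
    du * (φ * (D + n0 * η - e * a)) +
      u * ((K + n0 * (βl - lam) / M) * η +
        ((βl - lam) * D + ((K * M - e * βl) * a + K * M * ω)) / M) =
      D * M⁻¹ * ((βi - lam) * u) + ω * (e' * M⁻¹ * S + K * u) +
        a * (K * u - e * M⁻¹ * (βi * u + S)) + η * (n0 * M⁻¹ * ((βi - lam) * u) + K * u) := by
  have h4 : M * φ * du * (D + n0 * η - e * a) + (βl - βi) * u * (D + n0 * η - e * a) -
      S * (e' * ω - e * a) = 0 := by
    refine mul_left_cancel₀ hφ ?_
    linear_combination (D + n0 * η - e * a) * h2 + S * h1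
  have h5 : du * (φ * (D + n0 * η - e * a)) =
      M⁻¹ * (S * (e' * ω - e * a) - (βl - βi) * u * (D + n0 * η - e * a)) := by
    field_simp
    linear_combination h4
  rw [h5]
  field_simp
  ring

end ILOCZW

open ILOCZW in
theorem pr_LOCZW (hUAN : StUAN) (hROOT : StROOT) (hDRL : StDRLW) : StLOCZW := by
  intro ι _ _ M n0 n1 n2 β C U hM hU hA R m g A w h hm K lam hdiv hK z0 hz0 hh0
  have hn0 : n0 ≠ 0 := fun hn => hm.nh hn z0 hz0 hh0
  have he0 : e1 n0 = n0 := by simp [e1, hn0]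
  have he2 : e1 n2 ≠ 0 := by
    unfold e1
    split_ifs <;> omega
  have he1 : e1 n1 ≠ 0 := by
    unfold e1
    split_ifs <;> omega
  set e : ℕ := e1 n2 with hedef
  set f1 : ℕ := e1 n1 with hf1def
  have hMC : (M : ℂ) ≠ 0 := by exact_mod_cast hM.ne'
  have hz00 : z0 ≠ 0 := by
    rintro rfl
    exact hm.h00 hh0
  have hA0 : A z0 ≠ 0 := fun h1 => hm.cop z0 hz0 h1 hh0
  have hw0 : w z0 ≠ 0 := by
    intro h1
    have h2 := hm.rel z0 hz0
    rw [he0, ← hedef, ← hf1def, hh0, h1, zero_pow hn0, zero_pow he1, mul_zero, mul_zero,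
      zero_sub, neg_eq_zero] at h2
    exact pow_ne_zero e hA0 h2
  obtain ⟨ρu, u, hρu, -, hud, hudet, hueq⟩ := hUAN ι M β C U hU hA
  have hwat : ∀ z ∈ Metric.ball (0 : ℂ) 1, DifferentiableAt ℂ w z := fun z hz =>
    hm.dw.differentiableAt (Metric.isOpen_ball.mem_nhds hz)
  have hAat : ∀ z ∈ Metric.ball (0 : ℂ) 1, DifferentiableAt ℂ A z := fun z hz =>
    hm.dA.differentiableAt (Metric.isOpen_ball.mem_nhds hz)
  have hgat : ∀ z ∈ Metric.ball (0 : ℂ) 1, DifferentiableAt ℂ g z := fun z hz =>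
    hm.dg.differentiableAt (Metric.isOpen_ball.mem_nhds hz)
  have hhat : ∀ z ∈ Metric.ball (0 : ℂ) 1, DifferentiableAt ℂ h z := fun z hz =>
    hm.dh.differentiableAt (Metric.isOpen_ball.mem_nhds hz)
  -- the local coordinate
  set x : ℂ → ℂ := fun z => z ^ m * (g z * h z ^ n0) * A z ^ (-(e : ℤ)) with hxdef
  have hxat : ∀ z ∈ Metric.ball (0 : ℂ) 1, A z ≠ 0 → DifferentiableAt ℂ x z := by
    intro z hz hAz
    refine ((differentiableAt_id.pow m).mul ((hgat z hz).mul ((hhat z hz).fun_pow n0))).mul ?_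
    have h1 := (hasDerivAt_zpow (-(e : ℤ)) (A z) (Or.inl hAz)).differentiableAt
    exact DifferentiableAt.comp z (g := fun x : ℂ => x ^ (-(e : ℤ))) (f := A) h1 (hAat z hz)
  have hx0 : x z0 = 0 := by simp [hxdef, hh0, hn0]
  have hev : ∀ᶠ z in 𝓝 z0, z ∈ Metric.ball (0 : ℂ) 1 ∧ z ≠ 0 ∧ A z ≠ 0 ∧ w z ≠ 0 ∧
      x z ∈ Metric.ball (0 : ℂ) ρu := by
    have ha : ∀ᶠ z in 𝓝 z0, z ∈ Metric.ball (0 : ℂ) 1 := Metric.isOpen_ball.mem_nhds hz0
    have hb : ∀ᶠ z in 𝓝 z0, z ≠ 0 := isOpen_ne.mem_nhds hz00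
    have hc : ∀ᶠ z in 𝓝 z0, A z ≠ 0 :=
      (hAat z0 hz0).continuousAt.eventually (isOpen_ne.mem_nhds hA0)
    have hc' : ∀ᶠ z in 𝓝 z0, w z ≠ 0 :=
      (hwat z0 hz0).continuousAt.eventually (isOpen_ne.mem_nhds hw0)
    have hd : ∀ᶠ z in 𝓝 z0, x z ∈ Metric.ball (0 : ℂ) ρu :=
      (hxat z0 hz0 hA0).continuousAt.eventually (Metric.isOpen_ball.mem_nhds (by
        rw [hx0]
        exact Metric.mem_ball_self hρu))
    filter_upwards [ha, hb, hc, hc', hd] with z h1 h2 h3 h4 h5 using ⟨h1, h2, h3, h4, h5⟩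
  obtain ⟨ρ, hρ, hball⟩ := Metric.eventually_nhds_iff_ball.1 hev
  -- the roots
  have hδ : ∀ z ∈ Metric.ball z0 ρ, z ^ m * g z ≠ 0 := fun z hz =>
    mul_ne_zero (pow_ne_zero _ (hball z hz).2.1) (hm.g0 z (hball z hz).1)
  set D : ℂ → ℂ := fun z => (m : ℂ) / z + deriv g z / g z with hDdef
  have hδLD : ∀ z ∈ Metric.ball z0 ρ, LD (fun z => z ^ m * g z) z (D z) := fun z hz =>
    (LD_id_pow (hball z hz).2.1 m).mul
      (LD.of (hgat z (hball z hz).1) (hm.g0 z (hball z hz).1))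
  have hALD' : ∀ z ∈ Metric.ball z0 ρ, LD A z (deriv A z / A z) := fun z hz =>
    LD.of (hAat z (hball z hz).1) (hball z hz).2.2.1
  have hwLD' : ∀ z ∈ Metric.ball z0 ρ, LD w z (deriv w z / w z) := fun z hz =>
    LD.of (hwat z (hball z hz).1) (hball z hz).2.2.2.1
  have hfLD : ∀ l, ∀ z ∈ Metric.ball z0 ρ,
      LD (fun z => (z ^ m * g z) ^ (β l - lam) * (A z ^ ((K : ℤ) * M - e * β l) *
        w z ^ ((K : ℤ) * M))) z
        (((β l - lam : ℤ) : ℂ) * D z + ((((K : ℤ) * M - e * β l : ℤ) : ℂ) * (deriv A z / A z) +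
          (((K : ℤ) * M : ℤ) : ℂ) * (deriv w z / w z))) :=
    fun l z hz => ((hδLD z hz).zpow (hδ z hz) _).mul
      (((hALD' z hz).zpow (hball z hz).2.2.1 _).mul ((hwLD' z hz).zpow (hball z hz).2.2.2.1 _))
  have hf0 : ∀ l, ∀ z ∈ Metric.ball z0 ρ,
      (z ^ m * g z) ^ (β l - lam) * (A z ^ ((K : ℤ) * M - e * β l) *
        w z ^ ((K : ℤ) * M)) ≠ 0 := fun l z hz =>
    mul_ne_zero (zpow_ne_zero _ (hδ z hz))
      (mul_ne_zero (zpow_ne_zero _ (hball z hz).2.2.1) (zpow_ne_zero _ (hball z hz).2.2.2.1))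
  have hex : ∀ l, ∃ r : ℂ → ℂ, DifferentiableOn ℂ r (Metric.ball z0 ρ) ∧
      ∀ z ∈ Metric.ball z0 ρ, r z ≠ 0 ∧
        LD r z ((((β l - lam : ℤ) : ℂ) * D z +
          ((((K : ℤ) * M - e * β l : ℤ) : ℂ) * (deriv A z / A z) +
          (((K : ℤ) * M : ℤ) : ℂ) * (deriv w z / w z))) / M) := by
    intro l
    obtain ⟨r, hr, hr2⟩ := hROOT (fun z => (z ^ m * g z) ^ (β l - lam) *
      (A z ^ ((K : ℤ) * M - e * β l) * w z ^ ((K : ℤ) * M))) z0 ρ M hρ hM (fun z hz =>
        (HasDerivAt.differentiableAt (hfLD l z hz)).differentiableWithinAt) (hf0 l)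
    refine ⟨r, hr, fun z hz => ⟨(hr2 z hz).1, ?_⟩⟩
    have h1 := (hr2 z hz).2.2
    rw [(hfLD l z hz).eq] at h1
    have hrd : HasDerivAt r (deriv r z) z :=
      (hr.differentiableAt (Metric.isOpen_ball.mem_nhds hz)).hasDerivAt
    unfold LD
    refine hrd.congr_deriv ?_
    have h2 := hf0 l z hz
    rw [← mul_div_assoc, eq_div_iff hMC]
    refine mul_right_cancel₀ h2 ?_
    linear_combination h1
  choose χ hχd hχ using hex
  -- the exponents
  set E : ι → ℕ := fun l => ((K : ℤ) - n0 * (lam - β l) / M).toNat with hEdef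
  have hEc : ∀ l, ((E l : ℕ) : ℂ) = K + n0 * ((β l : ℂ) - lam) / M := by
    intro l
    have h3 : ((E l : ℕ) : ℤ) = (K : ℤ) - n0 * (lam - β l) / M :=
      Int.toNat_of_nonneg (sub_nonneg.2 (hK l))
    obtain ⟨c, hc⟩ := hdiv l
    have hMz : (M : ℤ) ≠ 0 := by exact_mod_cast hM.ne'
    have h4 : (n0 : ℤ) * (lam - β l) / M = -c := by
      have h5 : (n0 : ℤ) * (lam - β l) = M * (-c) := by linear_combination -hc
      rw [h5]
      exact Int.mul_ediv_cancel_left (-c) hMz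
    rw [h4] at h3
    have h5 := congrArg (fun x : ℤ => (x : ℂ)) h3
    have h6 := congrArg (fun x : ℤ => (x : ℂ)) hc
    push_cast at h5 h6
    rw [h5, h6]
    field_simp
    ring
  refine ⟨ρ, fun z => Matrix.of fun i l => u (x z) i l * (h z ^ E l * χ l z),
    hρ, fun z hz => (hball z hz).1, fun h1 => (hball 0 h1).2.1 rfl, ?_, ?_, ?_⟩
  · intro i l z hz
    have hb := hball z hz
    have hg1 : DifferentiableAt ℂ (fun y => u y i l) (x z) :=
      (hud i l).differentiableAt (Metric.isOpen_ball.mem_nhds hb.2.2.2.2)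
    have hg2 : DifferentiableAt ℂ (fun y => u (x y) i l) z :=
      DifferentiableAt.comp z (g := fun y => u y i l) (f := x) hg1 (hxat z hb.1 hb.2.2.1)
    refine DifferentiableAt.differentiableWithinAt ?_
    simp only [Matrix.of_apply]
    exact hg2.mul (((hhat z hb.1).fun_pow _).mul
      ((hχd l).differentiableAt (Metric.isOpen_ball.mem_nhds hz)))
  · intro z hz hAz hwz hhz
    have hb := hball z hz
    have e3 : (Matrix.of fun i l => u (x z) i l * (h z ^ E l * χ l z)) =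
        u (x z) * Matrix.diagonal fun l => h z ^ E l * χ l z := by
      ext i l
      rw [Matrix.mul_diagonal, Matrix.of_apply]
    rw [e3, Matrix.det_mul, Matrix.det_diagonal]
    exact mul_ne_zero (hudet _ hb.2.2.2.2) (Finset.prod_ne_zero_iff.2 fun l _ =>
      mul_ne_zero (pow_ne_zero _ hhz) (hχ l z hz).1)
  · intro z hz hAz hwz hhz i l
    have hb := hball z hz
    have hgz := hm.g0 z hb.1
    have hhLD : LD h z (deriv h z / h z) := LD.of (hhat z hb.1) hhz
    have hALD : LD A z (deriv A z / A z) := hALD' z hz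
    have hgLD : LD g z (deriv g z / g z) := LD.of (hgat z hb.1) hgz
    have hxLD : LD x z ((m : ℂ) / z + (deriv g z / g z + (n0 : ℂ) * (deriv h z / h z)) +
        ((-(e : ℤ) : ℤ) : ℂ) * (deriv A z / A z)) :=
      ((LD_id_pow hb.2.1 m).mul (hgLD.mul (hhLD.pow hhz n0))).mul (hALD.zpow hAz _)
    have hg1 : HasDerivAt (fun y => u y i l) (deriv (fun y => u y i l) (x z)) (x z) :=
      ((hud i l).differentiableAt (Metric.isOpen_ball.mem_nhds hb.2.2.2.2)).hasDerivAt
    have hg2 : HasDerivAt (fun y => u (x y) i l) (deriv (fun y => u y i l) (x z) *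
        (x z * ((m : ℂ) / z + (deriv g z / g z + (n0 : ℂ) * (deriv h z / h z)) +
        ((-(e : ℤ) : ℤ) : ℂ) * (deriv A z / A z)))) z :=
      HasDerivAt.comp z (h₂ := fun y => u y i l) (h := x) hg1 hxLD
    have hcf : LD (fun y => h y ^ E l * χ l y) z _ :=
      (hhLD.pow hhz (E l)).mul (hχ l z hz).2
    have hall := hg2.fun_mul hcf
    -- the right side
    have hAA : ((AAW M n0 n1 n2 β C K lam m g A w h z * Matrix.of fun i l =>
        u (x z) i l * (h z ^ E l * χ l z)) i l) =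
        (h z ^ E l * χ l z) * (D z * (M : ℂ)⁻¹ * (((β i : ℂ) - lam) * u (x z) i l) +
          (deriv w z / w z) * ((f1 : ℂ) * (M : ℂ)⁻¹ * (∑ k, (C i k : ℂ) * u (x z) k l) +
            K * u (x z) i l) +
          (deriv A z / A z) * (K * u (x z) i l - (e : ℂ) * (M : ℂ)⁻¹ *
            ((β i : ℂ) * u (x z) i l + ∑ k, (C i k : ℂ) * u (x z) k l)) +
          (deriv h z / h z) * ((n0 : ℂ) * (M : ℂ)⁻¹ * (((β i : ℂ) - lam) * u (x z) i l) +
            K * u (x z) i l)) := by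
      have e5 : (C.map (Int.castRingHom ℂ) * Matrix.of fun i l =>
          u (x z) i l * (h z ^ E l * χ l z)) i l =
          (h z ^ E l * χ l z) * ∑ k, (C i k : ℂ) * u (x z) k l := by
        rw [Matrix.mul_apply, Finset.mul_sum]
        refine Finset.sum_congr rfl fun k _ => ?_
        simp only [Matrix.map_apply, Matrix.of_apply, eq_intCast]
        ring
      unfold AAW AA
      rw [he0, ← hedef, ← hf1def]
      simp only [Matrix.add_mul, Matrix.sub_mul, Matrix.smul_mul, Matrix.one_mul,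
        Matrix.add_apply, Matrix.sub_apply, Matrix.smul_apply, Matrix.diagonal_mul, smul_eq_mul,
        Matrix.of_apply, e5]
      rw [hDdef]
      ring
    rw [hAA]
    simp only [Matrix.of_apply]
    refine hall.congr_deriv ?_
    -- the equation of the series
    have heq := hueq (x z) hb.2.2.2.2 i l
    have hd := hDRL n0 n1 n2 R m g A w h hm z hb.1 hb.2.1 hAz hwz hhz
    have hrel := hm.rel z hb.1
    rw [he0, ← hedef, ← hf1def] at hd hrel
    have hAe : A z ^ e ≠ 0 := pow_ne_zero _ hAz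
    have hxz : x z = z ^ m * (g z * h z ^ n0) / A z ^ e := by
      simp only [hxdef]
      rw [_root_.zpow_neg, zpow_natCast, ← div_eq_mul_inv]
    have hx1 : x z - 1 = w z ^ f1 / A z ^ e := by
      rw [hxz, ← hrel]
      field_simp
    have h1x : 1 - x z ≠ 0 := by
      have h5 : w z ^ f1 / A z ^ e ≠ 0 := div_ne_zero (pow_ne_zero _ hwz) hAe
      rw [← hx1] at h5
      intro h6
      exact h5 (by linear_combination -h6)
    have hkey : (x z - 1) * ((f1 : ℂ) * (deriv w z / w z) - (e : ℂ) * (deriv A z / A z)) =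
        x z * (D z + (n0 : ℂ) * (deriv h z / h z) - (e : ℂ) * (deriv A z / A z)) := by
      rw [hx1, hxz, div_mul_eq_mul_div, div_mul_eq_mul_div, hd, hDdef]
    have hfin := ILOCZW.alg (M := (M : ℂ)) (φ := x z) (D := D z) (η := deriv h z / h z)
      (a := deriv A z / A z) (ω := deriv w z / w z) (e := e) (e' := f1) (n0 := n0)
      (βi := β i) (βl := β l) (K := K) (lam := lam) (u := u (x z) i l)
      (du := deriv (fun y => u y i l) (x z)) (S := ∑ k, (C i k : ℂ) * u (x z) k l)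
      hMC h1x hkey heq
    rw [← hfin, hEc l, hDdef]
    push_cast
    ring

end Pool.Agent.Work.MP_5e5ff1_ag.TH
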