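import Mathlib
import Pool.Agent.Work.MP_5e5ff1_ag.TH.StmtsW
import Pool.Agent.Work.MP_5e5ff1_ag.TH.I_MZR

set_option autoImplicit false

/-!
# MP_5e5ff1_ag, block TH, item MZW: the theorem for integral systems, elliptic base points
-/

open Matrix Filter Topology NumberField
open scoped Polynomial

namespace Pool.Agent.Work.MP_5e5ff1_ag.TH

namespace IMZW

theorem typE_pos {n0 n1 n2 : ℕ} {R : ℝ} (h : TypE n0 n1 n2 R) : 0 < R := by
  rcases h with h | h | h | h | h | h | h | h | h | h | h <;> rw [h.2.2.2] <;> positivity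

theorem typW_pos {n0 n1 n2 : ℕ} {R : ℝ} (h : TypW n0 n1 n2 R) : 0 < R := by
  rcases h with h | h | h
  · exact IMZR.typ_pos h.2
  · exact typE_pos h
  · exact typE_pos h

end IMZW

theorem pr_MZW (hCrit : StCrit2) (hMap : StMapW) (hDNS : StDNS) (hGRTS : StGRTS)
    (hUCV : StUCV) (hCONW : StCONW) (hPwr : TG.StPwr) (hCnv : TG.StCnv) : StMZW := by
  intro ι _ _ _ M n0 n1 n2 β C S T κ R L₀ U hTyp hL₀ hsys hM0 hMT hcost₀ hU hT i j
  have hM : 0 < M := hsys.hM
  have hTp : ∀ p ∈ T, p.Prime := fun p hp => (hT p hp).1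
  obtain ⟨δ, hδ, hL'⟩ := IMZR.exists_delta T hTp hL₀
  obtain ⟨L, hLdef⟩ : ∃ L : ℝ, L = L₀ + δ * ∑ p ∈ T, Real.log p := ⟨_, rfl⟩
  obtain ⟨κ', hκ'⟩ : ∃ κ' : ℕ → ℝ, κ' = fun p => κ p + δ := ⟨_, rfl⟩
  have hL : L < Real.log R := by rw [hLdef]; exact hL'
  have hcost : CostT T κ' (nc M β) S L := by
    rw [hκ', hLdef]
    exact IMZR.cost_add hcost₀
  have hT' : ∀ p ∈ T, p.Prime ∧ 0 ≤ κ' p := by
    intro p hp
    rw [hκ']
    exact ⟨(hT p hp).1, add_nonneg (hT p hp).2.1 hδ.le⟩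
  obtain ⟨ap, hap⟩ := IMZR.exists_a T κ hδ U fun p hp => (hT p hp).2.2
  have hR : 0 < R := IMZW.typW_pos hTyp
  have hexp : Real.exp L < R := (Real.lt_log_iff_exp_lt hR).1 hL
  obtain ⟨R', hR1, hR2⟩ := exists_between hexp
  obtain ⟨m, g, A, w, h0f, hm⟩ := hMap n0 n1 n2 R hTyp R' hR2
  obtain ⟨B, hB⟩ := IMZR.bound β
  obtain ⟨A0, hA1, hAU⟩ := hUCV ι M β C U hM hU
  obtain ⟨d, hd, hdU⟩ := IMZR.exists_den U B
  obtain ⟨h, F, hh, hne, hF, hFe⟩ := hCONW ι M n0 n1 n2 β C S U hsys hM0 hU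
    R' m g A w h0f hm i j
  obtain ⟨f, hf⟩ : ∃ f : PowerSeries ℚ, f = PowerSeries.mk fun n => U n i j := ⟨_, rfl⟩
  obtain ⟨a, ha⟩ : ∃ a : ℕ → ℚ, a = fun n => PowerSeries.coeff n (f ^ M) := ⟨_, rfl⟩
  have hmk : PowerSeries.mk a = f ^ M := by
    ext n
    rw [PowerSeries.coeff_mk, ha]
  have h0 : (0 : ℂ) ∈ Metric.ball (0 : ℂ) 1 := Metric.mem_ball_self one_pos
  have hA2 : (1 : ℝ) ≤ 2 * A0 := by linarith
  have halg : IsAlgebraic ℚ[X] (PowerSeries.mk a : PowerSeries ℚ) := by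
    refine hCrit L ((2 * A0) ^ M) a m (fun z => g z * h0f z ^ e1 n0) (fun z => A z ^ e1 n2) h F
      ?_ (one_le_pow₀ hA2) ?_ hm.m0
      (hm.dg.mul (hm.dh.pow _)) (hm.dA.pow _) hh hF (pow_ne_zero _ hm.A00) ?_ hne ?_
    · intro J ε hε
      obtain ⟨N0, hN0⟩ := hGRTS M (nc M β) S T κ' ap L B (M * J) hM (IMZR.one_le_nc M β) hT' hMT
        hcost (ε / 2) (by positivity)
      have hd1 : 0 ≤ Real.log (d : ℝ) := Real.log_nonneg (by exact_mod_cast hd)
      refine ⟨max N0 ⌈2 * ((M * J : ℕ) : ℝ) * Real.log (d : ℝ) / ε⌉₊, fun N hN =>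
        ⟨d ^ (M * J) * dS M (nc M β) S T κ' ap B (M * J) N,
        Nat.mul_pos (Nat.pow_pos hd) (IMZR.dS_pos M (nc M β) S T κ' ap hTp B (M * J) N), ?_, ?_⟩⟩
      · have e1 := hN0 N ((le_max_left _ _).trans hN)
        have e2 : 2 * ((M * J : ℕ) : ℝ) * Real.log (d : ℝ) / ε ≤ N :=
          (Nat.le_ceil _).trans (by exact_mod_cast (le_max_right _ _).trans hN)
        rw [div_le_iff₀ hε] at e2
        have e3 : 0 < dS M (nc M β) S T κ' ap B (M * J) N :=
          IMZR.dS_pos M (nc M β) S T κ' ap hTp B (M * J) N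
        have e4 : Real.log ((d ^ (M * J) * dS M (nc M β) S T κ' ap B (M * J) N : ℕ) : ℝ) =
            ((M * J : ℕ) : ℝ) * Real.log (d : ℝ) +
              Real.log (dS M (nc M β) S T κ' ap B (M * J) N : ℝ) := by
          rw [Nat.cast_mul, Nat.cast_pow, Real.log_mul (by positivity)
            (by exact_mod_cast e3.ne'), Real.log_pow]
        rw [e4]
        nlinarith
      intro j' hj' k hk
      rw [hmk, ← pow_mul, hf]
      refine hDNS ι M β C S T κ' ap U hM hU hMT hsys.pz ?_ B hB d hd hdU i j (M * J) N (M * j')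
        (Nat.mul_le_mul_left _ hj') k hk
      intro p hp
      refine ⟨(hT' p hp).2, fun n i j => ?_⟩
      rw [hκ']
      exact hap p hp n i j
    · intro n
      have h1 := hPwr (fun n => U n i j) A0 hA1 (fun n => hAU n i j) M n
      rw [← hf] at h1
      have h2 : (2 * A0) ^ (n + M) ≤ ((2 * A0) ^ M) ^ (n + 1) := by
        rw [← pow_mul]
        refine pow_le_pow_right₀ hA2 ?_
        nlinarith
      rw [ha]
      exact h1.trans h2
    · have h1 : 0 < R' := (Real.exp_pos L).trans hR1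
      have h2 : L < Real.log R' := (Real.lt_log_iff_exp_lt h1).2 hR1
      refine h2.trans_le (Real.log_le_log h1 ?_)
      rw [norm_pow]
      exact hm.rad
    · have hcont : ContinuousAt (fun z => z ^ m * (g z * h0f z ^ e1 n0) / A z ^ e1 n2) 0 := by
        have hnb : Metric.ball (0 : ℂ) 1 ∈ 𝓝 (0 : ℂ) := Metric.ball_mem_nhds _ one_pos
        have hg : ContinuousAt g 0 := (hm.dg.differentiableAt hnb).continuousAt
        have hA : ContinuousAt A 0 := (hm.dA.differentiableAt hnb).continuousAt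
        have hh0 : ContinuousAt h0f 0 := (hm.dh.differentiableAt hnb).continuousAt
        exact ((continuousAt_id.pow m).mul (hg.mul (hh0.pow _))).div (hA.pow _)
          (pow_ne_zero _ hm.A00)
      have hlim : Tendsto (fun z => ‖z ^ m * (g z * h0f z ^ e1 n0) / A z ^ e1 n2‖) (𝓝 0) (𝓝 0) := by
        have h1 := hcont.norm.tendsto
        simp only [zero_pow hm.m0.ne', zero_mul, zero_div, norm_zero] at h1
        exact h1
      have hev := hlim.eventually_lt_const (show (0 : ℝ) < 1 / (2 * A0) by positivity)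
      filter_upwards [hFe, hev] with z hz1 hz2
      rw [hz1]
      congr 1
      have h3 := (hCnv (fun n => U n i j) A0 hA1 (fun n => hAU n i j) _ hz2 M).2
      rw [← hf] at h3
      rw [ha]
      exact h3.symm
  rw [hmk] at halg
  rw [← hf]
  exact IsAlgebraic.of_pow hM halg

end Pool.Agent.Work.MP_5e5ff1_ag.TH
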