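import Mathlib
import Pool.Agent.Work.MP_5e5ff1_ag.TH.StmtsV

set_option autoImplicit false

/-!
# Item OCTW of the block TH, part V: composition with the Belyi map of degree eight
-/

open Filter Topology

namespace Pool.Agent.Work.MP_5e5ff1_ag.TH

namespace IOCTW

lemma h2 (x Y r : ℂ) (hr : r ^ 2 + 3 = 0) :
    (-(13 + 3 * r) / 2 * x + 3 * r * Y) ^ 2 =
      (71 + 39 * r) / 2 * x ^ 2 + (27 - 39 * r) * x * Y - 27 * Y ^ 2 := by
  linear_combination ((9 / 4 : ℂ) * x ^ 2 + (-9 : ℂ) * x * Y + (9 : ℂ) * Y ^ 2) * hr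

lemma h3 (x Y r : ℂ) (hr : r ^ 2 + 3 = 0) :
    (-(13 + 3 * r) / 2 * x + 3 * r * Y) ^ 3 =
      (-143 - 180 * r) * x ^ 3 + (-1053 + 639 * r) / 2 * x ^ 2 * Y +
        (1053 + 243 * r) / 2 * x * Y ^ 2 - 81 * r * Y ^ 3 := by
  rw [pow_succ, h2 x Y r hr]
  linear_combination ((-117 / 4 : ℂ) * x ^ 3 + (117 : ℂ) * x ^ 2 * Y +
    (-117 : ℂ) * x * Y ^ 2) * hr

lemma h4 (x Y r : ℂ) (hr : r ^ 2 + 3 = 0) :
    (-(13 + 3 * r) / 2 * x + 3 * r * Y) ^ 4 =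
      (239 + 2769 * r) / 2 * x ^ 4 + (6480 - 1716 * r) * x ^ 3 * Y +
        (-5751 - 3159 * r) * x ^ 2 * Y ^ 2 + (-1458 + 2106 * r) * x * Y ^ 3 + 729 * Y ^ 4 := by
  rw [show (4 : ℕ) = 2 * 2 from rfl, pow_mul, h2 x Y r hr]
  linear_combination ((1521 / 4 : ℂ) * x ^ 4 + (-1521 : ℂ) * x ^ 3 * Y +
    (1521 : ℂ) * x ^ 2 * Y ^ 2) * hr

lemma h7 (x Y r : ℂ) (hr : r ^ 2 + 3 = 0) :
    (-(13 + 3 * r) / 2 * x + 3 * r * Y) ^ 7 =
      (1461083 - 438987 * r) / 2 * x ^ 7 + (-3243240 - 1611771 * r) * x ^ 6 * Y +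
        (-6184269 + 10408419 * r) / 2 * x ^ 5 * Y ^ 2 +
        (23550345 - 677565 * r) / 2 * x ^ 4 * Y ^ 3 +
        (-3648645 - 4592700 * r) * x ^ 3 * Y ^ 4 +
        (-5373459 + 3260817 * r) / 2 * x ^ 2 * Y ^ 5 +
        (1791153 + 413343 * r) / 2 * x * Y ^ 6 - 59049 * r * Y ^ 7 := by
  rw [show (7 : ℕ) = 3 + 4 from rfl, pow_add, h3 x Y r hr, h4 x Y r hr]
  linear_combination ((-249210 : ℂ) * x ^ 7 + (3004911 / 4 : ℂ) * x ^ 6 * Y +
    (754299 / 4 : ℂ) * x ^ 5 * Y ^ 2 + (-1709019 : ℂ) * x ^ 4 * Y ^ 3 +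
    (856089 / 2 : ℂ) * x ^ 3 * Y ^ 4 + (511758 : ℂ) * x ^ 2 * Y ^ 5 +
    (-170586 : ℂ) * x * Y ^ 6) * hr

lemma d2 (x Y r : ℂ) (hr : r ^ 2 + 3 = 0) :
    ((844 - 348 * r) * x ^ 2 + (27 + 696 * r) * x * Y - 27 * Y ^ 2) ^ 2 =
      (349024 - 587424 * r) * x ^ 4 + (1498824 + 1156056 * r) * x ^ 3 * Y +
        (-1498095 + 56376 * r) * x ^ 2 * Y ^ 2 + (-1458 - 37584 * r) * x * Y ^ 3 +
        729 * Y ^ 4 := by
  linear_combination ((121104 : ℂ) * x ^ 4 + (-484416 : ℂ) * x ^ 3 * Y +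
    (484416 : ℂ) * x ^ 2 * Y ^ 2) * hr

lemma d3 (x Y r : ℂ) (hr : r ^ 2 + 3 = 0) :
    ((844 - 348 * r) * x ^ 2 + (27 + 696 * r) * x * Y - 27 * Y ^ 2) ^ 3 =
      (-318694400 - 617246208 * r) * x ^ 6 + (3707894880 + 681180768 * r) * x ^ 5 * Y +
        (-3588335964 + 1659173868 * r) * x ^ 4 * Y ^ 2 +
        (-239098149 - 1103578992 * r) * x ^ 3 * Y ^ 3 +
        (119499867 - 3805380 * r) * x ^ 2 * Y ^ 4 + (59049 + 1522152 * r) * x * Y ^ 5 -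
        19683 * Y ^ 6 := by
  rw [pow_succ, d2 x Y r hr]
  linear_combination ((204423552 : ℂ) * x ^ 6 + (-811154592 : ℂ) * x ^ 5 * Y +
    (784996128 : ℂ) * x ^ 4 * Y ^ 2 + (52316928 : ℂ) * x ^ 3 * Y ^ 3 +
    (-26158464 : ℂ) * x ^ 2 * Y ^ 4) * hr

lemma main (x Y r : ℂ) (hr : r ^ 2 + 3 = 0) :
    64 * x * (-(13 + 3 * r) / 2 * x + 3 * r * Y) ^ 7 -
      Y * (x - Y) * ((844 - 348 * r) * x ^ 2 + (27 + 696 * r) * x * Y - 27 * Y ^ 2) ^ 3 =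
    ((-7052 + 996 * r) * x ^ 4 + (7138 - 35442 * r) * x ^ 3 * Y +
      (20898 + 35523 * r) * x ^ 2 * Y ^ 2 + (-13932 - 162 * r) * x * Y ^ 3 +
      81 * r * Y ^ 4) ^ 2 := by
  rw [h7 x Y r hr, d3 x Y r hr]
  linear_combination (-((992016 : ℂ) * x ^ 8 + (-70600464 : ℂ) * x ^ 7 * Y +
    (1326897180 : ℂ) * x ^ 6 * Y ^ 2 + (-2518335036 : ℂ) * x ^ 5 * Y ^ 3 +
    (1273528089 : ℂ) * x ^ 4 * Y ^ 4 + (-17251056 : ℂ) * x ^ 3 * Y ^ 5 +
    (5780970 : ℂ) * x ^ 2 * Y ^ 6 + (-26244 : ℂ) * x * Y ^ 7 + (6561 : ℂ) * Y ^ 8)) * hr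

/-- the three cases of `cop` -/
lemma cop (x Y r : ℂ) (hr : r ^ 2 + 3 = 0)
    (hh : -(13 + 3 * r) / 2 * x + 3 * r * Y = 0)
    (h : Y = 0 ∨ x = Y ∨ (844 - 348 * r) * x ^ 2 + (27 + 696 * r) * x * Y - 27 * Y ^ 2 = 0) :
    x = 0 ∧ Y = 0 := by
  have e1 : 98 * x = (27 + 39 * r) * Y := by
    linear_combination (-(13 - 3 * r)) * hh + ((9 / 2 : ℂ) * x - 9 * Y) * hr
  have hx : Y = 0 → x = 0 := by
    intro hY
    rw [hY, mul_zero] at e1
    rcases mul_eq_zero.1 e1 with h | h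
    · exact absurd h (by norm_num)
    · exact h
  rcases h with hY | hxy | hD
  · exact ⟨hx hY, hY⟩
  · have e2 : (-13 + 3 * r) * Y = 0 := by
      rw [hxy] at hh
      linear_combination 2 * hh
    have e3 : 196 * Y = 0 := by
      linear_combination (-13 - 3 * r) * e2 + 9 * Y * hr
    have hY : Y = 0 := by
      rcases mul_eq_zero.1 e3 with h | h
      · exact absurd h (by norm_num)
      · exact h
    exact ⟨hx hY, hY⟩
  · have e2 : (-1917 + 1053 * r) * Y ^ 2 = 0 := by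
      have e4 : 4802 * ((-1917 + 1053 * r) * Y ^ 2) = 0 := by
        linear_combination 9604 * hD - ((844 - 348 * r) * (98 * x + (27 + 39 * r) * Y) +
          98 * (27 + 696 * r) * Y) * e1 -
          (-529308 * r + 3210948) * Y ^ 2 * hr
      rcases mul_eq_zero.1 e4 with h | h
      · exact absurd h (by norm_num)
      · exact h
    have e3 : 7001316 * Y ^ 2 = 0 := by
      linear_combination (-1917 - 1053 * r) * e2 + 1108809 * Y ^ 2 * hr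
    have hY : Y = 0 := by
      rcases mul_eq_zero.1 e3 with h | h
      · exact absurd h (by norm_num)
      · exact pow_eq_zero_iff (by norm_num) |>.1 h
    exact ⟨hx hY, hY⟩

end IOCTW

open IOCTW in
theorem pr_OCTW : StOCTW := by
  intro R m g A w hm
  obtain ⟨r, hrd⟩ : ∃ r : ℂ, r = (Real.sqrt 3 : ℂ) * Complex.I := ⟨_, rfl⟩
  have h33 : ((Real.sqrt 3 : ℝ) : ℂ) ^ 2 = 3 := by
    rw [← Complex.ofReal_pow, Real.sq_sqrt (by norm_num)]
    norm_num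
  have hr : r ^ 2 + 3 = 0 := by
    rw [hrd, mul_pow, h33, Complex.I_sq]
    norm_num
  have hrn : ‖r‖ = Real.sqrt 3 := by
    rw [hrd, norm_mul, Complex.norm_I, mul_one, Complex.norm_real, Real.norm_eq_abs,
      abs_of_nonneg (Real.sqrt_nonneg 3)]
  have hr0 : r ≠ 0 := by
    intro h
    rw [h] at hr
    norm_num at hr
  have e3 : e1 3 = 3 := rfl
  have e2 : e1 2 = 2 := rfl
  have e7 : e1 7 = 7 := rfl
  have hid : DifferentiableOn ℂ (fun z : ℂ => z) (Metric.ball 0 1) := differentiableOn_id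
  have hrel := hm.rel
  rw [e3] at hrel
  have hx : DifferentiableOn ℂ (fun z : ℂ => z ^ m * g z) (Metric.ball 0 1) :=
    (hid.pow m).mul hm.dg
  have hy : DifferentiableOn ℂ (fun z : ℂ => A z ^ 3) (Metric.ball 0 1) := hm.dA.pow _
  have hz0 : (0 : ℂ) ∈ Metric.ball (0 : ℂ) 1 := Metric.mem_ball_self one_pos
  have hx0 : (0 : ℂ) ^ m * g 0 = 0 := by
    rw [zero_pow hm.m0.ne', zero_mul]
  have hrel0 : w 0 ^ 3 = -(A 0 ^ 3) := by
    have := hrel 0 hz0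
    rw [hx0, zero_sub] at this
    exact this.symm
  have hA0 : A 0 ≠ 0 := hm.A00
  have hnz : ∀ z ∈ Metric.ball (0 : ℂ) 1, z ^ m * g z = 0 → A z ^ 3 = 0 → False := by
    intro z hz h1 h2
    have hz1 : z = 0 := by
      rcases mul_eq_zero.1 h1 with h3 | h3
      · exact pow_eq_zero_iff (hm.m0.ne') |>.1 h3
      · exact absurd h3 (hm.g0 z hz)
    rw [hz1] at h2
    exact hA0 (pow_eq_zero_iff (by norm_num) |>.1 h2)
  refine ⟨fun z => 64 * g z,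
    fun z => A z * w z * ((844 - 348 * r) * (z ^ m * g z) ^ 2 +
      (27 + 696 * r) * (z ^ m * g z) * A z ^ 3 - 27 * (A z ^ 3) ^ 2),
    fun z => (-7052 + 996 * r) * (z ^ m * g z) ^ 4 +
      (7138 - 35442 * r) * (z ^ m * g z) ^ 3 * A z ^ 3 +
      (20898 + 35523 * r) * (z ^ m * g z) ^ 2 * (A z ^ 3) ^ 2 +
      (-13932 - 162 * r) * (z ^ m * g z) * (A z ^ 3) ^ 3 + 81 * r * (A z ^ 3) ^ 4,
    fun z => -(13 + 3 * r) / 2 * (z ^ m * g z) + 3 * r * A z ^ 3, ?_⟩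
  refine ⟨?_, ?_, ?_, ?_, hm.m0, ?_, ?_, ?_, ?_, ?_, ?_, ?_, ?_, ?_⟩
  · exact hm.dg.const_mul 64
  · exact (hm.dA.mul hm.dw).mul ((((hx.pow 2).const_mul _).add ((hx.const_mul _).mul hy)).sub
      ((hy.pow 2).const_mul 27))
  · exact ((((hx.pow 4).const_mul _).add (((hx.pow 3).const_mul _).mul hy)).add
      (((hx.pow 2).const_mul _).mul (hy.pow 2))).add ((hx.const_mul _).mul (hy.pow 3)) |>.add
      ((hy.pow 4).const_mul _)
  · exact (hx.const_mul _).add (hy.const_mul _)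
  · intro z hz
    exact mul_ne_zero (by norm_num) (hm.g0 z hz)
  · intro z hz
    have h := hrel z hz
    rw [e2, e3, e7]
    have h5 := main (z ^ m * g z) (A z ^ 3) r hr
    rw [← h5]
    have h6 : (A z * w z * ((844 - 348 * r) * (z ^ m * g z) ^ 2 +
      (27 + 696 * r) * (z ^ m * g z) * A z ^ 3 - 27 * (A z ^ 3) ^ 2)) ^ 3 =
      A z ^ 3 * (z ^ m * g z - A z ^ 3) * ((844 - 348 * r) * (z ^ m * g z) ^ 2 +
      (27 + 696 * r) * (z ^ m * g z) * A z ^ 3 - 27 * (A z ^ 3) ^ 2) ^ 3 := by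
      rw [mul_pow, mul_pow, ← h]
    rw [h6]
    ring
  · intro h
    exact absurd h (by norm_num)
  · intro h
    exact absurd h (by norm_num)
  · intro h
    exact absurd h (by norm_num)
  · intro z hz hAz hhz
    have h := hrel z hz
    have h5 : A z ^ 3 = 0 ∨ z ^ m * g z = A z ^ 3 ∨
        (844 - 348 * r) * (z ^ m * g z) ^ 2 + (27 + 696 * r) * (z ^ m * g z) * A z ^ 3 -
          27 * (A z ^ 3) ^ 2 = 0 := by
      rcases mul_eq_zero.1 hAz with h1 | h1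
      · rcases mul_eq_zero.1 h1 with h2 | h2
        · left
          rw [h2, zero_pow (by norm_num)]
        · right
          left
          rw [h2, zero_pow (by norm_num)] at h
          exact sub_eq_zero.1 h
      · right
        right
        exact h1
    obtain ⟨h6, h7⟩ := cop (z ^ m * g z) (A z ^ 3) r hr hhz h5
    exact hnz z hz h6 h7
  · have hw0 : w 0 ≠ 0 := by
      intro h
      rw [h, zero_pow (by norm_num)] at hrel0
      exact (neg_ne_zero.2 (pow_ne_zero 3 hA0)) hrel0.symm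
    simp only [hx0]
    refine mul_ne_zero (mul_ne_zero hA0 hw0) ?_
    have h5 : (844 - 348 * r) * (0 : ℂ) ^ 2 + (27 + 696 * r) * 0 * A 0 ^ 3 - 27 * (A 0 ^ 3) ^ 2 =
        -27 * (A 0 ^ 3) ^ 2 := by ring
    rw [h5]
    exact mul_ne_zero (by norm_num) (pow_ne_zero _ (pow_ne_zero _ hA0))
  · simp only [hx0, mul_zero, zero_add]
    exact mul_ne_zero (mul_ne_zero (by norm_num) hr0) (pow_ne_zero _ hA0)
  · have hrad := hm.rad
    rw [e3] at hrad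
    rw [e3, e7]
    simp only [hx0]
    have hw : ‖w 0‖ ^ 3 = ‖A 0‖ ^ 3 := by
      rw [← norm_pow, hrel0, norm_neg, norm_pow]
    have h1 : ‖64 * g 0 * (-(13 + 3 * r) / 2 * 0 + 3 * r * A 0 ^ 3) ^ 7‖ =
        64 * ‖g 0‖ * (3 ^ 7 * (27 * Real.sqrt 3) * (‖A 0‖ ^ 3) ^ 7) := by
      have hs : Real.sqrt 3 ^ 7 = 27 * Real.sqrt 3 := by
        have : Real.sqrt 3 ^ 2 = 3 := Real.sq_sqrt (by norm_num)
        calc Real.sqrt 3 ^ 7 = (Real.sqrt 3 ^ 2) ^ 3 * Real.sqrt 3 := by ring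
          _ = 27 * Real.sqrt 3 := by rw [this]; norm_num
      rw [mul_zero, zero_add, norm_mul, norm_mul, norm_pow, norm_mul, norm_mul, hrn, norm_pow,
        mul_pow, mul_pow, hs]
      norm_num
    have h2 : ‖A 0 * w 0 * ((844 - 348 * r) * (0 : ℂ) ^ 2 +
        (27 + 696 * r) * 0 * A 0 ^ 3 - 27 * (A 0 ^ 3) ^ 2)‖ ^ 3 =
        ‖A 0‖ ^ 3 * ‖A 0‖ ^ 3 * (27 ^ 3 * (‖A 0‖ ^ 3) ^ 6) := by
      have h5 : (844 - 348 * r) * (0 : ℂ) ^ 2 + (27 + 696 * r) * 0 * A 0 ^ 3 -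
          27 * (A 0 ^ 3) ^ 2 = -27 * (A 0 ^ 3) ^ 2 := by ring
      have h27 : ‖(-27 : ℂ)‖ = 27 := by
        rw [norm_neg]
        norm_num
      rw [h5, norm_mul, norm_mul, norm_mul, norm_pow, norm_pow, h27, mul_pow, mul_pow, hw]
      ring
    rw [h1, h2]
    have hn : 0 < ‖A 0‖ := norm_pos_iff.2 hA0
    have hp : 0 < ‖A 0‖ ^ 3 := pow_pos hn _
    have h3 : 64 * ‖g 0‖ * (3 ^ 7 * (27 * Real.sqrt 3) * (‖A 0‖ ^ 3) ^ 7) /
        (‖A 0‖ ^ 3 * ‖A 0‖ ^ 3 * (27 ^ 3 * (‖A 0‖ ^ 3) ^ 6)) =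
        192 * Real.sqrt 3 * (‖g 0‖ / ‖A 0‖ ^ 3) := by
      field_simp
      ring
    rw [h3]
    exact mul_le_mul_of_nonneg_left hrad (by positivity)

end Pool.Agent.Work.MP_5e5ff1_ag.TH
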