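import Mathlib
import Pool.Agent.Work.MP_5e5ff1_ag.TH.StmtsW

set_option autoImplicit false

/-!
# MP_5e5ff1_ag, block TH, part W, item ODXW (helper4): the differential equation propagates
-/

open Matrix Filter Topology
open scoped Polynomial

namespace Pool.Agent.Work.MP_5e5ff1_ag.TH

namespace IODXW

variable {ι : Type} [Fintype ι] [DecidableEq ι]

/-- the right side, entrywise -/
theorem AA_mulVec (M n1 n2 : ℕ) (β : ι → ℤ) (C : Matrix ι ι ℤ) (K : ℕ) (lam : ℤ) (m : ℕ)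
    (g A w : ℂ → ℂ) (z : ℂ) (v : ι → ℂ) (i : ι) : (AA M n1 n2 β C K lam m g A w z *ᵥ v) i =
      (((m : ℂ) / z + deriv g z / g z) * (M : ℂ)⁻¹) * (((β i : ℂ) - lam) * v i) +
        (deriv w z / w z) * (((e1 n1 : ℂ) * (M : ℂ)⁻¹) * ∑ l, (C i l : ℂ) * v l + K * v i) +
        (deriv A z / A z) * (K * v i - ((e1 n2 : ℂ) * (M : ℂ)⁻¹) *
          ((β i : ℂ) * v i + ∑ l, (C i l : ℂ) * v l)) := by
  have h : (C.map (Int.castRingHom ℂ) *ᵥ v) i = ∑ l, (C i l : ℂ) * v l := by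
    rw [Matrix.mulVec, dotProduct]
    simp only [Matrix.map_apply, eq_intCast]
  unfold AA
  rw [Matrix.add_mulVec, Matrix.add_mulVec, Matrix.smul_mulVec, Matrix.smul_mulVec,
    Matrix.smul_mulVec, Matrix.add_mulVec, Matrix.sub_mulVec, Matrix.smul_mulVec,
    Matrix.smul_mulVec, Matrix.smul_mulVec, Matrix.add_mulVec, Matrix.one_mulVec]
  simp only [Pi.add_apply, Pi.sub_apply, Pi.smul_apply, smul_eq_mul, h, Matrix.mulVec_diagonal]

/-- the right side with `h`, entrywise -/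
theorem AAW_mulVec (M n0 n1 n2 : ℕ) (β : ι → ℤ) (C : Matrix ι ι ℤ) (K : ℕ) (lam : ℤ) (m : ℕ)
    (g A w h : ℂ → ℂ) (z : ℂ) (v : ι → ℂ) (i : ι) :
    (AAW M n0 n1 n2 β C K lam m g A w h z *ᵥ v) i =
      (AA M n1 n2 β C K lam m g A w z *ᵥ v) i +
        (deriv h z / h z) * (((e1 n0 : ℂ) * (M : ℂ)⁻¹) * (((β i : ℂ) - lam) * v i) +
          K * v i) := by
  unfold AAW
  rw [Matrix.add_mulVec, Matrix.smul_mulVec, Matrix.add_mulVec, Matrix.smul_mulVec,
    Matrix.smul_mulVec, Matrix.one_mulVec]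
  simp only [Pi.add_apply, Pi.smul_apply, smul_eq_mul, Matrix.mulVec_diagonal]

/-- the holomorphic expression -/
noncomputable def H (M n0 n1 n2 : ℕ) (β : ι → ℤ) (C : Matrix ι ι ℤ) (K : ℕ) (lam : ℤ) (m : ℕ)
    (g A w h : ℂ → ℂ) (V : ℂ → ι → ℂ) (i : ι) (z : ℂ) : ℂ :=
  z * g z * w z * A z * h z * deriv (fun y => V y i) z -
    ((((m : ℂ) * g z + z * deriv g z) * w z * A z * h z *
        ((M : ℂ)⁻¹ * (((β i : ℂ) - lam) * V z i)) +
      z * g z * A z * h z * deriv w z *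
        (((e1 n1 : ℂ) * (M : ℂ)⁻¹) * ∑ l, (C i l : ℂ) * V z l + K * V z i) +
      z * g z * w z * h z * deriv A z * (K * V z i - ((e1 n2 : ℂ) * (M : ℂ)⁻¹) *
          ((β i : ℂ) * V z i + ∑ l, (C i l : ℂ) * V z l))) +
      z * g z * w z * A z * deriv h z *
        (((e1 n0 : ℂ) * (M : ℂ)⁻¹) * (((β i : ℂ) - lam) * V z i) + K * V z i))

theorem H_eq (M n0 n1 n2 : ℕ) (β : ι → ℤ) (C : Matrix ι ι ℤ) (K : ℕ) (lam : ℤ) (m : ℕ)
    (g A w h : ℂ → ℂ) (V : ℂ → ι → ℂ) (i : ι) (z : ℂ) (h0 : z ≠ 0) (hg : g z ≠ 0) (hA : A z ≠ 0)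
    (hw : w z ≠ 0) (hh : h z ≠ 0) : H M n0 n1 n2 β C K lam m g A w h V i z =
      z * g z * w z * A z * h z * (deriv (fun y => V y i) z -
        (AAW M n0 n1 n2 β C K lam m g A w h z *ᵥ V z) i) := by
  rw [AAW_mulVec, AA_mulVec]
  unfold H
  generalize (∑ l, (C i l : ℂ) * V z l) = s
  generalize ((M : ℂ)⁻¹) = t
  field_simp

omit [DecidableEq ι] in
theorem H_diff (M n0 n1 n2 : ℕ) (β : ι → ℤ) (C : Matrix ι ι ℤ) (K : ℕ) (lam : ℤ) (R : ℝ) (m : ℕ)
    (g A w h : ℂ → ℂ) (hm : IsMapW n0 n1 n2 R m g A w h) (V : ℂ → ι → ℂ) (r : ℝ) (hr : r ≤ 1)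
    (hV : ∀ i, DifferentiableOn ℂ (fun z => V z i) (Metric.ball 0 r)) (i : ι) :
    DifferentiableOn ℂ (H M n0 n1 n2 β C K lam m g A w h V i) (Metric.ball 0 r) := by
  have hsub : Metric.ball (0 : ℂ) r ⊆ Metric.ball 0 1 := Metric.ball_subset_ball hr
  have h0 : DifferentiableOn ℂ (fun z : ℂ => z) (Metric.ball 0 r) := differentiableOn_id
  have h1 : DifferentiableOn ℂ g (Metric.ball 0 r) := hm.dg.mono hsub
  have h2 : DifferentiableOn ℂ w (Metric.ball 0 r) := hm.dw.mono hsub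
  have h3 : DifferentiableOn ℂ A (Metric.ball 0 r) := hm.dA.mono hsub
  have h4 : DifferentiableOn ℂ h (Metric.ball 0 r) := hm.dh.mono hsub
  have h1' : DifferentiableOn ℂ (deriv g) (Metric.ball 0 r) := h1.deriv Metric.isOpen_ball
  have h2' : DifferentiableOn ℂ (deriv w) (Metric.ball 0 r) := h2.deriv Metric.isOpen_ball
  have h3' : DifferentiableOn ℂ (deriv A) (Metric.ball 0 r) := h3.deriv Metric.isOpen_ball
  have h4' : DifferentiableOn ℂ (deriv h) (Metric.ball 0 r) := h4.deriv Metric.isOpen_ball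
  have h5 : DifferentiableOn ℂ (deriv (fun y => V y i)) (Metric.ball 0 r) :=
    (hV i).deriv Metric.isOpen_ball
  have h6 : DifferentiableOn ℂ (fun z => ∑ l, (C i l : ℂ) * V z l) (Metric.ball 0 r) :=
    DifferentiableOn.fun_sum fun l _ => (hV l).const_mul _
  exact (((((h0.mul h1).mul h2).mul h3).mul h4).mul h5).sub
    ((((((((h1.const_mul _).add (h0.mul h1')).mul h2).mul h3).mul h4).mul
        (((hV i).const_mul _).const_mul _)).add
      (((((h0.mul h1).mul h3).mul h4).mul h2').mul ((h6.const_mul _).add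
        ((hV i).const_mul _)))).add
      (((((h0.mul h1).mul h2).mul h4).mul h3').mul (((hV i).const_mul _).sub
        ((((hV i).const_mul _).add h6).const_mul _))) |>.add
      (((((h0.mul h1).mul h2).mul h3).mul h4').mul ((((hV i).const_mul _).const_mul _).add
        ((hV i).const_mul _))))

end IODXW

theorem pr_ODXW (hT : StWNZW) : StODXW := by
  intro ι _ _ M n0 n1 n2 β C R m g A w h hm K lam W V ρ r hρ hr hr1 hW hV hVW z hz h0 hA hw hh i
  have hev : ∀ᶠ z in 𝓝[≠] (0 : ℂ), IODXW.H M n0 n1 n2 β C K lam m g A w h V i z = 0 := by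
    have e0 : ∀ᶠ z in 𝓝[≠] (0 : ℂ), z ≠ 0 := eventually_mem_nhdsWithin
    have eb : ∀ᶠ z in 𝓝[≠] (0 : ℂ), z ∈ Metric.ball (0 : ℂ) 1 :=
      nhdsWithin_le_nhds (Metric.ball_mem_nhds (0 : ℂ) one_pos)
    have eA : ∀ᶠ z in 𝓝[≠] (0 : ℂ), A z ≠ 0 := by
      have hc : ContinuousAt A 0 :=
        (hm.dA.differentiableAt (Metric.ball_mem_nhds (0 : ℂ) one_pos)).continuousAt
      exact (hc.eventually_ne hm.A00).filter_mono nhdsWithin_le_nhds
    have eh : ∀ᶠ z in 𝓝[≠] (0 : ℂ), h z ≠ 0 := by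
      have hc : ContinuousAt h 0 :=
        (hm.dh.differentiableAt (Metric.ball_mem_nhds (0 : ℂ) one_pos)).continuousAt
      exact (hc.eventually_ne hm.h00).filter_mono nhdsWithin_le_nhds
    have ew : ∀ᶠ z in 𝓝[≠] (0 : ℂ), w z ≠ 0 := by
      have hc : ContinuousAt w 0 :=
        (hm.dw.differentiableAt (Metric.ball_mem_nhds (0 : ℂ) one_pos)).continuousAt
      exact (hc.eventually_ne (hT n0 n1 n2 R m g A w h hm).1).filter_mono nhdsWithin_le_nhds
    have e2 : ∀ᶠ z in 𝓝[≠] (0 : ℂ), ∀ᶠ y in 𝓝 z, V y = W y :=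
      (eventually_eventually_nhds.2 hVW).filter_mono nhdsWithin_le_nhds
    have e3 : ∀ᶠ z in 𝓝[≠] (0 : ℂ), z ∈ Metric.ball (0 : ℂ) ρ :=
      nhdsWithin_le_nhds (Metric.ball_mem_nhds (0 : ℂ) hρ)
    filter_upwards [e0, eb, eA, eh, ew, e2, e3] with y hy0 hyb hyA hyh hyw hy2 hy3
    rw [IODXW.H_eq M n0 n1 n2 β C K lam m g A w h V i y hy0 (hm.g0 y hyb) hyA hyw hyh]
    have h3 := hW y hy3 hy0 i
    have h4 : HasDerivAt (fun y => V y i)
        ((AAW M n0 n1 n2 β C K lam m g A w h y *ᵥ W y) i) y := by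
      refine h3.congr_of_eventuallyEq ?_
      filter_upwards [hy2] with u hu
      rw [hu]
    rw [h4.deriv, hy2.self_of_nhds, sub_self, mul_zero]
  have hd := IODXW.H_diff M n0 n1 n2 β C K lam R m g A w h hm V r hr1 hV i
  have han : AnalyticOnNhd ℂ (IODXW.H M n0 n1 n2 β C K lam m g A w h V i) (Metric.ball 0 r) :=
    hd.analyticOnNhd Metric.isOpen_ball
  have hzero := han.eqOn_zero_of_preconnected_of_frequently_eq_zero
    (convex_ball (0 : ℂ) r).isPreconnected (Metric.mem_ball_self hr) hev.frequently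
  have h5 := hzero hz
  have hg : g z ≠ 0 := hm.g0 z (Metric.ball_subset_ball hr1 hz)
  rw [IODXW.H_eq M n0 n1 n2 β C K lam m g A w h V i z h0 hg hA hw hh] at h5
  simp only [Pi.zero_apply, mul_eq_zero, h0, hg, hA, hw, hh, false_or] at h5
  have h6 : deriv (fun y => V y i) z = (AAW M n0 n1 n2 β C K lam m g A w h z *ᵥ V z) i :=
    sub_eq_zero.1 h5
  rw [← h6]
  exact ((hV i).differentiableAt (Metric.isOpen_ball.mem_nhds hz)).hasDerivAt

end Pool.Agent.Work.MP_5e5ff1_ag.TH
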