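import Mathlib
import Pool.Agent.Work.MP_5e5ff1_ag.TH.StmtsV

set_option autoImplicit false

/-!
# Item QUAW of the block TH, part V (helper59): composition with a Belyi map of degree four
-/

open Filter Topology

namespace Pool.Agent.Work.MP_5e5ff1_ag.TH

namespace IQUAW

lemma e1_pos {n : ℕ} (h : 0 < n) : e1 n = n := by
  unfold e1
  rw [if_neg h.ne']

end IQUAW

open IQUAW in
theorem pr_QUAW : StQUAW := by
  intro a R m g A w ha hm
  have ea : e1 a = a := e1_pos ha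
  have e3a : e1 (3 * a) = 3 * a := e1_pos (by omega)
  have e3 : e1 3 = 3 := rfl
  have e2 : e1 2 = 2 := rfl
  have hid : DifferentiableOn ℂ (fun z : ℂ => z) (Metric.ball 0 1) := differentiableOn_id
  have hrel := hm.rel
  rw [ea, e3] at hrel
  have hx : DifferentiableOn ℂ (fun z : ℂ => z ^ m * g z) (Metric.ball 0 1) :=
    (hid.pow m).mul hm.dg
  have hy : DifferentiableOn ℂ (fun z : ℂ => A z ^ 3) (Metric.ball 0 1) := hm.dA.pow _
  have hz0 : (0 : ℂ) ∈ Metric.ball (0 : ℂ) 1 := Metric.mem_ball_self one_pos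
  have hx0 : (0 : ℂ) ^ m * g 0 = 0 := by
    rw [zero_pow hm.m0.ne', zero_mul]
  have hrel0 : w 0 ^ a = -(A 0 ^ 3) := by
    have := hrel 0 hz0
    rw [hx0, zero_sub] at this
    exact this.symm
  have hA0 : A 0 ≠ 0 := hm.A00
  refine ⟨fun z => -64 * g z, fun z => A z * (A z ^ 3 + 8 * (z ^ m * g z)),
    fun z => Complex.I * (8 * (z ^ m * g z) ^ 2 + 20 * (z ^ m * g z) * A z ^ 3 - (A z ^ 3) ^ 2),
    w, ?_⟩
  refine ⟨?_, ?_, ?_, hm.dw, hm.m0, ?_, ?_, ?_, ?_, ?_, ?_, ?_, ?_, ?_⟩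
  · exact hm.dg.const_mul (-64)
  · exact hm.dA.mul (hy.add (hx.const_mul 8))
  · exact ((((hx.pow 2).const_mul 8).add ((hx.const_mul 20).mul hy)).sub (hy.pow 2)).const_mul _
  · intro z hz
    exact mul_ne_zero (by norm_num) (hm.g0 z hz)
  · intro z hz
    have h := hrel z hz
    rw [e3a, e2, e3]
    have h1 : w z ^ (3 * a) = (z ^ m * g z - A z ^ 3) ^ 3 := by
      rw [h, mul_comm 3 a, pow_mul]
    rw [h1]
    linear_combination (-(8 * (z ^ m * g z) ^ 2 + 20 * (z ^ m * g z) * A z ^ 3 -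
      (A z ^ 3) ^ 2) ^ 2) * Complex.I_sq
  · intro h
    exact absurd h (by norm_num)
  · intro h
    exact absurd h (by norm_num)
  · intro h
    omega
  · intro z hz hAz hwz
    have h := hrel z hz
    rw [hwz, zero_pow ha.ne'] at h
    have hyx : A z ^ 3 = z ^ m * g z := (sub_eq_zero.1 h).symm
    have hx1 : z ^ m * g z = 0 := by
      rcases mul_eq_zero.1 hAz with h1 | h1
      · rw [← hyx, h1, zero_pow (by norm_num)]
      · rw [hyx] at h1
        have h2 : (9 : ℂ) * (z ^ m * g z) = 0 := by linear_combination h1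
        rcases mul_eq_zero.1 h2 with h3 | h3
        · exact absurd h3 (by norm_num)
        · exact h3
    have hz1 : z = 0 := by
      rcases mul_eq_zero.1 hx1 with h1 | h1
      · exact pow_eq_zero_iff (hm.m0.ne') |>.1 h1
      · exact absurd h1 (hm.g0 z hz)
    have hA1 : A z = 0 := by
      rw [hx1] at hyx
      exact pow_eq_zero_iff (by omega) |>.1 hyx
    rw [hz1] at hA1
    exact hA0 hA1
  · simp only [hx0, mul_zero, add_zero]
    exact mul_ne_zero hA0 (pow_ne_zero _ hA0)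
  · intro h
    rw [h, zero_pow ha.ne'] at hrel0
    exact (neg_ne_zero.2 (pow_ne_zero 3 hA0)) hrel0.symm
  · have hr := hm.rad
    rw [e3] at hr
    rw [e3a, e3]
    have h1 : ‖-64 * g 0 * w 0 ^ (3 * a)‖ = 64 * ‖g 0‖ * (‖A 0‖ ^ 3) ^ 3 := by
      have h64 : ‖(-64 : ℂ)‖ = 64 := by
        rw [norm_neg]
        norm_num
      rw [mul_comm 3 a, pow_mul, hrel0, norm_mul, norm_mul, h64, norm_pow _ 3, norm_neg, norm_pow]
    have h2 : ‖A 0 * (A 0 ^ 3 + 8 * ((0 : ℂ) ^ m * g 0))‖ ^ 3 =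
        (‖A 0‖ ^ 3) ^ 3 * ‖A 0‖ ^ 3 := by
      rw [hx0, mul_zero, add_zero, norm_mul, norm_pow]
      ring
    rw [h1, h2]
    have hn : 0 < ‖A 0‖ := norm_pos_iff.2 hA0
    have hp : 0 < ‖A 0‖ ^ 3 := pow_pos hn _
    have h3 : 64 * ‖g 0‖ * (‖A 0‖ ^ 3) ^ 3 / ((‖A 0‖ ^ 3) ^ 3 * ‖A 0‖ ^ 3) =
        64 * (‖g 0‖ / ‖A 0‖ ^ 3) := by
      field_simp
    rw [h3]
    exact mul_le_mul_of_nonneg_left hr (by norm_num)

end Pool.Agent.Work.MP_5e5ff1_ag.TH
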