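import Mathlib
import Pool.Agent.Work.MP_5e5ff1_ag.TH.StmtsW

/-!
MP_5e5ff1_ag, block TH, item SYMW: exchange of the points 1 and infinity.
-/

set_option autoImplicit false

namespace Pool.Agent.Work.MP_5e5ff1_ag.TH

namespace ISYMW

theorem e1_ne (n : ℕ) : e1 n ≠ 0 := by
  unfold e1
  split_ifs with h
  · exact one_ne_zero
  · exact h

end ISYMW

/-- Item SYMW. -/
theorem pr_SYMW : StSYMW := by
  intro n0 n1 n2 R m g A w k h
  have h0 : (0 : ℂ) ∈ Metric.ball (0 : ℂ) 1 := Metric.mem_ball_self one_pos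
  have hrel := h.rel 0 h0
  rw [zero_pow h.m0.ne', zero_mul, zero_sub] at hrel
  have hA : A 0 ^ e1 n2 ≠ 0 := pow_ne_zero _ h.A00
  have hw : w 0 ≠ 0 := by
    intro hw
    rw [hw, zero_pow (ISYMW.e1_ne n1), neg_eq_zero] at hrel
    exact hA hrel
  have hn : ‖w 0‖ ^ e1 n1 = ‖A 0‖ ^ e1 n2 := by
    rw [← norm_pow, ← hrel, norm_neg, norm_pow]
  exact
    { dg := h.dg
      dA := h.dw
      dw := h.dA
      dh := h.dh
      m0 := h.m0
      g0 := h.g0
      rel := by
        intro z hz
        have := h.rel z hz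
        rw [← this]
        ring
      nA := h.nw
      nw := h.nA
      nh := h.nh
      cop := by
        intro z hz hwz hkz
        have hr := h.rel z hz
        rw [hwz, hkz, zero_pow (ISYMW.e1_ne n0), zero_pow (ISYMW.e1_ne n1), mul_zero, mul_zero,
          zero_sub, neg_eq_zero] at hr
        exact h.cop z hz (pow_eq_zero_iff (ISYMW.e1_ne n2) |>.1 hr) hkz
      A00 := hw
      h00 := h.h00
      rad := by
        rw [hn]
        exact h.rad }

end Pool.Agent.Work.MP_5e5ff1_ag.TH
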