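import Mathlib
import Pool.Agent.Work.MP_5e5ff1_ag.TH.StmtsW

set_option autoImplicit false

/-!
# Item TRIW of the block TH, part W: composition with a polynomial of degree three
-/

open Filter Topology

namespace Pool.Agent.Work.MP_5e5ff1_ag.TH

namespace ITRIW

lemma e1_pos {n : ℕ} (h : 0 < n) : e1 n = n := by
  unfold e1
  rw [if_neg h.ne']

end ITRIW

open ITRIW in
theorem pr_TRIW : StTRIW := by
  intro a b R m g A w ha hb hm
  have ea : e1 a = a := e1_pos ha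
  have eb : e1 (2 * b) = 2 * b := e1_pos (by omega)
  have e2a : e1 (2 * a) = 2 * a := e1_pos (by omega)
  have e3 : e1 3 = 3 := rfl
  have e2 : e1 2 = 2 := rfl
  have hid : DifferentiableOn ℂ (fun z : ℂ => z) (Metric.ball 0 1) := differentiableOn_id
  have hrel := hm.rel
  rw [ea, eb] at hrel
  have hx : DifferentiableOn ℂ (fun z : ℂ => z ^ m * g z) (Metric.ball 0 1) :=
    (hid.pow m).mul hm.dg
  have hy : DifferentiableOn ℂ (fun z : ℂ => A z ^ (2 * b)) (Metric.ball 0 1) := hm.dA.pow _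
  have hz0 : (0 : ℂ) ∈ Metric.ball (0 : ℂ) 1 := Metric.mem_ball_self one_pos
  have hx0 : (0 : ℂ) ^ m * g 0 = 0 := by
    rw [zero_pow hm.m0.ne', zero_mul]
  have hrel0 : w 0 ^ a = -(A 0 ^ (2 * b)) := by
    have := hrel 0 hz0
    rw [hx0, zero_sub] at this
    exact this.symm
  have hA0 : A 0 ≠ 0 := hm.A00
  refine ⟨fun z => -27 * g z, fun z => A z ^ b * (9 * (z ^ m * g z) - A z ^ (2 * b)),
    fun z => -(3 * (z ^ m * g z) + A z ^ (2 * b)), w, ?_⟩
  refine ⟨?_, ?_, ?_, hm.dw, hm.m0, ?_, ?_, ?_, ?_, ?_, ?_, ?_, ?_, ?_⟩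
  · exact hm.dg.const_mul (-27)
  · exact (hm.dA.pow b).mul ((hx.const_mul 9).sub hy)
  · exact ((hx.const_mul 3).add hy).neg
  · intro z hz
    exact mul_ne_zero (by norm_num) (hm.g0 z hz)
  · intro z hz
    have h := hrel z hz
    rw [e2a, e2, e3]
    have h1 : w z ^ (2 * a) = (z ^ m * g z - A z ^ (2 * b)) ^ 2 := by
      rw [h, mul_comm 2 a, pow_mul]
    have h2 : (A z ^ b) ^ 2 = A z ^ (2 * b) := by
      rw [← pow_mul, mul_comm]
    rw [h1, mul_pow, h2]
    ring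
  · intro h
    exact absurd h (by norm_num)
  · intro h
    exact absurd h (by norm_num)
  · intro h
    omega
  · intro z hz hAz hwz
    have h := hrel z hz
    rw [hwz, zero_pow ha.ne'] at h
    have hyx : A z ^ (2 * b) = z ^ m * g z := (sub_eq_zero.1 h).symm
    have hx1 : z ^ m * g z = 0 := by
      rcases mul_eq_zero.1 hAz with h1 | h1
      · rw [← hyx, mul_comm 2 b, pow_mul, h1, zero_pow (by norm_num)]
      · rw [hyx] at h1
        have h2 : (8 : ℂ) * (z ^ m * g z) = 0 := by linear_combination h1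
        rcases mul_eq_zero.1 h2 with h3 | h3
        · exact absurd h3 (by norm_num)
        · exact h3
    have hz1 : z = 0 := by
      rcases mul_eq_zero.1 hx1 with h1 | h1
      · exact pow_eq_zero_iff (hm.m0.ne') |>.1 h1
      · exact absurd h1 (hm.g0 z hz)
    have hA1 : A z = 0 := by
      rw [hx1] at hyx
      exact pow_eq_zero_iff (by omega) |>.1 hyx
    rw [hz1] at hA1
    exact hA0 hA1
  · simp only [hx0, mul_zero, zero_sub]
    exact mul_ne_zero (pow_ne_zero _ hA0) (neg_ne_zero.2 (pow_ne_zero _ hA0))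
  · intro h
    rw [h, zero_pow ha.ne'] at hrel0
    exact (neg_ne_zero.2 (pow_ne_zero (2 * b) hA0)) hrel0.symm
  · have hr := hm.rad
    rw [eb] at hr
    rw [e2a, e2]
    have h1 : ‖-27 * g 0 * w 0 ^ (2 * a)‖ = 27 * ‖g 0‖ * (‖A 0‖ ^ (2 * b)) ^ 2 := by
      have h27 : ‖(-27 : ℂ)‖ = 27 := by
        rw [norm_neg]
        norm_num
      rw [mul_comm 2 a, pow_mul, hrel0, norm_mul, norm_mul, h27, norm_pow _ 2, norm_neg, norm_pow]
    have h2 : ‖A 0 ^ b * (9 * ((0 : ℂ) ^ m * g 0) - A 0 ^ (2 * b))‖ ^ 2 =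
        (‖A 0‖ ^ (2 * b)) ^ 2 * ‖A 0‖ ^ (2 * b) := by
      rw [hx0, mul_zero, zero_sub, norm_mul, norm_neg, norm_pow, norm_pow]
      ring
    rw [h1, h2]
    have hn : 0 < ‖A 0‖ := norm_pos_iff.2 hA0
    have hp : 0 < ‖A 0‖ ^ (2 * b) := pow_pos hn _
    have h3 : 27 * ‖g 0‖ * (‖A 0‖ ^ (2 * b)) ^ 2 / ((‖A 0‖ ^ (2 * b)) ^ 2 * ‖A 0‖ ^ (2 * b)) =
        27 * (‖g 0‖ / ‖A 0‖ ^ (2 * b)) := by
      field_simp
    rw [h3]
    exact mul_le_mul_of_nonneg_left hr (by norm_num)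

end Pool.Agent.Work.MP_5e5ff1_ag.TH
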