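import Mathlib
import Pool.Agent.Work.MP_5e5ff1_ag.TH.StmtsV

set_option autoImplicit false

/-!
# Item TRJW of the block TH, part V: composition with a Belyi map of degree three
-/

open Filter Topology

namespace Pool.Agent.Work.MP_5e5ff1_ag.TH

namespace ITRJW

lemma e1_pos {n : ℕ} (h : 0 < n) : e1 n = n := by
  unfold e1
  rw [if_neg h.ne']

/-- the norm of a square root of `-3` -/
lemma norm_s (s : ℂ) (h : s ^ 2 = -3) : ‖s‖ = Real.sqrt 3 := by
  have h1 : ‖s‖ ^ 2 = 3 := by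
    rw [← norm_pow, h, norm_neg]
    norm_num
  rw [← h1, Real.sqrt_sq (norm_nonneg s)]

/-- the norm of a primitive cube root of unity -/
lemma norm_om (s : ℂ) (h : s ^ 2 = -3) : ‖(-1 + s) / 2‖ = 1 := by
  have h1 : ((-1 + s) / 2) ^ 3 = 1 := by
    linear_combination (-3 / 8 + s / 8) * h
  have h2 : ‖(-1 + s) / 2‖ ^ 3 = 1 := by
    rw [← norm_pow, h1, norm_one]
  exact (pow_eq_one_iff_of_nonneg (norm_nonneg _) (by norm_num)).1 h2

end ITRJW

open ITRJW in
theorem pr_TRJW : StTRJW := by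
  intro a R m g A w ha hm
  have ea : e1 a = a := e1_pos ha
  have e3 : e1 3 = 3 := rfl
  obtain ⟨s, hs⟩ := IsAlgClosed.exists_pow_nat_eq (-3 : ℂ) (n := 2) (by norm_num)
  have hns := norm_s s hs
  have hno := norm_om s hs
  have hs0 : s ≠ 0 := by
    intro h
    rw [h] at hs
    norm_num at hs
  have hom0 : ((-1 + s) / 2 : ℂ) ≠ 0 := by
    intro h
    rw [h, norm_zero] at hno
    norm_num at hno
  have hid : DifferentiableOn ℂ (fun z : ℂ => z) (Metric.ball 0 1) := differentiableOn_id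
  have hrel := hm.rel
  rw [ea] at hrel
  have hx : DifferentiableOn ℂ (fun z : ℂ => z ^ m * g z) (Metric.ball 0 1) :=
    (hid.pow m).mul hm.dg
  have hy : DifferentiableOn ℂ (fun z : ℂ => A z ^ a) (Metric.ball 0 1) := hm.dA.pow _
  have hz0 : (0 : ℂ) ∈ Metric.ball (0 : ℂ) 1 := Metric.mem_ball_self one_pos
  have hx0 : (0 : ℂ) ^ m * g 0 = 0 := by
    rw [zero_pow hm.m0.ne', zero_mul]
  have hrel0 : w 0 ^ a = -(A 0 ^ a) := by
    have := hrel 0 hz0
    rw [hx0, zero_sub] at this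
    exact this.symm
  have hA0 : A 0 ≠ 0 := hm.A00
  -- no common zeros
  have hno0 : ∀ z ∈ Metric.ball (0 : ℂ) 1, z ^ m * g z = 0 → A z ^ a ≠ 0 := by
    intro z hz h1 h2
    have hz1 : z = 0 := by
      rcases mul_eq_zero.1 h1 with h3 | h3
      · exact pow_eq_zero_iff (hm.m0.ne') |>.1 h3
      · exact absurd h3 (hm.g0 z hz)
    have hA1 : A z = 0 := pow_eq_zero_iff ha.ne' |>.1 h2
    rw [hz1] at hA1
    exact hA0 hA1
  refine ⟨fun z => 3 * s * g z, fun z => z ^ m * g z + (-1 + s) / 2 * A z ^ a,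
    fun z => -(z ^ m * g z + (-1 - s) / 2 * A z ^ a), fun z => w z * A z, ?_⟩
  refine ⟨?_, ?_, ?_, ?_, hm.m0, ?_, ?_, ?_, ?_, ?_, ?_, ?_, ?_, ?_⟩
  · exact hm.dg.const_mul (3 * s)
  · exact hx.add (hy.const_mul _)
  · exact (hx.add (hy.const_mul _)).neg
  · exact hm.dw.mul hm.dA
  · intro z hz
    exact mul_ne_zero (mul_ne_zero (by norm_num) hs0) (hm.g0 z hz)
  · intro z hz
    have h := hrel z hz
    rw [ea, e3, mul_pow, ← h]
    generalize A z ^ a = Y
    have e : z ^ m * (3 * s * g z * ((z ^ m * g z - Y) * Y)) =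
        3 * s * (z ^ m * g z) * ((z ^ m * g z - Y) * Y) := by ring
    rw [e]
    generalize z ^ m * g z = x
    linear_combination (-s / 4 * Y ^ 3) * hs
  · intro h
    exact absurd h (by norm_num)
  · intro h
    exact absurd h (by norm_num)
  · intro h
    omega
  · intro z hz hAz hwz
    have h := hrel z hz
    have hAz' : z ^ m * g z + (-1 + s) / 2 * A z ^ a = 0 := hAz
    have hwz' : w z * A z = 0 := hwz
    rcases mul_eq_zero.1 hwz' with h1 | h1
    · rw [h1, zero_pow ha.ne'] at h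
      have h2 : z ^ m * g z = A z ^ a := sub_eq_zero.1 h
      have h3 : (1 + s) / 2 * A z ^ a = 0 := by
        rw [h2] at hAz'
        linear_combination hAz'
      have h4 : ((1 + s) / 2 : ℂ) ≠ 0 := by
        intro h5
        have h6 : s = -1 := by linear_combination 2 * h5
        rw [h6] at hs
        norm_num at hs
      have h5 : A z ^ a = 0 := (mul_eq_zero.1 h3).resolve_left h4
      exact hno0 z hz (h2.trans h5) h5
    · have h5 : A z ^ a = 0 := by rw [h1, zero_pow ha.ne']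
      rw [h5, mul_zero, add_zero] at hAz'
      exact hno0 z hz hAz' h5
  · show (0 : ℂ) ^ m * g 0 + (-1 + s) / 2 * A 0 ^ a ≠ 0
    rw [hx0, zero_add]
    exact mul_ne_zero hom0 (pow_ne_zero _ hA0)
  · show w 0 * A 0 ≠ 0
    refine mul_ne_zero ?_ hA0
    intro h
    rw [h, zero_pow ha.ne'] at hrel0
    exact (neg_ne_zero.2 (pow_ne_zero a hA0)) hrel0.symm
  · have hr := hm.rad
    rw [ea] at hr
    rw [ea, e3]
    show 3 * Real.sqrt 3 * R ≤ ‖3 * s * g 0 * (w 0 * A 0) ^ a‖ /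
      ‖(0 : ℂ) ^ m * g 0 + (-1 + s) / 2 * A 0 ^ a‖ ^ 3
    have h1 : ‖3 * s * g 0 * (w 0 * A 0) ^ a‖ =
        3 * Real.sqrt 3 * ‖g 0‖ * (‖A 0‖ ^ a) ^ 2 := by
      have h27 : ‖(3 : ℂ)‖ = 3 := by norm_num
      rw [mul_pow, hrel0, norm_mul, norm_mul, norm_mul, norm_mul, h27, hns, norm_neg, norm_pow]
      ring
    rw [h1, hx0, zero_add, norm_mul, hno, one_mul, norm_pow]
    have hn : 0 < ‖A 0‖ := norm_pos_iff.2 hA0
    have hp : 0 < ‖A 0‖ ^ a := pow_pos hn _
    have h3 : 3 * Real.sqrt 3 * ‖g 0‖ * (‖A 0‖ ^ a) ^ 2 / (‖A 0‖ ^ a) ^ 3 =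
        3 * Real.sqrt 3 * (‖g 0‖ / ‖A 0‖ ^ a) := by
      field_simp
    rw [h3]
    exact mul_le_mul_of_nonneg_left hr (by positivity)

end Pool.Agent.Work.MP_5e5ff1_ag.TH
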