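import Mathlib
import Pool.Agent.Work.MP_5e5ff1_ag.TH.StmtsW

set_option autoImplicit false

/-!
# MP_5e5ff1_ag, block TH, item WNZW: zeros of `A w h` (helper64)
-/

open Matrix Filter Topology
open scoped Polynomial

namespace Pool.Agent.Work.MP_5e5ff1_ag.TH

namespace IWNZW

lemma e1_ne (n : ℕ) : e1 n ≠ 0 := by
  unfold e1
  split_ifs with h
  · exact one_ne_zero
  · exact h

lemma w0_ne {n0 n1 n2 : ℕ} {R : ℝ} {m : ℕ} {g A w h : ℂ → ℂ}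
    (hM : IsMapW n0 n1 n2 R m g A w h) : w 0 ≠ 0 := by
  intro h0
  have h := hM.rel 0 (Metric.mem_ball_self one_pos)
  rw [h0, zero_pow hM.m0.ne', zero_mul, zero_sub, zero_pow (e1_ne n1), neg_eq_zero] at h
  exact hM.A00 (pow_eq_zero_iff (e1_ne n2) |>.1 h)

lemma near_zero {n0 n1 n2 : ℕ} {R : ℝ} {m : ℕ} {g A w h : ℂ → ℂ}
    (hM : IsMapW n0 n1 n2 R m g A w h) :
    ∀ᶠ z in 𝓝[≠] (0 : ℂ), z ≠ 0 ∧ A z ≠ 0 ∧ w z ≠ 0 ∧ h z ≠ 0 := by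
  have hb : Metric.ball (0 : ℂ) 1 ∈ 𝓝 (0 : ℂ) := Metric.ball_mem_nhds _ one_pos
  have h0 : ∀ᶠ z in 𝓝[≠] (0 : ℂ), z ≠ 0 := eventually_mem_nhdsWithin
  have h1 : ∀ᶠ z in 𝓝 (0 : ℂ), A z ≠ 0 :=
    (hM.dA.differentiableAt hb).continuousAt.eventually_ne hM.A00
  have h2 : ∀ᶠ z in 𝓝 (0 : ℂ), w z ≠ 0 :=
    (hM.dw.differentiableAt hb).continuousAt.eventually_ne (w0_ne hM)
  have h3 : ∀ᶠ z in 𝓝 (0 : ℂ), h z ≠ 0 :=
    (hM.dh.differentiableAt hb).continuousAt.eventually_ne hM.h00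
  exact h0.and ((h1.and (h2.and h3)).filter_mono nhdsWithin_le_nhds)

lemma exists_ne {n0 n1 n2 : ℕ} {R : ℝ} {m : ℕ} {g A w h : ℂ → ℂ}
    (hM : IsMapW n0 n1 n2 R m g A w h)
    (Ω : Set ℂ) (hO : IsOpen Ω) (hsub : Ω ⊆ Metric.ball 0 1) (hne : Ω.Nonempty) :
    ∃ z ∈ Ω, z ≠ 0 ∧ A z ≠ 0 ∧ w z ≠ 0 ∧ h z ≠ 0 := by
  by_contra hcon
  obtain ⟨z0, hz0⟩ := hne
  have han : AnalyticOnNhd ℂ (fun z => z * (A z * (w z * h z))) (Metric.ball (0 : ℂ) 1) :=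
    (differentiableOn_id.mul (hM.dA.mul (hM.dw.mul hM.dh))).analyticOnNhd Metric.isOpen_ball
  have hev : (fun z => z * (A z * (w z * h z))) =ᶠ[𝓝 z0] 0 := by
    filter_upwards [hO.mem_nhds hz0] with z hz
    by_contra hz1
    have h1 := right_ne_zero_of_mul hz1
    have h2 := right_ne_zero_of_mul h1
    exact hcon ⟨z, hz, left_ne_zero_of_mul hz1, left_ne_zero_of_mul h1,
      left_ne_zero_of_mul h2, right_ne_zero_of_mul h2⟩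
  have hall := han.eqOn_zero_of_preconnected_of_eventuallyEq_zero
    (convex_ball (0 : ℂ) 1).isPreconnected (hsub hz0) hev
  have hb : ∀ᶠ z in 𝓝[≠] (0 : ℂ), z ∈ Metric.ball (0 : ℂ) 1 :=
    Filter.Eventually.filter_mono nhdsWithin_le_nhds (Metric.ball_mem_nhds _ one_pos)
  obtain ⟨z, hz, hzb⟩ := ((near_zero hM).and hb).exists
  exact mul_ne_zero hz.1 (mul_ne_zero hz.2.1 (mul_ne_zero hz.2.2.1 hz.2.2.2)) (hall hzb)

end IWNZW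

theorem pr_WNZW : StWNZW := fun _ _ _ _ _ _ _ _ _ hM =>
  ⟨IWNZW.w0_ne hM, fun Ω hO hsub hne => IWNZW.exists_ne hM Ω hO hsub hne⟩

end Pool.Agent.Work.MP_5e5ff1_ag.TH
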