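import Mathlib
import Pool.Agent.Work.MP_5e5ff1_ag.TH.Asm
import Pool.Agent.Work.MP_5e5ff1_ag.TH.I_CMPW
import Pool.Agent.Work.MP_5e5ff1_ag.TH.I_CONW
import Pool.Agent.Work.MP_5e5ff1_ag.TH.I_DBLW
import Pool.Agent.Work.MP_5e5ff1_ag.TH.I_DRLW
import Pool.Agent.Work.MP_5e5ff1_ag.TH.I_FGDW
import Pool.Agent.Work.MP_5e5ff1_ag.TH.I_FGGW
import Pool.Agent.Work.MP_5e5ff1_ag.TH.I_FINGW
import Pool.Agent.Work.MP_5e5ff1_ag.TH.I_FINW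
import Pool.Agent.Work.MP_5e5ff1_ag.TH.I_HEXW
import Pool.Agent.Work.MP_5e5ff1_ag.TH.I_INCW
import Pool.Agent.Work.MP_5e5ff1_ag.TH.I_LOC0W
import Pool.Agent.Work.MP_5e5ff1_ag.TH.I_LOC1W
import Pool.Agent.Work.MP_5e5ff1_ag.TH.I_LOC2W
import Pool.Agent.Work.MP_5e5ff1_ag.TH.I_LOCAW
import Pool.Agent.Work.MP_5e5ff1_ag.TH.I_LOCRW
import Pool.Agent.Work.MP_5e5ff1_ag.TH.I_LOCZW
import Pool.Agent.Work.MP_5e5ff1_ag.TH.I_MPW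
import Pool.Agent.Work.MP_5e5ff1_ag.TH.I_MZW
import Pool.Agent.Work.MP_5e5ff1_ag.TH.I_OCTW
import Pool.Agent.Work.MP_5e5ff1_ag.TH.I_ODXW
import Pool.Agent.Work.MP_5e5ff1_ag.TH.I_QUAW
import Pool.Agent.Work.MP_5e5ff1_ag.TH.I_SYMW
import Pool.Agent.Work.MP_5e5ff1_ag.TH.I_TRIW
import Pool.Agent.Work.MP_5e5ff1_ag.TH.I_TRJW
import Pool.Agent.Work.MP_5e5ff1_ag.TH.I_WNZW

/-! Assembly of the parts W, V of block TH (elliptic base points). -/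

set_option autoImplicit false

namespace Pool.Agent.Work.MP_5e5ff1_ag.TH

theorem fin_SYMW : StSYMW := pr_SYMW
theorem fin_INCW : StINCW := pr_INCW
theorem fin_DBLW : StDBLW := pr_DBLW
theorem fin_TRIW : StTRIW := pr_TRIW
theorem fin_QUAW : StQUAW := pr_QUAW
theorem fin_TRJW : StTRJW := pr_TRJW
theorem fin_HEXW : StHEXW := pr_HEXW
theorem fin_OCTW : StOCTW := pr_OCTW
theorem fin_MPW : StMapW :=
  pr_MPW fin_TH_MPT fin_SYMW fin_INCW fin_DBLW fin_TRIW fin_QUAW fin_TRJW fin_HEXW fin_OCTW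
theorem fin_WNZW : StWNZW := pr_WNZW
theorem fin_DRLW : StDRLW := pr_DRLW
theorem fin_LOC0W : StLOC0W := pr_LOC0W fin_TH_UAN fin_TH_ROOT fin_DRLW fin_WNZW
theorem fin_LOC1W : StLOC1W := pr_LOC1W fin_TH_GAN fin_TH_CLF fin_TH_ROOT fin_DRLW fin_WNZW
theorem fin_LOC2W : StLOC2W := pr_LOC2W fin_TH_GAN fin_TH_CLF fin_TH_ROOT fin_DRLW
theorem fin_LOCZW : StLOCZW := pr_LOCZW fin_TH_UAN fin_TH_ROOT fin_DRLW
theorem fin_LOCRW : StLOCRW := pr_LOCRW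
theorem fin_LOCAW : StLOCAW :=
  pr_LOCAW fin_TH_FRBR fin_TH_GEX fin_TH_GCV fin_TH_UCV fin_LOC1W fin_LOC2W fin_LOCZW fin_LOCRW
theorem fin_ODXW : StODXW := pr_ODXW fin_WNZW
theorem fin_CMPW : StCMPW := pr_CMPW fin_WNZW
theorem fin_CONW : StCONW :=
  pr_CONW fin_TH_UCV fin_LOC0W fin_LOCAW fin_ODXW fin_CMPW fin_TG_GLU fin_WNZW
theorem fin_MZW : StMZW :=
  pr_MZW fin_TH_CRT2 fin_MPW fin_TH_DNS fin_TH_GRTS fin_TH_UCV fin_CONW fin_TG_PWR fin_TG_CNV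
theorem fin_FINW : StFINW :=
  pr_FINW fin_MZW fin_TH_INFT fin_TH_RSC fin_TH_RSD fin_TH_RSP fin_TH_RKU fin_TH_RKG fin_TH_RKL
    fin_TH_ALG fin_TH_KEI fin_TH_KPC fin_TH_KSP fin_TH_MDGR
theorem fin_FGDW : StFGDW :=
  pr_FGDW fin_FINW fin_TH_EXU fin_TH_INFT fin_TH_GRN fin_TH_GRC fin_TH_EXS
theorem fin_FGGW : StFGGW :=
  pr_FGGW fin_FINW fin_TH_EXU fin_TH_INFT fin_TH_GRN fin_TH_GRC fin_TH_CJP fin_TH_CHP fin_TH_HAC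
    fin_TH_RSPG fin_TH_EXS
theorem fin_FINGW : StFINGW :=
  pr_FINGW fin_FGDW fin_FGGW fin_TH_DIAK fin_TH_ADJ fin_TH_EXS fin_TH_RSPG fin_TH_QAT

end Pool.Agent.Work.MP_5e5ff1_ag.TH
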