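import Mathlib
import Pool.Agent.Work.MP_5e5ff1_ag.TH.StmtsV

set_option autoImplicit false

/-!
# MP_5e5ff1_ag, block TH, part U: the residue `b` is diagonalizable over the `p`-integers

The bound `v_p(M) + s_p/(p-1)` of the `p`-adic size for `p ∣ M` holds if `b` is diagonalizable over
the `p`-integers of `K` (not only if `b` is diagonal).  The docstring is the complete proof.  USES
lists the statements which the item may take as hypotheses `(h : StX)`.  Captain helper45.
-/

open Matrix NumberField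

namespace Pool.Agent.Work.MP_5e5ff1_ag.TH

/-- GRD, EASY-MEDIUM (compare I_FGG, I_FINR, I_GRC).  USES EXU CJP MDGR RKU RKG.

`D = diag β`.  `b g = g D` gives `h b g = h g D = N D` and (multiply `b g = g D` by `h` on both sides
and divide by `N`) `h b = D h`.  `M'' = M N`, `β'' = N β`, `b'' = h b g = diag β''`, `c'' = h c g`.
EXU for `(M'', β'', c'', S)`: the p-curvatures by CJP (`¬ q ∣ M N`), as in I_FGG.  It gives `U` with
`IsU (M N) (N β) c'' U`.  Put `V n = N⁻¹ • (g * U n * h)` over `K`.  `V 0 = 1` (`g h = N`).  In matrix form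
`IsU` is `(M N n) U_n + N U_n D - N D U_n + ∑ h c g U_k = 0`; multiply by `g` from the left and by `h` from
the right: with `g U_n h = N V_n`, `g U_n D h = g U_n h b = N V_n b`, `g D U_n h = b g U_n h = N b V_n`,
`g h c g U_k h = N c (N V_k)` this is `N² (M n V_n + V_n b - b V_n + ∑ c V_k) = 0`, so `IsS M b c V`.
Growth of `U`: `rsK K (U n)` satisfies `IsU` (RKU), MDGR gives `Gr p κ` because
`(M N).factorization p = M.factorization p` and `spc p (M N) (x ↦ N β x.1) = spc p M β` (`¬ p ∣ N`: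
`p^v ∣ N c - N β_i` iff `p^v ∣ c - β_i`, and `c ↦ N c` is injective; the second coordinate of `x` plays
no role, as in I_FINR), RKG gives `GrK p κ U`.  Growth of `V`: if `m p^e U n i' j'` are integral for all
`i'`, `j'` (take the product of the finitely many `m`), then `(N m) p^e V n i j = m p^e (g U n h) i j` is
integral, and `¬ p ∣ N m`.  (If `r = 0` take `V = fun _ => 1`.) -/
def StGRD : Prop := ∀ (K : Type) [Field K] [NumberField K] (r M N : ℕ) (β : Fin r → ℤ)
  (b c g h : Matrix (Fin r) (Fin r) (𝓞 K)) (S : Set ℕ), 0 < M → 0 < N →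
  h * g = (N : 𝓞 K) • (1 : Matrix (Fin r) (Fin r) (𝓞 K)) →
  g * h = (N : 𝓞 K) • (1 : Matrix (Fin r) (Fin r) (𝓞 K)) →
  b * g = g * Matrix.diagonal (fun i => ((β i : ℤ) : 𝓞 K)) →
  (∀ N' : ℕ, ∃ p : ℕ, N' < p ∧ p.Prime ∧ ¬ p ∣ M ∧ p ∉ S) →
  (∀ p : ℕ, p.Prime → ¬ p ∣ M → p ∉ S → (Ideal.span {(p : 𝓞 K)}).IsRadical) →
  (∀ P : Ideal (𝓞 K), P.IsMaximal → ¬ ringChar (𝓞 K ⧸ P) ∣ M → ringChar (𝓞 K ⧸ P) ∉ S →
    PCurvZero M b c P) →
  ∀ (p : ℕ) (κ : ℝ), p.Prime → ¬ p ∣ N → 0 ≤ κ →
  (M.factorization p : ℝ) + (spc p M β : ℝ) / ((p : ℝ) - 1) ≤ κ →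
  ∃ V : ℕ → Matrix (Fin r) (Fin r) K,
    IsS M (Matrix.of fun i j => (b i j : K)) (Matrix.of fun i j => (c i j : K)) V ∧ GrK p κ V

/-- SPC, EASY.  The combinatorial numbers: if `b g = g diag β`, `det g ≠ 0` and every integral
eigenvalue `β₀` has at most `q` integral eigenvalues congruent to it modulo the `p`-part of `M`, then
`spc p M β ≤ q`.  USES EXS (`expSet b = Set.range β`).  `spc` is the supremum over `i` of the number
of values `c` of `β` with `p^v ∣ c - β i`; the set of these `c` (a Finset) is the set of the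
hypothesis for `β₀ = β i`, so `Set.ncard` is its `card`. -/
def StSPC : Prop := ∀ (K : Type) [Field K] [NumberField K] (r M p q : ℕ) (β : Fin r → ℤ)
  (b g : Matrix (Fin r) (Fin r) (𝓞 K)), 0 < M → g.det ≠ 0 →
  b * g = g * Matrix.diagonal (fun i => ((β i : ℤ) : 𝓞 K)) →
  (∀ β₀ ∈ expSet b,
    Set.ncard {γ | γ ∈ expSet b ∧ (p : ℤ) ^ M.factorization p ∣ γ - β₀} ≤ q) →
  spc p M β ≤ q

end Pool.Agent.Work.MP_5e5ff1_ag.TH
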