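import Mathlib
import Pool.Agent.Work.MP_5e5ff1_ag.TH.StmtsU
import Pool.Agent.Work.MP_5e5ff1_ag.TH.I_GRC

/-!
# MP_5e5ff1_ag, block TH, item GRD: growth of a formal solution, residue diagonalizable
-/

set_option autoImplicit false

open Matrix Filter Topology NumberField
open scoped Polynomial nonZeroDivisors

namespace Pool.Agent.Work.MP_5e5ff1_ag.TH

namespace IGRD

/-- the conjugated sequence is a formal solution of the original system -/
theorem isS {F : Type} [Field F] {r : ℕ} (M N : ℕ) (β : Fin r → ℤ)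
    (b c g h : Matrix (Fin r) (Fin r) F) (U : ℕ → Matrix (Fin r) (Fin r) F) (hN : (N : F) ≠ 0)
    (hhg : h * g = (N : F) • (1 : Matrix (Fin r) (Fin r) F))
    (hgh : g * h = (N : F) • (1 : Matrix (Fin r) (Fin r) F))
    (hbg : b * g = g * Matrix.diagonal (fun i => ((β i : ℤ) : F)))
    (hU : IsU (M * N) (fun i => (N : ℤ) * β i) (h * c * g) U) :
    IsS M b c (fun n => (N : F)⁻¹ • (g * U n * h)) := by
  obtain ⟨hU0, hUn⟩ := hU
  set D : Matrix (Fin r) (Fin r) F := Matrix.diagonal (fun i => ((β i : ℤ) : F)) with hD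
  have hb : D * h = h * b := by
    have e1 : h * b * (g * h) = D * h * (g * h) := by
      calc h * b * (g * h) = h * (b * g) * h := by simp only [Matrix.mul_assoc]
        _ = h * (g * D) * h := by rw [hbg]
        _ = (h * g) * (D * h) := by simp only [Matrix.mul_assoc]
        _ = (N : F) • (D * h) := by rw [hhg, Matrix.smul_mul, Matrix.one_mul]
        _ = D * h * (g * h) := by rw [hgh, Matrix.mul_smul, Matrix.mul_one]
    rw [hgh, Matrix.mul_smul, Matrix.mul_one, Matrix.mul_smul, Matrix.mul_one] at e1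
    exact (smul_right_injective _ hN e1).symm
  constructor
  · show (N : F)⁻¹ • (g * U 0 * h) = 1
    rw [hU0, Matrix.mul_one, hgh, smul_smul, inv_mul_cancel₀ hN, one_smul]
  · intro n i j
    have e0 : ((M : F) * (N : F) * (n : F)) • U n + (N : F) • (U n * D) - (N : F) • (D * U n) +
        ∑ k ∈ Finset.range n, h * c * g * U k = 0 := by
      ext i j
      rw [Matrix.add_apply, Matrix.sub_apply, Matrix.add_apply, Matrix.smul_apply,
        Matrix.smul_apply, Matrix.smul_apply, Matrix.sum_apply, smul_eq_mul, smul_eq_mul,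
        smul_eq_mul, hD, Matrix.mul_diagonal, Matrix.diagonal_mul, Matrix.zero_apply,
        ← hUn n i j]
      congr 1
      push_cast
      ring
    have e1 := congrArg (fun X => g * X * h) e0
    simp only [Matrix.mul_add, Matrix.add_mul, Matrix.mul_sub, Matrix.sub_mul, Matrix.mul_zero,
      Matrix.zero_mul, Matrix.mul_smul, Matrix.smul_mul, Matrix.mul_sum, Matrix.sum_mul] at e1
    have e2 : g * (U n * D) * h = g * U n * h * b := by
      simp only [Matrix.mul_assoc]
      rw [hb]
    have e3 : g * (D * U n) * h = b * (g * U n * h) := by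
      rw [← Matrix.mul_assoc g D, ← hbg]
      simp only [Matrix.mul_assoc]
    have e4 : ∀ k, g * (h * c * g * U k) * h = (N : F) • (c * (g * U k * h)) := by
      intro k
      have : g * (h * c * g * U k) * h = (g * h) * (c * (g * U k * h)) := by
        simp only [Matrix.mul_assoc]
      rw [this, hgh, Matrix.smul_mul, Matrix.one_mul]
    rw [e2, e3] at e1
    simp only [e4] at e1
    have e5 := congrFun (congrFun e1 i) j
    rw [Matrix.add_apply, Matrix.sub_apply, Matrix.add_apply, Matrix.smul_apply,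
      Matrix.smul_apply, Matrix.smul_apply, Matrix.sum_apply, smul_eq_mul, smul_eq_mul,
      smul_eq_mul, Matrix.zero_apply] at e5
    have e6 : ∑ k ∈ Finset.range n, (c * ((N : F)⁻¹ • (g * U k * h))) i j =
        (N : F)⁻¹ * (N : F)⁻¹ * ∑ k ∈ Finset.range n, ((N : F) • (c * (g * U k * h))) i j := by
      rw [Finset.mul_sum]
      refine Finset.sum_congr rfl fun k _ => ?_
      rw [Matrix.mul_smul, Matrix.smul_apply, Matrix.smul_apply, smul_eq_mul, smul_eq_mul]
      field_simp
    show (M : F) * (n : F) * ((N : F)⁻¹ • (g * U n * h)) i j +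
        (((N : F)⁻¹ • (g * U n * h)) * b) i j - (b * ((N : F)⁻¹ • (g * U n * h))) i j +
        ∑ k ∈ Finset.range n, (c * ((N : F)⁻¹ • (g * U k * h))) i j = 0
    rw [e6, Matrix.smul_mul, Matrix.mul_smul, Matrix.smul_apply, Matrix.smul_apply,
      Matrix.smul_apply, smul_eq_mul, smul_eq_mul, smul_eq_mul]
    have e7 := congrArg (fun x => (N : F)⁻¹ * (N : F)⁻¹ * x) e5
    simp only [mul_zero] at e7
    rw [← e7]
    field_simp

/-- the number of values of `N β` in a class modulo the `p`-part -/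
theorem spc_le {ι κ : Type} [Fintype ι] [DecidableEq ι] [Fintype κ] [DecidableEq κ]
    (p M N : ℕ) (β : ι → ℤ) (f : κ → ι) (hp : p.Prime) (hN : ¬ p ∣ N)
    (hv : (M * N).factorization p = M.factorization p) :
    spc p (M * N) (fun x : κ => (N : ℤ) * β (f x)) ≤ spc p M β := by
  unfold spc
  rw [hv]
  refine Finset.sup_le fun x _ => ?_
  refine le_trans ?_ (Finset.le_sup (f := fun i => ((Finset.univ.image β).filter
    fun c => (p : ℤ) ^ (M.factorization p) ∣ c - β i).card) (Finset.mem_univ (f x)))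
  have hsub : ((Finset.univ.image fun y : κ => (N : ℤ) * β (f y)).filter
      fun c => (p : ℤ) ^ (M.factorization p) ∣ c - (N : ℤ) * β (f x)) ⊆
      (((Finset.univ.image β).filter
        fun c => (p : ℤ) ^ (M.factorization p) ∣ c - β (f x))).image
          (fun c : ℤ => (N : ℤ) * c) := by
    intro c hc
    rw [Finset.mem_filter, Finset.mem_image] at hc
    obtain ⟨⟨y, -, rfl⟩, hd⟩ := hc
    rw [Finset.mem_image]
    refine ⟨β (f y), Finset.mem_filter.2 ⟨Finset.mem_image_of_mem _ (Finset.mem_univ _), ?_⟩, rfl⟩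
    rw [← mul_sub] at hd
    have hco : IsCoprime ((p : ℤ) ^ (M.factorization p)) (N : ℤ) := by
      have h1 : Nat.Coprime (p ^ (M.factorization p)) N :=
        Nat.Coprime.pow_left _ ((Nat.Prime.coprime_iff_not_dvd hp).2 hN)
      have h2 := Nat.isCoprime_iff_coprime.2 h1
      exact_mod_cast h2
    exact hco.dvd_of_dvd_mul_left hd
  exact (Finset.card_le_card hsub).trans Finset.card_image_le

end IGRD

open IGRD in
/-- Item GRD. -/
theorem pr_GRD (hEXU : StEXU) (hCJP : StCJP) (hMDGR : StMDGR) (hRKU : StRKU) (hRKG : StRKG) :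
    StGRD := by
  classical
  intro K _ _ r M N β b c g h S hM hN hhg hgh hbg hinf hrad hpsi p κ hp hpN hκ hle
  have hNK : (N : K) ≠ 0 := Nat.cast_ne_zero.2 hN.ne'
  have hMN : 0 < M * N := Nat.mul_pos hM hN
  -- the conjugated residue
  have hbb : h * b * g = Matrix.diagonal (fun i => ((((N : ℤ) * β i : ℤ)) : 𝓞 K)) := by
    rw [Matrix.mul_assoc, hbg, ← Matrix.mul_assoc, hhg, Matrix.smul_mul, Matrix.one_mul]
    ext i j
    rw [Matrix.smul_apply, Matrix.diagonal_apply, Matrix.diagonal_apply]
    split_ifs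
    · rw [smul_eq_mul]
      push_cast
      ring
    · rw [smul_zero]
  obtain ⟨U, hU⟩ : ∃ U : ℕ → Matrix (Fin r) (Fin r) K,
      IsU (M * N) (fun i => (N : ℤ) * β i) (Matrix.of fun i j => ((h * c * g) i j : K)) U := by
    refine hEXU K r (M * N) (fun i => (N : ℤ) * β i) (h * c * g) S hMN ?_ ?_ ?_
    · intro N'
      obtain ⟨q, h1, h2, h3, h4⟩ := hinf (max N' N)
      refine ⟨q, (le_max_left _ _).trans_lt h1, h2, fun hd => ?_, h4⟩
      rcases (Nat.Prime.dvd_mul h2).1 hd with hd | hd
      · exact h3 hd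
      · exact absurd (Nat.le_of_dvd hN hd) (not_le.2 ((le_max_right _ _).trans_lt h1))
    · exact fun q hq hqd hqS => hrad q hq (fun h1 => hqd (h1.mul_right N)) hqS
    · intro P hP hpd hpS
      rw [← hbb]
      exact hCJP K r M N b c g h hhg hgh P hP (fun h1 => hpd (h1.mul_left M))
        (hpsi P hP (fun h1 => hpd (h1.mul_right N)) hpS)
  -- growth of `U`
  have hv : (M * N).factorization p = M.factorization p := by
    rw [Nat.factorization_mul hM.ne' hN.ne', Finsupp.add_apply,
      Nat.factorization_eq_zero_of_not_dvd hpN, add_zero]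
  have : Fact p.Prime := ⟨hp⟩
  have hG : GrK p κ U := by
    rw [hRKG K r U p κ hp]
    refine hMDGR p _ (M * N) _ _ _ hMN (hRKU K r (M * N) _ (h * c * g) U hU) κ ?_
    rw [hv]
    refine le_trans ?_ hle
    have h1 : (0 : ℝ) < (p : ℝ) - 1 := by
      have : (1 : ℝ) < p := by exact_mod_cast hp.one_lt
      linarith
    have h2 := spc_le p M N β (fun x : Fin r × Fin (Module.finrank ℤ (𝓞 K)) => x.1) hp hpN hv
    have h3 : ((spc p (M * N) (fun x : Fin r × Fin (Module.finrank ℤ (𝓞 K)) =>
        (N : ℤ) * β x.1) : ℕ) : ℝ) ≤ (spc p M β : ℝ) := Nat.cast_le.2 h2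
    exact add_le_add le_rfl (div_le_div_of_nonneg_right h3 h1.le)
  -- the solution of the original system
  have c1 : ∀ A B : Matrix (Fin r) (Fin r) (𝓞 K),
      A * B = (N : 𝓞 K) • (1 : Matrix (Fin r) (Fin r) (𝓞 K)) →
      A.map (algebraMap (𝓞 K) K) * B.map (algebraMap (𝓞 K) K) =
        (N : K) • (1 : Matrix (Fin r) (Fin r) K) := by
    intro A B hAB
    rw [← Matrix.map_mul, hAB]
    ext i j
    rw [Matrix.map_apply, Matrix.smul_apply, Matrix.smul_apply, smul_eq_mul, smul_eq_mul, map_mul,
      map_natCast]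
    congr 1
    by_cases hij : i = j
    · subst hij
      rw [Matrix.one_apply_eq, Matrix.one_apply_eq, map_one]
    · rw [Matrix.one_apply_ne hij, Matrix.one_apply_ne hij, map_zero]
  have c2 : b.map (algebraMap (𝓞 K) K) * g.map (algebraMap (𝓞 K) K) =
      g.map (algebraMap (𝓞 K) K) * Matrix.diagonal (fun i => ((β i : ℤ) : K)) := by
    rw [← Matrix.map_mul, hbg, Matrix.map_mul]
    congr 1
    ext i j
    by_cases hij : i = j
    · subst hij
      rw [Matrix.map_apply, Matrix.diagonal_apply_eq, Matrix.diagonal_apply_eq, map_intCast]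
    · rw [Matrix.map_apply, Matrix.diagonal_apply_ne _ hij, Matrix.diagonal_apply_ne _ hij,
        map_zero]
  have c3 : (Matrix.of fun i j => ((h * c * g) i j : K)) =
      h.map (algebraMap (𝓞 K) K) * c.map (algebraMap (𝓞 K) K) *
        g.map (algebraMap (𝓞 K) K) := by
    rw [← Matrix.map_mul, ← Matrix.map_mul]
    rfl
  rw [c3] at hU
  exact ⟨_, isS M N β (b.map (algebraMap (𝓞 K) K)) (c.map (algebraMap (𝓞 K) K))
    (g.map (algebraMap (𝓞 K) K)) (h.map (algebraMap (𝓞 K) K)) U hNK (c1 h g hhg) (c1 g h hgh)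
    c2 hU, IGRC.grow N h g U hN p κ hp hG⟩

end Pool.Agent.Work.MP_5e5ff1_ag.TH
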