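import Mathlib
import Pool.Agent.Work.MP_5e5ff1_ag.TH.StmtsU

set_option autoImplicit false

/-!
# MP_5e5ff1_ag, block TH, item SPC: the combinatorial numbers
-/

open Matrix NumberField

namespace Pool.Agent.Work.MP_5e5ff1_ag.TH

namespace ISPC

theorem spc_le {r : ℕ} (p M q : ℕ) (β : Fin r → ℤ)
    (h : ∀ i : Fin r,
      Set.ncard {γ : ℤ | γ ∈ Set.range β ∧ (p : ℤ) ^ M.factorization p ∣ γ - β i} ≤ q) :
    spc p M β ≤ q := by
  classical
  refine Finset.sup_le fun i _ => ?_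
  have h1 : {γ : ℤ | γ ∈ Set.range β ∧ (p : ℤ) ^ M.factorization p ∣ γ - β i} =
      (((Finset.univ.image β).filter
        fun c => (p : ℤ) ^ (M.factorization p) ∣ c - β i : Finset ℤ) : Set ℤ) := by
    ext γ
    simp
  have h2 := h i
  rw [h1, Set.ncard_coe_finset] at h2
  exact h2

end ISPC

theorem pr_SPC (hEXS : StEXS) : StSPC := by
  intro K _ _ r M p q β b g hM hg hbg h
  have hexp := (hEXS K r M β b g hM hg hbg).1
  refine ISPC.spc_le p M q β fun i => ?_
  have h1 := h (β i) (by rw [hexp]; exact ⟨i, rfl⟩)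
  rw [hexp] at h1
  exact h1

end Pool.Agent.Work.MP_5e5ff1_ag.TH
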