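import Mathlib
import Pool.Agent.Work.MP_5e5ff1_ag.TH.AsmW
import Pool.Agent.Work.MP_5e5ff1_ag.TH.I_GRD
import Pool.Agent.Work.MP_5e5ff1_ag.TH.I_SPC

/-!
# MP_5e5ff1_ag, block TH, part U: assembly
-/

set_option autoImplicit false

namespace Pool.Agent.Work.MP_5e5ff1_ag.TH

theorem fin_SPC : StSPC := pr_SPC fin_TH_EXS

theorem fin_GRD : StGRD := pr_GRD fin_TH_EXU fin_TH_CJP fin_TH_MDGR fin_TH_RKU fin_TH_RKG

end Pool.Agent.Work.MP_5e5ff1_ag.TH
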