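import Mathlib
import Pool.Agent.Work.MP_5e5ff1_ag.TH.AsmU
import Pool.Agent.Work.MP_5e5ff1_ag.TH.I_MODN
import Pool.Agent.Work.MP_5e5ff1_ag.TH.I_MDGR
import Pool.Agent.Work.MP_5e5ff1_ag.TH.I_CN1
import Pool.Agent.Work.MP_5e5ff1_ag.TH.I_GRM

set_option autoImplicit false

/-!
# MP_5e5ff1_ag, block TH: the growth with the maximum of the valuations

In the recursion for a formal solution with a diagonal residue only ONE of the factors
`M n + β_j - β_i` occurs in each degree `n`.  The maximum of the numbers `x_c` is at most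
`e + ∑ (x_c - e)`, so the `p`-adic size is at most `v_p(M) + e + s_p/(p^e (p-1))`, for every `e`.
-/

open Matrix Filter Topology NumberField
open scoped Polynomial nonZeroDivisors

namespace Pool.Agent.Work.MP_5e5ff1_ag.TH

namespace EMax

/-- bound of the exponent -/
def LSE (p e M B n : ℕ) : ℕ := ∑ l ∈ Finset.Icc (e + 1) (Nat.log p (M * n + B)), (n / p ^ l + 1)

theorem LSE_mono (p e M B : ℕ) {m n : ℕ} (h : m ≤ n) : LSE p e M B m ≤ LSE p e M B n := by
  unfold LSE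
  have h1 : Nat.log p (M * m + B) ≤ Nat.log p (M * n + B) :=
    Nat.log_mono_right (Nat.add_le_add_right (Nat.mul_le_mul_left _ h) _)
  refine (Finset.sum_le_sum_of_subset (Finset.Icc_subset_Icc_right h1)).trans ?_
  exact Finset.sum_le_sum fun l _ => Nat.add_le_add_right (Nat.div_le_div_right h) _

theorem val_le (p e : ℕ) (hp : p.Prime) (H : ℕ) (x : ℤ) (hx : x ≠ 0) (hxH : |x| ≤ H) :
    padicValInt p x - e ≤
      ((Finset.Icc (e + 1) (Nat.log p H)).filter (fun l : ℕ => ((p ^ l : ℕ) : ℤ) ∣ x)).card := by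
  have : Fact p.Prime := ⟨hp⟩
  have h1 : ((p ^ padicValInt p x : ℕ) : ℤ) ∣ x := by
    rw [Nat.cast_pow]
    exact padicValInt_dvd x
  have h2 : p ^ padicValInt p x ≤ H := by
    have h3 : ((p ^ padicValInt p x : ℕ) : ℤ) ≤ |x| :=
      Int.le_of_dvd (abs_pos.2 hx) ((dvd_abs _ _).2 h1)
    exact_mod_cast h3.trans hxH
  have h4 : padicValInt p x ≤ Nat.log p H := Nat.le_log_of_pow_le hp.one_lt h2
  calc padicValInt p x - e = (Finset.Icc (e + 1) (padicValInt p x)).card := by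
        rw [Nat.card_Icc]
        omega
    _ ≤ _ := by
      refine Finset.card_le_card fun l hl => ?_
      rw [Finset.mem_Icc] at hl
      rw [Finset.mem_filter, Finset.mem_Icc]
      refine ⟨⟨hl.1, hl.2.trans h4⟩, ?_⟩
      exact dvd_trans (by exact_mod_cast pow_dvd_pow p hl.2) h1

theorem cnE (p M' M e : ℕ) (hp : p.Prime) (hpM : ¬ p ∣ M') (hMM : M' ≤ M) (B n : ℕ) (δ : ℤ)
    (hδ : |δ| ≤ B) (hne : ∀ k : ℕ, 1 ≤ k → (M' : ℤ) * (k : ℤ) + δ ≠ 0) :
    ∑ k ∈ Finset.Icc 1 n, (padicValInt p ((M' : ℤ) * (k : ℤ) + δ) - e) ≤ LSE p e M B n := by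
  have hcop : Nat.Coprime p M' := (Nat.Prime.coprime_iff_not_dvd hp).2 hpM
  calc ∑ k ∈ Finset.Icc 1 n, (padicValInt p ((M' : ℤ) * (k : ℤ) + δ) - e)
      ≤ ∑ k ∈ Finset.Icc 1 n, ((Finset.Icc (e + 1) (Nat.log p (M * n + B))).filter
          (fun l : ℕ => ((p ^ l : ℕ) : ℤ) ∣ (M' : ℤ) * (k : ℤ) + δ)).card := by
        refine Finset.sum_le_sum fun k hk => ?_
        rw [Finset.mem_Icc] at hk
        refine val_le p e hp _ _ (hne k hk.1) ?_
        have h1 : |(M' : ℤ) * (k : ℤ) + δ| ≤ |(M' : ℤ) * (k : ℤ)| + |δ| := abs_add_le _ _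
        have h2 : |(M' : ℤ) * (k : ℤ)| = M' * k := abs_of_nonneg (by positivity)
        have h3 : (k : ℤ) ≤ n := by exact_mod_cast hk.2
        have h4 : (M' : ℤ) ≤ M := by exact_mod_cast hMM
        have h5 : (M' : ℤ) * k ≤ M * n :=
          mul_le_mul h4 h3 (by positivity) (by positivity)
        push_cast
        linarith
    _ = ∑ l ∈ Finset.Icc (e + 1) (Nat.log p (M * n + B)), ((Finset.Icc 1 n).filter
          (fun k : ℕ => ((p ^ l : ℕ) : ℤ) ∣ (M' : ℤ) * (k : ℤ) + δ)).card := by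
        simp only [Finset.card_filter]
        rw [Finset.sum_comm]
    _ ≤ LSE p e M B n := by
        unfold LSE
        exact Finset.sum_le_sum fun l _ => ICN1.cnt (p ^ l) M' n δ (hcop.pow_left l)

/-- the exponent of the bounding function -/
noncomputable def h (p e k M' : ℕ) (T : Finset ℤ) (δ : ℤ → ℤ) (B0 n : ℕ) : ℕ :=
  (k + e) * n + ∑ m ∈ Finset.Ioc B0 n, ∑ c ∈ T, (padicValInt p ((M' : ℤ) * (m : ℤ) + δ c) - e)

theorem h_succ (p e k M' : ℕ) (T : Finset ℤ) (δ : ℤ → ℤ) (B0 n : ℕ) (hn : B0 ≤ n) :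
    h p e k M' T δ B0 (n + 1) = h p e k M' T δ B0 n + ((k + e) +
      ∑ c ∈ T, (padicValInt p ((M' : ℤ) * ((n + 1 : ℕ) : ℤ) + δ c) - e)) := by
  unfold h
  have e1 : Finset.Ioc B0 (n + 1) = insert (n + 1) (Finset.Ioc B0 n) := by
    ext m
    rw [Finset.mem_insert, Finset.mem_Ioc, Finset.mem_Ioc]
    omega
  rw [e1, Finset.sum_insert (by rw [Finset.mem_Ioc]; omega), Nat.mul_succ]
  omega

theorem h_mono (p e k M' : ℕ) (T : Finset ℤ) (δ : ℤ → ℤ) (B0 : ℕ) :
    Monotone (h p e k M' T δ B0) := by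
  intro m n hmn
  unfold h
  exact Nat.add_le_add (Nat.mul_le_mul_left _ hmn)
    (Finset.sum_le_sum_of_subset (Finset.Ioc_subset_Ioc_right hmn))

/-- the norm of an integer which is not divisible by `p^k` -/
theorem norm_of_not_dvd (p k : ℕ) [hp : Fact p.Prime] (z : ℤ) (hnd : ¬ ((p ^ k : ℕ) : ℤ) ∣ z) :
    1 ≤ padicNorm p (z : ℚ) * (p : ℚ) ^ k := by
  have hp0 : (0 : ℚ) < p := by exact_mod_cast hp.out.pos
  have h9 : ¬ padicNorm p (z : ℚ) ≤ (p : ℚ) ^ (-(k : ℕ) : ℤ) :=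
    fun hh => hnd (padicNorm.dvd_iff_norm_le.mpr hh)
  have h10 := not_le.mp h9
  rw [_root_.zpow_neg, _root_.zpow_natCast] at h10
  have h12 := mul_le_mul_of_nonneg_right h10.le (pow_pos hp0 k).le
  rwa [inv_mul_cancel₀ (pow_pos hp0 k).ne'] at h12

/-- the local estimate with the maximum of the valuations -/
theorem mode (p : ℕ) [Fact p.Prime] (ι : Type) [Fintype ι] [DecidableEq ι]
    (M : ℕ) (β : ι → ℤ) (C : Matrix ι ι ℤ) (W : ℕ → Matrix ι ι ℚ) (hM : 0 < M)
    (hW : IsW M β (qm (db ℤ β)) (qm C) W) (B0 : ℕ) (hB : ∀ i j, |β i - β j| ≤ B0)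
    (hint : ∀ k ≤ B0, ∀ i j, ∃ z : ℤ, W k i j = z) (e : ℕ) :
    ∀ (n : ℕ) (i j : ι), padicNorm p (W n i j) ≤
      (p : ℚ) ^ ((M.factorization p + e) * n + spc p M β * LSE p e M ((M + 1) * B0) n) := by
  intro n i j
  classical
  have hpp : p.Prime := Fact.out
  have hp0 : (0 : ℚ) < p := by exact_mod_cast hpp.pos
  have hp1 : (1 : ℚ) ≤ p := by exact_mod_cast hpp.one_le
  obtain ⟨k, hk⟩ : ∃ k, k = M.factorization p := ⟨_, rfl⟩
  obtain ⟨M', hM'⟩ : ∃ M', M' = M / p ^ k := ⟨_, rfl⟩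
  have hMM : M = p ^ k * M' := by
    rw [hM', hk]
    exact (Nat.ordProj_mul_ordCompl_eq_self M p).symm
  have hMz : (M : ℤ) = (p : ℤ) ^ k * (M' : ℤ) := by
    have := congrArg (Nat.cast : ℕ → ℤ) hMM
    push_cast at this
    exact this
  have hpM' : ¬ p ∣ M' := by
    rw [hM', hk]
    exact Nat.not_dvd_ordCompl hpp hM.ne'
  have hM'M : M' ≤ M := by
    rw [hM']
    exact Nat.div_le_self _ _
  rw [← hk]
  set T : Finset ℤ := (Finset.univ.image β).filter fun c => (p : ℤ) ^ k ∣ c - β j with hT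
  have hTc : T.card ≤ spc p M β := by
    unfold spc
    rw [← hk]
    exact Finset.le_sup (f := fun i => ((Finset.univ.image β).filter fun c =>
      (p : ℤ) ^ k ∣ c - β i).card) (Finset.mem_univ j)
  set δ : ℤ → ℤ := fun c => (β j - c) / (p : ℤ) ^ k with hδ
  have hδT : ∀ c ∈ T, β j - c = (p : ℤ) ^ k * δ c := by
    intro c hc
    have h1 : (p : ℤ) ^ k ∣ c - β j := (Finset.mem_filter.1 hc).2
    have h2 : (p : ℤ) ^ k ∣ β j - c := (dvd_sub_comm).1 h1
    exact (Int.mul_ediv_cancel' h2).symm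
  have hfac : ∀ (m : ℤ), ∀ c ∈ T, (M : ℤ) * m + (β j - c) =
      (p : ℤ) ^ k * ((M' : ℤ) * m + δ c) := by
    intro m c hc
    rw [hδT c hc, hMz]
    ring
  have hpk : (1 : ℤ) ≤ (p : ℤ) ^ k := by
    have : (1 : ℤ) ≤ (p : ℤ) := by exact_mod_cast hpp.one_le
    exact one_le_pow₀ this
  have hMpos : (1 : ℤ) ≤ M := by exact_mod_cast hM
  have hTB : ∀ c ∈ T, |β j - c| ≤ B0 := by
    intro c hc
    obtain ⟨i', -, rfl⟩ := Finset.mem_image.1 (Finset.mem_filter.1 hc).1
    exact hB j i'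
  have hne : ∀ m : ℕ, B0 < m → ∀ c ∈ T, (M' : ℤ) * (m : ℤ) + δ c ≠ 0 := by
    intro m hm c hc h0
    have h1 := hfac (m : ℤ) c hc
    rw [h0, mul_zero] at h1
    have h2 := (abs_le.1 (hTB c hc)).1
    have hm' : (B0 : ℤ) < m := by exact_mod_cast hm
    have hm0 : (0 : ℤ) ≤ m := by positivity
    nlinarith
  have hkey := IMODN.rec p M β C W hW B0 hint j (fun n => (p : ℚ) ^ (h p e k M' T δ B0 n))
    (fun n => one_le_pow₀ hp1)
    (fun m n hmn => pow_le_pow_right₀ hp1 (h_mono p e k M' T δ B0 hmn)) (fun n i hnB => by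
      change (p : ℚ) ^ (h p e k M' T δ B0 n) ≤ padicNorm p
        (((M : ℤ) * ((n + 1 : ℕ) : ℤ) + (β j - β i) : ℤ) : ℚ) *
        (p : ℚ) ^ (h p e k M' T δ B0 (n + 1))
      rw [h_succ _ _ _ _ _ _ _ _ hnB]
      by_cases hi : β i ∈ T
      · have hz := hne (n + 1) (by omega) (β i) hi
        have e3 : padicNorm p (((M' : ℤ) * ((n + 1 : ℕ) : ℤ) + δ (β i) : ℤ) : ℚ) =
            ((p : ℚ) ^ (padicValInt p ((M' : ℤ) * ((n + 1 : ℕ) : ℤ) + δ (β i))))⁻¹ := by
          rw [← IMODN.inv_norm p hz, inv_inv]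
        have e2 : padicNorm p (((p : ℤ) ^ k : ℤ) : ℚ) = ((p : ℚ) ^ k)⁻¹ := by
          push_cast
          exact IMODN.norm_pow p k
        rw [hfac _ _ hi, Int.cast_mul, padicNorm.mul, e2, e3, ← mul_inv, ← pow_add,
          le_inv_mul_iff₀ (pow_pos hp0 _), ← pow_add]
        refine pow_le_pow_right₀ hp1 ?_
        have h1 := Finset.single_le_sum
          (f := fun c => padicValInt p ((M' : ℤ) * ((n + 1 : ℕ) : ℤ) + δ c) - e)
          (fun _ _ => Nat.zero_le _) hi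
        omega
      · have hnd : ¬ ((p ^ k : ℕ) : ℤ) ∣ ((M : ℤ) * ((n + 1 : ℕ) : ℤ) + (β j - β i)) := by
          intro hd
          apply hi
          rw [hT, Finset.mem_filter]
          refine ⟨Finset.mem_image_of_mem β (Finset.mem_univ i), ?_⟩
          push_cast at hd
          have h1 : (p : ℤ) ^ k ∣ (M : ℤ) * ((n : ℤ) + 1) := by
            rw [hMz, mul_assoc]
            exact dvd_mul_right _ _
          have h2 : (p : ℤ) ^ k ∣ β j - β i := (dvd_add_right h1).1 hd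
          exact (dvd_sub_comm).1 h2
        have h11 := norm_of_not_dvd p k _ hnd
        calc (p : ℚ) ^ (h p e k M' T δ B0 n) = 1 * (p : ℚ) ^ (h p e k M' T δ B0 n) :=
              (one_mul _).symm
          _ ≤ (padicNorm p (((M : ℤ) * ((n + 1 : ℕ) : ℤ) + (β j - β i) : ℤ) : ℚ) *
              (p : ℚ) ^ k) * (p : ℚ) ^ (h p e k M' T δ B0 n) :=
              mul_le_mul_of_nonneg_right h11 (pow_pos hp0 _).le
          _ = padicNorm p (((M : ℤ) * ((n + 1 : ℕ) : ℤ) + (β j - β i) : ℤ) : ℚ) *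
              (p : ℚ) ^ (k + h p e k M' T δ B0 n) := by
              rw [mul_assoc, ← pow_add]
          _ ≤ _ := mul_le_mul_of_nonneg_left (pow_le_pow_right₀ hp1 (by omega))
              (padicNorm.nonneg _)) n i
  refine hkey.trans ?_
  refine pow_le_pow_right₀ hp1 ?_
  unfold h
  refine Nat.add_le_add_left ?_ _
  rw [Finset.sum_comm]
  calc ∑ c ∈ T, ∑ m ∈ Finset.Ioc B0 n, (padicValInt p ((M' : ℤ) * (m : ℤ) + δ c) - e)
      ≤ ∑ _c ∈ T, LSE p e M ((M + 1) * B0) n := Finset.sum_le_sum fun c hc => by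
        have hre : ∑ m ∈ Finset.Ioc B0 n, (padicValInt p ((M' : ℤ) * (m : ℤ) + δ c) - e) =
            ∑ m ∈ Finset.Icc 1 (n - B0),
              (padicValInt p ((M' : ℤ) * (m : ℤ) + ((M' : ℤ) * B0 + δ c)) - e) := by
          refine Finset.sum_bij' (fun m _ => m - B0) (fun m _ => m + B0) ?_ ?_ ?_ ?_ ?_
          · intro m hm
            rw [Finset.mem_Ioc] at hm
            rw [Finset.mem_Icc]
            omega
          · intro m hm
            rw [Finset.mem_Icc] at hm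
            rw [Finset.mem_Ioc]
            omega
          · intro m hm
            rw [Finset.mem_Ioc] at hm
            omega
          · intro m hm
            omega
          · intro m hm
            rw [Finset.mem_Ioc] at hm
            congr 2
            rw [Nat.cast_sub hm.1.le]
            ring
        rw [hre]
        refine (cnE p M' M e hpp hpM' hM'M ((M + 1) * B0) (n - B0) _ ?_ ?_).trans
          (LSE_mono p e M _ (Nat.sub_le _ _))
        · have h1 := hTB c hc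
          rw [hδT c hc, abs_mul, abs_of_pos (lt_of_lt_of_le zero_lt_one hpk)] at h1
          have h2 : |δ c| ≤ (p : ℤ) ^ k * |δ c| := le_mul_of_one_le_left (abs_nonneg _) hpk
          have h3 : |δ c| ≤ B0 := h2.trans h1
          have h4 : (M' : ℤ) * B0 ≤ (M : ℤ) * B0 :=
            mul_le_mul_of_nonneg_right (by exact_mod_cast hM'M) (by positivity)
          have h5 : (0 : ℤ) ≤ (M' : ℤ) * B0 := by positivity
          calc |(M' : ℤ) * B0 + δ c| ≤ |(M' : ℤ) * B0| + |δ c| := abs_add_le _ _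
            _ ≤ (M : ℤ) * B0 + B0 := by
                rw [abs_of_nonneg h5]
                exact add_le_add h4 h3
            _ = (((M + 1) * B0 : ℕ) : ℤ) := by
                push_cast
                ring
        · intro m hm h0
          refine hne (m + B0) (by omega) c hc ?_
          push_cast
          linarith
    _ = T.card * LSE p e M ((M + 1) * B0) n := by rw [Finset.sum_const, smul_eq_mul]
    _ ≤ spc p M β * LSE p e M ((M + 1) * B0) n := Nat.mul_le_mul_right _ hTc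

theorem geo (p : ℝ) (hp : 1 < p) (e L : ℕ) :
    ∑ l ∈ Finset.Icc (e + 1) L, (1 : ℝ) / p ^ l ≤ 1 / (p ^ e * (p - 1)) := by
  have h0 : 0 < p - 1 := by linarith
  have hp0 : 0 < p := by linarith
  have h1 : ∀ L : ℕ, ∑ l ∈ Finset.Icc (e + 1) (e + L), (1 : ℝ) / p ^ l ≤
      1 / (p ^ e * (p - 1)) * (1 - 1 / p ^ L) := by
    intro L
    induction L with
    | zero => simp
    | succ L ih =>
      rw [← Nat.add_assoc, Finset.sum_Icc_succ_top (by omega)]
      refine (add_le_add_left ih _).trans (le_of_eq ?_)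
      field_simp
      ring
  have h2 : ∑ l ∈ Finset.Icc (e + 1) L, (1 : ℝ) / p ^ l ≤
      ∑ l ∈ Finset.Icc (e + 1) (e + L), (1 : ℝ) / p ^ l :=
    Finset.sum_le_sum_of_subset_of_nonneg (Finset.Icc_subset_Icc_right (by omega))
      (fun _ _ _ => by positivity)
  refine h2.trans ((h1 L).trans ?_)
  have h3 : (0 : ℝ) ≤ 1 / p ^ L := by positivity
  have h4 : (0 : ℝ) ≤ 1 / (p ^ e * (p - 1)) := by positivity
  nlinarith

/-- bound of the exponent -/
theorem one (p e M B N : ℕ) (hp : 2 ≤ p) (hne : M * N + B ≠ 0) :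
    (LSE p e M B N : ℝ) * Real.log p ≤ N * (Real.log p / ((p : ℝ) ^ e * (p - 1))) +
      Real.log ((M * N + B : ℕ) : ℝ) := by
  have hp1 : (1 : ℝ) < p := by exact_mod_cast (by omega : 1 < p)
  have hlog : 0 ≤ Real.log p := Real.log_nonneg hp1.le
  set L := Nat.log p (M * N + B) with hL
  have h1 : (LSE p e M B N : ℝ) ≤ N * (1 / ((p : ℝ) ^ e * ((p : ℝ) - 1))) + L := by
    have h2 : (LSE p e M B N : ℝ) = ∑ l ∈ Finset.Icc (e + 1) L, (((N / p ^ l : ℕ) : ℝ) + 1) := by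
      rw [LSE]; push_cast; rfl
    rw [h2, Finset.sum_add_distrib]
    have h3 : ∑ l ∈ Finset.Icc (e + 1) L, ((N / p ^ l : ℕ) : ℝ) ≤
        N * (1 / ((p : ℝ) ^ e * ((p : ℝ) - 1))) := by
      calc ∑ l ∈ Finset.Icc (e + 1) L, ((N / p ^ l : ℕ) : ℝ)
          ≤ ∑ l ∈ Finset.Icc (e + 1) L, (N : ℝ) * (1 / (p : ℝ) ^ l) := by
            apply Finset.sum_le_sum
            intro l _
            have := @Nat.cast_div_le ℝ _ _ _ N (p ^ l)
            push_cast at this
            rw [mul_one_div]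
            exact this
        _ = N * ∑ l ∈ Finset.Icc (e + 1) L, (1 / (p : ℝ) ^ l) := by rw [Finset.mul_sum]
        _ ≤ _ := mul_le_mul_of_nonneg_left (geo p hp1 e L) (by positivity)
    have h4 : ∑ _l ∈ Finset.Icc (e + 1) L, (1 : ℝ) ≤ L := by
      rw [Finset.sum_const, Nat.card_Icc, nsmul_eq_mul, mul_one]
      exact_mod_cast (by omega : L + 1 - (e + 1) ≤ L)
    linarith
  have h5 : (LSE p e M B N : ℝ) * Real.log p ≤
      (N * (1 / ((p : ℝ) ^ e * ((p : ℝ) - 1))) + L) * Real.log p :=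
    mul_le_mul_of_nonneg_right h1 hlog
  have h6 : N * (1 / ((p : ℝ) ^ e * ((p : ℝ) - 1))) * Real.log p =
      N * (Real.log p / ((p : ℝ) ^ e * (p - 1))) := by
    ring
  have h10 : p ^ L ≤ M * N + B := Nat.pow_log_le_self p hne
  have h11 : (L : ℝ) * Real.log p ≤ Real.log ((M * N + B : ℕ) : ℝ) := by
    rw [← Real.log_pow]
    apply Real.log_le_log (by positivity)
    exact_mod_cast h10
  nlinarith [h5, h6, h11]

/-- the bound for large `n` -/
theorem large (M p e B v s : ℕ) (hM : 0 < M) (hp : p.Prime) (κ : ℝ)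
    (hκ : (v : ℝ) + e + (s : ℝ) / ((p : ℝ) ^ e * ((p : ℝ) - 1)) ≤ κ) (ε : ℝ) (hε : 0 < ε) :
    ∃ N0 : ℕ, ∀ n ≥ N0, (v + e) * n + s * LSE p e M B n ≤ ⌈(κ + ε) * n⌉₊ := by
  have hp1 : (1 : ℝ) < p := by exact_mod_cast hp.one_lt
  have hlog : 0 < Real.log p := Real.log_pos hp1
  have hs : (0 : ℝ) < (s : ℝ) + 1 := by positivity
  obtain ⟨N0, hN0⟩ := IGRM.err M B 1 hM (ε * Real.log p / (s + 1)) (by positivity)
  refine ⟨N0, fun n hn => ?_⟩
  obtain ⟨hne, h0⟩ := hN0 n hn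
  have h1 := one p e M B n hp.two_le hne
  rw [Nat.cast_one, one_mul] at h0
  have h2 : (LSE p e M B n : ℝ) ≤
      n * (1 / ((p : ℝ) ^ e * ((p : ℝ) - 1))) + ε / (s + 1) * n := by
    have h3 : (LSE p e M B n : ℝ) * Real.log p ≤
        (n * (1 / ((p : ℝ) ^ e * ((p : ℝ) - 1))) + ε / (s + 1) * n) * Real.log p := by
      refine (h1.trans (add_le_add le_rfl h0)).trans (le_of_eq ?_)
      ring
    exact le_of_mul_le_mul_right h3 hlog
  have h4 : (s : ℝ) * (ε / (s + 1)) ≤ ε := by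
    rw [mul_div_assoc', div_le_iff₀ hs]
    nlinarith
  have hn0 : (0 : ℝ) ≤ n := Nat.cast_nonneg n
  have h5 : (((v + e) * n + s * LSE p e M B n : ℕ) : ℝ) ≤ (κ + ε) * n := by
    push_cast
    have h6 : (s : ℝ) * LSE p e M B n ≤
        s * (n * (1 / ((p : ℝ) ^ e * ((p : ℝ) - 1))) + ε / (s + 1) * n) :=
      mul_le_mul_of_nonneg_left h2 (Nat.cast_nonneg s)
    have h7 : (s : ℝ) * (ε / (s + 1)) * n ≤ ε * n := mul_le_mul_of_nonneg_right h4 hn0
    have h8 : ((v : ℝ) + e + (s : ℝ) / ((p : ℝ) ^ e * ((p : ℝ) - 1))) * n ≤ κ * n :=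
      mul_le_mul_of_nonneg_right hκ hn0
    have h9 : (s : ℝ) * (n * (1 / ((p : ℝ) ^ e * ((p : ℝ) - 1))) + ε / (s + 1) * n) =
        (s : ℝ) / ((p : ℝ) ^ e * ((p : ℝ) - 1)) * n + (s : ℝ) * (ε / (s + 1)) * n := by ring
    rw [h9] at h6
    nlinarith
  have h10 : (((v + e) * n + s * LSE p e M B n : ℕ) : ℝ) ≤ (⌈(κ + ε) * n⌉₊ : ℝ) :=
    h5.trans (Nat.le_ceil _)
  exact_mod_cast h10

/-- the local estimate, resonance allowed -/
theorem mdge (p : ℕ) [Fact p.Prime] (ι : Type) [Fintype ι] [DecidableEq ι]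
    (M : ℕ) (β : ι → ℤ) (C : Matrix ι ι ℤ) (U : ℕ → Matrix ι ι ℚ) (hM : 0 < M)
    (hU : IsU M β (qm C) U) (e : ℕ) (κ : ℝ)
    (hκ : (M.factorization p : ℝ) + e + (spc p M β : ℝ) / ((p : ℝ) ^ e * ((p : ℝ) - 1)) ≤ κ) :
    Gr p κ U := by
  have hpp : p.Prime := Fact.out
  intro ε hε
  set B0 : ℕ := ∑ i, ∑ j, (β i - β j).natAbs with hB0
  have hBb : ∀ i j, |β i - β j| ≤ B0 := by
    intro i j
    have h1 : (β i - β j).natAbs ≤ B0 := by
      refine le_trans ?_ (Finset.single_le_sum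
        (f := fun i => ∑ j, (β i - β j).natAbs) (fun _ _ => Nat.zero_le _) (Finset.mem_univ i))
      exact Finset.single_le_sum (f := fun j => (β i - β j).natAbs)
        (fun _ _ => Nat.zero_le _) (Finset.mem_univ j)
    rw [Int.abs_eq_natAbs]
    exact_mod_cast h1
  obtain ⟨d, hd, hden⟩ := IMDGR.den U B0
  set B : ℕ := (M + 1) * B0 with hB
  have hW := mode p ι M β C (fun n => (d : ℚ) • U n) hM (IMDGR.isW M β C U hU d) B0 hBb
    (fun k hk i j => by
      obtain ⟨z, hz⟩ := hden k hk i j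
      exact ⟨z, by rw [Matrix.smul_apply, smul_eq_mul, hz]⟩) e
  obtain ⟨N0, hN0⟩ := large M p e B (M.factorization p) (spc p M β) hM hpp κ hκ ε hε
  have hp1 : (1 : ℚ) ≤ p := by exact_mod_cast hpp.one_lt.le
  have hp0 : (0 : ℚ) < p := lt_of_lt_of_le zero_lt_one hp1
  refine ⟨padicValNat p d +
    ∑ n ∈ Finset.range N0, ((M.factorization p + e) * n + spc p M β * LSE p e M B n),
    fun n i j => ?_⟩
  have h0 := hW n i j
  rw [Matrix.smul_apply, smul_eq_mul, padicNorm.mul] at h0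
  have h1 : padicNorm p (U n i j) ≤ (p : ℚ) ^ (padicValNat p d) *
      (p : ℚ) ^ ((M.factorization p + e) * n + spc p M β * LSE p e M B n) := by
    calc padicNorm p (U n i j)
        = (p : ℚ) ^ (padicValNat p d) * (padicNorm p (d : ℚ) * padicNorm p (U n i j)) := by
          rw [← mul_assoc, IMDGR.norm_nat p d hd, one_mul]
      _ ≤ _ := mul_le_mul_of_nonneg_left h0 (pow_nonneg hp0.le _)
  refine h1.trans ?_
  rw [← pow_add]
  refine pow_le_pow_right₀ hp1 ?_
  by_cases hn : n < N0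
  · have h2 : (M.factorization p + e) * n + spc p M β * LSE p e M B n ≤
        ∑ n ∈ Finset.range N0, ((M.factorization p + e) * n + spc p M β * LSE p e M B n) :=
      Finset.single_le_sum
        (f := fun n => (M.factorization p + e) * n + spc p M β * LSE p e M B n)
        (fun _ _ => Nat.zero_le _) (Finset.mem_range.2 hn)
    omega
  · have h2 := hN0 n (by omega)
    omega

/-- growth of a formal solution, `b` diagonalizable over the `p`-integers (compare I_GRD) -/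
theorem gre (K : Type) [Field K] [NumberField K] (r M N : ℕ) (β : Fin r → ℤ)
    (b c g h : Matrix (Fin r) (Fin r) (𝓞 K)) (S : Set ℕ) (hM : 0 < M) (hN : 0 < N)
    (hhg : h * g = (N : 𝓞 K) • (1 : Matrix (Fin r) (Fin r) (𝓞 K)))
    (hgh : g * h = (N : 𝓞 K) • (1 : Matrix (Fin r) (Fin r) (𝓞 K)))
    (hbg : b * g = g * Matrix.diagonal (fun i => ((β i : ℤ) : 𝓞 K)))
    (hinf : ∀ N' : ℕ, ∃ p : ℕ, N' < p ∧ p.Prime ∧ ¬ p ∣ M ∧ p ∉ S)
    (hrad : ∀ p : ℕ, p.Prime → ¬ p ∣ M → p ∉ S → (Ideal.span {(p : 𝓞 K)}).IsRadical)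
    (hpsi : ∀ P : Ideal (𝓞 K), P.IsMaximal → ¬ ringChar (𝓞 K ⧸ P) ∣ M →
      ringChar (𝓞 K ⧸ P) ∉ S → PCurvZero M b c P)
    (p e : ℕ) (κ : ℝ) (hp : p.Prime) (hpN : ¬ p ∣ N)
    (hle : (M.factorization p : ℝ) + e + (spc p M β : ℝ) / ((p : ℝ) ^ e * ((p : ℝ) - 1)) ≤ κ) :
    ∃ V : ℕ → Matrix (Fin r) (Fin r) K,
      IsS M (Matrix.of fun i j => (b i j : K)) (Matrix.of fun i j => (c i j : K)) V ∧
      GrK p κ V := by
  classical
  have hNK : (N : K) ≠ 0 := Nat.cast_ne_zero.2 hN.ne'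
  have hMN : 0 < M * N := Nat.mul_pos hM hN
  have hbb : h * b * g = Matrix.diagonal (fun i => ((((N : ℤ) * β i : ℤ)) : 𝓞 K)) := by
    rw [Matrix.mul_assoc, hbg, ← Matrix.mul_assoc, hhg, Matrix.smul_mul, Matrix.one_mul]
    ext i j
    rw [Matrix.smul_apply, Matrix.diagonal_apply, Matrix.diagonal_apply]
    split_ifs
    · rw [smul_eq_mul]
      push_cast
      ring
    · rw [smul_zero]
  obtain ⟨U, hU⟩ : ∃ U : ℕ → Matrix (Fin r) (Fin r) K,
      IsU (M * N) (fun i => (N : ℤ) * β i) (Matrix.of fun i j => ((h * c * g) i j : K)) U := by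
    refine fin_TH_EXU K r (M * N) (fun i => (N : ℤ) * β i) (h * c * g) S hMN ?_ ?_ ?_
    · intro N'
      obtain ⟨q, h1, h2, h3, h4⟩ := hinf (max N' N)
      refine ⟨q, (le_max_left _ _).trans_lt h1, h2, fun hd => ?_, h4⟩
      rcases (Nat.Prime.dvd_mul h2).1 hd with hd | hd
      · exact h3 hd
      · exact absurd (Nat.le_of_dvd hN hd) (not_le.2 ((le_max_right _ _).trans_lt h1))
    · exact fun q hq hqd hqS => hrad q hq (fun h1 => hqd (h1.mul_right N)) hqS
    · intro P hP hpd hpS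
      rw [← hbb]
      exact fin_TH_CJP K r M N b c g h hhg hgh P hP (fun h1 => hpd (h1.mul_left M))
        (hpsi P hP (fun h1 => hpd (h1.mul_right N)) hpS)
  have hv : (M * N).factorization p = M.factorization p := by
    rw [Nat.factorization_mul hM.ne' hN.ne', Finsupp.add_apply,
      Nat.factorization_eq_zero_of_not_dvd hpN, add_zero]
  have : Fact p.Prime := ⟨hp⟩
  have hG : GrK p κ U := by
    rw [fin_TH_RKG K r U p κ hp]
    refine mdge p _ (M * N) _ _ _ hMN (fin_TH_RKU K r (M * N) _ (h * c * g) U hU) e κ ?_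
    rw [hv]
    refine le_trans ?_ hle
    have h1 : (0 : ℝ) < (p : ℝ) - 1 := by
      have : (1 : ℝ) < p := by exact_mod_cast hp.one_lt
      linarith
    have h0 : (0 : ℝ) < (p : ℝ) ^ e * ((p : ℝ) - 1) :=
      mul_pos (pow_pos (by exact_mod_cast hp.pos) _) h1
    have h2 := IGRD.spc_le p M N β (fun x : Fin r × Fin (Module.finrank ℤ (𝓞 K)) => x.1) hp hpN hv
    have h3 : ((spc p (M * N) (fun x : Fin r × Fin (Module.finrank ℤ (𝓞 K)) =>
        (N : ℤ) * β x.1) : ℕ) : ℝ) ≤ (spc p M β : ℝ) := Nat.cast_le.2 h2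
    exact add_le_add le_rfl (div_le_div_of_nonneg_right h3 h0.le)
  have c1 : ∀ A B : Matrix (Fin r) (Fin r) (𝓞 K),
      A * B = (N : 𝓞 K) • (1 : Matrix (Fin r) (Fin r) (𝓞 K)) →
      A.map (algebraMap (𝓞 K) K) * B.map (algebraMap (𝓞 K) K) =
        (N : K) • (1 : Matrix (Fin r) (Fin r) K) := by
    intro A B hAB
    rw [← Matrix.map_mul, hAB]
    ext i j
    rw [Matrix.map_apply, Matrix.smul_apply, Matrix.smul_apply, smul_eq_mul, smul_eq_mul, map_mul,
      map_natCast]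
    congr 1
    by_cases hij : i = j
    · subst hij
      rw [Matrix.one_apply_eq, Matrix.one_apply_eq, map_one]
    · rw [Matrix.one_apply_ne hij, Matrix.one_apply_ne hij, map_zero]
  have c2 : b.map (algebraMap (𝓞 K) K) * g.map (algebraMap (𝓞 K) K) =
      g.map (algebraMap (𝓞 K) K) * Matrix.diagonal (fun i => ((β i : ℤ) : K)) := by
    rw [← Matrix.map_mul, hbg, Matrix.map_mul]
    congr 1
    ext i j
    by_cases hij : i = j
    · subst hij
      rw [Matrix.map_apply, Matrix.diagonal_apply_eq, Matrix.diagonal_apply_eq, map_intCast]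
    · rw [Matrix.map_apply, Matrix.diagonal_apply_ne _ hij, Matrix.diagonal_apply_ne _ hij,
        map_zero]
  have c3 : (Matrix.of fun i j => ((h * c * g) i j : K)) =
      h.map (algebraMap (𝓞 K) K) * c.map (algebraMap (𝓞 K) K) *
        g.map (algebraMap (𝓞 K) K) := by
    rw [← Matrix.map_mul, ← Matrix.map_mul]
    rfl
  rw [c3] at hU
  exact ⟨_, IGRD.isS M N β (b.map (algebraMap (𝓞 K) K)) (c.map (algebraMap (𝓞 K) K))
    (g.map (algebraMap (𝓞 K) K)) (h.map (algebraMap (𝓞 K) K)) U hNK (c1 h g hhg) (c1 g h hgh)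
    c2 hU, IGRC.grow N h g U hN p κ hp hG⟩

end EMax

end Pool.Agent.Work.MP_5e5ff1_ag.TH
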