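import Mathlib
import Pool.Agent.Work.MP_5e5ff1_ag.TH.Asm

/-! # Vanishing p-curvature for representations of hyperbolic triangle groups

Let `K` be a number field, `M ≥ 1`, and let `b`, `c` be arbitrary `r × r` matrices over the ring of
integers of `K`; we consider the system `f' = (b/M / t + c/M / (t-1)) f`. Assume that the integral
eigenvalues of `c`, divided by `M`, lie in `(1/n₁) ℤ` and those of `b + c` in `(1/n₂) ℤ` (no condition
if `n₁ = 0` or `n₂ = 0`), where `(n₁, n₂)` (in any order) and the radius `R` are in the list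

  `(2,3): 1728`, `(2,4): 256`, `(2,6): 108`, `(2,0): 64`, `(3,3): 48 √3`, `(3,0): 27`, `(4,4): 32`,
  `(6,6): 12 √3`, `(0,0): 16`

(the nine arithmetic triangle groups with a cusp). Let `S` be a set of primes which contains the primes
not dividing `M` which ramify in `K`, and assume that the p-curvature vanishes at all primes of `K`
whose residue characteristic `p` does not divide `M` and is not in `S`. Let `s` be the number of
distinct exponents at `0` modulo `ℤ` (integral eigenvalues of `b` modulo `M`).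

Let `T` be a finite set of primes which contains the primes dividing `M`, and for `p ∈ T` let
`κ p ≥ 0` be such that the matrix `U(t)` of a formal solution `U(t) t^(b/M)`, `U(0) = 1`, at the point
`0` has `p`-adic radius of convergence at least `p^(-κ p)` at all places above `p`; this is always so
if `p ∤ M` and `κ p ≥ s/(p-1)`, and if `b` is diagonal and `κ p ≥ v_p(M) + s_p/(p-1)`, where `s_p` is
the largest number of distinct exponents which are congruent modulo the `p`-part of `M`. If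

  `∑_{p ∈ T} κ p log p + s ∑_{p ∉ T} log p/(p(p-1)) + s ∑_{p ∈ S, p ∉ T} log p/p < log R`,

then the system has a full set of algebraic solutions. This is the open direction of the conjecture,
in arbitrary rank; the system is neither assumed to be rigid nor to have solvable monodromy, and the
only restriction is the size of the system (if the p-curvatures vanish for almost all primes, the left
side is finite; the type `(0,0)` has no condition on the exponents). The inequality holds, without any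
condition on the radii, in the cases listed in `Table`, which concern representations of the triangle
groups `(4,4,4)`, `(8,2,4)`, `(16,2,4)`, `(12,2,4)`, `(8,2,8)`, `(6,2,6)`, `(12,2,6)`, `(6,3,3)`,
`(12,3,3)`, `(m,2,3)` with `m ∣ 72` (the first number is the order at `0`). -/

open Polynomial Matrix NumberField

namespace Pool.Agent.Work.MP_5e5ff1_ag.TH.HT3

/-- The p-curvature of the system with residues `b / n`, `c / n` vanishes modulo `P`.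
With `∇ = d/dt - (b/n)/t - (c/n)/(t-1)` the matrices `Q k` of the recursion are
`(n t (t-1))^k ∇^k` applied to the columns of the identity matrix, reduced modulo `P`. This is the
recursion of the frozen statement. -/
def PCurvZero {K : Type} [Field K] [NumberField K] {r : ℕ} (n : ℕ)
    (b c : Matrix (Fin r) (Fin r) (𝓞 K)) (P : Ideal (𝓞 K)) : Prop :=
  ∀ Q : ℕ → Matrix (Fin r) (Fin r) (Polynomial (𝓞 K ⧸ P)),
    Q 0 = 1 →
    (∀ k : ℕ, Q (k + 1) =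
        (Polynomial.C (Ideal.Quotient.mk P (n : 𝓞 K)) *
            ((Polynomial.X : Polynomial (𝓞 K ⧸ P)) * (Polynomial.X - 1))) •
          (Q k).map (fun f => Polynomial.derivative f)
        - ((k : Polynomial (𝓞 K ⧸ P)) * Polynomial.C (Ideal.Quotient.mk P (n : 𝓞 K)) *
            (2 * (Polynomial.X : Polynomial (𝓞 K ⧸ P)) - 1)) • Q k
        - (((Polynomial.X : Polynomial (𝓞 K ⧸ P)) - 1) •
              b.map (fun x => Polynomial.C (Ideal.Quotient.mk P x)) +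
            (Polynomial.X : Polynomial (𝓞 K ⧸ P)) •
              c.map (fun x => Polynomial.C (Ideal.Quotient.mk P x))) * Q k) →
    Q (ringChar (𝓞 K ⧸ P)) = 0

/-- The system `f' = (B/t + C/(t-1)) f` has a full set of algebraic solutions. This is the
condition of the frozen statement. -/
def HasAlgebraicSolutions {r : ℕ} (B C : Matrix (Fin r) (Fin r) ℂ) : Prop :=
  ∃ (δ : Derivation ℤ (AlgebraicClosure (RatFunc ℂ)) (AlgebraicClosure (RatFunc ℂ)))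
    (F : Matrix (Fin r) (Fin r) (AlgebraicClosure (RatFunc ℂ))),
    (∀ z : ℂ, δ (algebraMap (RatFunc ℂ) (AlgebraicClosure (RatFunc ℂ))
        (algebraMap ℂ (RatFunc ℂ) z)) = 0) ∧
    δ (algebraMap (RatFunc ℂ) (AlgebraicClosure (RatFunc ℂ)) RatFunc.X) = 1 ∧
    F.det ≠ 0 ∧
    F.map (fun x => δ x) =
      (Matrix.of fun i j => algebraMap (RatFunc ℂ) (AlgebraicClosure (RatFunc ℂ))
        (algebraMap ℂ (RatFunc ℂ) (B i j) / RatFunc.X +
         algebraMap ℂ (RatFunc ℂ) (C i j) / (RatFunc.X - 1))) * F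

/-- The integral eigenvalues of `b`. -/
def expSet {K : Type} [Field K] [NumberField K] {r : ℕ} (b : Matrix (Fin r) (Fin r) (𝓞 K)) : Set ℤ :=
  {β | b.charpoly.IsRoot ((β : ℤ) : 𝓞 K)}

/-- The number `s` of integral eigenvalues of `b` modulo `M`: the number of distinct exponents at `0`
modulo `ℤ` of a system with the residue `b/M`. -/
noncomputable def numExp {K : Type} [Field K] [NumberField K] {r : ℕ} (M : ℕ)
    (b : Matrix (Fin r) (Fin r) (𝓞 K)) : ℕ :=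
  Set.ncard ((fun β : ℤ => (β : ZMod M)) '' expSet b)

/-- The number of integral eigenvalues of `b` which are congruent to `β` modulo the `p`-part of
`M`. -/
noncomputable def numCong {K : Type} [Field K] [NumberField K] {r : ℕ} (p M : ℕ)
    (b : Matrix (Fin r) (Fin r) (𝓞 K)) (β : ℤ) : ℕ :=
  Set.ncard {γ | γ ∈ expSet b ∧ (p : ℤ) ^ M.factorization p ∣ γ - β}

/-- The nine types and their radii; `0` means a cusp. -/
def Rad (n₁ n₂ : ℕ) (R : ℝ) : Prop :=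
  (n₁ = 2 ∧ n₂ = 3 ∧ R = 1728) ∨ (n₁ = 2 ∧ n₂ = 4 ∧ R = 256) ∨ (n₁ = 2 ∧ n₂ = 6 ∧ R = 108) ∨
  (n₁ = 2 ∧ n₂ = 0 ∧ R = 64) ∨ (n₁ = 3 ∧ n₂ = 3 ∧ R = 48 * Real.sqrt 3) ∨
  (n₁ = 3 ∧ n₂ = 0 ∧ R = 27) ∨ (n₁ = 4 ∧ n₂ = 4 ∧ R = 32) ∨
  (n₁ = 6 ∧ n₂ = 6 ∧ R = 12 * Real.sqrt 3) ∨ (n₁ = 0 ∧ n₂ = 0 ∧ R = 16)

/-- The orders `n₁`, `n₂` at the points `1`, `∞` (`0` means no condition) and the radius `R`. -/
def Radius (n₁ n₂ : ℕ) (R : ℝ) : Prop := Rad n₁ n₂ R ∨ Rad n₂ n₁ R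

/-- `U(t) t^(b/M)` with `U = ∑ U n t^n`, `U 0 = 1`, is a formal solution of the system with the
residues `b/M`, `c/M`. -/
def IsFormalSolution {K : Type} [Field K] [NumberField K] {r : ℕ} (M : ℕ)
    (b c : Matrix (Fin r) (Fin r) K) (U : ℕ → Matrix (Fin r) (Fin r) K) : Prop :=
  U 0 = 1 ∧ ∀ (n : ℕ) (i j : Fin r), (M : K) * (n : K) * U n i j + (U n * b) i j - (b * U n) i j +
    ∑ k ∈ Finset.range n, (c * U k) i j = 0

/-- `κ` is an admissible `p`-adic size of the system with the residues `b/M`, `c/M`: either `p ∤ M`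
and `κ ≥ s/(p-1)`, or `b` is diagonal and `κ ≥ v_p(M) + s_p/(p-1)`, or the matrix `U` of a formal
solution `U(t) t^(b/M)`, `U(0) = 1`, has `p`-adic radius of convergence `≥ p^(-κ)` at all places above
`p`: for every `ε > 0` there is an `a` such that all `p^(a + ⌈(κ + ε) n⌉) U n` are `p`-integral. -/
def IsSize {K : Type} [Field K] [NumberField K] {r : ℕ} (M : ℕ)
    (b c : Matrix (Fin r) (Fin r) (𝓞 K)) (p : ℕ) (κ : ℝ) : Prop :=
  (¬ p ∣ M ∧ (numExp M b : ℝ) / ((p : ℝ) - 1) ≤ κ) ∨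
  (b.IsDiag ∧ ∀ β ∈ expSet b,
    (M.factorization p : ℝ) + (numCong p M b β : ℝ) / ((p : ℝ) - 1) ≤ κ) ∨
  ∃ U : ℕ → Matrix (Fin r) (Fin r) K,
    IsFormalSolution M (Matrix.of fun i j => (b i j : K)) (Matrix.of fun i j => (c i j : K)) U ∧
    ∀ ε : ℝ, 0 < ε → ∃ a : ℕ, ∀ (n : ℕ) (i j : Fin r), ∃ m : ℕ, ¬ p ∣ m ∧
      IsIntegral ℤ ((m : K) * (p : K) ^ (a + ⌈(κ + ε) * n⌉₊) * U n i j)

open Classical in
/-- The arithmetic cost
`∑_{p ∈ T} κ p log p + s ∑_{p ∉ T} log p/(p(p-1)) + s ∑_{p ∈ S, p ∉ T} log p/p` is at most `L`: this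
is so for all finite sets `F` of primes which are not in `T`. -/
def Cost (T : Finset ℕ) (κ : ℕ → ℝ) (s : ℕ) (S : Set ℕ) (L : ℝ) : Prop := ∀ F : Finset ℕ,
  (∀ p ∈ F, p.Prime ∧ p ∉ T) →
  ∑ p ∈ T, κ p * Real.log p +
    (s : ℝ) * ∑ p ∈ F, (1 / ((p : ℝ) * (p - 1)) + if p ∈ S then 1 / (p : ℝ) else 0) *
      Real.log p ≤ L

/-- The size of the system is less than the logarithm of the radius. (`b` has integral eigenvalues
only, by the hypotheses of the theorem; `max 1` is there because this is not assumed.) -/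
def SizeLt {K : Type} [Field K] [NumberField K] {r : ℕ} (n₁ n₂ M : ℕ)
    (b c : Matrix (Fin r) (Fin r) (𝓞 K)) (S : Set ℕ) : Prop :=
  ∃ (T : Finset ℕ) (κ : ℕ → ℝ) (R L : ℝ), Radius n₁ n₂ R ∧ L < Real.log R ∧
    (∀ p : ℕ, p.Prime → p ∣ M → p ∈ T) ∧
    (∀ p ∈ T, p.Prime ∧ 0 ≤ κ p ∧ IsSize M b c p (κ p)) ∧
    Cost T κ (max 1 (numExp M b)) S L

/-- The finite sums of `log p / p` over primes of `S` are at most `ε`. -/
def Small (S : Set ℕ) (ε : ℝ) : Prop := ∀ F : Finset ℕ, (∀ p ∈ F, p.Prime ∧ p ∈ S) →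
  ∑ p ∈ F, Real.log p / p ≤ ε

/-- Eight cases: `n₁`, `n₂` are the orders at `1` and `∞` (or at `∞` and `1`), there are at most `s`
exponents modulo `ℤ`, at most `s₂` (`s₃`) exponents are congruent modulo the `2`-part (`3`-part) of
`M`. -/
def Row (n₁ n₂ M s s₂ s₃ : ℕ) (S : Set ℕ) : Prop :=
  (n₁ = 4 ∧ n₂ = 4 ∧ M = 4 ∧ s ≤ 3 ∧ s₂ ≤ 1 ∧ Small S (1 / 20)) ∨
  (n₁ = 2 ∧ n₂ = 4 ∧ M = 8 ∧ s ≤ 6 ∧ s₂ ≤ 1 ∧ Small S (1 / 20)) ∨
  (n₁ = 2 ∧ n₂ = 4 ∧ M = 16 ∧ s ≤ 5 ∧ s₂ ≤ 1 ∧ Small S (1 / 250)) ∨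
  (n₁ = 2 ∧ n₂ = 0 ∧ M = 8 ∧ s ≤ 3 ∧ s₂ ≤ 1 ∧ Small S (1 / 20)) ∨
  (n₁ = 2 ∧ n₂ = 4 ∧ M ∣ 12 ∧ s ≤ 4 ∧ M.factorization 2 + s₂ ≤ 3 ∧
    2 * M.factorization 3 + s₃ ≤ 4 ∧ Small S (1 / 20)) ∨
  (n₁ = 2 ∧ n₂ = 6 ∧ M ∣ 12 ∧ s ≤ 3 ∧ M.factorization 2 + s₂ ≤ 3 ∧
    2 * M.factorization 3 + s₃ ≤ 3 ∧ Small S (1 / 20)) ∨
  (n₁ = 3 ∧ n₂ = 3 ∧ M ∣ 12 ∧ s ≤ 3 ∧ M.factorization 2 + s₂ ≤ 3 ∧
    2 * M.factorization 3 + s₃ ≤ 3 ∧ Small S (1 / 400)) ∨
  (n₁ = 2 ∧ n₂ = 3 ∧ M ∣ 72 ∧ s ≤ 8 ∧ M.factorization 2 + s₂ ≤ 4 ∧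
    2 * M.factorization 3 + s₃ ≤ 5 ∧ Small S (1 / 80))

/-- Cases in which the size is less than the logarithm of the radius: `b` is diagonal, at most `s_p`
integral eigenvalues are congruent modulo the `p`-part of `M`. -/
def Table {K : Type} [Field K] [NumberField K] {r : ℕ} (n₁ n₂ M : ℕ)
    (b : Matrix (Fin r) (Fin r) (𝓞 K)) (S : Set ℕ) : Prop :=
  b.IsDiag ∧ ∃ s₂ s₃ : ℕ, (∀ β ∈ expSet b, numCong 2 M b β ≤ s₂) ∧
    (∀ β ∈ expSet b, numCong 3 M b β ≤ s₃) ∧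
    (Row n₁ n₂ M (numExp M b) s₂ s₃ S ∨ Row n₂ n₁ M (numExp M b) s₂ s₃ S)

section proofs

open Pool.Agent.Work.MP_5e5ff1_ag

theorem typ_of_radius {n₁ n₂ : ℕ} {R : ℝ} (h : Radius n₁ n₂ R) : TH.Typ n₁ n₂ R := by
  unfold TH.Typ TH.TypN
  rcases h with h | h
  · rcases h with ⟨rfl, rfl, rfl⟩ | ⟨rfl, rfl, rfl⟩ | ⟨rfl, rfl, rfl⟩ | ⟨rfl, rfl, rfl⟩ |
      ⟨rfl, rfl, rfl⟩ | ⟨rfl, rfl, rfl⟩ | ⟨rfl, rfl, rfl⟩ | ⟨rfl, rfl, rfl⟩ | ⟨rfl, rfl, rfl⟩ <;>
      simp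
  · rcases h with ⟨rfl, rfl, rfl⟩ | ⟨rfl, rfl, rfl⟩ | ⟨rfl, rfl, rfl⟩ | ⟨rfl, rfl, rfl⟩ |
      ⟨rfl, rfl, rfl⟩ | ⟨rfl, rfl, rfl⟩ | ⟨rfl, rfl, rfl⟩ | ⟨rfl, rfl, rfl⟩ | ⟨rfl, rfl, rfl⟩ <;>
      simp

theorem radius_symm {n₁ n₂ : ℕ} {R : ℝ} (h : Radius n₁ n₂ R) : Radius n₂ n₁ R := h.symm

theorem sizeLt_symm {K : Type} [Field K] [NumberField K] {r : ℕ} {n₁ n₂ M : ℕ}
    {b c : Matrix (Fin r) (Fin r) (𝓞 K)} {S : Set ℕ} (h : SizeLt n₁ n₂ M b c S) :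
    SizeLt n₂ n₁ M b c S := by
  obtain ⟨T, κ, R, L, hR, h⟩ := h
  exact ⟨T, κ, R, L, radius_symm hR, h⟩

/-- the size in terms of the primes of `T` only -/
theorem size_explicit {K : Type} [Field K] [NumberField K] {r : ℕ} {n₁ n₂ M : ℕ}
    {b : Matrix (Fin r) (Fin r) (𝓞 K)} (c : Matrix (Fin r) (Fin r) (𝓞 K)) {S : Set ℕ}
    (T : Finset ℕ) (κ : ℕ → ℝ) (s₀ : ℕ) (ε R : ℝ) (hs₀ : 1 ≤ s₀) (hb : b.IsDiag)
    (hs : numExp M b ≤ s₀) (hT : ∀ p ∈ T, p.Prime) (hMT : ∀ p : ℕ, p.Prime → p ∣ M → p ∈ T)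
    (hκ0 : ∀ p ∈ T, 0 ≤ κ p) (hκ : ∀ p ∈ T, ∀ β ∈ expSet b,
      (M.factorization p : ℝ) + (numCong p M b β : ℝ) / ((p : ℝ) - 1) ≤ κ p)
    (hS : Small S ε) (hR : Radius n₁ n₂ R)
    (hL : ∑ p ∈ T, κ p * Real.log p + s₀ * (4112 / 10000 + Real.log 2 / 2 -
      ∑ p ∈ T, Real.log p / ((p : ℝ) * (p - 1)) + ε) < Real.log R) :
    SizeLt n₁ n₂ M b c S :=
  ⟨T, κ, R, _, hR, hL, hMT, fun p hp => ⟨hT p hp, hκ0 p hp, Or.inr (Or.inl ⟨hb, hκ p hp⟩)⟩,
    TH.fin_TH_TABG T κ (max 1 (numExp M b)) s₀ S ε hT (max_le hs₀ hs) hS⟩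

/-- the cases with `M` a power of 2 -/
theorem table_dyadic {K : Type} [Field K] [NumberField K] {r : ℕ} {n₁ n₂ : ℕ}
    {b : Matrix (Fin r) (Fin r) (𝓞 K)} (c : Matrix (Fin r) (Fin r) (𝓞 K)) {S : Set ℕ}
    (k s₀ : ℕ) (ε R : ℝ) (hs₀ : 1 ≤ s₀) (hb : b.IsDiag) (hs : numExp (2 ^ k) b ≤ s₀) {s₂ : ℕ}
    (h2 : ∀ β ∈ expSet b, numCong 2 (2 ^ k) b β ≤ s₂) (hs₂ : s₂ ≤ 1)
    (hS : Small S ε) (hR : Radius n₁ n₂ R)
    (hL : ((k : ℝ) + 1) * Real.log 2 + (s₀ : ℝ) * (4112 / 10000 + ε) < Real.log R) :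
    SizeLt n₁ n₂ (2 ^ k) b c S := by
  have hfac : (2 ^ k : ℕ).factorization 2 = k := by
    rw [Nat.Prime.factorization_pow Nat.prime_two]
    simp
  refine size_explicit c {2} (fun _ => (k : ℝ) + 1) s₀ ε R hs₀ hb hs ?_ ?_ ?_ ?_ hS hR ?_
  · intro p hp
    rw [Finset.mem_singleton] at hp
    subst hp
    exact Nat.prime_two
  · intro p hp hpM
    rw [Finset.mem_singleton]
    exact (Nat.prime_dvd_prime_iff_eq hp Nat.prime_two).1 (hp.dvd_of_dvd_pow hpM)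
  · intro p _
    positivity
  · intro p hp β hβ
    rw [Finset.mem_singleton] at hp
    subst hp
    rw [hfac]
    have h5 : (numCong 2 (2 ^ k) b β : ℝ) ≤ 1 := by exact_mod_cast (h2 β hβ).trans hs₂
    have h6 : ((2 : ℕ) : ℝ) - 1 = 1 := by norm_num
    rw [h6, div_one]
    linarith
  · rw [Finset.sum_singleton, Finset.sum_singleton]
    refine lt_of_eq_of_lt ?_ hL
    push_cast
    ring

/-- the cases with the primes 2 and 3 -/
theorem table_triadic {K : Type} [Field K] [NumberField K] {r : ℕ} {n₁ n₂ M : ℕ}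
    {b : Matrix (Fin r) (Fin r) (𝓞 K)} (c : Matrix (Fin r) (Fin r) (𝓞 K)) {S : Set ℕ}
    (s₀ a a' : ℕ) (ε R : ℝ) (hs₀ : 1 ≤ s₀) (hb : b.IsDiag) (hM : M ∣ 72)
    (hs : numExp M b ≤ s₀) {s₂ s₃ : ℕ} (h2 : ∀ β ∈ expSet b, numCong 2 M b β ≤ s₂)
    (h3 : ∀ β ∈ expSet b, numCong 3 M b β ≤ s₃) (h2' : M.factorization 2 + s₂ ≤ a)
    (h3' : 2 * M.factorization 3 + s₃ ≤ a') (hS : Small S ε) (hR : Radius n₁ n₂ R)
    (hL : (a : ℝ) * Real.log 2 + (a' : ℝ) / 2 * Real.log 3 +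
      (s₀ : ℝ) * (4112 / 10000 - Real.log 3 / 6 + ε) < Real.log R) :
    SizeLt n₁ n₂ M b c S := by
  have hp23 : ∀ p ∈ ({2, 3} : Finset ℕ), p = 2 ∨ p = 3 := by
    intro p hp
    rw [Finset.mem_insert, Finset.mem_singleton] at hp
    exact hp
  refine size_explicit c {2, 3} (fun p => if p = 2 then (a : ℝ) else (a' : ℝ) / 2) s₀ ε R hs₀ hb
    hs ?_ ?_ ?_ ?_ hS hR ?_
  · intro p hp
    rcases hp23 p hp with rfl | rfl
    · exact Nat.prime_two
    · exact Nat.prime_three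
  · intro p hp hpM
    have h5 : p ∣ 2 ^ 3 * 3 ^ 2 := by simpa using hpM.trans hM
    rcases (Nat.Prime.dvd_mul hp).1 h5 with h6 | h6
    · rw [(Nat.prime_dvd_prime_iff_eq hp Nat.prime_two).1 (hp.dvd_of_dvd_pow h6)]
      simp
    · rw [(Nat.prime_dvd_prime_iff_eq hp Nat.prime_three).1 (hp.dvd_of_dvd_pow h6)]
      simp
  · intro p hp
    rcases hp23 p hp with rfl | rfl
    · simp
    · rw [if_neg (by norm_num)]
      positivity
  · intro p hp β hβ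
    rcases hp23 p hp with rfl | rfl
    · have h5 : (M.factorization 2 : ℝ) + (s₂ : ℝ) ≤ a := by exact_mod_cast h2'
      have h6 : (numCong 2 M b β : ℝ) ≤ s₂ := by exact_mod_cast h2 β hβ
      have h7 : ((2 : ℕ) : ℝ) - 1 = 1 := by norm_num
      rw [h7, div_one]
      simp only [if_true]
      linarith
    · have h5 : 2 * (M.factorization 3 : ℝ) + (s₃ : ℝ) ≤ a' := by exact_mod_cast h3'
      have h6 : (numCong 3 M b β : ℝ) ≤ s₃ := by exact_mod_cast h3 β hβ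
      have h7 : ((3 : ℕ) : ℝ) - 1 = 2 := by norm_num
      rw [h7]
      change _ ≤ (if (3 : ℕ) = 2 then (a : ℝ) else (a' : ℝ) / 2)
      rw [if_neg (by norm_num)]
      linarith
  · rw [Finset.sum_pair (by norm_num), Finset.sum_pair (by norm_num)]
    refine lt_of_eq_of_lt ?_ hL
    simp only [if_true]
    rw [if_neg (by norm_num : ¬ (3 : ℕ) = 2)]
    push_cast
    ring

theorem log_three_gt : 19 * Real.log 2 < 12 * Real.log 3 := by
  have h := Real.log_lt_log (by norm_num : (0 : ℝ) < 2 ^ 19) (by norm_num : (2 : ℝ) ^ 19 < 3 ^ 12)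
  rw [Real.log_pow, Real.log_pow] at h
  norm_num at h
  exact h

theorem log_three_lt : 5 * Real.log 3 < 8 * Real.log 2 := by
  have h := Real.log_lt_log (by norm_num : (0 : ℝ) < 3 ^ 5) (by norm_num : (3 : ℝ) ^ 5 < 2 ^ 8)
  rw [Real.log_pow, Real.log_pow] at h
  norm_num at h
  exact h

theorem log_two_three (a b : ℕ) (R : ℝ) (h : R = 2 ^ a * 3 ^ b) :
    Real.log R = a * Real.log 2 + b * Real.log 3 := by
  rw [h, Real.log_mul (by positivity) (by positivity), Real.log_pow, Real.log_pow]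

theorem log_sqrt : Real.log (48 * Real.sqrt 3) = 4 * Real.log 2 + 3 / 2 * Real.log 3 := by
  rw [Real.log_mul (by norm_num) (by positivity), Real.log_sqrt (by norm_num),
    log_two_three 4 1 48 (by norm_num)]
  push_cast
  ring

theorem row_size {K : Type} [Field K] [NumberField K] {r : ℕ} {n₁ n₂ M : ℕ}
    {b : Matrix (Fin r) (Fin r) (𝓞 K)} (c : Matrix (Fin r) (Fin r) (𝓞 K)) {S : Set ℕ}
    (hb : b.IsDiag) {s₂ s₃ : ℕ} (hc2 : ∀ β ∈ expSet b, numCong 2 M b β ≤ s₂)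
    (hc3 : ∀ β ∈ expSet b, numCong 3 M b β ≤ s₃) (h : Row n₁ n₂ M (numExp M b) s₂ s₃ S) :
    SizeLt n₁ n₂ M b c S := by
  have hL2 := Real.log_two_gt_d9
  have hL3 := log_three_gt
  have hL3' := log_three_lt
  have e32 := log_two_three 5 0 32 (by norm_num)
  have e256 := log_two_three 8 0 256 (by norm_num)
  have e64 := log_two_three 6 0 64 (by norm_num)
  have e108 := log_two_three 2 3 108 (by norm_num)
  have e1728 := log_two_three 6 3 1728 (by norm_num)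
  have e48 := log_sqrt
  push_cast at e32 e256 e64 e108 e1728
  have h12 : (12 : ℕ) ∣ 72 := by norm_num
  rcases h with ⟨rfl, rfl, rfl, hs, h2, hS⟩ | ⟨rfl, rfl, rfl, hs, h2, hS⟩ |
    ⟨rfl, rfl, rfl, hs, h2, hS⟩ | ⟨rfl, rfl, rfl, hs, h2, hS⟩ | ⟨rfl, rfl, hM, hs, h2, h3, hS⟩ |
    ⟨rfl, rfl, hM, hs, h2, h3, hS⟩ | ⟨rfl, rfl, hM, hs, h2, h3, hS⟩ | ⟨rfl, rfl, hM, hs, h2, h3, hS⟩
  · exact table_dyadic c 2 3 (1 / 20) 32 (by norm_num) hb hs hc2 h2 hS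
      (Or.inl (by simp [Rad])) (by push_cast; linarith)
  · exact table_dyadic c 3 6 (1 / 20) 256 (by norm_num) hb hs hc2 h2 hS
      (Or.inl (by simp [Rad])) (by push_cast; linarith)
  · exact table_dyadic c 4 5 (1 / 250) 256 (by norm_num) hb hs hc2 h2 hS
      (Or.inl (by simp [Rad])) (by push_cast; linarith)
  · exact table_dyadic c 3 3 (1 / 20) 64 (by norm_num) hb hs hc2 h2 hS
      (Or.inl (by simp [Rad])) (by push_cast; linarith)
  · exact table_triadic c 4 3 4 (1 / 20) 256 (by norm_num) hb (hM.trans h12) hs hc2 hc3 h2 h3 hS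
      (Or.inl (by simp [Rad])) (by push_cast; linarith)
  · exact table_triadic c 3 3 3 (1 / 20) 108 (by norm_num) hb (hM.trans h12) hs hc2 hc3 h2 h3 hS
      (Or.inl (by simp [Rad])) (by push_cast; linarith)
  · exact table_triadic c 3 3 3 (1 / 400) (48 * Real.sqrt 3) (by norm_num) hb (hM.trans h12) hs
      hc2 hc3 h2 h3 hS (Or.inl (by simp [Rad])) (by push_cast; linarith)
  · exact table_triadic c 8 4 5 (1 / 80) 1728 (by norm_num) hb hM hs hc2 hc3 h2 h3 hS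
      (Or.inl (by simp [Rad])) (by push_cast; linarith)

theorem table_size {K : Type} [Field K] [NumberField K] {r : ℕ} (n₁ n₂ M : ℕ)
    (b c : Matrix (Fin r) (Fin r) (𝓞 K)) (S : Set ℕ) (h : Table n₁ n₂ M b S) :
    SizeLt n₁ n₂ M b c S := by
  obtain ⟨hb, s₂, s₃, hc2, hc3, h⟩ := h
  rcases h with h | h
  · exact row_size c hb hc2 hc3 h
  · exact sizeLt_symm (row_size c hb hc2 hc3 h)

end proofs

theorem result (K : Type) [Field K] [NumberField K] (σ : K →+* ℂ) (r M n₁ n₂ : ℕ) (hM : 0 < M)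
    (b c : Matrix (Fin r) (Fin r) (𝓞 K)) (S : Set ℕ)
    (h₁ : ∀ γ : ℤ, c.charpoly.IsRoot ((γ : ℤ) : 𝓞 K) → (M : ℤ) ∣ n₁ * γ)
    (h₂ : ∀ γ : ℤ, (b + c).charpoly.IsRoot ((γ : ℤ) : 𝓞 K) → (M : ℤ) ∣ n₂ * γ)
    (hsize : SizeLt n₁ n₂ M b c S ∨ Table n₁ n₂ M b S)
    (hram : ∀ p : ℕ, p.Prime → ¬ p ∣ M → p ∉ S → (Ideal.span {(p : 𝓞 K)}).IsRadical)
    (hψ : ∀ P : Ideal (𝓞 K), P.IsMaximal → ¬ ringChar (𝓞 K ⧸ P) ∣ M → ringChar (𝓞 K ⧸ P) ∉ S →
      PCurvZero M b c P)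
    (B D : Matrix (Fin r) (Fin r) ℂ) (hB : ∀ i j, B i j = σ (b i j : K) / M)
    (hD : ∀ i j, D i j = σ (c i j : K) / M) : HasAlgebraicSolutions B D := by
  obtain ⟨T, κ, R, L, hR, hL, hT, hκ, hC⟩ : SizeLt n₁ n₂ M b c S :=
    hsize.elim id (table_size n₁ n₂ M b c S)
  exact Pool.Agent.Work.MP_5e5ff1_ag.TH.fin_TH_FING K σ r M n₁ n₂ b c S T κ R L
    ⟨hM, typ_of_radius hR, hL, h₁, h₂, hT, fun p hp => ⟨(hκ p hp).1, (hκ p hp).2.1⟩, hram, hψ⟩
    (fun p hp => (hκ p hp).2.2) hC B D hB hD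

end Pool.Agent.Work.MP_5e5ff1_ag.TH.HT3
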