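import Mathlib
import Pool.Agent.Work.MP_5e5ff1_ag.TH.AsmU

/-! # Vanishing p-curvature for representations of hyperbolic triangle groups

Let `K` be a number field, `M ≥ 1`, and let `b`, `c` be arbitrary `r × r` matrices over the ring of
integers of `K`; we consider the system `f' = (b/M / t + c/M / (t-1)) f`. Let `n₀`, `n₁`, `n₂` be natural
numbers and assume that the integral eigenvalues of `b/M` differ by elements of `(1/n₀) ℤ`, that those of
`c/M` lie in `(1/n₁) ℤ` and those of `(b + c)/M` in `(1/n₂) ℤ` (no condition if `n = 0`), where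
`(n₀; n₁, n₂)` (`n₁`, `n₂` in any order) and the radius `R` are in one of the lists

* `n₀ = 0`: `(2,3): 1728`, `(2,4): 256`, `(2,6): 108`, `(2,0): 64`, `(3,3): 48 √3`, `(3,0): 27`,
  `(4,4): 32`, `(6,6): 12 √3`, `(0,0): 16` (the nine arithmetic triangle groups with a cusp);
* `(4;2,8): 128`, `(5;2,4): 1024`, `(6;2,4): 432`, `(7;2,3): 27648`, `(8;2,3): 6912`,
  `(9;2,3): 3072 √3`, `(12;2,3): 2916`, `(4;3,3): 96 √3` (compact arithmetic triangle groups).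

Let `S` be a set of primes which contains the primes not dividing `M` which ramify in `K`, and assume
that the p-curvature vanishes at all primes of `K` whose residue characteristic `p` does not divide `M`
and is not in `S`. Let `s` be the number of distinct exponents at `0` modulo `ℤ` (integral eigenvalues of
`b` modulo `M`).

Let `T` be a finite set of primes which contains the primes dividing `M`, and for `p ∈ T` let
`κ p ≥ 0` be such that the matrix `U(t)` of a formal solution `U(t) t^(b/M)`, `U(0) = 1`, at the point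
`0` has `p`-adic radius of convergence at least `p^(-κ p)` at all places above `p`; this is always so
if `p ∤ M` and `κ p ≥ s/(p-1)`, and if `b` is diagonalizable over the `p`-integers of `K` and
`κ p ≥ v_p(M) + s_p/(p-1)`, where `s_p` is the largest number of distinct exponents which are congruent
modulo the `p`-part of `M`. If

  `∑_{p ∈ T} κ p log p + s ∑_{p ∉ T} log p/(p(p-1)) + s ∑_{p ∈ S, p ∉ T} log p/p < log R`,

then the system has a full set of algebraic solutions. This is the open direction of the conjecture,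
in arbitrary rank; the system is neither assumed to be rigid nor to have solvable monodromy, and the
only restriction is the size of the system (if the p-curvatures vanish for almost all primes, the left
side is finite; the type `(0;0,0)` has no condition on the exponents).

The inequality holds, without any condition on the radii, in the cases of `Table`; in particular for
ALL systems of the compact triangle group `(4,2,8)` with residues in `(1/8) M_r(O_K)`, `b`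
diagonalizable over the `2`-integers of `K` and without resonance (for these there are families of
irreducible monodromy groups in unbounded rank `r` and with about `r²/8` parameters).  The other cases
concern the groups `(16,2,8)` (3 exponents at the point `0`), `(8,2,3)` (6 of 8), `(4,4,4)` (3 of 4),
`(8,2,4)` (6 of 8) and `(8,2,8)` (3 of 8). -/

open Polynomial Matrix NumberField

namespace Pool.Agent.Work.MP_5e5ff1_ag.TH.HT6

/-- The p-curvature of the system with residues `b / n`, `c / n` vanishes modulo `P`.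
With `∇ = d/dt - (b/n)/t - (c/n)/(t-1)` the matrices `Q k` of the recursion are
`(n t (t-1))^k ∇^k` applied to the columns of the identity matrix, reduced modulo `P`. This is the
recursion of the frozen statement. -/
def PCurvZero {K : Type} [Field K] [NumberField K] {r : ℕ} (n : ℕ)
    (b c : Matrix (Fin r) (Fin r) (𝓞 K)) (P : Ideal (𝓞 K)) : Prop :=
  ∀ Q : ℕ → Matrix (Fin r) (Fin r) (Polynomial (𝓞 K ⧸ P)),
    Q 0 = 1 →
    (∀ k : ℕ, Q (k + 1) =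
        (Polynomial.C (Ideal.Quotient.mk P (n : 𝓞 K)) *
            ((Polynomial.X : Polynomial (𝓞 K ⧸ P)) * (Polynomial.X - 1))) •
          (Q k).map (fun f => Polynomial.derivative f)
        - ((k : Polynomial (𝓞 K ⧸ P)) * Polynomial.C (Ideal.Quotient.mk P (n : 𝓞 K)) *
            (2 * (Polynomial.X : Polynomial (𝓞 K ⧸ P)) - 1)) • Q k
        - (((Polynomial.X : Polynomial (𝓞 K ⧸ P)) - 1) •
              b.map (fun x => Polynomial.C (Ideal.Quotient.mk P x)) +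
            (Polynomial.X : Polynomial (𝓞 K ⧸ P)) •
              c.map (fun x => Polynomial.C (Ideal.Quotient.mk P x))) * Q k) →
    Q (ringChar (𝓞 K ⧸ P)) = 0

/-- The system `f' = (B/t + C/(t-1)) f` has a full set of algebraic solutions. This is the
condition of the frozen statement. -/
def HasAlgebraicSolutions {r : ℕ} (B C : Matrix (Fin r) (Fin r) ℂ) : Prop :=
  ∃ (δ : Derivation ℤ (AlgebraicClosure (RatFunc ℂ)) (AlgebraicClosure (RatFunc ℂ)))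
    (F : Matrix (Fin r) (Fin r) (AlgebraicClosure (RatFunc ℂ))),
    (∀ z : ℂ, δ (algebraMap (RatFunc ℂ) (AlgebraicClosure (RatFunc ℂ))
        (algebraMap ℂ (RatFunc ℂ) z)) = 0) ∧
    δ (algebraMap (RatFunc ℂ) (AlgebraicClosure (RatFunc ℂ)) RatFunc.X) = 1 ∧
    F.det ≠ 0 ∧
    F.map (fun x => δ x) =
      (Matrix.of fun i j => algebraMap (RatFunc ℂ) (AlgebraicClosure (RatFunc ℂ))
        (algebraMap ℂ (RatFunc ℂ) (B i j) / RatFunc.X +
         algebraMap ℂ (RatFunc ℂ) (C i j) / (RatFunc.X - 1))) * F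

/-- The integral eigenvalues of `b`. -/
def expSet {K : Type} [Field K] [NumberField K] {r : ℕ} (b : Matrix (Fin r) (Fin r) (𝓞 K)) : Set ℤ :=
  {β | b.charpoly.IsRoot ((β : ℤ) : 𝓞 K)}

/-- The number `s` of integral eigenvalues of `b` modulo `M`: the number of distinct exponents at `0`
modulo `ℤ` of a system with the residue `b/M`. -/
noncomputable def numExp {K : Type} [Field K] [NumberField K] {r : ℕ} (M : ℕ)
    (b : Matrix (Fin r) (Fin r) (𝓞 K)) : ℕ :=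
  Set.ncard ((fun β : ℤ => (β : ZMod M)) '' expSet b)

/-- The number of integral eigenvalues of `b` which are congruent to `β` modulo the `p`-part of
`M`. -/
noncomputable def numCong {K : Type} [Field K] [NumberField K] {r : ℕ} (p M : ℕ)
    (b : Matrix (Fin r) (Fin r) (𝓞 K)) (β : ℤ) : ℕ :=
  Set.ncard {γ | γ ∈ expSet b ∧ (p : ℤ) ^ M.factorization p ∣ γ - β}

/-- The nine types with a cusp at `0` and their radii; `0` means a cusp. -/
def Rad (n₁ n₂ : ℕ) (R : ℝ) : Prop :=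
  (n₁ = 2 ∧ n₂ = 3 ∧ R = 1728) ∨ (n₁ = 2 ∧ n₂ = 4 ∧ R = 256) ∨ (n₁ = 2 ∧ n₂ = 6 ∧ R = 108) ∨
  (n₁ = 2 ∧ n₂ = 0 ∧ R = 64) ∨ (n₁ = 3 ∧ n₂ = 3 ∧ R = 48 * Real.sqrt 3) ∨
  (n₁ = 3 ∧ n₂ = 0 ∧ R = 27) ∨ (n₁ = 4 ∧ n₂ = 4 ∧ R = 32) ∨
  (n₁ = 6 ∧ n₂ = 6 ∧ R = 12 * Real.sqrt 3) ∨ (n₁ = 0 ∧ n₂ = 0 ∧ R = 16)

/-- The types with a point of finite order `n₀` at `0` and their radii. -/
def RadE (n₀ n₁ n₂ : ℕ) (R : ℝ) : Prop :=
  (n₀ = 4 ∧ n₁ = 2 ∧ n₂ = 8 ∧ R = 128) ∨ (n₀ = 5 ∧ n₁ = 2 ∧ n₂ = 4 ∧ R = 1024) ∨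
  (n₀ = 6 ∧ n₁ = 2 ∧ n₂ = 4 ∧ R = 432) ∨ (n₀ = 7 ∧ n₁ = 2 ∧ n₂ = 3 ∧ R = 27648) ∨
  (n₀ = 8 ∧ n₁ = 2 ∧ n₂ = 3 ∧ R = 6912) ∨ (n₀ = 9 ∧ n₁ = 2 ∧ n₂ = 3 ∧ R = 3072 * Real.sqrt 3) ∨
  (n₀ = 12 ∧ n₁ = 2 ∧ n₂ = 3 ∧ R = 2916) ∨ (n₀ = 4 ∧ n₁ = 3 ∧ n₂ = 3 ∧ R = 96 * Real.sqrt 3)

/-- The orders `n₀`, `n₁`, `n₂` at the points `0`, `1`, `∞` (`0` means no condition) and the
radius `R`. -/
def Radius (n₀ n₁ n₂ : ℕ) (R : ℝ) : Prop :=
  (n₀ = 0 ∧ (Rad n₁ n₂ R ∨ Rad n₂ n₁ R)) ∨ RadE n₀ n₁ n₂ R ∨ RadE n₀ n₂ n₁ R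

/-- `U(t) t^(b/M)` with `U = ∑ U n t^n`, `U 0 = 1`, is a formal solution of the system with the
residues `b/M`, `c/M`. -/
def IsFormalSolution {K : Type} [Field K] [NumberField K] {r : ℕ} (M : ℕ)
    (b c : Matrix (Fin r) (Fin r) K) (U : ℕ → Matrix (Fin r) (Fin r) K) : Prop :=
  U 0 = 1 ∧ ∀ (n : ℕ) (i j : Fin r), (M : K) * (n : K) * U n i j + (U n * b) i j - (b * U n) i j +
    ∑ k ∈ Finset.range n, (c * U k) i j = 0

/-- `b` is diagonalizable over the `p`-integers of `K`, with eigenvalues in `ℤ`: `b g = g diag β` where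
`g` has the inverse `h/N`, `p ∤ N`. -/
def DiagAt {K : Type} [Field K] [NumberField K] {r : ℕ} (p : ℕ)
    (b : Matrix (Fin r) (Fin r) (𝓞 K)) : Prop :=
  ∃ (β : Fin r → ℤ) (g h : Matrix (Fin r) (Fin r) (𝓞 K)) (N : ℕ), ¬ p ∣ N ∧
    h * g = (N : 𝓞 K) • (1 : Matrix (Fin r) (Fin r) (𝓞 K)) ∧
    b * g = g * Matrix.diagonal (fun i => ((β i : ℤ) : 𝓞 K))

/-- `κ` is an admissible `p`-adic size of the system with the residues `b/M`, `c/M`: either `p ∤ M`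
and `κ ≥ s/(p-1)`, or `b` is diagonalizable over the `p`-integers and `κ ≥ v_p(M) + s_p/(p-1)`, or the
matrix `U` of a formal solution `U(t) t^(b/M)`, `U(0) = 1`, has `p`-adic radius of convergence
`≥ p^(-κ)` at all places above `p`: for every `ε > 0` there is an `a` such that all
`p^(a + ⌈(κ + ε) n⌉) U n` are `p`-integral. -/
def IsSize {K : Type} [Field K] [NumberField K] {r : ℕ} (M : ℕ)
    (b c : Matrix (Fin r) (Fin r) (𝓞 K)) (p : ℕ) (κ : ℝ) : Prop :=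
  (¬ p ∣ M ∧ (numExp M b : ℝ) / ((p : ℝ) - 1) ≤ κ) ∨
  (DiagAt p b ∧ ∀ β ∈ expSet b,
    (M.factorization p : ℝ) + (numCong p M b β : ℝ) / ((p : ℝ) - 1) ≤ κ) ∨
  ∃ U : ℕ → Matrix (Fin r) (Fin r) K,
    IsFormalSolution M (Matrix.of fun i j => (b i j : K)) (Matrix.of fun i j => (c i j : K)) U ∧
    ∀ ε : ℝ, 0 < ε → ∃ a : ℕ, ∀ (n : ℕ) (i j : Fin r), ∃ m : ℕ, ¬ p ∣ m ∧
      IsIntegral ℤ ((m : K) * (p : K) ^ (a + ⌈(κ + ε) * n⌉₊) * U n i j)

open Classical in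
/-- The arithmetic cost
`∑_{p ∈ T} κ p log p + s ∑_{p ∉ T} log p/(p(p-1)) + s ∑_{p ∈ S, p ∉ T} log p/p` is at most `L`: this
is so for all finite sets `F` of primes which are not in `T`. -/
def Cost (T : Finset ℕ) (κ : ℕ → ℝ) (s : ℕ) (S : Set ℕ) (L : ℝ) : Prop := ∀ F : Finset ℕ,
  (∀ p ∈ F, p.Prime ∧ p ∉ T) →
  ∑ p ∈ T, κ p * Real.log p +
    (s : ℝ) * ∑ p ∈ F, (1 / ((p : ℝ) * (p - 1)) + if p ∈ S then 1 / (p : ℝ) else 0) *
      Real.log p ≤ L

/-- The size of the system is less than the logarithm of the radius. (`b` has integral eigenvalues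
only, by the hypotheses of the theorem; `max 1` is there because this is not assumed.) -/
def SizeLt {K : Type} [Field K] [NumberField K] {r : ℕ} (n₀ n₁ n₂ M : ℕ)
    (b c : Matrix (Fin r) (Fin r) (𝓞 K)) (S : Set ℕ) : Prop :=
  ∃ (T : Finset ℕ) (κ : ℕ → ℝ) (R L : ℝ), Radius n₀ n₁ n₂ R ∧ L < Real.log R ∧
    (∀ p : ℕ, p.Prime → p ∣ M → p ∈ T) ∧
    (∀ p ∈ T, p.Prime ∧ 0 ≤ κ p ∧ IsSize M b c p (κ p)) ∧
    Cost T κ (max 1 (numExp M b)) S L

/-- The finite sums of `log p / p` over primes of `S` are at most `ε`. -/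
def Small (S : Set ℕ) (ε : ℝ) : Prop := ∀ F : Finset ℕ, (∀ p ∈ F, p.Prime ∧ p ∈ S) →
  ∑ p ∈ F, Real.log p / p ≤ ε

/-- Six cases: `n₀; n₁, n₂`, the denominator `M`, and at most `s` exponents at `0` modulo `ℤ` (in the
first case there is no condition on `s`). -/
def Row (n₀ n₁ n₂ M s : ℕ) : Prop :=
  (n₀ = 4 ∧ n₁ = 2 ∧ n₂ = 8 ∧ M = 8) ∨
  (n₀ = 4 ∧ n₁ = 2 ∧ n₂ = 8 ∧ M = 16 ∧ s ≤ 3) ∨
  (n₀ = 8 ∧ n₁ = 2 ∧ n₂ = 3 ∧ M = 24 ∧ s ≤ 6) ∨
  (n₀ = 0 ∧ n₁ = 4 ∧ n₂ = 4 ∧ M = 4 ∧ s ≤ 3) ∨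
  (n₀ = 0 ∧ n₁ = 2 ∧ n₂ = 4 ∧ M = 8 ∧ s ≤ 6) ∨
  (n₀ = 0 ∧ n₁ = 2 ∧ n₂ = 0 ∧ M = 8 ∧ s ≤ 3)

/-- Cases in which the size is less than the logarithm of the radius: for the primes `p ∣ M` the
residue `b` is diagonalizable over the `p`-integers, no two integral eigenvalues of `b` are congruent
modulo `M` (no resonance), the sums of `log p / p` over primes of `S` are at most `1/20`, and
`n₀; n₁, n₂` (`n₁`, `n₂` in any order), `M` and the number `s` of exponents are as in `Row`. -/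
def Table {K : Type} [Field K] [NumberField K] {r : ℕ} (n₀ n₁ n₂ M : ℕ)
    (b : Matrix (Fin r) (Fin r) (𝓞 K)) (S : Set ℕ) : Prop :=
  (∀ p : ℕ, p.Prime → p ∣ M → DiagAt p b) ∧
  (∀ β ∈ expSet b, ∀ β' ∈ expSet b, (M : ℤ) ∣ β - β' → β = β') ∧ Small S (1 / 20) ∧
  (Row n₀ n₁ n₂ M (numExp M b) ∨ Row n₀ n₂ n₁ M (numExp M b))

section proofs

open Pool.Agent.Work.MP_5e5ff1_ag

theorem typ_of_rad {n₁ n₂ : ℕ} {R : ℝ} (h : Rad n₁ n₂ R ∨ Rad n₂ n₁ R) : TH.Typ n₁ n₂ R := by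
  unfold TH.Typ TH.TypN
  rcases h with h | h
  · rcases h with ⟨rfl, rfl, rfl⟩ | ⟨rfl, rfl, rfl⟩ | ⟨rfl, rfl, rfl⟩ | ⟨rfl, rfl, rfl⟩ |
      ⟨rfl, rfl, rfl⟩ | ⟨rfl, rfl, rfl⟩ | ⟨rfl, rfl, rfl⟩ | ⟨rfl, rfl, rfl⟩ | ⟨rfl, rfl, rfl⟩ <;>
      simp
  · rcases h with ⟨rfl, rfl, rfl⟩ | ⟨rfl, rfl, rfl⟩ | ⟨rfl, rfl, rfl⟩ | ⟨rfl, rfl, rfl⟩ |
      ⟨rfl, rfl, rfl⟩ | ⟨rfl, rfl, rfl⟩ | ⟨rfl, rfl, rfl⟩ | ⟨rfl, rfl, rfl⟩ | ⟨rfl, rfl, rfl⟩ <;>
      simp

theorem typE_of_radE {n₀ n₁ n₂ : ℕ} {R : ℝ} (h : RadE n₀ n₁ n₂ R) :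
    TH.TypE n₀ n₁ n₂ R ∨ TH.TypE n₀ n₂ n₁ R := by
  unfold TH.TypE
  rcases h with ⟨rfl, rfl, rfl, rfl⟩ | ⟨rfl, rfl, rfl, rfl⟩ | ⟨rfl, rfl, rfl, rfl⟩ |
    ⟨rfl, rfl, rfl, rfl⟩ | ⟨rfl, rfl, rfl, rfl⟩ | ⟨rfl, rfl, rfl, rfl⟩ | ⟨rfl, rfl, rfl, rfl⟩ |
    ⟨rfl, rfl, rfl, rfl⟩ <;>
    simp

theorem typ_of_radius {n₀ n₁ n₂ : ℕ} {R : ℝ} (h : Radius n₀ n₁ n₂ R) :
    TH.TypW n₀ n₁ n₂ R := by
  rcases h with ⟨h0, h⟩ | h | h
  · exact Or.inl ⟨h0, typ_of_rad h⟩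
  · exact Or.inr (typE_of_radE h)
  · exact Or.inr (typE_of_radE h).symm

theorem radius_symm {n₀ n₁ n₂ : ℕ} {R : ℝ} (h : Radius n₀ n₁ n₂ R) : Radius n₀ n₂ n₁ R := by
  rcases h with ⟨h0, h⟩ | h | h
  · exact Or.inl ⟨h0, h.symm⟩
  · exact Or.inr (Or.inr h)
  · exact Or.inr (Or.inl h)

theorem sizeLt_symm {K : Type} [Field K] [NumberField K] {r : ℕ} {n₀ n₁ n₂ M : ℕ}
    {b c : Matrix (Fin r) (Fin r) (𝓞 K)} {S : Set ℕ} (h : SizeLt n₀ n₁ n₂ M b c S) :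
    SizeLt n₀ n₂ n₁ M b c S := by
  obtain ⟨T, κ, R, L, hR, h⟩ := h
  exact ⟨T, κ, R, L, radius_symm hR, h⟩

section count

variable {K : Type} [Field K] [NumberField K] {r : ℕ} {b : Matrix (Fin r) (Fin r) (𝓞 K)}

theorem finite_expSet (b : Matrix (Fin r) (Fin r) (𝓞 K)) : (expSet b).Finite := by
  have h1 : Set.Finite {x : 𝓞 K | b.charpoly.IsRoot x} :=
    Polynomial.finite_setOfPred_isRoot (Matrix.charpoly_monic b).ne_zero
  have h2 : Function.Injective (fun n : ℤ => (n : 𝓞 K)) := Int.cast_injective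
  exact h1.preimage h2.injOn

/-- without resonance the number of integral eigenvalues is `s` -/
theorem ncard_expSet {M : ℕ} (hres : ∀ β ∈ expSet b, ∀ β' ∈ expSet b, (M : ℤ) ∣ β - β' → β = β') :
    (expSet b).ncard = numExp M b := by
  unfold numExp
  rw [Set.InjOn.ncard_image]
  intro β hβ β' hβ' h
  apply hres β hβ β' hβ'
  have h1 : ((β - β' : ℤ) : ZMod M) = 0 := by
    push_cast
    rw [sub_eq_zero]
    exact h
  exact (ZMod.intCast_zmod_eq_zero_iff_dvd _ _).1 h1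

theorem numCong_le {M : ℕ} (hres : ∀ β ∈ expSet b, ∀ β' ∈ expSet b, (M : ℤ) ∣ β - β' → β = β')
    (p : ℕ) (β : ℤ) : numCong p M b β ≤ numExp M b := by
  rw [← ncard_expSet hres]
  exact Set.ncard_le_ncard (fun γ h => h.1) (finite_expSet b)

theorem numCong_le_one {M : ℕ}
    (hres : ∀ β ∈ expSet b, ∀ β' ∈ expSet b, (M : ℤ) ∣ β - β' → β = β')
    (p : ℕ) (β : ℤ) (hβ : β ∈ expSet b)
    (h : ∀ γ ∈ expSet b, (p : ℤ) ^ M.factorization p ∣ γ - β → (M : ℤ) ∣ γ - β) :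
    numCong p M b β ≤ 1 := by
  unfold numCong
  rw [Set.ncard_le_one ((finite_expSet b).subset fun γ h => h.1)]
  intro γ hγ γ' hγ'
  rw [hres γ hγ.1 β hβ (h γ hγ.1 hγ.2), hres γ' hγ'.1 β hβ (h γ' hγ'.1 hγ'.2)]

end count

/-- the size in terms of the primes of `T` only -/
theorem size_explicit {K : Type} [Field K] [NumberField K] {r : ℕ} {n₀ n₁ n₂ M : ℕ}
    {b : Matrix (Fin r) (Fin r) (𝓞 K)} (c : Matrix (Fin r) (Fin r) (𝓞 K)) {S : Set ℕ}
    (T : Finset ℕ) (κ : ℕ → ℝ) (s₀ : ℕ) (ε R : ℝ) (hs₀ : 1 ≤ s₀)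
    (hb : ∀ p : ℕ, p.Prime → p ∣ M → DiagAt p b)
    (hs : numExp M b ≤ s₀) (hT : ∀ p ∈ T, p.Prime) (hMT : ∀ p : ℕ, p.Prime → p ∣ M → p ∈ T)
    (hκ0 : ∀ p ∈ T, 0 ≤ κ p) (hκ : ∀ p ∈ T, ∀ β ∈ expSet b,
      (M.factorization p : ℝ) + (numCong p M b β : ℝ) / ((p : ℝ) - 1) ≤ κ p)
    (hS : Small S ε) (hR : Radius n₀ n₁ n₂ R)
    (hL : ∑ p ∈ T, κ p * Real.log p + s₀ * (4112 / 10000 + Real.log 2 / 2 -
      ∑ p ∈ T, Real.log p / ((p : ℝ) * (p - 1)) + ε) < Real.log R) :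
    SizeLt n₀ n₁ n₂ M b c S := by
  refine ⟨T, κ, R, _, hR, hL, hMT, fun p hp => ⟨hT p hp, hκ0 p hp, ?_⟩,
    TH.fin_TH_TABG T κ (max 1 (numExp M b)) s₀ S ε hT (max_le hs₀ hs) hS⟩
  by_cases hpM : p ∣ M
  · exact Or.inr (Or.inl ⟨hb p (hT p hp) hpM, hκ p hp⟩)
  · refine Or.inl ⟨hpM, ?_⟩
    rcases (expSet b).eq_empty_or_nonempty with he | ⟨β, hβ⟩
    · have h0 : numExp M b = 0 := by
        unfold numExp
        rw [he]
        simp
      rw [h0]
      simpa using hκ0 p hp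
    · have h1 := hκ p hp β hβ
      have h2 : numExp M b ≤ numCong p M b β := by
        have h3 : M.factorization p = 0 := Nat.factorization_eq_zero_of_not_dvd hpM
        have h4 : {γ | γ ∈ expSet b ∧ (p : ℤ) ^ M.factorization p ∣ γ - β} = expSet b := by
          ext γ
          simp [h3]
        unfold numCong
        rw [h4]
        exact Set.ncard_image_le (finite_expSet b)
      have h5 : (0 : ℝ) < (p : ℝ) - 1 := by
        have : (1 : ℝ) < p := by exact_mod_cast (hT p hp).one_lt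
        linarith
      have h6 : (numExp M b : ℝ) / ((p : ℝ) - 1) ≤ (numCong p M b β : ℝ) / ((p : ℝ) - 1) :=
        div_le_div_of_nonneg_right (by exact_mod_cast h2) h5.le
      have h7 : (0 : ℝ) ≤ (M.factorization p : ℝ) := by positivity
      linarith


theorem numExp_le {K : Type} [Field K] [NumberField K] {r : ℕ}
    {b : Matrix (Fin r) (Fin r) (𝓞 K)} {M n₀ : ℕ} (hn : 0 < n₀) (hnM : n₀ ∣ M)
    (h₀ : ∀ β ∈ expSet b, ∀ β' ∈ expSet b, (M : ℤ) ∣ n₀ * (β - β')) : numExp M b ≤ n₀ := by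
  unfold numExp
  rcases (expSet b).eq_empty_or_nonempty with he | ⟨β₀, hβ₀⟩
  · rw [he]
    simp
  · obtain ⟨q, hq⟩ := hnM
    have hsub : (fun β : ℤ => (β : ZMod M)) '' expSet b ⊆
        (fun k : ℕ => ((β₀ + q * k : ℤ) : ZMod M)) '' (Finset.range n₀ : Set ℕ) := by
      rintro x ⟨β, hβ, rfl⟩
      obtain ⟨t, ht⟩ := h₀ β hβ β₀ hβ₀
      have hn' : (n₀ : ℤ) ≠ 0 := by exact_mod_cast hn.ne'
      have h1 : β - β₀ = q * t := by
        apply mul_left_cancel₀ hn'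
        rw [ht, hq]
        push_cast
        ring
      have hpos : (0 : ℤ) < n₀ := by exact_mod_cast hn
      refine ⟨(t % n₀).toNat, ?_, ?_⟩
      · simp only [Finset.coe_range, Set.mem_Iio]
        have h2 := Int.emod_lt_of_pos t hpos
        have h3 := Int.emod_nonneg t hn'
        omega
      · have h3 := Int.emod_nonneg t hn'
        have h4 : (((t % n₀).toNat : ℕ) : ℤ) = t % n₀ := Int.toNat_of_nonneg h3
        show ((β₀ + (q : ℤ) * (((t % n₀).toNat : ℕ) : ℤ) : ℤ) : ZMod M) = (β : ZMod M)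
        rw [h4]
        have h5 : β = β₀ + q * (t % n₀) + M * (t / n₀) := by
          have h6 := Int.emod_add_mul_ediv t n₀
          rw [hq]
          push_cast
          linear_combination h1 - (q : ℤ) * h6
        conv_rhs => rw [h5]
        push_cast
        simp
    calc ((fun β : ℤ => (β : ZMod M)) '' expSet b).ncard
        ≤ ((fun k : ℕ => ((β₀ + q * k : ℤ) : ZMod M)) '' (Finset.range n₀ : Set ℕ)).ncard :=
          Set.ncard_le_ncard hsub ((Finset.finite_toSet _).image _)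
      _ ≤ (Finset.range n₀ : Set ℕ).ncard := Set.ncard_image_le (Finset.finite_toSet _)
      _ = n₀ := by rw [Set.ncard_coe_finset, Finset.card_range]

theorem fac (p k m : ℕ) (hp : p.Prime) (hm : ¬ p ∣ m) : (p ^ k * m).factorization p = k := by
  have hm0 : m ≠ 0 := by
    rintro rfl
    exact hm (dvd_zero p)
  rw [Nat.factorization_mul (pow_ne_zero _ hp.ne_zero) hm0, Finsupp.add_apply,
    Nat.Prime.factorization_pow hp, Finsupp.single_eq_same,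
    Nat.factorization_eq_zero_of_not_dvd hm, add_zero]

/-- the cases with the prime 2 only -/
theorem table_dyadic {K : Type} [Field K] [NumberField K] {r : ℕ} {n₀ n₁ n₂ : ℕ}
    {b : Matrix (Fin r) (Fin r) (𝓞 K)} (c : Matrix (Fin r) (Fin r) (𝓞 K)) {S : Set ℕ}
    (k s₀ : ℕ) (ε R : ℝ) (hs₀ : 1 ≤ s₀)
    (hb : ∀ p : ℕ, p.Prime → p ∣ 2 ^ k → DiagAt p b) (hs : numExp (2 ^ k) b ≤ s₀)
    (hres : ∀ β ∈ expSet b, ∀ β' ∈ expSet b, ((2 ^ k : ℕ) : ℤ) ∣ β - β' → β = β')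
    (hS : Small S ε) (hR : Radius n₀ n₁ n₂ R)
    (hL : ((k : ℝ) + 1) * Real.log 2 + (s₀ : ℝ) * (4112 / 10000 + ε) < Real.log R) :
    SizeLt n₀ n₁ n₂ (2 ^ k) b c S := by
  have hfac : (2 ^ k : ℕ).factorization 2 = k := by
    rw [Nat.Prime.factorization_pow Nat.prime_two]
    simp
  refine size_explicit c {2} (fun _ => (k : ℝ) + 1) s₀ ε R hs₀ hb hs ?_ ?_ ?_ ?_ hS hR ?_
  · intro p hp
    rw [Finset.mem_singleton] at hp
    subst hp
    exact Nat.prime_two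
  · intro p hp hpM
    rw [Finset.mem_singleton]
    exact (Nat.prime_dvd_prime_iff_eq hp Nat.prime_two).1 (hp.dvd_of_dvd_pow hpM)
  · intro p _
    positivity
  · intro p hp β hβ
    rw [Finset.mem_singleton] at hp
    subst hp
    have h2 := numCong_le_one hres 2 β hβ (fun γ _ h => by
      rw [hfac] at h
      push_cast at h ⊢
      exact h)
    rw [hfac]
    have h5 : (numCong 2 (2 ^ k) b β : ℝ) ≤ 1 := by exact_mod_cast h2
    have h6 : ((2 : ℕ) : ℝ) - 1 = 1 := by norm_num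
    rw [h6, div_one]
    linarith
  · rw [Finset.sum_singleton, Finset.sum_singleton]
    refine lt_of_eq_of_lt ?_ hL
    push_cast
    ring

/-- the cases with the primes 2 and `q` -/
theorem table_pair {K : Type} [Field K] [NumberField K] {r : ℕ} {n₀ n₁ n₂ M : ℕ}
    {b : Matrix (Fin r) (Fin r) (𝓞 K)} (c : Matrix (Fin r) (Fin r) (𝓞 K)) {S : Set ℕ}
    (q : ℕ) (hq : q.Prime) (hq2 : 2 ≠ q) (s₀ : ℕ) (k₂ kq ε R : ℝ) (hs₀ : 1 ≤ s₀)
    (hb : ∀ p : ℕ, p.Prime → p ∣ M → DiagAt p b)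
    (hM : ∀ p : ℕ, p.Prime → p ∣ M → p = 2 ∨ p = q) (hs : numExp M b ≤ s₀)
    (hk₂ : 0 ≤ k₂) (hkq : 0 ≤ kq)
    (h2 : ∀ β ∈ expSet b, (M.factorization 2 : ℝ) + (numCong 2 M b β : ℝ) ≤ k₂)
    (h3 : ∀ β ∈ expSet b,
      (M.factorization q : ℝ) + (numCong q M b β : ℝ) / ((q : ℝ) - 1) ≤ kq)
    (hS : Small S ε) (hR : Radius n₀ n₁ n₂ R)
    (hL : k₂ * Real.log 2 + kq * Real.log q +
      (s₀ : ℝ) * (4112 / 10000 - Real.log q / ((q : ℝ) * (q - 1)) + ε) < Real.log R) :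
    SizeLt n₀ n₁ n₂ M b c S := by
  have hpq : ∀ p ∈ ({2, q} : Finset ℕ), p = 2 ∨ p = q := by
    intro p hp
    rw [Finset.mem_insert, Finset.mem_singleton] at hp
    exact hp
  refine size_explicit c {2, q} (fun p => if p = 2 then k₂ else kq) s₀ ε R hs₀ hb
    hs ?_ ?_ ?_ ?_ hS hR ?_
  · intro p hp
    rcases hpq p hp with rfl | rfl
    · exact Nat.prime_two
    · exact hq
  · intro p hp hpM
    rw [Finset.mem_insert, Finset.mem_singleton]
    exact hM p hp hpM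
  · intro p hp
    show (0 : ℝ) ≤ if p = 2 then k₂ else kq
    split_ifs
    · exact hk₂
    · exact hkq
  · intro p hp β hβ
    rcases hpq p hp with rfl | rfl
    · have h7 : ((2 : ℕ) : ℝ) - 1 = 1 := by norm_num
      rw [h7, div_one]
      simp only [if_true]
      exact h2 β hβ
    · rw [if_neg hq2.symm]
      exact h3 β hβ
  · rw [Finset.sum_pair hq2, Finset.sum_pair hq2]
    refine lt_of_eq_of_lt ?_ hL
    simp only [if_true]
    rw [if_neg hq2.symm]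
    push_cast
    ring

theorem log_three_gt : 19 * Real.log 2 < 12 * Real.log 3 := by
  have h := Real.log_lt_log (by norm_num : (0 : ℝ) < 2 ^ 19) (by norm_num : (2 : ℝ) ^ 19 < 3 ^ 12)
  rw [Real.log_pow, Real.log_pow] at h
  norm_num at h
  exact h

theorem log_three_lt : 5 * Real.log 3 < 8 * Real.log 2 := by
  have h := Real.log_lt_log (by norm_num : (0 : ℝ) < 3 ^ 5) (by norm_num : (3 : ℝ) ^ 5 < 2 ^ 8)
  rw [Real.log_pow, Real.log_pow] at h
  norm_num at h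
  exact h

theorem log_two_three (a b : ℕ) (R : ℝ) (h : R = 2 ^ a * 3 ^ b) :
    Real.log R = a * Real.log 2 + b * Real.log 3 := by
  rw [h, Real.log_mul (by positivity) (by positivity), Real.log_pow, Real.log_pow]

section rows

variable {K : Type} [Field K] [NumberField K] {r : ℕ} {n₀ n₁ n₂ M : ℕ}
  {b : Matrix (Fin r) (Fin r) (𝓞 K)}

theorem cong_le (hres : ∀ β ∈ expSet b, ∀ β' ∈ expSet b, (M : ℤ) ∣ β - β' → β = β') {s₀ : ℕ}
    (hs : numExp M b ≤ s₀) (p : ℕ) (β : ℤ) : (numCong p M b β : ℝ) ≤ s₀ := by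
  exact_mod_cast (numCong_le hres p β).trans hs

theorem cong_one (hres : ∀ β ∈ expSet b, ∀ β' ∈ expSet b, (M : ℤ) ∣ β - β' → β = β') (p v : ℕ)
    (hv : M.factorization p = v)
    (h : ∀ x : ℤ, (p : ℤ) ^ v ∣ x → (M : ℤ) ∣ n₀ * x → (M : ℤ) ∣ x)
    (h₀ : ∀ β ∈ expSet b, ∀ β' ∈ expSet b, (M : ℤ) ∣ n₀ * (β - β')) :
    ∀ β ∈ expSet b, (numCong p M b β : ℝ) ≤ 1 := by
  intro β hβ
  have h1 := numCong_le_one hres p β hβ fun γ hγ hd => h _ (by rwa [hv] at hd) (h₀ γ hγ β hβ)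
  exact_mod_cast h1

theorem prime_dvd_cases {m q : ℕ} (hq : q.Prime) (i j : ℕ) (hm : m ∣ 2 ^ i * q ^ j) (p : ℕ)
    (hp : p.Prime) (hpm : p ∣ m) : p = 2 ∨ p = q := by
  rcases (Nat.Prime.dvd_mul hp).1 (hpm.trans hm) with h | h
  · exact Or.inl ((Nat.prime_dvd_prime_iff_eq hp Nat.prime_two).1 (hp.dvd_of_dvd_pow h))
  · exact Or.inr ((Nat.prime_dvd_prime_iff_eq hp hq).1 (hp.dvd_of_dvd_pow h))

theorem row_size (c : Matrix (Fin r) (Fin r) (𝓞 K)) {S : Set ℕ}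
    (hb : ∀ p : ℕ, p.Prime → p ∣ M → DiagAt p b)
    (h₀ : ∀ β ∈ expSet b, ∀ β' ∈ expSet b, (M : ℤ) ∣ n₀ * (β - β'))
    (hres : ∀ β ∈ expSet b, ∀ β' ∈ expSet b, (M : ℤ) ∣ β - β' → β = β')
    (hS : Small S (1 / 20)) (h : Row n₀ n₁ n₂ M (numExp M b)) : SizeLt n₀ n₁ n₂ M b c S := by
  have hL2 := Real.log_two_gt_d9
  have hL2' := Real.log_two_lt_d9
  have hL3 := log_three_gt
  have hL3' := log_three_lt
  have e128 := log_two_three 7 0 128 (by norm_num)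
  have e6912 := log_two_three 8 3 6912 (by norm_num)
  have e32 := log_two_three 5 0 32 (by norm_num)
  have e256 := log_two_three 8 0 256 (by norm_num)
  have e64 := log_two_three 6 0 64 (by norm_num)
  push_cast at e128 e6912 e32 e256 e64
  rcases h with ⟨rfl, rfl, rfl, rfl⟩ | ⟨rfl, rfl, rfl, rfl, hs⟩ | ⟨rfl, rfl, rfl, rfl, hs⟩ |
    ⟨rfl, rfl, rfl, rfl, hs⟩ | ⟨rfl, rfl, rfl, rfl, hs⟩ | ⟨rfl, rfl, rfl, rfl, hs⟩
  · have hs : numExp 8 b ≤ 4 := numExp_le (by norm_num) (by norm_num) h₀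
    exact table_dyadic c 3 4 (1 / 20) 128 (by norm_num) hb hs hres hS
      (Or.inr (Or.inl (by simp [RadE]))) (by push_cast; linarith)
  · exact table_dyadic c 4 3 (1 / 20) 128 (by norm_num) hb hs hres hS
      (Or.inr (Or.inl (by simp [RadE]))) (by push_cast; linarith)
  · have f2 : (24 : ℕ).factorization 2 = 3 := fac 2 3 3 (by norm_num) (by norm_num)
    have f3 : (24 : ℕ).factorization 3 = 1 := fac 3 1 8 (by norm_num) (by norm_num)
    have c2 := cong_one (n₀ := 8) hres 2 3 f2 (fun x h h' => by push_cast at *; omega) h₀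
    refine table_pair c 3 (by norm_num) (by norm_num) 6 4 4 (1 / 20) 6912
      (by norm_num) hb (prime_dvd_cases (by norm_num) 3 1 (by norm_num)) hs (by norm_num)
      (by norm_num) (fun β hβ => ?_) (fun β hβ => ?_) hS (Or.inr (Or.inl (by simp [RadE]))) ?_
    · rw [f2]
      have := c2 β hβ
      push_cast
      linarith
    · rw [f3]
      have := cong_le hres hs 3 β
      push_cast at this ⊢
      linarith
    · push_cast
      linarith
  · exact table_dyadic c 2 3 (1 / 20) 32 (by norm_num) hb hs hres hS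
      (Or.inl ⟨rfl, Or.inl (by simp [Rad])⟩) (by push_cast; linarith)
  · exact table_dyadic c 3 6 (1 / 20) 256 (by norm_num) hb hs hres hS
      (Or.inl ⟨rfl, Or.inl (by simp [Rad])⟩) (by push_cast; linarith)
  · exact table_dyadic c 3 3 (1 / 20) 64 (by norm_num) hb hs hres hS
      (Or.inl ⟨rfl, Or.inl (by simp [Rad])⟩) (by push_cast; linarith)

theorem table_size (n₀ n₁ n₂ M : ℕ) (b c : Matrix (Fin r) (Fin r) (𝓞 K)) (S : Set ℕ)
    (h₀ : ∀ β ∈ expSet b, ∀ β' ∈ expSet b, (M : ℤ) ∣ n₀ * (β - β'))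
    (h : Table n₀ n₁ n₂ M b S) : SizeLt n₀ n₁ n₂ M b c S := by
  obtain ⟨hb, hres, hS, h | h⟩ := h
  · exact row_size c hb h₀ hres hS h
  · exact sizeLt_symm (row_size c hb h₀ hres hS h)

end rows

section size

variable {K : Type} [Field K] [NumberField K] {r : ℕ}

theorem comm_of_mul {g h : Matrix (Fin r) (Fin r) (𝓞 K)} {N : ℕ} (hN : N ≠ 0)
    (H : h * g = (N : 𝓞 K) • (1 : Matrix (Fin r) (Fin r) (𝓞 K))) :
    g * h = (N : 𝓞 K) • (1 : Matrix (Fin r) (Fin r) (𝓞 K)) := by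
  have hN' : (N : K) ≠ 0 := by exact_mod_cast hN
  have hmap : ∀ (x y : Matrix (Fin r) (Fin r) (𝓞 K)),
      x * y = (N : 𝓞 K) • (1 : Matrix (Fin r) (Fin r) (𝓞 K)) ↔
      x.map (algebraMap (𝓞 K) K) * y.map (algebraMap (𝓞 K) K) =
        (N : K) • (1 : Matrix (Fin r) (Fin r) K) := by
    intro x y
    have e : ((N : 𝓞 K) • (1 : Matrix (Fin r) (Fin r) (𝓞 K))).map (algebraMap (𝓞 K) K) =
        (N : K) • (1 : Matrix (Fin r) (Fin r) K) := by
      ext i j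
      by_cases hij : i = j
      · subst hij
        simp
      · simp [Matrix.one_apply_ne hij]
    rw [← Matrix.map_mul, ← e]
    constructor
    · intro h
      rw [h]
    · intro h
      exact Matrix.map_injective (NumberField.RingOfIntegers.coe_injective) h
  have h1 := (hmap h g).1 H
  have h2 : ((N : K)⁻¹ • h.map (algebraMap (𝓞 K) K)) * g.map (algebraMap (𝓞 K) K) = 1 := by
    rw [Matrix.smul_mul, h1, smul_smul, inv_mul_cancel₀ hN', one_smul]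
  have h3 := mul_eq_one_comm.1 h2
  rw [Matrix.mul_smul] at h3
  refine (hmap g h).2 ?_
  rw [← h3, smul_smul, mul_inv_cancel₀ hN', one_smul]

theorem size_conv {M : ℕ} (hM : 0 < M) {b c : Matrix (Fin r) (Fin r) (𝓞 K)} {S : Set ℕ}
    (hinf : ∀ N : ℕ, ∃ p : ℕ, N < p ∧ p.Prime ∧ ¬ p ∣ M ∧ p ∉ S)
    (hram : ∀ p : ℕ, p.Prime → ¬ p ∣ M → p ∉ S → (Ideal.span {(p : 𝓞 K)}).IsRadical)
    (hψ : ∀ P : Ideal (𝓞 K), P.IsMaximal → ¬ ringChar (𝓞 K ⧸ P) ∣ M → ringChar (𝓞 K ⧸ P) ∉ S →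
      PCurvZero M b c P) {p : ℕ} (hp : p.Prime) {κ : ℝ} (hκ0 : 0 ≤ κ) (hκ : IsSize M b c p κ) :
    TH.SizeG M b c p κ := by
  rcases hκ with h | ⟨⟨β, g, h, N, hpN, hhg, hbg⟩, hf⟩ | h
  · exact Or.inl h
  · refine Or.inr (Or.inr ?_)
    have hN : N ≠ 0 := by
      rintro rfl
      exact hpN (dvd_zero p)
    rcases Nat.eq_zero_or_pos r with rfl | hr
    · refine ⟨fun _ => 1, ⟨rfl, fun n i => i.elim0⟩, fun ε _ => ⟨0, fun n i => i.elim0⟩⟩
    have hgh := comm_of_mul hN hhg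
    have hdet : g.det ≠ 0 := by
      intro h0
      have h1 := congrArg Matrix.det hhg
      rw [Matrix.det_mul, h0, mul_zero, Matrix.det_smul, Matrix.det_one, mul_one] at h1
      exact (pow_ne_zero _ (by exact_mod_cast hN)) h1.symm
    obtain ⟨hexp, -⟩ := TH.fin_TH_EXS K r M β b g hM hdet hbg
    have hp1 : (0 : ℝ) < (p : ℝ) - 1 := by
      have : (1 : ℝ) < p := by exact_mod_cast hp.one_lt
      linarith
    have hmem : β ⟨0, hr⟩ ∈ expSet b := by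
      change β ⟨0, hr⟩ ∈ TH.expSet b
      rw [hexp]
      exact ⟨_, rfl⟩
    have h1 := hf _ hmem
    have h2 : (0 : ℝ) ≤ (numCong p M b (β ⟨0, hr⟩) : ℝ) / ((p : ℝ) - 1) :=
      div_nonneg (Nat.cast_nonneg _) hp1.le
    have h3 : 0 ≤ (κ - (M.factorization p : ℝ)) * ((p : ℝ) - 1) :=
      mul_nonneg (by linarith) hp1.le
    have h4 : TH.spc p M β ≤ ⌊(κ - (M.factorization p : ℝ)) * ((p : ℝ) - 1)⌋₊ := by
      refine TH.fin_SPC K r M p _ β b g hM hdet hbg fun β₀ hβ₀ => Nat.le_floor ?_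
      have h5 := hf β₀ hβ₀
      have h6 : (numCong p M b β₀ : ℝ) / ((p : ℝ) - 1) ≤ κ - (M.factorization p : ℝ) := by
        linarith
      exact (div_le_iff₀ hp1).1 h6
    have h5 : (TH.spc p M β : ℝ) ≤ (κ - (M.factorization p : ℝ)) * ((p : ℝ) - 1) :=
      (Nat.cast_le.2 h4).trans (Nat.floor_le h3)
    have h6 : (TH.spc p M β : ℝ) / ((p : ℝ) - 1) ≤ κ - (M.factorization p : ℝ) :=
      (div_le_iff₀ hp1).2 h5
    exact TH.fin_GRD K r M N β b c g h S hM (Nat.pos_of_ne_zero hN) hhg hgh hbg hinf hram hψ p κ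
      hp hpN hκ0 (by linarith)
  · exact Or.inr (Or.inr h)

end size

end proofs

theorem result (K : Type) [Field K] [NumberField K] (σ : K →+* ℂ) (r M n₀ n₁ n₂ : ℕ)
    (hM : 0 < M) (b c : Matrix (Fin r) (Fin r) (𝓞 K)) (S : Set ℕ)
    (h₀ : ∀ β β' : ℤ, b.charpoly.IsRoot ((β : ℤ) : 𝓞 K) → b.charpoly.IsRoot ((β' : ℤ) : 𝓞 K) →
      (M : ℤ) ∣ n₀ * (β - β'))
    (h₁ : ∀ γ : ℤ, c.charpoly.IsRoot ((γ : ℤ) : 𝓞 K) → (M : ℤ) ∣ n₁ * γ)
    (h₂ : ∀ γ : ℤ, (b + c).charpoly.IsRoot ((γ : ℤ) : 𝓞 K) → (M : ℤ) ∣ n₂ * γ)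
    (hsize : SizeLt n₀ n₁ n₂ M b c S ∨ Table n₀ n₁ n₂ M b S)
    (hram : ∀ p : ℕ, p.Prime → ¬ p ∣ M → p ∉ S → (Ideal.span {(p : 𝓞 K)}).IsRadical)
    (hψ : ∀ P : Ideal (𝓞 K), P.IsMaximal → ¬ ringChar (𝓞 K ⧸ P) ∣ M → ringChar (𝓞 K ⧸ P) ∉ S →
      PCurvZero M b c P)
    (B D : Matrix (Fin r) (Fin r) ℂ) (hB : ∀ i j, B i j = σ (b i j : K) / M)
    (hD : ∀ i j, D i j = σ (c i j : K) / M) : HasAlgebraicSolutions B D := by
  obtain ⟨T, κ, R, L, hR, hL, hT, hκ, hC⟩ : SizeLt n₀ n₁ n₂ M b c S :=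
    hsize.elim id (table_size n₀ n₁ n₂ M b c S fun β hβ β' hβ' => h₀ β β' hβ hβ')
  have hinf := Pool.Agent.Work.MP_5e5ff1_ag.TH.fin_TH_INFT M (max 1 (numExp M b)) S T κ L hM
    (le_max_left _ _) (fun p hp => ⟨(hκ p hp).1, (hκ p hp).2.1⟩) hC
  exact Pool.Agent.Work.MP_5e5ff1_ag.TH.fin_FINGW K σ r M n₀ n₁ n₂ b c S T κ R L
    ⟨hM, typ_of_radius hR, hL, fun β hβ β' hβ' => h₀ β β' hβ hβ', h₁, h₂, hT,
      fun p hp => ⟨(hκ p hp).1, (hκ p hp).2.1⟩, hram, hψ⟩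
    (fun p hp => size_conv hM hinf hram hψ (hκ p hp).1 (hκ p hp).2.1 (hκ p hp).2.2) hC B D hB hD

end Pool.Agent.Work.MP_5e5ff1_ag.TH.HT6
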