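import Mathlib
import Pool.Agent.Work.MP_5e5ff1_ag.TH.StmtsA

set_option autoImplicit false

/-!
# MP_5e5ff1_ag, block TH, item BLM: blocks of consecutive factors
-/

open Matrix
open scoped Polynomial

namespace Pool.Agent.Work.MP_5e5ff1_ag.TH

namespace IBLM

theorem range_eq (p m : ℕ) (g : ℕ → ℤ[X]) :
    ∏ k ∈ Finset.Icc 1 ((m + 1) * p), g k =
      (∏ k ∈ Finset.Icc 1 (m * p), g k) * ∏ k ∈ Finset.range p, g (m * p + 1 + k) := by
  have h1 : ∀ n : ℕ, ∏ k ∈ Finset.Icc 1 n, g k = ∏ k ∈ Finset.range n, g (k + 1) := by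
    intro n
    induction n with
    | zero => simp
    | succ n ih =>
      rw [Finset.prod_Icc_succ_top (by omega), ih, Finset.prod_range_succ]
  rw [h1, h1, show (m + 1) * p = m * p + p by ring, Finset.prod_range_add]
  congr 1
  refine Finset.prod_congr rfl fun k _ => ?_
  congr 1
  ring

/-- the coefficients at 0 reduce modulo `p` to the coefficients at 0 -/
theorem A0_map {ι : Type} [Fintype ι] [DecidableEq ι] (p : ℕ) (β : ι → ℤ) (C : Matrix ι ι ℤ)
    (m : ℕ) : (A0 β C m).map (Int.castRingHom (ZMod p)) = A0 β (pm p C) m := by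
  unfold A0
  split_ifs
  · ext i j
    by_cases hij : i = j
    · subst hij
      simp [db]
    · simp [db, Matrix.diagonal_apply_ne _ hij]
  · rfl

/-- a block of `p` consecutive factors -/
theorem blk (hWIL : StWIL) (hPC : StPC012) (hCAS : StCAS) (p : ℕ) [Fact p.Prime] (ι : Type)
    [Fintype ι] [DecidableEq ι] (M : ℕ) (β : ι → ℤ) (C : Matrix ι ι ℤ) (hM : ¬ p ∣ M)
    (hPZ : PZ M β C p) (a : ℤ) (v : ℕ → ι → ℤ) : ∃ v' : ℕ → ι → ℤ,
    Polynomial.aeval (DA M (A0 β C)) (∏ k ∈ Finset.range p,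
      ((Polynomial.X : ℤ[X]) + Polynomial.C (a - (M : ℤ) * (k : ℤ)))) v = (p : ℤ) • v' := by
  set f : ℤ[X] := ∏ k ∈ Finset.range p,
    ((Polynomial.X : ℤ[X]) + Polynomial.C (a - (M : ℤ) * (k : ℤ))) with hf
  have hu : (-(M : ZMod p)) ≠ 0 := by
    rw [neg_ne_zero]
    intro h
    exact hM ((ZMod.natCast_eq_zero_iff M p).1 h)
  have hmap : f.map (Int.castRingHom (ZMod p)) =
      (Polynomial.X : (ZMod p)[X]) ^ p - Polynomial.X := by
    rw [← hWIL p (a : ZMod p) (-(M : ZMod p)) hu, hf, Polynomial.map_prod]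
    refine Finset.prod_congr rfl fun k _ => ?_
    rw [Polynomial.map_add, Polynomial.map_X, Polynomial.map_C]
    congr 2
    simp
    ring
  have h1 := hCAS ℤ (ZMod p) (Int.castRingHom (ZMod p)) ι M (A0 β C) f v
  have hA : (fun m => (A0 β C m).map (Int.castRingHom (ZMod p))) = A0 β (pm p C) :=
    funext fun m => A0_map p β C m
  rw [hmap, hA, map_sub, map_pow, Polynomial.aeval_X, LinearMap.sub_apply,
    (hPC p ι M β C hM hPZ).1, sub_self] at h1
  have h2 : ∀ n i, (p : ℤ) ∣ Polynomial.aeval (DA M (A0 β C)) f v n i := by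
    intro n i
    have h3 := congrFun (congrFun h1 n) i
    rw [← ZMod.intCast_zmod_eq_zero_iff_dvd]
    exact h3.symm
  choose v' hv' using h2
  refine ⟨v', ?_⟩
  funext n i
  rw [hv' n i]
  simp

theorem one (hWIL : StWIL) (hPC : StPC012) (hCAS : StCAS) (p : ℕ) [Fact p.Prime] (ι : Type)
    [Fintype ι] [DecidableEq ι] (M : ℕ) (β : ι → ℤ) (C : Matrix ι ι ℤ) (hM : ¬ p ∣ M)
    (hPZ : PZ M β C p) (c : ℤ) : ∀ (m : ℕ) (v : ℕ → ι → ℤ), ∃ v' : ℕ → ι → ℤ,
    Polynomial.aeval (DA M (A0 β C)) (∏ k ∈ Finset.Icc 1 (m * p),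
      ((Polynomial.X : ℤ[X]) + Polynomial.C (c - (M : ℤ) * (k : ℤ)))) v = ((p : ℤ) ^ m) • v'
  | 0, v => ⟨v, by simp⟩
  | m + 1, v => by
    obtain ⟨w, hw⟩ := blk hWIL hPC hCAS p ι M β C hM hPZ (c - (M : ℤ) * ((m * p + 1 : ℕ) : ℤ)) v
    obtain ⟨v', hv'⟩ := one hWIL hPC hCAS p ι M β C hM hPZ c m w
    refine ⟨v', ?_⟩
    have h2 : ∏ k ∈ Finset.range p, ((Polynomial.X : ℤ[X]) +
        Polynomial.C (c - (M : ℤ) * ((m * p + 1 + k : ℕ) : ℤ))) =
        ∏ k ∈ Finset.range p, ((Polynomial.X : ℤ[X]) +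
        Polynomial.C ((c - (M : ℤ) * ((m * p + 1 : ℕ) : ℤ)) - (M : ℤ) * (k : ℤ))) := by
      refine Finset.prod_congr rfl fun k _ => ?_
      congr 2
      push_cast
      ring
    rw [range_eq, map_mul, Module.End.mul_apply, h2, hw, map_smul, hv', smul_smul, pow_succ']

end IBLM

theorem pr_BLM (hWIL : StWIL) (hPC : StPC012) (hCAS : StCAS) : StBLM := by
  intro p hpf ι hι1 hι2 M β C hM hPZ m T v
  induction T using Finset.induction_on generalizing v with
  | empty => exact ⟨v, by simp⟩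
  | insert c T hc ih =>
    obtain ⟨w, hw⟩ := ih v
    obtain ⟨v', hv'⟩ := IBLM.one hWIL hPC hCAS p ι M β C hM hPZ c m w
    refine ⟨v', ?_⟩
    rw [Finset.prod_insert hc, map_mul, Module.End.mul_apply, hw, map_smul, hv', smul_smul,
      Finset.card_insert_of_notMem hc, ← pow_add]
    congr 2

end Pool.Agent.Work.MP_5e5ff1_ag.TH
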