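import Mathlib
import Pool.Agent.Work.MP_5e5ff1_ag.TH.StmtsG

set_option autoImplicit false

/-!
# MP_5e5ff1_ag, block TH, item CKC: from the cost with `T` to a finite cost without `T`
-/

open Matrix Filter Topology
open scoped Polynomial

namespace Pool.Agent.Work.MP_5e5ff1_ag.TH

namespace ICKC

open Classical in
/-- the term of the cost -/
noncomputable def f (S : Set ℕ) (p : ℕ) : ℝ :=
  (1 / ((p : ℝ) * (p - 1)) + if p ∈ S then 1 / (p : ℝ) else 0) * Real.log p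

theorem f_nonneg (S : Set ℕ) (p : ℕ) (hp : p.Prime) : 0 ≤ f S p := by
  unfold f
  have h1 : (1 : ℝ) ≤ p := by exact_mod_cast hp.one_lt.le
  have h2 : (0 : ℝ) ≤ (p : ℝ) - 1 := by linarith
  have h3 : 0 ≤ Real.log p := Real.log_nonneg h1
  refine mul_nonneg (add_nonneg ?_ ?_) h3
  · positivity
  · split_ifs
    · positivity
    · exact le_refl _

theorem f_eq (S : Set ℕ) (T : Finset ℕ) (p : ℕ) (hp : p ∉ T) :
    f (S ∪ {p | p ∈ T}) p = f S p := by
  unfold f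
  have : (p ∈ S ∪ {p | p ∈ T}) ↔ p ∈ S := by
    simp [hp]
  by_cases h : p ∈ S
  · rw [if_pos (this.2 h), if_pos h]
  · rw [if_neg (fun h' => h (this.1 h')), if_neg h]

end ICKC

open ICKC in
theorem pr_CKC : StCKC := by
  classical
  intro ι _ _ M β S T κ L h
  refine ⟨∑ p ∈ M.primeFactors, ((M.factorization p : ℝ) + (spc p M β : ℝ) / ((p : ℝ) - 1)) *
    Real.log p + ((L - ∑ p ∈ T, κ p * Real.log p) +
      (nd β : ℝ) * ∑ p ∈ T.filter Nat.Prime, f (S ∪ {p | p ∈ T}) p), ?_⟩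
  intro F hF
  have hc := h (F.filter (fun p => p ∉ T)) (fun p hp =>
    ⟨(hF p (Finset.mem_filter.1 hp).1).1, (Finset.mem_filter.1 hp).2⟩)
  have hc' : ∑ p ∈ T, κ p * Real.log p +
      (nd β : ℝ) * ∑ p ∈ F.filter (fun p => p ∉ T), f S p ≤ L := hc
  have h1 : ∑ p ∈ F.filter (fun p => p ∉ T), f (S ∪ {p | p ∈ T}) p =
      ∑ p ∈ F.filter (fun p => p ∉ T), f S p :=
    Finset.sum_congr rfl fun p hp => f_eq S T p (Finset.mem_filter.1 hp).2
  have h2 : ∑ p ∈ F.filter (fun p => p ∈ T), f (S ∪ {p | p ∈ T}) p ≤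
      ∑ p ∈ T.filter Nat.Prime, f (S ∪ {p | p ∈ T}) p := by
    refine Finset.sum_le_sum_of_subset_of_nonneg ?_ ?_
    · intro p hp
      rw [Finset.mem_filter] at hp ⊢
      exact ⟨hp.2, (hF p hp.1).1⟩
    · intro p hp _
      exact f_nonneg _ p (Finset.mem_filter.1 hp).2
  have h3 : ∑ p ∈ F, f (S ∪ {p | p ∈ T}) p =
      ∑ p ∈ F.filter (fun p => p ∈ T), f (S ∪ {p | p ∈ T}) p +
      ∑ p ∈ F.filter (fun p => p ∉ T), f (S ∪ {p | p ∈ T}) p :=
    (Finset.sum_filter_add_sum_filter_not F (fun p => p ∈ T) _).symm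
  have h4 : (nd β : ℝ) * ∑ p ∈ F, f (S ∪ {p | p ∈ T}) p ≤
      (L - ∑ p ∈ T, κ p * Real.log p) +
      (nd β : ℝ) * ∑ p ∈ T.filter Nat.Prime, f (S ∪ {p | p ∈ T}) p := by
    rw [h3, h1, mul_add]
    have h5 := mul_le_mul_of_nonneg_left h2 (Nat.cast_nonneg (α := ℝ) (nd β))
    linarith
  exact add_le_add_right h4 _

end Pool.Agent.Work.MP_5e5ff1_ag.TH
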