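import Mathlib
import Pool.Agent.Work.MP_5e5ff1_ag.TH.StmtsY

set_option autoImplicit false

/-!
# MP_5e5ff1_ag, block TH, item EXS: the eigenvalues of `b`
-/

open Matrix Filter Topology NumberField
open scoped Polynomial nonZeroDivisors

namespace Pool.Agent.Work.MP_5e5ff1_ag.TH

namespace IEXS

/-- matrices which are conjugate over the field of fractions have the same charpoly -/
theorem charpoly_eq {R : Type} [CommRing R] [IsDomain R] {r : ℕ}
    (b g d : Matrix (Fin r) (Fin r) R) (hg : g.det ≠ 0) (h : b * g = g * d) :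
    b.charpoly = d.charpoly := by
  have h1 : b.charmatrix * (Polynomial.C : R →+* R[X]).mapMatrix g =
      (Polynomial.C : R →+* R[X]).mapMatrix g * d.charmatrix := by
    unfold Matrix.charmatrix
    rw [sub_mul, mul_sub, ← map_mul, ← map_mul, h]
    congr 1
    exact (Matrix.scalar_commute Polynomial.X (fun r' => Commute.all _ _) _)
  have h2 := congrArg Matrix.det h1
  rw [Matrix.det_mul, Matrix.det_mul] at h2
  have h3 : ((Polynomial.C : R →+* R[X]).mapMatrix g).det = Polynomial.C g.det :=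
    ((Polynomial.C : R →+* R[X]).map_det g).symm
  have h4 : ((Polynomial.C : R →+* R[X]).mapMatrix g).det ≠ 0 := by
    rw [h3]
    exact Polynomial.C_ne_zero.2 hg
  unfold Matrix.charpoly
  refine mul_right_cancel₀ h4 ?_
  rw [h2, mul_comm]

end IEXS

open IEXS in
theorem pr_EXS : StEXS := by
  classical
  intro K _ _ r M β b g hM hg h
  have hset : expSet b = Set.range β := by
    ext γ
    unfold expSet
    rw [Set.mem_ofPred_eq, charpoly_eq b g _ hg h, Matrix.charpoly_diagonal,
      Polynomial.IsRoot.def, Polynomial.eval_prod, Finset.prod_eq_zero_iff, Set.mem_range]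
    constructor
    · rintro ⟨i, -, hi⟩
      rw [Polynomial.eval_sub, Polynomial.eval_X, Polynomial.eval_C, sub_eq_zero] at hi
      exact ⟨i, (Int.cast_injective hi).symm⟩
    · rintro ⟨i, rfl⟩
      exact ⟨i, Finset.mem_univ i, by simp⟩
  refine ⟨hset, ?_⟩
  unfold ncb nc
  rw [hset]
  have h1 : ((fun x : ℤ => (x : ZMod M)) '' Set.range β) =
      (((Finset.univ.image fun i => β i % (M : ℤ)).image fun x : ℤ => (x : ZMod M) :
        Finset (ZMod M)) : Set (ZMod M)) := by
    ext y
    simp only [Set.mem_image, Set.mem_range, Finset.coe_image, Finset.coe_univ, Set.image_univ]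
    constructor
    · rintro ⟨x, ⟨i, rfl⟩, rfl⟩
      exact ⟨β i % (M : ℤ), ⟨i, rfl⟩, ZMod.intCast_mod _ _⟩
    · rintro ⟨x, ⟨i, rfl⟩, rfl⟩
      exact ⟨β i, ⟨i, rfl⟩, (ZMod.intCast_mod _ _).symm⟩
  rw [h1, Set.ncard_coe_finset, Finset.card_image_of_injOn]
  intro x hx y hy hxy
  rw [Finset.mem_coe, Finset.mem_image] at hx hy
  obtain ⟨i, -, rfl⟩ := hx
  obtain ⟨j, -, rfl⟩ := hy
  have h2 := (ZMod.intCast_eq_intCast_iff' _ _ M).1 hxy
  rwa [Int.emod_emod_of_dvd _ dvd_rfl, Int.emod_emod_of_dvd _ dvd_rfl] at h2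

end Pool.Agent.Work.MP_5e5ff1_ag.TH
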