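import Mathlib
import Pool.Agent.Work.MP_5e5ff1_ag.TH.StmtsY

set_option autoImplicit false

/-!
# MP_5e5ff1_ag, block TH, item FING
-/

open Matrix Filter Topology NumberField
open scoped Polynomial nonZeroDivisors

namespace Pool.Agent.Work.MP_5e5ff1_ag.TH

namespace IFING

lemma term_nonneg {S : Set ℕ} {p : ℕ} (hp : p.Prime) [Decidable (p ∈ S)] :
    0 ≤ (1 / ((p : ℝ) * (p - 1)) + if p ∈ S then 1 / (p : ℝ) else 0) * Real.log p := by
  have h1 : (1 : ℝ) < p := by exact_mod_cast hp.one_lt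
  have h2 : 0 ≤ Real.log p := Real.log_nonneg h1.le
  have h3 : 0 ≤ 1 / ((p : ℝ) * (p - 1)) :=
    div_nonneg zero_le_one (mul_nonneg (by linarith) (by linarith))
  refine mul_nonneg (add_nonneg h3 ?_) h2
  split_ifs
  · positivity
  · exact le_rfl

lemma cost_mono {T : Finset ℕ} {κ : ℕ → ℝ} {s s' : ℕ} {S : Set ℕ} {L : ℝ} (hs : s' ≤ s)
    (h : CostT T κ s S L) : CostT T κ s' S L := by
  classical
  intro F hF
  have h0 := h F hF
  have h1 : (s' : ℝ) * ∑ p ∈ F, (1 / ((p : ℝ) * (p - 1)) + if p ∈ S then 1 / (p : ℝ) else 0) *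
      Real.log p ≤ (s : ℝ) * ∑ p ∈ F, (1 / ((p : ℝ) * (p - 1)) +
        if p ∈ S then 1 / (p : ℝ) else 0) * Real.log p := by
    refine mul_le_mul_of_nonneg_right (by exact_mod_cast hs) ?_
    exact Finset.sum_nonneg fun p hp => term_nonneg (hF p hp).1
  refine le_trans ?_ h0
  have h2 : ∀ a b c : ℝ, b ≤ c → a + b ≤ a + c := fun a b c h => by linarith
  refine h2 _ _ _ ?_
  convert h1 using 4

lemma cost_bs {T : Finset ℕ} {κ : ℕ → ℝ} {s : ℕ} {S : Set ℕ} {L : ℝ} (hs : 1 ≤ s)
    (hκ : ∀ p ∈ T, p.Prime ∧ 0 ≤ κ p) (h : CostT T κ s S L) :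
    Bs {p | p ∈ S ∧ p ∉ T} L := by
  classical
  intro F hF
  have h0 := cost_mono hs h F (fun p hp => ⟨(hF p hp).1, (hF p hp).2.2⟩)
  have h1 : 0 ≤ ∑ p ∈ T, κ p * Real.log p := by
    refine Finset.sum_nonneg fun p hp => mul_nonneg (hκ p hp).2 ?_
    exact Real.log_nonneg (by exact_mod_cast (hκ p hp).1.one_lt.le)
  have h2 : ∑ p ∈ F, Real.log p / p ≤
      ∑ p ∈ F, (1 / ((p : ℝ) * (p - 1)) + if p ∈ S then 1 / (p : ℝ) else 0) * Real.log p := by
    refine Finset.sum_le_sum fun p hp => ?_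
    have hpp := (hF p hp).1
    have hpS := (hF p hp).2.1
    have h1 : (1 : ℝ) < p := by exact_mod_cast hpp.one_lt
    have h2 : 0 ≤ Real.log p := Real.log_nonneg h1.le
    have h3 : 0 ≤ 1 / ((p : ℝ) * (p - 1)) :=
      div_nonneg zero_le_one (mul_nonneg (by linarith) (by linarith))
    rw [if_pos hpS, add_mul]
    have h4 : Real.log p / p = 1 / (p : ℝ) * Real.log p := by ring
    rw [h4]
    have := mul_nonneg h3 h2
    linarith
  have h4 : ∑ p ∈ F, (1 / ((p : ℝ) * (p - 1)) + if p ∈ S then 1 / (p : ℝ) else 0) *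
      Real.log p ≤ L := by
    rw [Nat.cast_one, one_mul] at h0
    linarith
  exact h2.trans h4

lemma nc_pos {r : ℕ} (hr : 0 < r) (M : ℕ) (β : Fin r → ℤ) : 1 ≤ nc M β := by
  unfold nc
  refine Finset.card_pos.mpr ?_
  exact ⟨β ⟨0, hr⟩ % (M : ℤ), Finset.mem_image.mpr ⟨⟨0, hr⟩, Finset.mem_univ _, rfl⟩⟩

end IFING

theorem pr_FING (hFGD : StFGD) (hFGG : StFGG) (hDIAK : StDIAK) (hADJ : StADJ) (hEXS : StEXS)
    (hRSPG : StRSPG) (hQAT : StQAT) : StFING := by
  classical
  intro K _ _ σ r M n1 n2 b c S T κ R L hD hsize hcost B D hB hDD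
  rcases Nat.eq_zero_or_pos r with hr | hr
  · subst hr
    refine hFGD K σ 0 M n1 n2 (fun _ => 0) b c S T κ R L hD (Subsingleton.elim _ _) hsize ?_
      B D hB hDD
    refine IFING.cost_mono ?_ hcost
    have h0 : nc M (fun _ : Fin 0 => (0 : ℤ)) = 0 := by
      unfold nc
      rw [Finset.univ_eq_empty, Finset.image_empty, Finset.card_empty]
    rw [h0]
    exact Nat.zero_le _
  · have hs1 : 1 ≤ max 1 (ncb M b) := le_max_left _ _
    have hBs := IFING.cost_bs hs1 hD.hκ hcost
    obtain ⟨β, g, hg, hbg⟩ := hDIAK K r b {p | p ∈ S ∧ p ∉ T} (M + ∑ p ∈ T, p) L hBs (by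
      intro p hp hNp hpS'
      have : Fact p.Prime := ⟨hp⟩
      have hpM : ¬ p ∣ M := fun hd => by
        have := Nat.le_of_dvd hD.hM hd
        have h2 : 0 ≤ ∑ p ∈ T, p := Nat.zero_le _
        omega
      have hpT : p ∉ T := fun hpT => by
        have h2 : p ≤ ∑ p ∈ T, p := Finset.single_le_sum (f := fun p => p)
          (fun _ _ => Nat.zero_le _) hpT
        omega
      have hpS : p ∉ S := fun hpS => hpS' ⟨hpS, hpT⟩
      have hPZ : PZg M (TG.rs K b) (TG.rs K c) p := by
        refine hRSPG K r M b c p hp (hD.rad p hp hpM hpS) ?_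
        intro P hP hPp
        refine hD.psi P hP ?_ ?_
        · rw [hPp]; exact hpM
        · rw [hPp]; exact hpS
      exact hQAT p _ M (TG.rs K b) (TG.rs K c) hpM hPZ)
    obtain ⟨-, hnc⟩ := hEXS K r M β b g hD.hM hg hbg
    by_cases hdiag : b.IsDiag
    · have hrow : ∀ i, ∃ j, g i j ≠ 0 := by
        intro i
        by_contra hcon
        push Not at hcon
        exact hg (Matrix.det_eq_zero_of_row_eq_zero i hcon)
      choose j hj using hrow
      have hbb : ∀ i, b i i = ((β (j i) : ℤ) : 𝓞 K) := by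
        intro i
        have h1 : (b * g) i (j i) = b i i * g i (j i) := by
          rw [Matrix.mul_apply]
          refine Finset.sum_eq_single i ?_ ?_
          · intro k _ hk
            rw [hdiag (Ne.symm hk), zero_mul]
          · intro h; exact absurd (Finset.mem_univ _) h
        have h2 : (g * Matrix.diagonal (fun i => ((β i : ℤ) : 𝓞 K))) i (j i) =
            g i (j i) * ((β (j i) : ℤ) : 𝓞 K) := by
          rw [Matrix.mul_diagonal]
        rw [hbg, h2] at h1
        have h3 : g i (j i) * (((β (j i) : ℤ) : 𝓞 K) - b i i) = 0 := by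
          rw [mul_sub, h1]; ring
        rcases mul_eq_zero.mp h3 with h4 | h4
        · exact absurd h4 (hj i)
        · exact (sub_eq_zero.mp h4).symm
      have hbd : b = Matrix.diagonal (fun i => (((fun i => β (j i)) i : ℤ) : 𝓞 K)) := by
        ext1 i k
        by_cases hik : i = k
        · subst hik
          rw [Matrix.diagonal_apply_eq]
          exact hbb i
        · rw [Matrix.diagonal_apply_ne _ hik]
          exact hdiag hik
      have hnc' : ncb M b = nc M (fun i => β (j i)) := by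
        refine (hEXS K r M (fun i => β (j i)) b 1 hD.hM ?_ ?_).2
        · rw [Matrix.det_one]; exact one_ne_zero
        · rw [mul_one, one_mul]; exact hbd
      refine hFGD K σ r M n1 n2 (fun i => β (j i)) b c S T κ R L hD hbd hsize ?_ B D hB hDD
      refine IFING.cost_mono ?_ hcost
      rw [← hnc']
      exact le_max_right _ _
    · obtain ⟨N, h, hN, hhg, hgh⟩ := hADJ K r g hg
      refine hFGG K σ r M N n1 n2 β b c g h S T κ R L hD hN hhg hgh hbg ?_ ?_ B D hB hDD
      · intro p hp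
        rcases hsize p hp with h1 | h2 | h3
        · left
          rw [← hnc]
          exact h1
        · exact absurd h2.1 hdiag
        · right
          exact h3
      · refine IFING.cost_mono ?_ hcost
        rw [← hnc]
        exact le_max_right _ _

end Pool.Agent.Work.MP_5e5ff1_ag.TH
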