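import Mathlib
import Pool.Agent.Work.MP_5e5ff1_ag.TH.StmtsD

set_option autoImplicit false

/-! MP_5e5ff1_ag, block TH, item GEX: the formal solution without logarithms. -/

namespace Pool.Agent.Work.MP_5e5ff1_ag.TH

open Matrix

namespace IGEX

variable {ι : Type} [Fintype ι] [DecidableEq ι]

lemma L1_apply {R : Type} [CommRing R] (M : ℕ) (A : ℕ → Matrix ι ι R) (lam : ℤ) (w : ℕ → ι → R)
    (m : ℕ) (i : ι) : L1 M A lam w m i = (M : R) * (m : R) * w m i +
    ∑ k ∈ Finset.range (m + 1), (A (m - k) *ᵥ w k) i - (lam : R) * w m i := rfl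

lemma L1_congr {R : Type} [CommRing R] (M : ℕ) (A : ℕ → Matrix ι ι R) (lam : ℤ) (w w' : ℕ → ι → R)
    (m : ℕ) (h : ∀ k ≤ m, w k = w' k) (i : ι) : L1 M A lam w m i = L1 M A lam w' m i := by
  rw [L1_apply, L1_apply, h m le_rfl,
    Finset.sum_congr rfl (fun k hk => by rw [h k (Nat.lt_succ_iff.1 (Finset.mem_range.1 hk))])]

/-- the recursive construction of one column -/
lemma column (M : ℕ) (A : ℕ → Matrix ι ι ℚ) (lam : ℤ) (v : ι → ℚ)
    (h0 : ∀ i, L1 M A lam (fun n => if n = 0 then v else 0) 0 i = 0)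
    (hE : ∀ (g : ℕ → ι → ℚ) (n : ℕ), (∀ m < n, ∀ i, L1 M A lam g m i = 0) →
      ∃ h : ι → ℚ, ∀ m ≤ n, ∀ i, L1 M A lam (Function.update g n h) m i = 0) :
    ∃ g : ℕ → ι → ℚ, g 0 = v ∧ ∀ n i, L1 M A lam g n i = 0 := by
  choose! f hf using hE
  set G : ℕ → ℕ → ι → ℚ := fun n => Nat.rec (fun n => if n = 0 then v else 0)
    (fun n g => Function.update g (n + 1) (f g (n + 1))) n with hG
  have hGs : ∀ n, G (n + 1) = Function.update (G n) (n + 1) (f (G n) (n + 1)) := fun n => rfl
  have hP : ∀ n, ∀ m ≤ n, ∀ i, L1 M A lam (G n) m i = 0 := by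
    intro n
    induction n with
    | zero =>
      intro m hm i
      obtain rfl : m = 0 := by omega
      exact h0 i
    | succ n ih =>
      rw [hGs]
      exact hf (G n) (n + 1) (fun m hm i => ih m (by omega) i)
  have hA : ∀ n, ∀ m ≤ n, G n m = G m m := by
    intro n
    induction n with
    | zero =>
      intro m hm
      obtain rfl : m = 0 := by omega
      rfl
    | succ n ih =>
      intro m hm
      rcases Nat.lt_or_ge n m with h | h
      · obtain rfl : m = n + 1 := by omega
        rfl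
      · rw [hGs, Function.update_of_ne (by omega)]
        exact ih m h
  refine ⟨fun n => G n n, ?_, ?_⟩
  · show G 0 0 = v
    simp [hG]
  · intro n i
    rw [L1_congr M A lam (fun n => G n n) (G n) n (fun k hk => (hA n k hk).symm) i]
    exact hP n n le_rfl i

end IGEX

open IGEX in
theorem pr_GEX (h1 : StDIA) (h2 : StEXT) : StGEX := by
  intro ι _ _ M A hF m γ hγ
  obtain ⟨γ', V, hV, hγ', hCV⟩ := h1 ι M A hF m γ hγ
  have key : ∀ j, ∃ g : ℕ → ι → ℚ, g 0 = (fun i => V i j) ∧
      ∀ n i, L1 M (fun m => qm (A m)) (γ' j) g n i = 0 := by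
    intro j
    refine column M (fun m => qm (A m)) (γ' j) (fun i => V i j) ?_
      (fun g n hg => h2 ι M A hF γ' V hV hCV g (γ' j) n hg)
    intro i
    have h := congrFun (congrFun hCV i) j
    rw [Matrix.mul_diagonal] at h
    rw [L1_apply]
    have h' : (qm (A 0) *ᵥ fun i => V i j) i = V i j * (γ' j : ℚ) := h
    simp only [if_true, zero_add, Finset.sum_range_one, Nat.sub_self]
    rw [h']
    push_cast
    ring
  choose g hg0 hg using key
  refine ⟨γ', fun n => Matrix.of fun i j => g j n i, hγ', ?_, ?_⟩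
  · have : (Matrix.of fun i j => g j 0 i) = V := by
      ext i j
      simp [hg0 j]
    simpa [this] using hV
  · intro n i j
    have h := hg j n i
    have h' : DA M (fun m => qm (A m)) (g j) n i - ((γ' j : ℤ) : ℚ) * g j n i = 0 := h
    have h2 : (fun n i => (Matrix.of fun i j => g j n i) i j) = g j := by
      funext n i
      simp
    rw [h2]
    simp only [Matrix.of_apply]
    linarith

end Pool.Agent.Work.MP_5e5ff1_ag.TH
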