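import Mathlib
import Pool.Agent.Work.MP_5e5ff1_ag.TH.StmtsY

set_option autoImplicit false

/-! # Item GRN of the block TH: growth at the primes not dividing `M`, original matrices -/

open Matrix Filter Topology NumberField
open scoped Polynomial nonZeroDivisors

namespace Pool.Agent.Work.MP_5e5ff1_ag.TH

namespace IGRN

/-- a matrix of algebraic integers as a matrix over `K` -/
abbrev kk {K : Type} [Field K] {r : ℕ} (c : Matrix (Fin r) (Fin r) (𝓞 K)) :
    Matrix (Fin r) (Fin r) K := Matrix.of fun i j => (c i j : K)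

theorem kk_mul {K : Type} [Field K] {r : ℕ} (a b : Matrix (Fin r) (Fin r) (𝓞 K)) :
    kk (a * b) = kk a * kk b :=
  Matrix.map_mul (L := a) (M := b) (f := algebraMap (𝓞 K) K)

theorem kk_diag {K : Type} [Field K] {r : ℕ} (β : Fin r → ℤ) :
    kk (Matrix.diagonal (fun i => ((β i : ℤ) : 𝓞 K))) =
      Matrix.diagonal (fun i => ((β i : ℤ) : K)) := by
  ext i j
  by_cases h : i = j
  · subst h
    simp [kk]
  · simp [kk, h]

theorem kk_nat {K : Type} [Field K] {r : ℕ} (N : ℕ) :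
    kk ((N : 𝓞 K) • (1 : Matrix (Fin r) (Fin r) (𝓞 K))) =
      (N : K) • (1 : Matrix (Fin r) (Fin r) K) := by
  ext i j
  by_cases h : i = j
  · subst h
    simp [kk]
  · simp [kk, h]

section mat

variable {K : Type} [Field K] [NumberField K] {r M N : ℕ} {β : Fin r → ℤ}
  {b c g h : Matrix (Fin r) (Fin r) (𝓞 K)} {U : ℕ → Matrix (Fin r) (Fin r) K}

/-- matrix form of the recursion for `g U` -/
theorem matForm (hN : 0 < N)
    (hgh : g * h = (N : 𝓞 K) • (1 : Matrix (Fin r) (Fin r) (𝓞 K)))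
    (hbg : b * g = g * Matrix.diagonal (fun i => ((β i : ℤ) : 𝓞 K)))
    (hU : IsU (M * N) (fun i => N * β i) (kk (h * c * g)) U) (n : ℕ) :
    ((M : ℚ) * (n : ℚ)) • (kk g * U n) +
      (kk g * U n) * (Matrix.diagonal fun i => ((β i : ℤ) : K)) +
      (-1 : ℚ) • (kk b * (kk g * U n)) + ∑ k ∈ Finset.range n, kk c * (kk g * U k) = 0 := by
  have hN0 : (N : K) ≠ 0 := by exact_mod_cast hN.ne'
  have e1 : (N : K) • (((M : K) * (n : K)) • U n +
      U n * (Matrix.diagonal fun i => ((β i : ℤ) : K)) -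
      (Matrix.diagonal fun i => ((β i : ℤ) : K)) * U n) +
      ∑ k ∈ Finset.range n, kk (h * c * g) * U k = 0 := by
    ext i j
    have h1 := hU.eqn n i j
    simp only [Matrix.add_apply, Matrix.sub_apply, Matrix.smul_apply, Matrix.mul_diagonal,
      Matrix.diagonal_mul, Matrix.sum_apply, Matrix.zero_apply, smul_eq_mul]
    rw [← h1]
    push_cast
    ring
  have e2 := congrArg (fun X => kk g * X) e1
  simp only [mul_add, mul_zero, Matrix.mul_smul, Finset.mul_sum] at e2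
  have e3 : kk g * kk (h * c * g) = (N : K) • (kk c * kk g) := by
    rw [← kk_mul, ← kk_mul, Matrix.mul_assoc h c g, ← Matrix.mul_assoc g h, hgh, kk_mul, kk_nat,
      Matrix.smul_mul, one_mul]
  have e4 : kk b * kk g = kk g * Matrix.diagonal (fun i => ((β i : ℤ) : K)) := by
    rw [← kk_mul, hbg, kk_mul, kk_diag]
  have e5 : ∀ k, kk g * (kk (h * c * g) * U k) = (N : K) • (kk c * (kk g * U k)) := by
    intro k
    rw [← Matrix.mul_assoc, e3, Matrix.smul_mul, Matrix.mul_assoc]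
  simp only [e5] at e2
  rw [← Finset.smul_sum, ← smul_add] at e2
  have e6 := (smul_eq_zero_iff_right hN0).1 e2
  rw [mul_sub, mul_add, Matrix.mul_smul, ← Matrix.mul_assoc (kk g) _ (U n), ← e4,
    ← Matrix.mul_assoc (kk g) (U n), Matrix.mul_assoc (kk b)] at e6
  rw [← e6]
  have e7 : ((M : ℚ) * (n : ℚ)) • (kk g * U n) = ((M : K) * (n : K)) • (kk g * U n) := by
    ext i j
    simp only [Matrix.smul_apply, Algebra.smul_def, map_mul, map_natCast, Algebra.algebraMap_self]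
  rw [e7, neg_smul, one_smul, ← sub_eq_add_neg]

/-- restriction of scalars of the equation -/
theorem isW_of (hRK : StRK) (V : ℕ → Matrix (Fin r) (Fin r) K)
    (hV : ∀ n : ℕ, ((M : ℚ) * (n : ℚ)) • V n +
      V n * (Matrix.diagonal fun i => ((β i : ℤ) : K)) +
      (-1 : ℚ) • (kk b * V n) + ∑ k ∈ Finset.range n, kk c * V k = 0) :
    IsW M (fun x : Fin r × Fin (Module.finrank ℤ (𝓞 K)) => β x.1) (qm (TG.rs K b))
      (qm (TG.rs K c)) (fun n => rsK K (V n)) := by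
  obtain ⟨h1, hmul, hadd, hsmul, -, hc, hd⟩ := hRK K r
  intro n x y
  have hm := hV n
  have hf := congrArg (AddMonoidHom.mk' (rsK K (r := r)) hadd) hm
  rw [map_add, map_add, map_add, map_sum, map_zero] at hf
  simp only [AddMonoidHom.mk'_apply, hsmul, hmul, hc, hd] at hf
  have hxy := congrFun (congrFun hf x) y
  simp only [Matrix.add_apply, Matrix.smul_apply, Matrix.sum_apply, Matrix.zero_apply, db,
    Matrix.mul_diagonal, smul_eq_mul] at hxy
  rw [← hxy]
  ring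

/-- common denominators of rational matrices -/
theorem den {ι : Type} [Fintype ι] (W : ℕ → Matrix ι ι ℚ) (B0 : ℕ) : ∃ d : ℕ, 0 < d ∧
    ∀ k ≤ B0, ∀ i j, ∃ z : ℤ, (d : ℚ) * W k i j = z := by
  classical
  refine ⟨∏ t : Fin (B0 + 1) × ι × ι, (W t.1 t.2.1 t.2.2).den,
    Finset.prod_pos fun t _ => (W t.1 t.2.1 t.2.2).pos, fun k hk i j => ?_⟩
  obtain ⟨q, hq⟩ : (W k i j).den ∣ ∏ t : Fin (B0 + 1) × ι × ι, (W t.1 t.2.1 t.2.2).den :=
    Finset.dvd_prod_of_mem (fun t : Fin (B0 + 1) × ι × ι => (W t.1 t.2.1 t.2.2).den)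
      (Finset.mem_univ ((⟨k, by omega⟩, i, j) : Fin (B0 + 1) × ι × ι))
  refine ⟨(W k i j).num * q, ?_⟩
  rw [hq]
  push_cast
  have h1 := Rat.mul_den_eq_num (W k i j)
  linear_combination (q : ℚ) * h1

theorem nc_eq (K : Type) [Field K] [NumberField K] {r : ℕ} (M : ℕ) (β : Fin r → ℤ) :
    nc M (fun x : Fin r × Fin (Module.finrank ℤ (𝓞 K)) => β x.1) = nc M β := by
  have hpos : 0 < Module.finrank ℤ (𝓞 K) := Module.finrank_pos
  unfold nc
  congr 1
  ext z
  simp only [Finset.mem_image, Finset.mem_univ, true_and, Prod.exists]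
  constructor
  · rintro ⟨i, _, h⟩
    exact ⟨i, h⟩
  · rintro ⟨i, h⟩
    exact ⟨i, ⟨0, hpos⟩, h⟩

theorem norm_pow {p : ℕ} (hp : p.Prime) (e : ℕ) : padicNorm p ((p : ℚ) ^ e) = ((p : ℚ) ^ e)⁻¹ := by
  have : Fact p.Prime := ⟨hp⟩
  induction e with
  | zero => rw [pow_zero, inv_one, padicNorm.one]
  | succ e ih =>
    rw [pow_succ, padicNorm.mul, padicNorm.padicNorm_p hp.one_lt, mul_inv, ih]

/-- the bound for `U` from the bound for `d W` -/
theorem bound (hRK : StRK) {p : ℕ} (hp : p.Prime) (hN : 0 < N)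
    (hhg : h * g = (N : 𝓞 K) • (1 : Matrix (Fin r) (Fin r) (𝓞 K))) (d : ℕ) (hd : 0 < d)
    (e : ℕ → ℕ)
    (hW : ∀ (n : ℕ) (x y : Fin r × Fin (Module.finrank ℤ (𝓞 K))),
      padicNorm p ((d : ℚ) * rsK K (kk g * U n) x y) ≤ (p : ℚ) ^ e n) :
    ∃ v : ℕ, ∀ (n : ℕ) (x y : Fin r × Fin (Module.finrank ℤ (𝓞 K))),
      padicNorm p (rsK K (U n) x y) ≤ (p : ℚ) ^ (v + e n) := by
  have : Fact p.Prime := ⟨hp⟩
  obtain ⟨h1, hmul, hadd, hsmul, -, hc, -⟩ := hRK K r
  obtain ⟨v, m, hm, hv⟩ := Nat.exists_eq_pow_mul_and_not_dvd (Nat.mul_pos hN hd).ne' p hp.ne_one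
  refine ⟨v, fun n x y => ?_⟩
  have hp0 : (0 : ℚ) < (p : ℚ) := by exact_mod_cast hp.pos
  have e1 : rsK K (kk h) * rsK K (kk g * U n) = (N : ℚ) • rsK K (U n) := by
    rw [← hmul, ← Matrix.mul_assoc, ← kk_mul, hhg, kk_nat, Matrix.smul_mul, one_mul, ← hsmul]
    congr 1
    ext i j
    simp [Algebra.smul_def]
  have e2 : ((N * d : ℕ) : ℚ) * rsK K (U n) x y =
      ∑ z, rsK K (kk h) x z * ((d : ℚ) * rsK K (kk g * U n) z y) := by
    have e3 := congrFun (congrFun e1 x) y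
    rw [Matrix.mul_apply, Matrix.smul_apply, smul_eq_mul] at e3
    push_cast
    calc (N : ℚ) * d * rsK K (U n) x y = d * ((N : ℚ) * rsK K (U n) x y) := by ring
      _ = _ := by
        rw [← e3, Finset.mul_sum]
        exact Finset.sum_congr rfl fun z _ => by ring
  have e4 : padicNorm p (((N * d : ℕ) : ℚ) * rsK K (U n) x y) ≤ (p : ℚ) ^ e n := by
    rw [e2]
    refine padicNorm.sum_le' (fun z _ => ?_) (by positivity)
    rw [padicNorm.mul]
    have e5 : padicNorm p (rsK K (kk h) x z) ≤ 1 := by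
      rw [hc h]
      exact padicNorm.of_int _
    calc padicNorm p (rsK K (kk h) x z) * padicNorm p ((d : ℚ) * rsK K (kk g * U n) z y)
        ≤ 1 * padicNorm p ((d : ℚ) * rsK K (kk g * U n) z y) :=
          mul_le_mul_of_nonneg_right e5 (padicNorm.nonneg _)
      _ ≤ _ := by rw [one_mul]; exact hW n z y
  have e6 : padicNorm p (m : ℚ) = 1 := (padicNorm.nat_eq_one_iff m).2 hm
  rw [hv] at e4
  push_cast at e4
  rw [padicNorm.mul, padicNorm.mul, norm_pow hp, e6, mul_one] at e4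
  have e7 : (0 : ℚ) < (p : ℚ) ^ v := by positivity
  calc padicNorm p (rsK K (U n) x y)
      = (p : ℚ) ^ v * (((p : ℚ) ^ v)⁻¹ * padicNorm p (rsK K (U n) x y)) := by
        rw [← mul_assoc, mul_inv_cancel₀ e7.ne', one_mul]
    _ ≤ (p : ℚ) ^ v * (p : ℚ) ^ e n := mul_le_mul_of_nonneg_left e4 e7.le
    _ = (p : ℚ) ^ (v + e n) := by rw [pow_add]

end mat

/-- the growth condition from an exponent function -/
theorem gr_of {ι : Type} {p : ℕ} (hp : p.Prime) (κ : ℝ) (V : ℕ → Matrix ι ι ℚ)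
    (v : ℕ) (f : ℕ → ℕ) (hf : ∀ ε : ℝ, 0 < ε → ∃ N0 : ℕ, ∀ n ≥ N0, f n ≤ ⌈(κ + ε) * n⌉₊)
    (hb : ∀ (n : ℕ) (x y : ι), padicNorm p (V n x y) ≤ (p : ℚ) ^ (v + f n)) : Gr p κ V := by
  intro ε hε
  obtain ⟨N0, hN0⟩ := hf ε hε
  refine ⟨v + ∑ n ∈ Finset.range N0, f n, fun n x y => (hb n x y).trans ?_⟩
  have hp1 : (1 : ℚ) ≤ p := by exact_mod_cast hp.one_lt.le
  refine pow_le_pow_right₀ hp1 ?_
  by_cases hn : n < N0
  · have h1 : f n ≤ ∑ n ∈ Finset.range N0, f n :=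
      Finset.single_le_sum (fun _ _ => Nat.zero_le _) (Finset.mem_range.2 hn)
    omega
  · have h1 := hN0 n (by omega)
    omega

/-- from the logarithmic estimate to the exponents -/
theorem ex_of (p s : ℕ) (hp : p.Prime) (q κ : ℝ) (l : ℕ → ℕ) (hκ : (s : ℝ) * q ≤ κ)
    (hl : ∀ ε > 0, ∃ N0 : ℕ, ∀ N ≥ N0,
      (l N : ℝ) * Real.log p ≤ N * (Real.log p * q) + ε * N) :
    ∀ ε : ℝ, 0 < ε → ∃ N0 : ℕ, ∀ n ≥ N0, s * l n ≤ ⌈(κ + ε) * n⌉₊ := by
  intro ε hε
  have hp1 : (1 : ℝ) < p := by exact_mod_cast hp.one_lt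
  have hlog : 0 < Real.log p := Real.log_pos hp1
  have hs : (0 : ℝ) < (s : ℝ) + 1 := by positivity
  obtain ⟨N0, hN0⟩ := hl (ε * Real.log p / (s + 1)) (by positivity)
  refine ⟨N0, fun n hn => ?_⟩
  have h1 := hN0 n hn
  have h2 : (l n : ℝ) ≤ n * q + ε / (s + 1) * n := by
    have h3 : (l n : ℝ) * Real.log p ≤ (n * q + ε / (s + 1) * n) * Real.log p := by
      refine h1.trans (le_of_eq ?_)
      ring
    exact le_of_mul_le_mul_right h3 hlog
  have h4 : (s : ℝ) * (ε / (s + 1)) ≤ ε := by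
    rw [mul_div_assoc', div_le_iff₀ hs]
    nlinarith
  have hn0 : (0 : ℝ) ≤ n := Nat.cast_nonneg n
  have h5 : ((s * l n : ℕ) : ℝ) ≤ (κ + ε) * n := by
    push_cast
    have h6 : (s : ℝ) * l n ≤ s * (n * q + ε / (s + 1) * n) :=
      mul_le_mul_of_nonneg_left h2 (Nat.cast_nonneg s)
    have h7 : (s : ℝ) * (ε / (s + 1)) * n ≤ ε * n := mul_le_mul_of_nonneg_right h4 hn0
    have h8 : (s : ℝ) * q * n ≤ κ * n := mul_le_mul_of_nonneg_right hκ hn0
    have h9 : (s : ℝ) * (n * q + ε / (s + 1) * n) =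
        (s : ℝ) * q * n + (s : ℝ) * (ε / (s + 1)) * n := by ring
    rw [h9] at h6
    linarith
  have h10 : ((s * l n : ℕ) : ℝ) ≤ (⌈(κ + ε) * n⌉₊ : ℝ) := h5.trans (Nat.le_ceil _)
  exact_mod_cast h10

end IGRN

open IGRN

theorem pr_GRN (hBADN : StBADN) (hGODN : StGODN) (hRK : StRK) (hRKG : StRKG) (hGRM : StGRM)
    (hGRM2 : StGRM2) : StGRN := by
  intro K _ _ r M N β b c g h U hM hN hhg hgh hbg hU p κ hp hpM
  have : Fact p.Prime := ⟨hp⟩
  obtain ⟨hone, hmul, hadd, hsmul, -, -, -⟩ := hRK K r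
  have hW : IsW M (fun x : Fin r × Fin (Module.finrank ℤ (𝓞 K)) => β x.1) (qm (TG.rs K b))
      (qm (TG.rs K c)) (fun n => rsK K (kk g * U n)) :=
    isW_of hRK (fun n => kk g * U n) (matForm hN hgh hbg hU)
  set B0 : ℕ := ∑ i, ∑ j, (β i - β j).natAbs with hB
  have hBb : ∀ i j : Fin r, |β i - β j| ≤ B0 := by
    intro i j
    have h1 : (β i - β j).natAbs ≤ B0 := by
      refine le_trans ?_ (Finset.single_le_sum
        (f := fun i => ∑ j, (β i - β j).natAbs) (fun _ _ => Nat.zero_le _) (Finset.mem_univ i))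
      exact Finset.single_le_sum (f := fun j => (β i - β j).natAbs)
        (fun _ _ => Nat.zero_le _) (Finset.mem_univ j)
    rw [Int.abs_eq_natAbs]
    exact_mod_cast h1
  obtain ⟨d, hd, hdz⟩ := den (fun n => rsK K (kk g * U n)) B0
  have hdW : IsW M (fun x : Fin r × Fin (Module.finrank ℤ (𝓞 K)) => β x.1) (qm (TG.rs K b))
      (qm (TG.rs K c)) (fun n => (d : ℚ) • rsK K (kk g * U n)) := by
    intro n x y
    have h1 := hW n x y
    simp only [Matrix.mul_smul, Matrix.smul_apply, smul_eq_mul, ← Finset.mul_sum]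
    linear_combination (d : ℚ) * h1
  have hdet : ((fun n => (d : ℚ) • rsK K (kk g * U n)) 0).det ≠ 0 := by
    show ((d : ℚ) • rsK K (kk g * U 0)).det ≠ 0
    rw [hU.zero, mul_one, Matrix.det_smul]
    refine mul_ne_zero (pow_ne_zero _ (by exact_mod_cast hd.ne')) ?_
    intro h0
    have h1 : rsK K (kk h) * rsK K (kk g) = (N : ℚ) • 1 := by
      rw [← hmul, ← kk_mul, hhg, kk_nat, ← hone, ← hsmul]
      congr 1
      ext i j
      simp [Algebra.smul_def]
    have h2 := congrArg Matrix.det h1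
    rw [Matrix.det_mul, h0, mul_zero, Matrix.det_smul, Matrix.det_one, mul_one] at h2
    exact pow_ne_zero _ (by exact_mod_cast hN.ne') h2.symm
  have hz : ∀ k ≤ B0, ∀ i j : Fin r × Fin (Module.finrank ℤ (𝓞 K)),
      ∃ z : ℤ, ((fun n => (d : ℚ) • rsK K (kk g * U n)) k) i j = z := by
    intro k hk i j
    obtain ⟨z, hz⟩ := hdz k hk i j
    exact ⟨z, by rw [← hz]; rfl⟩
  constructor
  · intro hκ
    obtain ⟨v, hv⟩ := bound (K := K) (U := U) hRK hp hN hhg d hd
      (fun n => nc M β * LS p M B0 n) (by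
        intro n x y
        have h1 := hBADN p (Fin r × Fin (Module.finrank ℤ (𝓞 K))) M (fun x => β x.1)
          (TG.rs K b) (TG.rs K c) _ hM hpM hdW hdet B0 (fun i j => hBb i.1 j.1) hz n x y
        rw [nc_eq] at h1
        exact h1)
    rw [hRKG K r U p κ hp]
    refine gr_of hp κ _ v _ (ex_of p (nc M β) hp (1 / ((p : ℝ) - 1)) κ (fun n => LS p M B0 n)
      ?_ ?_) hv
    · rw [mul_one_div]
      exact hκ
    · intro ε hε
      obtain ⟨N0, hN0⟩ := hGRM M p B0 1 hM hp ε hε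
      refine ⟨N0, fun n hn => ?_⟩
      have h1 := hN0 n hn
      rw [mul_one_div]
      exact h1
  · intro hPZ hκ
    obtain ⟨v, hv⟩ := bound (K := K) (U := U) hRK hp hN hhg d hd
      (fun n => nc M β * LG p M B0 n) (by
        intro n x y
        have h1 := hGODN p (Fin r × Fin (Module.finrank ℤ (𝓞 K))) M (fun x => β x.1)
          (TG.rs K b) (TG.rs K c) _ hM hpM hPZ hdW hdet B0 (fun i j => hBb i.1 j.1) hz n x y
        rw [nc_eq] at h1
        exact h1)
    rw [hRKG K r U p κ hp]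
    refine gr_of hp κ _ v _ (ex_of p (nc M β) hp (1 / ((p : ℝ) * ((p : ℝ) - 1))) κ
      (fun n => LG p M B0 n) ?_ ?_) hv
    · rw [mul_one_div]
      exact hκ
    · intro ε hε
      obtain ⟨N0, hN0⟩ := hGRM2 M p B0 1 hM hp ε hε
      refine ⟨N0, fun n hn => ?_⟩
      have h1 := hN0 n hn
      have h2 : LGJ p M B0 1 n = LG p M B0 n := by
        simp only [LGJ, LG, one_mul]
      rw [mul_one_div, ← h2]
      exact h1

end Pool.Agent.Work.MP_5e5ff1_ag.TH
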