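import Mathlib
import Pool.Agent.Work.MP_5e5ff1_ag.TH.StmtsK

set_option autoImplicit false

/-!
# MP_5e5ff1_ag, block TH, item KEI: the eigenvalues are integers
-/

open Matrix Filter Topology
open scoped Polynomial

namespace Pool.Agent.Work.MP_5e5ff1_ag.TH

namespace IKEI

/-- a monic factor of the characteristic polynomial of a matrix with `C^p = C` over `ZMod p`
splits -/
theorem splits_of_pow (p : ℕ) [Fact p.Prime] {ι : Type} [Fintype ι] [DecidableEq ι]
    (C : Matrix ι ι (ZMod p)) (hC : C ^ p = C) (g : (ZMod p)[X]) (hg : g ∣ C.charpoly) :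
    g.Splits := by
  have key : C.charpoly.Splits := by
    apply Polynomial.Splits.of_splits_map (algebraMap (ZMod p) (AlgebraicClosure (ZMod p)))
      (IsAlgClosed.splits _)
    intro a ha
    have ha' : Polynomial.IsRoot (C.charpoly.map
        (algebraMap (ZMod p) (AlgebraicClosure (ZMod p)))) a := Polynomial.isRoot_of_mem_roots ha
    rw [← Matrix.charpoly_map] at ha'
    have hs := Matrix.mem_spectrum_iff_isRoot_charpoly.2 ha'
    have h2 := spectrum.subset_polynomial_aeval
      (C.map (algebraMap (ZMod p) (AlgebraicClosure (ZMod p))))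
      (Polynomial.X ^ p - Polynomial.X : (AlgebraicClosure (ZMod p))[X])
      ⟨a, hs, rfl⟩
    have h3 : Polynomial.aeval (C.map (algebraMap (ZMod p) (AlgebraicClosure (ZMod p))))
      (Polynomial.X ^ p - Polynomial.X : (AlgebraicClosure (ZMod p))[X]) = 0 := by
      rw [map_sub, map_pow, Polynomial.aeval_X, sub_eq_zero]
      have := congrArg (fun D : Matrix ι ι (ZMod p) =>
        D.map (algebraMap (ZMod p) (AlgebraicClosure (ZMod p)))) hC
      rw [← Matrix.map_pow]
      exact this
    rw [h3] at h2
    have h4 : Polynomial.eval a (Polynomial.X ^ p - Polynomial.X : (AlgebraicClosure (ZMod p))[X]) = 0 := by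
      by_contra hne
      rw [spectrum.mem_iff] at h2
      apply h2
      simp only [sub_zero]
      exact (IsUnit.mk0 _ hne).map (algebraMap (AlgebraicClosure (ZMod p)) _)
    have hsp : (Polynomial.X ^ p - Polynomial.X : (ZMod p)[X]).Splits := by
      have := FiniteField.splits_X_pow_card_sub_X (p := p) (K := ZMod p)
      simpa [ZMod.card] using this
    have hne : (Polynomial.X ^ p - Polynomial.X : (ZMod p)[X]) ≠ 0 :=
      FiniteField.X_pow_card_sub_X_ne_zero _ (Fact.out : p.Prime).one_lt
    apply hsp.mem_range_of_isRoot hne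
    rw [Polynomial.IsRoot, Polynomial.map_sub, Polynomial.map_pow, Polynomial.map_X]
    exact h4
  exact key.of_dvd C.charpoly_monic.ne_zero hg

/-- factorisation of a monic integral polynomial whose irreducible factors are linear -/
theorem factor (n : ℕ) : ∀ f : ℤ[X], f.Monic → f.natDegree ≤ n →
    (∀ g : ℤ[X], g.Monic → Irreducible g → g ∣ f → g.natDegree = 1) →
    ∃ (m : ℕ) (γ : Fin m → ℤ), f = ∏ j, (Polynomial.X - Polynomial.C (γ j)) := by
  induction n with
  | zero =>
    intro f hf hd _
    refine ⟨0, Fin.elim0, ?_⟩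
    rw [Finset.univ_eq_empty, Finset.prod_empty]
    exact hf.natDegree_eq_zero.1 (by omega)
  | succ n ih =>
    intro f hf hd hirr
    by_cases h0 : f.natDegree = 0
    · refine ⟨0, Fin.elim0, ?_⟩
      rw [Finset.univ_eq_empty, Finset.prod_empty]
      exact hf.natDegree_eq_zero.1 h0
    · have hnu : ¬ IsUnit f := by
        intro hu
        apply h0
        exact Polynomial.natDegree_eq_zero_of_isUnit hu
      obtain ⟨g, hg, h, hgh⟩ := WfDvdMonoid.exists_irreducible_factor hnu hf.ne_zero
      -- make g monic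
      have hlc : g.leadingCoeff * h.leadingCoeff = 1 := by
        rw [← Polynomial.leadingCoeff_mul, ← hgh]
        exact hf
      obtain ⟨g1, h1, hg1, hi1, hgh1⟩ : ∃ g1 h1 : ℤ[X], g1.Monic ∧ Irreducible g1 ∧ f = g1 * h1 := by
        rcases Int.isUnit_iff.1 (IsUnit.of_mul_eq_one _ hlc) with hl | hl
        · exact ⟨g, h, hl, hg, hgh⟩
        · refine ⟨-g, -h, ?_, ?_, by rw [hgh]; ring⟩
          · rw [Polynomial.Monic, Polynomial.leadingCoeff_neg, hl]; norm_num
          · exact (Associated.irreducible_iff (Associated.neg_right (Associated.refl g))).1 hg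
      have hd1 := hirr g1 hg1 hi1 ⟨h1, hgh1⟩
      have hh1 : h1.Monic := by
        rw [hgh1] at hf
        exact hg1.of_mul_monic_left hf
      have hdh : h1.natDegree ≤ n := by
        have := hg1.natDegree_mul hh1
        rw [← hgh1, hd1] at this
        omega
      obtain ⟨m, γ, hγ⟩ := ih h1 hh1 hdh (fun g' a b c => hirr g' a b (c.trans ⟨g1, by rw [hgh1]; ring⟩))
      refine ⟨m + 1, Fin.cons (-(g1.coeff 0)) γ, ?_⟩
      rw [Fin.prod_univ_succ]
      simp only [Fin.cons_zero, Fin.cons_succ]
      rw [← hγ, hgh1]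
      congr 1
      have := hg1.eq_X_add_C hd1
      rw [this]
      simp

end IKEI

open IKEI in
theorem pr_KEI (hKRO : StKRO) : StKEI := by
  intro ι _ _ C S N0 c hS hC
  obtain ⟨m, γ, hγ⟩ := factor C.charpoly.natDegree C.charpoly C.charpoly_monic le_rfl (by
    intro g hg hi hd
    apply hKRO g S N0 c hg hi hS
    intro p hp hN hpS
    have : Fact p.Prime := ⟨hp⟩
    have h1 := splits_of_pow p (pm p C) (hC p hp hN hpS) (g.map (Int.castRingHom (ZMod p))) (by
      rw [Matrix.charpoly_map]
      exact Polynomial.map_dvd _ hd)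
    exact ⟨_, h1.eq_prod_roots_of_monic (hg.map _)⟩)
  refine ⟨m, γ, ?_, ?_⟩
  · rw [← hγ]
    exact Matrix.aeval_self_charpoly C
  · intro j
    have h0 : C.charpoly.eval (γ j) = 0 := by
      rw [hγ, Polynomial.eval_prod]
      apply Finset.prod_eq_zero (Finset.mem_univ j)
      simp
    rw [Matrix.eval_charpoly] at h0
    obtain ⟨v, hv, hv2⟩ := Matrix.exists_mulVec_eq_zero_iff.2 h0
    refine ⟨v, hv, ?_⟩
    rw [Matrix.sub_mulVec, sub_eq_zero] at hv2
    rw [← hv2]
    simp

end Pool.Agent.Work.MP_5e5ff1_ag.TH
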