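import Mathlib
import Pool.Agent.Work.MP_5e5ff1_ag.TH.StmtsA

/-!
# Item LIS: the exponents for lists
-/

set_option autoImplicit false

namespace Pool.Agent.Work.MP_5e5ff1_ag.TH

namespace ILIS

lemma list_div (c d : ℕ) (l : List ℕ) :
    (l.map (fun n => (n + c) / d + 1)).sum ≤ (l.sum + l.length * c) / d + l.length := by
  induction l with
  | nil => simp
  | cons a l ih =>
    simp only [List.map_cons, List.sum_cons, List.length_cons]
    have h1 := Nat.add_div_le_add_div (a + c) (l.sum + l.length * c) d
    have h2 : a + c + (l.sum + l.length * c) = a + l.sum + (l.length + 1) * c := by ring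
    rw [h2] at h1
    omega

lemma list_sum_comm (I : Finset ℕ) (g : ℕ → ℕ → ℕ) (l : List ℕ) :
    (l.map (fun n => ∑ q ∈ I, g n q)).sum = ∑ q ∈ I, (l.map (fun n => g n q)).sum := by
  induction l with
  | nil => simp
  | cons a l ih =>
    simp only [List.map_cons, List.sum_cons, Finset.sum_add_distrib]
    rw [ih]

lemma list_le_sum {l : List ℕ} {n : ℕ} (h : n ∈ l) : n ≤ l.sum := by
  induction l with
  | nil => simp at h
  | cons a l ih =>
    rw [List.sum_cons]
    rcases List.mem_cons.1 h with h | h
    · omega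
    · have := ih h
      omega

lemma list_map_le (F G : ℕ → ℕ) (l : List ℕ) (h : ∀ n ∈ l, F n ≤ G n) :
    (l.map F).sum ≤ (l.map G).sum := by
  induction l with
  | nil => simp
  | cons a l ih =>
    simp only [List.map_cons, List.sum_cons]
    have h1 := h a List.mem_cons_self
    have h2 := ih fun n hn => h n (List.mem_cons_of_mem _ hn)
    omega

lemma core (p c a J N : ℕ) (u : ℕ → ℕ) (hu : Monotone u) (l : List ℕ) (hl : l.length ≤ J)
    (hs : l.sum ≤ N) :
    (l.map (fun n => ∑ q ∈ Finset.Icc a (u n), ((n + c) / p ^ q + 1))).sum ≤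
      ∑ q ∈ Finset.Icc a (u N), ((N + J * c) / p ^ q + J) := by
  have h1 := list_map_le (fun n => ∑ q ∈ Finset.Icc a (u n), ((n + c) / p ^ q + 1))
    (fun n => ∑ q ∈ Finset.Icc a (u N), ((n + c) / p ^ q + 1)) l (by
      intro n hn
      refine Finset.sum_le_sum_of_subset ?_
      exact Finset.Icc_subset_Icc le_rfl (hu ((list_le_sum hn).trans hs)))
  refine h1.trans ?_
  rw [list_sum_comm]
  refine Finset.sum_le_sum fun q _ => ?_
  refine (list_div c (p ^ q) l).trans ?_
  refine Nat.add_le_add ?_ hl
  exact Nat.div_le_div_right (Nat.add_le_add hs (Nat.mul_le_mul_right _ hl))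

end ILIS

/-- Item LIS. -/
theorem pr_LIS : StLIS := by
  intro p M B J N hp l hl hs
  refine ⟨?_, ?_⟩
  · have h := ILIS.core p 0 1 J N (fun n => Nat.log p (M * n + B))
      (fun a b hab => Nat.log_mono_right (Nat.add_le_add_right (Nat.mul_le_mul_left M hab) B))
      l hl hs
    simp only [add_zero, mul_zero] at h
    exact h
  · exact ILIS.core p p 2 J N (fun n => Nat.log p (M * (n + p) + B))
      (fun a b hab => Nat.log_mono_right (Nat.add_le_add_right
        (Nat.mul_le_mul_left M (Nat.add_le_add_right hab p)) B)) l hl hs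

end Pool.Agent.Work.MP_5e5ff1_ag.TH
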