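import Mathlib
import Pool.Agent.Work.MP_5e5ff1_ag.TH.StmtsB

set_option autoImplicit false

/-!
# Item M20 of the block TH: the map of type (2, cusp, cusp)
-/

open Filter Topology

namespace Pool.Agent.Work.MP_5e5ff1_ag.TH

theorem pr_M20 : StM20 := by
  rintro D ⟨g, hg, hz, hD⟩
  have hid : DifferentiableOn ℂ (fun z : ℂ => z) (Metric.ball 0 1) := differentiableOn_id
  have hx : DifferentiableOn ℂ (fun z : ℂ => (z * g z) ^ 2) (Metric.ball 0 1) :=
    (hid.mul hg).pow 2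
  refine ⟨4, fun z => g z ^ 4, fun z => 4 * ((z * g z) ^ 2 - 1),
    fun z => (z * g z) ^ 2 - 2, ?_⟩
  refine ⟨?_, ?_, ?_, by norm_num, ?_, ?_, ?_, ?_, ?_, ?_⟩
  · exact hg.pow 4
  · exact (hx.sub_const 1).const_mul 4
  · exact hx.sub_const 2
  · intro z hzb
    exact pow_ne_zero 4 (hz z hzb).1
  · intro z _
    have e2 : e1 2 = 2 := rfl
    have e0 : e1 0 = 1 := rfl
    rw [e2, e0]
    ring
  · intro _ z hzb
    obtain ⟨-, h2, h3⟩ := hz z hzb
    have h4 : (z * g z) ^ 2 - 1 ≠ 0 := by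
      intro h
      have h5 : (z * g z - 1) * (z * g z + 1) = 0 := by linear_combination h
      rcases mul_eq_zero.1 h5 with h6 | h6
      · exact h2 (sub_eq_zero.1 h6)
      · exact h3 (eq_neg_of_add_eq_zero_left h6)
    exact mul_ne_zero (by norm_num) h4
  · intro h
    exact absurd h (by norm_num)
  · norm_num
  · have e0 : e1 0 = 1 := rfl
    rw [e0, pow_one]
    have h1 : ‖g 0 ^ 4‖ = D ^ 4 := by rw [norm_pow, hD]
    have h2 : ‖(4 : ℂ) * (((0 : ℂ) * g 0) ^ 2 - 1)‖ = 4 := by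
      rw [zero_mul, zero_pow (by norm_num), zero_sub, norm_mul, norm_neg]
      norm_num
    rw [h1, h2]

end Pool.Agent.Work.MP_5e5ff1_ag.TH
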