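import Mathlib
import Pool.Agent.Work.MP_5e5ff1_ag.TH.StmtsA

set_option autoImplicit false

/-!
# MP_5e5ff1_ag, block TH, item MOD: primes dividing `M`
-/

open Matrix Filter Topology
open scoped Polynomial

namespace Pool.Agent.Work.MP_5e5ff1_ag.TH

namespace IMOD

/-- inverse of the norm of an integer -/
theorem inv_norm (p : ℕ) [Fact p.Prime] {z : ℤ} (hz : z ≠ 0) :
    (padicNorm p (z : ℚ))⁻¹ = (p : ℚ) ^ (padicValInt p z) := by
  have hz' : (z : ℚ) ≠ 0 := by exact_mod_cast hz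
  rw [padicNorm.eq_zpow_of_nonzero hz', padicValRat.of_int, _root_.zpow_neg, inv_inv,
    _root_.zpow_natCast]

theorem one_le_inv (p : ℕ) [Fact p.Prime] {z : ℤ} (hz : z ≠ 0) :
    (1 : ℚ) ≤ (padicNorm p (z : ℚ))⁻¹ := by
  rw [inv_norm p hz]
  have hp : (1 : ℚ) ≤ p := by exact_mod_cast (Fact.out : p.Prime).one_le
  exact one_le_pow₀ hp

theorem norm_pow (p : ℕ) [hp : Fact p.Prime] (k : ℕ) :
    padicNorm p ((p : ℚ) ^ k) = ((p : ℚ) ^ k)⁻¹ := by
  induction k with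
  | zero => simp
  | succ k ih => rw [pow_succ, padicNorm.mul, ih, padicNorm.padicNorm_p_of_prime, mul_inv]

/-- the bounding function -/
noncomputable def g (p k M' : ℕ) (T : Finset ℤ) (δ : ℤ → ℤ) (n : ℕ) : ℚ :=
  (p : ℚ) ^ (k * n) *
    ∏ c ∈ T, ∏ m ∈ Finset.Icc 1 n, (padicNorm p (((M' : ℤ) * (m : ℤ) + δ c : ℤ) : ℚ))⁻¹

theorem g_succ (p k M' : ℕ) (T : Finset ℤ) (δ : ℤ → ℤ) (n : ℕ) :
    g p k M' T δ (n + 1) = g p k M' T δ n * ((p : ℚ) ^ k *
      ∏ c ∈ T, (padicNorm p (((M' : ℤ) * ((n + 1 : ℕ) : ℤ) + δ c : ℤ) : ℚ))⁻¹) := by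
  unfold g
  have e : ∏ c ∈ T, ∏ m ∈ Finset.Icc 1 (n + 1),
      (padicNorm p (((M' : ℤ) * (m : ℤ) + δ c : ℤ) : ℚ))⁻¹ =
      (∏ c ∈ T, ∏ m ∈ Finset.Icc 1 n, (padicNorm p (((M' : ℤ) * (m : ℤ) + δ c : ℤ) : ℚ))⁻¹) *
      ∏ c ∈ T, (padicNorm p (((M' : ℤ) * ((n + 1 : ℕ) : ℤ) + δ c : ℤ) : ℚ))⁻¹ := by
    rw [← Finset.prod_mul_distrib]
    refine Finset.prod_congr rfl fun c _ => ?_
    rw [Finset.prod_Icc_succ_top (Nat.le_add_left 1 n)]
  rw [e, Nat.mul_succ, pow_add]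
  ring

theorem one_le_prod (p M' : ℕ) [Fact p.Prime] (T : Finset ℤ) (δ : ℤ → ℤ) (n : ℕ)
    (h : ∀ c ∈ T, (M' : ℤ) * ((n + 1 : ℕ) : ℤ) + δ c ≠ 0) :
    1 ≤ ∏ c ∈ T, (padicNorm p (((M' : ℤ) * ((n + 1 : ℕ) : ℤ) + δ c : ℤ) : ℚ))⁻¹ := by
  classical
  induction T using Finset.induction_on with
  | empty => rw [Finset.prod_empty]
  | insert a s ha ih =>
    rw [Finset.prod_insert ha]
    exact one_le_mul_of_one_le_of_one_le (one_le_inv p (h a (Finset.mem_insert_self a s)))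
      (ih fun c hc => h c (Finset.mem_insert_of_mem hc))

end IMOD

open IMOD in
/-- **item MOD**: primes dividing `M`. -/
theorem pr_MOD (hU : StUREC) (hC : StCN1) : StMOD := by
  intro p hp ι _ _ M β C U hM hIs hβ B hB n i j
  classical
  have hpp : p.Prime := hp.out
  have hp0 : (0 : ℚ) < p := by exact_mod_cast hpp.pos
  have hp1 : (1 : ℚ) ≤ p := by exact_mod_cast hpp.one_le
  obtain ⟨k, hk⟩ : ∃ k, k = M.factorization p := ⟨_, rfl⟩
  obtain ⟨M', hM'⟩ : ∃ M', M' = M / p ^ k := ⟨_, rfl⟩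
  have hMM : M = p ^ k * M' := by
    rw [hM', hk]
    exact (Nat.ordProj_mul_ordCompl_eq_self M p).symm
  have hMz : (M : ℤ) = (p : ℤ) ^ k * (M' : ℤ) := by
    have := congrArg (Nat.cast : ℕ → ℤ) hMM
    push_cast at this
    exact this
  have hpM' : ¬ p ∣ M' := by
    rw [hM', hk]
    exact Nat.not_dvd_ordCompl hpp hM.ne'
  have hM'M : M' ≤ M := by
    rw [hM']
    exact Nat.div_le_self _ _
  rw [← hk]
  set T : Finset ℤ := (Finset.univ.image β).filter fun c => (p : ℤ) ^ k ∣ c - β j with hT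
  have hTc : T.card ≤ spc p M β := by
    unfold spc
    rw [← hk]
    exact Finset.le_sup (f := fun i => ((Finset.univ.image β).filter fun c =>
      (p : ℤ) ^ k ∣ c - β i).card) (Finset.mem_univ j)
  set δ : ℤ → ℤ := fun c => (β j - c) / (p : ℤ) ^ k with hδ
  have hδT : ∀ c ∈ T, β j - c = (p : ℤ) ^ k * δ c := by
    intro c hc
    have h1 : (p : ℤ) ^ k ∣ c - β j := (Finset.mem_filter.1 hc).2
    have h2 : (p : ℤ) ^ k ∣ β j - c := (dvd_sub_comm).1 h1
    exact (Int.mul_ediv_cancel' h2).symm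
  have hfac : ∀ (m : ℤ), ∀ c ∈ T, (M : ℤ) * m + (β j - c) =
      (p : ℤ) ^ k * ((M' : ℤ) * m + δ c) := by
    intro m c hc
    rw [hδT c hc, hMz]
    ring
  have hpk : (1 : ℤ) ≤ (p : ℤ) ^ k := by
    have : (1 : ℤ) ≤ (p : ℤ) := by exact_mod_cast hpp.one_le
    exact one_le_pow₀ this
  have hMpos : (0 : ℤ) < M := by exact_mod_cast hM
  have hne : ∀ m : ℕ, 1 ≤ m → ∀ c ∈ T, (M' : ℤ) * (m : ℤ) + δ c ≠ 0 := by
    intro m hm c hc h0
    have h1 := hfac (m : ℤ) c hc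
    rw [h0, mul_zero] at h1
    obtain ⟨i', -, rfl⟩ := Finset.mem_image.1 (Finset.mem_filter.1 hc).1
    have e1 : β i' = β j := hβ i' j ⟨m, by linarith⟩
    rw [e1] at h1
    have hm' : (0 : ℤ) < m := by exact_mod_cast hm
    have := mul_pos hMpos hm'
    linarith
  have hg0 : ∀ n, 0 < g p k M' T δ n := by
    intro n
    unfold g
    refine mul_pos (pow_pos hp0 _) (Finset.prod_pos fun c hc => Finset.prod_pos fun m hm => ?_)
    have := one_le_inv p (hne m (Finset.mem_Icc.1 hm).1 c hc)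
    linarith
  have hstep1 : ∀ n, g p k M' T δ n ≤ g p k M' T δ (n + 1) := by
    intro n
    rw [g_succ]
    exact le_mul_of_one_le_right (hg0 n).le (one_le_mul_of_one_le_of_one_le (one_le_pow₀ hp1)
      (one_le_prod p M' T δ n fun c hc => hne (n + 1) (Nat.le_add_left 1 n) c hc))
  have hkey := hU p ι M β C U hIs j (g p k M' T δ) (by unfold g; simp)
    (monotone_nat_of_le_succ hstep1) (fun n i => by
      have e0 : ((M : ℚ) * ((n : ℚ) + 1) + ((β j : ℚ) - (β i : ℚ))) =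
          (((M : ℤ) * ((n + 1 : ℕ) : ℤ) + (β j - β i) : ℤ) : ℚ) := by
        push_cast
        ring
      rw [e0, g_succ]
      by_cases hi : β i ∈ T
      · have hz := hne (n + 1) (Nat.le_add_left 1 n) (β i) hi
        have e3 : padicNorm p (((M' : ℤ) * ((n + 1 : ℕ) : ℤ) + δ (β i) : ℤ) : ℚ) ≠ 0 :=
          padicNorm.nonzero (by exact_mod_cast hz)
        have e2 : padicNorm p (((p : ℤ) ^ k : ℤ) : ℚ) = ((p : ℚ) ^ k)⁻¹ := by
          push_cast
          exact norm_pow p k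
        rw [hfac _ _ hi, Int.cast_mul, padicNorm.mul, e2, ← Finset.mul_prod_erase T _ hi]
        have e4 : ((p : ℚ) ^ k)⁻¹ *
            padicNorm p (((M' : ℤ) * ((n + 1 : ℕ) : ℤ) + δ (β i) : ℤ) : ℚ) *
            (g p k M' T δ n * ((p : ℚ) ^ k *
            ((padicNorm p (((M' : ℤ) * ((n + 1 : ℕ) : ℤ) + δ (β i) : ℤ) : ℚ))⁻¹ *
            ∏ c ∈ T.erase (β i),
              (padicNorm p (((M' : ℤ) * ((n + 1 : ℕ) : ℤ) + δ c : ℤ) : ℚ))⁻¹))) =
            g p k M' T δ n * ∏ c ∈ T.erase (β i),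
              (padicNorm p (((M' : ℤ) * ((n + 1 : ℕ) : ℤ) + δ c : ℤ) : ℚ))⁻¹ := by
          have hpk0 : ((p : ℚ) ^ k) ≠ 0 := (pow_pos hp0 k).ne'
          field_simp
        rw [e4]
        exact le_mul_of_one_le_right (hg0 n).le (one_le_prod p M' (T.erase (β i)) δ n
          fun c hc => hne (n + 1) (Nat.le_add_left 1 n) c (Finset.mem_of_mem_erase hc))
      · have hnd : ¬ ((p ^ k : ℕ) : ℤ) ∣ ((M : ℤ) * ((n + 1 : ℕ) : ℤ) + (β j - β i)) := by
          intro hd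
          apply hi
          rw [hT, Finset.mem_filter]
          refine ⟨Finset.mem_image_of_mem β (Finset.mem_univ i), ?_⟩
          push_cast at hd
          have h1 : (p : ℤ) ^ k ∣ (M : ℤ) * ((n : ℤ) + 1) := by
            rw [hMz, mul_assoc]
            exact dvd_mul_right _ _
          have h2 : (p : ℤ) ^ k ∣ β j - β i := (dvd_add_right h1).1 hd
          exact (dvd_sub_comm).1 h2
        have h9 : ¬ padicNorm p (((M : ℤ) * ((n + 1 : ℕ) : ℤ) + (β j - β i) : ℤ) : ℚ) ≤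
            (p : ℚ) ^ (-(k : ℕ) : ℤ) := fun hh => hnd (padicNorm.dvd_iff_norm_le.mpr hh)
        have h10 := not_le.mp h9
        rw [_root_.zpow_neg, _root_.zpow_natCast] at h10
        have h11 : 1 ≤ padicNorm p (((M : ℤ) * ((n + 1 : ℕ) : ℤ) + (β j - β i) : ℤ) : ℚ) *
            (p : ℚ) ^ k := by
          have h12 := mul_le_mul_of_nonneg_right h10.le (pow_pos hp0 k).le
          rwa [inv_mul_cancel₀ (pow_pos hp0 k).ne'] at h12
        have h13 := one_le_prod p M' T δ n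
          (fun c hc => hne (n + 1) (Nat.le_add_left 1 n) c hc)
        have e5 : padicNorm p (((M : ℤ) * ((n + 1 : ℕ) : ℤ) + (β j - β i) : ℤ) : ℚ) *
            (g p k M' T δ n * ((p : ℚ) ^ k *
            ∏ c ∈ T, (padicNorm p (((M' : ℤ) * ((n + 1 : ℕ) : ℤ) + δ c : ℤ) : ℚ))⁻¹)) =
            g p k M' T δ n *
            ((padicNorm p (((M : ℤ) * ((n + 1 : ℕ) : ℤ) + (β j - β i) : ℤ) : ℚ) * (p : ℚ) ^ k) *
            ∏ c ∈ T, (padicNorm p (((M' : ℤ) * ((n + 1 : ℕ) : ℤ) + δ c : ℤ) : ℚ))⁻¹) := by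
          ring
        rw [e5]
        exact le_mul_of_one_le_right (hg0 n).le (one_le_mul_of_one_le_of_one_le h11 h13)) n i
  refine hkey.trans ?_
  have e5 : g p k M' T δ n = (p : ℚ) ^ (k * n + ∑ c ∈ T, ∑ m ∈ Finset.Icc 1 n,
      padicValInt p ((M' : ℤ) * (m : ℤ) + δ c)) := by
    unfold g
    rw [pow_add, ← Finset.prod_pow_eq_pow_sum]
    congr 1
    refine Finset.prod_congr rfl fun c hc => ?_
    rw [← Finset.prod_pow_eq_pow_sum]
    exact Finset.prod_congr rfl fun m hm => inv_norm p (hne m (Finset.mem_Icc.1 hm).1 c hc)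
  rw [e5]
  refine pow_le_pow_right₀ hp1 (Nat.add_le_add_left ?_ _)
  calc ∑ c ∈ T, ∑ m ∈ Finset.Icc 1 n, padicValInt p ((M' : ℤ) * (m : ℤ) + δ c)
      ≤ ∑ _c ∈ T, LS p M B n := Finset.sum_le_sum fun c hc => by
        refine hC p M' M hpp hpM' hM'M B n (δ c) ?_ (fun m hm => hne m hm c hc)
        have h1 : |β j - c| ≤ B := by
          obtain ⟨i', -, rfl⟩ := Finset.mem_image.1 (Finset.mem_filter.1 hc).1
          exact hB j i'
        rw [hδT c hc, abs_mul, abs_of_pos (lt_of_lt_of_le zero_lt_one hpk)] at h1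
        have h2 : |δ c| ≤ (p : ℤ) ^ k * |δ c| := le_mul_of_one_le_left (abs_nonneg _) hpk
        exact h2.trans h1
    _ = T.card * LS p M B n := by rw [Finset.sum_const, smul_eq_mul]
    _ ≤ spc p M β * LS p M B n := Nat.mul_le_mul_right _ hTc

end Pool.Agent.Work.MP_5e5ff1_ag.TH
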