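import Mathlib
import Pool.Agent.Work.MP_5e5ff1_ag.TH.StmtsV

set_option autoImplicit false

/-! Block TH, item MPW: the maps. -/

open Filter Topology
open scoped Polynomial

namespace Pool.Agent.Work.MP_5e5ff1_ag.TH

namespace IMPW

theorem dbl (hMT : StMapT) (hD : StDBLW) (a b : ℕ) (R : ℝ) (hty : Typ a b R) (R' : ℝ)
    (hR : R' < 4 * R) : ∃ (m : ℕ) (g A w h : ℂ → ℂ), IsMapW a 2 (2 * b) R' m g A w h := by
  obtain ⟨m, g, A, w, h⟩ := hMT a b R hty (R' / 4) (by linarith)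
  obtain ⟨g', A', w', h', hW⟩ := hD a b _ m g A w h
  have e : 4 * (R' / 4) = R' := by ring
  rw [e] at hW
  exact ⟨m, g', A', w', h', hW⟩

theorem tri (hMT : StMapT) (hT : StTRIW) (a : ℕ) (ha : 0 < a) (R : ℝ) (hty : Typ a 2 R) (R' : ℝ)
    (hR : R' < 27 * R) : ∃ (m : ℕ) (g A w h : ℂ → ℂ), IsMapW (2 * a) 3 2 R' m g A w h := by
  obtain ⟨m, g, A, w, h⟩ := hMT a 2 R hty (R' / 27) (by linarith)
  obtain ⟨g', A', w', h', hW⟩ := hT a 1 _ m g A w ha one_pos h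
  have e : 27 * (R' / 27) = R' := by ring
  rw [e] at hW
  exact ⟨m, g', A', w', h', hW⟩

theorem sq3 : Real.sqrt 3 * Real.sqrt 3 = 3 := Real.mul_self_sqrt (by norm_num)

theorem oct (hMT : StMapT) (hO : StOCTW) (R' : ℝ) (hR : R' < 27648) :
    ∃ (m : ℕ) (g A w h : ℂ → ℂ), IsMapW 7 2 3 R' m g A w h := by
  have h3 : 0 < Real.sqrt 3 := by positivity
  have hlt : R' / (192 * Real.sqrt 3) < 48 * Real.sqrt 3 := by
    rw [div_lt_iff₀ (by positivity)]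
    calc R' < 27648 := hR
      _ = 48 * 192 * (Real.sqrt 3 * Real.sqrt 3) := by rw [sq3]; norm_num
      _ = 48 * Real.sqrt 3 * (192 * Real.sqrt 3) := by ring
  obtain ⟨m, g, A, w, h⟩ := hMT 3 3 (48 * Real.sqrt 3) (Or.inr (Or.inr (Or.inr (Or.inr (Or.inr
    (Or.inr (Or.inr (Or.inr (Or.inl ⟨rfl, rfl, rfl⟩))))))))) (R' / (192 * Real.sqrt 3)) hlt
  obtain ⟨g', A', w', h', hW⟩ := hO _ m g A w h
  have e : 192 * Real.sqrt 3 * (R' / (192 * Real.sqrt 3)) = R' := by field_simp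
  rw [e] at hW
  exact ⟨m, g', A', w', h', hW⟩

theorem qua (hMT : StMapT) (hQ : StQUAW) (R' : ℝ) (hR : R' < 3072 * Real.sqrt 3) :
    ∃ (m : ℕ) (g A w h : ℂ → ℂ), IsMapW 9 2 3 R' m g A w h := by
  obtain ⟨m, g, A, w, h⟩ := hMT 3 3 (48 * Real.sqrt 3) (Or.inr (Or.inr (Or.inr (Or.inr (Or.inr
    (Or.inr (Or.inr (Or.inr (Or.inl ⟨rfl, rfl, rfl⟩))))))))) (R' / 64) (by linarith)
  obtain ⟨g', A', w', h', hW⟩ := hQ 3 _ m g A w (by norm_num) h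
  have e : 64 * (R' / 64) = R' := by ring
  rw [e] at hW
  exact ⟨m, g', A', w', h', hW⟩

theorem hexa (hMT : StMapT) (hH : StHEXW) (R' : ℝ) (hR : R' < 1024) :
    ∃ (m : ℕ) (g A w h : ℂ → ℂ), IsMapW 5 2 4 R' m g A w h := by
  obtain ⟨m, g, A, w, h⟩ := hMT 4 4 32 (Or.inl ⟨rfl, rfl, rfl⟩) (R' / 32) (by linarith)
  obtain ⟨g', A', w', h', hW⟩ := hH _ m g A w h
  have e : 32 * (R' / 32) = R' := by ring
  rw [e] at hW
  exact ⟨m, g', A', w', h', hW⟩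

theorem trj (hMT : StMapT) (hJ : StTRJW) (a : ℕ) (ha : 0 < a) (R : ℝ) (hty : Typ a a R) (R' : ℝ)
    (hR : R' < 3 * Real.sqrt 3 * R) : ∃ (m : ℕ) (g A w h : ℂ → ℂ), IsMapW a 3 3 R' m g A w h := by
  have hlt : R' / (3 * Real.sqrt 3) < R := by
    rw [div_lt_iff₀ (by positivity)]
    linarith
  obtain ⟨m, g, A, w, h⟩ := hMT a a R hty (R' / (3 * Real.sqrt 3)) hlt
  obtain ⟨g', A', w', h', hW⟩ := hJ a _ m g A w ha h
  have e : 3 * Real.sqrt 3 * (R' / (3 * Real.sqrt 3)) = R' := by field_simp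
  rw [e] at hW
  exact ⟨m, g', A', w', h', hW⟩

theorem typE (hMT : StMapT) (hD : StDBLW) (hT : StTRIW) (hQ : StQUAW) (hJ : StTRJW)
    (hH : StHEXW) (hO : StOCTW) (n0 n1 n2 : ℕ) (R : ℝ)
    (h : TypE n0 n1 n2 R) (R' : ℝ) (hR : R' < R) :
    ∃ (m : ℕ) (g A w h : ℂ → ℂ), IsMapW n0 n1 n2 R' m g A w h := by
  rcases h with ⟨rfl, rfl, rfl, rfl⟩ | ⟨rfl, rfl, rfl, rfl⟩ | ⟨rfl, rfl, rfl, rfl⟩ |
    ⟨rfl, rfl, rfl, rfl⟩ | ⟨rfl, rfl, rfl, rfl⟩ | ⟨rfl, rfl, rfl, rfl⟩ | ⟨rfl, rfl, rfl, rfl⟩ |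
    ⟨rfl, rfl, rfl, rfl⟩ | ⟨rfl, rfl, rfl, rfl⟩ | ⟨rfl, rfl, rfl, rfl⟩ | ⟨rfl, rfl, rfl, rfl⟩
  · exact dbl hMT hD 4 4 32 (Or.inl ⟨rfl, rfl, rfl⟩) R' (by linarith)
  · exact dbl hMT hD 6 2 108 (Or.inr (Or.inr (Or.inr (Or.inr (Or.inr (Or.inr (Or.inr (Or.inr
      (Or.inr (Or.inr (Or.inr (Or.inl ⟨rfl, rfl, rfl⟩)))))))))))) R' (by linarith)
  · exact tri hMT hT 4 (by norm_num) 256 (Or.inr (Or.inr (Or.inl ⟨rfl, rfl, rfl⟩))) R'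
      (by linarith)
  · exact tri hMT hT 6 (by norm_num) 108 (Or.inr (Or.inr (Or.inr (Or.inr (Or.inr (Or.inr (Or.inr
      (Or.inr (Or.inr (Or.inr (Or.inr (Or.inl ⟨rfl, rfl, rfl⟩)))))))))))) R' (by linarith)
  · exact dbl hMT hD 6 6 (12 * Real.sqrt 3) (Or.inr (Or.inr (Or.inr (Or.inr (Or.inr (Or.inr
      (Or.inr (Or.inr (Or.inr (Or.inl ⟨rfl, rfl, rfl⟩)))))))))) R' (by linarith)
  · exact dbl hMT hD 3 0 27 (Or.inr (Or.inr (Or.inr (Or.inr (Or.inr (Or.inr (Or.inr (Or.inr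
      (Or.inr (Or.inr (Or.inr (Or.inr (Or.inl ⟨rfl, rfl, rfl⟩))))))))))))) R' (by linarith)
  · exact oct hMT hO R' hR
  · exact qua hMT hQ R' hR
  · exact hexa hMT hH R' hR
  · exact trj hMT hJ 4 (by norm_num) 32 (Or.inl ⟨rfl, rfl, rfl⟩) R' (by linarith)
  · refine trj hMT hJ 6 (by norm_num) (12 * Real.sqrt 3) (Or.inr (Or.inr (Or.inr (Or.inr (Or.inr
      (Or.inr (Or.inr (Or.inr (Or.inr (Or.inl ⟨rfl, rfl, rfl⟩)))))))))) R' ?_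
    have h3 := sq3
    nlinarith

end IMPW

open IMPW

theorem pr_MPW (hMT : StMapT) (hS : StSYMW) (hI : StINCW) (hD : StDBLW) (hT : StTRIW)
    (hQ : StQUAW) (hJ : StTRJW) (hH : StHEXW) (hO : StOCTW) : StMPW := by
  intro n0 n1 n2 R hty R' hR
  rcases hty with ⟨rfl, h⟩ | h | h
  · obtain ⟨m, g, A, w, h1⟩ := hMT n1 n2 R h R' hR
    exact ⟨m, g, A, w, _, hI n1 n2 R' m g A w h1⟩
  · exact typE hMT hD hT hQ hJ hH hO n0 n1 n2 R h R' hR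
  · obtain ⟨m, g, A, w, h', h1⟩ := typE hMT hD hT hQ hJ hH hO n0 n2 n1 R h R' hR
    exact ⟨m, g, w, A, h', hS _ _ _ _ _ _ _ _ _ h1⟩

end Pool.Agent.Work.MP_5e5ff1_ag.TH
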