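import Mathlib
import Pool.Agent.Work.MP_5e5ff1_ag.TH.StmtsA

set_option autoImplicit false

/-!
# MP_5e5ff1_ag, block TH, item PC012: `D^p = D` modulo `p` at the three points
-/

open Matrix Filter Topology
open scoped Polynomial

namespace Pool.Agent.Work.MP_5e5ff1_ag.TH

namespace IPC012

variable {ι : Type} [Fintype ι] [DecidableEq ι]

theorem core' {p : ℕ} (D : Module.End (ZMod p) (ℕ → ι → ZMod p)) (u : ι → ZMod p)
    (f : (ZMod p)[X]) (hf : f = Polynomial.X ^ p - Polynomial.X)
    (h : ∀ i, PowerSeries.mk (fun n => Polynomial.aeval D f (cst u) n i) = 0) :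
    (D ^ p) (cst u) = D (cst u) := by
  have h3 : Polynomial.aeval D f (cst u) = 0 := by
    funext n i
    have h4 := congrArg (PowerSeries.coeff n) (h i)
    rwa [PowerSeries.coeff_mk, map_zero] at h4
  rw [hf, map_sub, map_pow, Polynomial.aeval_X, LinearMap.sub_apply] at h3
  exact sub_eq_zero.1 h3

end IPC012

open IPC012 in
/-- PC012: the `p`-th iterates modulo `p` at the three points. -/
theorem pr_PC012 (h0 : StITR0) (h1 : StITR1) (h2 : StITR2) (hR : StREV) (hW : StWIL)
    (hG : StPCG) : StPC012 := by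
  intro p _ ι _ _ M β C hp hPZ
  have hM : (M : ZMod p) ≠ 0 := fun h => hp ((ZMod.natCast_eq_zero_iff M p).1 h)
  have hneg : ∏ a ∈ Finset.range p, ((Polynomial.X : (ZMod p)[X]) -
      Polynomial.C ((M : ZMod p) * (a : ZMod p))) = Polynomial.X ^ p - Polynomial.X := by
    rw [← hW p 0 (-(M : ZMod p)) (neg_ne_zero.2 hM)]
    refine Finset.prod_congr rfl fun a _ => ?_
    rw [zero_add, neg_mul, Polynomial.C_neg, ← sub_eq_add_neg]
  have hpos : ∏ a ∈ Finset.range p, ((Polynomial.X : (ZMod p)[X]) +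
      Polynomial.C ((M : ZMod p) * (a : ZMod p))) = Polynomial.X ^ p - Polynomial.X := by
    rw [← hW p 0 (M : ZMod p) hM]
    refine Finset.prod_congr rfl fun a _ => ?_
    rw [zero_add]
  have hQ : Qm M (db (ZMod p) β) (pm p C) p = 0 := hPZ
  refine ⟨?_, ?_, ?_⟩
  · refine hG p ι M (A0 β (pm p C)) fun u => core' _ u _ hneg fun i => ?_
    have h4 := h0 (ZMod p) ι M β (pm p C) u p i
    have h5 : ∑ j, ((Qm M (db (ZMod p) β) (pm p C) p i j : (ZMod p)[X]) :
        PowerSeries (ZMod p)) * PowerSeries.C (u j) = 0 := by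
      refine Finset.sum_eq_zero fun j _ => ?_
      rw [hQ, Matrix.zero_apply, Polynomial.coe_zero, zero_mul]
    rw [h5] at h4
    have h7 : (PowerSeries.X - 1 : PowerSeries (ZMod p)) ≠ 0 := by
      intro h
      have h8 := congrArg (PowerSeries.coeff 0) h
      simp at h8
    exact (mul_eq_zero.1 h4).resolve_left (pow_ne_zero _ h7)
  · refine hG p ι M (A1 β (pm p C)) fun u => core' _ u _ hneg fun i => ?_
    have h4 := h1 (ZMod p) ι M β (pm p C) u p i
    have h5 : ∑ j, (((Qm M (db (ZMod p) β) (pm p C) p i j).comp (Polynomial.X + 1) :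
        (ZMod p)[X]) : PowerSeries (ZMod p)) * PowerSeries.C (u j) = 0 := by
      refine Finset.sum_eq_zero fun j _ => ?_
      rw [hQ, Matrix.zero_apply, Polynomial.zero_comp, Polynomial.coe_zero, zero_mul]
    rw [h5] at h4
    have h7 : (PowerSeries.X + 1 : PowerSeries (ZMod p)) ≠ 0 := by
      intro h
      have h8 := congrArg (PowerSeries.coeff 0) h
      simp at h8
    exact (mul_eq_zero.1 h4).resolve_left (pow_ne_zero _ h7)
  · refine hG p ι M (A2 β (pm p C)) fun u => core' _ u _ hpos fun i => ?_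
    have h4 := h2 (ZMod p) ι M β (pm p C) u p i
    have h5 : ∑ j, ((Qr M (db (ZMod p) β) (pm p C) p i j : (ZMod p)[X]) :
        PowerSeries (ZMod p)) * PowerSeries.C (u j) = 0 := by
      refine Finset.sum_eq_zero fun j _ => ?_
      have h6 : Qr M (db (ZMod p) β) (pm p C) p i j = 0 := by
        obtain ⟨h7, h8⟩ := hR (ZMod p) ι M (db (ZMod p) β) (pm p C) p i j
        ext n
        rw [Polynomial.coeff_zero]
        rcases le_or_gt n p with hn | hn
        · rw [h7 n hn, hQ, Matrix.zero_apply, Polynomial.coeff_zero]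
        · exact (h8 n hn).1
      rw [h6, Polynomial.coe_zero, zero_mul]
    rw [h5, mul_zero] at h4
    have h7 : (1 - PowerSeries.X : PowerSeries (ZMod p)) ≠ 0 := by
      intro h
      have h8 := congrArg (PowerSeries.coeff 0) h
      simp at h8
    exact (mul_eq_zero.1 h4).resolve_left (pow_ne_zero _ h7)

end Pool.Agent.Work.MP_5e5ff1_ag.TH
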