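import Mathlib
import Pool.Agent.Work.MP_5e5ff1_ag.TH.StmtsX

set_option autoImplicit false

/-! # Item RKL of the block TH: algebraicity descends from the restriction of scalars -/

open Matrix Filter Topology NumberField
open scoped Polynomial

namespace Pool.Agent.Work.MP_5e5ff1_ag.TH

theorem IRKL.algC (z : ℂ) : IsAlgebraic ℂ[X] (PowerSeries.C z : PowerSeries ℂ) := by
  have h : algebraMap ℂ[X] (PowerSeries ℂ) (Polynomial.C z) = PowerSeries.C z := by
    rw [PowerSeries.algebraMap_apply', Polynomial.coe_C]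
    simp
  rw [← h]
  exact isAlgebraic_algebraMap _

theorem pr_RKL (hQC : TG.StQC) : StRKL := by
  intro K _ _ σ r U halg i j
  have hpos : 0 < Module.finrank ℤ (𝓞 K) := Module.finrank_pos
  let b : Fin (Module.finrank ℤ (𝓞 K)) := ⟨0, hpos⟩
  have hb0 : σ (qb K b) ≠ 0 := by
    rw [map_ne_zero]
    exact (qb K).ne_zero b
  have key : PowerSeries.mk (fun n => σ (U n i j)) =
      ∑ a, PowerSeries.C (σ (qb K a) / σ (qb K b)) *
        PowerSeries.map (algebraMap ℚ ℂ) (PowerSeries.mk fun n => rsK K (U n) (i, a) (j, b)) := by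
    ext n
    rw [PowerSeries.coeff_mk, map_sum]
    have h : (∑ a, rsK K (U n) (i, a) (j, b) • qb K a) = U n i j * qb K b := by
      refine Eq.trans (Finset.sum_congr rfl fun a _ => ?_) ((qb K).sum_repr (U n i j * qb K b))
      congr 1
      exact Algebra.leftMulMatrix_eq_repr_mul (qb K) (U n i j) a b
    have h3 : σ (U n i j) * σ (qb K b) = ∑ a, σ (qb K a) *
        ((rsK K (U n) (i, a) (j, b) : ℚ) : ℂ) := by
      rw [← map_mul, ← h, map_sum]
      refine Finset.sum_congr rfl fun a _ => ?_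
      rw [Algebra.smul_def, map_mul, mul_comm, eq_ratCast, map_ratCast]
    have h2 : σ (U n i j) = (∑ a, σ (qb K a) *
        ((rsK K (U n) (i, a) (j, b) : ℚ) : ℂ)) / σ (qb K b) :=
      eq_div_of_mul_eq hb0 h3
    rw [h2, Finset.sum_div]
    refine Finset.sum_congr rfl fun a _ => ?_
    rw [PowerSeries.coeff_C_mul, PowerSeries.coeff_map, PowerSeries.coeff_mk]
    simp only [eq_ratCast]
    ring
  rw [key]
  refine Finset.sum_induction _ (fun x => IsAlgebraic ℂ[X] x) (fun x y hx hy => hx.add hy)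
    isAlgebraic_zero ?_
  intro a _
  exact (IRKL.algC _).mul (hQC _ (halg _ _))

end Pool.Agent.Work.MP_5e5ff1_ag.TH
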