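import Mathlib
import Pool.Agent.Work.MP_5e5ff1_ag.TH.I_KAP2

set_option autoImplicit false

/-!
# MP_5e5ff1_ag, block TH, item TABG: the cost in terms of the exceptional primes only
-/

open Matrix Filter Topology
open scoped Polynomial

namespace Pool.Agent.Work.MP_5e5ff1_ag.TH

/-- TABG: the sum over the primes which are not in `T` is bounded by the constant of KAP2 -/
def StTABG : Prop := ∀ (T : Finset ℕ) (κ : ℕ → ℝ) (s s₀ : ℕ) (S : Set ℕ) (σ : ℝ),
  (∀ p ∈ T, p.Prime) → s ≤ s₀ → SmallS S σ →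
  CostT T κ s S (∑ p ∈ T, κ p * Real.log p + s₀ * (4112 / 10000 + Real.log 2 / 2 -
    ∑ p ∈ T, Real.log p / ((p : ℝ) * (p - 1)) + σ))

theorem pr_TABG (hKAP : StKAP2) : StTABG := by
  intro T κ s s₀ S σ hT hs hS F hF
  classical
  have hs' : (s : ℝ) ≤ s₀ := by exact_mod_cast hs
  have hn0 : ∀ p : ℕ, 0 ≤ Real.log (p : ℝ) := fun p => Real.log_natCast_nonneg p
  have hpm : ∀ p : ℕ, 0 ≤ (p : ℝ) * ((p : ℝ) - 1) := by
    intro p
    rcases Nat.eq_zero_or_pos p with h | h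
    · simp [h]
    · have : (1 : ℝ) ≤ p := by exact_mod_cast h
      exact mul_nonneg (by linarith) (by linarith)
  have hdisj : Disjoint T F := by
    rw [Finset.disjoint_left]
    intro p hpT hpF
    exact (hF p hpF).2 hpT
  have hA : ∑ p ∈ F, Real.log (p : ℝ) / ((p : ℝ) * ((p : ℝ) - 1)) ≤
      4112 / 10000 + Real.log 2 / 2 - ∑ p ∈ T, Real.log (p : ℝ) / ((p : ℝ) * ((p : ℝ) - 1)) := by
    have h7 := hKAP ((T ∪ F).sup id)
    have h8 : ∑ p ∈ T ∪ F, Real.log (p : ℝ) / ((p : ℝ) * ((p : ℝ) - 1)) ≤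
        ∑ p ∈ insert 2 (TG.opr ((T ∪ F).sup id)),
          Real.log (p : ℝ) / ((p : ℝ) * ((p : ℝ) - 1)) := by
      refine Finset.sum_le_sum_of_subset_of_nonneg ?_ fun p _ _ => div_nonneg (hn0 p) (hpm p)
      intro p hp
      have hpp : p.Prime := by
        rcases Finset.mem_union.1 hp with h | h
        · exact hT p h
        · exact (hF p h).1
      rw [Finset.mem_insert]
      by_cases h2 : p = 2
      · exact Or.inl h2
      · right
        have h9 : p ≤ (T ∪ F).sup id := Finset.le_sup (f := id) hp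
        have h10 := hpp.two_le
        exact Finset.mem_filter.2 ⟨Finset.mem_Icc.2 ⟨by omega, h9⟩, hpp⟩
    have h2n : 2 ∉ TG.opr ((T ∪ F).sup id) := by
      simp [TG.opr]
    rw [Finset.sum_insert h2n, Finset.sum_union hdisj] at h8
    have h10 : Real.log ((2 : ℕ) : ℝ) / (((2 : ℕ) : ℝ) * (((2 : ℕ) : ℝ) - 1)) =
        Real.log 2 / 2 := by
      push_cast
      norm_num
    rw [h10] at h8
    linarith
  have hB : ∑ p ∈ F, (if p ∈ S then 1 / (p : ℝ) else 0) * Real.log (p : ℝ) ≤ σ := by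
    have h7 := hS (F.filter (· ∈ S)) fun p hp =>
      ⟨(hF p (Finset.mem_filter.1 hp).1).1, (Finset.mem_filter.1 hp).2⟩
    rw [Finset.sum_filter] at h7
    refine le_trans (le_of_eq ?_) h7
    refine Finset.sum_congr rfl fun p _ => ?_
    split_ifs
    · ring
    · ring
  have hC : ∑ p ∈ F, (1 / ((p : ℝ) * (p - 1)) + if p ∈ S then 1 / (p : ℝ) else 0) *
      Real.log p ≤ 4112 / 10000 + Real.log 2 / 2 -
        ∑ p ∈ T, Real.log (p : ℝ) / ((p : ℝ) * ((p : ℝ) - 1)) + σ := by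
    have h7 : ∑ p ∈ F, (1 / ((p : ℝ) * (p - 1)) + if p ∈ S then 1 / (p : ℝ) else 0) *
        Real.log p = ∑ p ∈ F, Real.log (p : ℝ) / ((p : ℝ) * ((p : ℝ) - 1)) +
        ∑ p ∈ F, (if p ∈ S then 1 / (p : ℝ) else 0) * Real.log (p : ℝ) := by
      rw [← Finset.sum_add_distrib]
      exact Finset.sum_congr rfl fun p _ => by ring
    rw [h7]
    linarith
  have hC0 : 0 ≤ ∑ p ∈ F, (1 / ((p : ℝ) * (p - 1)) + if p ∈ S then 1 / (p : ℝ) else 0) *
      Real.log p := by
    refine Finset.sum_nonneg fun p _ => mul_nonneg (add_nonneg ?_ ?_) (hn0 p)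
    · exact one_div_nonneg.2 (hpm p)
    · split_ifs
      · positivity
      · exact le_rfl
  have hprod := (mul_le_mul_of_nonneg_right hs' hC0).trans
    (mul_le_mul_of_nonneg_left hC (Nat.cast_nonneg s₀))
  have hsum := add_le_add (le_refl (∑ p ∈ T, κ p * Real.log (p : ℝ))) hprod
  refine le_trans (le_of_eq ?_) hsum
  congr 1

end Pool.Agent.Work.MP_5e5ff1_ag.TH
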